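import Mathlib

/-!
# MP_188050_an, cell SR: a rotation of the circle which misses an arc
-/

open Set Filter Topology

namespace Pool.Agent.SRGap

/-- if the sequence `θ n + x` mod `1` eventually misses (the interior of) an arc of length `κ`, then `k θ` is an
integer for some `1 ≤ k ≤ 1 / κ` -/
theorem rot_arith {θ κ x b : ℝ} (hκ : 0 < κ) (hκ1 : κ ≤ 1)
    (h : ∀ ε > 0, ∃ Λ : ℝ, ∀ n : ℤ, Λ ≤ n → ∀ m : ℤ, θ * n + x ∉ Ioo (b + m + ε) (b + m + κ - ε)) :
    ∃ k : ℕ, 0 < k ∧ (k : ℝ) ≤ 1 / κ ∧ ∃ j : ℤ, (k : ℝ) * θ = j := by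
  set N : ℕ := ⌊1 / κ⌋₊ with hN
  have hN1 : 1 ≤ N := by
    rw [hN, Nat.one_le_floor_iff, le_div_iff₀ hκ]
    linarith
  have hNκ : 1 / κ < (N : ℝ) + 1 := Nat.lt_floor_add_one _
  have hNle : (N : ℝ) ≤ 1 / κ := Nat.floor_le (by positivity)
  obtain ⟨j, k, hk0, hkN, hkj⟩ := Real.exists_int_int_abs_mul_sub_le θ (n := N) (by omega)
  have hlt : |(k : ℝ) * θ - j| < κ := by
    refine lt_of_le_of_lt hkj ?_
    rw [div_lt_iff₀ (by positivity)]
    rw [div_lt_iff₀ hκ] at hNκ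
    linarith
  by_cases hη : (k : ℝ) * θ - j = 0
  · refine ⟨k.toNat, by omega, ?_, j, ?_⟩
    · have e : ((k.toNat : ℕ) : ℝ) = (k : ℝ) := by
        have : ((k.toNat : ℤ)) = k := Int.toNat_of_nonneg hk0.le
        exact_mod_cast this
      rw [e]
      refine le_trans ?_ hNle
      exact_mod_cast hkN
    · have e : ((k.toNat : ℕ) : ℝ) = (k : ℝ) := by
        have : ((k.toNat : ℤ)) = k := Int.toNat_of_nonneg hk0.le
        exact_mod_cast this
      rw [e]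
      linarith
  exfalso
  set η : ℝ := (k : ℝ) * θ - j with hηdef
  set ε : ℝ := (κ - |η|) / 4 with hε
  have hε0 : 0 < ε := by rw [hε]; linarith
  obtain ⟨Λ, hΛ⟩ := h ε hε0
  obtain ⟨n₀, hn₀⟩ : ∃ n₀ : ℤ, Λ ≤ n₀ := ⟨⌈Λ⌉, Int.le_ceil Λ⟩
  -- the subsequence
  have key : ∀ (i : ℕ) (m : ℤ), θ * n₀ + x + i * η ∉ Ioo (b + m + ε) (b + m + κ - ε) := by
    intro i m hmem
    have h1 := hΛ (n₀ + i * k) (by
      push_cast
      have h2 : (0 : ℝ) ≤ (i : ℝ) * k := mul_nonneg (Nat.cast_nonneg i) (by exact_mod_cast hk0.le)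
      linarith) (m + i * j)
    apply h1
    have e : θ * ((n₀ + i * k : ℤ) : ℝ) + x = θ * n₀ + x + i * η + i * j := by
      rw [hηdef]; push_cast; ring
    rw [e]
    push_cast
    exact ⟨by linarith [hmem.1], by linarith [hmem.2]⟩
  rcases lt_or_gt_of_ne hη with hneg | hpos
  · have habs : |η| = -η := abs_of_neg hneg
    rw [habs] at hε hlt
    obtain ⟨m, hm⟩ : ∃ m : ℤ, b + m + κ - ε < θ * n₀ + x := by
      refine ⟨⌊θ * n₀ + x - b - κ + ε⌋ - 1, ?_⟩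
      have := Int.floor_le (θ * n₀ + x - b - κ + ε)
      push_cast
      linarith
    set q : ℝ := (θ * n₀ + x - (b + m + κ - ε)) / (-η) with hq
    have hq0 : 0 < q := div_pos (by linarith) (by linarith)
    have h1 : (⌊q⌋₊ : ℝ) ≤ q := Nat.floor_le hq0.le
    have h2 : q < ⌊q⌋₊ + 1 := Nat.lt_floor_add_one q
    rw [hq, le_div_iff₀ (by linarith)] at h1
    rw [hq, div_lt_iff₀ (by linarith)] at h2
    refine key (⌊q⌋₊ + 1) m ⟨?_, ?_⟩
    · push_cast
      rw [← hq] at h1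
      nlinarith
    · push_cast
      rw [← hq] at h2
      nlinarith
  · have habs : |η| = η := abs_of_pos hpos
    rw [habs] at hε hlt
    obtain ⟨m, hm⟩ : ∃ m : ℤ, θ * n₀ + x < b + m + ε := by
      refine ⟨⌈θ * n₀ + x - b - ε⌉ + 1, ?_⟩
      have := Int.le_ceil (θ * n₀ + x - b - ε)
      push_cast
      linarith
    set q : ℝ := (b + m + ε - (θ * n₀ + x)) / η with hq
    have hq0 : 0 < q := div_pos (by linarith) hpos
    have h1 : (⌊q⌋₊ : ℝ) ≤ q := Nat.floor_le hq0.le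
    have h2 : q < ⌊q⌋₊ + 1 := Nat.lt_floor_add_one q
    rw [hq, le_div_iff₀ hpos] at h1
    rw [hq, div_lt_iff₀ hpos] at h2
    refine key (⌊q⌋₊ + 1) m ⟨?_, ?_⟩
    · push_cast
      rw [← hq] at h2
      nlinarith
    · push_cast
      rw [← hq] at h1
      nlinarith

end Pool.Agent.SRGap
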