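import Pool.Agent.Work.MP_188050_an.KFinal
import Pool.Agent.Work.MP_188050_an.KArith

/-!
# Cell SR: a spectrum which eventually misses the periodic gaps `(a + n c, a + n c + d)`
-/

open Set MeasureTheory Filter Topology VectorField
open scoped Manifold ContDiff

namespace Pool.Agent.SRGap

/-- an arithmetic progression of approximate eigenvalues in a spectrum with periodic gaps -/
theorem period_bands {B : Set ℝ} {a c d β P : ℝ} (hc : 0 < c) (hd : 0 < d) (hdc : d ≤ c) (hP : 0 < P)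
    (hspec : ∃ Λ : ℝ, ∀ s ∈ B, Λ ≤ s → ∀ n : ℤ, ¬ (a + n * c < s ∧ s < a + n * c + d))
    (hprog : ∀ ε > 0, ∃ Λ : ℝ, ∀ n : ℤ, Λ ≤ n → ∃ s ∈ B, |s - (2 * Real.pi * n + β) / P| < ε) :
    ∃ k j : ℕ, 0 < k ∧ (k : ℝ) ≤ c / d ∧ k * (2 * Real.pi / c) = j * P := by
  obtain ⟨Λ, hΛ⟩ := hspec
  obtain ⟨k, hk, hk2, j, hj⟩ := rot_arith (θ := 2 * Real.pi / (P * c)) (κ := d / c) (x := β / (P * c))
    (b := a / c) (div_pos hd hc) ((div_le_one hc).2 hdc) (fun ε hε => by
      obtain ⟨Λ', hΛ'⟩ := hprog (ε * c) (by positivity)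
      refine ⟨max Λ' (((Λ + ε * c) * P - β) / (2 * Real.pi)), fun n hn m hmem => ?_⟩
      have hn1 : Λ' ≤ n := (le_max_left _ _).trans hn
      have hn2 : ((Λ + ε * c) * P - β) / (2 * Real.pi) ≤ n := (le_max_right _ _).trans hn
      have hlow : Λ + ε * c ≤ (2 * Real.pi * n + β) / P := by
        rw [le_div_iff₀ hP]
        rw [div_le_iff₀ (by positivity)] at hn2
        linarith
      obtain ⟨s, hs, hs1⟩ := hΛ' n hn1
      rw [abs_lt] at hs1
      have e : 2 * Real.pi / (P * c) * n + β / (P * c) = (2 * Real.pi * n + β) / P / c := by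
        field_simp
      rw [e] at hmem
      obtain ⟨h1, h2⟩ := hmem
      rw [lt_div_iff₀ hc] at h1
      rw [div_lt_iff₀ hc] at h2
      have e1 : (a / c + m + ε) * c = a + m * c + ε * c := by field_simp
      have e2 : (a / c + m + d / c - ε) * c = a + m * c + d - ε * c := by field_simp
      rw [e1] at h1
      rw [e2] at h2
      exact hΛ s hs (by linarith) m ⟨by linarith, by linarith⟩)
  have hj0 : 0 < (j : ℝ) := by
    rw [← hj]
    have : (0 : ℝ) < k := by exact_mod_cast hk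
    positivity
  have hj0' : 0 ≤ j := by
    have : 0 < j := by exact_mod_cast hj0
    exact this.le
  refine ⟨k, j.toNat, hk, ?_, ?_⟩
  · rwa [one_div_div] at hk2
  · have h2 : ((j.toNat : ℕ) : ℝ) = (j : ℝ) := by
      have := Int.toNat_of_nonneg hj0'
      exact_mod_cast congrArg (fun z : ℤ => (z : ℝ)) this
    rw [h2, ← hj]
    field_simp

section M
variable {M : Type*} [TopologicalSpace M] [ChartedSpace E3 M] [IsManifold (𝓡 3) ∞ M]

/-- periodic spectral gaps: the Reeb flow is periodic, with an explicit period -/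
theorem bands [T2Space M] [CompactSpace M] [MeasurableSpace M] [BorelSpace M]
    (S : ContactSR M) (μ : Measure M) [IsFiniteMeasure μ] (hμ : SmoothPositive μ) {a c d : ℝ}
    (hc : 0 < c) (hd : 0 < d) (hdc : d ≤ c)
    (hspec : ∃ Λ : ℝ, ∀ s ∈ spec S μ, Λ ≤ s → ∀ n : ℤ, ¬ (a + n * c < s ∧ s < a + n * c + d))
    (γ : ℝ → M) (hγ : IsMIntegralCurve γ S.Z) :
    γ (((Finset.Icc 1 ⌊c / d⌋₊).lcm id : ℕ) * (2 * Real.pi / c)) = γ 0 := by
  obtain ⟨Fl, hFl, hFl0, hFlZ, hFla⟩ := exists_flow S.Z S.smooth_Z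
  have hγFl : γ = fun t => Fl t (γ 0) := curve_eq S.smooth_Z hγ (hFlZ (γ 0)) (by simp [hFl0])
  have hcont : Continuous fun p : ℝ × M => Fl p.1 p.2 := hFl.continuous
  -- all orbits are closed with a bounded period
  have hbd : ∀ x : M, ∃ T : ℝ, 0 < T ∧ T ≤ 2 * Real.pi / d ∧ Fl T x = x := by
    intro x
    by_contra hcon
    push Not at hcon
    obtain ⟨Λ, hΛ⟩ := main S μ hμ (fun t => Fl t x) (hFlZ x) (c := d) hd
      (fun T hT hTc => by
        simp only [hFl0]
        exact hcon T hT ((le_div_iff₀ hd).2 hTc))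
    obtain ⟨Λ', hΛ'⟩ := hspec
    obtain ⟨N, hN⟩ := exists_int_gt ((max Λ Λ' - a) / c)
    have hN' : max Λ Λ' - a < N * c := by rwa [div_lt_iff₀ hc] at hN
    have h1 : Λ ≤ a + N * c + d / 2 := by
      have := le_max_left Λ Λ'
      linarith
    have h2 : Λ' ≤ a + N * c := by
      have := le_max_right Λ Λ'
      linarith
    obtain ⟨s, hs, hst⟩ := hΛ _ h1
    rw [abs_lt] at hst
    exact hΛ' s hs (by linarith) N ⟨by linarith, by linarith⟩
  obtain ⟨m, hm, hshort⟩ := no_short S.Z Fl hFl hFl0 hFlZ hFla (fun x₀ => by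
    obtain ⟨U, hxU, X, Y, hXY⟩ := S.frame x₀
    exact ⟨X, Y, hXY.indep x₀ hxU⟩)
  set L : ℕ := (Finset.Icc 1 ⌊c / d⌋₊).lcm id with hL
  -- the set of periodic points is dense
  have hdense : Dense {x : M | Fl (L * (2 * Real.pi / c)) x = x} := by
    rw [dense_iff_inter_open]
    intro W hW hne
    obtain ⟨x₀, hx₀W, P, hP, hPx, hinj, hnear⟩ := good_point Fl hcont hFl0 hFla hm hshort hbd hW hne
    have hloc := loc_period S Fl hFl hFl0 hFlZ hFla hP hPx hnear
    obtain ⟨β, hβ⟩ := progression S μ hμ Fl hFl hFl0 hFlZ hFla hP hloc hinj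
    obtain ⟨k, j, hk, hkc, hkj⟩ := period_bands hc hd hdc hP hspec hβ
    have hdvd : k ∣ L := by
      have h1 : k ∈ Finset.Icc 1 ⌊c / d⌋₊ := Finset.mem_Icc.2 ⟨hk, Nat.le_floor hkc⟩
      exact Finset.dvd_lcm (f := id) h1
    obtain ⟨r, hr⟩ := hdvd
    refine ⟨x₀, hx₀W, ?_⟩
    show Fl (L * (2 * Real.pi / c)) x₀ = x₀
    have e : (L : ℝ) * (2 * Real.pi / c) = ((r * j : ℕ) : ℝ) * P := by
      rw [hr]
      push_cast
      calc (k : ℝ) * r * (2 * Real.pi / c) = r * (k * (2 * Real.pi / c)) := by ring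
        _ = r * j * P := by rw [hkj]; ring
    rw [e]
    exact Fl_int hFl0 hFla hPx (r * j)
  have hclosed : IsClosed {x : M | Fl (L * (2 * Real.pi / c)) x = x} := by
    refine isClosed_eq ?_ continuous_id
    exact hcont.comp (Continuous.prodMk_right _)
  have huniv : γ 0 ∈ {x : M | Fl (L * (2 * Real.pi / c)) x = x} := by
    rw [hclosed.closure_eq.symm, hdense.closure_eq]
    trivial
  have h1 : Fl (L * (2 * Real.pi / c)) (γ 0) = γ 0 := huniv
  rw [hγFl]
  simp only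
  rw [h1, hFl0]

end M

end Pool.Agent.SRGap
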