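import Mathlib

/-!
# MP_188050_an, cell SR, module 10: self-adjoint relations and gaps of the spectrum
-/

open scoped InnerProductSpace

namespace Pool.Agent.SRGap

/-- A symmetric bounded operator `R` such that `R - ν` is bijective for all real `ν` with
`|ν| > M` has norm at most `M`. -/
theorem norm_le_of_bijective {H : Type*} [NormedAddCommGroup H] [InnerProductSpace ℝ H]
    [CompleteSpace H] (R : H →L[ℝ] H) (hsym : ∀ x y, ⟪R x, y⟫_ℝ = ⟪x, R y⟫_ℝ) {M : ℝ} (hM : 0 < M)
    (hb : ∀ ν : ℝ, M < |ν| → Function.Bijective (fun x => R x - ν • x)) : ‖R‖ ≤ M := by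
  by_contra hcon
  set m := ‖R‖ with hm
  have hmM : M < m := not_le.mp hcon
  have hm0 : 0 < m := hM.trans hmM
  have b1 := hb m (by rwa [abs_of_pos hm0])
  have b2 := hb (-m) (by rwa [abs_neg, abs_of_pos hm0])
  let T : H →L[ℝ] H := (R - m • ContinuousLinearMap.id ℝ H).comp
    (R + m • ContinuousLinearMap.id ℝ H)
  have hT : ∀ x, T x = R (R x) - m ^ 2 • x := by
    intro x
    have h1 : T x = R (R x + m • x) - m • (R x + m • x) := rfl
    rw [h1, map_add, map_smul]
    module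
  have hTb : Function.Bijective T := by
    have : (T : H → H) = (fun x => R x - m • x) ∘ (fun x => R x - (-m) • x) := by
      ext x
      rw [hT]
      simp only [Function.comp, map_sub, map_smul]
      module
    rw [this]
    exact b1.comp b2
  let e := ContinuousLinearEquiv.ofBijective T (LinearMap.ker_eq_bot.mpr hTb.1)
    (LinearMap.range_eq_top.mpr hTb.2)
  obtain ⟨K, hK0, hK⟩ : ∃ K : ℝ, 0 < K ∧ ∀ x, ‖x‖ ≤ K * ‖T x‖ := by
    refine ⟨‖(e.symm : H →L[ℝ] H)‖ + 1, by positivity, fun x => ?_⟩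
    have h1 : (e.symm : H →L[ℝ] H) (T x) = x := e.symm_apply_apply x
    have h2 := (e.symm : H →L[ℝ] H).le_opNorm (T x)
    rw [h1] at h2
    nlinarith [norm_nonneg (T x)]
  have key : ∀ x, ‖R x‖ ^ 2 ≤ (m ^ 2 - 1 / (K ^ 2 * m ^ 2)) * ‖x‖ ^ 2 := by
    intro x
    have h1 : ‖T x‖ ^ 2 = ‖R (R x)‖ ^ 2 - 2 * m ^ 2 * ‖R x‖ ^ 2 + m ^ 4 * ‖x‖ ^ 2 := by
      rw [hT, @norm_sub_sq ℝ, inner_smul_right, hsym (R x) x, norm_smul]
      simp only [RCLike.re_to_real, real_inner_self_eq_norm_sq]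
      rw [Real.norm_of_nonneg (by positivity)]
      ring
    have h2 : ‖R (R x)‖ ≤ m * ‖R x‖ := R.le_opNorm _
    have h3 : ‖R (R x)‖ ^ 2 ≤ m ^ 2 * ‖R x‖ ^ 2 := by
      rw [← mul_pow]
      exact pow_le_pow_left₀ (norm_nonneg _) h2 2
    have h4 : ‖x‖ ^ 2 ≤ K ^ 2 * ‖T x‖ ^ 2 := by
      rw [← mul_pow]
      exact pow_le_pow_left₀ (norm_nonneg _) (hK x) 2
    have h5 : ‖x‖ ^ 2 ≤ K ^ 2 * (m ^ 2 * (m ^ 2 * ‖x‖ ^ 2 - ‖R x‖ ^ 2)) := by
      refine h4.trans (mul_le_mul_of_nonneg_left ?_ (by positivity))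
      rw [h1]
      nlinarith
    have h6 : 1 / (K ^ 2 * m ^ 2) * ‖x‖ ^ 2 ≤ m ^ 2 * ‖x‖ ^ 2 - ‖R x‖ ^ 2 := by
      rw [div_mul_eq_mul_div, one_mul, div_le_iff₀ (by positivity)]
      linarith [h5]
    linarith
  -- so the norm is smaller than `m`
  have hpos : 0 < 1 / (K ^ 2 * m ^ 2) := by positivity
  by_cases hneg : m ^ 2 - 1 / (K ^ 2 * m ^ 2) < 0
  · -- then every vector is zero
    have h0 : R = 0 := by
      ext x
      have h1 := key x
      have h2 : ‖R x‖ ^ 2 ≤ 0 := h1.trans (mul_nonpos_of_nonpos_of_nonneg hneg.le (sq_nonneg _))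
      have h3 : ‖R x‖ = 0 := by
        have := sq_nonneg ‖R x‖
        exact pow_eq_zero_iff (two_ne_zero) |>.mp (le_antisymm h2 this)
      simpa using h3
    rw [hm, h0, norm_zero] at hm0
    exact lt_irrefl _ hm0
  · have h1 : ‖R‖ ≤ Real.sqrt (m ^ 2 - 1 / (K ^ 2 * m ^ 2)) := by
      refine R.opNorm_le_bound (Real.sqrt_nonneg _) (fun x => ?_)
      have h2 := key x
      have h3 : (Real.sqrt (m ^ 2 - 1 / (K ^ 2 * m ^ 2)) * ‖x‖) ^ 2 =
          (m ^ 2 - 1 / (K ^ 2 * m ^ 2)) * ‖x‖ ^ 2 := by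
        rw [mul_pow, Real.sq_sqrt (not_lt.mp hneg)]
      rw [← h3] at h2
      exact le_of_sq_le_sq h2 (by positivity)
    have h2 : Real.sqrt (m ^ 2 - 1 / (K ^ 2 * m ^ 2)) < m := by
      rw [Real.sqrt_lt' hm0]
      linarith
    linarith

theorem gap_abstract {H : Type*} [NormedAddCommGroup H] [InnerProductSpace ℝ H] [CompleteSpace H]
    (Gr : Set (H × H)) (hadd : ∀ p ∈ Gr, ∀ q ∈ Gr, p + q ∈ Gr)
    (hsmul : ∀ (r : ℝ), ∀ p ∈ Gr, r • p ∈ Gr)
    (hsym : ∀ p ∈ Gr, ∀ q ∈ Gr, ⟪p.2, q.1⟫_ℝ = ⟪p.1, q.2⟫_ℝ) (t c : ℝ) (hc : 0 < c)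
    (hres : ∀ s, |s - t| < c / 2 → ∀ g : H, ∃! f : H, (f, g + s • f) ∈ Gr) :
    ∀ p ∈ Gr, c / 2 * ‖p.1‖ ≤ ‖p.2 - t • p.1‖ := by
  have ht : |t - t| < c / 2 := by
    rw [sub_self, abs_zero]
    positivity
  choose R0 hR0 huniq using hres t ht
  have uniq : ∀ g f, (f, g + t • f) ∈ Gr → f = R0 g := fun g f h => huniq g f h
  let R1 : H →ₗ[ℝ] H :=
    { toFun := R0
      map_add' := by
        intro g g'
        refine (uniq (g + g') (R0 g + R0 g') ?_).symm
        have := hadd _ (hR0 g) _ (hR0 g')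
        rw [Prod.mk_add_mk] at this
        convert this using 2
        rw [smul_add]
        abel
      map_smul' := by
        intro r g
        refine (uniq (r • g) (r • R0 g) ?_).symm
        have := hsmul r _ (hR0 g)
        rw [Prod.smul_mk] at this
        convert this using 2
        rw [smul_add, smul_comm] }
  have hR1 : ∀ g, R1 g = R0 g := fun g => rfl
  have hS : ∀ x y, ⟪R1 x, y⟫_ℝ = ⟪x, R1 y⟫_ℝ := by
    intro x y
    have := hsym _ (hR0 x) _ (hR0 y)
    simp only [inner_add_left, inner_add_right, real_inner_smul_left, real_inner_smul_right] at this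
    rw [hR1, hR1]
    linarith
  have hcont : Continuous R1 := LinearMap.IsSymmetric.continuous (T := R1) hS
  let R : H →L[ℝ] H := ⟨R1, hcont⟩
  have hR : ∀ g, R g = R0 g := fun g => rfl
  have h0 : ((0 : H), (0 : H)) ∈ Gr := by
    have := hsmul 0 _ (hR0 0)
    rwa [zero_smul] at this
  have hnorm : ‖R‖ ≤ 2 / c := by
    refine norm_le_of_bijective R hS (by positivity) (fun ν hν => ?_)
    have hν0 : ν ≠ 0 := by
      rintro rfl
      rw [abs_zero] at hν
      exact absurd hν (not_lt.mpr (by positivity))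
    have hs : |(t + 1 / ν) - t| < c / 2 := by
      rw [add_sub_cancel_left, abs_div, abs_one, div_lt_iff₀ (abs_pos.mpr hν0)]
      rw [div_lt_iff₀ hc] at hν
      linarith
    constructor
    · -- injective
      have inj0 : ∀ f, R f - ν • f = 0 → f = 0 := by
        intro f hf
        have hf' : R0 f = ν • f := by
          rw [← hR]
          exact sub_eq_zero.mp hf
        have h1 := hR0 f
        rw [hf'] at h1
        obtain ⟨u, -, hu⟩ := hres _ hs 0
        have h2 := hu (ν • f) (by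
          show (ν • f, 0 + (t + 1 / ν) • ν • f) ∈ Gr
          convert h1 using 2
          rw [add_smul, zero_add, smul_smul (1 / ν), one_div, inv_mul_cancel₀ hν0, one_smul]
          abel)
        have h3 := hu 0 (by
          show ((0 : H), 0 + (t + 1 / ν) • (0 : H)) ∈ Gr
          rw [smul_zero, add_zero]
          exact h0)
        have h4 : ν • f = 0 := h2.trans h3.symm
        exact (smul_eq_zero.mp h4).resolve_left hν0
      intro a b hab
      have hab' : R a - ν • a = R b - ν • b := hab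
      have h1 := inj0 (a - b) (by
        rw [map_sub, smul_sub]
        have : R a - R b - (ν • a - ν • b) = (R a - ν • a) - (R b - ν • b) := by abel
        rw [this, hab', sub_self])
      exact sub_eq_zero.mp h1
    · intro g
      obtain ⟨u, hu, -⟩ := hres _ hs ((-(1 / ν)) • g)
      have hu' : (u, (-(1 / ν)) • g + (t + 1 / ν) • u) ∈ Gr := hu
      refine ⟨(1 / ν) • (u - g), ?_⟩
      have h1 : u = R0 ((1 / ν) • (u - g)) := by
        apply uniq
        convert hu' using 2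
        rw [smul_sub, add_smul, neg_smul]
        abel
      show R ((1 / ν) • (u - g)) - ν • (1 / ν) • (u - g) = g
      rw [hR, ← h1, smul_smul, one_div, mul_inv_cancel₀ hν0, one_smul]
      abel
  intro p hp
  have h1 : p.1 = R0 (p.2 - t • p.1) := by
    apply uniq
    rw [sub_add_cancel]
    exact hp
  have h2 : ‖p.1‖ ≤ 2 / c * ‖p.2 - t • p.1‖ := by
    have h3 := R.le_opNorm (p.2 - t • p.1)
    rw [hR, ← h1] at h3
    exact h3.trans (mul_le_mul_of_nonneg_right hnorm (norm_nonneg _))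
  calc c / 2 * ‖p.1‖ ≤ c / 2 * (2 / c * ‖p.2 - t • p.1‖) :=
        mul_le_mul_of_nonneg_left h2 (by positivity)
    _ = ‖p.2 - t • p.1‖ := by
        field_simp

end Pool.Agent.SRGap
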