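import Pool.Agent.Work.MP_188050_an.Phase

/-!
# MP_188050_an, module 4: the amplitude
-/

open Set MeasureTheory Filter Topology VectorField
open scoped Manifold ContDiff InnerProductSpace

namespace Pool.Agent.SRGap

namespace Amp

theorem J_congr {k : ℕ} {f g : T3 → ℂ} (hf : J k f) (h : ∀ p, g p = f p) : J k g := by
  have : g = f := funext h
  rwa [this]

/-! ### functions of `s` alone -/

theorem contDiff_s {f : ℝ → ℂ} (hf : ContDiff ℝ ∞ f) : ContDiff ℝ ∞ (fun p : T3 => f p.1) :=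
  hf.comp contDiff_fst

theorem contDiff_at_axis {f : T3 → ℂ} (hf : ContDiff ℝ ∞ f) : ContDiff ℝ ∞ (fun s : ℝ => f (s, 0, 0)) :=
  hf.comp (contDiff_id.prodMk contDiff_const)

theorem fderiv_s {f : ℝ → ℂ} {p : T3} (hf : DifferentiableAt ℝ f p.1) (v : T3) :
    fderiv ℝ (fun q : T3 => f q.1) p v = (v.1 : ℂ) * deriv f p.1 := by
  have h1 : HasFDerivAt (fun q : T3 => f q.1) ((fderiv ℝ f p.1).comp (ContinuousLinearMap.fst ℝ ℝ (ℝ × ℝ))) p :=
    hf.hasFDerivAt.comp p hasFDerivAt_fst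
  rw [h1.fderiv]
  change fderiv ℝ f p.1 v.1 = _
  rw [fderiv_eq_smul_deriv]
  simp

theorem pd0_s {f : ℝ → ℂ} {p : T3} (hf : DifferentiableAt ℝ f p.1) :
    pd0 (fun q : T3 => f q.1) p = deriv f p.1 := by
  unfold pd0
  rw [fderiv_s hf]; simp

theorem op_s (w : CVF) {f : ℝ → ℂ} {p : T3} (hf : DifferentiableAt ℝ f p.1) :
    w.op (fun q : T3 => f q.1) p = w.s p * deriv f p.1 := by
  unfold CVF.op pd0 pd1 pd2
  rw [fderiv_s hf, fderiv_s hf, fderiv_s hf]; simp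

theorem pd0_mul {f g : T3 → ℂ} {p : T3} (hf : DifferentiableAt ℝ f p) (hg : DifferentiableAt ℝ g p) :
    pd0 (fun q => f q * g q) p = f p * pd0 g p + g p * pd0 f p := by
  unfold pd0
  have := (hf.hasFDerivAt.mul hg.hasFDerivAt).fderiv
  have e : (fun q => f q * g q) = f * g := rfl
  rw [e, this]; simp

theorem pd0_add {f g : T3 → ℂ} {p : T3} (hf : DifferentiableAt ℝ f p) (hg : DifferentiableAt ℝ g p) :
    pd0 (fun q => f q + g q) p = pd0 f p + pd0 g p := by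
  unfold pd0
  rw [fderiv_fun_add hf hg]; simp

theorem op_eta (w : CVF) (p : T3) : w.op eta p = w.x p - Complex.I * w.y p := by
  have h : eta = fun p : T3 => (p.2.1 : ℂ) * 1 + (p.2.2 : ℂ) * (-Complex.I) := by
    funext q; unfold eta; ring
  rw [h]
  have h1 : DifferentiableAt ℝ (fun _ : T3 => (1 : ℂ)) p := differentiableAt_const _
  have h2 : DifferentiableAt ℝ (fun _ : T3 => (-Complex.I : ℂ)) p := differentiableAt_const _
  rw [w.op_xy h1 h2, w.op_const, w.op_const]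
  ring

/-- the scalar equation `a' = g a` -/
theorem exists_a0 {g : ℝ → ℂ} (hg : ContDiff ℝ ∞ g) :
    ∃ a : ℝ → ℂ, ContDiff ℝ ∞ a ∧ (∀ s, a s ≠ 0) ∧ ∀ s, deriv a s = g s * a s := by
  have h1 : ∀ s, HasDerivAt (fun s => ∫ r in (0 : ℝ)..s, g r) (g s) s := fun s =>
    (hg.continuous.integral_hasStrictDerivAt 0 s).hasDerivAt
  have h2 : ContDiff ℝ ∞ (fun s => ∫ r in (0 : ℝ)..s, g r) := by
    rw [contDiff_infty_iff_deriv]
    refine ⟨fun s => (h1 s).differentiableAt, ?_⟩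
    have : deriv (fun s => ∫ r in (0 : ℝ)..s, g r) = g := funext fun s => (h1 s).deriv
    rwa [this]
  refine ⟨fun s => Complex.exp (∫ r in (0 : ℝ)..s, g r), h2.cexp, fun s => Complex.exp_ne_zero _, ?_⟩
  intro s
  rw [(h1 s).cexp.deriv]
  ring

theorem deriv_ofReal {ψ : ℝ → ℝ} (hψ : Differentiable ℝ ψ) (s : ℝ) :
    deriv (fun s => (ψ s : ℂ)) s = ((deriv ψ s : ℝ) : ℂ) :=
  ((hψ s).hasDerivAt.ofReal_comp).deriv

theorem contDiff_ofReal' {ψ : ℝ → ℝ} (hψ : ContDiff ℝ ∞ ψ) : ContDiff ℝ ∞ (fun s => (ψ s : ℂ)) :=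
  Complex.ofRealCLM.contDiff.comp hψ

theorem contDiff_deriv {ψ : ℝ → ℝ} (hψ : ContDiff ℝ ∞ ψ) : ContDiff ℝ ∞ (deriv ψ) :=
  (contDiff_infty_iff_deriv.1 hψ).2

theorem contDiff_derivC {ψ : ℝ → ℂ} (hψ : ContDiff ℝ ∞ ψ) : ContDiff ℝ ∞ (deriv ψ) :=
  (contDiff_infty_iff_deriv.1 hψ).2

/-! ### the coefficients for an amplitude `A = ψ A₀ + ψ' B` -/

section amp

variable {w : CVF} {m n om : T3 → ℂ} {θ a₀ : ℝ → ℂ} {A₀ B : T3 → ℂ}

/-- `W₁ A = ψ θ η a₀ + O(r²)` -/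
theorem amp_W1 (hw : w.Smooth) (hws : J 1 w.s) (hm : ContDiff ℝ ∞ m) (ha : ContDiff ℝ ∞ a₀)
    (hA : J 1 (fun p => A₀ p - a₀ p.1)) (hAW : J 2 (fun p => W1 w m A₀ p - θ p.1 * a₀ p.1 * eta p))
    (hB : J 2 B) (hBW : J 2 (fun p => w.op B p + w.s p * a₀ p.1)) {ψ : ℝ → ℝ} (hψ : ContDiff ℝ ∞ ψ) :
    J 2 (fun p => W1 w m (fun p => (ψ p.1 : ℂ) * A₀ p + ((deriv ψ p.1 : ℝ) : ℂ) * B p) p -
      (ψ p.1 : ℂ) * (θ p.1 * a₀ p.1) * eta p) := by
  have hψc := contDiff_ofReal' hψ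
  have hψ1 := contDiff_ofReal' (contDiff_deriv hψ)
  have hψ2 := contDiff_ofReal' (contDiff_deriv (contDiff_deriv hψ))
  have hA₀ : ContDiff ℝ ∞ A₀ := by
    have := (J_contDiff hA).add (contDiff_s ha)
    simpa using this
  have hBs : ContDiff ℝ ∞ B := J_contDiff hB
  have e1 := J_smul (contDiff_s hψc) hAW
  have e2 : J 2 (fun p => w.s p * (A₀ p - a₀ p.1)) := J_mul hws hA
  have e3 := J_smul (contDiff_s hψ1) (J_add (J_add e2 hBW) (J_smul hm hB))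
  have e4 := J_smul (contDiff_s hψ2) (J_smul hw.s hB)
  refine J_congr (J_add (J_add e1 e3) e4) fun p => ?_
  have dψ : DifferentiableAt ℝ (fun q : T3 => (ψ q.1 : ℂ)) p :=
    (contDiff_s hψc).differentiable (by simp) p
  have dψ1 : DifferentiableAt ℝ (fun q : T3 => ((deriv ψ q.1 : ℝ) : ℂ)) p :=
    (contDiff_s hψ1).differentiable (by simp) p
  have dA : DifferentiableAt ℝ A₀ p := hA₀.differentiable (by simp) p
  have dB : DifferentiableAt ℝ B p := hBs.differentiable (by simp) p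
  have s1 : w.op (fun q : T3 => (ψ q.1 : ℂ)) p = w.s p * ((deriv ψ p.1 : ℝ) : ℂ) := by
    rw [op_s w (f := fun s => (ψ s : ℂ)) (hψc.differentiable (by simp) _),
      deriv_ofReal (hψ.differentiable (by simp))]
  have s2 : w.op (fun q : T3 => ((deriv ψ q.1 : ℝ) : ℂ)) p =
      w.s p * ((deriv (deriv ψ) p.1 : ℝ) : ℂ) := by
    rw [op_s w (f := fun s => ((deriv ψ s : ℝ) : ℂ)) (hψ1.differentiable (by simp) _),
      deriv_ofReal ((contDiff_deriv hψ).differentiable (by simp))]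
  have s3 := w.op_add (f := fun q => (ψ q.1 : ℂ) * A₀ q) (g := fun q => ((deriv ψ q.1 : ℝ) : ℂ) * B q)
    (dψ.mul dA) (dψ1.mul dB)
  unfold W1
  rw [s3, w.op_mul dψ dA, w.op_mul dψ1 dB, s1, s2]
  ring

end amp

end Amp

open Amp in
theorem exists_amp (τ : Tube) (m n om : T3 → ℂ) (hm : ContDiff ℝ ∞ m) (hn : ContDiff ℝ ∞ n)
    (hom : ContDiff ℝ ∞ om) {Φ : T3 → ℂ} (hΦs : ContDiff ℝ ∞ Φ)
    (hΦ : J 3 (fun p => Φ p - τ.phi2 p)) (hΦ4 : J 4 (τ.w.op Φ)) :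
    ∃ (a₀ : ℝ → ℂ) (A₀ B : T3 → ℂ), ContDiff ℝ ∞ a₀ ∧ (∀ s, a₀ s ≠ 0) ∧ ContDiff ℝ ∞ A₀ ∧
      ContDiff ℝ ∞ B ∧ ∀ ψ : ℝ → ℝ, ContDiff ℝ ∞ ψ →
        J 1 (fun p => ((ψ p.1 : ℂ) * A₀ p + ((deriv ψ p.1 : ℝ) : ℂ) * B p) - (ψ p.1 : ℂ) * a₀ p.1) ∧
        J 5 (c2 τ.w Φ (fun p => (ψ p.1 : ℂ) * A₀ p + ((deriv ψ p.1 : ℝ) : ℂ) * B p)) ∧
        J 3 (c1 τ.w m n Φ (fun p => (ψ p.1 : ℂ) * A₀ p + ((deriv ψ p.1 : ℝ) : ℂ) * B p)) ∧
        J 1 (fun p => c0 τ.w m n om (fun p => (ψ p.1 : ℂ) * A₀ p + ((deriv ψ p.1 : ℝ) : ℂ) * B p) p +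
          Complex.I * ((deriv ψ p.1 : ℝ) : ℂ) * a₀ p.1) := by
  have hw := τ.w_smooth
  have hws := τ.ws_J
  have hwb : τ.w.conj.Smooth := hw.conj
  have hκ := τ.kap_smooth
  have hκ1 := contDiff_derivC hκ
  have hd : ContDiff ℝ ∞ (fun s : ℝ => (τ.d (s, 0, 0) : ℂ)) :=
    contDiff_ofReal' (τ.smooth_d.comp (contDiff_id.prodMk contDiff_const))
  have hd0 : ∀ s : ℝ, (τ.d (s, 0, 0) : ℂ) ≠ 0 := fun s => by
    exact_mod_cast (τ.d_pos (s, 0, 0)).ne'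
  -- `θ` and `D₁`
  set θ : ℝ → ℂ := fun s => Complex.I * deriv τ.kap s / (4 * τ.kap s * (τ.d (s, 0, 0) : ℂ)) with hθ
  have hθs : ContDiff ℝ ∞ θ := by
    have h1 : ∀ s, (4 : ℂ) * τ.kap s * (τ.d (s, 0, 0) : ℂ) ≠ 0 := fun s =>
      mul_ne_zero (mul_ne_zero (by norm_num) (τ.kap_ne s)) (hd0 s)
    have h2 : ContDiff ℝ ∞ (fun s : ℝ => (4 : ℂ) * τ.kap s * (τ.d (s, 0, 0) : ℂ)) :=
      (contDiff_const.mul hκ).mul hd
    have h3 : ContDiff ℝ ∞ (fun s : ℝ => Complex.I * deriv τ.kap s *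
        (4 * τ.kap s * (τ.d (s, 0, 0) : ℂ))⁻¹) := (contDiff_const.mul hκ1).mul (h2.inv h1)
    have h4 : θ = fun s : ℝ => Complex.I * deriv τ.kap s * (4 * τ.kap s * (τ.d (s, 0, 0) : ℂ))⁻¹ := by
      funext s; simp only [hθ, div_eq_mul_inv]
    rw [h4]; exact h3
  have hθ2 : ∀ s, 2 * τ.kap s * (τ.d (s, 0, 0) : ℂ) * θ s = Complex.I / 2 * deriv τ.kap s := by
    intro s
    have h1 := τ.kap_ne s
    have h2 := hd0 s
    simp only [hθ]
    field_simp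
    ring
  set D₁ : ℝ → ℂ := fun s => τ.w.conj.x (s, 0, 0) - Complex.I * τ.w.conj.y (s, 0, 0) with hD₁
  have hD₁s : ContDiff ℝ ∞ D₁ :=
    (contDiff_at_axis hwb.x).sub (contDiff_const.mul (contDiff_at_axis hwb.y))
  clear_value θ
  -- `a₀`
  set g : ℝ → ℂ := fun s => -Complex.I * (om (s, 0, 0) - θ s * D₁ s) with hg
  have hgs : ContDiff ℝ ∞ g :=
    contDiff_const.mul ((contDiff_at_axis hom).sub (hθs.mul hD₁s))
  obtain ⟨a₀, ha, ha0, ha1⟩ := exists_a0 hgs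
  have hα := contDiff_s ha
  have hopα : ∀ p, τ.w.op (fun p => a₀ p.1) p = g p.1 * a₀ p.1 * τ.w.s p := fun p => by
    rw [op_s τ.w (ha.differentiable (by simp) _), ha1]; ring
  -- `A₁`
  obtain ⟨A₁, hA₁, hA₁'⟩ := solve hw τ.w_ne (k := 0) (R := fun p => -(m p * a₀ p.1)) (hm.mul hα).neg
  -- `A₂`
  have hR : J 1 (fun p => θ p.1 * a₀ p.1 * eta p - (τ.w.op (fun p => a₀ p.1) p + τ.w.op A₁ p +
      m p * (a₀ p.1 + A₁ p))) := by
    have t1 : J 1 (fun p => θ p.1 * a₀ p.1 * eta p) := J_smul ((contDiff_s hθs).mul hα) J_eta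
    have t2 : J 1 (fun p => g p.1 * a₀ p.1 * τ.w.s p) := J_smul ((contDiff_s hgs).mul hα) hws
    have t3 : J 1 (fun p => m p * A₁ p) := J_smul hm hA₁
    refine J_congr (J_sub t1 (J_add (J_add t2 hA₁') t3)) fun p => ?_
    rw [hopα]; ring
  obtain ⟨A₂, hA₂, hA₂'⟩ := solve hw τ.w_ne hR
  -- `B`
  obtain ⟨B, hB, hB'⟩ := solve hw τ.w_ne (k := 1) (R := fun p => -(a₀ p.1 * τ.w.s p))
    (J_neg (J_smul hα hws))
  have dα : Differentiable ℝ (fun p : T3 => a₀ p.1) := hα.differentiable (by simp)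
  have hA₁₂ : J 1 (fun p => (a₀ p.1 + A₁ p + A₂ p) - a₀ p.1) :=
    J_congr (J_add hA₁ (J_mono (by norm_num) hA₂)) fun p => by ring
  have hAs : ContDiff ℝ ∞ (fun p => a₀ p.1 + A₁ p + A₂ p) :=
    (hα.add (J_contDiff hA₁)).add (J_contDiff hA₂)
  have hAW : J 2 (fun p => W1 τ.w m (fun p => a₀ p.1 + A₁ p + A₂ p) p - θ p.1 * a₀ p.1 * eta p) := by
    refine J_congr (J_add hA₂' (J_smul hm hA₂)) fun p => ?_
    unfold W1
    have s1 := τ.w.op_add (f := fun p => a₀ p.1 + A₁ p) (g := A₂) ((dα p).add (J_diff hA₁ p)) (J_diff hA₂ p)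
    have s2 := τ.w.op_add (f := fun p => a₀ p.1) (g := A₁) (dα p) (J_diff hA₁ p)
    rw [s1, s2]
    ring
  have hBW : J 2 (fun p => τ.w.op B p + τ.w.s p * a₀ p.1) := J_congr hB' fun p => by ring
  -- the phase
  have hP := phase_conj τ hΦ
  have hS := phase_pd0 τ hΦ
  have hκd : ContDiff ℝ ∞ (fun p : T3 => 2 * Complex.I * τ.kap p.1 * (τ.d (p.1, 0, 0) : ℂ)) :=
    (contDiff_const.mul (contDiff_s hκ)).mul (contDiff_s hd)
  have hWb : J 1 (τ.w.conj.op Φ) := J_congr (J_add (J_mono (by norm_num) hP) (J_smul hκd J_eta))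
    fun p => by ring
  refine ⟨a₀, fun p => a₀ p.1 + A₁ p + A₂ p, B, ha, ha0, hAs, J_contDiff hB, fun ψ hψ => ?_⟩
  have hψc := contDiff_s (contDiff_ofReal' hψ)
  have hψ1 := contDiff_s (contDiff_ofReal' (contDiff_deriv hψ))
  have hr := amp_W1 hw hws hm ha hA₁₂ hAW hB hBW hψ
  have hδ : J 1 (fun p : T3 => ((ψ p.1 : ℂ) * (a₀ p.1 + A₁ p + A₂ p) +
      ((deriv ψ p.1 : ℝ) : ℂ) * B p) - (ψ p.1 : ℂ) * a₀ p.1) :=
    J_congr (J_add (J_smul hψc hA₁₂) (J_smul hψ1 (J_mono (by norm_num) hB))) fun p => by ring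
  have hAss : ContDiff ℝ ∞ (fun p : T3 => (ψ p.1 : ℂ) * (a₀ p.1 + A₁ p + A₂ p) +
      ((deriv ψ p.1 : ℝ) : ℂ) * B p) := (hψc.mul hAs).add (hψ1.mul (J_contDiff hB))
  set A : T3 → ℂ := fun p => (ψ p.1 : ℂ) * (a₀ p.1 + A₁ p + A₂ p) +
      ((deriv ψ p.1 : ℝ) : ℂ) * B p with hA
  have hW1A : J 1 (W1 τ.w m A) := J_congr (J_add (J_mono (by norm_num) hr)
    (J_smul (hψc.mul ((contDiff_s hθs).mul hα)) J_eta)) fun p => by ring
  refine ⟨hδ, ?_, ?_, ?_⟩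
  · -- `c2`
    refine J_congr (J_smul hAss (J_mul hWb hΦ4)) fun p => ?_
    unfold c2; ring
  · -- `c1`
    have t1 : J 3 (fun p => (τ.w.conj.op Φ p -
        2 * Complex.I * τ.kap p.1 * (τ.d (p.1, 0, 0) : ℂ) * eta p) * W1 τ.w m A p) := J_mul hP hW1A
    have t2 : J 3 (fun p => eta p * (W1 τ.w m A p - (ψ p.1 : ℂ) * (θ p.1 * a₀ p.1) * eta p)) :=
      J_mul J_eta hr
    have hη2 : J 2 (fun p => eta p * eta p) := J_mul J_eta J_eta
    have t3 : J 3 (fun p => (eta p * eta p) * (A p - (ψ p.1 : ℂ) * a₀ p.1)) := J_mul hη2 hδ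
    have t4 : J 4 (fun p => τ.w.op Φ p * A p) := J_congr (J_smul hAss hΦ4) fun p => by ring
    have t5 : J 3 (Wd τ.w n (fun p => τ.w.op Φ p * A p)) := by
      unfold Wd
      exact J_add (J_neg (J_op hwb t4)) (J_mono (by norm_num) (J_smul hn t4))
    have t6 := J_smul hAss hS
    have s1 := J_smul (contDiff_const (c := -Complex.I)) t1
    have s2 := J_smul (contDiff_const (c := (2 : ℂ)).mul ((contDiff_s hκ).mul (contDiff_s hd))) t2
    have s3 := J_smul (contDiff_const (c := -(Complex.I / 2)).mul (contDiff_s hκ1)) t3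
    have s5 := J_smul (contDiff_const (c := Complex.I)) t5
    refine J_congr (J_add (J_add (J_add (J_add s1 s2) s3) s5) t6) fun p => ?_
    unfold c1
    have h1 := hθ2 p.1
    have hI := Complex.I_mul_I
    linear_combination ((ψ p.1 : ℂ) * a₀ p.1 * (eta p * eta p)) * h1 +
      (-2 * τ.kap p.1 * (τ.d (p.1, 0, 0) : ℂ) * eta p * W1 τ.w m A p) * hI
  · -- `c0`
    have hW1s : ContDiff ℝ ∞ (W1 τ.w m A) := J_contDiff hW1A
    refine J_of_axis ?_ fun s => ?_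
    · have t1 : ContDiff ℝ ∞ (Wd τ.w n (W1 τ.w m A)) := by
        unfold Wd
        exact (hwb.op hW1s).neg.add (hn.mul hW1s)
      unfold c0
      exact ((t1.sub (contDiff_const.mul (contDiff_pd0 hAss))).add (hom.mul hAss)).add
        ((contDiff_const.mul hψ1).mul hα)
    · have z1 : W1 τ.w m A (s, 0, 0) = 0 := J_axis hW1A s
      have z2 := J_axis (J_op hwb hr) s
      have z3 := J_axis (J_pd0 hδ) s
      have z4 := J_axis hδ s
      have z5 : eta (s, 0, 0) = 0 := J_axis J_eta s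
      -- the derivative of `W₁ A`
      have f1 : ContDiff ℝ ∞ (fun p : T3 => (ψ p.1 : ℂ) * (θ p.1 * a₀ p.1)) :=
        hψc.mul ((contDiff_s hθs).mul hα)
      have f2 : ContDiff ℝ ∞ eta := J_contDiff J_eta
      have y1 := τ.w.conj.op_sub (f := W1 τ.w m A)
        (g := fun p => (ψ p.1 : ℂ) * (θ p.1 * a₀ p.1) * eta p)
        (hW1s.differentiable (by simp) (s, 0, 0)) ((f1.mul f2).differentiable (by simp) (s, 0, 0))
      have y2 := τ.w.conj.op_mul (f := fun p : T3 => (ψ p.1 : ℂ) * (θ p.1 * a₀ p.1)) (g := eta)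
        (f1.differentiable (by simp) (s, 0, 0)) (f2.differentiable (by simp) (s, 0, 0))
      have y3 := op_eta τ.w.conj (s, 0, 0)
      -- the derivative of `A`
      have x1 := pd0_add (f := fun p : T3 => A p - (ψ p.1 : ℂ) * a₀ p.1)
        (g := fun p : T3 => (ψ p.1 : ℂ) * a₀ p.1)
        ((J_diff hδ) (s, 0, 0)) ((hψc.mul hα).differentiable (by simp) (s, 0, 0))
      have x2 := pd0_mul (f := fun p : T3 => (ψ p.1 : ℂ)) (g := fun p : T3 => a₀ p.1)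
        (hψc.differentiable (by simp) (s, 0, 0)) (hα.differentiable (by simp) (s, 0, 0))
      have x3 : pd0 (fun p : T3 => (ψ p.1 : ℂ)) (s, 0, 0) = ((deriv ψ s : ℝ) : ℂ) := by
        rw [pd0_s (f := fun s => (ψ s : ℂ)) ((contDiff_ofReal' hψ).differentiable (by simp) _),
          deriv_ofReal (hψ.differentiable (by simp))]
      have x4 : pd0 (fun p : T3 => a₀ p.1) (s, 0, 0) = g s * a₀ s := by
        rw [pd0_s (ha.differentiable (by simp) _), ha1]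
      have x5 : (fun p : T3 => (A p - (ψ p.1 : ℂ) * a₀ p.1) + (ψ p.1 : ℂ) * a₀ p.1) = A := by
        funext p; ring
      rw [x5, x2, x3, x4] at x1
      simp only at z2 z3 z4 y1 y2 x1
      rw [y2, y3, z5] at y1
      unfold c0 Wd
      simp only
      rw [z1]
      have g1 : g s = -Complex.I * (om (s, 0, 0) - θ s * D₁ s) := rfl
      have g2 : D₁ s = τ.w.conj.x (s, 0, 0) - Complex.I * τ.w.conj.y (s, 0, 0) := rfl
      rw [x1, z3, g1, g2]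
      have hI := Complex.I_mul_I
      have z2' : τ.w.conj.op (W1 τ.w m A) (s, 0, 0) = (ψ s : ℂ) * (θ s * a₀ s) *
          (τ.w.conj.x (s, 0, 0) - Complex.I * τ.w.conj.y (s, 0, 0)) := by
        linear_combination z2 - y1
      rw [z2']
      linear_combination (om (s, 0, 0)) * z4 + ((ψ s : ℂ) * a₀ s * (om (s, 0, 0) -
        θ s * (τ.w.conj.x (s, 0, 0) - Complex.I * τ.w.conj.y (s, 0, 0)))) * hI

end Pool.Agent.SRGap
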