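import Pool.Agent.Work.MP_188050_an.Tube

/-!
# Immersed tubes (second theorem of the cell)
-/

open Set MeasureTheory Filter Topology VectorField
open scoped Manifold ContDiff

namespace Pool.Agent.SRGap

section M
variable {M : Type*} [TopologicalSpace M] [ChartedSpace E3 M]

/-- `F` is a smooth local diffeomorphism on the open set `O` (its local inverses are smooth charts) -/
structure IsImm (F : T3 → M) (O : Set T3) : Prop where
  isOpen : IsOpen O
  chart : ∀ p ∈ O, ∃ e : OpenPartialHomeomorph M T3, IsTubeChart e ∧ p ∈ e.target ∧ e.target ⊆ O ∧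
    ∀ q, e.symm q = F q

/-- extension by zero to `M` of a complex function on the tube -/
noncomputable def extC (e : OpenPartialHomeomorph M T3) (v : T3 → ℂ) (x : M) : ℂ :=
  (ext0 e (fun p => (v p).re) x : ℂ) + Complex.I * (ext0 e (fun p => (v p).im) x : ℂ)

/-- `ρ₀` is the density of `μ` in the coordinates of an immersed tube -/
def IsDens [MeasurableSpace M] (μ : Measure M) (F : T3 → M) (O : Set T3) (ρ₀ : T3 → ℝ) : Prop :=
  ∀ e : OpenPartialHomeomorph M T3, IsTubeChart e → e.target ⊆ O → (∀ q, e.symm q = F q) →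
    ∀ g : M → ℝ, Continuous g → (∀ x, x ∉ e.source → g x = 0) →
      ∫ x, g x ∂μ = ∫ p in e.target, g (F p) * ρ₀ p

variable [IsManifold (𝓡 3) ∞ M]

/-- the cometric pulled back by a local diffeomorphism -/
noncomputable def iG (S : ContactSR M) (F : T3 → M) (p : T3) (ξ η : T3 →L[ℝ] ℝ) : ℝ :=
  S.G (F p) (ξ ∘L ((mfderiv 𝓘(ℝ, T3) (𝓡 3) F p).inverse : TangentSpace (𝓡 3) (F p) →L[ℝ] T3))
    (η ∘L ((mfderiv 𝓘(ℝ, T3) (𝓡 3) F p).inverse : TangentSpace (𝓡 3) (F p) →L[ℝ] T3))

end M

end Pool.Agent.SRGap
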