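import Pool.Agent.Work.MP_188050_an.Tube

/-!
# The long flow box
-/

open Set MeasureTheory Filter Topology VectorField
open scoped Manifold ContDiff

namespace Pool.Agent.SRGap

theorem equiv_of_inj {D : T3 →L[ℝ] E3} (hD : Function.Injective D) :
    ∃ f' : T3 ≃L[ℝ] E3, (f' : T3 →L[ℝ] E3) = D := by
  have hdim : Module.finrank ℝ T3 = Module.finrank ℝ E3 := by simp
  exact ⟨(LinearMap.linearEquivOfInjective (D : T3 →ₗ[ℝ] E3) hD hdim).toContinuousLinearEquiv,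
    ContinuousLinearMap.ext fun x => rfl⟩

section M
variable {M : Type*} [TopologicalSpace M] [ChartedSpace E3 M] [IsManifold (𝓡 3) ∞ M]

/-- `Φ` is a smooth local inverse datum of `F` -/
structure LocDiff (F : T3 → M) (Φ : OpenPartialHomeomorph T3 M) : Prop where
  eq : ∀ p ∈ Φ.source, Φ p = F p
  smooth : ContMDiffOn 𝓘(ℝ, T3) (𝓡 3) ∞ Φ Φ.source
  smooth_symm : ContMDiffOn (𝓡 3) 𝓘(ℝ, T3) ∞ Φ.symm Φ.target

/-- the inverse function theorem -/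
theorem exists_locDiff {F : T3 → M} {O : Set T3} (hO : IsOpen O)
    (hF : ContMDiffOn 𝓘(ℝ, T3) (𝓡 3) ∞ F O) {p₀ : T3} (hp₀ : p₀ ∈ O)
    (hinj : Function.Injective (mfderiv 𝓘(ℝ, T3) (𝓡 3) F p₀)) :
    ∃ Φ : OpenPartialHomeomorph T3 M, p₀ ∈ Φ.source ∧ Φ.source ⊆ O ∧ LocDiff F Φ := by
  have hM1 : IsManifold (𝓡 3) 1 M := IsManifold.of_le (n := ∞) (by norm_cast)
  set c := chartAt E3 (F p₀) with hc
  have hmd : c.MDifferentiable (𝓡 3) (𝓡 3) := mdifferentiable_chart (F p₀)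
  have hx₀ : F p₀ ∈ c.source := mem_chart_source E3 (F p₀)
  have hsc : ContMDiffOn (𝓡 3) 𝓘(ℝ, E3) ∞ c c.source := contMDiffOn_chart
  have hcs : ContMDiffOn 𝓘(ℝ, E3) (𝓡 3) ∞ c.symm c.target := contMDiffOn_chart_symm
  set O' : Set T3 := O ∩ F ⁻¹' c.source with hO'
  have hO'o : IsOpen O' := hF.continuousOn.isOpen_inter_preimage hO c.open_source
  have hp₀' : p₀ ∈ O' := ⟨hp₀, hx₀⟩
  set G : T3 → E3 := fun p => c (F p) with hG
  have hGs : ContDiffOn ℝ ∞ G O' := by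
    rw [← contMDiffOn_iff_contDiffOn]
    exact hsc.comp (hF.mono inter_subset_left) fun p hp => hp.2
  have hFd : HasMFDerivAt 𝓘(ℝ, T3) (𝓡 3) F p₀ (mfderiv 𝓘(ℝ, T3) (𝓡 3) F p₀) :=
    ((hF.contMDiffAt (hO.mem_nhds hp₀)).mdifferentiableAt (by simp)).hasMFDerivAt
  have hcd : HasMFDerivAt (𝓡 3) 𝓘(ℝ, E3) c (F p₀) (mfderiv (𝓡 3) 𝓘(ℝ, E3) c (F p₀)) :=
    (hmd.mdifferentiableAt hx₀).hasMFDerivAt
  obtain ⟨f', hf'⟩ : ∃ f' : T3 ≃L[ℝ] E3, HasFDerivAt G (f' : T3 →L[ℝ] E3) p₀ := by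
    obtain ⟨f', hf'⟩ := equiv_of_inj (D := (mfderiv (𝓡 3) 𝓘(ℝ, E3) c (F p₀)).comp
      (mfderiv 𝓘(ℝ, T3) (𝓡 3) F p₀)) ((hmd.mfderiv_injective hx₀).comp hinj)
    refine ⟨f', ?_⟩
    rw [hf']
    exact (HasMFDerivAt.comp p₀ hcd hFd).hasFDerivAt
  have hGat : ContDiffAt ℝ ∞ G p₀ := hGs.contDiffAt (hO'o.mem_nhds hp₀')
  have hn : (∞ : WithTop ℕ∞) ≠ 0 := by simp
  set Ψ := hGat.toOpenPartialHomeomorph G hf' hn with hΨ
  have hΨc : ∀ p, Ψ p = G p := fun p => rfl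
  -- the open set where the derivative is invertible
  set O2 : Set T3 := O' ∩ (fderiv ℝ G) ⁻¹' (range ((↑) : (T3 ≃L[ℝ] E3) → T3 →L[ℝ] E3)) with hO2
  have hO2o : IsOpen O2 := (hGs.continuousOn_fderiv_of_isOpen hO'o (by norm_cast)).isOpen_inter_preimage
    hO'o ContinuousLinearEquiv.isOpen
  have hp₀2 : p₀ ∈ O2 := ⟨hp₀', ⟨f', hf'.fderiv.symm⟩⟩
  set Ψ2 := Ψ.restrOpen O2 hO2o with hΨ2
  have hΨ2c : ∀ p, Ψ2 p = G p := fun p => rfl
  have hsrc2 : Ψ2.source = Ψ.source ∩ O2 := Ψ.restrOpen_source O2 hO2o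
  set Φ := Ψ2.trans c.symm with hΦ
  have hΦs : Φ.source ⊆ O2 := by
    intro p hp
    have h1 : p ∈ Ψ2.source := hp.1
    rw [hsrc2] at h1
    exact h1.2
  have hΦeq : ∀ p ∈ Φ.source, Φ p = F p := fun p hp => by
    show c.symm (G p) = F p
    exact c.left_inv (hΦs hp).1.2
  refine ⟨Φ, ⟨?_, ?_⟩, fun p hp => (hΦs hp).1.1, hΦeq, ?_, ?_⟩
  · show p₀ ∈ Ψ2.source
    rw [hsrc2]
    exact ⟨hGat.mem_toOpenPartialHomeomorph_source hf' hn, hp₀2⟩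
  · exact c.map_source hx₀
  · exact (hF.mono fun p hp => (hΦs hp).1.1).congr hΦeq
  · intro y hy
    have hy1 : y ∈ c.source := by
      have := hy.1
      simpa using this
    have hy2 : c y ∈ Ψ2.target := by
      have := hy.2
      simpa using this
    have hp : Ψ2.symm (c y) ∈ Ψ2.source := Ψ2.map_target hy2
    have hp2 : Ψ2.symm (c y) ∈ O2 := by
      rw [hsrc2] at hp
      exact hp.2
    obtain ⟨g', hg'⟩ := hp2.2
    have hGp : ContDiffAt ℝ ∞ G (Ψ2.symm (c y)) := hGs.contDiffAt (hO'o.mem_nhds hp2.1)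
    have h1 : ContDiffAt ℝ ∞ Ψ2.symm (c y) := by
      refine Ψ2.contDiffAt_symm hy2 (f₀' := g') ?_ hGp
      rw [hg']
      exact (hGp.differentiableAt (by simp)).hasFDerivAt
    have h2 : ContMDiffAt (𝓡 3) 𝓘(ℝ, E3) ∞ c y := hsc.contMDiffAt (c.open_source.mem_nhds hy1)
    exact (h1.contMDiffAt.comp y h2).contMDiffWithinAt

omit [IsManifold (𝓡 3) ∞ M] in
/-- gluing local inverses along a compact set -/
theorem exists_chart_of_locDiff [T2Space M] {F : T3 → M} {K : Set T3} (hK : IsCompact K)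
    (hKne : K.Nonempty) (hinj : InjOn F K)
    (hloc : ∀ p ∈ K, ∃ Φ : OpenPartialHomeomorph T3 M, p ∈ Φ.source ∧ LocDiff F Φ)
    {O : Set T3} (hO : IsOpen O) (hKO : K ⊆ O) :
    ∃ e : OpenPartialHomeomorph M T3, IsTubeChart e ∧ K ⊆ e.target ∧ e.target ⊆ O ∧
      ∀ p, e.symm p = F p := by
  have hne : Nonempty (OpenPartialHomeomorph T3 M) := by
    obtain ⟨p, hp⟩ := hKne
    obtain ⟨Φ, -⟩ := hloc p hp
    exact ⟨Φ⟩
  choose! Φ hpΦ hΦ using hloc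
  -- near the points of K
  have hnear : ∀ p ∈ K, ∀ q ∈ (Φ p).source, F =ᶠ[𝓝 q] Φ p := fun p hp q hq => by
    filter_upwards [(Φ p).open_source.mem_nhds hq] with r hr
    exact ((hΦ p hp).eq r hr).symm
  have hcont : ∀ p ∈ K, ∀ q ∈ (Φ p).source, ContinuousAt F q := fun p hp q hq =>
    ((Φ p).continuousAt hq).congr (hnear p hp q hq).symm
  obtain ⟨N, hN, hNinj⟩ := hinj.exists_mem_nhdsSet hK (fun p hp => hcont p hp p (hpΦ p hp))
    (fun p hp => ⟨(Φ p).source, (Φ p).open_source.mem_nhds (hpΦ p hp), fun q hq r hr h => by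
      rw [← (hΦ p hp).eq q hq, ← (hΦ p hp).eq r hr] at h
      exact (Φ p).injOn hq hr h⟩)
  set U : Set T3 := interior N ∩ (O ∩ ⋃ p ∈ K, (Φ p).source) with hU
  have hUo : IsOpen U := isOpen_interior.inter
    (hO.inter (isOpen_biUnion fun p _ => (Φ p).open_source))
  have hKU : K ⊆ U := fun p hp =>
    ⟨subset_interior_iff_mem_nhdsSet.2 hN hp, hKO hp, mem_biUnion hp (hpΦ p hp)⟩
  have hUinj : InjOn F U := hNinj.mono fun p hp => interior_subset hp.1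
  have hU2 : ∀ q ∈ U, ∃ p ∈ K, q ∈ (Φ p).source := fun q hq => by
    simpa only [mem_iUnion, exists_prop] using hq.2.2
  have hUc : ContinuousOn F U := fun q hq => by
    obtain ⟨p, hp, hqp⟩ := hU2 q hq
    exact (hcont p hp q hqp).continuousWithinAt
  have hopen : IsOpenMap (U.domRestrict F) := by
    rw [isOpenMap_iff_nhds_le]
    rintro ⟨q, hq⟩
    obtain ⟨p, hp, hqp⟩ := hU2 q hq
    have h1 : Filter.map F (𝓝 q) = 𝓝 (F q) := by
      rw [Filter.map_congr (hnear p hp q hqp), (Φ p).map_nhds_eq hqp, (hΦ p hp).eq q hqp]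
    have h2 : Filter.map (U.domRestrict F) (𝓝 (⟨q, hq⟩ : U)) = 𝓝 (F q) := by
      have h3 : U.domRestrict F = F ∘ ((↑) : U → T3) := rfl
      rw [h3, ← Filter.map_map, map_nhds_subtype_coe_eq_nhds hq (hUo.mem_nhds hq), h1]
    exact h2.ge
  set e' : OpenPartialHomeomorph T3 M := OpenPartialHomeomorph.ofContinuousOpenRestrict
    hUinj.toPartialEquiv hUc hopen hUo with he'
  have he'c : ∀ p, e' p = F p := fun p => rfl
  have he's : e'.source = U := rfl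
  refine ⟨e'.symm, ⟨?_, ?_⟩, hKU, fun p hp => hp.2.1, fun p => rfl⟩
  · intro y hy
    have hy' : y ∈ e'.target := hy
    have hq : e'.symm y ∈ U := e'.map_target hy'
    obtain ⟨p, hp, hqp⟩ := hU2 _ hq
    have hFy : F (e'.symm y) = y := e'.right_inv hy'
    have hΦy : Φ p (e'.symm y) = y := by rw [(hΦ p hp).eq _ hqp, hFy]
    have hyt : y ∈ (Φ p).target := by
      rw [← hΦy]
      exact (Φ p).map_source hqp
    have hΦs : (Φ p).symm y = e'.symm y := by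
      conv_lhs => rw [← hΦy]
      exact (Φ p).left_inv hqp
    have h1 : ContMDiffAt (𝓡 3) 𝓘(ℝ, T3) ∞ (Φ p).symm y :=
      (hΦ p hp).smooth_symm.contMDiffAt ((Φ p).open_target.mem_nhds hyt)
    have h2 : e'.symm =ᶠ[𝓝 y] (Φ p).symm := by
      have h3 : ∀ᶠ z in 𝓝 y, (Φ p).symm z ∈ U := by
        have h4 : ContinuousAt (Φ p).symm y := (Φ p).continuousAt_symm hyt
        refine h4 ?_
        rw [hΦs]
        exact hUo.mem_nhds hq
      filter_upwards [h3, (Φ p).open_target.mem_nhds hyt, e'.open_target.mem_nhds hy'] with z hz1 hz2 hz3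
      refine hUinj (e'.map_target hz3) hz1 ?_
      have h5 : F (e'.symm z) = z := e'.right_inv hz3
      have h6 : F ((Φ p).symm z) = z := by
        rw [← (hΦ p hp).eq _ ((Φ p).map_target hz2)]
        exact (Φ p).right_inv hz2
      rw [h5, h6]
    exact (h1.congr_of_eventuallyEq h2).contMDiffWithinAt
  · intro q hq
    have hq' : q ∈ U := hq
    obtain ⟨p, hp, hqp⟩ := hU2 q hq'
    have h1 : ContMDiffAt 𝓘(ℝ, T3) (𝓡 3) ∞ (Φ p) q :=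
      (hΦ p hp).smooth.contMDiffAt ((Φ p).open_source.mem_nhds hqp)
    exact (h1.congr_of_eventuallyEq (hnear p hp q hqp)).contMDiffWithinAt

theorem exists_box [T2Space M] (Z : (x : M) → TangentSpace (𝓡 3) x)
    (Fl : ℝ → M → M) (hFl : ContMDiff (𝓘(ℝ, ℝ).prod (𝓡 3)) (𝓡 3) ∞ (fun p : ℝ × M => Fl p.1 p.2))
    (hFl0 : ∀ x, Fl 0 x = x) (hFlZ : ∀ x, IsMIntegralCurve (fun t => Fl t x) Z)
    (hFla : ∀ s t x, Fl (s + t) x = Fl s (Fl t x)) (x₀ : M) (X Y : (x : M) → TangentSpace (𝓡 3) x)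
    (hind : LinearIndependent ℝ ![Z x₀, X x₀, Y x₀]) {ℓ : ℝ} (hℓ : 0 < ℓ)
    (hinj : InjOn (fun t => Fl t x₀) (Icc 0 ℓ)) :
    ∃ e : OpenPartialHomeomorph M T3, IsTubeChart e ∧ (∀ s ∈ Icc 0 ℓ, ((s, 0, 0) : T3) ∈ e.target) ∧
      e.symm (0, 0, 0) = x₀ ∧
      (∀ p ∈ e.target, mfderiv 𝓘(ℝ, T3) (𝓡 3) e.symm p ((1, 0, 0) : T3) = Z (e.symm p)) ∧
      mfderiv 𝓘(ℝ, T3) (𝓡 3) e.symm (0, 0, 0) ((0, 1, 0) : T3) = X (e.symm (0, 0, 0)) ∧
      mfderiv 𝓘(ℝ, T3) (𝓡 3) e.symm (0, 0, 0) ((0, 0, 1) : T3) = Y (e.symm (0, 0, 0)) := by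
  have hM1 : IsManifold (𝓡 3) 1 M := IsManifold.of_le (n := ∞) (by norm_cast)
  set c := chartAt E3 x₀ with hc
  have hmd : c.MDifferentiable (𝓡 3) (𝓡 3) := mdifferentiable_chart x₀
  have hx₀ : x₀ ∈ c.source := mem_chart_source E3 x₀
  have hcs : ContMDiffOn 𝓘(ℝ, E3) (𝓡 3) ∞ c.symm c.target := contMDiffOn_chart_symm
  set z : E3 := c x₀ with hz
  have hzt : z ∈ c.target := c.map_source hx₀
  have hcz : c.symm z = x₀ := c.left_inv hx₀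
  set u : E3 := mfderiv (𝓡 3) 𝓘(ℝ, E3) c x₀ (X x₀) with hu
  set v : E3 := mfderiv (𝓡 3) 𝓘(ℝ, E3) c x₀ (Y x₀) with hv
  have huX : (mfderiv 𝓘(ℝ, E3) (𝓡 3) c.symm z u : E3) = X x₀ :=
    DFunLike.congr_fun (hmd.symm_comp_deriv hx₀) (X x₀)
  have hvY : (mfderiv 𝓘(ℝ, E3) (𝓡 3) c.symm z v : E3) = Y x₀ :=
    DFunLike.congr_fun (hmd.symm_comp_deriv hx₀) (Y x₀)
  set A : T3 → E3 := fun p => z + p.2.1 • u + p.2.2 • v with hA
  have hAs : ContDiff ℝ ∞ A := by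
    refine (contDiff_const.add ?_).add ?_
    · exact (contDiff_snd.fst).smul contDiff_const
    · exact (contDiff_snd.snd).smul contDiff_const
  have hA0 : ∀ s : ℝ, A (s, 0, 0) = z := fun s => by simp [hA]
  set F : T3 → M := fun p => Fl p.1 (c.symm (A p)) with hF
  set O : Set T3 := A ⁻¹' c.target with hO
  have hOo : IsOpen O := c.open_target.preimage hAs.continuous
  have hFs : ContMDiffOn 𝓘(ℝ, T3) (𝓡 3) ∞ F O := by
    have h1 : ContMDiffOn 𝓘(ℝ, T3) (𝓡 3) ∞ (fun p : T3 => c.symm (A p)) O :=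
      hcs.comp hAs.contMDiff.contMDiffOn fun p hp => hp
    have h2 : ContMDiffOn 𝓘(ℝ, T3) 𝓘(ℝ, ℝ) ∞ (fun p : T3 => p.1) O :=
      contDiff_fst.contMDiff.contMDiffOn
    exact hFl.comp_contMDiffOn (h2.prodMk h1)
  have hFd : ∀ p ∈ O, HasMFDerivAt 𝓘(ℝ, T3) (𝓡 3) F p (mfderiv 𝓘(ℝ, T3) (𝓡 3) F p) := fun p hp =>
    ((hFs.contMDiffAt (hOo.mem_nhds hp)).mdifferentiableAt (by simp)).hasMFDerivAt
  have hmem : ∀ s : ℝ, ((s, 0, 0) : T3) ∈ O := fun s => by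
    show A (s, 0, 0) ∈ c.target
    rw [hA0]
    exact hzt
  have hF0 : F (0, 0, 0) = x₀ := by
    show Fl 0 (c.symm (A (0, 0, 0))) = x₀
    rw [hFl0, hA0, hcz]
  -- the derivative in the direction of the flow
  have hd0 : ∀ p ∈ O, mfderiv 𝓘(ℝ, T3) (𝓡 3) F p ((1, 0, 0) : T3) = Z (F p) := by
    intro p hp
    have h1 : HasMFDerivAt 𝓘(ℝ, ℝ) 𝓘(ℝ, T3) (fun t : ℝ => ((t, p.2) : T3)) p.1
        ((1 : ℝ →L[ℝ] ℝ).smulRight ((1, 0, 0) : T3)) := by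
      have h2 : HasDerivAt (fun t : ℝ => ((t, p.2) : T3)) ((1, 0) : T3) p.1 :=
        (hasDerivAt_id p.1).prodMk (hasDerivAt_const p.1 p.2)
      exact h2.hasFDerivAt.hasMFDerivAt
    have h3 : HasMFDerivAt 𝓘(ℝ, ℝ) (𝓡 3) (F ∘ fun t : ℝ => ((t, p.2) : T3)) p.1
        ((mfderiv 𝓘(ℝ, T3) (𝓡 3) F p).comp ((1 : ℝ →L[ℝ] ℝ).smulRight ((1, 0, 0) : T3))) :=
      HasMFDerivAt.comp p.1 (hFd p hp) h1
    have h4 : HasMFDerivAt 𝓘(ℝ, ℝ) (𝓡 3) (F ∘ fun t : ℝ => ((t, p.2) : T3)) p.1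
        ((1 : ℝ →L[ℝ] ℝ).smulRight (Z (F p))) := hFlZ (c.symm (A p)) p.1
    have h5 := hasMFDerivAt_unique h3 h4
    have h6 : (1 : ℝ) • (mfderiv 𝓘(ℝ, T3) (𝓡 3) F p ((1, 0, 0) : T3) : E3) = (1 : ℝ) • (Z (F p) : E3) := by
      have h7 := DFunLike.congr_fun h5 (1 : ℝ)
      have h8 : (mfderiv 𝓘(ℝ, T3) (𝓡 3) F p ((1 : ℝ) • ((1, 0, 0) : T3)) : E3) = (1 : ℝ) • (Z (F p) : E3) := h7
      rw [one_smul] at h8
      rw [one_smul]
      exact h8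
    rw [one_smul, one_smul] at h6
    exact h6
  -- the derivative in the transversal directions
  have hd12 : ∀ a b : ℝ, (mfderiv 𝓘(ℝ, T3) (𝓡 3) F (0, 0, 0) ((0, a, b) : T3) : E3) =
      (mfderiv 𝓘(ℝ, E3) (𝓡 3) c.symm z (a • u + b • v) : E3) := by
    intro a b
    have h1 : HasMFDerivAt 𝓘(ℝ, ℝ) 𝓘(ℝ, T3) (fun t : ℝ => ((0, t * a, t * b) : T3)) 0
        ((1 : ℝ →L[ℝ] ℝ).smulRight ((0, a, b) : T3)) := by
      have h2 : HasDerivAt (fun t : ℝ => ((0, t * a, t * b) : T3)) ((0, 1 * a, 1 * b) : T3) 0 :=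
        (hasDerivAt_const (0 : ℝ) (0 : ℝ)).prodMk (((hasDerivAt_id (0 : ℝ)).mul_const a).prodMk
          ((hasDerivAt_id (0 : ℝ)).mul_const b))
      rw [one_mul, one_mul] at h2
      exact h2.hasFDerivAt.hasMFDerivAt
    have h0 : ((0, (0 : ℝ) * a, (0 : ℝ) * b) : T3) = (0, 0, 0) := by simp
    have hFd0 : HasMFDerivAt 𝓘(ℝ, T3) (𝓡 3) F ((0, (0 : ℝ) * a, (0 : ℝ) * b) : T3)
        (mfderiv 𝓘(ℝ, T3) (𝓡 3) F ((0, (0 : ℝ) * a, (0 : ℝ) * b) : T3)) := by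
      refine hFd _ ?_
      rw [h0]
      exact hmem 0
    have h3 : HasMFDerivAt 𝓘(ℝ, ℝ) (𝓡 3) (F ∘ fun t : ℝ => ((0, t * a, t * b) : T3)) 0
        ((mfderiv 𝓘(ℝ, T3) (𝓡 3) F ((0, (0 : ℝ) * a, (0 : ℝ) * b) : T3)).comp
          ((1 : ℝ →L[ℝ] ℝ).smulRight ((0, a, b) : T3))) :=
      HasMFDerivAt.comp (0 : ℝ) hFd0 h1
    have h4 : HasMFDerivAt 𝓘(ℝ, ℝ) 𝓘(ℝ, E3) (fun t : ℝ => z + (t * a) • u + (t * b) • v) 0
        ((1 : ℝ →L[ℝ] ℝ).smulRight (a • u + b • v)) := by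
      have h2 : HasDerivAt (fun t : ℝ => z + (t * a) • u + (t * b) • v) ((1 * a) • u + (1 * b) • v) 0 := by
        have h5 := (((hasDerivAt_id (0 : ℝ)).mul_const a).smul_const u).add
          (((hasDerivAt_id (0 : ℝ)).mul_const b).smul_const v)
        have h6 := h5.const_add z
        refine h6.congr_of_eventuallyEq (Eventually.of_forall fun t => ?_)
        show z + (t * a) • u + (t * b) • v = z + ((t * a) • u + (t * b) • v)
        rw [add_assoc]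
      rw [one_mul, one_mul] at h2
      exact h2.hasFDerivAt.hasMFDerivAt
    have hz0 : z + ((0 : ℝ) * a) • u + ((0 : ℝ) * b) • v = z := by simp
    have h5 : HasMFDerivAt 𝓘(ℝ, E3) (𝓡 3) c.symm (z + ((0 : ℝ) * a) • u + ((0 : ℝ) * b) • v)
        (mfderiv 𝓘(ℝ, E3) (𝓡 3) c.symm (z + ((0 : ℝ) * a) • u + ((0 : ℝ) * b) • v)) := by
      refine (hmd.mdifferentiableAt_symm ?_).hasMFDerivAt
      rw [hz0]
      exact hzt
    have h6 : HasMFDerivAt 𝓘(ℝ, ℝ) (𝓡 3) (c.symm ∘ fun t : ℝ => z + (t * a) • u + (t * b) • v) 0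
        ((mfderiv 𝓘(ℝ, E3) (𝓡 3) c.symm (z + ((0 : ℝ) * a) • u + ((0 : ℝ) * b) • v)).comp
          ((1 : ℝ →L[ℝ] ℝ).smulRight (a • u + b • v))) :=
      HasMFDerivAt.comp (0 : ℝ) h5 h4
    have h7 : (F ∘ fun t : ℝ => ((0, t * a, t * b) : T3)) =
        (c.symm ∘ fun t : ℝ => z + (t * a) • u + (t * b) • v) := by
      funext t
      show Fl 0 (c.symm (z + (t * a) • u + (t * b) • v)) = c.symm (z + (t * a) • u + (t * b) • v)
      rw [hFl0]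
    rw [h7] at h3
    have h8 := DFunLike.congr_fun (hasMFDerivAt_unique h3 h6) (1 : ℝ)
    have h9 : (mfderiv 𝓘(ℝ, T3) (𝓡 3) F ((0, (0 : ℝ) * a, (0 : ℝ) * b) : T3) ((1 : ℝ) • ((0, a, b) : T3)) : E3) =
        (mfderiv 𝓘(ℝ, E3) (𝓡 3) c.symm (z + ((0 : ℝ) * a) • u + ((0 : ℝ) * b) • v)
          ((1 : ℝ) • (a • u + b • v)) : E3) := h8
    rw [one_smul, one_smul, h0, hz0] at h9
    exact h9
  have hX0 : (mfderiv 𝓘(ℝ, T3) (𝓡 3) F (0, 0, 0) ((0, 1, 0) : T3) : E3) = X x₀ := by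
    rw [hd12 1 0, one_smul, zero_smul, add_zero]
    exact huX
  have hY0 : (mfderiv 𝓘(ℝ, T3) (𝓡 3) F (0, 0, 0) ((0, 0, 1) : T3) : E3) = Y x₀ := by
    rw [hd12 0 1, one_smul, zero_smul, zero_add]
    exact hvY
  have hZ0 : (mfderiv 𝓘(ℝ, T3) (𝓡 3) F (0, 0, 0) ((1, 0, 0) : T3) : E3) = Z x₀ := by
    have h1 : (mfderiv 𝓘(ℝ, T3) (𝓡 3) F (0, 0, 0) ((1, 0, 0) : T3) : E3) = Z (F (0, 0, 0)) :=
      hd0 (0, 0, 0) (hmem 0)
    rw [h1]
    exact congrArg (fun x => (Z x : E3)) hF0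
  -- injectivity of the derivative
  have hinj0 : Function.Injective (mfderiv 𝓘(ℝ, T3) (𝓡 3) F (0, 0, 0)) := by
    have hlin : ∀ D : T3 →L[ℝ] E3, D ((1, 0, 0) : T3) = Z x₀ → D ((0, 1, 0) : T3) = X x₀ →
        D ((0, 0, 1) : T3) = Y x₀ → Function.Injective D := by
      intro D h1 h2 h3
      rw [injective_iff_map_eq_zero]
      rintro ⟨a, b, d⟩ hw
      have h4 : ((a, b, d) : T3) = a • ((1, 0, 0) : T3) + b • ((0, 1, 0) : T3) + d • ((0, 0, 1) : T3) := by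
        ext <;> simp
      rw [h4, map_add, map_add, map_smul, map_smul, map_smul, h1, h2, h3] at hw
      have h5 := Fintype.linearIndependent_iff.1 hind ![a, b, d] (by
        rw [Fin.sum_univ_three]
        exact hw)
      have ha : a = 0 := h5 0
      have hb : b = 0 := h5 1
      have hd : d = 0 := h5 2
      rw [ha, hb, hd]
      rfl
    exact hlin _ hZ0 hX0 hY0
  have hinjs : ∀ s : ℝ, Function.Injective (mfderiv 𝓘(ℝ, T3) (𝓡 3) F (s, 0, 0)) := by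
    intro s
    have hq : ((0 + s, 0, 0) : T3) = (s, 0, 0) := by rw [zero_add]
    have hT : HasMFDerivAt 𝓘(ℝ, T3) 𝓘(ℝ, T3) (fun p : T3 => ((p.1 + s, p.2) : T3)) (0, 0, 0)
        (ContinuousLinearMap.id ℝ T3) := by
      have h1 : HasFDerivAt (fun p : T3 => ((p.1 + s, p.2) : T3)) (ContinuousLinearMap.id ℝ T3) (0, 0, 0) := by
        have h2 : HasFDerivAt (fun p : T3 => p + ((s, 0, 0) : T3)) (ContinuousLinearMap.id ℝ T3) (0, 0, 0) :=
          (hasFDerivAt_id _).add_const _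
        refine h2.congr_of_eventuallyEq (Eventually.of_forall fun p => ?_)
        ext <;> simp
      exact h1.hasMFDerivAt
    have h1 : HasMFDerivAt 𝓘(ℝ, T3) (𝓡 3) F ((0 + s, 0, 0) : T3)
        (mfderiv 𝓘(ℝ, T3) (𝓡 3) F ((0 + s, 0, 0) : T3)) := by
      refine hFd _ ?_
      rw [hq]
      exact hmem s
    have h2 : HasMFDerivAt (𝓡 3) (𝓡 3) (Fl (-s)) (F ((0 + s, 0, 0) : T3))
        (mfderiv (𝓡 3) (𝓡 3) (Fl (-s)) (F ((0 + s, 0, 0) : T3))) := by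
      have h3 : ContMDiff (𝓡 3) (𝓡 3) ∞ (Fl (-s)) := by
        have h4 : ContMDiff (𝓡 3) (𝓘(ℝ, ℝ).prod (𝓡 3)) ∞ (fun x : M => ((-s, x) : ℝ × M)) :=
          contMDiff_const.prodMk contMDiff_id
        exact hFl.comp h4
      exact ((h3.contMDiffAt).mdifferentiableAt (by simp)).hasMFDerivAt
    have h3 := HasMFDerivAt.comp ((0, 0, 0) : T3) h2 (HasMFDerivAt.comp ((0, 0, 0) : T3) h1 hT)
    have h4 : (Fl (-s) ∘ F ∘ fun p : T3 => ((p.1 + s, p.2) : T3)) = F := by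
      funext p
      show Fl (-s) (Fl (p.1 + s) (c.symm (A p))) = Fl p.1 (c.symm (A p))
      rw [← hFla]
      congr 1
      ring
    rw [h4] at h3
    have h5 := hasMFDerivAt_unique (hFd (0, 0, 0) (hmem 0)) h3
    rw [h5] at hinj0
    rw [hq] at hinj0
    exact fun a b hab => hinj0 (congrArg (mfderiv (𝓡 3) (𝓡 3) (Fl (-s)) (F ((s, 0, 0) : T3))) hab)
  -- the chart
  have hKinj : InjOn F ((fun s : ℝ => ((s, 0, 0) : T3)) '' Icc 0 ℓ) := by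
    rintro _ ⟨s, hs, rfl⟩ _ ⟨t, ht, rfl⟩ hst
    have h1 : Fl s (c.symm (A (s, 0, 0))) = Fl t (c.symm (A (t, 0, 0))) := hst
    simp only [hA0, hcz] at h1
    have h2 : s = t := hinj hs ht h1
    rw [h2]
  have hKloc : ∀ p ∈ ((fun s : ℝ => ((s, 0, 0) : T3)) '' Icc 0 ℓ),
      ∃ Φ : OpenPartialHomeomorph T3 M, p ∈ Φ.source ∧ LocDiff F Φ := by
    rintro _ ⟨s, hs, rfl⟩
    obtain ⟨Φ, h1, -, h2⟩ := exists_locDiff hOo hFs (hmem s) (hinjs s)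
    exact ⟨Φ, h1, h2⟩
  have hKO : ((fun s : ℝ => ((s, 0, 0) : T3)) '' Icc 0 ℓ) ⊆ O := by
    rintro _ ⟨s, hs, rfl⟩
    exact hmem s
  have hcpt : IsCompact ((fun s : ℝ => ((s, 0, 0) : T3)) '' Icc 0 ℓ) :=
    isCompact_Icc.image (by fun_prop)
  obtain ⟨e, he, hKe, hsub, hes⟩ := exists_chart_of_locDiff hcpt
    ⟨_, mem_image_of_mem _ (left_mem_Icc.2 hℓ.le)⟩ hKinj hKloc hOo hKO
  have hes' : ⇑e.symm = F := funext hes
  refine ⟨e, he, fun s hs => hKe (mem_image_of_mem _ hs), by rw [hes, hF0], ?_, ?_, ?_⟩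
  · intro p hp
    rw [hes']
    exact hd0 p (hsub hp)
  · rw [hes']
    exact hX0.trans (congrArg (fun x => (X x : E3)) hF0.symm)
  · rw [hes']
    exact hY0.trans (congrArg (fun x => (Y x : E3)) hF0.symm)

end M

end Pool.Agent.SRGap
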