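import Mathlib

/-!
# Contact sub-Riemannian structures on 3-manifolds, their Reeb field and the spectrum of the
# sub-Riemannian Laplacian: definitions

`M` is a smooth manifold modelled on the Euclidean space `E` (three-dimensional in the results).  A co-oriented
contact sub-Riemannian structure `(D, g)` on `M` is given by its cometric `G` (the bilinear form on the
cotangent spaces with `G(ξ, η) = ξ(X) η(X) + ξ(Y) η(Y)` for every `g`-orthonormal basis `X, Y` of `D`) together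
with the Reeb field `Z` of the normalized contact form.
-/

open Set MeasureTheory Filter Topology VectorField
open scoped Manifold ContDiff

namespace Pool.Agent.ContactLaplacian

section Structure

variable {E : Type*} [NormedAddCommGroup E] [NormedSpace ℝ E] {M : Type*} [TopologicalSpace M] [ChartedSpace E M]

/-- the vector field `V` is smooth on the set `U` -/
def SmoothField [IsManifold 𝓘(ℝ, E) ∞ M] (V : (x : M) → TangentSpace 𝓘(ℝ, E) x) (U : Set M) : Prop :=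
  ContMDiffOn 𝓘(ℝ, E) 𝓘(ℝ, E).tangent ∞ (fun x => (⟨x, V x⟩ : TangentBundle 𝓘(ℝ, E) M)) U

/-- `X, Y` is an orthonormal frame on the open set `U` of the sub-Riemannian structure with cometric `G`, and
`Z` is the Reeb field there: with `D = span (X, Y)` and the 1-form `α`, `α(Z) = 1`, `α(D) = 0`, one has
`dα(X, Y) = - α([X, Y]) = 1` and `ι_Z dα = 0`, that is, `[Z, X]` and `[Z, Y]` are in `D`. -/
structure ReebFrame [IsManifold 𝓘(ℝ, E) ∞ M] (Z : (x : M) → TangentSpace 𝓘(ℝ, E) x)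
    (G : (x : M) → (TangentSpace 𝓘(ℝ, E) x →L[ℝ] ℝ) → (TangentSpace 𝓘(ℝ, E) x →L[ℝ] ℝ) → ℝ)
    (X Y : (x : M) → TangentSpace 𝓘(ℝ, E) x) (U : Set M) : Prop where
  isOpen : IsOpen U
  smooth_X : SmoothField X U
  smooth_Y : SmoothField Y U
  indep : ∀ x ∈ U, LinearIndependent ℝ ![Z x, X x, Y x]
  cometric : ∀ x ∈ U, ∀ ξ η : TangentSpace 𝓘(ℝ, E) x →L[ℝ] ℝ, G x ξ η = ξ (X x) * η (X x) + ξ (Y x) * η (Y x)
  bracket : ∀ x ∈ U, mlieBracket 𝓘(ℝ, E) X Y x + Z x ∈ Submodule.span ℝ {X x, Y x}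
  bracket_X : ∀ x ∈ U, mlieBracket 𝓘(ℝ, E) Z X x ∈ Submodule.span ℝ {X x, Y x}
  bracket_Y : ∀ x ∈ U, mlieBracket 𝓘(ℝ, E) Z Y x ∈ Submodule.span ℝ {X x, Y x}

end Structure

/-- A contact sub-Riemannian structure on the smooth manifold `M` modelled on the three-dimensional space `E`:
the Reeb field `Z` and the cometric `G`. -/
structure ContactStr (E : Type*) [NormedAddCommGroup E] [NormedSpace ℝ E] (M : Type*) [TopologicalSpace M]
    [ChartedSpace E M] [IsManifold 𝓘(ℝ, E) ∞ M] where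
  /-- the Reeb vector field -/
  Z : (x : M) → TangentSpace 𝓘(ℝ, E) x
  /-- the cometric -/
  G : (x : M) → (TangentSpace 𝓘(ℝ, E) x →L[ℝ] ℝ) → (TangentSpace 𝓘(ℝ, E) x →L[ℝ] ℝ) → ℝ
  smooth_Z : SmoothField Z univ
  frame : ∀ x₀ : M, ∃ U : Set M, x₀ ∈ U ∧ ∃ X Y : (x : M) → TangentSpace 𝓘(ℝ, E) x, ReebFrame Z G X Y U

section Spectrum

variable {E : Type*} [NormedAddCommGroup E] [NormedSpace ℝ E] {M : Type*} [TopologicalSpace M] [ChartedSpace E M]

/-- smooth real functions on `M` -/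
def SmoothOn (E : Type*) [NormedAddCommGroup E] [NormedSpace ℝ E] {M : Type*} [TopologicalSpace M]
    [ChartedSpace E M] (f : M → ℝ) : Prop := ContMDiff 𝓘(ℝ, E) 𝓘(ℝ, ℝ) ∞ f

/-- smooth charts of `M` -/
def SmoothChart (e : OpenPartialHomeomorph M E) : Prop :=
  ContMDiffOn 𝓘(ℝ, E) 𝓘(ℝ, E) ∞ e e.source ∧ ContMDiffOn 𝓘(ℝ, E) 𝓘(ℝ, E) ∞ e.symm e.target

/-- `μ` is a smooth positive measure: in every smooth chart it has a smooth positive density with respect to
the Lebesgue measure `ν` of the model space -/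
def SmoothMeasure [MeasurableSpace E] (ν : Measure E) [MeasurableSpace M] (μ : Measure M) : Prop :=
  ∀ e : OpenPartialHomeomorph M E, SmoothChart e → ∃ ρ : E → ℝ, ContDiffOn ℝ ∞ ρ e.target ∧
    (∀ y ∈ e.target, 0 < ρ y) ∧
    ∀ A ⊆ e.source, MeasurableSet A → μ A = ∫⁻ y in e '' A, ENNReal.ofReal (ρ y) ∂ν

/-- the differential of a real function -/
noncomputable def diff (f : M → ℝ) (x : M) : TangentSpace 𝓘(ℝ, E) x →L[ℝ] ℝ := mfderiv 𝓘(ℝ, E) 𝓘(ℝ, ℝ) f x

variable [IsManifold 𝓘(ℝ, E) ∞ M] [MeasurableSpace M]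

/-- the quadratic form of the sub-Riemannian Laplacian, `∫ G(df, dh) dμ = ∫ (Xf)(Xh) + (Yf)(Yh) dμ` -/
noncomputable def form (S : ContactStr E M) (μ : Measure M) (f h : M → ℝ) : ℝ :=
  ∫ x, S.G x (diff f x) (diff h x) ∂μ

/-- The graph of the Friedrichs extension of `Δ_sR = X* X + Y* Y` on `C^∞(M) ⊂ L²(M, μ)`: `f` is in the domain and
`h = Δ_sR f` iff `f` is in the closure of `C^∞(M)` for the norm `‖f‖² + ∫ G(df, df)`, and
`∫ G(df, dφ) dμ = ∫ h φ dμ` for all smooth `φ`. -/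
def graph (S : ContactStr E M) (μ : Measure M) : Set (Lp ℝ 2 μ × Lp ℝ 2 μ) :=
  {p | ∃ v : ℕ → M → ℝ, (∀ n, SmoothOn E (v n)) ∧
    Tendsto (fun n => eLpNorm (fun x => v n x - p.1 x) 2 μ) atTop (𝓝 0) ∧
    Tendsto (fun q : ℕ × ℕ => form S μ (v q.1 - v q.2) (v q.1 - v q.2)) atTop (𝓝 0) ∧
    ∀ φ : M → ℝ, SmoothOn E φ →
      Tendsto (fun n => form S μ (v n) φ) atTop (𝓝 (∫ x, p.2 x * φ x ∂μ))}

/-- The spectrum of `Δ_sR`: the real numbers `t` for which `Δ_sR - t` is not a bijection from the domain of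
`Δ_sR` onto `L²(M, μ)`. -/
def spectrum (S : ContactStr E M) (μ : Measure M) : Set ℝ :=
  {t | ¬ ∀ g : Lp ℝ 2 μ, ∃! f : Lp ℝ 2 μ, (f, g + t • f) ∈ graph S μ}

end Spectrum

end Pool.Agent.ContactLaplacian
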