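import Pool.Agent.Work.MP_188050_an.Final
import Pool.Agent.Work.MP_188050_an.SDefs

/-!
# From the definitions of the statement to those of the proof
-/

open Set MeasureTheory Filter Topology VectorField
open scoped Manifold ContDiff

namespace Pool.Agent.SRGap

open Pool.Agent.ContactLaplacian

variable {M : Type*} [TopologicalSpace M] [ChartedSpace E3 M] [IsManifold (𝓡 3) ∞ M]

/-- the structure in the form used in the proof -/
def ofStr (S : ContactStr E3 M) : ContactSR M where
  Z := S.Z
  G := S.G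
  smooth_Z := S.smooth_Z
  frame := fun x₀ => by
    obtain ⟨U, hU, X, Y, h⟩ := S.frame x₀
    exact ⟨U, hU, X, Y, ⟨h.isOpen, h.smooth_X, h.smooth_Y, h.indep, h.cometric, h.bracket, h.bracket_X, h.bracket_Y⟩⟩

theorem spec_ofStr [MeasurableSpace M] (S : ContactStr E3 M) (μ : Measure M) :
    spec (ofStr S) μ = ContactLaplacian.spectrum S μ := rfl

theorem smoothPositive_iff [MeasurableSpace M] (μ : Measure M) :
    SmoothPositive μ ↔ ContactLaplacian.SmoothMeasure (E := E3) volume μ := Iff.rfl

/-- a smooth positive measure on a compact manifold is finite -/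
theorem isFiniteMeasure_of_smoothPositive [CompactSpace M] [MeasurableSpace M] [BorelSpace M]
    {μ : Measure M} (hμ : SmoothPositive μ) : IsFiniteMeasure μ := by
  refine ⟨?_⟩
  refine isCompact_univ.measure_lt_top_of_nhdsWithin fun x _ => ?_
  rw [nhdsWithin_univ]
  have hsc : IsSmoothChart (M := M) (chartAt E3 x) :=
    ⟨contMDiffOn_chart, contMDiffOn_chart_symm⟩
  obtain ⟨ρ, hρ, -, hden⟩ := hμ (chartAt E3 x) hsc
  have hy : (chartAt E3 x) x ∈ (chartAt E3 x).target := mem_chart_target E3 x
  obtain ⟨r, hr, hB⟩ := Metric.nhds_basis_closedBall.mem_iff.1 ((chartAt E3 x).open_target.mem_nhds hy)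
  have hcpt : IsCompact (Metric.closedBall ((chartAt E3 x) x) r) := isCompact_closedBall _ _
  obtain ⟨C, hC⟩ := hcpt.bddAbove_image (hρ.continuousOn.mono hB)
  set A : Set M := (chartAt E3 x).source ∩ (chartAt E3 x) ⁻¹' Metric.ball ((chartAt E3 x) x) r with hA
  have hAo : IsOpen A := (chartAt E3 x).isOpen_inter_preimage Metric.isOpen_ball
  have hxA : x ∈ A := ⟨mem_chart_source E3 x, Metric.mem_ball_self hr⟩
  refine ⟨A, hAo.mem_nhds hxA, ?_⟩
  rw [hden A inter_subset_left hAo.measurableSet]
  have himg : (chartAt E3 x) '' A ⊆ Metric.closedBall ((chartAt E3 x) x) r := by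
    rintro _ ⟨z, hz, rfl⟩
    exact Metric.ball_subset_closedBall hz.2
  calc ∫⁻ y in (chartAt E3 x) '' A, ENNReal.ofReal (ρ y)
      ≤ ∫⁻ y in Metric.closedBall ((chartAt E3 x) x) r, ENNReal.ofReal (ρ y) :=
        lintegral_mono_set himg
    _ ≤ ∫⁻ _ in Metric.closedBall ((chartAt E3 x) x) r, ENNReal.ofReal C :=
        setLIntegral_mono' Metric.isClosed_closedBall.measurableSet
          fun y hyB => ENNReal.ofReal_le_ofReal (hC ⟨y, hyB, rfl⟩)
    _ = ENNReal.ofReal C * volume (Metric.closedBall ((chartAt E3 x) x) r) := by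
        rw [setLIntegral_const]
    _ < ⊤ := ENNReal.mul_lt_top ENNReal.ofReal_lt_top hcpt.measure_lt_top

end Pool.Agent.SRGap
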