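import Mathlib

/-!
# Contact sub-Riemannian structures on 3-manifolds, their Reeb field and the spectrum of the
# sub-Riemannian Laplacian: definitions

`M` is a smooth 3-manifold.  A (co-oriented) contact sub-Riemannian structure `(D, g)` on `M` is given by its
cometric `G` (a bilinear form on the cotangent spaces: `G(ξ, η) = ξ(X) η(X) + ξ(Y) η(Y)` for every
`g`-orthonormal basis `X, Y` of `D`) together with the Reeb field `Z` of the normalized contact form `α_g`.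
-/

open Set MeasureTheory Filter Topology VectorField
open scoped Manifold ContDiff

namespace Pool.Agent.SRGap

/-- the model space -/
abbrev E3 := EuclideanSpace ℝ (Fin 3)

section Structure

variable {M : Type*} [TopologicalSpace M] [ChartedSpace E3 M] [IsManifold (𝓡 3) ∞ M]

/-- the vector field `V` is smooth on the set `U` -/
def SmoothVFOn (V : (x : M) → TangentSpace (𝓡 3) x) (U : Set M) : Prop :=
  ContMDiffOn (𝓡 3) (𝓡 3).tangent ∞ (fun x => (⟨x, V x⟩ : TangentBundle (𝓡 3) M)) U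

/-- `X, Y` is an orthonormal frame on the open set `U` of the sub-Riemannian structure with cometric `G`, and
`Z` is the Reeb field there: with `D = span (X, Y)` and the 1-form `α`, `α(Z) = 1`, `α(D) = 0`, one has
`dα(X, Y) = - α([X, Y]) = 1` and `ι_Z dα = 0`, that is, `[Z, X]` and `[Z, Y]` are in `D`. -/
structure IsReebFrame (Z : (x : M) → TangentSpace (𝓡 3) x)
    (G : (x : M) → (TangentSpace (𝓡 3) x →L[ℝ] ℝ) → (TangentSpace (𝓡 3) x →L[ℝ] ℝ) → ℝ)
    (X Y : (x : M) → TangentSpace (𝓡 3) x) (U : Set M) : Prop where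
  isOpen : IsOpen U
  smooth_X : SmoothVFOn X U
  smooth_Y : SmoothVFOn Y U
  indep : ∀ x ∈ U, LinearIndependent ℝ ![Z x, X x, Y x]
  cometric : ∀ x ∈ U, ∀ ξ η : TangentSpace (𝓡 3) x →L[ℝ] ℝ, G x ξ η = ξ (X x) * η (X x) + ξ (Y x) * η (Y x)
  bracket : ∀ x ∈ U, mlieBracket (𝓡 3) X Y x + Z x ∈ Submodule.span ℝ {X x, Y x}
  bracket_X : ∀ x ∈ U, mlieBracket (𝓡 3) Z X x ∈ Submodule.span ℝ {X x, Y x}
  bracket_Y : ∀ x ∈ U, mlieBracket (𝓡 3) Z Y x ∈ Submodule.span ℝ {X x, Y x}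

end Structure

/-- A contact sub-Riemannian structure on the smooth 3-manifold `M`: the Reeb field `Z` and the cometric `G`. -/
structure ContactSR (M : Type*) [TopologicalSpace M] [ChartedSpace E3 M] [IsManifold (𝓡 3) ∞ M] where
  /-- the Reeb vector field -/
  Z : (x : M) → TangentSpace (𝓡 3) x
  /-- the cometric -/
  G : (x : M) → (TangentSpace (𝓡 3) x →L[ℝ] ℝ) → (TangentSpace (𝓡 3) x →L[ℝ] ℝ) → ℝ
  smooth_Z : SmoothVFOn Z univ
  frame : ∀ x₀ : M, ∃ U : Set M, x₀ ∈ U ∧ ∃ X Y : (x : M) → TangentSpace (𝓡 3) x, IsReebFrame Z G X Y U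

section Spectrum

variable {M : Type*} [TopologicalSpace M] [ChartedSpace E3 M]

/-- smooth real functions on `M` -/
def SmoothFun (f : M → ℝ) : Prop := ContMDiff (𝓡 3) 𝓘(ℝ, ℝ) ∞ f

/-- smooth charts of `M` -/
def IsSmoothChart (e : OpenPartialHomeomorph M E3) : Prop :=
  ContMDiffOn (𝓡 3) 𝓘(ℝ, E3) ∞ e e.source ∧ ContMDiffOn 𝓘(ℝ, E3) (𝓡 3) ∞ e.symm e.target

/-- `μ` is a smooth positive measure: in every smooth chart it has a smooth positive density with respect to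
the Lebesgue measure -/
def SmoothPositive [MeasurableSpace M] (μ : Measure M) : Prop :=
  ∀ e : OpenPartialHomeomorph M E3, IsSmoothChart e → ∃ ρ : E3 → ℝ, ContDiffOn ℝ ∞ ρ e.target ∧
    (∀ y ∈ e.target, 0 < ρ y) ∧
    ∀ A ⊆ e.source, MeasurableSet A → μ A = ∫⁻ y in e '' A, ENNReal.ofReal (ρ y)

/-- the differential of a real function -/
noncomputable def dd (f : M → ℝ) (x : M) : TangentSpace (𝓡 3) x →L[ℝ] ℝ := mfderiv (𝓡 3) 𝓘(ℝ, ℝ) f x

variable [IsManifold (𝓡 3) ∞ M] [MeasurableSpace M]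

/-- the quadratic form of the sub-Riemannian Laplacian, `∫ G(df, dh) dμ = ∫ (Xf)(Xh) + (Yf)(Yh) dμ` -/
noncomputable def energy (S : ContactSR M) (μ : Measure M) (f h : M → ℝ) : ℝ :=
  ∫ x, S.G x (dd f x) (dd h x) ∂μ

/-- The graph of the Friedrichs extension of `Δ_sR = X* X + Y* Y` on `C^∞(M) ⊂ L²(M, μ)`: `f` is in the domain and
`h = Δ_sR f` iff `f` is in the closure of `C^∞(M)` for the norm `‖f‖² + ∫ G(df, df)`, and
`∫ G(df, dφ) dμ = ∫ h φ dμ` for all smooth `φ`. -/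
def friedrichs (S : ContactSR M) (μ : Measure M) : Set (Lp ℝ 2 μ × Lp ℝ 2 μ) :=
  {p | ∃ v : ℕ → M → ℝ, (∀ n, SmoothFun (v n)) ∧
    Tendsto (fun n => eLpNorm (fun x => v n x - p.1 x) 2 μ) atTop (𝓝 0) ∧
    Tendsto (fun q : ℕ × ℕ => energy S μ (v q.1 - v q.2) (v q.1 - v q.2)) atTop (𝓝 0) ∧
    ∀ φ : M → ℝ, SmoothFun φ →
      Tendsto (fun n => energy S μ (v n) φ) atTop (𝓝 (∫ x, p.2 x * φ x ∂μ))}

/-- The spectrum of `Δ_sR`: the real numbers `t` for which `Δ_sR - t` is not a bijection from the domain of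
`Δ_sR` onto `L²(M, μ)`. -/
def spec (S : ContactSR M) (μ : Measure M) : Set ℝ :=
  {t | ¬ ∀ g : Lp ℝ 2 μ, ∃! f : Lp ℝ 2 μ, (f, g + t • f) ∈ friedrichs S μ}

end Spectrum

end Pool.Agent.SRGap
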