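import Pool.Agent.Work.MP_188050_an.Tube

/-!
# The density of a smooth positive measure in a tube chart, and extension by zero
-/

open Set MeasureTheory Filter Topology VectorField
open scoped Manifold ContDiff InnerProductSpace

namespace Pool.Agent.SRGap

variable {M : Type*} [TopologicalSpace M] [ChartedSpace E3 M] [IsManifold (𝓡 3) ∞ M]

/-- a linear isomorphism of the tube with the model space -/
noncomputable def dL : T3 ≃L[ℝ] E3 :=
  ContinuousLinearEquiv.ofFinrankEq (by simp [T3, E3])

/-- the Lebesgue measure of the model space is a multiple of the image of that of the tube -/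
theorem dL_volume : ∃ c : ENNReal, c ≠ 0 ∧ c ≠ ⊤ ∧
    (volume : Measure E3) = c • Measure.map (dL.toHomeomorph.toMeasurableEquiv) (volume : Measure T3) := by
  have h1 : (volume : Measure (ℝ × ℝ)).IsAddHaarMeasure := Measure.prod.instIsAddHaarMeasure _ _
  have h2 : (volume : Measure T3).IsAddHaarMeasure := Measure.prod.instIsAddHaarMeasure _ _
  have h3 : (Measure.map (dL.toHomeomorph.toMeasurableEquiv) (volume : Measure T3)).IsAddHaarMeasure :=
    dL.isAddHaarMeasure_map _
  refine ⟨Measure.addHaarScalarFactor (volume : Measure E3)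
    (Measure.map (dL.toHomeomorph.toMeasurableEquiv) (volume : Measure T3)), ?_, ENNReal.coe_ne_top, ?_⟩
  · have := Measure.addHaarScalarFactor_pos_of_isAddHaarMeasure (volume : Measure E3)
      (Measure.map (dL.toHomeomorph.toMeasurableEquiv) (volume : Measure T3))
    exact ENNReal.coe_ne_zero.2 this.ne'
  · exact Measure.isAddLeftInvariant_eq_smul_of_regular _ _

/-- the change of variables for the map `dL` -/
theorem dL_lintegral {c : ENNReal}
    (hc : (volume : Measure E3) = c • Measure.map (dL.toHomeomorph.toMeasurableEquiv) (volume : Measure T3))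
    (f : E3 → ENNReal) {B : Set T3} (hB : MeasurableSet B) :
    ∫⁻ y in dL '' B, f y = c * ∫⁻ p in B, f (dL p) := by
  have h1 : MeasurableSet (dL '' B) :=
    (dL.toHomeomorph.toMeasurableEquiv).measurableSet_image.2 hB
  rw [hc, Measure.restrict_smul, lintegral_smul_measure,
    Measure.restrict_map (dL.toHomeomorph.toMeasurableEquiv).measurable h1, lintegral_map_equiv]
  have h2 : (dL.toHomeomorph.toMeasurableEquiv) ⁻¹' (dL '' B) = B :=
    Set.preimage_image_eq B dL.injective
  rw [h2]
  rfl

/-- continuous preimages of measurable sets -/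
theorem meas_inter_preimage {α β : Type*} [TopologicalSpace α] [MeasurableSpace α] [BorelSpace α]
    [TopologicalSpace β] [MeasurableSpace β] [BorelSpace β] {f : α → β} {S : Set α} {B : Set β}
    (hf : ContinuousOn f S) (hS : MeasurableSet S) (hB : MeasurableSet B) :
    MeasurableSet (S ∩ f ⁻¹' B) := by
  have h1 : Measurable (S.domRestrict f) := hf.domRestrict.measurable
  have h2 := hS.subtype_image (h1 hB)
  have h3 : S ∩ f ⁻¹' B = (↑) '' (S.domRestrict f ⁻¹' B) := by
    ext x
    constructor
    · rintro ⟨hx, hxB⟩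
      exact ⟨⟨x, hx⟩, hxB, rfl⟩
    · rintro ⟨⟨y, hy⟩, hyB, rfl⟩
      exact ⟨hy, hyB⟩
  rw [h3]
  exact h2

omit [IsManifold (𝓡 3) ∞ M] in
theorem density [MeasurableSpace M] [BorelSpace M] {μ : Measure M} (hμ : SmoothPositive μ)
    (e : OpenPartialHomeomorph M T3) (he : IsTubeChart e) :
    ∃ ρ₀ : T3 → ℝ, ContDiffOn ℝ ∞ ρ₀ e.target ∧ (∀ p ∈ e.target, 0 < ρ₀ p) ∧
      ∀ g : M → ℝ, Continuous g → (∀ x, x ∉ e.source → g x = 0) →
        ∫ x, g x ∂μ = ∫ p in e.target, g (e.symm p) * ρ₀ p := by
  obtain ⟨c, hc0, hct, hc⟩ := dL_volume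
  set e' : OpenPartialHomeomorph M E3 := e.transHomeomorph dL.toHomeomorph with he'
  have hsource : e'.source = e.source := rfl
  have htarget : e'.target = dL.symm ⁻¹' e.target := rfl
  have hchart : IsSmoothChart e' := by
    constructor
    · rw [hsource]
      have h1 : ContMDiff 𝓘(ℝ, T3) 𝓘(ℝ, E3) ∞ dL := dL.contDiff.contMDiff
      exact h1.comp_contMDiffOn he.smooth
    · have h1 : ContMDiff 𝓘(ℝ, E3) 𝓘(ℝ, T3) ∞ dL.symm := dL.symm.contDiff.contMDiff
      exact he.smooth_symm.comp h1.contMDiffOn (fun y hy => hy)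
  obtain ⟨ρ, hρs, hρp, hρ⟩ := hμ e' hchart
  have hmem : ∀ p ∈ e.target, dL p ∈ e'.target := by
    intro p hp
    rw [htarget]
    simpa using hp
  have hcr : 0 < c.toReal := ENNReal.toReal_pos hc0 hct
  have hρ₀s : ContDiffOn ℝ ∞ (fun p => c.toReal * ρ (dL p)) e.target :=
    contDiffOn_const.mul (hρs.comp dL.contDiff.contDiffOn hmem)
  refine ⟨fun p => c.toReal * ρ (dL p), hρ₀s, fun p hp => mul_pos hcr (hρp _ (hmem p hp)), ?_⟩
  intro g hg hg0
  have hmS : MeasurableSet e.source := e.open_source.measurableSet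
  have hmT : MeasurableSet e.target := e.open_target.measurableSet
  -- measurability
  have hem : AEMeasurable e (μ.restrict e.source) := e.continuousOn.aemeasurable hmS
  have hρm : AEMeasurable (fun p => ENNReal.ofReal (c.toReal * ρ (dL p)))
      ((volume : Measure T3).restrict e.target) :=
    (hρ₀s.continuousOn.aemeasurable hmT).ennreal_ofReal
  -- the key identity of measures
  have key : Measure.map e (μ.restrict e.source) =
      ((volume : Measure T3).restrict e.target).withDensity
        (fun p => ENNReal.ofReal (c.toReal * ρ (dL p))) := by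
    ext B hB
    rw [Measure.map_apply_of_aemeasurable hem hB]
    have hA : MeasurableSet (e.source ∩ e ⁻¹' B) :=
      meas_inter_preimage e.continuousOn hmS hB
    rw [Measure.restrict_apply' hmS, inter_comm (e ⁻¹' B), hρ (e.source ∩ e ⁻¹' B) inter_subset_left hA,
      withDensity_apply _ hB, Measure.restrict_restrict hB]
    have h1 : e' '' (e.source ∩ e ⁻¹' B) = dL '' (B ∩ e.target) := by
      ext y
      constructor
      · rintro ⟨x, ⟨hx, hxB⟩, rfl⟩
        exact ⟨e x, ⟨hxB, e.map_source hx⟩, rfl⟩
      · rintro ⟨p, ⟨hpB, hp⟩, rfl⟩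
        refine ⟨e.symm p, ⟨e.map_target hp, ?_⟩, ?_⟩
        · simpa [e.right_inv hp] using hpB
        · change dL (e (e.symm p)) = dL p
          rw [e.right_inv hp]
    rw [h1, dL_lintegral hc _ (hB.inter hmT), ← lintegral_const_mul' _ _ hct]
    refine lintegral_congr fun p => ?_
    rw [ENNReal.ofReal_mul hcr.le, ENNReal.ofReal_toReal hct]
  -- conclusion
  have s1 : ∫ x, g x ∂μ = ∫ x in e.source, g x ∂μ := by
    rw [setIntegral_eq_integral_of_forall_compl_eq_zero]
    intro x hx
    exact hg0 x hx
  have s2 : ∫ x in e.source, g x ∂μ = ∫ x in e.source, g (e.symm (e x)) ∂μ := by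
    refine setIntegral_congr_fun hmS fun x hx => ?_
    simp only [e.left_inv hx]
  have hgs : ContinuousOn (fun p => g (e.symm p)) e.target := hg.comp_continuousOn e.continuousOn_symm
  have hgsm : AEStronglyMeasurable (fun p => g (e.symm p)) ((volume : Measure T3).restrict e.target) :=
    hgs.aestronglyMeasurable hmT
  have s3 : ∫ x in e.source, g (e.symm (e x)) ∂μ =
      ∫ p, g (e.symm p) ∂(Measure.map e (μ.restrict e.source)) := by
    rw [integral_map hem]
    rw [key]
    exact hgsm.mono_ac (withDensity_absolutelyContinuous _ _)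
  rw [s1, s2, s3, key, integral_withDensity_eq_integral_toReal_smul₀ hρm
    (Eventually.of_forall fun _ => ENNReal.ofReal_lt_top)]
  refine setIntegral_congr_fun hmT fun p hp => ?_
  simp only [smul_eq_mul]
  rw [ENNReal.toReal_ofReal (mul_pos hcr (hρp _ (hmem p hp))).le, mul_comm]

omit [IsManifold (𝓡 3) ∞ M] in
theorem ext0_smooth [T2Space M] (e : OpenPartialHomeomorph M T3) (he : IsTubeChart e) {v : T3 → ℝ}
    (hv : ContDiff ℝ ∞ v) (hvc : HasCompactSupport v) (hve : tsupport v ⊆ e.target) :
    SmoothFun (ext0 e v) := by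
  intro x
  by_cases hx : x ∈ e.source
  · have h1 : ContMDiffAt (𝓡 3) 𝓘(ℝ, ℝ) ∞ (fun y => v (e y)) x :=
      hv.contMDiff.contMDiffAt.comp x (he.smooth.contMDiffAt (e.open_source.mem_nhds hx))
    refine h1.congr_of_eventuallyEq ?_
    filter_upwards [e.open_source.mem_nhds hx] with y hy
    simp [ext0, hy]
  · have hK : IsCompact (e.symm '' tsupport v) :=
      hvc.isCompact.image_of_continuousOn (e.continuousOn_symm.mono hve)
    have hxK : x ∉ e.symm '' tsupport v := by
      rintro ⟨p, hp, rfl⟩
      exact hx (e.map_target (hve hp))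
    have h0 : ext0 e v =ᶠ[𝓝 x] fun _ => 0 := by
      filter_upwards [hK.isClosed.isOpen_compl.mem_nhds hxK] with y hy
      unfold ext0
      split_ifs with h
      · have h2 : e y ∉ tsupport v := fun h' => hy ⟨e y, h', e.left_inv h⟩
        exact image_eq_zero_of_notMem_tsupport h2
      · rfl
    exact contMDiffAt_const.congr_of_eventuallyEq h0

end Pool.Agent.SRGap
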