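import Pool.Agent.Work.MP_188050_an.Defs

/-!
# Internal definitions: the calculus on the tube `ℝ × ℝ × ℝ`, coordinates `(s, x, y)`, axis `x = y = 0`
-/

open Set MeasureTheory Filter Topology VectorField
open scoped Manifold ContDiff

namespace Pool.Agent.SRGap

/-- the tube, coordinates `(s, x, y)` -/
abbrev T3 := ℝ × ℝ × ℝ

section partials
variable {F : Type*} [NormedAddCommGroup F] [NormedSpace ℝ F]

/-- `∂_s` -/
noncomputable def pd0 (f : T3 → F) (p : T3) : F := fderiv ℝ f p (1, 0, 0)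
/-- `∂_x` -/
noncomputable def pd1 (f : T3 → F) (p : T3) : F := fderiv ℝ f p (0, 1, 0)
/-- `∂_y` -/
noncomputable def pd2 (f : T3 → F) (p : T3) : F := fderiv ℝ f p (0, 0, 1)

/-- derivative along a vector field -/
noncomputable def dir (V : T3 → T3) (f : T3 → F) (p : T3) : F := fderiv ℝ f p (V p)

end partials

/-- smooth complex functions which vanish to order `k` along the axis -/
def J : ℕ → (T3 → ℂ) → Prop
  | 0, f => ContDiff ℝ ∞ f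
  | k + 1, f => ∃ g h : T3 → ℂ, J k g ∧ J k h ∧ f = fun p => (p.2.1 : ℂ) * g p + (p.2.2 : ℂ) * h p

/-- complex vector fields on the tube -/
structure CVF where
  s : T3 → ℂ
  x : T3 → ℂ
  y : T3 → ℂ

namespace CVF

/-- smooth -/
structure Smooth (w : CVF) : Prop where
  s : ContDiff ℝ ∞ w.s
  x : ContDiff ℝ ∞ w.x
  y : ContDiff ℝ ∞ w.y

/-- the derivative along `w` -/
noncomputable def op (w : CVF) (v : T3 → ℂ) (p : T3) : ℂ :=
  w.s p * pd0 v p + w.x p * pd1 v p + w.y p * pd2 v p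

/-- complex conjugate -/
noncomputable def conj (w : CVF) : CVF where
  s := fun p => starRingEnd ℂ (w.s p)
  x := fun p => starRingEnd ℂ (w.x p)
  y := fun p => starRingEnd ℂ (w.y p)

end CVF

/-- `η = x - i y` -/
noncomputable def eta (p : T3) : ℂ := (p.2.1 : ℂ) - Complex.I * (p.2.2 : ℂ)

/-- Tube data: `X = a X₀ + c Y₀`, `Y = d Y₀`, `X₀ = ∂_x + f₁ ∂_s`, `Y₀ = ∂_y + f₂ ∂_s`, density `ρ`. -/
structure Tube where
  a : T3 → ℝ
  c : T3 → ℝ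
  d : T3 → ℝ
  ρ : T3 → ℝ
  f₁ : ℝ × ℝ → ℝ
  f₂ : ℝ × ℝ → ℝ
  smooth_a : ContDiff ℝ ∞ a
  smooth_c : ContDiff ℝ ∞ c
  smooth_d : ContDiff ℝ ∞ d
  smooth_ρ : ContDiff ℝ ∞ ρ
  smooth_f₁ : ContDiff ℝ ∞ f₁
  smooth_f₂ : ContDiff ℝ ∞ f₂
  a_pos : ∀ p, 0 < a p
  d_pos : ∀ p, 0 < d p
  ρ_pos : ∀ p, 0 < ρ p
  f₁_zero : f₁ (0, 0) = 0
  f₂_zero : f₂ (0, 0) = 0
  curl_zero : fderiv ℝ f₁ (0, 0) (0, 1) - fderiv ℝ f₂ (0, 0) (1, 0) = 1

namespace Tube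

variable (τ : Tube)

/-- the vector field `X` -/
def X (p : T3) : T3 := (τ.a p * τ.f₁ p.2 + τ.c p * τ.f₂ p.2, τ.a p, τ.c p)
/-- the vector field `Y` -/
def Y (p : T3) : T3 := (τ.d p * τ.f₂ p.2, 0, τ.d p)

/-- on `U` one has `dα (X, Y) = 1`, that is, `[X, Y] ≡ - ∂_s mod (X, Y)` -/
def Good (U : Set T3) : Prop :=
  ∀ p ∈ U, τ.a p * τ.d p * (fderiv ℝ τ.f₁ p.2 (0, 1) - fderiv ℝ τ.f₂ p.2 (1, 0)) = 1

/-- the divergence of a vector field for the density `ρ` -/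
noncomputable def div (V : T3 → T3) (p : T3) : ℝ :=
  (pd0 (fun q => τ.ρ q * (V q).1) p + pd1 (fun q => τ.ρ q * (V q).2.1) p +
    pd2 (fun q => τ.ρ q * (V q).2.2) p) / τ.ρ p

/-- the sub-Riemannian Laplacian `X* X + Y* Y` of the tube -/
noncomputable def L {F : Type*} [NormedAddCommGroup F] [NormedSpace ℝ F] (v : T3 → F) (p : T3) : F :=
  -(dir τ.X (dir τ.X v) p + τ.div τ.X p • dir τ.X v p) -
    (dir τ.Y (dir τ.Y v) p + τ.div τ.Y p • dir τ.Y v p)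

/-- the complex vector field `W = X + i Y` -/
noncomputable def w : CVF where
  s := fun p => (τ.a p * τ.f₁ p.2 + τ.c p * τ.f₂ p.2 : ℝ) + Complex.I * (τ.d p * τ.f₂ p.2 : ℝ)
  x := fun p => (τ.a p : ℝ)
  y := fun p => (τ.c p : ℝ) + Complex.I * (τ.d p : ℝ)

/-- `[X, Y] + ∂_s = α X + β Y` -/
noncomputable def alpha (p : T3) : ℝ := -dir τ.Y τ.a p / τ.a p
/-- see `alpha` -/
noncomputable def beta (p : T3) : ℝ := (dir τ.X τ.d p - dir τ.Y τ.c p - τ.alpha p * τ.c p) / τ.d p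

/-- zero order term of `W₁ = W + μ` -/
noncomputable def mu (p : T3) : ℂ :=
  ((τ.div τ.X p + τ.beta p : ℝ) + Complex.I * (τ.div τ.Y p - τ.alpha p : ℝ)) / 2
/-- zero order term of `W₁' = -W̄ + ν` -/
noncomputable def nu (p : T3) : ℂ :=
  ((τ.beta p - τ.div τ.X p : ℝ) + Complex.I * (τ.div τ.Y p + τ.alpha p : ℝ)) / 2
/-- zero order term of `L = W₁' W₁ - i ∂_s + ω` -/
noncomputable def om (p : T3) : ℂ := τ.w.conj.op τ.mu p - τ.nu p * τ.mu p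

/-- `κ(s) = a / (a + d - i c)` on the axis -/
noncomputable def kap (s : ℝ) : ℂ :=
  (τ.a (s, 0, 0) : ℂ) / ((τ.a (s, 0, 0) + τ.d (s, 0, 0) : ℝ) - Complex.I * (τ.c (s, 0, 0) : ℝ))

/-- the quadratic function `h(x, y)` which makes the 1-form `α` antisymmetric to first order -/
noncomputable def hq (q : ℝ × ℝ) : ℝ :=
  -(fderiv ℝ τ.f₁ (0, 0) (1, 0) * q.1 ^ 2 +
    (fderiv ℝ τ.f₁ (0, 0) (0, 1) + fderiv ℝ τ.f₂ (0, 0) (1, 0)) * (q.1 * q.2) +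
    fderiv ℝ τ.f₂ (0, 0) (0, 1) * q.2 ^ 2) / 2

/-- the quadratic part of the phase: `Φ₂ = s + h(x, y) + i η (x - κ(s) η) / 2` -/
noncomputable def phi2 (p : T3) : ℂ :=
  (p.1 : ℂ) + (τ.hq p.2 : ℂ) + Complex.I / 2 * (eta p * ((p.2.1 : ℂ) - τ.kap p.1 * eta p))

end Tube

/-- `W₁ = W + μ` -/
noncomputable def W1 (w : CVF) (m : T3 → ℂ) (v : T3 → ℂ) (p : T3) : ℂ := w.op v p + m p * v p
/-- `W₁' = -W̄ + ν` -/
noncomputable def Wd (w : CVF) (n : T3 → ℂ) (v : T3 → ℂ) (p : T3) : ℂ := -w.conj.op v p + n p * v p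

/-- coefficient of `λ ^ 2` -/
noncomputable def c2 (w : CVF) (Φ A : T3 → ℂ) (p : T3) : ℂ := w.conj.op Φ p * w.op Φ p * A p
/-- coefficient of `λ` -/
noncomputable def c1 (w : CVF) (m n : T3 → ℂ) (Φ A : T3 → ℂ) (p : T3) : ℂ :=
  -Complex.I * w.conj.op Φ p * W1 w m A p + Complex.I * Wd w n (fun q => w.op Φ q * A q) p +
    (pd0 Φ p - 1) * A p
/-- coefficient of `1` -/
noncomputable def c0 (w : CVF) (m n om : T3 → ℂ) (A : T3 → ℂ) (p : T3) : ℂ :=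
  Wd w n (W1 w m A) p - Complex.I * pd0 A p + om p * A p

/-! ### Frames in coordinates -/

/-- the cometric in the chart `e` -/
noncomputable def cG {M : Type*} [TopologicalSpace M] [ChartedSpace E3 M] [IsManifold (𝓡 3) ∞ M]
    (S : ContactSR M) (e : OpenPartialHomeomorph M T3) (p : T3) (ξ η : T3 →L[ℝ] ℝ) : ℝ :=
  S.G (e.symm p) (ξ ∘L (mfderiv (𝓡 3) 𝓘(ℝ, T3) e (e.symm p) : TangentSpace (𝓡 3) (e.symm p) →L[ℝ] T3))
    (η ∘L (mfderiv (𝓡 3) 𝓘(ℝ, T3) e (e.symm p) : TangentSpace (𝓡 3) (e.symm p) →L[ℝ] T3))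

/-- Reeb frames on an open set `U` of the tube, with Reeb field `∂_s` -/
structure EFrame (Gc : T3 → (T3 →L[ℝ] ℝ) → (T3 →L[ℝ] ℝ) → ℝ) (X Y : T3 → T3) (U : Set T3) : Prop where
  isOpen : IsOpen U
  smooth_X : ContDiffOn ℝ ∞ X U
  smooth_Y : ContDiffOn ℝ ∞ Y U
  indep : ∀ p ∈ U, LinearIndependent ℝ ![(1, 0, 0), X p, Y p]
  cometric : ∀ p ∈ U, ∀ ξ η : T3 →L[ℝ] ℝ, Gc p ξ η = ξ (X p) * η (X p) + ξ (Y p) * η (Y p)
  bracket : ∀ p ∈ U, lieBracket ℝ X Y p + (1, 0, 0) ∈ Submodule.span ℝ {X p, Y p}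
  bracket_X : ∀ p ∈ U, lieBracket ℝ (fun _ => ((1, 0, 0) : T3)) X p ∈ Submodule.span ℝ {X p, Y p}
  bracket_Y : ∀ p ∈ U, lieBracket ℝ (fun _ => ((1, 0, 0) : T3)) Y p ∈ Submodule.span ℝ {X p, Y p}

/-- smooth charts with values in the tube -/
structure IsTubeChart {M : Type*} [TopologicalSpace M] [ChartedSpace E3 M]
    (e : OpenPartialHomeomorph M T3) : Prop where
  smooth : ContMDiffOn (𝓡 3) 𝓘(ℝ, T3) ∞ e e.source
  smooth_symm : ContMDiffOn 𝓘(ℝ, T3) (𝓡 3) ∞ e.symm e.target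

/-- extension by zero to `M` of a function on the tube -/
noncomputable def ext0 {M : Type*} [TopologicalSpace M] (e : OpenPartialHomeomorph M T3) (v : T3 → ℝ)
    (x : M) : ℝ := by
  classical exact if x ∈ e.source then v (e x) else 0

end Pool.Agent.SRGap
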