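import Pool.Agent.Work.MP_188050_an.Abstract
import Pool.Agent.Work.MP_188050_an.Tube

/-!
# The Friedrichs relation is linear and symmetric
-/

open Set MeasureTheory Filter Topology VectorField
open scoped Manifold ContDiff InnerProductSpace

namespace Pool.Agent.SRGap

section M
variable {M : Type*} [TopologicalSpace M] [ChartedSpace E3 M] [IsManifold (𝓡 3) ∞ M]

/-- the derivative of a smooth function along a smooth vector field is continuous -/
theorem continuousOn_dd {f : M → ℝ} (hf : SmoothFun f) {U : Set M}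
    {X : (x : M) → TangentSpace (𝓡 3) x} (hX : SmoothVFOn X U) :
    ContinuousOn (fun x => (dd f x (X x) : ℝ)) U := by
  have h1 : Continuous (tangentMap (𝓡 3) 𝓘(ℝ, ℝ) f) := hf.continuous_tangentMap (by simp)
  have h2 : ContinuousOn (fun x => tangentMap (𝓡 3) 𝓘(ℝ, ℝ) f
      (⟨x, X x⟩ : TangentBundle (𝓡 3) M)) U := h1.comp_continuousOn hX.continuousOn
  have h3 : Continuous fun q : TangentBundle 𝓘(ℝ, ℝ) ℝ =>
      ((tangentBundleModelSpaceHomeomorph 𝓘(ℝ, ℝ)) q).2 :=
    continuous_snd.comp (tangentBundleModelSpaceHomeomorph 𝓘(ℝ, ℝ)).continuous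
  exact h3.comp_continuousOn h2

theorem continuous_G (S : ContactSR M) {f h : M → ℝ} (hf : SmoothFun f) (hh : SmoothFun h) :
    Continuous (fun x => S.G x (dd f x) (dd h x)) := by
  rw [continuous_iff_continuousAt]
  intro x₀
  obtain ⟨U, hx₀, X, Y, hXY⟩ := S.frame x₀
  have h1 : ContinuousOn (fun x => dd f x (X x) * dd h x (X x) + dd f x (Y x) * dd h x (Y x)) U :=
    ((continuousOn_dd hf hXY.smooth_X).mul (continuousOn_dd hh hXY.smooth_X)).add
      ((continuousOn_dd hf hXY.smooth_Y).mul (continuousOn_dd hh hXY.smooth_Y))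
  have h2 := h1.continuousAt (hXY.isOpen.mem_nhds hx₀)
  refine h2.congr ?_
  filter_upwards [hXY.isOpen.mem_nhds hx₀] with x hx
  exact (hXY.cometric x hx _ _).symm

variable (S : ContactSR M)

theorem G_add_left (x : M) (ξ ξ' η : TangentSpace (𝓡 3) x →L[ℝ] ℝ) :
    S.G x (ξ + ξ') η = S.G x ξ η + S.G x ξ' η := by
  obtain ⟨U, hx, X, Y, hXY⟩ := S.frame x
  rw [hXY.cometric x hx, hXY.cometric x hx, hXY.cometric x hx]
  show (ξ (X x) + ξ' (X x)) * η (X x) + (ξ (Y x) + ξ' (Y x)) * η (Y x) = _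
  ring

theorem G_smul_left (x : M) (r : ℝ) (ξ η : TangentSpace (𝓡 3) x →L[ℝ] ℝ) :
    S.G x (r • ξ) η = r * S.G x ξ η := by
  obtain ⟨U, hx, X, Y, hXY⟩ := S.frame x
  rw [hXY.cometric x hx, hXY.cometric x hx]
  show (r * ξ (X x)) * η (X x) + (r * ξ (Y x)) * η (Y x) = _
  ring

theorem G_comm (x : M) (ξ η : TangentSpace (𝓡 3) x →L[ℝ] ℝ) : S.G x ξ η = S.G x η ξ := by
  obtain ⟨U, hx, X, Y, hXY⟩ := S.frame x
  rw [hXY.cometric x hx, hXY.cometric x hx]
  ring

theorem G_nonneg (x : M) (ξ : TangentSpace (𝓡 3) x →L[ℝ] ℝ) : 0 ≤ S.G x ξ ξ := by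
  obtain ⟨U, hx, X, Y, hXY⟩ := S.frame x
  rw [hXY.cometric x hx]
  nlinarith [mul_self_nonneg (ξ (X x)), mul_self_nonneg (ξ (Y x))]

omit [IsManifold (𝓡 3) ∞ M] in
theorem SmoothFun.add {f h : M → ℝ} (hf : SmoothFun f) (hh : SmoothFun h) : SmoothFun (f + h) :=
  ContMDiff.add hf hh

omit [IsManifold (𝓡 3) ∞ M] in
theorem SmoothFun.sub {f h : M → ℝ} (hf : SmoothFun f) (hh : SmoothFun h) : SmoothFun (f - h) :=
  ContMDiff.sub hf hh

omit [IsManifold (𝓡 3) ∞ M] in
theorem SmoothFun.smul {f : M → ℝ} (r : ℝ) (hf : SmoothFun f) : SmoothFun (r • f) := by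
  have h : ContMDiff (𝓡 3) 𝓘(ℝ, ℝ) ∞ (fun _ : M => r) := contMDiff_const
  exact h.smul hf

omit [IsManifold (𝓡 3) ∞ M] in
theorem SmoothFun.cont {f : M → ℝ} (hf : SmoothFun f) : Continuous f := ContMDiff.continuous hf

omit [IsManifold (𝓡 3) ∞ M] in
theorem SmoothFun.mdiff {f : M → ℝ} (hf : SmoothFun f) (x : M) :
    MDifferentiableAt (𝓡 3) 𝓘(ℝ, ℝ) f x := (ContMDiff.mdifferentiable hf (by simp)) x

omit [IsManifold (𝓡 3) ∞ M] in
theorem dd_add {f h : M → ℝ} (hf : SmoothFun f) (hh : SmoothFun h) (x : M) :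
    dd (f + h) x = dd f x + dd h x := mfderiv_add (hf.mdiff x) (hh.mdiff x)

omit [IsManifold (𝓡 3) ∞ M] in
theorem dd_smul {f : M → ℝ} (r : ℝ) (hf : SmoothFun f) (x : M) :
    dd (r • f) x = r • dd f x := const_smul_mfderiv (hf.mdiff x) r

variable [CompactSpace M] [MeasurableSpace M] [BorelSpace M] (μ : Measure M) [IsFiniteMeasure μ]

theorem integrable_G {f h : M → ℝ} (hf : SmoothFun f) (hh : SmoothFun h) :
    Integrable (fun x => S.G x (dd f x) (dd h x)) μ :=
  (continuous_G S hf hh).integrable_of_hasCompactSupport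
    (HasCompactSupport.of_compactSpace _)

theorem energy_add_left {f f' h : M → ℝ} (hf : SmoothFun f) (hf' : SmoothFun f')
    (hh : SmoothFun h) : energy S μ (f + f') h = energy S μ f h + energy S μ f' h := by
  unfold energy
  rw [← integral_add (integrable_G S μ hf hh) (integrable_G S μ hf' hh)]
  congr 1
  ext x
  rw [dd_add hf hf', G_add_left]

omit [CompactSpace M] [BorelSpace M] [IsFiniteMeasure μ] in
theorem energy_smul_left {f h : M → ℝ} (r : ℝ) (hf : SmoothFun f) :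
    energy S μ (r • f) h = r * energy S μ f h := by
  unfold energy
  rw [← integral_const_mul]
  congr 1
  ext x
  rw [dd_smul r hf, G_smul_left]

omit [CompactSpace M] [BorelSpace M] [IsFiniteMeasure μ] in
theorem energy_comm (f h : M → ℝ) : energy S μ f h = energy S μ h f := by
  unfold energy
  congr 1
  ext x
  rw [G_comm]

omit [CompactSpace M] [BorelSpace M] [IsFiniteMeasure μ] in
theorem energy_nonneg (f : M → ℝ) : 0 ≤ energy S μ f f :=
  integral_nonneg fun x => G_nonneg S x _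

theorem energy_sub_left {f f' h : M → ℝ} (hf : SmoothFun f) (hf' : SmoothFun f')
    (hh : SmoothFun h) : energy S μ (f - f') h = energy S μ f h - energy S μ f' h := by
  have h1 : f - f' = f + (-1 : ℝ) • f' := by
    ext x
    simp [sub_eq_add_neg]
  rw [h1, energy_add_left S μ hf (hf'.smul _) hh, energy_smul_left S μ _ hf']
  ring

theorem energy_add_right {f h h' : M → ℝ} (hf : SmoothFun f) (hh : SmoothFun h)
    (hh' : SmoothFun h') : energy S μ f (h + h') = energy S μ f h + energy S μ f h' := by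
  rw [energy_comm, energy_add_left S μ hh hh' hf, energy_comm S μ h f, energy_comm S μ h' f]

theorem energy_sub_right {f h h' : M → ℝ} (hf : SmoothFun f) (hh : SmoothFun h)
    (hh' : SmoothFun h') : energy S μ f (h - h') = energy S μ f h - energy S μ f h' := by
  rw [energy_comm, energy_sub_left S μ hh hh' hf, energy_comm S μ h f, energy_comm S μ h' f]

omit [CompactSpace M] [BorelSpace M] [IsFiniteMeasure μ] in
theorem energy_smul_right {f h : M → ℝ} (r : ℝ) (hh : SmoothFun h) :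
    energy S μ f (r • h) = r * energy S μ f h := by
  rw [energy_comm, energy_smul_left S μ r hh, energy_comm]

theorem energy_abs_le {f h : M → ℝ} (hf : SmoothFun f) (hh : SmoothFun h) :
    |energy S μ f h| ≤ (energy S μ f f + energy S μ h h) / 2 := by
  have h1 := energy_nonneg S μ (f + h)
  have h2 := energy_nonneg S μ (f - h)
  rw [energy_add_left S μ hf hh (hf.add hh), energy_add_right S μ hf hf hh,
    energy_add_right S μ hh hf hh, energy_comm S μ h f] at h1
  rw [energy_sub_left S μ hf hh (hf.sub hh), energy_sub_right S μ hf hf hh,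
    energy_sub_right S μ hh hf hh, energy_comm S μ h f] at h2
  rw [abs_le]
  constructor <;> linarith

theorem energy_add_le {f h : M → ℝ} (hf : SmoothFun f) (hh : SmoothFun h) :
    energy S μ (f + h) (f + h) ≤ 2 * energy S μ f f + 2 * energy S μ h h := by
  have h2 := energy_nonneg S μ (f - h)
  rw [energy_sub_left S μ hf hh (hf.sub hh), energy_sub_right S μ hf hf hh,
    energy_sub_right S μ hh hf hh, energy_comm S μ h f] at h2
  rw [energy_add_left S μ hf hh (hf.add hh), energy_add_right S μ hf hf hh,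
    energy_add_right S μ hh hf hh, energy_comm S μ h f]
  linarith

omit [IsManifold (𝓡 3) ∞ M] in
theorem SmoothFun.memLp {f : M → ℝ} (hf : SmoothFun f) : MemLp f 2 μ := by
  have hc := hf.cont
  exact hc.memLp_of_hasCompactSupport (HasCompactSupport.of_compactSpace _)

omit [IsManifold (𝓡 3) ∞ M] in
theorem integrable_mul_smooth (g : Lp ℝ 2 μ) {f : M → ℝ} (hf : SmoothFun f) :
    Integrable (fun x => g x * f x) μ :=
  (Lp.memLp g).integrable_mul (hf.memLp μ)

omit [IsManifold (𝓡 3) ∞ M] in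
theorem inner_smooth (g : Lp ℝ 2 μ) {f : M → ℝ} (hf : SmoothFun f) :
    ∫ x, g x * f x ∂μ = ⟪g, (hf.memLp μ).toLp f⟫_ℝ := by
  rw [L2.inner_def]
  apply integral_congr_ae
  filter_upwards [(hf.memLp μ).coeFn_toLp] with x hx
  rw [hx]
  simp [mul_comm]

omit [IsManifold (𝓡 3) ∞ M] in
/-- `L²` convergence of smooth functions -/
theorem tendsto_toLp {v : ℕ → M → ℝ} (hv : ∀ n, SmoothFun (v n)) {f : Lp ℝ 2 μ}
    (h : Tendsto (fun n => eLpNorm (fun x => v n x - f x) 2 μ) atTop (𝓝 0)) :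
    Tendsto (fun n => ((hv n).memLp μ).toLp (v n)) atTop (𝓝 f) := by
  rw [Lp.tendsto_Lp_iff_tendsto_eLpNorm']
  refine h.congr fun n => ?_
  apply eLpNorm_congr_ae
  filter_upwards [((hv n).memLp μ).coeFn_toLp] with x hx
  rw [Pi.sub_apply, hx]

theorem friedrichs_add {p q : Lp ℝ 2 μ × Lp ℝ 2 μ} (hp : p ∈ friedrichs S μ)
    (hq : q ∈ friedrichs S μ) : p + q ∈ friedrichs S μ := by
  obtain ⟨v, hv, hv1, hv2, hv3⟩ := hp
  obtain ⟨w, hw, hw1, hw2, hw3⟩ := hq
  refine ⟨fun n => v n + w n, fun n => (hv n).add (hw n), ?_, ?_, ?_⟩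
  · have h1 : Tendsto (fun n => eLpNorm (fun x => v n x - p.1 x) 2 μ +
        eLpNorm (fun x => w n x - q.1 x) 2 μ) atTop (𝓝 0) := by
      simpa using hv1.add hw1
    refine tendsto_of_tendsto_of_tendsto_of_le_of_le tendsto_const_nhds h1
      (fun n => bot_le) fun n => ?_
    have h2 : eLpNorm (fun x => (v n + w n) x - (p + q).1 x) 2 μ =
        eLpNorm ((fun x => v n x - p.1 x) + fun x => w n x - q.1 x) 2 μ := by
      apply eLpNorm_congr_ae
      filter_upwards [Lp.coeFn_add p.1 q.1] with x hx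
      rw [Prod.fst_add, hx]
      simp only [Pi.add_apply]
      ring
    show eLpNorm (fun x => (v n + w n) x - (p + q).1 x) 2 μ ≤ _
    rw [h2]
    exact eLpNorm_add_le (((hv n).memLp μ).sub (Lp.memLp p.1)).aestronglyMeasurable
      (((hw n).memLp μ).sub (Lp.memLp q.1)).aestronglyMeasurable (by norm_num)
  · have h1 : Tendsto (fun r : ℕ × ℕ => 2 * energy S μ (v r.1 - v r.2) (v r.1 - v r.2) +
        2 * energy S μ (w r.1 - w r.2) (w r.1 - w r.2)) atTop (𝓝 0) := by
      simpa using (hv2.const_mul 2).add (hw2.const_mul 2)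
    refine tendsto_of_tendsto_of_tendsto_of_le_of_le tendsto_const_nhds h1
      (fun r => energy_nonneg S μ _) fun r => ?_
    have h2 : (v r.1 + w r.1) - (v r.2 + w r.2) = (v r.1 - v r.2) + (w r.1 - w r.2) := by
      abel
    show energy S μ ((v r.1 + w r.1) - (v r.2 + w r.2)) ((v r.1 + w r.1) - (v r.2 + w r.2)) ≤ _
    rw [h2]
    exact energy_add_le S μ ((hv _).sub (hv _)) ((hw _).sub (hw _))
  · intro φ hφ
    have h1 := (hv3 φ hφ).add (hw3 φ hφ)
    have h2 : ∫ x, (p + q).2 x * φ x ∂μ = ∫ x, p.2 x * φ x ∂μ + ∫ x, q.2 x * φ x ∂μ := by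
      rw [← integral_add (integrable_mul_smooth μ p.2 hφ) (integrable_mul_smooth μ q.2 hφ)]
      apply integral_congr_ae
      filter_upwards [Lp.coeFn_add p.2 q.2] with x hx
      rw [Prod.snd_add, hx]
      simp only [Pi.add_apply]
      ring
    rw [h2]
    refine h1.congr fun n => ?_
    exact (energy_add_left S μ (hv n) (hw n) hφ).symm

omit [CompactSpace M] [BorelSpace M] [IsFiniteMeasure μ] in
theorem friedrichs_smul (r : ℝ) {p : Lp ℝ 2 μ × Lp ℝ 2 μ} (hp : p ∈ friedrichs S μ) :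
    r • p ∈ friedrichs S μ := by
  obtain ⟨v, hv, hv1, hv2, hv3⟩ := hp
  refine ⟨fun n => r • v n, fun n => (hv n).smul r, ?_, ?_, ?_⟩
  · have h1 : Tendsto (fun n => ‖r‖ₑ * eLpNorm (fun x => v n x - p.1 x) 2 μ) atTop (𝓝 0) := by
      have := ENNReal.Tendsto.const_mul (a := ‖r‖ₑ) hv1 (Or.inr enorm_ne_top)
      simpa using this
    refine h1.congr fun n => ?_
    rw [← eLpNorm_const_smul]
    apply eLpNorm_congr_ae
    filter_upwards [Lp.coeFn_smul r p.1] with x hx
    show r • (v n x - p.1 x) = (r • v n) x - (r • p).1 x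
    rw [Prod.smul_fst, hx]
    simp only [Pi.smul_apply, smul_eq_mul]
    ring
  · have h1 : Tendsto (fun q : ℕ × ℕ => r * (r * energy S μ (v q.1 - v q.2) (v q.1 - v q.2)))
        atTop (𝓝 0) := by
      simpa using (hv2.const_mul r).const_mul r
    refine h1.congr fun q => ?_
    have h2 : r • v q.1 - r • v q.2 = r • (v q.1 - v q.2) := (smul_sub r _ _).symm
    show _ = energy S μ (r • v q.1 - r • v q.2) (r • v q.1 - r • v q.2)
    rw [h2, energy_smul_left S μ r ((hv _).sub (hv _)),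
      energy_smul_right S μ r ((hv _).sub (hv _))]
  · intro φ hφ
    have h1 := (hv3 φ hφ).const_mul r
    have h2 : ∫ x, (r • p).2 x * φ x ∂μ = r * ∫ x, p.2 x * φ x ∂μ := by
      rw [← integral_const_mul]
      apply integral_congr_ae
      filter_upwards [Lp.coeFn_smul r p.2] with x hx
      rw [Prod.smul_snd, hx]
      simp only [Pi.smul_apply, smul_eq_mul]
      ring
    rw [h2]
    refine h1.congr fun n => ?_
    exact (energy_smul_left S μ r (hv n)).symm

theorem friedrichs_symm {p q : Lp ℝ 2 μ × Lp ℝ 2 μ} (hp : p ∈ friedrichs S μ)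
    (hq : q ∈ friedrichs S μ) : ⟪p.2, q.1⟫_ℝ = ⟪p.1, q.2⟫_ℝ := by
  obtain ⟨v, hv, hv1, hv2, hv3⟩ := hp
  obtain ⟨w, hw, hw1, hw2, hw3⟩ := hq
  set A : ℕ → ℝ := fun m => ∫ x, p.2 x * w m x ∂μ with hA
  set B : ℕ → ℝ := fun n => ∫ x, q.2 x * v n x ∂μ with hB
  have hA1 : Tendsto A atTop (𝓝 ⟪p.2, q.1⟫_ℝ) := by
    have h1 : A = fun m => ⟪p.2, ((hw m).memLp μ).toLp (w m)⟫_ℝ := by
      ext m
      exact inner_smooth μ p.2 (hw m)
    rw [h1]
    exact (tendsto_const_nhds).inner (tendsto_toLp μ hw hw1)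
  have hB1 : Tendsto B atTop (𝓝 ⟪q.2, p.1⟫_ℝ) := by
    have h1 : B = fun m => ⟪q.2, ((hv m).memLp μ).toLp (v m)⟫_ℝ := by
      ext m
      exact inner_smooth μ q.2 (hv m)
    rw [h1]
    exact (tendsto_const_nhds).inner (tendsto_toLp μ hv hv1)
  rw [real_inner_comm q.2 p.1]
  have key : ∀ ε > 0, |⟪p.2, q.1⟫_ℝ - ⟪q.2, p.1⟫_ℝ| ≤ ε := by
    intro ε hε
    have e1 := hv2.eventually (gt_mem_nhds hε)
    have e2 := hw2.eventually (gt_mem_nhds hε)
    rw [eventually_atTop] at e1 e2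
    obtain ⟨a, ha⟩ := e1
    obtain ⟨b, hb⟩ := e2
    set N := max (max a.1 a.2) (max b.1 b.2) with hN
    have h4 : ∀ n ≥ N, ∀ n' ≥ N, ∀ m ≥ N, ∀ m' ≥ N,
        |energy S μ (v n) (w m) - energy S μ (v n') (w m) - energy S μ (v n) (w m') +
          energy S μ (v n') (w m')| ≤ ε := by
      intro n hn n' hn' m hm m' hm'
      have c1 := ha (n, n') ⟨by omega, by omega⟩
      have c2 := hb (m, m') ⟨by omega, by omega⟩
      have c3 := energy_abs_le S μ ((hv n).sub (hv n')) ((hw m).sub (hw m'))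
      rw [energy_sub_left S μ (hv n) (hv n') ((hw m).sub (hw m')),
        energy_sub_right S μ (hv n) (hw m) (hw m'),
        energy_sub_right S μ (hv n') (hw m) (hw m')] at c3
      simp only at c1 c2
      refine le_trans (le_of_eq ?_) (c3.trans (by linarith))
      congr 1
      ring
    have h5 : ∀ n ≥ N, ∀ m ≥ N, ∀ m' ≥ N,
        |energy S μ (v n) (w m) - A m - energy S μ (v n) (w m') + A m'| ≤ ε := by
      intro n hn m hm m' hm'
      refine le_of_tendsto ((((tendsto_const_nhds.sub (hv3 (w m) (hw m))).sub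
        tendsto_const_nhds).add (hv3 (w m') (hw m'))).abs) ?_
      filter_upwards [eventually_ge_atTop N] with n' hn'
      exact h4 n hn n' hn' m hm m' hm'
    have h6 : ∀ n ≥ N, ∀ m ≥ N, |energy S μ (v n) (w m) - A m - B n + ⟪p.2, q.1⟫_ℝ| ≤ ε := by
      intro n hn m hm
      have h7 : Tendsto (fun m' => energy S μ (v n) (w m')) atTop (𝓝 (B n)) := by
        refine (hw3 (v n) (hv n)).congr fun m' => ?_
        exact energy_comm S μ _ _
      refine le_of_tendsto ((((tendsto_const_nhds.sub tendsto_const_nhds).sub h7).add hA1).abs) ?_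
      filter_upwards [eventually_ge_atTop N] with m' hm'
      exact h5 n hn m hm m' hm'
    have h8 : |A N - A N - ⟪q.2, p.1⟫_ℝ + ⟪p.2, q.1⟫_ℝ| ≤ ε := by
      refine le_of_tendsto (((((hv3 (w N) (hw N)).sub tendsto_const_nhds).sub hB1).add
        tendsto_const_nhds).abs) ?_
      filter_upwards [eventually_ge_atTop N] with n hn
      exact h6 n hn N le_rfl
    refine le_trans (le_of_eq ?_) h8
    congr 1
    ring
  have h9 : |⟪p.2, q.1⟫_ℝ - ⟪q.2, p.1⟫_ℝ| ≤ 0 := le_of_forall_pos_le_add fun ε hε => by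
    rw [zero_add]; exact key ε hε
  have h10 := abs_nonpos_iff.1 h9
  linarith

theorem gap_ineq_aux (t c : ℝ) (hc : 0 < c) (hres : ∀ s, |s - t| < c / 2 → s ∉ spec S μ) :
    ∀ p ∈ friedrichs S μ, c / 2 * ‖p.1‖ ≤ ‖p.2 - t • p.1‖ := by
  refine gap_abstract (friedrichs S μ) (fun p hp q hq => friedrichs_add S μ hp hq)
    (fun r p hp => friedrichs_smul S μ r hp) (fun p hp q hq => friedrichs_symm S μ hp hq) t c hc ?_
  intro s hs g
  have h1 : ¬ ¬ ∀ g : Lp ℝ 2 μ, ∃! f : Lp ℝ 2 μ, (f, g + s • f) ∈ friedrichs S μ := hres s hs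
  exact not_not.1 h1 g

end M

section M
variable {M : Type*} [TopologicalSpace M] [ChartedSpace E3 M] [IsManifold (𝓡 3) ∞ M]

theorem gap_ineq [CompactSpace M] [MeasurableSpace M] [BorelSpace M] (S : ContactSR M)
    (μ : Measure M) [IsFiniteMeasure μ] (t c : ℝ) (hc : 0 < c)
    (hres : ∀ s, |s - t| < c / 2 → s ∉ spec S μ) :
    ∀ p ∈ friedrichs S μ, c / 2 * ‖p.1‖ ≤ ‖p.2 - t • p.1‖ :=
  gap_ineq_aux S μ t c hc hres

end M

end Pool.Agent.SRGap
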