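import Pool.Agent.Work.MP_188050_an.Tube
import Pool.Agent.Work.MP_3b24f6_gt.S.Flow

/-!
# The smooth flow of a smooth vector field on a compact 3-manifold
-/

open Set MeasureTheory Filter Topology VectorField
open scoped Manifold ContDiff

namespace Pool.Agent.SRGap

section M
variable {M : Type*} [TopologicalSpace M] [ChartedSpace E3 M] [IsManifold (𝓡 3) ∞ M]

/-- the vector field in the chart at `x₀` -/
theorem chart_vf (Z : (x : M) → TangentSpace (𝓡 3) x) (hZ : SmoothVFOn Z univ) (x₀ : M) :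
    ∃ f : E3 → E3, ContDiffOn ℝ ∞ f (chartAt E3 x₀).target ∧
      ∀ y ∈ (chartAt E3 x₀).target, mfderiv 𝓘(ℝ, E3) (𝓡 3) (chartAt E3 x₀).symm y (f y) =
        Z ((chartAt E3 x₀).symm y) := by
  set e := chartAt E3 x₀ with he
  have hM1 : IsManifold (𝓡 3) 1 M := IsManifold.of_le (n := ∞) (by norm_cast)
  have hs : ContMDiffOn 𝓘(ℝ, E3) (𝓡 3) ∞ e.symm e.target := contMDiffOn_chart_symm
  have hmd : e.MDifferentiable (𝓡 3) (𝓡 3) := mdifferentiable_chart x₀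
  have hinv : ∀ y ∈ e.target, (mfderiv 𝓘(ℝ, E3) (𝓡 3) e.symm y).IsInvertible := fun y hy =>
    ⟨hmd.symm.mfderiv hy, rfl⟩
  refine ⟨fun y => mpullback 𝓘(ℝ, E3) (𝓡 3) e.symm Z y, ?_, ?_⟩
  · rw [← contMDiffOn_vectorSpace_iff_contDiffOn]
    intro y hy
    have h1 : ContMDiffAt 𝓘(ℝ, E3) (𝓡 3) ∞ e.symm y := hs.contMDiffAt (e.open_target.mem_nhds hy)
    have h2 : ContMDiffAt (𝓡 3) (𝓡 3).tangent ∞ (fun x => (⟨x, Z x⟩ : TangentBundle (𝓡 3) M)) (e.symm y) :=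
      hZ.contMDiffAt univ_mem
    exact (ContMDiffAt.mpullback_vectorField_preimage h2 h1 (hinv y hy) (by simp)).contMDiffWithinAt
  · intro y hy
    exact (hinv y hy).self_apply_inverse _

/-- local flow in a chart -/
theorem local_flowM (Z : (x : M) → TangentSpace (𝓡 3) x) (hZ : SmoothVFOn Z univ) (x₀ : M) :
    ∃ V : Set M, IsOpen V ∧ x₀ ∈ V ∧ ∃ δ : ℝ, 0 < δ ∧ ∃ F : ℝ → M → M,
      ContMDiffOn (𝓘(ℝ, ℝ).prod (𝓡 3)) (𝓡 3) ∞ (fun p : ℝ × M => F p.1 p.2) (Ioo (-δ) δ ×ˢ V) ∧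
      (∀ x ∈ V, F 0 x = x) ∧ ∀ x ∈ V, IsMIntegralCurveOn (fun t => F t x) Z (Ioo (-δ) δ) := by
  have hM1 : IsManifold (𝓡 3) 1 M := IsManifold.of_le (n := ∞) (by norm_cast)
  obtain ⟨f, hf, hfZ⟩ := chart_vf Z hZ x₀
  set e := chartAt E3 x₀ with he
  have hmd : e.MDifferentiable (𝓡 3) (𝓡 3) := mdifferentiable_chart x₀
  have hx₀ : x₀ ∈ e.source := mem_chart_source E3 x₀
  have hse : ContMDiffOn (𝓡 3) 𝓘(ℝ, E3) ∞ e e.source := contMDiffOn_chart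
  have hs : ContMDiffOn 𝓘(ℝ, E3) (𝓡 3) ∞ e.symm e.target := contMDiffOn_chart_symm
  obtain ⟨V, hV, hxV, hVU, δ, hδ, φ, hφ, hφ0, hφU, hφd, -, -⟩ :=
    Pool.Agent.Work.MP_3b24f6_gt.Flow.local_flow e.open_target hf (γ := fun _ => e x₀) (T := 0)
      le_rfl continuousOn_const (fun t ht => absurd ht (by simp)) (fun _ _ => e.map_source hx₀)
  rw [zero_add] at hφU hφd
  refine ⟨e.source ∩ e ⁻¹' V, e.isOpen_inter_preimage hV, ⟨hx₀, hxV⟩, δ, hδ,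
    fun t x => e.symm (φ t (e x)), ?_, fun x hx => by simp only [hφ0]; exact e.left_inv hx.1, ?_⟩
  · have h1 : ContMDiffOn (𝓘(ℝ, ℝ).prod (𝓡 3)) 𝓘(ℝ, ℝ × E3) ∞ (fun p : ℝ × M => (p.1, e p.2))
        (Ioo (-δ) δ ×ˢ (e.source ∩ e ⁻¹' V)) := by
      refine ContMDiffOn.prodMk_space contMDiffOn_fst ?_
      exact hse.comp contMDiffOn_snd fun p hp => hp.2.1
    have h2 : ContMDiff 𝓘(ℝ, ℝ × E3) 𝓘(ℝ, E3) ∞ (Function.uncurry φ) := hφ.contMDiff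
    exact hs.comp (h2.comp_contMDiffOn h1) fun p hp => hφU p.1 hp.1 (e p.2) hp.2.2
  · intro x hx t ht
    have hy : φ t (e x) ∈ e.target := hφU t ht (e x) hx.2
    have h1 : HasMFDerivAt 𝓘(ℝ, E3) (𝓡 3) e.symm (φ t (e x)) (mfderiv 𝓘(ℝ, E3) (𝓡 3) e.symm (φ t (e x))) :=
      (hmd.mdifferentiableAt_symm hy).hasMFDerivAt
    have h2 : HasMFDerivAt 𝓘(ℝ, ℝ) 𝓘(ℝ, E3) (fun s => φ s (e x)) t
        ((1 : ℝ →L[ℝ] ℝ).smulRight (f (φ t (e x)))) :=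
      (hφd t ht (e x) hx.2).hasFDerivAt.hasMFDerivAt
    have h3 := (HasMFDerivAt.comp t h1 h2).hasMFDerivWithinAt (s := Ioo (-δ) δ)
    refine h3.congr_mfderiv ?_
    refine ContinuousLinearMap.ext fun (a : ℝ) => ?_
    show (mfderiv 𝓘(ℝ, E3) (𝓡 3) e.symm (φ t (e x))) (a • f (φ t (e x))) = a • Z (e.symm (φ t (e x)))
    rw [← hfZ _ hy]
    exact map_smul _ a _

theorem exists_flow [T2Space M] [CompactSpace M] (Z : (x : M) → TangentSpace (𝓡 3) x)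
    (hZ : SmoothVFOn Z univ) : ∃ Fl : ℝ → M → M,
      ContMDiff (𝓘(ℝ, ℝ).prod (𝓡 3)) (𝓡 3) ∞ (fun p : ℝ × M => Fl p.1 p.2) ∧ (∀ x, Fl 0 x = x) ∧
      (∀ x, IsMIntegralCurve (fun t => Fl t x) Z) ∧ ∀ s t x, Fl (s + t) x = Fl s (Fl t x) := by
  have hM1 : IsManifold (𝓡 3) 1 M := IsManifold.of_le (n := ∞) (by norm_cast)
  have hZ1 : ContMDiff (𝓡 3) (𝓡 3).tangent 1 (fun x => (⟨x, Z x⟩ : TangentBundle (𝓡 3) M)) :=
    (contMDiffOn_univ.1 hZ).of_le (by norm_cast)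
  choose V hVo hxV δ hδ F hFs hF0 hFi using local_flowM Z hZ
  obtain ⟨T, -, hT⟩ := isCompact_univ.elim_nhds_subcover V (fun x _ => (hVo x).mem_nhds (hxV x))
  have hloc : ∀ x : M, ∃ y ∈ T, x ∈ V y := by
    intro x
    have := hT (mem_univ x)
    simpa only [mem_iUnion, exists_prop] using this
  obtain ⟨ε, hε, hεt⟩ : ∃ ε : ℝ, 0 < ε ∧ ∀ y ∈ T, ε ≤ δ y := by
    rcases T.eq_empty_or_nonempty with h | h
    · exact ⟨1, one_pos, fun y hy => absurd hy (by simp [h])⟩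
    · obtain ⟨y₀, hy₀, hmin⟩ := T.exists_min_image δ h
      exact ⟨δ y₀, hδ y₀, hmin⟩
  have hcur : ∀ x, ∃ γ : ℝ → M, γ 0 = x ∧ IsMIntegralCurveOn γ Z (Ioo (-ε) ε) := by
    intro x
    obtain ⟨y, hy, hxy⟩ := hloc x
    exact ⟨fun t => F y t x, hF0 y x hxy, (hFi y x hxy).mono
      (Ioo_subset_Ioo (neg_le_neg (hεt y hy)) (hεt y hy))⟩
  have hglob := exists_isMIntegralCurve_of_isMIntegralCurveOn hZ1 hε hcur
  choose γ hγ0 hγ using hglob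
  -- the group law
  have hadd : ∀ s t x, γ x (s + t) = γ (γ x t) s := by
    intro s t x
    have h1 : IsMIntegralCurve (γ x ∘ (· + t)) Z := (hγ x).comp_add t
    have h2 := isMIntegralCurve_Ioo_eq_of_contMDiff_boundaryless (t₀ := 0) hZ1 h1 (hγ (γ x t))
      (by simp [hγ0])
    exact congrFun h2 s
  -- near time zero
  have hA : ∀ s ∈ Ioo (-ε) ε, ∀ x, ContMDiffAt (𝓘(ℝ, ℝ).prod (𝓡 3)) (𝓡 3) ∞
      (fun p : ℝ × M => γ p.2 p.1) (s, x) := by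
    intro s hs x
    obtain ⟨y, hy, hxy⟩ := hloc x
    have hsub : Ioo (-ε) ε ⊆ Ioo (-δ y) (δ y) := Ioo_subset_Ioo (neg_le_neg (hεt y hy)) (hεt y hy)
    have hnh : Ioo (-ε) ε ×ˢ V y ∈ 𝓝 (s, x) :=
      (isOpen_Ioo.prod (hVo y)).mem_nhds ⟨hs, hxy⟩
    have h1 : ContMDiffAt (𝓘(ℝ, ℝ).prod (𝓡 3)) (𝓡 3) ∞ (fun p : ℝ × M => F y p.1 p.2) (s, x) :=
      ((hFs y).mono (prod_mono_left hsub)).contMDiffAt hnh
    refine h1.congr_of_eventuallyEq ?_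
    filter_upwards [hnh] with p hp
    have h2 := isMIntegralCurveOn_Ioo_eqOn_of_contMDiff_boundaryless (t₀ := 0)
      ⟨neg_lt_zero.2 hε, hε⟩ hZ1 ((hγ p.2).isMIntegralCurveOn (Ioo (-ε) ε))
      ((hFi y p.2 hp.2).mono hsub) (by simp only [hγ0, hF0 y p.2 hp.2])
    exact h2 hp.1
  have hB : ∀ s ∈ Ioo (-ε) ε, ContMDiff (𝓡 3) (𝓡 3) ∞ (fun x => γ x s) := by
    intro s hs x
    exact (hA s hs x).comp x (contMDiffAt_const.prodMk contMDiffAt_id)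
  have hC : ∀ s ∈ Ioo (-ε) ε, ∀ k : ℕ, ContMDiff (𝓡 3) (𝓡 3) ∞ (fun x => γ x (k * s)) := by
    intro s hs k
    induction k with
    | zero =>
      simp only [Nat.cast_zero, zero_mul, hγ0]
      exact contMDiff_id
    | succ k ih =>
      have h1 : (fun x => γ x ((k + 1 : ℕ) * s)) = fun x => γ (γ x (k * s)) s := by
        funext x
        rw [← hadd]
        congr 1
        push_cast
        ring
      rw [h1]
      exact (hB s hs).comp ih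
  have hD : ∀ s : ℝ, ContMDiff (𝓡 3) (𝓡 3) ∞ (fun x => γ x s) := by
    intro s
    obtain ⟨n, hn⟩ := exists_nat_gt (|s| / ε)
    have hn0 : (0 : ℝ) < n := lt_of_le_of_lt (div_nonneg (abs_nonneg s) hε.le) hn
    have h1 : |s / n| < ε := by
      rw [abs_div, abs_of_pos hn0, div_lt_iff₀ hn0]
      rw [div_lt_iff₀ hε] at hn
      linarith [mul_comm (n : ℝ) ε]
    have h2 := hC (s / n) (abs_lt.1 h1) n
    have h3 : (n : ℝ) * (s / n) = s := by field_simp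
    rwa [h3] at h2
  refine ⟨fun t x => γ x t, ?_, hγ0, hγ, hadd⟩
  rintro ⟨s₀, x₀⟩
  have h1 : (fun p : ℝ × M => γ p.2 p.1) = (fun p : ℝ × M => γ p.2 p.1) ∘
      (fun p : ℝ × M => (p.1 - s₀, γ p.2 s₀)) := by
    funext p
    show γ p.2 p.1 = γ (γ p.2 s₀) (p.1 - s₀)
    rw [← hadd, sub_add_cancel]
  show ContMDiffAt (𝓘(ℝ, ℝ).prod (𝓡 3)) (𝓡 3) ∞ (fun p : ℝ × M => γ p.2 p.1) (s₀, x₀)
  rw [h1]
  refine ContMDiffAt.comp (I' := 𝓘(ℝ, ℝ).prod (𝓡 3)) (s₀, x₀) ?_ ?_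
  · simp only [sub_self]
    exact hA 0 ⟨neg_lt_zero.2 hε, hε⟩ _
  · refine ContMDiffAt.prodMk ?_ ?_
    · have h4 : ContMDiff 𝓘(ℝ, ℝ) 𝓘(ℝ, ℝ) ∞ (fun r : ℝ => r - s₀) :=
        (contDiff_id.sub contDiff_const).contMDiff
      have h5 : ContMDiffAt (𝓘(ℝ, ℝ).prod (𝓡 3)) 𝓘(ℝ, ℝ) ∞ (fun p : ℝ × M => p.1) (s₀, x₀) :=
        contMDiffAt_fst
      exact (h4.contMDiffAt (x := s₀)).comp (s₀, x₀) h5
    · have h5 : ContMDiffAt (𝓘(ℝ, ℝ).prod (𝓡 3)) (𝓡 3) ∞ (fun p : ℝ × M => p.2) (s₀, x₀) :=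
        contMDiffAt_snd
      exact ((hD s₀).contMDiffAt (x := x₀)).comp (s₀, x₀) h5

end M

end Pool.Agent.SRGap
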