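import Pool.Agent.Work.MP_188050_an.Tube

/-!
# Cell SR, module 14: frames in a chart
-/

open Set MeasureTheory Filter Topology VectorField
open scoped Manifold ContDiff

namespace Pool.Agent.SRGap

section M
variable {M : Type*} [TopologicalSpace M] [ChartedSpace E3 M] [IsManifold (𝓡 3) ∞ M]

omit [IsManifold (𝓡 3) ∞ M] in
/-- the derivative of the inverse chart is invertible, and the derivative of the chart is its inverse -/
theorem exists_deriv_equiv (e : OpenPartialHomeomorph M T3) (he : IsTubeChart e) {p : T3}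
    (hp : p ∈ e.target) : ∃ L : T3 ≃L[ℝ] TangentSpace (𝓡 3) (e.symm p),
      (L : T3 →L[ℝ] TangentSpace (𝓡 3) (e.symm p)) = mfderiv 𝓘(ℝ, T3) (𝓡 3) e.symm p ∧
      (L.symm : TangentSpace (𝓡 3) (e.symm p) →L[ℝ] T3) = mfderiv (𝓡 3) 𝓘(ℝ, T3) e (e.symm p) := by
  have hsrc : e.symm p ∈ e.source := e.map_target hp
  have h1 : MDifferentiableAt 𝓘(ℝ, T3) (𝓡 3) e.symm p :=
    ((he.smooth_symm p hp).contMDiffAt (e.open_target.mem_nhds hp)).mdifferentiableAt (by simp)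
  have h2 : MDifferentiableAt (𝓡 3) 𝓘(ℝ, T3) e (e.symm p) :=
    ((he.smooth _ hsrc).contMDiffAt (e.open_source.mem_nhds hsrc)).mdifferentiableAt (by simp)
  have h3 : (mfderiv (𝓡 3) 𝓘(ℝ, T3) e (e.symm p)).comp (mfderiv 𝓘(ℝ, T3) (𝓡 3) e.symm p) =
      ContinuousLinearMap.id ℝ (TangentSpace 𝓘(ℝ, T3) p) := by
    rw [← mfderiv_comp p h2 h1]
    have : (e ∘ e.symm) =ᶠ[𝓝 p] id := by
      filter_upwards [e.open_target.mem_nhds hp] with q hq
      exact e.right_inv hq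
    rw [this.mfderiv_eq]
    exact mfderiv_id
  have h4 : (mfderiv 𝓘(ℝ, T3) (𝓡 3) e.symm p).comp (mfderiv (𝓡 3) 𝓘(ℝ, T3) e (e.symm p)) =
      ContinuousLinearMap.id ℝ (TangentSpace (𝓡 3) (e.symm p)) := by
    have h5 : e (e.symm p) = p := e.right_inv hp
    have h1' : MDifferentiableAt 𝓘(ℝ, T3) (𝓡 3) e.symm (e (e.symm p)) := by rw [h5]; exact h1
    have h6 := mfderiv_comp (e.symm p) h1' h2
    have : (e.symm ∘ e) =ᶠ[𝓝 (e.symm p)] id := by
      filter_upwards [e.open_source.mem_nhds hsrc] with q hq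
      exact e.left_inv hq
    rw [this.mfderiv_eq] at h6
    rw [h5] at h6
    rw [← h6]
    exact mfderiv_id
  refine ⟨ContinuousLinearEquiv.equivOfInverse (mfderiv 𝓘(ℝ, T3) (𝓡 3) e.symm p)
    (mfderiv (𝓡 3) 𝓘(ℝ, T3) e (e.symm p)) (fun u => ?_) (fun u => ?_), ?_, ?_⟩
  · exact DFunLike.congr_fun h3 u
  · exact DFunLike.congr_fun h4 u
  · rfl
  · rfl

omit [IsManifold (𝓡 3) ∞ M] in
theorem mpullback_apply_equiv (e : OpenPartialHomeomorph M T3) {p : T3}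
    {L : T3 ≃L[ℝ] TangentSpace (𝓡 3) (e.symm p)}
    (hL : (L : T3 →L[ℝ] TangentSpace (𝓡 3) (e.symm p)) = mfderiv 𝓘(ℝ, T3) (𝓡 3) e.symm p)
    (V : (x : M) → TangentSpace (𝓡 3) x) :
    (mpullback 𝓘(ℝ, T3) (𝓡 3) e.symm V p : T3) = L.symm (V (e.symm p)) := by
  have h : (mfderiv 𝓘(ℝ, T3) (𝓡 3) e.symm p).inverse =
      (L.symm : TangentSpace (𝓡 3) (e.symm p) →L[ℝ] T3) := by
    rw [← hL]
    exact ContinuousLinearMap.inverse_equiv L
  exact DFunLike.congr_fun h (V (e.symm p))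

/-- the value at a point where the image of a vector is known -/
theorem mpullback_eq (e : OpenPartialHomeomorph M T3) (he : IsTubeChart e) {p : T3} (hp : p ∈ e.target)
    (V : (x : M) → TangentSpace (𝓡 3) x) (u : T3)
    (h : mfderiv 𝓘(ℝ, T3) (𝓡 3) e.symm p u = V (e.symm p)) :
    (mpullback 𝓘(ℝ, T3) (𝓡 3) e.symm V p : T3) = u := by
  obtain ⟨L, hL, -⟩ := exists_deriv_equiv e he hp
  rw [mpullback_apply_equiv e hL, ← h, ← hL]
  exact L.symm_apply_apply u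

omit [IsManifold (𝓡 3) ∞ M] in
theorem span_symm {x : M} (L : T3 ≃L[ℝ] TangentSpace (𝓡 3) x) {a u v : TangentSpace (𝓡 3) x}
    (h : a ∈ Submodule.span ℝ {u, v}) : L.symm a ∈ Submodule.span ℝ {L.symm u, L.symm v} := by
  rw [Submodule.mem_span_pair] at h ⊢
  obtain ⟨s, t, rfl⟩ := h
  exact ⟨s, t, by rw [map_add, map_smul, map_smul]⟩

theorem mpullback_bracket (e : OpenPartialHomeomorph M T3) (he : IsTubeChart e) {p : T3}
    (hp : p ∈ e.target) {V W : (x : M) → TangentSpace (𝓡 3) x}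
    (hV : ContMDiffAt (𝓡 3) (𝓡 3).tangent ∞ (fun x => (⟨x, V x⟩ : TangentBundle (𝓡 3) M)) (e.symm p))
    (hW : ContMDiffAt (𝓡 3) (𝓡 3).tangent ∞ (fun x => (⟨x, W x⟩ : TangentBundle (𝓡 3) M)) (e.symm p))
    {V' W' : T3 → T3} (hV' : (fun q => (mpullback 𝓘(ℝ, T3) (𝓡 3) e.symm V q : T3)) =ᶠ[𝓝 p] V')
    (hW' : (fun q => (mpullback 𝓘(ℝ, T3) (𝓡 3) e.symm W q : T3)) =ᶠ[𝓝 p] W') :
    (mpullback 𝓘(ℝ, T3) (𝓡 3) e.symm (mlieBracket (𝓡 3) V W) p : T3) = lieBracket ℝ V' W' p := by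
  have hsm : ContMDiffAt 𝓘(ℝ, T3) (𝓡 3) ∞ e.symm p :=
    (he.smooth_symm p hp).contMDiffAt (e.open_target.mem_nhds hp)
  have h3 : IsManifold (𝓡 3) (minSmoothness ℝ 3) M := by
    simp only [minSmoothness_of_isRCLikeNormedField]
    exact IsManifold.of_le (n := ∞) ENat.LEInfty.out
  have h1 := mpullback_mlieBracket (n := ∞) (I := 𝓘(ℝ, T3)) (I' := 𝓡 3) (f := e.symm) (x₀ := p)
    (hV.mdifferentiableAt (by simp)) (hW.mdifferentiableAt (by simp)) hsm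
    (by simp only [minSmoothness_of_isRCLikeNormedField]
        exact ENat.LEInfty.out)
  refine Eq.trans h1 ?_
  have h4 : mlieBracket 𝓘(ℝ, T3) (mpullback 𝓘(ℝ, T3) (𝓡 3) e.symm V)
      (mpullback 𝓘(ℝ, T3) (𝓡 3) e.symm W) p =
      lieBracket ℝ (fun q => (mpullback 𝓘(ℝ, T3) (𝓡 3) e.symm V q : T3))
        (fun q => (mpullback 𝓘(ℝ, T3) (𝓡 3) e.symm W q : T3)) p := by
    rw [← mlieBracketWithin_univ, mlieBracketWithin_eq_lieBracketWithin]
    exact congrFun lieBracketWithin_univ p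
  rw [h4]
  exact hV'.lieBracket_vectorField_eq hW'

theorem frames (S : ContactSR M) (e : OpenPartialHomeomorph M T3) (he : IsTubeChart e)
    (heZ : ∀ p ∈ e.target, mfderiv 𝓘(ℝ, T3) (𝓡 3) e.symm p ((1, 0, 0) : T3) = S.Z (e.symm p))
    {U : Set M} {X Y : (x : M) → TangentSpace (𝓡 3) x} (hXY : IsReebFrame S.Z S.G X Y U) :
    EFrame (cG S e) (fun p => (mpullback 𝓘(ℝ, T3) (𝓡 3) e.symm X p : T3))
      (fun p => (mpullback 𝓘(ℝ, T3) (𝓡 3) e.symm Y p : T3)) (e.target ∩ e.symm ⁻¹' U) := by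
  have hsX : ∀ x ∈ U, ContMDiffAt (𝓡 3) (𝓡 3).tangent ∞
      (fun x => (⟨x, X x⟩ : TangentBundle (𝓡 3) M)) x :=
    fun x hx => (hXY.smooth_X x hx).contMDiffAt (hXY.isOpen.mem_nhds hx)
  have hsY : ∀ x ∈ U, ContMDiffAt (𝓡 3) (𝓡 3).tangent ∞
      (fun x => (⟨x, Y x⟩ : TangentBundle (𝓡 3) M)) x :=
    fun x hx => (hXY.smooth_Y x hx).contMDiffAt (hXY.isOpen.mem_nhds hx)
  have hsZ : ∀ x, ContMDiffAt (𝓡 3) (𝓡 3).tangent ∞
      (fun x => (⟨x, S.Z x⟩ : TangentBundle (𝓡 3) M)) x :=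
    fun x => (S.smooth_Z x (mem_univ x)).contMDiffAt univ_mem
  have hZ : ∀ p ∈ e.target, (fun q => (mpullback 𝓘(ℝ, T3) (𝓡 3) e.symm S.Z q : T3)) =ᶠ[𝓝 p]
      fun _ => ((1, 0, 0) : T3) := by
    intro p hp
    filter_upwards [e.open_target.mem_nhds hp] with q hq
    exact mpullback_eq e he hq _ _ (heZ q hq)
  have hsmooth : ∀ V : (x : M) → TangentSpace (𝓡 3) x, (∀ x ∈ U, ContMDiffAt (𝓡 3) (𝓡 3).tangent ∞
      (fun x => (⟨x, V x⟩ : TangentBundle (𝓡 3) M)) x) →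
      ContDiffOn ℝ ∞ (fun p => (mpullback 𝓘(ℝ, T3) (𝓡 3) e.symm V p : T3))
        (e.target ∩ e.symm ⁻¹' U) := by
    rintro V hV p ⟨hp, hpU⟩
    obtain ⟨L, hL, -⟩ := exists_deriv_equiv e he hp
    have hsm : ContMDiffAt 𝓘(ℝ, T3) (𝓡 3) ∞ e.symm p :=
      (he.smooth_symm p hp).contMDiffAt (e.open_target.mem_nhds hp)
    have h2 : IsManifold (𝓡 3) 1 M := IsManifold.of_le (n := ∞) (by simp)
    have h1 := ContMDiffAt.mpullback_vectorField_preimage (I := 𝓘(ℝ, T3)) (I' := 𝓡 3) (m := ∞)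
      (n := ∞) (hV (e.symm p) hpU) hsm ⟨L, hL⟩ (by simp)
    exact (contMDiffAt_vectorSpace_iff_contDiffAt.1 h1).contDiffWithinAt
  refine ⟨?_, hsmooth X hsX, hsmooth Y hsY, ?_, ?_, ?_, ?_, ?_⟩
  · exact e.symm.isOpen_inter_preimage hXY.isOpen
  · rintro p ⟨hp, hpU⟩
    obtain ⟨L, hL, -⟩ := exists_deriv_equiv e he hp
    have h1 := hXY.indep (e.symm p) hpU
    have h2 := h1.map' (L.symm : TangentSpace (𝓡 3) (e.symm p) →ₗ[ℝ] T3)
      (LinearMap.ker_eq_bot.2 L.symm.injective)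
    have h3 : ![((1, 0, 0) : T3), (mpullback 𝓘(ℝ, T3) (𝓡 3) e.symm X p : T3),
        (mpullback 𝓘(ℝ, T3) (𝓡 3) e.symm Y p : T3)] =
        (L.symm : TangentSpace (𝓡 3) (e.symm p) →ₗ[ℝ] T3) ∘
          ![S.Z (e.symm p), X (e.symm p), Y (e.symm p)] := by
      funext i
      fin_cases i
      · change ((1, 0, 0) : T3) = L.symm (S.Z (e.symm p))
        rw [← mpullback_apply_equiv e hL, mpullback_eq e he hp _ _ (heZ p hp)]
      · exact mpullback_apply_equiv e hL _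
      · exact mpullback_apply_equiv e hL _
    rw [h3]
    exact h2
  · rintro p ⟨hp, hpU⟩ ξ η
    obtain ⟨L, hL, hL'⟩ := exists_deriv_equiv e he hp
    unfold cG
    rw [hXY.cometric (e.symm p) hpU, ← hL', mpullback_apply_equiv e hL, mpullback_apply_equiv e hL]
    rfl
  · rintro p ⟨hp, hpU⟩
    obtain ⟨L, hL, hL'⟩ := exists_deriv_equiv e he hp
    rw [← mpullback_bracket e he hp (hsX _ hpU) (hsY _ hpU) EventuallyEq.rfl EventuallyEq.rfl,
      ← mpullback_eq e he hp _ _ (heZ p hp), mpullback_apply_equiv e hL, mpullback_apply_equiv e hL,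
      mpullback_apply_equiv e hL, mpullback_apply_equiv e hL, ← map_add]
    exact span_symm L (hXY.bracket (e.symm p) hpU)
  · rintro p ⟨hp, hpU⟩
    obtain ⟨L, hL, hL'⟩ := exists_deriv_equiv e he hp
    rw [← mpullback_bracket e he hp (hsZ _) (hsX _ hpU) (hZ p hp) EventuallyEq.rfl,
      mpullback_apply_equiv e hL, mpullback_apply_equiv e hL, mpullback_apply_equiv e hL]
    exact span_symm L (hXY.bracket_X (e.symm p) hpU)
  · rintro p ⟨hp, hpU⟩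
    obtain ⟨L, hL, hL'⟩ := exists_deriv_equiv e he hp
    rw [← mpullback_bracket e he hp (hsZ _) (hsY _ hpU) (hZ p hp) EventuallyEq.rfl,
      mpullback_apply_equiv e hL, mpullback_apply_equiv e hL, mpullback_apply_equiv e hL]
    exact span_symm L (hXY.bracket_Y (e.symm p) hpU)

end M

end Pool.Agent.SRGap
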