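import Pool.Agent.Work.MP_188050_an.Green
import Pool.Agent.Work.MP_188050_an.Dens
import Pool.Agent.Work.MP_188050_an.Energy

/-!
# The tube Laplacian is the Laplacian of `M`
-/

open Set MeasureTheory Filter Topology VectorField
open scoped Manifold ContDiff InnerProductSpace

set_option linter.unusedSectionVars false

namespace Pool.Agent.SRGap

theorem tr_dir_eq_zero {V : T3 → T3} {v : T3 → ℝ} {p : T3} (hp : p ∉ tsupport v) : dir V v p = 0 := by
  have h : v =ᶠ[𝓝 p] 0 := notMem_tsupport_iff_eventuallyEq.1 hp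
  unfold dir
  rw [h.fderiv_eq]
  simp

theorem tr_dir_congr {V : T3 → T3} {v w : T3 → ℝ} {p : T3} (h : v =ᶠ[𝓝 p] w) :
    dir V v p = dir V w p := by
  unfold dir
  rw [h.fderiv_eq]

theorem tr_setInt_eq {U : Set T3} (hU : IsOpen U) {F G : T3 → ℝ} (h1 : ∀ p ∈ U, F p = G p)
    (h2 : ∀ p, p ∉ U → G p = 0) : ∫ p in U, F p = ∫ p, G p := by
  rw [setIntegral_congr_fun hU.measurableSet h1]
  exact setIntegral_eq_integral_of_forall_compl_eq_zero h2

/-- cutoff -/
theorem tr_exists_cutoff {K U : Set T3} (hK : IsCompact K) (hU : IsOpen U) (hKU : K ⊆ U) :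
    ∃ χ : T3 → ℝ, ContDiff ℝ ∞ χ ∧ (∀ p ∈ K, χ =ᶠ[𝓝 p] fun _ => 1) ∧ tsupport χ ⊆ U := by
  obtain ⟨L, hL, hKL, hLU⟩ := exists_compact_between hK hU hKU
  obtain ⟨χ, h1, h2, -⟩ := exists_contMDiffMap_one_nhds_of_subset_interior (M := T3)
    𝓘(ℝ, T3) (n := (⊤ : ℕ∞)) hK.isClosed hKL
  refine ⟨χ, χ.contMDiff.contDiff, fun p hp => ?_, ?_⟩
  · exact (eventually_nhdsSet_iff_forall.1 h1) p hp
  · refine (closure_minimal ?_ hL.isClosed).trans hLU
    intro x hx
    by_contra hxL
    exact hx (h2 x hxL)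

section M
variable {M : Type*} [TopologicalSpace M] [ChartedSpace E3 M] [IsManifold (𝓡 3) ∞ M]

theorem tr_G_zero_left (S : ContactSR M) (x : M) (η : TangentSpace (𝓡 3) x →L[ℝ] ℝ) :
    S.G x 0 η = 0 := by
  obtain ⟨U, hxU, X, Y, h⟩ := S.frame x
  rw [h.cometric x hxU]
  simp

theorem tr_dd_eventually {f g : M → ℝ} {x : M} (h : f =ᶠ[𝓝 x] g) : dd f x = dd g x :=
  h.mfderiv_eq

theorem tr_dd_zero {f : M → ℝ} {x : M} (h : f =ᶠ[𝓝 x] fun _ => 0) : dd f x = 0 := by
  rw [tr_dd_eventually h]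
  exact mfderiv_const

theorem tr_ext0_apply (e : OpenPartialHomeomorph M T3) (v : T3 → ℝ) {x : M} (hx : x ∈ e.source) :
    ext0 e v x = v (e x) := by
  unfold ext0
  rw [if_pos hx]

theorem tr_ext0_notMem (e : OpenPartialHomeomorph M T3) (v : T3 → ℝ) {x : M} (hx : x ∉ e.source) :
    ext0 e v x = 0 := by
  unfold ext0
  rw [if_neg hx]

theorem tr_ext0_eq_zero (e : OpenPartialHomeomorph M T3) {v : T3 → ℝ} {U : Set T3}
    (hvU : tsupport v ⊆ U) {x : M} (hx : ¬ (x ∈ e.source ∧ e x ∈ U)) : ext0 e v x = 0 := by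
  by_cases h : x ∈ e.source
  · rw [tr_ext0_apply e v h]
    exact image_eq_zero_of_notMem_tsupport fun h1 => hx ⟨h, hvU h1⟩
  · exact tr_ext0_notMem e v h

theorem tr_ext0_eventually_zero [T2Space M] (e : OpenPartialHomeomorph M T3) {v : T3 → ℝ}
    (hvc : HasCompactSupport v) {U : Set T3} (hvU : tsupport v ⊆ U) (hUe : U ⊆ e.target) {x : M}
    (hx : ¬ (x ∈ e.source ∧ e x ∈ U)) : ext0 e v =ᶠ[𝓝 x] fun _ => 0 := by
  have hcomp : IsCompact (e.symm '' tsupport v) :=
    hvc.isCompact.image_of_continuousOn (e.continuousOn_symm.mono (hvU.trans hUe))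
  have hxn : x ∉ e.symm '' tsupport v := by
    rintro ⟨p, hp, rfl⟩
    refine hx ⟨e.map_target (hUe (hvU hp)), ?_⟩
    rw [e.right_inv (hUe (hvU hp))]
    exact hvU hp
  filter_upwards [hcomp.isClosed.isOpen_compl.mem_nhds hxn] with y hy
  by_cases h : y ∈ e.source
  · rw [tr_ext0_apply e v h]
    refine image_eq_zero_of_notMem_tsupport fun h1 => hy ⟨e y, h1, e.left_inv h⟩
  · exact tr_ext0_notMem e v h

theorem tr_mdiffAt (e : OpenPartialHomeomorph M T3) (he : IsTubeChart e) {x : M} (hx : x ∈ e.source) :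
    MDifferentiableAt (𝓡 3) 𝓘(ℝ, T3) e x :=
  (he.smooth.contMDiffAt (e.open_source.mem_nhds hx)).mdifferentiableAt (by simp)

theorem tr_dd_comp (e : OpenPartialHomeomorph M T3) (he : IsTubeChart e) {f : M → ℝ} {g : T3 → ℝ}
    {p : T3} (hp : p ∈ e.target) (hg : DifferentiableAt ℝ g p)
    (hfg : f =ᶠ[𝓝 (e.symm p)] g ∘ e) :
    dd f (e.symm p) = (fderiv ℝ g p) ∘L
      (mfderiv (𝓡 3) 𝓘(ℝ, T3) e (e.symm p) : TangentSpace (𝓡 3) (e.symm p) →L[ℝ] T3) := by
  have hr : e (e.symm p) = p := e.right_inv hp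
  have hg' : MDifferentiableAt 𝓘(ℝ, T3) 𝓘(ℝ, ℝ) g (e (e.symm p)) := by
    rw [hr]
    exact hg.mdifferentiableAt
  have h1 := mfderiv_comp (e.symm p) hg' (tr_mdiffAt e he (e.map_target hp))
  rw [tr_dd_eventually hfg]
  unfold dd
  rw [h1]
  have h2 : mfderiv 𝓘(ℝ, T3) 𝓘(ℝ, ℝ) g (e (e.symm p)) = fderiv ℝ g p := by
    rw [mfderiv_eq_fderiv, hr]
  rw [h2]
  rfl

/-- a continuous function on `M` is square integrable -/
theorem tr_memLp_of_continuous [CompactSpace M] [MeasurableSpace M] [BorelSpace M] (μ : Measure M)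
    [IsFiniteMeasure μ] {f : M → ℝ} (hf : Continuous f) : MemLp f 2 μ := by
  obtain ⟨C, hC⟩ := isCompact_univ.exists_bound_of_continuousOn hf.continuousOn
  exact MemLp.of_bound hf.aestronglyMeasurable C (ae_of_all _ fun x => hC x (mem_univ x))

theorem tr_norm_toLp_sq [MeasurableSpace M] {μ : Measure M} {f : M → ℝ} (hf : MemLp f 2 μ) :
    ‖hf.toLp f‖ ^ 2 = ∫ x, f x ^ 2 ∂μ := by
  rw [← real_inner_self_eq_norm_sq, L2.inner_def]
  refine integral_congr_ae ?_
  filter_upwards [hf.coeFn_toLp] with x hx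
  rw [hx, real_inner_self_eq_norm_sq, Real.norm_eq_abs, sq_abs]

theorem tube_mem [T2Space M] [CompactSpace M] [MeasurableSpace M] [BorelSpace M] (S : ContactSR M)
    (μ : Measure M) [IsFiniteMeasure μ] (e : OpenPartialHomeomorph M T3) (he : IsTubeChart e)
    (τ : Tube) {U : Set T3} (hU : IsOpen U) (hUe : U ⊆ e.target)
    (hG : ∀ p ∈ U, ∀ ξ η : T3 →L[ℝ] ℝ,
      cG S e p ξ η = ξ (τ.X p) * η (τ.X p) + ξ (τ.Y p) * η (τ.Y p))
    (hρ : ∀ g : M → ℝ, Continuous g → (∀ x, ¬ (x ∈ e.source ∧ e x ∈ U) → g x = 0) →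
      ∫ x, g x ∂μ = ∫ p in U, g (e.symm p) * τ.ρ p)
    {v : T3 → ℝ} (hv : ContDiff ℝ ∞ v) (hvc : HasCompactSupport v) (hvU : tsupport v ⊆ U) (t : ℝ) :
    ∃ q ∈ friedrichs S μ, ‖q.1‖ ^ 2 = ∫ p, v p ^ 2 * τ.ρ p ∧
      ‖q.2 - t • q.1‖ ^ 2 = ∫ p, (τ.L v p - t * v p) ^ 2 * τ.ρ p := by
  classical
  have hLv : ContDiff ℝ ∞ (τ.L v) := L_contDiff τ hv
  have hLs : tsupport (τ.L v) ⊆ tsupport v := L_tsupport τ v
  have hLc : HasCompactSupport (τ.L v) :=
    hvc.isCompact.of_isClosed_subset (isClosed_tsupport _) hLs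
  have hf : SmoothFun (ext0 e v) := ext0_smooth e he hv hvc (hvU.trans hUe)
  have hh : SmoothFun (ext0 e (τ.L v)) := ext0_smooth e he hLv hLc ((hLs.trans hvU).trans hUe)
  have hfc : Continuous (ext0 e v) := hf.continuous
  have hhc : Continuous (ext0 e (τ.L v)) := hh.continuous
  have hfm : MemLp (ext0 e v) 2 μ := tr_memLp_of_continuous μ hfc
  have hhm : MemLp (ext0 e (τ.L v)) 2 μ := tr_memLp_of_continuous μ hhc
  have hsrc : ∀ p ∈ U, e.symm p ∈ e.source := fun p hp => e.map_target (hUe hp)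
  have hf0 : ∀ x, ¬ (x ∈ e.source ∧ e x ∈ U) → ext0 e v x = 0 := fun x hx => tr_ext0_eq_zero e hvU hx
  have hh0 : ∀ x, ¬ (x ∈ e.source ∧ e x ∈ U) → ext0 e (τ.L v) x = 0 := fun x hx =>
    tr_ext0_eq_zero e (hLs.trans hvU) hx
  have hfv : ∀ p ∈ U, ext0 e v (e.symm p) = v p := fun p hp => by
    rw [tr_ext0_apply e v (hsrc p hp), e.right_inv (hUe hp)]
  have hhv : ∀ p ∈ U, ext0 e (τ.L v) (e.symm p) = τ.L v p := fun p hp => by
    rw [tr_ext0_apply e _ (hsrc p hp), e.right_inv (hUe hp)]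
  have hvz : ∀ p, p ∉ U → v p = 0 := fun p hp =>
    image_eq_zero_of_notMem_tsupport fun h => hp (hvU h)
  have hLz : ∀ p, p ∉ U → τ.L v p = 0 := fun p hp =>
    image_eq_zero_of_notMem_tsupport fun h => hp (hvU (hLs h))
  refine ⟨(hfm.toLp _, hhm.toLp _), ⟨fun _ => ext0 e v, fun _ => hf, ?_, ?_, ?_⟩, ?_, ?_⟩
  · have h0 : eLpNorm (fun x => ext0 e v x - (hfm.toLp (ext0 e v)) x) 2 μ = 0 := by
      have h1 : (fun x => ext0 e v x - (hfm.toLp (ext0 e v)) x) =ᵐ[μ] 0 := by
        filter_upwards [hfm.coeFn_toLp] with x hx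
        simp [hx]
      rw [eLpNorm_congr_ae h1, eLpNorm_zero]
    show Tendsto (fun _ : ℕ => eLpNorm (fun x => ext0 e v x - (hfm.toLp (ext0 e v)) x) 2 μ) atTop
      (𝓝 0)
    rw [h0]
    exact tendsto_const_nhds
  · have h0 : energy S μ (ext0 e v - ext0 e v) (ext0 e v - ext0 e v) = 0 := by
      unfold energy
      have : ∀ x, S.G x (dd (ext0 e v - ext0 e v) x) (dd (ext0 e v - ext0 e v) x) = 0 := by
        intro x
        have h1 : dd (ext0 e v - ext0 e v) x = 0 :=
          tr_dd_zero (Eventually.of_forall fun y => by simp)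
        rw [h1]
        exact tr_G_zero_left S x _
      simp only [this, integral_zero]
    show Tendsto (fun _ : ℕ × ℕ => energy S μ (ext0 e v - ext0 e v) (ext0 e v - ext0 e v)) atTop
      (𝓝 0)
    rw [h0]
    exact tendsto_const_nhds
  · intro φ hφ
    have hφc : Continuous φ := hφ.continuous
    suffices h : energy S μ (ext0 e v) φ = ∫ x, (hhm.toLp (ext0 e (τ.L v))) x * φ x ∂μ by
      show Tendsto (fun _ : ℕ => energy S μ (ext0 e v) φ) atTop
        (𝓝 (∫ x, (hhm.toLp (ext0 e (τ.L v))) x * φ x ∂μ))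
      rw [h]
      exact tendsto_const_nhds
    -- the right side
    have hR : ∫ x, (hhm.toLp (ext0 e (τ.L v))) x * φ x ∂μ = ∫ x, ext0 e (τ.L v) x * φ x ∂μ := by
      refine integral_congr_ae ?_
      filter_upwards [hhm.coeFn_toLp] with x hx
      rw [hx]
    -- cutoff
    obtain ⟨χ, hχ, hχ1, hχU⟩ := tr_exists_cutoff hvc.isCompact hU hvU
    have hφe : ContDiffOn ℝ ∞ (φ ∘ e.symm) e.target := by
      rw [← contMDiffOn_iff_contDiffOn]
      exact hφ.comp_contMDiffOn he.smooth_symm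
    have hψ : ContDiff ℝ ∞ (fun p => χ p * φ (e.symm p)) := by
      rw [contDiff_iff_contDiffAt]
      intro p
      by_cases hp : p ∈ e.target
      · exact hχ.contDiffAt.mul (hφe.contDiffAt (e.open_target.mem_nhds hp))
      · have h1 : χ =ᶠ[𝓝 p] 0 :=
          notMem_tsupport_iff_eventuallyEq.1 fun h => hp (hUe (hχU h))
        have h2 : (fun p => χ p * φ (e.symm p)) =ᶠ[𝓝 p] fun _ => 0 := by
          filter_upwards [h1] with y hy
          simp [hy]
        exact contDiffAt_const.congr_of_eventuallyEq h2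
    have hψe : ∀ p ∈ tsupport v, (fun p => χ p * φ (e.symm p)) =ᶠ[𝓝 p] φ ∘ e.symm := by
      intro p hp
      filter_upwards [hχ1 p hp] with y hy
      simp [hy]
    have hhφ : Continuous (fun x => ext0 e (τ.L v) x * φ x) := hhc.mul hφc
    rw [hR, energy, hρ _ (continuous_G S hf hφ), hρ _ hhφ]
    · have hgreen := green τ hv hvc hψ
      have hL' : ∫ p in U, S.G (e.symm p) (dd (ext0 e v) (e.symm p)) (dd φ (e.symm p)) * τ.ρ p =
          ∫ p, (dir τ.X v p * dir τ.X (fun p => χ p * φ (e.symm p)) p +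
            dir τ.Y v p * dir τ.Y (fun p => χ p * φ (e.symm p)) p) * τ.ρ p := by
        refine tr_setInt_eq hU (fun p hp => ?_) (fun p hp => ?_)
        · have h1 : dd (ext0 e v) (e.symm p) = (fderiv ℝ v p) ∘L
              (mfderiv (𝓡 3) 𝓘(ℝ, T3) e (e.symm p) : TangentSpace (𝓡 3) (e.symm p) →L[ℝ] T3) := by
            refine tr_dd_comp e he (hUe hp) (hv.differentiable (by simp) p) ?_
            filter_upwards [e.open_source.mem_nhds (hsrc p hp)] with y hy
            rw [tr_ext0_apply e v hy, Function.comp_apply]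
          have h2 : dd φ (e.symm p) = (fderiv ℝ (φ ∘ e.symm) p) ∘L
              (mfderiv (𝓡 3) 𝓘(ℝ, T3) e (e.symm p) : TangentSpace (𝓡 3) (e.symm p) →L[ℝ] T3) := by
            refine tr_dd_comp e he (hUe hp) ?_ ?_
            · exact (hφe.contDiffAt (e.open_target.mem_nhds (hUe hp))).differentiableAt (by simp)
            · filter_upwards [e.open_source.mem_nhds (hsrc p hp)] with y hy
              simp [e.left_inv hy]
          have h3 := hG p hp (fderiv ℝ v p) (fderiv ℝ (φ ∘ e.symm) p)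
          unfold cG at h3
          simp only [h1, h2]
          rw [h3]
          by_cases hps : p ∈ tsupport v
          · have h4 : ∀ V : T3 → T3, fderiv ℝ (φ ∘ e.symm) p (V p) =
                dir V (fun p => χ p * φ (e.symm p)) p := by
              intro V
              unfold dir
              rw [(hψe p hps).fderiv_eq]
            rw [h4, h4]
            rfl
          · have h5 : fderiv ℝ v p = 0 := by
              have h6 : v =ᶠ[𝓝 p] 0 := notMem_tsupport_iff_eventuallyEq.1 hps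
              rw [h6.fderiv_eq]
              simp
            rw [tr_dir_eq_zero hps, tr_dir_eq_zero hps, h5]
            simp
        · have hps : p ∉ tsupport v := fun h => hp (hvU h)
          rw [tr_dir_eq_zero hps, tr_dir_eq_zero hps]
          simp
      have hR' : ∫ p in U, ext0 e (τ.L v) (e.symm p) * φ (e.symm p) * τ.ρ p =
          ∫ p, τ.L v p * (χ p * φ (e.symm p)) * τ.ρ p := by
        refine tr_setInt_eq hU (fun p hp => ?_) (fun p hp => ?_)
        · simp only [hhv p hp]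
          by_cases hps : p ∈ tsupport v
          · have := (hψe p hps).self_of_nhds
            simp only [Function.comp_apply] at this
            rw [this]
          · rw [image_eq_zero_of_notMem_tsupport fun h => hps (hLs h)]
            simp
        · rw [hLz p hp]
          simp
      rw [hL', hgreen, hR']
    · intro x hx
      rw [hh0 x hx, zero_mul]
    · intro x hx
      rw [tr_dd_zero (tr_ext0_eventually_zero e hvc hvU hUe hx)]
      exact tr_G_zero_left S x _
  · show ‖hfm.toLp (ext0 e v)‖ ^ 2 = _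
    have hgc : Continuous (fun x => ext0 e v x ^ 2) := hfc.pow 2
    rw [tr_norm_toLp_sq, hρ _ hgc]
    · refine tr_setInt_eq hU (fun p hp => ?_) (fun p hp => ?_)
      · simp only [hfv p hp]
      · rw [hvz p hp]
        simp
    · intro x hx
      rw [hf0 x hx]
      simp
  · show ‖hhm.toLp (ext0 e (τ.L v)) - t • hfm.toLp (ext0 e v)‖ ^ 2 = _
    rw [← MemLp.toLp_const_smul, ← MemLp.toLp_sub, tr_norm_toLp_sq]
    have hgc : Continuous (fun x => (ext0 e (τ.L v) - t • ext0 e v) x ^ 2) :=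
      (hhc.sub (hfc.const_smul t)).pow 2
    rw [hρ _ hgc]
    · refine tr_setInt_eq hU (fun p hp => ?_) (fun p hp => ?_)
      · simp only [Pi.sub_apply, Pi.smul_apply, smul_eq_mul, hfv p hp, hhv p hp]
      · rw [hvz p hp, hLz p hp]
        simp
    · intro x hx
      simp [hf0 x hx, hh0 x hx]

end M

end Pool.Agent.SRGap
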