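import Pool.Agent.Work.MP_188050_an.TubeDataA

/-!
# Module 15: from local Reeb frames to tube data
-/

open Set MeasureTheory Filter Topology VectorField
open scoped Manifold ContDiff

namespace Pool.Agent.SRGap

/-- A smooth function on an open set, multiplied by a cutoff which vanishes near the complement. -/
theorem contDiff_cutoff_mul {E : Type*} [NormedAddCommGroup E] [NormedSpace ℝ E] {O : Set E}
    {χ f : E → ℝ} (hχ : ContDiff ℝ ∞ χ) (h0 : ∀ᶠ x in 𝓝ˢ Oᶜ, χ x = 0)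
    (hf : ∀ x ∈ O, ContDiffAt ℝ ∞ f x) : ContDiff ℝ ∞ (fun x => χ x * f x) := by
  rw [contDiff_iff_contDiffAt]
  intro x
  by_cases hx : x ∈ O
  · exact hχ.contDiffAt.mul (hf x hx)
  · have h1 : ∀ᶠ y in 𝓝 x, χ y = 0 := (eventually_nhdsSet_iff_forall.1 h0) x hx
    refine (contDiffAt_const (c := (0 : ℝ))).congr_of_eventuallyEq ?_
    filter_upwards [h1] with y hy
    rw [hy, zero_mul]

/-- cutoffs. -/
theorem exists_cutoff {E : Type*} [NormedAddCommGroup E] [NormedSpace ℝ E] [FiniteDimensional ℝ E]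
    {O K : Set E} (hO : IsOpen O) (hK : IsClosed K) (hKO : K ⊆ O) :
    ∃ χ : E → ℝ, ContDiff ℝ ∞ χ ∧ (∀ᶠ x in 𝓝ˢ Oᶜ, χ x = 0) ∧ (∀ x ∈ K, χ x = 1) ∧
      (∀ x, 0 ≤ χ x) ∧ ∀ x, χ x ≤ 1 := by
  obtain ⟨f, h0, h1, h2⟩ := exists_contMDiffMap_zero_one_nhds_of_isClosed (n := ⊤) 𝓘(ℝ, E)
    hO.isClosed_compl hK (disjoint_left.2 fun x hx hxK => hx (hKO hxK))
  refine ⟨f, f.contMDiff.contDiff, h0, fun x hx => h1.self_of_nhdsSet x hx, fun x => (h2 x).1,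
    fun x => (h2 x).2⟩

/-- the box inside an open set around the segment. -/
theorem exists_box_nhds {O : Set T3} (hO : IsOpen O) {ℓ : ℝ} (hℓ : 0 < ℓ)
    (hseg : ∀ s ∈ Icc 0 ℓ, ((s, 0, 0) : T3) ∈ O) :
    ∃ δ : ℝ, 0 < δ ∧ Ioo (-δ) (ℓ + δ) ×ˢ Metric.ball (0 : ℝ × ℝ) δ ⊆ O := by
  obtain ⟨u, v, hu, hv, hsu, htv, huv⟩ := generalized_tube_lemma (isCompact_Icc (a := (0 : ℝ))
    (b := ℓ)) (isCompact_singleton (x := (0 : ℝ × ℝ))) hO (by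
      rintro ⟨s, z⟩ ⟨hs, hz⟩
      have hz' : z = 0 := hz
      subst hz'
      exact hseg s hs)
  obtain ⟨δ₁, hδ₁, h1⟩ := (isCompact_Icc (a := (0 : ℝ)) (b := ℓ)).exists_thickening_subset_open hu hsu
  obtain ⟨δ₂, hδ₂, h2⟩ := Metric.isOpen_iff.1 hv 0 (htv rfl)
  refine ⟨min δ₁ δ₂, lt_min hδ₁ hδ₂, ?_⟩
  rintro ⟨s, z⟩ ⟨hs, hz⟩
  apply huv
  refine ⟨h1 ?_, h2 (Metric.ball_subset_ball (min_le_right _ _) hz)⟩
  rw [Metric.mem_thickening_iff]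
  have hs1 : -min δ₁ δ₂ < s := hs.1
  have hs2 : s < ℓ + min δ₁ δ₂ := hs.2
  have hm := min_le_left δ₁ δ₂
  rcases le_total 0 s with h3 | h3
  · rcases le_total s ℓ with h4 | h4
    · exact ⟨s, ⟨h3, h4⟩, by simpa using hδ₁⟩
    · refine ⟨ℓ, ⟨hℓ.le, le_rfl⟩, ?_⟩
      show dist s ℓ < δ₁
      rw [Real.dist_eq, abs_lt]
      constructor <;> linarith
  · refine ⟨0, ⟨le_rfl, hℓ.le⟩, ?_⟩
    show dist s 0 < δ₁
    rw [Real.dist_eq, abs_lt]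
    constructor <;> linarith

/-- the transverse derivative of a function on the tube. -/
theorem fderiv_slice {g : T3 → ℝ} {s : ℝ} {z : ℝ × ℝ} (hg : ContDiffAt ℝ ∞ g (s, z)) (v : ℝ × ℝ) :
    fderiv ℝ (fun z' : ℝ × ℝ => g (s, z')) z v = fderiv ℝ g (s, z) (0, v) := by
  have h1 : HasFDerivAt g (fderiv ℝ g (s, z)) (s, z) :=
    (hg.differentiableAt (by simp)).hasFDerivAt
  have h2 : HasFDerivAt (fun z' : ℝ × ℝ => ((s, z') : ℝ × (ℝ × ℝ)))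
      (ContinuousLinearMap.inr ℝ ℝ (ℝ × ℝ)) z := hasFDerivAt_prodMk_right s z
  have h3 := HasFDerivAt.comp z h1 h2
  have h4 : fderiv ℝ (fun z' : ℝ × ℝ => g (s, z')) z = _ := h3.fderiv
  rw [h4]
  rfl

/-- the longitudinal derivative of a function on the tube. -/
theorem hasDerivAt_slice {g : T3 → ℝ} {s : ℝ} {z : ℝ × ℝ} (hg : ContDiffAt ℝ ∞ g (s, z)) :
    HasDerivAt (fun s' : ℝ => g (s', z)) (fderiv ℝ g (s, z) (1, 0)) s := by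
  have h1 : HasFDerivAt g (fderiv ℝ g (s, z)) (s, z) :=
    (hg.differentiableAt (by simp)).hasFDerivAt
  have h2 : HasFDerivAt (fun s' : ℝ => ((s', z) : ℝ × (ℝ × ℝ)))
      (ContinuousLinearMap.inl ℝ ℝ (ℝ × ℝ)) s := hasFDerivAt_prodMk_left s z
  have h3 := (HasFDerivAt.comp s h1 h2).hasDerivAt
  exact h3

theorem exists_tube {O : Set T3} (hO : IsOpen O) (Gc : T3 → (T3 →L[ℝ] ℝ) → (T3 →L[ℝ] ℝ) → ℝ)
    (hfr : ∀ p₀ ∈ O, ∃ U X Y, p₀ ∈ U ∧ U ⊆ O ∧ EFrame Gc X Y U) {ℓ : ℝ} (hℓ : 0 < ℓ)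
    (hseg : ∀ s ∈ Icc 0 ℓ, ((s, 0, 0) : T3) ∈ O)
    (h0 : ∃ U X Y, ((0, 0, 0) : T3) ∈ U ∧ U ⊆ O ∧ EFrame Gc X Y U ∧ X (0, 0, 0) = (0, 1, 0) ∧
      Y (0, 0, 0) = (0, 0, 1))
    {ρ₀ : T3 → ℝ} (hρ : ContDiffOn ℝ ∞ ρ₀ O) (hρpos : ∀ p ∈ O, 0 < ρ₀ p) :
    ∃ (τ : Tube) (U : Set T3), IsOpen U ∧ U ⊆ O ∧ (∀ s ∈ Icc 0 ℓ, ((s, 0, 0) : T3) ∈ U) ∧ τ.Good U ∧
      (∀ p ∈ U, τ.ρ p = ρ₀ p) ∧
      ∀ p ∈ U, ∀ ξ η : T3 →L[ℝ] ℝ, Gc p ξ η = ξ (τ.X p) * η (τ.X p) + ξ (τ.Y p) * η (τ.Y p) := by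
  -- pointwise facts on `O`
  have hP : ∀ p ∈ O, 0 < gP Gc p := fun p hp => by
    obtain ⟨U, X, Y, hpU, -, hF⟩ := hfr p hp
    exact hF.gP_pos hpU
  have hD : ∀ p ∈ O, 0 < gD Gc p := fun p hp => by
    obtain ⟨U, X, Y, hpU, -, hF⟩ := hfr p hp
    exact hF.gD_pos hpU
  have sP : ∀ p ∈ O, ContDiffAt ℝ ∞ (gP Gc) p := fun p hp => by
    obtain ⟨U, X, Y, hpU, -, hF⟩ := hfr p hp
    exact hF.contDiffAt_gP hpU
  have sQ : ∀ p ∈ O, ContDiffAt ℝ ∞ (gQ Gc) p := fun p hp => by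
    obtain ⟨U, X, Y, hpU, -, hF⟩ := hfr p hp
    exact hF.contDiffAt_gQ hpU
  have sD : ∀ p ∈ O, ContDiffAt ℝ ∞ (gD Gc) p := fun p hp => by
    obtain ⟨U, X, Y, hpU, -, hF⟩ := hfr p hp
    exact hF.contDiffAt_gD hpU
  have s1 : ∀ p ∈ O, ContDiffAt ℝ ∞ (g1 Gc) p := fun p hp => by
    obtain ⟨U, X, Y, hpU, -, hF⟩ := hfr p hp
    exact hF.contDiffAt_g1 hpU
  have s2 : ∀ p ∈ O, ContDiffAt ℝ ∞ (g2 Gc) p := fun p hp => by
    obtain ⟨U, X, Y, hpU, -, hF⟩ := hfr p hp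
    exact hF.contDiffAt_g2 hpU
  have d1 : ∀ p ∈ O, fderiv ℝ (g1 Gc) p (1, 0, 0) = 0 := fun p hp => by
    obtain ⟨U, X, Y, hpU, -, hF⟩ := hfr p hp
    exact (hF.fderiv_g_s hpU).1
  have d2 : ∀ p ∈ O, fderiv ℝ (g2 Gc) p (1, 0, 0) = 0 := fun p hp => by
    obtain ⟨U, X, Y, hpU, -, hF⟩ := hfr p hp
    exact (hF.fderiv_g_s hpU).2
  have hdet : ∀ p ∈ O, ∃ t : ℝ, t ^ 2 = gD Gc p ∧
      t * (fderiv ℝ (g1 Gc) p (0, 0, 1) - fderiv ℝ (g2 Gc) p (0, 1, 0)) = 1 := fun p hp => by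
    obtain ⟨U, X, Y, hpU, -, hF⟩ := hfr p hp
    exact ⟨EFrame.fdet X Y p, (hF.gD_eq hpU).symm, hF.det_curl hpU⟩
  have hcom : ∀ p ∈ O, ∀ ξ η : T3 →L[ℝ] ℝ, Gc p ξ η =
      gP Gc p * ((ξ (0, 1, 0) + g1 Gc p * ξ (1, 0, 0)) * (η (0, 1, 0) + g1 Gc p * η (1, 0, 0))) +
      gQ Gc p * ((ξ (0, 1, 0) + g1 Gc p * ξ (1, 0, 0)) * (η (0, 0, 1) + g2 Gc p * η (1, 0, 0)) +
        (ξ (0, 0, 1) + g2 Gc p * ξ (1, 0, 0)) * (η (0, 1, 0) + g1 Gc p * η (1, 0, 0))) +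
      gR Gc p * ((ξ (0, 0, 1) + g2 Gc p * ξ (1, 0, 0)) * (η (0, 0, 1) + g2 Gc p * η (1, 0, 0))) :=
    fun p hp ξ η => by
      obtain ⟨U, X, Y, hpU, -, hF⟩ := hfr p hp
      exact hF.cometric_eq hpU ξ η
  -- the origin
  have hO0 : ((0, 0, 0) : T3) ∈ O := hseg 0 ⟨le_rfl, hℓ.le⟩
  obtain ⟨g10, g20, hcurl0⟩ : g1 Gc (0, 0, 0) = 0 ∧ g2 Gc (0, 0, 0) = 0 ∧
      fderiv ℝ (g1 Gc) (0, 0, 0) (0, 0, 1) - fderiv ℝ (g2 Gc) (0, 0, 0) (0, 1, 0) = 1 := by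
    obtain ⟨U, X, Y, hU, -, hF, hX, hY⟩ := h0
    have e1 := hF.X_eq hU
    have e2 := hF.Y_eq hU
    have e3 := hF.det_curl hU
    rw [EFrame.fdet] at e3
    rw [hX] at e1 e3
    rw [hY] at e2 e3
    simp only [mul_one, mul_zero, add_zero, zero_add, sub_zero, one_mul] at e1 e2 e3
    exact ⟨e1.symm, e2.symm, e3⟩
  -- the box
  obtain ⟨δ, hδ, hbox⟩ := exists_box_nhds hO hℓ hseg
  have hsl : ∀ s ∈ Ioo (-δ) (ℓ + δ), ∀ z ∈ Metric.ball (0 : ℝ × ℝ) δ, ((s, z) : T3) ∈ O :=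
    fun s hs z hz => hbox ⟨hs, hz⟩
  have h0I : (0 : ℝ) ∈ Ioo (-δ) (ℓ + δ) := ⟨by linarith, by linarith⟩
  have hc1 : ∀ s ∈ Ioo (-δ) (ℓ + δ), ∀ z ∈ Metric.ball (0 : ℝ × ℝ) δ,
      g1 Gc (s, z) = g1 Gc (0, z) := by
    intro s hs z hz
    refine IsOpen.is_const_of_deriv_eq_zero (f := fun s => g1 Gc (s, z)) isOpen_Ioo
      isPreconnected_Ioo ?_ ?_ hs h0I
    · intro t ht
      exact (hasDerivAt_slice (s1 _ (hsl t ht z hz))).differentiableAt.differentiableWithinAt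
    · intro t ht
      rw [(hasDerivAt_slice (s1 _ (hsl t ht z hz))).deriv]
      exact d1 _ (hsl t ht z hz)
  have hc2 : ∀ s ∈ Ioo (-δ) (ℓ + δ), ∀ z ∈ Metric.ball (0 : ℝ × ℝ) δ,
      g2 Gc (s, z) = g2 Gc (0, z) := by
    intro s hs z hz
    refine IsOpen.is_const_of_deriv_eq_zero (f := fun s => g2 Gc (s, z)) isOpen_Ioo
      isPreconnected_Ioo ?_ ?_ hs h0I
    · intro t ht
      exact (hasDerivAt_slice (s2 _ (hsl t ht z hz))).differentiableAt.differentiableWithinAt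
    · intro t ht
      rw [(hasDerivAt_slice (s2 _ (hsl t ht z hz))).deriv]
      exact d2 _ (hsl t ht z hz)
  set f1 : ℝ × ℝ → ℝ := fun z => g1 Gc (0, z) with hf1
  set f2 : ℝ × ℝ → ℝ := fun z => g2 Gc (0, z) with hf2
  have sf1 : ∀ z ∈ Metric.ball (0 : ℝ × ℝ) δ, ContDiffAt ℝ ∞ f1 z := fun z hz =>
    (s1 _ (hsl 0 h0I z hz)).comp z (contDiffAt_const.prodMk contDiffAt_id)
  have sf2 : ∀ z ∈ Metric.ball (0 : ℝ × ℝ) δ, ContDiffAt ℝ ∞ f2 z := fun z hz =>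
    (s2 _ (hsl 0 h0I z hz)).comp z (contDiffAt_const.prodMk contDiffAt_id)
  have df1 : ∀ s ∈ Ioo (-δ) (ℓ + δ), ∀ z ∈ Metric.ball (0 : ℝ × ℝ) δ, ∀ v : ℝ × ℝ,
      fderiv ℝ (g1 Gc) (s, z) (0, v) = fderiv ℝ f1 z v := by
    intro s hs z hz v
    rw [← fderiv_slice (s1 _ (hsl s hs z hz))]
    have : (fun z' : ℝ × ℝ => g1 Gc (s, z')) =ᶠ[𝓝 z] f1 := by
      filter_upwards [Metric.isOpen_ball.mem_nhds hz] with z' hz' using hc1 s hs z' hz'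
    rw [this.fderiv_eq]
  have df2 : ∀ s ∈ Ioo (-δ) (ℓ + δ), ∀ z ∈ Metric.ball (0 : ℝ × ℝ) δ, ∀ v : ℝ × ℝ,
      fderiv ℝ (g2 Gc) (s, z) (0, v) = fderiv ℝ f2 z v := by
    intro s hs z hz v
    rw [← fderiv_slice (s2 _ (hsl s hs z hz))]
    have : (fun z' : ℝ × ℝ => g2 Gc (s, z')) =ᶠ[𝓝 z] f2 := by
      filter_upwards [Metric.isOpen_ball.mem_nhds hz] with z' hz' using hc2 s hs z' hz'
    rw [this.fderiv_eq]
  have h0B : (0 : ℝ × ℝ) ∈ Metric.ball (0 : ℝ × ℝ) δ := Metric.mem_ball_self hδ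
  set b : ℝ × ℝ → ℝ := fun z => fderiv ℝ f1 z (0, 1) - fderiv ℝ f2 z (1, 0) with hb
  have hb0 : b 0 = 1 := by
    rw [hb]
    have e1 := df1 0 h0I 0 h0B (0, 1)
    have e2 := df2 0 h0I 0 h0B (1, 0)
    show fderiv ℝ f1 0 (0, 1) - fderiv ℝ f2 0 (1, 0) = 1
    rw [← e1, ← e2]
    exact hcurl0
  have hbc : ContinuousAt b 0 := by
    have e1 : ContinuousAt (fderiv ℝ f1) 0 := by
      have := (sf1 0 h0B).fderiv_right (m := ∞) (by simp)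
      exact this.continuousAt
    have e2 : ContinuousAt (fderiv ℝ f2) 0 := by
      have := (sf2 0 h0B).fderiv_right (m := ∞) (by simp)
      exact this.continuousAt
    exact (e1.clm_apply continuousAt_const).sub (e2.clm_apply continuousAt_const)
  obtain ⟨δ', hδ', hbp⟩ : ∃ δ' > 0, ∀ z ∈ Metric.ball (0 : ℝ × ℝ) δ', 0 < b z := by
    have : ∀ᶠ z in 𝓝 (0 : ℝ × ℝ), 0 < b z := hbc.eventually_const_lt (by rw [hb0]; exact one_pos)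
    exact Metric.eventually_nhds_iff_ball.1 this
  -- the smaller box
  set r : ℝ := min δ δ' / 2 with hr
  have hrpos : 0 < r := by
    have := lt_min hδ hδ'
    rw [hr]; linarith
  have hrδ : r < δ := by
    have := min_le_left δ δ'
    have := lt_min hδ hδ'
    rw [hr]; linarith
  have hrδ' : r < δ' := by
    have := min_le_right δ δ'
    have := lt_min hδ hδ'
    rw [hr]; linarith
  have hKO : Icc (-r) (ℓ + r) ×ˢ Metric.closedBall (0 : ℝ × ℝ) r ⊆ O := by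
    rintro ⟨s, z⟩ ⟨hs, hz⟩
    exact hsl s ⟨by linarith [hs.1], by linarith [hs.2]⟩ z (Metric.closedBall_subset_ball hrδ hz)
  obtain ⟨χ, χs, χ0, χ1, χn, χle⟩ := exists_cutoff hO
    (isClosed_Icc.prod Metric.isClosed_closedBall) hKO
  obtain ⟨χ₂, χ₂s, χ₂0, χ₂1, -, -⟩ := exists_cutoff (E := ℝ × ℝ) (O := Metric.ball 0 δ)
    (K := Metric.closedBall 0 r) Metric.isOpen_ball Metric.isClosed_closedBall
    (Metric.closedBall_subset_ball hrδ)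
  have χoff : ∀ p, p ∉ O → χ p = 0 := fun p hp => χ0.self_of_nhdsSet p hp
  have sqP : ∀ p ∈ O, ContDiffAt ℝ ∞ (fun p => √(gP Gc p)) p := fun p hp =>
    (sP p hp).sqrt (hP p hp).ne'
  have sqD : ∀ p ∈ O, ContDiffAt ℝ ∞ (fun p => √(gD Gc p)) p := fun p hp =>
    (sD p hp).sqrt (hD p hp).ne'
  have hsqP : ∀ p ∈ O, 0 < √(gP Gc p) := fun p hp => Real.sqrt_pos.2 (hP p hp)
  have hsqD : ∀ p ∈ O, 0 < √(gD Gc p) := fun p hp => Real.sqrt_pos.2 (hD p hp)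
  have hconv : ∀ (f : T3 → ℝ), (∀ p ∈ O, 0 < f p) → ∀ p, 0 < χ p * f p + (1 - χ p) := by
    intro f hf p
    have h1 := χn p
    have h2 := χle p
    by_cases hp : p ∈ O
    · have h3 := hf p hp
      rcases h1.lt_or_eq with h4 | h4
      · have := mul_pos h4 h3
        linarith
      · rw [← h4]; norm_num
    · rw [χoff p hp]; norm_num
  have χ₂f1 : ∀ z ∈ Metric.ball (0 : ℝ × ℝ) r, (fun z => χ₂ z * f1 z) =ᶠ[𝓝 z] f1 := by
    intro z hz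
    filter_upwards [Metric.isOpen_ball.mem_nhds hz] with z' hz'
    rw [χ₂1 z' (Metric.ball_subset_closedBall hz'), one_mul]
  have χ₂f2 : ∀ z ∈ Metric.ball (0 : ℝ × ℝ) r, (fun z => χ₂ z * f2 z) =ᶠ[𝓝 z] f2 := by
    intro z hz
    filter_upwards [Metric.isOpen_ball.mem_nhds hz] with z' hz'
    rw [χ₂1 z' (Metric.ball_subset_closedBall hz'), one_mul]
  have h0r : (0 : ℝ × ℝ) ∈ Metric.ball (0 : ℝ × ℝ) r := Metric.mem_ball_self hrpos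
  let τ : Tube :=
    { a := fun p => χ p * √(gP Gc p) + (1 - χ p)
      c := fun p => χ p * (gQ Gc p / √(gP Gc p))
      d := fun p => χ p * (√(gD Gc p) / √(gP Gc p)) + (1 - χ p)
      ρ := fun p => χ p * ρ₀ p + (1 - χ p)
      f₁ := fun z => χ₂ z * f1 z
      f₂ := fun z => χ₂ z * f2 z
      smooth_a := (contDiff_cutoff_mul χs χ0 sqP).add (contDiff_const.sub χs)
      smooth_c := contDiff_cutoff_mul χs χ0 fun p hp => (sQ p hp).div (sqP p hp) (hsqP p hp).ne'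
      smooth_d := (contDiff_cutoff_mul χs χ0 fun p hp =>
        (sqD p hp).div (sqP p hp) (hsqP p hp).ne').add (contDiff_const.sub χs)
      smooth_ρ := (contDiff_cutoff_mul χs χ0 fun p hp =>
        hρ.contDiffAt (hO.mem_nhds hp)).add (contDiff_const.sub χs)
      smooth_f₁ := contDiff_cutoff_mul χ₂s χ₂0 sf1
      smooth_f₂ := contDiff_cutoff_mul χ₂s χ₂0 sf2
      a_pos := hconv _ hsqP
      d_pos := hconv _ fun p hp => div_pos (hsqD p hp) (hsqP p hp)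
      ρ_pos := hconv _ hρpos
      f₁_zero := by
        show χ₂ (0, 0) * g1 Gc (0, 0, 0) = 0
        rw [g10, mul_zero]
      f₂_zero := by
        show χ₂ (0, 0) * g2 Gc (0, 0, 0) = 0
        rw [g20, mul_zero]
      curl_zero := by
        have e1 := (χ₂f1 0 h0r).fderiv_eq (𝕜 := ℝ)
        have e2 := (χ₂f2 0 h0r).fderiv_eq (𝕜 := ℝ)
        have e3 : fderiv ℝ (fun z => χ₂ z * f1 z) ((0, 0) : ℝ × ℝ) = fderiv ℝ f1 0 := e1
        have e4 : fderiv ℝ (fun z => χ₂ z * f2 z) ((0, 0) : ℝ × ℝ) = fderiv ℝ f2 0 := e2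
        rw [e3, e4]
        exact hb0 }
  refine ⟨τ, Ioo (-r) (ℓ + r) ×ˢ Metric.ball (0 : ℝ × ℝ) r, isOpen_Ioo.prod Metric.isOpen_ball,
    ?_, ?_, ?_, ?_, ?_⟩
  · rintro ⟨s, z⟩ ⟨hs, hz⟩
    exact hKO ⟨Ioo_subset_Icc_self hs, Metric.ball_subset_closedBall hz⟩
  · intro s hs
    exact ⟨⟨by linarith [hs.1], by linarith [hs.2]⟩, h0r⟩
  · rintro ⟨s, z⟩ ⟨hs, hz⟩
    have hpK : ((s, z) : T3) ∈ Icc (-r) (ℓ + r) ×ˢ Metric.closedBall (0 : ℝ × ℝ) r :=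
      ⟨Ioo_subset_Icc_self hs, Metric.ball_subset_closedBall hz⟩
    have hpO : ((s, z) : T3) ∈ O := hKO hpK
    have hχ := χ1 _ hpK
    have hs' : s ∈ Ioo (-δ) (ℓ + δ) := ⟨by linarith [hs.1], by linarith [hs.2]⟩
    have hz' : z ∈ Metric.ball (0 : ℝ × ℝ) δ := Metric.ball_subset_ball hrδ.le hz
    have hz'' : z ∈ Metric.ball (0 : ℝ × ℝ) δ' := Metric.ball_subset_ball hrδ'.le hz
    obtain ⟨t, ht1, ht2⟩ := hdet _ hpO
    have e1 : fderiv ℝ (g1 Gc) (s, z) (0, 0, 1) = fderiv ℝ f1 z (0, 1) := df1 s hs' z hz' (0, 1)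
    have e2 : fderiv ℝ (g2 Gc) (s, z) (0, 1, 0) = fderiv ℝ f2 z (1, 0) := df2 s hs' z hz' (1, 0)
    rw [e1, e2] at ht2
    have hbz := hbp z hz''
    have ht2' : t * b z = 1 := ht2
    have htpos : 0 < t := by
      by_contra hneg
      push Not at hneg
      nlinarith
    have hsq : √(gD Gc (s, z)) = t := by
      rw [← ht1]
      exact Real.sqrt_sq htpos.le
    show (χ (s, z) * √(gP Gc (s, z)) + (1 - χ (s, z))) *
      (χ (s, z) * (√(gD Gc (s, z)) / √(gP Gc (s, z))) + (1 - χ (s, z))) *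
      (fderiv ℝ (fun z => χ₂ z * f1 z) z (0, 1) - fderiv ℝ (fun z => χ₂ z * f2 z) z (1, 0)) = 1
    rw [(χ₂f1 z hz).fderiv_eq, (χ₂f2 z hz).fderiv_eq, hχ, hsq]
    have hne := (hsqP _ hpO).ne'
    have e3 : (1 * √(gP Gc (s, z)) + (1 - 1)) * (1 * (t / √(gP Gc (s, z))) + (1 - 1)) = t := by
      field_simp
      ring
    rw [e3]
    exact ht2
  · rintro ⟨s, z⟩ ⟨hs, hz⟩
    have hχ := χ1 (s, z) ⟨Ioo_subset_Icc_self hs, Metric.ball_subset_closedBall hz⟩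
    show χ (s, z) * ρ₀ (s, z) + (1 - χ (s, z)) = ρ₀ (s, z)
    rw [hχ]; ring
  · rintro ⟨s, z⟩ ⟨hs, hz⟩ ξ η
    have hpK : ((s, z) : T3) ∈ Icc (-r) (ℓ + r) ×ˢ Metric.closedBall (0 : ℝ × ℝ) r :=
      ⟨Ioo_subset_Icc_self hs, Metric.ball_subset_closedBall hz⟩
    have hpO : ((s, z) : T3) ∈ O := hKO hpK
    have hχ := χ1 _ hpK
    have hs' : s ∈ Ioo (-δ) (ℓ + δ) := ⟨by linarith [hs.1], by linarith [hs.2]⟩
    have hz' : z ∈ Metric.ball (0 : ℝ × ℝ) δ := Metric.ball_subset_ball hrδ.le hz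
    have hχ₂ := χ₂1 z (Metric.ball_subset_closedBall hz)
    have ha : τ.a (s, z) = √(gP Gc (s, z)) := by
      show χ (s, z) * √(gP Gc (s, z)) + (1 - χ (s, z)) = _
      rw [hχ]; ring
    have hc : τ.c (s, z) = gQ Gc (s, z) / √(gP Gc (s, z)) := by
      show χ (s, z) * (gQ Gc (s, z) / √(gP Gc (s, z))) = _
      rw [hχ]; ring
    have hd : τ.d (s, z) = √(gD Gc (s, z)) / √(gP Gc (s, z)) := by
      show χ (s, z) * (√(gD Gc (s, z)) / √(gP Gc (s, z))) + (1 - χ (s, z)) = _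
      rw [hχ]; ring
    have hf₁ : τ.f₁ z = g1 Gc (s, z) := by
      show χ₂ z * g1 Gc (0, z) = _
      rw [hχ₂, hc1 s hs' z hz', one_mul]
    have hf₂ : τ.f₂ z = g2 Gc (s, z) := by
      show χ₂ z * g2 Gc (0, z) = _
      rw [hχ₂, hc2 s hs' z hz', one_mul]
    have hPp := hP _ hpO
    have hDp := hD _ hpO
    have hsP := hsqP _ hpO
    have hne := hsP.ne'
    have e1 : τ.a (s, z) * τ.a (s, z) = gP Gc (s, z) := by
      rw [ha]; exact Real.mul_self_sqrt hPp.le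
    have e2 : τ.a (s, z) * τ.c (s, z) = gQ Gc (s, z) := by
      rw [ha, hc]; field_simp
    have e3 : τ.c (s, z) * τ.c (s, z) + τ.d (s, z) * τ.d (s, z) = gR Gc (s, z) := by
      rw [hc, hd, div_mul_div_comm, div_mul_div_comm, Real.mul_self_sqrt hPp.le,
        Real.mul_self_sqrt hDp.le, ← add_div, div_eq_iff hPp.ne', gD]
      ring
    rw [hcom _ hpO ξ η, covector_apply ξ (τ.X (s, z)), covector_apply ξ (τ.Y (s, z)),
      covector_apply η (τ.X (s, z)), covector_apply η (τ.Y (s, z))]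
    simp only [Tube.X, Tube.Y, hf₁, hf₂]
    rw [← e1, ← e2, ← e3]
    ring

end Pool.Agent.SRGap
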