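import Pool.Agent.Work.MP_188050_an.QM
import Pool.Agent.Work.MP_188050_an.Energy
import Pool.Agent.Work.MP_188050_an.FlowM
import Pool.Agent.Work.MP_188050_an.Box
import Pool.Agent.Work.MP_188050_an.Frames
import Pool.Agent.Work.MP_188050_an.TubeData
import Pool.Agent.Work.MP_188050_an.Dens
import Pool.Agent.Work.MP_188050_an.Trans

/-!
# Cell SR: the gap theorem
-/

open Set MeasureTheory Filter Topology VectorField
open scoped Manifold ContDiff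

namespace Pool.Agent.SRGap

variable {M : Type*} [TopologicalSpace M] [ChartedSpace E3 M] [IsManifold (𝓡 3) ∞ M]

theorem curve_eq [T2Space M] {Z : (x : M) → TangentSpace (𝓡 3) x} (hZ : SmoothVFOn Z univ) {γ γ' : ℝ → M}
    (hγ : IsMIntegralCurve γ Z) (hγ' : IsMIntegralCurve γ' Z) (h : γ 0 = γ' 0) : γ = γ' := by
  refine isMIntegralCurve_Ioo_eq_of_contMDiff_boundaryless (t₀ := 0) ?_ hγ hγ' h
  have h1 := contMDiffOn_univ.1 hZ
  exact h1.of_le (by norm_cast)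

/-- flow box with tube data along an injective segment of a Reeb orbit -/
theorem exists_tube_chart [T2Space M] [CompactSpace M] [MeasurableSpace M] [BorelSpace M]
    (S : ContactSR M) (μ : Measure M) (hμ : SmoothPositive μ) (γ : ℝ → M)
    (hγ : IsMIntegralCurve γ S.Z) {ℓ : ℝ} (hℓ : 0 < ℓ) (hinj : InjOn γ (Icc 0 ℓ)) :
    ∃ (e : OpenPartialHomeomorph M T3) (τ : Tube) (U : Set T3), IsTubeChart e ∧ IsOpen U ∧
      U ⊆ e.target ∧ (∀ s ∈ Icc 0 ℓ, ((s, 0, 0) : T3) ∈ U) ∧ τ.Good U ∧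
      (∀ p ∈ U, ∀ ξ η : T3 →L[ℝ] ℝ,
        cG S e p ξ η = ξ (τ.X p) * η (τ.X p) + ξ (τ.Y p) * η (τ.Y p)) ∧
      ∀ g : M → ℝ, Continuous g → (∀ x, ¬ (x ∈ e.source ∧ e x ∈ U) → g x = 0) →
        ∫ x, g x ∂μ = ∫ p in U, g (e.symm p) * τ.ρ p := by
  obtain ⟨Fl, hFl, hFl0, hFlZ, hFla⟩ := exists_flow S.Z S.smooth_Z
  set x₀ := γ 0 with hx₀
  have hγFl : γ = fun t => Fl t x₀ := curve_eq S.smooth_Z hγ (hFlZ x₀) (by simp [hFl0, hx₀])
  rw [hγFl] at hinj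
  obtain ⟨U₀, hxU, X, Y, hXY⟩ := S.frame x₀
  obtain ⟨e, he, hseg, he0, heZ, heX, heY⟩ := exists_box S.Z Fl hFl hFl0 hFlZ hFla x₀ X Y
    (hXY.indep x₀ hxU) hℓ hinj
  obtain ⟨ρ₀, hρs, hρpos, hρint⟩ := density hμ e he
  have h00 : ((0, 0, 0) : T3) ∈ e.target := hseg 0 ⟨le_rfl, hℓ.le⟩
  have hfr : ∀ p₀ ∈ e.target, ∃ U X Y, p₀ ∈ U ∧ U ⊆ e.target ∧ EFrame (cG S e) X Y U := by
    intro p₀ hp₀
    obtain ⟨V, hV, X', Y', hXY'⟩ := S.frame (e.symm p₀)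
    exact ⟨e.target ∩ e.symm ⁻¹' V, _, _, ⟨hp₀, hV⟩, inter_subset_left, frames S e he heZ hXY'⟩
  have hfr0 : ∃ U X Y, ((0, 0, 0) : T3) ∈ U ∧ U ⊆ e.target ∧ EFrame (cG S e) X Y U ∧
      X (0, 0, 0) = (0, 1, 0) ∧ Y (0, 0, 0) = (0, 0, 1) :=
    ⟨e.target ∩ e.symm ⁻¹' U₀, _, _, ⟨h00, by rw [mem_preimage, he0]; exact hxU⟩, inter_subset_left,
      frames S e he heZ hXY,
      mpullback_eq e he h00 X (0, 1, 0) heX, mpullback_eq e he h00 Y (0, 0, 1) heY⟩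
  obtain ⟨τ, U, hU, hUe, hsegU, hgood, hτρ, hG⟩ := exists_tube e.open_target (cG S e) hfr hℓ hseg
    hfr0 hρs hρpos
  refine ⟨e, τ, U, he, hU, hUe, hsegU, hgood, hG, fun g hg hg0 => ?_⟩
  rw [hρint g hg (fun x hx => hg0 x fun h => hx h.1)]
  have h1 : ∀ p ∈ e.target \ U, g (e.symm p) * ρ₀ p = 0 := by
    intro p hp
    rw [hg0 (e.symm p), zero_mul]
    rintro ⟨_, h2⟩
    rw [e.right_inv hp.1] at h2
    exact hp.2 h2
  rw [setIntegral_eq_of_subset_of_forall_sdiff_eq_zero e.open_target.measurableSet hUe h1]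
  refine setIntegral_congr_fun hU.measurableSet fun p hp => ?_
  simp only [hτρ p hp]

theorem gap_of_inj [T2Space M] [CompactSpace M] [MeasurableSpace M] [BorelSpace M] (S : ContactSR M)
    (μ : Measure M) [IsFiniteMeasure μ] (hμ : SmoothPositive μ) (γ : ℝ → M)
    (hγ : IsMIntegralCurve γ S.Z) {ℓ : ℝ} (hℓ : 0 < ℓ) (hinj : InjOn γ (Icc 0 ℓ)) {c : ℝ}
    (hc : 2 * Real.pi / ℓ < c) : ∃ Λ : ℝ, ∀ t ≥ Λ, ∃ s ∈ spec S μ, |s - t| < c / 2 := by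
  obtain ⟨e, τ, U, he, hU, hUe, hseg, hgood, hG, hρ⟩ := exists_tube_chart S μ hμ γ hγ hℓ hinj
  have hc0 : 0 < c := lt_trans (by positivity) hc
  set κ := (Real.pi / ℓ + c / 2) / 2 with hκ
  have h1 : Real.pi / ℓ < c / 2 := by
    have : 2 * Real.pi / ℓ = 2 * (Real.pi / ℓ) := by ring
    linarith
  have hκ1 : Real.pi / ℓ < κ := by linarith
  have hκ2 : κ < c / 2 := by linarith
  have hκ0 : 0 < κ := lt_trans (by positivity) hκ1
  obtain ⟨Λ, hΛ⟩ := quasimode τ hU hgood hℓ hseg hκ1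
  refine ⟨Λ, fun t ht => ?_⟩
  by_contra hcon
  push Not at hcon
  obtain ⟨v, hv, hvc, hvU, hpos, hlt⟩ := hΛ t ht
  obtain ⟨q, hq, hq1, hq2⟩ := tube_mem S μ e he τ hU hUe hG hρ hv hvc hvU t
  have hgap := gap_ineq S μ t c hc0 (fun s hs hs' => absurd (hcon s hs') (not_le.2 hs)) q hq
  rw [← hq1] at hpos
  rw [← hq1, ← hq2] at hlt
  have h2 : (c / 2 * ‖q.1‖) ^ 2 ≤ ‖q.2 - t • q.1‖ ^ 2 :=
    pow_le_pow_left₀ (by positivity) hgap 2
  have h3 : κ ^ 2 < (c / 2) ^ 2 := pow_lt_pow_left₀ hκ2 hκ0.le (by norm_num)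
  have h4 : κ ^ 2 * ‖q.1‖ ^ 2 < (c / 2) ^ 2 * ‖q.1‖ ^ 2 := mul_lt_mul_of_pos_right h3 hpos
  nlinarith

/-- a Reeb orbit without a period `≤ 2 π / c` has an injective segment longer than `2 π / c` -/
theorem exists_inj [T2Space M] [CompactSpace M] {Z : (x : M) → TangentSpace (𝓡 3) x}
    (hZ : SmoothVFOn Z univ) {γ : ℝ → M} (hγ : IsMIntegralCurve γ Z) {c : ℝ} (hc : 0 < c)
    (hper : ∀ T : ℝ, 0 < T → T * c ≤ 2 * Real.pi → γ T ≠ γ 0) :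
    ∃ ℓ : ℝ, 2 * Real.pi / c < ℓ ∧ InjOn γ (Icc 0 ℓ) := by
  obtain ⟨Fl, hFl, hFl0, hFlZ, hFla⟩ := exists_flow Z hZ
  have hγFl : γ = fun t => Fl t (γ 0) := curve_eq hZ hγ (hFlZ (γ 0)) (by simp [hFl0])
  have hcont : Continuous γ := hγ.continuous
  have hT₀ : 0 < 2 * Real.pi / c := by positivity
  have hopen : IsOpen {T | γ T ≠ γ 0} := (isClosed_eq hcont continuous_const).isOpen_compl
  have hmem : 2 * Real.pi / c ∈ {T | γ T ≠ γ 0} :=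
    hper _ hT₀ (by rw [div_mul_cancel₀ _ hc.ne'])
  obtain ⟨δ, hδ, hball⟩ := Metric.isOpen_iff.1 hopen _ hmem
  refine ⟨2 * Real.pi / c + δ / 2, by linarith, ?_⟩
  have hno : ∀ T, 0 < T → T ≤ 2 * Real.pi / c + δ / 2 → γ T ≠ γ 0 := by
    intro T hT hT2
    by_cases h : T * c ≤ 2 * Real.pi
    · exact hper T hT h
    · push Not at h
      refine hball ?_
      rw [Metric.mem_ball, Real.dist_eq, abs_lt]
      have h3 : 2 * Real.pi / c < T := by rwa [div_lt_iff₀ hc]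
      constructor <;> linarith
  have hkey : ∀ a b, 0 ≤ a → a < b → b ≤ 2 * Real.pi / c + δ / 2 → γ a ≠ γ b := by
    intro a b ha hab hb heq
    refine hno (b - a) (by linarith) (by linarith) ?_
    rw [hγFl] at heq ⊢
    simp only at heq ⊢
    have h1 : Fl (b - a) (γ 0) = Fl (-a) (Fl b (γ 0)) := by
      rw [← hFla]; congr 1; ring
    rw [h1, ← heq, ← hFla, neg_add_cancel]
  intro a ha b hb heq
  rcases lt_trichotomy a b with h | h | h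
  · exact absurd heq (hkey a b ha.1 h hb.2)
  · exact h
  · exact absurd heq.symm (hkey b a hb.1 h ha.2)

/-- main theorem -/
theorem main [T2Space M] [CompactSpace M] [MeasurableSpace M] [BorelSpace M] (S : ContactSR M)
    (μ : Measure M) [IsFiniteMeasure μ] (hμ : SmoothPositive μ) (γ : ℝ → M)
    (hγ : IsMIntegralCurve γ S.Z) {c : ℝ} (hc : 0 < c)
    (hper : ∀ T : ℝ, 0 < T → T * c ≤ 2 * Real.pi → γ T ≠ γ 0) :
    ∃ Λ : ℝ, ∀ t ≥ Λ, ∃ s ∈ spec S μ, |s - t| < c / 2 := by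
  obtain ⟨ℓ, hℓ, hinj⟩ := exists_inj S.smooth_Z hγ hc hper
  have hℓ0 : 0 < ℓ := lt_trans (by positivity) hℓ
  refine gap_of_inj S μ hμ γ hγ hℓ0 hinj ?_
  rw [div_lt_iff₀ hℓ0]
  rw [div_lt_iff₀ hc] at hℓ
  linarith

end Pool.Agent.SRGap
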