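import Pool.Agent.Work.MP_188050_an.Tube

/-!
# Cell SR, module 7: scaling limits of Gaussian type integrals on the tube
-/

open Set MeasureTheory Filter Topology
open scoped ContDiff

namespace Pool.Agent.SRGap

/-- scaling of the transverse variables -/
theorem gauss_scale {r : ℝ} (hr : 0 < r) (G : T3 → ℝ) :
    ∫ p : T3, G (p.1, r • p.2) = (r ^ 2)⁻¹ * ∫ p : T3, G p := by
  have hemb : MeasurableEmbedding (Prod.map (id : ℝ → ℝ) (fun z : ℝ × ℝ => r • z)) := by
    have h1 : MeasurableEmbedding (fun z : ℝ × ℝ => r • z) :=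
      (Homeomorph.smulOfNeZero r hr.ne').measurableEmbedding
    exact MeasurableEmbedding.id.prodMap h1
  have hmap : Measure.map (Prod.map (id : ℝ → ℝ) (fun z : ℝ × ℝ => r • z)) (volume : Measure T3) =
      ENNReal.ofReal (r ^ 2)⁻¹ • (volume : Measure T3) := by
    have h2 : Measure.map (fun z : ℝ × ℝ => r • z) (volume : Measure (ℝ × ℝ)) =
        ENNReal.ofReal (r ^ 2)⁻¹ • (volume : Measure (ℝ × ℝ)) := by
      rw [Measure.map_addHaar_smul (volume : Measure (ℝ × ℝ)) hr.ne']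
      congr 2
      rw [show Module.finrank ℝ (ℝ × ℝ) = 2 by simp, abs_of_pos (by positivity)]
    have h3 := Measure.map_prod_map (volume : Measure ℝ) (volume : Measure (ℝ × ℝ))
      (measurable_id : Measurable (id : ℝ → ℝ)) (measurable_const_smul r : Measurable (fun z : ℝ × ℝ => r • z))
    have h4 : (volume : Measure T3) = (volume : Measure ℝ).prod (volume : Measure (ℝ × ℝ)) := rfl
    rw [h4, ← h3, h2, Measure.map_id, Measure.prod_smul_right]
  have h5 := hemb.integral_map (μ := (volume : Measure T3)) G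
  rw [hmap, integral_smul_measure, ENNReal.toReal_ofReal (by positivity)] at h5
  rw [show (fun p : T3 => G (p.1, r • p.2)) = fun p => G (Prod.map (id : ℝ → ℝ) (fun z : ℝ × ℝ => r • z) p) from rfl,
    ← h5, smul_eq_mul]

/-- the Gaussian in the sup norm is integrable -/
theorem gauss_int {c : ℝ} (hc : 0 < c) : Integrable (fun z : ℝ × ℝ => Real.exp (-(c * ‖z‖ ^ 2))) := by
  have h1 := (integrable_exp_neg_mul_sq (half_pos hc)).mul_prod (integrable_exp_neg_mul_sq (half_pos hc))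
  refine h1.mono' (by fun_prop) (ae_of_all _ fun z => ?_)
  rw [Real.norm_of_nonneg (Real.exp_nonneg _), ← Real.exp_add]
  apply Real.exp_le_exp.2
  have h2 : z.1 ^ 2 ≤ ‖z‖ ^ 2 := by
    rw [← sq_abs z.1]; exact pow_le_pow_left₀ (abs_nonneg _) (norm_fst_le z) 2
  have h3 : z.2 ^ 2 ≤ ‖z‖ ^ 2 := by
    rw [← sq_abs z.2]; exact pow_le_pow_left₀ (abs_nonneg _) (norm_snd_le z) 2
  nlinarith

theorem pow_mul_gauss_le {c : ℝ} (hc : 0 < c) (k : ℕ) : ∃ B : ℝ, 0 ≤ B ∧ ∀ x : ℝ, 0 ≤ x →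
    x ^ k * Real.exp (-(c * x ^ 2)) ≤ B * Real.exp (-(c / 2 * x ^ 2)) := by
  refine ⟨1 + k.factorial * (2 / c) ^ k, by positivity, fun x hx => ?_⟩
  have h1 : x ^ k ≤ 1 + (x ^ 2) ^ k := by
    rcases le_total x 1 with h | h
    · have : x ^ k ≤ 1 := pow_le_one₀ hx h
      have : 0 ≤ (x ^ 2) ^ k := by positivity
      linarith
    · have : x ^ k ≤ (x ^ 2) ^ k := pow_le_pow_left₀ hx (by nlinarith) k
      linarith
  have h2 : (c / 2 * x ^ 2) ^ k / k.factorial ≤ Real.exp (c / 2 * x ^ 2) :=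
    Real.pow_div_factorial_le_exp _ (by positivity) k
  have h3 : (x ^ 2) ^ k ≤ k.factorial * (2 / c) ^ k * Real.exp (c / 2 * x ^ 2) := by
    have h4 : (x ^ 2) ^ k = k.factorial * (2 / c) ^ k * ((c / 2 * x ^ 2) ^ k / k.factorial) := by
      have h7 : (k.factorial : ℝ) ≠ 0 := by positivity
      have h8 : (2 / c) ^ k * (c / 2) ^ k = 1 := by
        rw [← mul_pow, div_mul_div_comm, mul_comm 2 c, div_self (by positivity), one_pow]
      calc (x ^ 2) ^ k = (x ^ 2) ^ k * ((2 / c) ^ k * (c / 2) ^ k) := by rw [h8, mul_one]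
        _ = _ := by rw [mul_pow (c / 2)]; field_simp
    rw [h4]
    exact mul_le_mul_of_nonneg_left h2 (by positivity)
  have h5 : 1 ≤ Real.exp (c / 2 * x ^ 2) := Real.one_le_exp (by positivity)
  have h6 : x ^ k ≤ (1 + k.factorial * (2 / c) ^ k) * Real.exp (c / 2 * x ^ 2) := by
    nlinarith
  calc x ^ k * Real.exp (-(c * x ^ 2)) ≤
      ((1 + k.factorial * (2 / c) ^ k) * Real.exp (c / 2 * x ^ 2)) * Real.exp (-(c * x ^ 2)) :=
        mul_le_mul_of_nonneg_right h6 (Real.exp_nonneg _)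
    _ = (1 + k.factorial * (2 / c) ^ k) * Real.exp (-(c / 2 * x ^ 2)) := by
        rw [mul_assoc, ← Real.exp_add]; congr 2; ring

/-- the dominating function -/
theorem gauss_dom {K : Set T3} (hK : IsCompact K) {c : ℝ} (hc : 0 < c) (k : ℕ) :
    Integrable (fun p : T3 => (Prod.fst '' K).indicator (fun _ : ℝ => (1 : ℝ)) p.1 *
      (‖p.2‖ ^ k * Real.exp (-(c * ‖p.2‖ ^ 2)))) := by
  obtain ⟨B, hB, hBx⟩ := pow_mul_gauss_le hc k
  have hS : IsCompact (Prod.fst '' K) := hK.image continuous_fst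
  have h1 : Integrable ((Prod.fst '' K).indicator (fun _ : ℝ => (1 : ℝ))) :=
    (integrable_indicator_iff hS.measurableSet).2 (integrableOn_const (hS.measure_lt_top).ne)
  have h2 : Integrable (fun z : ℝ × ℝ => ‖z‖ ^ k * Real.exp (-(c * ‖z‖ ^ 2))) := by
    refine ((gauss_int (half_pos hc)).const_mul B).mono' (by fun_prop) (ae_of_all _ fun z => ?_)
    rw [Real.norm_of_nonneg (by positivity)]
    exact hBx _ (norm_nonneg _)
  exact h1.mul_prod h2

theorem gauss_limit {K : Set T3} (hK : IsCompact K) {φ : T3 → ℝ} (hφ : Continuous φ)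
    {q : ℝ → ℝ × ℝ → ℝ} (hq : Continuous fun z : T3 => q z.1 z.2)
    (hq2 : ∀ (s r : ℝ) (z : ℝ × ℝ), q s (r • z) = r ^ 2 * q s z) {c C : ℝ} (hc : 0 < c)
    (hlow : ∀ p ∈ K, c * ‖p.2‖ ^ 2 ≤ φ p) (hqlow : ∀ s : ℝ, (∃ z, (s, z) ∈ K) → ∀ z, c * ‖z‖ ^ 2 ≤ q s z)
    (happr : ∀ p ∈ K, |φ p - q p.1 p.2| ≤ C * ‖p.2‖ ^ 3) {F : T3 → ℝ} (hF : Continuous F)
    (hFK : ∀ p, p ∉ K → F p = 0) :
    Tendsto (fun t : ℝ => t * ∫ p, F p * Real.exp (-(t * φ p))) atTop
      (𝓝 (∫ s : ℝ, F (s, 0, 0) * ∫ z : ℝ × ℝ, Real.exp (-q s z))) := by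
  obtain ⟨M, hM⟩ : ∃ M : ℝ, ∀ p, |F p| ≤ M := by
    have hcs : HasCompactSupport F := HasCompactSupport.intro hK hFK
    obtain ⟨M, hM⟩ := hcs.exists_bound_of_continuous hF
    exact ⟨M, fun p => hM p⟩
  have hM0 : 0 ≤ M := (abs_nonneg _).trans (hM 0)
  -- the scaled integrand
  set G : ℝ → T3 → ℝ := fun t p => F (p.1, (Real.sqrt t)⁻¹ • p.2) *
    Real.exp (-(t * φ (p.1, (Real.sqrt t)⁻¹ • p.2))) with hG
  have hscale : ∀ t : ℝ, 0 < t → t * ∫ p, F p * Real.exp (-(t * φ p)) = ∫ p, G t p := by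
    intro t ht
    have h1 := gauss_scale (inv_pos.2 (Real.sqrt_pos.2 ht)) (fun p => F p * Real.exp (-(t * φ p)))
    rw [hG]
    simp only
    rw [h1, inv_pow, Real.sq_sqrt ht.le, inv_inv]
  have hlim : ∫ s : ℝ, F (s, 0, 0) * ∫ z : ℝ × ℝ, Real.exp (-q s z) =
      ∫ p : T3, F (p.1, 0, 0) * Real.exp (-q p.1 p.2) := by
    have hint : Integrable (fun p : T3 => F (p.1, 0, 0) * Real.exp (-q p.1 p.2)) := by
      refine ((gauss_dom hK hc 0).const_mul M).mono' ?_ (ae_of_all _ fun p => ?_)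
      · have : Continuous (fun p : T3 => F (p.1, 0, 0) * Real.exp (-q p.1 p.2)) := by fun_prop
        exact this.aestronglyMeasurable
      · by_cases h0 : F (p.1, 0, 0) = 0
        · simp only [h0, zero_mul, norm_zero]
          exact mul_nonneg hM0 (mul_nonneg (indicator_nonneg (fun _ _ => zero_le_one) _) (by positivity))
        · have hmem : ((p.1, 0, 0) : T3) ∈ K := by
            by_contra hh; exact h0 (hFK _ hh)
          have hs : p.1 ∈ Prod.fst '' K := ⟨_, hmem, rfl⟩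
          rw [norm_mul, Real.norm_of_nonneg (Real.exp_nonneg _), indicator_of_mem hs, one_mul, pow_zero, one_mul]
          exact mul_le_mul (hM _) (Real.exp_le_exp.2 (neg_le_neg (hqlow p.1 ⟨_, hmem⟩ p.2)))
            (Real.exp_nonneg _) hM0
    have := integral_prod (μ := (volume : Measure ℝ)) (ν := (volume : Measure (ℝ × ℝ))) _ hint
    rw [show (∫ p : T3, F (p.1, 0, 0) * Real.exp (-q p.1 p.2)) =
      ∫ p : T3, F (p.1, 0, 0) * Real.exp (-q p.1 p.2) ∂((volume : Measure ℝ).prod volume) from rfl, this]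
    refine integral_congr_ae (ae_of_all _ fun s => ?_)
    simp only
    rw [integral_const_mul]
  rw [hlim]
  have hev : (fun t : ℝ => ∫ p, G t p) =ᶠ[atTop] fun t : ℝ => t * ∫ p, F p * Real.exp (-(t * φ p)) := by
    filter_upwards [eventually_gt_atTop 0] with t ht
    exact (hscale t ht).symm
  refine Tendsto.congr' hev ?_
  refine tendsto_integral_filter_of_dominated_convergence
    (fun p : T3 => M * ((Prod.fst '' K).indicator (fun _ : ℝ => (1 : ℝ)) p.1 *
      (‖p.2‖ ^ 0 * Real.exp (-(c * ‖p.2‖ ^ 2))))) ?_ ?_ ((gauss_dom hK hc 0).const_mul M) ?_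
  · refine Eventually.of_forall fun t => ?_
    have : Continuous (G t) := by rw [hG]; fun_prop
    exact this.aestronglyMeasurable
  · filter_upwards [eventually_gt_atTop 0] with t ht
    refine ae_of_all _ fun p => ?_
    by_cases hp : ((p.1, (Real.sqrt t)⁻¹ • p.2) : T3) ∈ K
    · have hs : p.1 ∈ Prod.fst '' K := ⟨_, hp, rfl⟩
      rw [hG]
      simp only
      rw [norm_mul, Real.norm_of_nonneg (Real.exp_nonneg _), indicator_of_mem hs, one_mul, pow_zero, one_mul]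
      refine mul_le_mul (hM _) (Real.exp_le_exp.2 (neg_le_neg ?_)) (Real.exp_nonneg _) hM0
      have h1 := hlow _ hp
      simp only [norm_smul, norm_inv, Real.norm_of_nonneg (Real.sqrt_nonneg t), mul_pow, inv_pow,
        Real.sq_sqrt ht.le] at h1
      calc c * ‖p.2‖ ^ 2 = t * (c * (t⁻¹ * ‖p.2‖ ^ 2)) := by field_simp
        _ ≤ _ := mul_le_mul_of_nonneg_left h1 ht.le
    · rw [hG]
      simp only
      rw [hFK _ hp, zero_mul, norm_zero]
      exact mul_nonneg hM0 (mul_nonneg (indicator_nonneg (fun _ _ => zero_le_one) _) (by positivity))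
  · refine ae_of_all _ fun p => ?_
    have hr : Tendsto (fun t : ℝ => (Real.sqrt t)⁻¹) atTop (𝓝 0) :=
      tendsto_inv_atTop_zero.comp Real.tendsto_sqrt_atTop
    have hpt : Tendsto (fun t : ℝ => ((p.1, (Real.sqrt t)⁻¹ • p.2) : T3)) atTop (𝓝 (p.1, 0, 0)) := by
      have h1 : Tendsto (fun t : ℝ => (Real.sqrt t)⁻¹ • p.2) atTop (𝓝 ((0 : ℝ) • p.2)) := hr.smul_const _
      rw [zero_smul] at h1
      exact tendsto_const_nhds.prodMk_nhds h1
    have hFt : Tendsto (fun t : ℝ => F (p.1, (Real.sqrt t)⁻¹ • p.2)) atTop (𝓝 (F (p.1, 0, 0))) :=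
      (hF.tendsto _).comp hpt
    by_cases h0 : F (p.1, 0, 0) = 0
    · rw [h0] at hFt
      rw [h0, zero_mul]
      rw [hG]
      refine squeeze_zero_norm' ?_ (tendsto_norm_zero.comp hFt)
      filter_upwards [eventually_gt_atTop 0] with t ht
      simp only [Function.comp]
      by_cases hp : ((p.1, (Real.sqrt t)⁻¹ • p.2) : T3) ∈ K
      · rw [norm_mul, Real.norm_of_nonneg (Real.exp_nonneg _)]
        refine mul_le_of_le_one_right (norm_nonneg _) (Real.exp_le_one_iff.2 ?_)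
        have h1 := hlow _ hp
        have h2 : 0 ≤ φ (p.1, (Real.sqrt t)⁻¹ • p.2) := le_trans (by positivity) h1
        have := mul_nonneg ht.le h2
        linarith
      · rw [hFK _ hp, zero_mul]
    · have hne : ∀ᶠ t : ℝ in atTop, F (p.1, (Real.sqrt t)⁻¹ • p.2) ≠ 0 := hFt.eventually_ne h0
      have hφt : Tendsto (fun t : ℝ => t * φ (p.1, (Real.sqrt t)⁻¹ • p.2)) atTop (𝓝 (q p.1 p.2)) := by
        rw [tendsto_iff_norm_sub_tendsto_zero]
        have hub : Tendsto (fun t : ℝ => C * ‖p.2‖ ^ 3 * (Real.sqrt t)⁻¹) atTop (𝓝 0) := by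
          simpa using hr.const_mul (C * ‖p.2‖ ^ 3)
        refine squeeze_zero' (Eventually.of_forall fun t => norm_nonneg _) ?_ hub
        filter_upwards [hne, eventually_gt_atTop 0] with t hne' ht
        have hp : ((p.1, (Real.sqrt t)⁻¹ • p.2) : T3) ∈ K := by
          by_contra hh; exact hne' (hFK _ hh)
        have h1 := happr _ hp
        simp only at h1
        rw [hq2, norm_smul, norm_inv, Real.norm_of_nonneg (Real.sqrt_nonneg t), inv_pow,
          Real.sq_sqrt ht.le] at h1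
        have h2 : t * φ (p.1, (Real.sqrt t)⁻¹ • p.2) - q p.1 p.2 =
            t * (φ (p.1, (Real.sqrt t)⁻¹ • p.2) - t⁻¹ * q p.1 p.2) := by field_simp
        rw [h2, Real.norm_eq_abs, abs_mul, abs_of_pos ht]
        calc t * |φ (p.1, (Real.sqrt t)⁻¹ • p.2) - t⁻¹ * q p.1 p.2| ≤
            t * (C * ((Real.sqrt t)⁻¹ * ‖p.2‖) ^ 3) := mul_le_mul_of_nonneg_left h1 ht.le
          _ = C * ‖p.2‖ ^ 3 * (Real.sqrt t)⁻¹ := by
              have h3 : (Real.sqrt t)⁻¹ ^ 2 = t⁻¹ := by rw [inv_pow, Real.sq_sqrt ht.le]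
              calc t * (C * ((Real.sqrt t)⁻¹ * ‖p.2‖) ^ 3) =
                  t * (Real.sqrt t)⁻¹ ^ 2 * (C * ‖p.2‖ ^ 3 * (Real.sqrt t)⁻¹) := by ring
                _ = _ := by rw [h3, mul_inv_cancel₀ ht.ne', one_mul]
      exact hFt.mul ((Real.continuous_exp.tendsto _).comp hφt.neg)

theorem gauss_bound {K : Set T3} (hK : IsCompact K) {φ : T3 → ℝ} (hφ : Continuous φ) {c C : ℝ}
    (hc : 0 < c) (hlow : ∀ p ∈ K, c * ‖p.2‖ ^ 2 ≤ φ p) {F : T3 → ℝ} (hF : Continuous F)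
    (hFK : ∀ p, p ∉ K → F p = 0) {k : ℕ} (hFb : ∀ p ∈ K, |F p| ≤ C * ‖p.2‖ ^ k) :
    ∃ C' : ℝ, ∀ t : ℝ, 1 ≤ t → t * ∫ p, |F p| * Real.exp (-(t * φ p)) ≤ C' / Real.sqrt t ^ k := by
  set D : T3 → ℝ := fun p => (Prod.fst '' K).indicator (fun _ : ℝ => (1 : ℝ)) p.1 *
      (‖p.2‖ ^ k * Real.exp (-(c * ‖p.2‖ ^ 2))) with hD
  refine ⟨|C| * ∫ p, D p, fun t ht1 => ?_⟩
  have ht : 0 < t := by linarith
  have hst : 0 < Real.sqrt t := Real.sqrt_pos.2 ht
  have h1 := gauss_scale (inv_pos.2 hst) (fun p => |F p| * Real.exp (-(t * φ p)))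
  rw [inv_pow, Real.sq_sqrt ht.le, inv_inv] at h1
  rw [← h1]
  have hDint : Integrable D := gauss_dom hK hc k
  have h2 : ∫ p : T3, |F (p.1, (Real.sqrt t)⁻¹ • p.2)| * Real.exp (-(t * φ (p.1, (Real.sqrt t)⁻¹ • p.2))) ≤
      ∫ p : T3, (|C| / Real.sqrt t ^ k) * D p := by
    refine integral_mono_of_nonneg (ae_of_all _ fun p => by positivity) (hDint.const_mul _)
      (ae_of_all _ fun p => ?_)
    simp only
    by_cases hp : ((p.1, (Real.sqrt t)⁻¹ • p.2) : T3) ∈ K
    · have hs : p.1 ∈ Prod.fst '' K := ⟨_, hp, rfl⟩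
      have h3 := hFb _ hp
      have h4 := hlow _ hp
      simp only [norm_smul, norm_inv, Real.norm_of_nonneg (Real.sqrt_nonneg t), mul_pow, inv_pow,
        Real.sq_sqrt ht.le] at h3 h4
      have h5 : c * ‖p.2‖ ^ 2 ≤ t * φ (p.1, (Real.sqrt t)⁻¹ • p.2) := by
        calc c * ‖p.2‖ ^ 2 = t * (c * (t⁻¹ * ‖p.2‖ ^ 2)) := by field_simp
          _ ≤ _ := mul_le_mul_of_nonneg_left h4 ht.le
      rw [hD]
      simp only
      rw [indicator_of_mem hs, one_mul]
      calc |F (p.1, (Real.sqrt t)⁻¹ • p.2)| * Real.exp (-(t * φ (p.1, (Real.sqrt t)⁻¹ • p.2))) ≤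
          (|C| / Real.sqrt t ^ k * ‖p.2‖ ^ k) * Real.exp (-(c * ‖p.2‖ ^ 2)) := by
            refine mul_le_mul ?_ (Real.exp_le_exp.2 (neg_le_neg h5)) (Real.exp_nonneg _) (by positivity)
            refine h3.trans ?_
            calc C * ((Real.sqrt t ^ k)⁻¹ * ‖p.2‖ ^ k) ≤ |C| * ((Real.sqrt t ^ k)⁻¹ * ‖p.2‖ ^ k) :=
                  mul_le_mul_of_nonneg_right (le_abs_self C) (by positivity)
              _ = _ := by ring
        _ = _ := by ring
    · rw [hFK _ hp, abs_zero, zero_mul]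
      exact mul_nonneg (by positivity)
        (mul_nonneg (indicator_nonneg (fun _ _ => zero_le_one) _) (by positivity))
  refine h2.trans (le_of_eq ?_)
  rw [integral_const_mul]
  ring

theorem gauss_cont {q : ℝ → ℝ × ℝ → ℝ} (hq : Continuous fun z : T3 => q z.1 z.2)
    (hlow : ∀ R : ℝ, ∃ c : ℝ, 0 < c ∧ ∀ s, |s| ≤ R → ∀ z, c * ‖z‖ ^ 2 ≤ q s z) :
    Continuous (fun s : ℝ => ∫ z : ℝ × ℝ, Real.exp (-q s z)) ∧
      ∀ s : ℝ, 0 < ∫ z : ℝ × ℝ, Real.exp (-q s z) := by
  have hqs : ∀ s : ℝ, Continuous (fun z : ℝ × ℝ => q s z) := fun s =>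
    hq.comp (continuous_const.prodMk continuous_id)
  have hqz : ∀ z : ℝ × ℝ, Continuous (fun s : ℝ => q s z) := fun z =>
    hq.comp (continuous_id.prodMk continuous_const)
  constructor
  · rw [continuous_iff_continuousAt]
    intro s₀
    obtain ⟨c, hc, hcz⟩ := hlow (|s₀| + 1)
    refine continuousAt_of_dominated (bound := fun z : ℝ × ℝ => Real.exp (-(c * ‖z‖ ^ 2)))
      (Eventually.of_forall fun s => ?_) ?_ (gauss_int hc) (ae_of_all _ fun z => ?_)
    · exact (Real.continuous_exp.comp (hqs s).neg).aestronglyMeasurable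
    · have hnb : ∀ᶠ s in 𝓝 s₀, |s| ≤ |s₀| + 1 := by
        have : ∀ᶠ s in 𝓝 s₀, |s| < |s₀| + 1 := by
          have hc' : ContinuousAt (fun s : ℝ => |s|) s₀ := continuous_abs.continuousAt
          exact hc'.eventually (gt_mem_nhds (by linarith))
        exact this.mono fun s hs => hs.le
      filter_upwards [hnb] with s hs
      refine ae_of_all _ fun z => ?_
      rw [Real.norm_of_nonneg (Real.exp_nonneg _)]
      exact Real.exp_le_exp.2 (neg_le_neg (hcz s hs z))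
    · exact (Real.continuous_exp.comp (hqz z).neg).continuousAt
  · intro s
    obtain ⟨c, hc, hcz⟩ := hlow |s|
    have hint : Integrable (fun z : ℝ × ℝ => Real.exp (-q s z)) := by
      refine (gauss_int hc).mono' (Real.continuous_exp.comp (hqs s).neg).aestronglyMeasurable
        (ae_of_all _ fun z => ?_)
      rw [Real.norm_of_nonneg (Real.exp_nonneg _)]
      exact Real.exp_le_exp.2 (neg_le_neg (hcz s le_rfl z))
    exact integral_exp_pos hint

end Pool.Agent.SRGap
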