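import Pool.Agent.Work.MP_188050_an.Tube

/-!
# MP_188050_an, cell SR, module 6: integration by parts on the tube
-/

open Set MeasureTheory Filter Topology VectorField
open scoped Manifold ContDiff

namespace Pool.Agent.SRGap

section basic
variable {F : Type*} [NormedAddCommGroup F] [NormedSpace ℝ F]

/-- a derivative along a vector field in terms of the partial derivatives -/
theorem dir_eq (V : T3 → T3) (f : T3 → F) (p : T3) :
    dir V f p = (V p).1 • pd0 f p + (V p).2.1 • pd1 f p + (V p).2.2 • pd2 f p := by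
  have h : V p = (V p).1 • ((1, 0, 0) : T3) + (V p).2.1 • ((0, 1, 0) : T3) +
      (V p).2.2 • ((0, 0, 1) : T3) := by
    ext <;> simp
  unfold dir pd0 pd1 pd2
  conv_lhs => rw [h]
  simp only [map_add, map_smul]

theorem pdv_contDiff {f : T3 → F} (hf : ContDiff ℝ ∞ f) (v : T3) :
    ContDiff ℝ ∞ (fun p => fderiv ℝ f p v) := by
  have h1 : ContDiff ℝ ∞ (fderiv ℝ f) := hf.fderiv_right (m := ∞) (by simp)
  exact h1.clm_apply contDiff_const

theorem pd0_contDiff {f : T3 → F} (hf : ContDiff ℝ ∞ f) : ContDiff ℝ ∞ (pd0 f) :=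
  pdv_contDiff hf _
theorem pd1_contDiff {f : T3 → F} (hf : ContDiff ℝ ∞ f) : ContDiff ℝ ∞ (pd1 f) :=
  pdv_contDiff hf _
theorem pd2_contDiff {f : T3 → F} (hf : ContDiff ℝ ∞ f) : ContDiff ℝ ∞ (pd2 f) :=
  pdv_contDiff hf _

theorem dir_contDiff {V : T3 → T3} (hV : ContDiff ℝ ∞ V) {f : T3 → F} (hf : ContDiff ℝ ∞ f) :
    ContDiff ℝ ∞ (dir V f) := by
  have h1 : ContDiff ℝ ∞ (fderiv ℝ f) := hf.fderiv_right (m := ∞) (by simp)
  exact h1.clm_apply hV

theorem dir_tsupport (V : T3 → T3) (f : T3 → F) : tsupport (dir V f) ⊆ tsupport f := by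
  refine closure_minimal ?_ (isClosed_tsupport f)
  intro p hp
  by_contra hpn
  apply hp
  have h0 : fderiv ℝ f p = 0 := by
    by_contra h
    exact hpn (support_fderiv_subset ℝ h)
  simp [dir, h0]

theorem dir_compact {V : T3 → T3} {f : T3 → F} (hf : HasCompactSupport f) :
    HasCompactSupport (dir V f) :=
  hf.mono' ((subset_tsupport _).trans (dir_tsupport V f))

end basic

theorem Tube.X_contDiff (τ : Tube) : ContDiff ℝ ∞ τ.X := by
  have h2 : ContDiff ℝ ∞ (fun p : T3 => p.2) := contDiff_snd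
  have h3 : ContDiff ℝ ∞ (fun p : T3 => τ.f₁ p.2) := τ.smooth_f₁.comp h2
  have h4 : ContDiff ℝ ∞ (fun p : T3 => τ.f₂ p.2) := τ.smooth_f₂.comp h2
  exact ((τ.smooth_a.mul h3).add (τ.smooth_c.mul h4)).prodMk (τ.smooth_a.prodMk τ.smooth_c)

theorem Tube.Y_contDiff (τ : Tube) : ContDiff ℝ ∞ τ.Y := by
  have h2 : ContDiff ℝ ∞ (fun p : T3 => p.2) := contDiff_snd
  have h4 : ContDiff ℝ ∞ (fun p : T3 => τ.f₂ p.2) := τ.smooth_f₂.comp h2
  exact (τ.smooth_d.mul h4).prodMk (contDiff_const.prodMk τ.smooth_d)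

theorem Tube.div_contDiff (τ : Tube) {V : T3 → T3} (hV : ContDiff ℝ ∞ V) :
    ContDiff ℝ ∞ (τ.div V) := by
  have h0 : ContDiff ℝ ∞ (fun q => τ.ρ q * (V q).1) := τ.smooth_ρ.mul hV.fst
  have h1 : ContDiff ℝ ∞ (fun q => τ.ρ q * (V q).2.1) := τ.smooth_ρ.mul hV.snd.fst
  have h2 : ContDiff ℝ ∞ (fun q => τ.ρ q * (V q).2.2) := τ.smooth_ρ.mul hV.snd.snd
  exact (((pd0_contDiff h0).add (pd1_contDiff h1)).add (pd2_contDiff h2)).div τ.smooth_ρ
    fun p => (τ.ρ_pos p).ne'

theorem haar_R2 : (volume : Measure (ℝ × ℝ)).IsAddHaarMeasure := by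
  rw [Measure.volume_eq_prod]; infer_instance

theorem haar_T3 : (volume : Measure T3).IsAddHaarMeasure := by
  have := haar_R2
  rw [Measure.volume_eq_prod]; infer_instance

/-- the integral of a derivative of a smooth compactly supported function is zero -/
theorem integral_fderiv_zero {f : T3 → ℝ} (hf : ContDiff ℝ ∞ f) (hfc : HasCompactSupport f) (v : T3) :
    ∫ p, fderiv ℝ f p v = 0 := by
  have h1 : Continuous (fun p => fderiv ℝ f p v) := (pdv_contDiff hf v).continuous
  have h2 : HasCompactSupport (fun p => fderiv ℝ f p v) := hfc.fderiv_apply ℝ v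
  have h3 : Integrable (fun p => fderiv ℝ f p v) := h1.integrable_of_hasCompactSupport h2
  have := haar_T3
  have h := integral_mul_fderiv_eq_neg_fderiv_mul_of_integrable (𝕜 := ℝ) (μ := (volume : Measure T3))
    (f := fun _ => (1 : ℝ)) (g := f) (v := v) (by simp) (by simpa using h3)
    (by simpa using hf.continuous.integrable_of_hasCompactSupport hfc)
    (fun x _ => differentiableAt_const _) (fun x _ => (hf.differentiable (by simp)) x)
  simpa using h

/-- the divergence theorem on the tube -/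
theorem integral_dir (τ : Tube) {V : T3 → T3} (hV : ContDiff ℝ ∞ V) {u φ : T3 → ℝ}
    (hu : ContDiff ℝ ∞ u) (huc : HasCompactSupport u) (hφ : ContDiff ℝ ∞ φ) :
    ∫ p, u p * dir V φ p * τ.ρ p = ∫ p, (-(dir V u p + τ.div V p * u p)) * φ p * τ.ρ p := by
  have hd : ∀ {f : T3 → ℝ}, ContDiff ℝ ∞ f → ∀ p, DifferentiableAt ℝ f p :=
    fun hf p => (hf.differentiable (by simp)) p
  have h0 : ContDiff ℝ ∞ (fun q => τ.ρ q * (V q).1) := τ.smooth_ρ.mul hV.fst
  have h1 : ContDiff ℝ ∞ (fun q => τ.ρ q * (V q).2.1) := τ.smooth_ρ.mul hV.snd.fst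
  have h2 : ContDiff ℝ ∞ (fun q => τ.ρ q * (V q).2.2) := τ.smooth_ρ.mul hV.snd.snd
  have huφ : ContDiff ℝ ∞ (fun q => u q * φ q) := hu.mul hφ
  -- product rule in a constant direction
  have key : ∀ (g : T3 → ℝ), ContDiff ℝ ∞ g → ∀ (v : T3) (p : T3),
      fderiv ℝ (fun q => g q * (u q * φ q)) p v =
        fderiv ℝ g p v * (u p * φ p) + g p * (fderiv ℝ u p v * φ p + u p * fderiv ℝ φ p v) := by
    intro g hg v p
    have e1 : fderiv ℝ (fun q => g q * (u q * φ q)) p =
        g p • fderiv ℝ (fun q => u q * φ q) p + (u p * φ p) • fderiv ℝ g p :=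
      fderiv_fun_mul (hd hg p) (hd huφ p)
    have e2 : fderiv ℝ (fun q => u q * φ q) p = u p • fderiv ℝ φ p + φ p • fderiv ℝ u p :=
      fderiv_fun_mul (hd hu p) (hd hφ p)
    rw [e1, e2]
    simp only [add_apply, smul_apply, smul_eq_mul]
    ring
  have hc : ∀ (g : T3 → ℝ), HasCompactSupport (fun q => g q * (u q * φ q)) :=
    fun g => (huc.mul_right (f' := φ)).mul_left (f := g)
  have z0 := integral_fderiv_zero (h0.mul huφ) (hc _) (1, 0, 0)
  have z1 := integral_fderiv_zero (h1.mul huφ) (hc _) (0, 1, 0)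
  have z2 := integral_fderiv_zero (h2.mul huφ) (hc _) (0, 0, 1)
  have int : ∀ (g : T3 → ℝ), ContDiff ℝ ∞ g → ∀ v : T3,
      Integrable (fun p => fderiv ℝ (fun q => g q * (u q * φ q)) p v) := by
    intro g hg v
    exact (pdv_contDiff (hg.mul huφ) v).continuous.integrable_of_hasCompactSupport
      ((hc g).fderiv_apply ℝ v)
  have i0 := int _ h0 (1, 0, 0)
  have i1 := int _ h1 (0, 1, 0)
  have i2 := int _ h2 (0, 0, 1)
  have hsum : ∫ p, (fderiv ℝ (fun q => (τ.ρ q * (V q).1) * (u q * φ q)) p (1, 0, 0) +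
      fderiv ℝ (fun q => (τ.ρ q * (V q).2.1) * (u q * φ q)) p (0, 1, 0) +
      fderiv ℝ (fun q => (τ.ρ q * (V q).2.2) * (u q * φ q)) p (0, 0, 1)) = 0 := by
    have e1 := integral_add (i0.add i1) i2
    have e2 := integral_add i0 i1
    simp only [Pi.add_apply] at e1
    rw [e1, e2, z0, z1, z2]; simp
  have hpt : ∀ p, (fderiv ℝ (fun q => (τ.ρ q * (V q).1) * (u q * φ q)) p (1, 0, 0) +
      fderiv ℝ (fun q => (τ.ρ q * (V q).2.1) * (u q * φ q)) p (0, 1, 0) +
      fderiv ℝ (fun q => (τ.ρ q * (V q).2.2) * (u q * φ q)) p (0, 0, 1)) =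
      u p * dir V φ p * τ.ρ p - (-(dir V u p + τ.div V p * u p)) * φ p * τ.ρ p := by
    intro p
    have hρ : τ.ρ p ≠ 0 := (τ.ρ_pos p).ne'
    rw [key _ h0, key _ h1, key _ h2, dir_eq V φ p, dir_eq V u p]
    unfold Tube.div pd0 pd1 pd2
    simp only [smul_eq_mul]
    field_simp
    ring
  simp_rw [hpt] at hsum
  have iA : Integrable (fun p => u p * dir V φ p * τ.ρ p) := by
    refine ((hu.mul (dir_contDiff hV hφ)).mul τ.smooth_ρ).continuous.integrable_of_hasCompactSupport ?_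
    exact (huc.mul_right (f' := dir V φ)).mul_right (f' := τ.ρ)
  have iB : Integrable (fun p => (-(dir V u p + τ.div V p * u p)) * φ p * τ.ρ p) := by
    have hw : ContDiff ℝ ∞ (fun p => -(dir V u p + τ.div V p * u p)) :=
      ((dir_contDiff hV hu).add ((τ.div_contDiff hV).mul hu)).neg
    refine ((hw.mul hφ).mul τ.smooth_ρ).continuous.integrable_of_hasCompactSupport ?_
    have hwc : HasCompactSupport (fun p => -(dir V u p + τ.div V p * u p)) :=
      ((dir_compact (V := V) huc).add (huc.mul_left (f := τ.div V))).neg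
    exact (hwc.mul_right (f' := φ)).mul_right (f' := τ.ρ)
  rw [integral_sub iA iB] at hsum
  linarith

theorem green (τ : Tube) {v φ : T3 → ℝ} (hv : ContDiff ℝ ∞ v) (hvc : HasCompactSupport v)
    (hφ : ContDiff ℝ ∞ φ) :
    ∫ p, (dir τ.X v p * dir τ.X φ p + dir τ.Y v p * dir τ.Y φ p) * τ.ρ p =
      ∫ p, τ.L v p * φ p * τ.ρ p := by
  have aux : ∀ V : T3 → T3, ContDiff ℝ ∞ V →
      Integrable (fun p => dir V v p * dir V φ p * τ.ρ p) ∧
      Integrable (fun p => (-(dir V (dir V v) p + τ.div V p * dir V v p)) * φ p * τ.ρ p) := by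
    intro V hV
    have hu := dir_contDiff hV hv
    have huc : HasCompactSupport (dir V v) := dir_compact hvc
    constructor
    · refine ((hu.mul (dir_contDiff hV hφ)).mul τ.smooth_ρ).continuous.integrable_of_hasCompactSupport ?_
      exact (huc.mul_right (f' := dir V φ)).mul_right (f' := τ.ρ)
    · have hw : ContDiff ℝ ∞ (fun p => -(dir V (dir V v) p + τ.div V p * dir V v p)) :=
        ((dir_contDiff hV hu).add ((τ.div_contDiff hV).mul hu)).neg
      refine ((hw.mul hφ).mul τ.smooth_ρ).continuous.integrable_of_hasCompactSupport ?_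
      have hwc : HasCompactSupport (fun p => -(dir V (dir V v) p + τ.div V p * dir V v p)) :=
        ((dir_compact (V := V) huc).add (huc.mul_left (f := τ.div V))).neg
      exact (hwc.mul_right (f' := φ)).mul_right (f' := τ.ρ)
  have hX := aux _ τ.X_contDiff
  have hY := aux _ τ.Y_contDiff
  have eX := integral_dir τ τ.X_contDiff (dir_contDiff τ.X_contDiff hv) (dir_compact hvc) hφ
  have eY := integral_dir τ τ.Y_contDiff (dir_contDiff τ.Y_contDiff hv) (dir_compact hvc) hφ
  have l : ∀ p, (dir τ.X v p * dir τ.X φ p + dir τ.Y v p * dir τ.Y φ p) * τ.ρ p =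
      dir τ.X v p * dir τ.X φ p * τ.ρ p + dir τ.Y v p * dir τ.Y φ p * τ.ρ p := fun p => by ring
  have r : ∀ p, τ.L v p * φ p * τ.ρ p =
      (-(dir τ.X (dir τ.X v) p + τ.div τ.X p * dir τ.X v p)) * φ p * τ.ρ p +
      (-(dir τ.Y (dir τ.Y v) p + τ.div τ.Y p * dir τ.Y v p)) * φ p * τ.ρ p := by
    intro p
    unfold Tube.L
    simp only [smul_eq_mul]
    ring
  simp_rw [l, r]
  rw [integral_add hX.1 hY.1, integral_add hX.2 hY.2, eX, eY]

/-- derivatives commute with continuous linear maps -/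
theorem dir_clm {F G : Type*} [NormedAddCommGroup F] [NormedSpace ℝ F] [NormedAddCommGroup G]
    [NormedSpace ℝ G] (V : T3 → T3) (T : F →L[ℝ] G) {v : T3 → F} (hv : ContDiff ℝ ∞ v) (p : T3) :
    dir V (fun q => T (v q)) p = T (dir V v p) := by
  unfold dir
  have h' : fderiv ℝ (fun q => T (v q)) p = T.comp (fderiv ℝ v p) :=
    (T.hasFDerivAt.comp p ((hv.differentiable (by simp)) p).hasFDerivAt).fderiv
  rw [h']
  rfl

theorem L_clm {F G : Type*} [NormedAddCommGroup F] [NormedSpace ℝ F] [NormedAddCommGroup G]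
    [NormedSpace ℝ G] (τ : Tube) (T : F →L[ℝ] G) {v : T3 → F} (hv : ContDiff ℝ ∞ v) (p : T3) :
    τ.L (fun q => T (v q)) p = T (τ.L v p) := by
  have hX : dir τ.X (fun q => T (v q)) = fun q => T (dir τ.X v q) :=
    funext fun q => dir_clm _ T hv q
  have hY : dir τ.Y (fun q => T (v q)) = fun q => T (dir τ.Y v q) :=
    funext fun q => dir_clm _ T hv q
  unfold Tube.L
  rw [hX, hY]
  beta_reduce
  rw [dir_clm _ T (dir_contDiff τ.X_contDiff hv), dir_clm _ T (dir_contDiff τ.Y_contDiff hv)]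
  simp only [map_sub, map_neg, map_add, map_smul]

theorem L_re (τ : Tube) {v : T3 → ℂ} (hv : ContDiff ℝ ∞ v) (p : T3) :
    τ.L (fun q => (v q).re) p = (τ.L v p).re :=
  L_clm τ Complex.reCLM hv p

theorem L_im (τ : Tube) {v : T3 → ℂ} (hv : ContDiff ℝ ∞ v) (p : T3) :
    τ.L (fun q => (v q).im) p = (τ.L v p).im :=
  L_clm τ Complex.imCLM hv p

theorem L_contDiff_gen {F : Type*} [NormedAddCommGroup F] [NormedSpace ℝ F] (τ : Tube) {v : T3 → F}
    (hv : ContDiff ℝ ∞ v) : ContDiff ℝ ∞ (τ.L v) := by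
  have hX := dir_contDiff τ.X_contDiff hv
  have hY := dir_contDiff τ.Y_contDiff hv
  exact (((dir_contDiff τ.X_contDiff hX).add ((τ.div_contDiff τ.X_contDiff).smul hX)).neg).sub
    ((dir_contDiff τ.Y_contDiff hY).add ((τ.div_contDiff τ.Y_contDiff).smul hY))

theorem L_contDiff (τ : Tube) {v : T3 → ℝ} (hv : ContDiff ℝ ∞ v) : ContDiff ℝ ∞ (τ.L v) :=
  L_contDiff_gen τ hv

theorem L_contDiff' (τ : Tube) {v : T3 → ℂ} (hv : ContDiff ℝ ∞ v) : ContDiff ℝ ∞ (τ.L v) :=
  L_contDiff_gen τ hv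

theorem L_tsupport_gen {F : Type*} [NormedAddCommGroup F] [NormedSpace ℝ F] (τ : Tube) (v : T3 → F) :
    tsupport (τ.L v) ⊆ tsupport v := by
  refine closure_minimal ?_ (isClosed_tsupport v)
  intro p hp
  by_contra hpn
  apply hp
  have z : ∀ V : T3 → T3, dir V v p = 0 := fun V =>
    image_eq_zero_of_notMem_tsupport fun h => hpn (dir_tsupport V v h)
  have z2 : ∀ V : T3 → T3, dir V (dir V v) p = 0 := fun V =>
    image_eq_zero_of_notMem_tsupport fun h =>
      hpn (dir_tsupport V v (dir_tsupport V (dir V v) h))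
  simp [Tube.L, z, z2]

theorem L_tsupport (τ : Tube) (v : T3 → ℝ) : tsupport (τ.L v) ⊆ tsupport v :=
  L_tsupport_gen τ v

/-- the tube Laplacian is symmetric -/
theorem L_symm (τ : Tube) {v φ : T3 → ℝ} (hv : ContDiff ℝ ∞ v) (hvc : HasCompactSupport v)
    (hφ : ContDiff ℝ ∞ φ) (hφc : HasCompactSupport φ) :
    ∫ p, τ.L v p * φ p * τ.ρ p = ∫ p, τ.L φ p * v p * τ.ρ p := by
  rw [← green τ hv hvc hφ, ← green τ hφ hφc hv]
  congr 1
  ext p
  ring

/-- `⟨L v, v⟩` is real -/
theorem sym_im (τ : Tube) {v : T3 → ℂ} (hv : ContDiff ℝ ∞ v) (hvc : HasCompactSupport v) :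
    (∫ p, τ.L v p * starRingEnd ℂ (v p) * (τ.ρ p : ℂ)).im = 0 := by
  have hre : ContDiff ℝ ∞ (fun q => (v q).re) := Complex.reCLM.contDiff.comp hv
  have him : ContDiff ℝ ∞ (fun q => (v q).im) := Complex.imCLM.contDiff.comp hv
  have hrec : HasCompactSupport (fun q => (v q).re) := hvc.comp_left (g := Complex.re) rfl
  have himc : HasCompactSupport (fun q => (v q).im) := hvc.comp_left (g := Complex.im) rfl
  have hLc : HasCompactSupport (τ.L v) :=
    hvc.mono' ((subset_tsupport _).trans (L_tsupport_gen τ v))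
  have hcont : Continuous (fun p => τ.L v p * starRingEnd ℂ (v p) * (τ.ρ p : ℂ)) :=
    ((L_contDiff' τ hv).continuous.mul (Complex.continuous_conj.comp hv.continuous)).mul
      (Complex.continuous_ofReal.comp τ.smooth_ρ.continuous)
  have hint : Integrable (fun p => τ.L v p * starRingEnd ℂ (v p) * (τ.ρ p : ℂ)) := by
    refine hcont.integrable_of_hasCompactSupport ?_
    exact (hLc.mul_right (f' := fun p => starRingEnd ℂ (v p))).mul_right (f' := fun p => (τ.ρ p : ℂ))
  have h1 : (∫ p, τ.L v p * starRingEnd ℂ (v p) * (τ.ρ p : ℂ)).im =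
      ∫ p, (τ.L v p * starRingEnd ℂ (v p) * (τ.ρ p : ℂ)).im := by
    have := Complex.imCLM.integral_comp_comm hint
    exact this.symm
  rw [h1]
  have h2 : ∀ p, (τ.L v p * starRingEnd ℂ (v p) * (τ.ρ p : ℂ)).im =
      τ.L (fun q => (v q).im) p * (v p).re * τ.ρ p - τ.L (fun q => (v q).re) p * (v p).im * τ.ρ p := by
    intro p
    rw [L_re τ hv, L_im τ hv]
    simp only [Complex.mul_im, Complex.mul_re, Complex.conj_re, Complex.conj_im, Complex.ofReal_re,
      Complex.ofReal_im]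
    ring
  simp_rw [h2]
  have i1 : Integrable (fun p => τ.L (fun q => (v q).im) p * (v p).re * τ.ρ p) := by
    refine (((L_contDiff τ him).mul hre).mul τ.smooth_ρ).continuous.integrable_of_hasCompactSupport ?_
    exact (hrec.mul_left (f := τ.L (fun q => (v q).im))).mul_right (f' := τ.ρ)
  have i2 : Integrable (fun p => τ.L (fun q => (v q).re) p * (v p).im * τ.ρ p) := by
    refine (((L_contDiff τ hre).mul him).mul τ.smooth_ρ).continuous.integrable_of_hasCompactSupport ?_
    exact (himc.mul_left (f := τ.L (fun q => (v q).re))).mul_right (f' := τ.ρ)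
  rw [integral_sub i1 i2]
  rw [L_symm τ him himc hre hrec]
  ring

end Pool.Agent.SRGap
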