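import Pool.Agent.Work.MP_188050_an.Tube

/-!
# MP_188050_an, module 1: calculus of `J k` (smooth functions vanishing to order `k` along the axis)
-/

open Set MeasureTheory Filter Topology VectorField
open scoped Manifold ContDiff

namespace Pool.Agent.SRGap

/-! ### smoothness of parametric integrals -/

section param
universe u
variable {X : Type u} [NormedAddCommGroup X] [NormedSpace ℝ X] [FiniteDimensional ℝ X]

theorem contDiff_integral_aux (n : ℕ) : ∀ (F : Type u) [NormedAddCommGroup F]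
    [NormedSpace ℝ F] [CompleteSpace F] (k : X × ℝ → F), ContDiff ℝ ∞ k →
    ContDiff ℝ n (fun x => ∫ s in (0 : ℝ)..1, k (x, s)) := by
  have : ProperSpace X := FiniteDimensional.proper ℝ X
  induction n with
  | zero =>
    intro F _ _ _ k hk
    rw [Nat.cast_zero, contDiff_zero]
    refine intervalIntegral.continuous_parametric_intervalIntegral_of_continuous' ?_ 0 1
    exact hk.continuous
  | succ n ih =>
    intro F _ _ _ k hk
    have hk1 : ContDiff ℝ ∞ (fderiv ℝ k) := hk.fderiv_right (by simp)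
    set k' : X × ℝ → (X →L[ℝ] F) := fun p => (fderiv ℝ k p).comp (ContinuousLinearMap.inl ℝ X ℝ)
      with hk'
    have hk'c : ContDiff ℝ ∞ k' := hk1.clm_comp contDiff_const
    rw [Nat.cast_add, Nat.cast_one, contDiff_succ_iff_hasFDerivAt]
    refine ⟨fun x => ∫ s in (0 : ℝ)..1, k' (x, s), ih (X →L[ℝ] F) k' hk'c, fun x₀ => ?_⟩
    have hcomp : IsCompact (Metric.closedBall x₀ 1 ×ˢ Icc (0 : ℝ) 1) :=
      (isCompact_closedBall x₀ 1).prod isCompact_Icc
    obtain ⟨C, hC⟩ := hcomp.exists_bound_of_continuousOn hk'c.continuous.continuousOn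
    refine intervalIntegral.hasFDerivAt_integral_of_dominated_of_fderiv_le
      (F := fun x s => k (x, s)) (F' := fun x s => k' (x, s)) (bound := fun _ => C)
      (s := Metric.closedBall x₀ 1) (Metric.closedBall_mem_nhds x₀ one_pos) ?_ ?_ ?_ ?_ ?_ ?_
    · refine Eventually.of_forall fun x => ?_
      exact (hk.continuous.comp (by fun_prop : Continuous fun s : ℝ => (x, s))).aestronglyMeasurable
    · exact (hk.continuous.comp (by fun_prop : Continuous fun s : ℝ => (x₀, s))).intervalIntegrable _ _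
    · exact (hk'c.continuous.comp
        (by fun_prop : Continuous fun s : ℝ => (x₀, s))).aestronglyMeasurable
    · refine Eventually.of_forall fun s hs x hx => ?_
      refine hC (x, s) ⟨hx, ?_⟩
      rw [uIoc_of_le zero_le_one] at hs
      exact Ioc_subset_Icc_self hs
    · exact intervalIntegrable_const
    · refine Eventually.of_forall fun s _ x _ => ?_
      have h1 : HasFDerivAt k (fderiv ℝ k (x, s)) (x, s) :=
        (hk.differentiable (by simp) (x, s)).hasFDerivAt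
      have h2 : HasFDerivAt (fun x : X => (x, s)) (ContinuousLinearMap.inl ℝ X ℝ) x :=
        hasFDerivAt_prodMk_left x s
      exact h1.comp x h2

theorem contDiff_integral {F : Type u} [NormedAddCommGroup F]
    [NormedSpace ℝ F] [CompleteSpace F] {k : X × ℝ → F} (hk : ContDiff ℝ ∞ k) :
    ContDiff ℝ ∞ (fun x => ∫ s in (0 : ℝ)..1, k (x, s)) :=
  contDiff_infty.mpr fun n => contDiff_integral_aux n F k hk

end param

/-! ### basic smooth functions -/

theorem contDiff_cx : ContDiff ℝ ∞ (fun p : T3 => (p.2.1 : ℂ)) :=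
  Complex.ofRealCLM.contDiff.comp (contDiff_fst.comp contDiff_snd)

theorem contDiff_cy : ContDiff ℝ ∞ (fun p : T3 => (p.2.2 : ℂ)) :=
  Complex.ofRealCLM.contDiff.comp (contDiff_snd.comp contDiff_snd)

theorem contDiff_ax : ContDiff ℝ ∞ (fun p : T3 => ((p.1, 0, 0) : T3)) :=
  contDiff_fst.prodMk contDiff_const

/-- the product rule in the form needed -/
theorem fderiv_xy {g h : T3 → ℂ} {p : T3} (hg : DifferentiableAt ℝ g p) (hh : DifferentiableAt ℝ h p)
    (v : T3) : fderiv ℝ (fun q : T3 => (q.2.1 : ℂ) * g q + (q.2.2 : ℂ) * h q) p v =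
      ((p.2.1 : ℂ) * fderiv ℝ g p v + (p.2.2 : ℂ) * fderiv ℝ h p v) +
        ((v.2.1 : ℂ) * g p + (v.2.2 : ℂ) * h p) := by
  have hx : HasFDerivAt (fun q : T3 => (q.2.1 : ℂ))
      (Complex.ofRealCLM ∘L (ContinuousLinearMap.fst ℝ ℝ ℝ ∘L ContinuousLinearMap.snd ℝ ℝ (ℝ × ℝ))) p :=
    (Complex.ofRealCLM ∘L (ContinuousLinearMap.fst ℝ ℝ ℝ ∘L ContinuousLinearMap.snd ℝ ℝ (ℝ × ℝ))).hasFDerivAt
  have hy : HasFDerivAt (fun q : T3 => (q.2.2 : ℂ))
      (Complex.ofRealCLM ∘L (ContinuousLinearMap.snd ℝ ℝ ℝ ∘L ContinuousLinearMap.snd ℝ ℝ (ℝ × ℝ))) p :=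
    (Complex.ofRealCLM ∘L (ContinuousLinearMap.snd ℝ ℝ ℝ ∘L ContinuousLinearMap.snd ℝ ℝ (ℝ × ℝ))).hasFDerivAt
  have h' := ((hx.mul hg.hasFDerivAt).add (hy.mul hh.hasFDerivAt)).fderiv
  have e : (fun q : T3 => (q.2.1 : ℂ) * g q + (q.2.2 : ℂ) * h q) =
      ((fun q : T3 => (q.2.1 : ℂ)) * g + (fun q : T3 => (q.2.2 : ℂ)) * h) := rfl
  rw [e, h']
  simp
  ring

theorem contDiff_pd0 {f : T3 → ℂ} (hf : ContDiff ℝ ∞ f) : ContDiff ℝ ∞ (pd0 f) :=
  (hf.fderiv_right (by simp)).clm_apply contDiff_const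
theorem contDiff_pd1 {f : T3 → ℂ} (hf : ContDiff ℝ ∞ f) : ContDiff ℝ ∞ (pd1 f) :=
  (hf.fderiv_right (by simp)).clm_apply contDiff_const
theorem contDiff_pd2 {f : T3 → ℂ} (hf : ContDiff ℝ ∞ f) : ContDiff ℝ ∞ (pd2 f) :=
  (hf.fderiv_right (by simp)).clm_apply contDiff_const

/-! ### calculus of `J` -/

theorem J_contDiff {k : ℕ} {f : T3 → ℂ} (h : J k f) : ContDiff ℝ ∞ f := by
  induction k generalizing f with
  | zero => exact h
  | succ k ih =>
    obtain ⟨g, h, hg, hh, rfl⟩ := h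
    exact (contDiff_cx.mul (ih hg)).add (contDiff_cy.mul (ih hh))

theorem J_add {k : ℕ} {f g : T3 → ℂ} (hf : J k f) (hg : J k g) : J k (fun p => f p + g p) := by
  induction k generalizing f g with
  | zero => exact ContDiff.add hf hg
  | succ k ih =>
    obtain ⟨f1, f2, hf1, hf2, rfl⟩ := hf
    obtain ⟨g1, g2, hg1, hg2, rfl⟩ := hg
    exact ⟨_, _, ih hf1 hg1, ih hf2 hg2, by funext p; ring⟩

theorem J_neg {k : ℕ} {f : T3 → ℂ} (hf : J k f) : J k (fun p => -f p) := by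
  induction k generalizing f with
  | zero => exact ContDiff.neg hf
  | succ k ih =>
    obtain ⟨f1, f2, hf1, hf2, rfl⟩ := hf
    exact ⟨_, _, ih hf1, ih hf2, by funext p; ring⟩

theorem J_sub {k : ℕ} {f g : T3 → ℂ} (hf : J k f) (hg : J k g) : J k (fun p => f p - g p) := by
  have h := J_add hf (J_neg hg)
  simpa [sub_eq_add_neg] using h

/-- multiplication by a smooth function -/
theorem J_smul {k : ℕ} {f g : T3 → ℂ} (hf : ContDiff ℝ ∞ f) (hg : J k g) : J k (fun p => f p * g p) := by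
  induction k generalizing g with
  | zero => exact ContDiff.mul hf hg
  | succ k ih =>
    obtain ⟨g1, g2, hg1, hg2, rfl⟩ := hg
    exact ⟨_, _, ih hg1, ih hg2, by funext p; ring⟩

theorem J_mul {j k : ℕ} {f g : T3 → ℂ} (hf : J j f) (hg : J k g) : J (j + k) (fun p => f p * g p) := by
  induction j generalizing f with
  | zero => rw [zero_add]; exact J_smul hf hg
  | succ j ih =>
    obtain ⟨f1, f2, hf1, hf2, rfl⟩ := hf
    rw [show j + 1 + k = (j + k) + 1 by omega]
    exact ⟨_, _, ih hf1, ih hf2, by funext p; ring⟩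

theorem J_of_succ {k : ℕ} {f : T3 → ℂ} (hf : J (k + 1) f) : J k f := by
  obtain ⟨f1, f2, hf1, hf2, rfl⟩ := hf
  exact J_add (J_smul contDiff_cx hf1) (J_smul contDiff_cy hf2)

theorem J_mono {j k : ℕ} (hjk : j ≤ k) {f : T3 → ℂ} (hf : J k f) : J j f := by
  induction k, hjk using Nat.le_induction with
  | base => exact hf
  | succ k _ ih => exact ih (J_of_succ hf)

theorem J_zero (k : ℕ) : J k (fun _ => 0) := by
  induction k with
  | zero => exact contDiff_const
  | succ k ih => exact ⟨_, _, ih, ih, by funext p; ring⟩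

theorem J_x : J 1 (fun p => (p.2.1 : ℂ)) :=
  ⟨fun _ => 1, fun _ => 0, contDiff_const, contDiff_const, by funext p; ring⟩
theorem J_y : J 1 (fun p => (p.2.2 : ℂ)) :=
  ⟨fun _ => 0, fun _ => 1, contDiff_const, contDiff_const, by funext p; ring⟩
theorem J_eta : J 1 eta :=
  ⟨fun _ => 1, fun _ => -Complex.I, contDiff_const, contDiff_const, by funext p; unfold eta; ring⟩

theorem J_pd0 {k : ℕ} {f : T3 → ℂ} (hf : J k f) : J k (pd0 f) := by
  induction k generalizing f with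
  | zero => exact contDiff_pd0 hf
  | succ k ih =>
    obtain ⟨g, h, hg, hh, rfl⟩ := hf
    refine ⟨_, _, ih hg, ih hh, ?_⟩
    funext p
    have e := fderiv_xy (p := p) ((J_contDiff hg).differentiable (by simp) p)
      ((J_contDiff hh).differentiable (by simp) p) (1, 0, 0)
    unfold pd0
    rw [e]; simp

theorem J_pd1 {k : ℕ} {f : T3 → ℂ} (hf : J (k + 1) f) : J k (pd1 f) := by
  induction k generalizing f with
  | zero => exact contDiff_pd1 (J_contDiff hf)
  | succ k ih =>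
    obtain ⟨g, h, hg, hh, rfl⟩ := hf
    have e : pd1 (fun p : T3 => (p.2.1 : ℂ) * g p + (p.2.2 : ℂ) * h p) =
        fun p : T3 => ((p.2.1 : ℂ) * pd1 g p + (p.2.2 : ℂ) * pd1 h p) + g p := by
      funext p
      have e := fderiv_xy (p := p) ((J_contDiff hg).differentiable (by simp) p)
        ((J_contDiff hh).differentiable (by simp) p) (0, 1, 0)
      unfold pd1
      rw [e]; simp
    rw [e]
    exact J_add ⟨_, _, ih hg, ih hh, rfl⟩ hg

theorem J_pd2 {k : ℕ} {f : T3 → ℂ} (hf : J (k + 1) f) : J k (pd2 f) := by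
  induction k generalizing f with
  | zero => exact contDiff_pd2 (J_contDiff hf)
  | succ k ih =>
    obtain ⟨g, h, hg, hh, rfl⟩ := hf
    have e : pd2 (fun p : T3 => (p.2.1 : ℂ) * g p + (p.2.2 : ℂ) * h p) =
        fun p : T3 => ((p.2.1 : ℂ) * pd2 g p + (p.2.2 : ℂ) * pd2 h p) + h p := by
      funext p
      have e := fderiv_xy (p := p) ((J_contDiff hg).differentiable (by simp) p)
        ((J_contDiff hh).differentiable (by simp) p) (0, 0, 1)
      unfold pd2
      rw [e]; simp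
    rw [e]
    exact J_add ⟨_, _, ih hg, ih hh, rfl⟩ hh

theorem J_axis {k : ℕ} {f : T3 → ℂ} (hf : J (k + 1) f) (s : ℝ) : f (s, 0, 0) = 0 := by
  obtain ⟨g, h, hg, hh, rfl⟩ := hf
  simp

/-- Hadamard's lemma -/
theorem J_of_axis {f : T3 → ℂ} (hf : ContDiff ℝ ∞ f) (h : ∀ s : ℝ, f (s, 0, 0) = 0) : J 1 f := by
  have hm : ContDiff ℝ ∞ (fun q : T3 × ℝ => ((q.1.1, q.2 * q.1.2.1, q.2 * q.1.2.2) : T3)) := by
    fun_prop
  refine ⟨fun p => ∫ t in (0:ℝ)..1, pd1 f (p.1, t * p.2.1, t * p.2.2),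
    fun p => ∫ t in (0:ℝ)..1, pd2 f (p.1, t * p.2.1, t * p.2.2),
    contDiff_integral (k := fun q : T3 × ℝ => pd1 f (q.1.1, q.2 * q.1.2.1, q.2 * q.1.2.2))
      ((contDiff_pd1 hf).comp hm),
    contDiff_integral (k := fun q : T3 × ℝ => pd2 f (q.1.1, q.2 * q.1.2.1, q.2 * q.1.2.2))
      ((contDiff_pd2 hf).comp hm), ?_⟩
  funext p
  obtain ⟨s, x, y⟩ := p
  have hline : ∀ t : ℝ, HasDerivAt (fun t : ℝ => ((s, t * x, t * y) : T3)) ((0, x, y) : T3) t := fun t => by
    have h1 : HasDerivAt (fun t : ℝ => t * x) x t := by simpa using (hasDerivAt_id t).mul_const x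
    have h2 : HasDerivAt (fun t : ℝ => t * y) y t := by simpa using (hasDerivAt_id t).mul_const y
    exact (hasDerivAt_const t s).prodMk (h1.prodMk h2)
  have hd : ∀ t : ℝ, HasDerivAt (fun t : ℝ => f (s, t * x, t * y))
      ((x : ℂ) * pd1 f (s, t * x, t * y) + (y : ℂ) * pd2 f (s, t * x, t * y)) t := fun t => by
    have h1 := ((hf.differentiable (by simp) (s, t * x, t * y)).hasFDerivAt).comp_hasDerivAt t (hline t)
    have e : ((0, x, y) : T3) = x • ((0, 1, 0) : T3) + y • ((0, 0, 1) : T3) := by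
      ext <;> simp
    rw [e, map_add, map_smul, map_smul] at h1
    simpa [pd1, pd2, Function.comp_def] using h1
  have hcont : ∀ {g : T3 → ℂ}, Continuous g → Continuous (fun t : ℝ => g (s, t * x, t * y)) := fun hg =>
    hg.comp (by fun_prop)
  have c1 := hcont (contDiff_pd1 hf).continuous
  have c2 := hcont (contDiff_pd2 hf).continuous
  have hint := intervalIntegral.integral_eq_sub_of_hasDerivAt (a := 0) (b := 1)
    (fun t _ => hd t) (((continuous_const.mul c1).add (continuous_const.mul c2)).intervalIntegrable _ _)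
  have hs := h s
  simp only [zero_mul, one_mul, hs, sub_zero] at hint
  have i1 : IntervalIntegrable (fun t : ℝ => (x : ℂ) * pd1 f (s, t * x, t * y)) volume 0 1 :=
    (continuous_const.mul c1).intervalIntegrable _ _
  have i2 : IntervalIntegrable (fun t : ℝ => (y : ℂ) * pd2 f (s, t * x, t * y)) volume 0 1 :=
    (continuous_const.mul c2).intervalIntegrable _ _
  rw [← hint, intervalIntegral.integral_add i1 i2, intervalIntegral.integral_const_mul,
    intervalIntegral.integral_const_mul]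

theorem contDiff_axis {f : T3 → ℂ} (hf : ContDiff ℝ ∞ f) : ContDiff ℝ ∞ (fun p : T3 => f (p.1, 0, 0)) :=
  hf.comp contDiff_ax

theorem J_sub_axis {f : T3 → ℂ} (hf : ContDiff ℝ ∞ f) : J 1 (fun p => f p - f (p.1, 0, 0)) :=
  J_of_axis (hf.sub (contDiff_axis hf)) (fun s => by simp)

/-- Taylor formula of order one along the axis -/
theorem J_taylor1 {f : T3 → ℂ} (hf : ContDiff ℝ ∞ f) : J 2 (fun p => f p - f (p.1, 0, 0) -
    pd1 f (p.1, 0, 0) * (p.2.1 : ℂ) - pd2 f (p.1, 0, 0) * (p.2.2 : ℂ)) := by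
  obtain ⟨g, h, hg, hh, e⟩ := J_sub_axis hf
  have hg' : ContDiff ℝ ∞ g := hg
  have hh' : ContDiff ℝ ∞ h := hh
  have e' : f = fun p : T3 => ((p.2.1 : ℂ) * g p + (p.2.2 : ℂ) * h p) + f (p.1, 0, 0) := by
    funext p
    rw [← congrFun e p]; ring
  have hd : ∀ (s : ℝ) (v : T3), v.1 = 0 →
      fderiv ℝ f (s, 0, 0) v = (v.2.1 : ℂ) * g (s, 0, 0) + (v.2.2 : ℂ) * h (s, 0, 0) := by
    intro s v hv
    have d1 : DifferentiableAt ℝ (fun p : T3 => (p.2.1 : ℂ) * g p + (p.2.2 : ℂ) * h p) (s, 0, 0) :=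
      ((contDiff_cx.mul hg').add (contDiff_cy.mul hh')).differentiable (by simp) _
    have d2 : HasFDerivAt (fun p : T3 => f (p.1, 0, 0)) ((fderiv ℝ f (s, 0, 0)).comp
        ((ContinuousLinearMap.fst ℝ ℝ (ℝ × ℝ)).prod 0)) (s, 0, 0) := by
      have hl : HasFDerivAt (fun p : T3 => ((p.1, 0, 0) : T3))
          ((ContinuousLinearMap.fst ℝ ℝ (ℝ × ℝ)).prod 0) (s, 0, 0) :=
        hasFDerivAt_fst.prodMk (hasFDerivAt_const _ _)
      have := ((hf.differentiable (by simp) ((s, 0, 0) : T3)).hasFDerivAt)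
      exact HasFDerivAt.comp (g := f) ((s, 0, 0) : T3) this hl
    have e2 : fderiv ℝ f (s, 0, 0) v =
        fderiv ℝ (fun p : T3 => ((p.2.1 : ℂ) * g p + (p.2.2 : ℂ) * h p) + f (p.1, 0, 0)) (s, 0, 0) v := by
      rw [← e']
    rw [e2, fderiv_fun_add d1 d2.differentiableAt, _root_.add_apply, d2.fderiv,
      fderiv_xy (hg'.differentiable (by simp) _) (hh'.differentiable (by simp) _)]
    have e3 : ((fderiv ℝ f (s, 0, 0)).comp ((ContinuousLinearMap.fst ℝ ℝ (ℝ × ℝ)).prod 0)) v = 0 := by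
      rw [ContinuousLinearMap.comp_apply]
      have : ((ContinuousLinearMap.fst ℝ ℝ (ℝ × ℝ)).prod 0) v = (0 : T3) := by
        ext <;> simp [hv]
      rw [this, map_zero]
    rw [e3]; simp
  have p1 : ∀ s : ℝ, pd1 f (s, 0, 0) = g (s, 0, 0) := fun s => by
    have := hd s (0, 1, 0) rfl
    simpa [pd1] using this
  have p2 : ∀ s : ℝ, pd2 f (s, 0, 0) = h (s, 0, 0) := fun s => by
    have := hd s (0, 0, 1) rfl
    simpa [pd2] using this
  refine ⟨_, _, J_sub_axis hg', J_sub_axis hh', ?_⟩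
  funext p
  rw [p1, p2]
  have := congrFun e p
  rw [this]; ring

theorem J_bound {k : ℕ} {f : T3 → ℂ} (hf : J k f) {K : Set T3} (hK : IsCompact K) :
    ∃ C : ℝ, 0 ≤ C ∧ ∀ p ∈ K, ‖f p‖ ≤ C * ‖p.2‖ ^ k := by
  induction k generalizing f with
  | zero =>
    have hf' : ContDiff ℝ ∞ f := hf
    obtain ⟨C, hC⟩ := hK.exists_bound_of_continuousOn hf'.continuous.continuousOn
    exact ⟨max C 0, le_max_right _ _, fun p hp => by
      rw [pow_zero, mul_one]; exact (hC p hp).trans (le_max_left _ _)⟩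
  | succ k ih =>
    obtain ⟨g, h, hg, hh, rfl⟩ := hf
    obtain ⟨C1, hC1, h1⟩ := ih hg
    obtain ⟨C2, hC2, h2⟩ := ih hh
    refine ⟨C1 + C2, by positivity, fun p hp => ?_⟩
    have hx : ‖(p.2.1 : ℂ)‖ ≤ ‖p.2‖ := by
      rw [Complex.norm_real]; exact norm_fst_le p.2
    have hy : ‖(p.2.2 : ℂ)‖ ≤ ‖p.2‖ := by
      rw [Complex.norm_real]; exact norm_snd_le p.2
    calc ‖(p.2.1 : ℂ) * g p + (p.2.2 : ℂ) * h p‖ ≤ ‖(p.2.1 : ℂ) * g p‖ + ‖(p.2.2 : ℂ) * h p‖ := norm_add_le _ _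
      _ = ‖(p.2.1 : ℂ)‖ * ‖g p‖ + ‖(p.2.2 : ℂ)‖ * ‖h p‖ := by rw [norm_mul, norm_mul]
      _ ≤ ‖p.2‖ * (C1 * ‖p.2‖ ^ k) + ‖p.2‖ * (C2 * ‖p.2‖ ^ k) := by
        have := h1 p hp
        have := h2 p hp
        gcongr
      _ = (C1 + C2) * ‖p.2‖ ^ (k + 1) := by ring

theorem CVF.Smooth.conj {w : CVF} (hw : w.Smooth) : w.conj.Smooth :=
  ⟨Complex.conjCLE.contDiff.comp hw.s, Complex.conjCLE.contDiff.comp hw.x,
    Complex.conjCLE.contDiff.comp hw.y⟩

theorem CVF.Smooth.op {w : CVF} (hw : w.Smooth) {f : T3 → ℂ} (hf : ContDiff ℝ ∞ f) :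
    ContDiff ℝ ∞ (w.op f) :=
  ((hw.s.mul (contDiff_pd0 hf)).add (hw.x.mul (contDiff_pd1 hf))).add (hw.y.mul (contDiff_pd2 hf))

/-- a vector field lowers the order by one -/
theorem J_op {w : CVF} (hw : w.Smooth) {k : ℕ} {f : T3 → ℂ} (hf : J (k + 1) f) : J k (w.op f) :=
  J_add (J_add (J_smul hw.s (J_of_succ (J_pd0 hf))) (J_smul hw.x (J_pd1 hf))) (J_smul hw.y (J_pd2 hf))

end Pool.Agent.SRGap
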