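import Pool.Agent.Work.MP_188050_an.KCommon

/-!
# MP_188050_an, cell SR: a diffeomorphism of finite order which is the identity on an open set is the
# identity; the least common period is at most the bound of the periods
-/

open Set MeasureTheory Filter Topology
open scoped Manifold ContDiff

namespace Pool.Agent.SRGap

section M
variable {M : Type*} [TopologicalSpace M] [ChartedSpace E3 M] [IsManifold (𝓡 3) ∞ M]

theorem smooth_iter {φ : M → M} (hφ : ContMDiff (𝓡 3) (𝓡 3) ∞ φ) (j : ℕ) :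
    ContMDiff (𝓡 3) (𝓡 3) ∞ (φ^[j]) := by
  induction j with
  | zero => exact contMDiff_id
  | succ j ih => rw [Function.iterate_succ]; exact ih.comp hφ

theorem iter_id {φ : M → M} {z : M} (h : ∀ᶠ x in 𝓝 z, φ x = x) (j : ℕ) : ∀ᶠ x in 𝓝 z, φ^[j] x = x := by
  filter_upwards [h] with x hx
  exact Function.iterate_fixed hx j

/-- `φ^[j]` in a chart -/
noncomputable def chIter (φ : M → M) (z : M) (j : ℕ) (y : E3) : E3 :=
  chartAt E3 z (φ^[j] ((chartAt E3 z).symm y))

theorem chIter_smooth {φ : M → M} (hφ : ContMDiff (𝓡 3) (𝓡 3) ∞ φ) {z : M} (hz : φ z = z) (j : ℕ) :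
    ContDiffAt ℝ ∞ (chIter φ z j) (chartAt E3 z z) := by
  rw [← contMDiffAt_iff_contDiffAt]
  have h1 : ContMDiffAt 𝓘(ℝ, E3) (𝓡 3) ∞ (chartAt E3 z).symm (chartAt E3 z z) :=
    contMDiffOn_chart_symm.contMDiffAt ((chartAt E3 z).open_target.mem_nhds (mem_chart_target E3 z))
  have h2 : (chartAt E3 z).symm (chartAt E3 z z) = z := (chartAt E3 z).left_inv (mem_chart_source E3 z)
  have h3 : ContMDiffAt 𝓘(ℝ, E3) (𝓡 3) ∞ (fun y => φ^[j] ((chartAt E3 z).symm y)) (chartAt E3 z z) :=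
    (smooth_iter hφ j).contMDiffAt.comp _ h1
  have h4 : φ^[j] ((chartAt E3 z).symm (chartAt E3 z z)) = z := by
    rw [h2]; exact Function.iterate_fixed hz j
  have h5 : ContMDiffAt (𝓡 3) 𝓘(ℝ, E3) ∞ (chartAt E3 z) (φ^[j] ((chartAt E3 z).symm (chartAt E3 z z))) := by
    rw [h4]
    exact contMDiffOn_chart.contMDiffAt ((chartAt E3 z).open_source.mem_nhds (mem_chart_source E3 z))
  exact ContMDiffAt.comp (x := chartAt E3 z z) (f := fun y => φ^[j] ((chartAt E3 z).symm y))
    (g := chartAt E3 z) h5 h3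

theorem chIter_fderiv {φ : M → M} (hφ : ContMDiff (𝓡 3) (𝓡 3) ∞ φ) {z : M} (hz : φ z = z)
    (hcl : z ∈ closure {x | ∀ᶠ y in 𝓝 x, φ y = y}) (j : ℕ) :
    fderiv ℝ (chIter φ z j) (chartAt E3 z z) = ContinuousLinearMap.id ℝ E3 := by
  set c := chartAt E3 z with hc
  have hzs : z ∈ c.source := mem_chart_source E3 z
  have hcont : ContinuousAt (fun y => fderiv ℝ (chIter φ z j) y) (c z) :=
    ((chIter_smooth hφ hz j).fderiv_right (m := 0) (by simp)).continuousAt
  have hcont' : ContinuousAt (fun x => fderiv ℝ (chIter φ z j) (c x)) z :=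
    ContinuousAt.comp (f := c) (x := z) hcont (c.continuousAt hzs)
  -- the derivative is the identity on the interior of the fixed point set
  have hid : ∀ x ∈ {x | ∀ᶠ y in 𝓝 x, φ y = y} ∩ c.source,
      fderiv ℝ (chIter φ z j) (c x) = ContinuousLinearMap.id ℝ E3 := by
    rintro x ⟨hx, hxs⟩
    have h1 : chIter φ z j =ᶠ[𝓝 (c x)] fun y => y := by
      have h2 : ∀ᶠ y in 𝓝 (c x), φ^[j] (c.symm y) = c.symm y := by
        have h3 := iter_id hx j
        have h4 : Tendsto c.symm (𝓝 (c x)) (𝓝 x) := by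
          have := c.continuousAt_symm (c.map_source hxs)
          unfold ContinuousAt at this
          rwa [c.left_inv hxs] at this
        exact h4.eventually h3
      filter_upwards [h2, c.open_target.mem_nhds (c.map_source hxs)] with y hy hyt
      show c (φ^[j] (c.symm y)) = y
      rw [hy, c.right_inv hyt]
    rw [h1.fderiv_eq]
    exact fderiv_fun_id
  have hcl' : z ∈ closure ({x | ∀ᶠ y in 𝓝 x, φ y = y} ∩ c.source) := by
    rw [inter_comm]
    exact c.open_source.inter_closure ⟨hzs, hcl⟩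
  have h5 : MapsTo (fun x => fderiv ℝ (chIter φ z j) (c x)) ({x | ∀ᶠ y in 𝓝 x, φ y = y} ∩ c.source)
      {ContinuousLinearMap.id ℝ E3} := fun x hx => hid x hx
  have h6 := hcont'.continuousWithinAt.mem_closure hcl' h5
  rwa [closure_singleton, mem_singleton_iff] at h6

/-- a smooth map of finite order on a connected manifold which is the identity near a point is the
identity -/
theorem identity_of_finite_order [T2Space M] [PreconnectedSpace M] {φ : M → M}
    (hφ : ContMDiff (𝓡 3) (𝓡 3) ∞ φ) {k : ℕ} (hk : 0 < k) (hφk : ∀ x, φ^[k] x = x)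
    (hne : ∃ x₀, ∀ᶠ x in 𝓝 x₀, φ x = x) (x : M) : φ x = x := by
  set A : Set M := {x | ∀ᶠ y in 𝓝 x, φ y = y} with hA
  have hAo : IsOpen A := by
    rw [isOpen_iff_mem_nhds]
    intro x hx
    exact hx.eventually_nhds
  have hAfix : A ⊆ {x | φ x = x} := fun x hx => hx.self_of_nhds
  have hfc : IsClosed {x | φ x = x} := isClosed_eq hφ.continuous continuous_id
  have hAc : IsClosed A := by
    refine isClosed_of_closure_subset fun z hzcl => ?_
    have hz : φ z = z := closure_minimal hAfix hfc hzcl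
    set c := chartAt E3 z with hc
    have hzs : z ∈ c.source := mem_chart_source E3 z
    -- the average of the iterates
    set ψ : E3 → E3 := fun y => ∑ j ∈ Finset.range k, (1 / (k : ℝ)) • chIter φ z j y with hψ
    have hkr : (k : ℝ) ≠ 0 := by exact_mod_cast hk.ne'
    have hstr : HasStrictFDerivAt ψ ((ContinuousLinearEquiv.refl ℝ E3 : E3 ≃L[ℝ] E3) : E3 →L[ℝ] E3)
        (c z) := by
      have h1 : ∀ j ∈ Finset.range k, HasStrictFDerivAt (fun y => (1 / (k : ℝ)) • chIter φ z j y)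
          ((1 / (k : ℝ)) • ContinuousLinearMap.id ℝ E3) (c z) := by
        intro j _
        have h2 := (chIter_smooth hφ hz j).hasStrictFDerivAt (by simp)
        rw [chIter_fderiv hφ hz hzcl j] at h2
        exact h2.const_smul (1 / (k : ℝ))
      have h3 := HasStrictFDerivAt.fun_sum h1
      have h4 : ∑ _j ∈ Finset.range k, ((1 / (k : ℝ)) • ContinuousLinearMap.id ℝ E3) =
          ((ContinuousLinearEquiv.refl ℝ E3 : E3 ≃L[ℝ] E3) : E3 →L[ℝ] E3) := by
        rw [Finset.sum_const, Finset.card_range, ← Nat.cast_smul_eq_nsmul ℝ, smul_smul,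
          mul_one_div_cancel hkr, one_smul]
        rfl
      rw [h4] at h3
      exact h3
    set Ψ := hstr.toOpenPartialHomeomorph ψ with hΨ
    have hΨs : Ψ.source ∈ 𝓝 (c z) := Ψ.open_source.mem_nhds hstr.mem_toOpenPartialHomeomorph_source
    have hΨc : (Ψ : E3 → E3) = ψ := hstr.toOpenPartialHomeomorph_coe
    have hcz : ContinuousAt c z := c.continuousAt hzs
    have hcφ : ContinuousAt (fun x => c (φ x)) z := by
      have h1 : ContinuousAt c (φ z) := by rw [hz]; exact hcz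
      exact ContinuousAt.comp (f := φ) h1 hφ.continuous.continuousAt
    have hczφ : c (φ z) = c z := by rw [hz]
    have e1 : ∀ᶠ x in 𝓝 z, c x ∈ Ψ.source := hcz hΨs
    have e2 : ∀ᶠ x in 𝓝 z, c (φ x) ∈ Ψ.source := by
      have : Ψ.source ∈ 𝓝 (c (φ z)) := by rw [hczφ]; exact hΨs
      exact hcφ this
    have e3 : ∀ᶠ x in 𝓝 z, x ∈ c.source := c.open_source.mem_nhds hzs
    have e4 : ∀ᶠ x in 𝓝 z, φ x ∈ c.source := by
      have : c.source ∈ 𝓝 (φ z) := by rw [hz]; exact c.open_source.mem_nhds hzs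
      exact hφ.continuous.continuousAt this
    show ∀ᶠ x in 𝓝 z, φ x = x
    filter_upwards [e1, e2, e3, e4] with x h1 h2 h3 h4
    have hshift : ∀ j, chIter φ z j (c (φ x)) = chIter φ z (j + 1) (c x) := by
      intro j
      unfold chIter
      rw [c.left_inv h4, c.left_inv h3, Function.iterate_succ, Function.comp_apply]
    have h0k : chIter φ z 0 (c x) = chIter φ z k (c x) := by
      unfold chIter
      rw [c.left_inv h3, hφk x]
      rfl
    have hψeq : ψ (c (φ x)) = ψ (c x) := by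
      simp only [hψ]
      simp only [hshift]
      have h5 := Finset.sum_range_succ (fun j => (1 / (k : ℝ)) • chIter φ z j (c x)) k
      have h6 := Finset.sum_range_succ' (fun j => (1 / (k : ℝ)) • chIter φ z j (c x)) k
      rw [h5, h0k] at h6
      exact (add_right_cancel h6).symm
    have h7 : c (φ x) = c x := by
      refine Ψ.injOn h2 h1 ?_
      rw [hΨc]
      exact hψeq
    exact c.injOn h4 h3 h7
  obtain ⟨x₀, hx₀⟩ := hne
  have huniv : A = univ := IsClopen.eq_univ ⟨hAc, hAo⟩ ⟨x₀, hx₀⟩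
  exact hAfix (by rw [huniv]; trivial)

end M

open KCommon in
/-- the least common period is at most every bound of the periods -/
theorem common_le {M : Type*} [TopologicalSpace M] [ChartedSpace E3 M] [IsManifold (𝓡 3) ∞ M]
    [T2Space M] [CompactSpace M] [ConnectedSpace M] (Fl : ℝ → M → M)
    (hFl : ContMDiff (𝓘(ℝ, ℝ).prod (𝓡 3)) (𝓡 3) ∞ (fun p : ℝ × M => Fl p.1 p.2))
    (hFl0 : ∀ x, Fl 0 x = x) (hFla : ∀ s t x, Fl (s + t) x = Fl s (Fl t x)) {m C : ℝ} (hm : 0 < m)
    (hshort : ∀ (x : M) (T : ℝ), 0 < T → T < m → Fl T x ≠ x)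
    (hper : ∀ x : M, ∃ T : ℝ, 0 < T ∧ T ≤ C ∧ Fl T x = x)
    (hcom : ∃ τ : ℝ, 0 < τ ∧ ∀ x, Fl τ x = x) : ∃ T : ℝ, 0 < T ∧ T ≤ C ∧ ∀ x, Fl T x = x := by
  obtain ⟨x₁⟩ : Nonempty M := inferInstance
  have hcont : ∀ t, Continuous (Fl t) := fun t => by
    have h1 : Continuous (fun x : M => ((t, x) : ℝ × M)) := by fun_prop
    exact hFl.continuous.comp h1
  have hsm : ∀ t, ContMDiff (𝓡 3) (𝓡 3) ∞ (Fl t) := fun t => by
    have h4 : ContMDiff (𝓡 3) (𝓘(ℝ, ℝ).prod (𝓡 3)) ∞ (fun x : M => ((t, x) : ℝ × M)) :=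
      contMDiff_const.prodMk contMDiff_id
    exact hFl.comp h4
  -- the group of common periods
  let G : AddSubgroup ℝ :=
    { carrier := {t | ∀ x, Fl t x = x}
      add_mem' := by
        intro a b ha hb x
        rw [hFla, hb x, ha x]
      zero_mem' := hFl0
      neg_mem' := by
        intro a ha x
        have h1 : Fl (-a) (Fl a x) = x := by rw [← hFla, neg_add_cancel, hFl0]
        rwa [ha x] at h1 }
  have hG : ∀ t, t ∈ G ↔ ∀ x, Fl t x = x := fun t => Iff.rfl
  obtain ⟨b, hb⟩ := AddSubgroup.cyclic_of_isolated_zero (H := G) hm (by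
    rw [Set.disjoint_left]
    intro t ht htm
    exact hshort x₁ t htm.1 htm.2 (ht x₁))
  have hmem : ∀ t, t ∈ G ↔ ∃ k : ℤ, t = k * b := by
    intro t
    have h1 : t ∈ G ↔ t ∈ AddSubgroup.closure {b} := by rw [hb]
    rw [AddSubgroup.mem_closure_singleton] at h1
    rw [h1]
    constructor
    · rintro ⟨k, hk⟩
      exact ⟨k, by rw [← hk, zsmul_eq_mul]⟩
    · rintro ⟨k, hk⟩
      exact ⟨k, by rw [hk, zsmul_eq_mul]⟩
  have hb0 : b ≠ 0 := by
    rintro rfl
    obtain ⟨τ, hτ, hτx⟩ := hcom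
    obtain ⟨k, hk⟩ := (hmem τ).1 hτx
    rw [mul_zero] at hk
    exact hτ.ne' hk
  set T₀ := |b| with hT₀
  have hT₀0 : 0 < T₀ := abs_pos.2 hb0
  have hT₀G : ∀ x, Fl T₀ x = x := by
    rw [← hG, hmem]
    rcases abs_choice b with h | h
    · exact ⟨1, by rw [hT₀, h]; push_cast; ring⟩
    · exact ⟨-1, by rw [hT₀, h]; push_cast; ring⟩
  have hT₀min : ∀ t, 0 < t → (∀ x, Fl t x = x) → T₀ ≤ t := by
    intro t ht htx
    obtain ⟨k, hk⟩ := (hmem t).1 htx
    have hk0 : k ≠ 0 := by
      rintro rfl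
      rw [Int.cast_zero, zero_mul] at hk
      exact ht.ne' hk
    have h2 : |t| = |(k : ℝ)| * |b| := by rw [hk, abs_mul]
    rw [abs_of_pos ht] at h2
    have h3 : (1 : ℝ) ≤ |(k : ℝ)| := by
      have : (1 : ℤ) ≤ |k| := Int.one_le_abs hk0
      exact_mod_cast this
    rw [h2]
    nlinarith
  by_cases hTC : T₀ ≤ C
  · exact ⟨T₀, hT₀0, hTC, hT₀G⟩
  exfalso
  push Not at hTC
  -- every point is fixed by some `Fl (T₀ / j)`, `j ≥ 2`
  have hcov : ⋃ j : ℕ, {x : M | Fl (T₀ / ((j : ℝ) + 2)) x = x} = univ := by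
    refine eq_univ_of_forall fun x => ?_
    obtain ⟨T, hT, hTC', hTx⟩ := hper x
    obtain ⟨p, hp, hpx, hmin⟩ := exists_min hFl0 hFla hm hshort hT hTx
    obtain ⟨i, hi, hiT⟩ := hmin T hT hTx
    obtain ⟨j, hj, hjT⟩ := hmin T₀ hT₀0 (hT₀G x)
    have hpC : p ≤ C := by
      have : (1 : ℝ) ≤ i := by exact_mod_cast hi
      nlinarith
    have hj2 : 2 ≤ j := by
      by_contra hcon
      have hj1 : j = 1 := by omega
      rw [hj1, Nat.cast_one, one_mul] at hjT
      linarith
    refine mem_iUnion.2 ⟨j - 2, ?_⟩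
    show Fl (T₀ / (((j - 2 : ℕ) : ℝ) + 2)) x = x
    have e : (((j - 2 : ℕ) : ℝ) + 2) = j := by
      rw [Nat.cast_sub hj2]; push_cast; ring
    have hj0 : (j : ℝ) ≠ 0 := by
      have : (0 : ℝ) < j := by exact_mod_cast hj
      exact this.ne'
    rw [e, hjT, mul_div_cancel_left₀ p hj0]
    exact hpx
  obtain ⟨j, x₀, hx₀⟩ := nonempty_interior_of_iUnion_of_closed
    (fun j : ℕ => isClosed_eq (hcont (T₀ / ((j : ℝ) + 2))) continuous_id) hcov
  have hj0 : (0 : ℝ) < (j : ℝ) + 2 := by positivity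
  have hall := identity_of_finite_order (hsm (T₀ / ((j : ℝ) + 2))) (k := j + 2) (by omega)
    (fun x => ?_) ⟨x₀, mem_interior_iff_mem_nhds.1 hx₀⟩
  · have h1 := hT₀min _ (div_pos hT₀0 hj0) hall
    rw [le_div_iff₀ hj0] at h1
    have : (0 : ℝ) ≤ j := Nat.cast_nonneg j
    nlinarith
  · have hit : ∀ (n : ℕ) (t : ℝ) (x : M), (Fl t)^[n] x = Fl (n * t) x := by
      intro n t x
      induction n with
      | zero => simp [hFl0]
      | succ n ih =>
        rw [Function.iterate_succ_apply', ih, ← hFla]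
        congr 1
        push_cast; ring
    rw [hit]
    have e : (((j + 2 : ℕ) : ℝ)) * (T₀ / ((j : ℝ) + 2)) = T₀ := by
      push_cast
      field_simp
    rw [e]
    exact hT₀G x

end Pool.Agent.SRGap
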