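import Pool.Agent.Work.MP_188050_an.Defs

/-!
# MP_188050_an, cell SR: module K13 (pure topology; the strengthened gap theorem: common period)
-/

open Set MeasureTheory Filter Topology

namespace Pool.Agent.SRGap

namespace KCommon

variable {M : Type*} {Fl : ℝ → M → M}

theorem nsmul_period (hFl0 : ∀ x, Fl 0 x = x) (hFla : ∀ s t x, Fl (s + t) x = Fl s (Fl t x))
    {T : ℝ} {x : M} (h : Fl T x = x) (n : ℕ) : Fl (n * T) x = x := by
  induction n with
  | zero => simpa using hFl0 x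
  | succ n ih =>
    rw [show ((n + 1 : ℕ) : ℝ) * T = n * T + T by push_cast; ring, hFla, h, ih]

/-- the group of periods of a point -/
def per (hFl0 : ∀ x, Fl 0 x = x) (hFla : ∀ s t x, Fl (s + t) x = Fl s (Fl t x)) (x : M) :
    AddSubgroup ℝ where
  carrier := {t | Fl t x = x}
  add_mem' := by
    intro a b ha hb
    show Fl (a + b) x = x
    rw [hFla, show Fl b x = x from hb]
    exact ha
  zero_mem' := hFl0 x
  neg_mem' := by
    intro a ha
    show Fl (-a) x = x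
    have h1 : Fl (-a) (Fl a x) = x := by rw [← hFla, neg_add_cancel, hFl0]
    rwa [show Fl a x = x from ha] at h1

theorem exists_min (hFl0 : ∀ x, Fl 0 x = x) (hFla : ∀ s t x, Fl (s + t) x = Fl s (Fl t x))
    {m : ℝ} (hm : 0 < m) (hshort : ∀ (x : M) (T : ℝ), 0 < T → T < m → Fl T x ≠ x) {x : M}
    {T : ℝ} (hT : 0 < T) (hTx : Fl T x = x) :
    ∃ p : ℝ, 0 < p ∧ Fl p x = x ∧ ∀ t, 0 < t → Fl t x = x → ∃ j : ℕ, 0 < j ∧ t = j * p := by
  obtain ⟨b, hb⟩ := AddSubgroup.cyclic_of_isolated_zero (H := per hFl0 hFla x) hm (by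
    rw [Set.disjoint_left]
    intro t ht htm
    exact hshort x t htm.1 htm.2 ht)
  have hmem : ∀ t, Fl t x = x ↔ ∃ k : ℤ, t = k * b := by
    intro t
    have h1 : t ∈ per hFl0 hFla x ↔ t ∈ AddSubgroup.closure {b} := by rw [hb]
    rw [AddSubgroup.mem_closure_singleton] at h1
    rw [show (Fl t x = x) = (t ∈ per hFl0 hFla x) from rfl, h1]
    constructor
    · rintro ⟨k, hk⟩
      exact ⟨k, by rw [← hk, zsmul_eq_mul]⟩
    · rintro ⟨k, hk⟩
      exact ⟨k, by rw [hk, zsmul_eq_mul]⟩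
  have hb0 : b ≠ 0 := by
    rintro rfl
    obtain ⟨k, hk⟩ := (hmem T).mp hTx
    rw [mul_zero] at hk
    exact hT.ne' hk
  refine ⟨|b|, abs_pos.mpr hb0, ?_, fun t ht htx => ?_⟩
  · rw [hmem]
    rcases abs_choice b with h | h
    · exact ⟨1, by rw [h]; push_cast; ring⟩
    · exact ⟨-1, by rw [h]; push_cast; ring⟩
  · obtain ⟨k, hk⟩ := (hmem t).mp htx
    have hk0 : k ≠ 0 := by
      rintro rfl
      rw [Int.cast_zero, zero_mul] at hk
      exact ht.ne' hk
    refine ⟨k.natAbs, Int.natAbs_pos.mpr hk0, ?_⟩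
    have h2 : |t| = |(k : ℝ)| * |b| := by rw [hk, abs_mul]
    rw [abs_of_pos ht] at h2
    rw [h2, Nat.cast_natAbs, Int.cast_abs]

end KCommon

open KCommon

/-- at EVERY point some multiple `P` of the minimal period is approximated by periods of the nearby points -/
theorem near_multiple {M : Type*} [TopologicalSpace M] [T2Space M] (Fl : ℝ → M → M)
    (hc : Continuous fun p : ℝ × M => Fl p.1 p.2) (hFl0 : ∀ x, Fl 0 x = x)
    (hFla : ∀ s t x, Fl (s + t) x = Fl s (Fl t x)) {m C : ℝ} (hm : 0 < m)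
    (hshort : ∀ (x : M) (T : ℝ), 0 < T → T < m → Fl T x ≠ x)
    (hper : ∀ x : M, ∃ T : ℝ, 0 < T ∧ T ≤ C ∧ Fl T x = x) (x₀ : M) :
    ∃ P : ℝ, 0 < P ∧ Fl P x₀ = x₀ ∧
      ∀ ε > 0, ∀ᶠ x in 𝓝 x₀, ∃ T : ℝ, |T - P| < ε ∧ Fl T x = x := by
  obtain ⟨T₀, hT₀, -, hT₀x⟩ := hper x₀
  obtain ⟨p, hp, hpx, hmin⟩ := exists_min hFl0 hFla hm hshort hT₀ hT₀x
  obtain ⟨N, hN⟩ := exists_nat_ge (C / p)
  have hNp : C ≤ N * p := by
    rwa [div_le_iff₀ hp] at hN
  have hfac : (0 : ℝ) < N.factorial := by exact_mod_cast N.factorial_pos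
  refine ⟨N.factorial * p, mul_pos hfac hp, nsmul_period hFl0 hFla hpx _, fun ε hε => ?_⟩
  set δ := ε / N.factorial with hδ
  have hδ0 : 0 < δ := div_pos hε hfac
  set K : Set ℝ := Icc m C ∩ {t | ∀ j ∈ Finset.Icc 1 N, δ ≤ |t - j * p|} with hK
  have hKc : IsCompact K := by
    refine isCompact_Icc.inter_right ?_
    have : {t : ℝ | ∀ j ∈ Finset.Icc 1 N, δ ≤ |t - j * p|} =
        ⋂ j ∈ Finset.Icc 1 N, {t : ℝ | δ ≤ |t - j * p|} := by
      ext t
      simp
    rw [this]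
    refine isClosed_biInter fun j _ => isClosed_le continuous_const (by fun_prop)
  -- the set of the points with a period in `K`
  have hA : IsClosed {x : M | ∃ t ∈ K, Fl t x = x} := by
    have : CompactSpace K := isCompact_iff_compactSpace.mp hKc
    have h1 : IsClosed {q : K × M | Fl q.1 q.2 = q.2} := by
      refine isClosed_eq ?_ continuous_snd
      exact hc.comp ((continuous_subtype_val.comp continuous_fst).prodMk continuous_snd)
    have h2 := isClosedMap_snd_of_compactSpace (X := K) (Y := M) _ h1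
    convert h2 using 1
    ext x
    constructor
    · rintro ⟨t, ht, hx⟩
      exact ⟨(⟨t, ht⟩, x), hx, rfl⟩
    · rintro ⟨⟨t, y⟩, hy, rfl⟩
      exact ⟨t, t.2, hy⟩
  have hx₀ : x₀ ∉ {x : M | ∃ t ∈ K, Fl t x = x} := by
    rintro ⟨t, ht, hx⟩
    have ht0 : 0 < t := lt_of_lt_of_le hm ht.1.1
    obtain ⟨j, hj, hjt⟩ := hmin t ht0 hx
    have hjN : j ≤ N := by
      have h3 : (j : ℝ) * p ≤ N * p := by
        rw [← hjt]
        exact ht.1.2.trans hNp
      exact_mod_cast le_of_mul_le_mul_right h3 hp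
    have h4 := ht.2 j (Finset.mem_Icc.mpr ⟨hj, hjN⟩)
    rw [hjt, sub_self, abs_zero] at h4
    exact absurd hδ0 (not_lt.mpr h4)
  filter_upwards [hA.isOpen_compl.mem_nhds hx₀] with x hx
  obtain ⟨T', hT', hT'C, hT'x⟩ := hper x
  have hT'm : m ≤ T' := by
    by_contra hcon
    exact hshort x T' hT' (not_le.mp hcon) hT'x
  have hnK : T' ∉ K := fun h => hx ⟨T', h, hT'x⟩
  obtain ⟨j, hj, hjT⟩ : ∃ j ∈ Finset.Icc 1 N, |T' - j * p| < δ := by
    by_contra hcon
    push Not at hcon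
    exact hnK ⟨⟨hT'm, hT'C⟩, hcon⟩
  rw [Finset.mem_Icc] at hj
  obtain ⟨q, hq⟩ := Nat.dvd_factorial (by omega : 0 < j) hj.2
  have hj0 : (0 : ℝ) < j := by exact_mod_cast (by omega : 0 < j)
  have hqj : (N.factorial : ℝ) = j * q := by exact_mod_cast hq
  have hq0 : (0 : ℝ) < q := by
    rw [hqj] at hfac
    exact (pos_iff_pos_of_mul_pos hfac).mp hj0
  refine ⟨q * T', ?_, nsmul_period hFl0 hFla hT'x q⟩
  have e1 : (q : ℝ) * T' - N.factorial * p = q * (T' - j * p) := by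
    rw [hqj]
    ring
  rw [e1, abs_mul, abs_of_pos hq0]
  have h5 : (q : ℝ) ≤ N.factorial := by
    rw [hqj]
    have : (1 : ℝ) ≤ j := by exact_mod_cast hj.1
    nlinarith
  calc (q : ℝ) * |T' - j * p| < q * δ := mul_lt_mul_of_pos_left hjT hq0
    _ ≤ N.factorial * δ := mul_le_mul_of_nonneg_right h5 hδ0.le
    _ = ε := by
      rw [hδ]
      field_simp

/-- local periods give a common period on a compact connected space -/
theorem common_of_local {M : Type*} [TopologicalSpace M] [T2Space M] [CompactSpace M] [ConnectedSpace M]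
    (Fl : ℝ → M → M) (hc : Continuous fun p : ℝ × M => Fl p.1 p.2) (hFl0 : ∀ x, Fl 0 x = x)
    (hFla : ∀ s t x, Fl (s + t) x = Fl s (Fl t x)) {m : ℝ} (hm : 0 < m)
    (hshort : ∀ (x : M) (T : ℝ), 0 < T → T < m → Fl T x ≠ x)
    (hloc : ∀ x₀ : M, ∃ P : ℝ, 0 < P ∧ ∀ᶠ x in 𝓝 x₀, Fl P x = x) :
    ∃ τ : ℝ, 0 < τ ∧ ∀ x, Fl τ x = x := by
  have _ := hc
  obtain ⟨x₀⟩ : Nonempty M := inferInstance
  obtain ⟨P, hP, hPx⟩ := hloc x₀
  set B : Set M := {x | ∃ k : ℕ, 0 < k ∧ ∀ᶠ y in 𝓝 x, Fl (k * P) y = y} with hB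
  have hBo : IsOpen B := by
    rw [isOpen_iff_mem_nhds]
    rintro x ⟨k, hk, hx⟩
    filter_upwards [hx.eventually_nhds] with y hy
    exact ⟨k, hk, hy⟩
  have hBc : IsClosed B := by
    refine isClosed_of_closure_subset fun x hx => ?_
    obtain ⟨Q, hQ, hQx⟩ := hloc x
    obtain ⟨y, hyQ, k, hk, hy⟩ := mem_closure_iff_nhds.mp hx _ hQx
    have hyk : Fl (k * P) y = y := hy.self_of_nhds
    have hyQ' : Fl Q y = y := hyQ
    have hk0 : (0 : ℝ) < k := by exact_mod_cast hk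
    obtain ⟨p, hp, -, hmin⟩ := exists_min hFl0 hFla hm hshort hQ hyQ'
    obtain ⟨i, hi, hiQ⟩ := hmin Q hQ hyQ'
    obtain ⟨j, hj, hjP⟩ := hmin (k * P) (mul_pos hk0 hP) hyk
    refine ⟨i * k, Nat.mul_pos hi hk, ?_⟩
    filter_upwards [hQx] with z hz
    have h1 := nsmul_period hFl0 hFla hz j
    have e1 : ((i * k : ℕ) : ℝ) * P = j * Q := by
      push_cast
      rw [mul_assoc, hjP, hiQ]
      ring
    rw [e1]
    exact h1
  have hBu : B = univ := IsClopen.eq_univ ⟨hBc, hBo⟩ ⟨x₀, 1, one_pos, by simpa using hPx⟩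
  obtain ⟨k, hk, hkx⟩ : ∃ k : ℕ, 0 < k ∧ ∀ y ∈ (univ : Set M), Fl (k * P) y = y := by
    refine isCompact_univ.induction_on (p := fun S => ∃ k : ℕ, 0 < k ∧ ∀ y ∈ S, Fl (k * P) y = y)
      ⟨1, one_pos, by simp⟩ ?_ ?_ ?_
    · rintro S S' hS ⟨k, hk, h⟩
      exact ⟨k, hk, fun y hy => h y (hS hy)⟩
    · rintro S S' ⟨k, hk, h⟩ ⟨k', hk', h'⟩
      refine ⟨k * k', Nat.mul_pos hk hk', fun y hy => ?_⟩
      rcases hy with hy | hy
      · have e1 : ((k * k' : ℕ) : ℝ) * P = k' * (k * P) := by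
          push_cast
          ring
        rw [e1]
        exact nsmul_period hFl0 hFla (h y hy) k'
      · have e1 : ((k * k' : ℕ) : ℝ) * P = k * (k' * P) := by
          push_cast
          ring
        rw [e1]
        exact nsmul_period hFl0 hFla (h' y hy) k
    · intro x _
      obtain ⟨k, hk, hx⟩ : x ∈ B := by rw [hBu]; trivial
      exact ⟨_, mem_nhdsWithin_of_mem_nhds hx, k, hk, fun y hy => hy⟩
  exact ⟨k * P, mul_pos (by exact_mod_cast hk) hP, fun x => hkx x trivial⟩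

end Pool.Agent.SRGap
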