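import Pool.Agent.Work.MP_188050_an.Tube

/-!
# MP_188050_an, cell SR, module 5: operator identities on the tube
-/

open Set MeasureTheory Filter Topology VectorField
open scoped Manifold ContDiff

namespace Pool.Agent.SRGap

/-! All auxiliary lemmas are in the namespace `Oper`. -/

namespace Oper

/-! ### Smoothness -/

section smooth
variable {F : Type*} [NormedAddCommGroup F] [NormedSpace ℝ F]

theorem dir_smooth {V : T3 → T3} {f : T3 → F} (hV : ContDiff ℝ ∞ V) (hf : ContDiff ℝ ∞ f) :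
    ContDiff ℝ ∞ (dir V f) := by
  unfold dir
  exact (hf.fderiv_right (m := ∞) (by simp)).clm_apply hV

theorem pd0_smooth {f : T3 → F} (hf : ContDiff ℝ ∞ f) : ContDiff ℝ ∞ (pd0 f) :=
  dir_smooth (V := fun _ => (1, 0, 0)) contDiff_const hf

theorem pd1_smooth {f : T3 → F} (hf : ContDiff ℝ ∞ f) : ContDiff ℝ ∞ (pd1 f) :=
  dir_smooth (V := fun _ => (0, 1, 0)) contDiff_const hf

theorem pd2_smooth {f : T3 → F} (hf : ContDiff ℝ ∞ f) : ContDiff ℝ ∞ (pd2 f) :=
  dir_smooth (V := fun _ => (0, 0, 1)) contDiff_const hf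

theorem op_smooth {w : CVF} (hw : w.Smooth) {f : T3 → ℂ} (hf : ContDiff ℝ ∞ f) :
    ContDiff ℝ ∞ (w.op f) := by
  unfold CVF.op
  exact ((hw.s.mul (pd0_smooth hf)).add (hw.x.mul (pd1_smooth hf))).add
    (hw.y.mul (pd2_smooth hf))

theorem conj_smooth {w : CVF} (hw : w.Smooth) : w.conj.Smooth :=
  ⟨(Complex.conjCLE : ℂ ≃L[ℝ] ℂ).contDiff.comp hw.s,
    (Complex.conjCLE : ℂ ≃L[ℝ] ℂ).contDiff.comp hw.x,
    (Complex.conjCLE : ℂ ≃L[ℝ] ℂ).contDiff.comp hw.y⟩

theorem ofReal_smooth {f : T3 → ℝ} (hf : ContDiff ℝ ∞ f) : ContDiff ℝ ∞ (fun p => (f p : ℂ)) :=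
  Complex.ofRealCLM.contDiff.comp hf

end smooth

section

variable (τ : Tube)

theorem f₁_smooth3 : ContDiff ℝ ∞ (fun p : T3 => τ.f₁ p.2) := τ.smooth_f₁.comp contDiff_snd
theorem f₂_smooth3 : ContDiff ℝ ∞ (fun p : T3 => τ.f₂ p.2) := τ.smooth_f₂.comp contDiff_snd

theorem X_smooth : ContDiff ℝ ∞ τ.X :=
  ((τ.smooth_a.mul (Oper.f₁_smooth3 τ)).add (τ.smooth_c.mul (Oper.f₂_smooth3 τ))).prodMk
    (τ.smooth_a.prodMk τ.smooth_c)

theorem Y_smooth : ContDiff ℝ ∞ τ.Y :=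
  (τ.smooth_d.mul (Oper.f₂_smooth3 τ)).prodMk (contDiff_const.prodMk τ.smooth_d)

theorem div_smooth {V : T3 → T3} (hV : ContDiff ℝ ∞ V) : ContDiff ℝ ∞ (τ.div V) := by
  unfold Tube.div
  refine ContDiff.div ?_ τ.smooth_ρ (fun p => (τ.ρ_pos p).ne')
  exact ((pd0_smooth (τ.smooth_ρ.mul (contDiff_fst.comp hV))).add
    (pd1_smooth (τ.smooth_ρ.mul (contDiff_fst.comp (contDiff_snd.comp hV))))).add
    (pd2_smooth (τ.smooth_ρ.mul (contDiff_snd.comp (contDiff_snd.comp hV))))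

theorem alpha_smooth : ContDiff ℝ ∞ τ.alpha := by
  unfold Tube.alpha
  exact (dir_smooth (Oper.Y_smooth τ) τ.smooth_a).neg.div τ.smooth_a (fun p => (τ.a_pos p).ne')

theorem beta_smooth : ContDiff ℝ ∞ τ.beta := by
  unfold Tube.beta
  exact (((dir_smooth (Oper.X_smooth τ) τ.smooth_d).sub (dir_smooth (Oper.Y_smooth τ) τ.smooth_c)).sub
    ((Oper.alpha_smooth τ).mul τ.smooth_c)).div τ.smooth_d (fun p => (τ.d_pos p).ne')

theorem w_smooth' : τ.w.Smooth := by
  refine ⟨?_, ?_, ?_⟩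
  · exact (ofReal_smooth ((τ.smooth_a.mul (Oper.f₁_smooth3 τ)).add (τ.smooth_c.mul (Oper.f₂_smooth3 τ)))).add
      (contDiff_const.mul (ofReal_smooth (τ.smooth_d.mul (Oper.f₂_smooth3 τ))))
  · exact ofReal_smooth τ.smooth_a
  · exact (ofReal_smooth τ.smooth_c).add (contDiff_const.mul (ofReal_smooth τ.smooth_d))

end

end Oper

open Oper

theorem Tube.mu_smooth (τ : Tube) : ContDiff ℝ ∞ τ.mu := by
  unfold Tube.mu
  exact ((ofReal_smooth ((Oper.div_smooth τ (Oper.X_smooth τ)).add (Oper.beta_smooth τ))).add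
    (contDiff_const.mul (ofReal_smooth ((Oper.div_smooth τ (Oper.Y_smooth τ)).sub (Oper.alpha_smooth τ))))).div_const 2

theorem Tube.nu_smooth (τ : Tube) : ContDiff ℝ ∞ τ.nu := by
  unfold Tube.nu
  exact ((ofReal_smooth ((Oper.beta_smooth τ).sub (Oper.div_smooth τ (Oper.X_smooth τ)))).add
    (contDiff_const.mul (ofReal_smooth ((Oper.div_smooth τ (Oper.Y_smooth τ)).add (Oper.alpha_smooth τ))))).div_const 2

theorem Tube.om_smooth (τ : Tube) : ContDiff ℝ ∞ τ.om := by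
  unfold Tube.om
  exact (op_smooth (conj_smooth (Oper.w_smooth' τ)) τ.mu_smooth).sub (τ.nu_smooth.mul τ.mu_smooth)

/-! ### Derivations -/

namespace Oper

section deriv
variable {F : Type*} [NormedAddCommGroup F] [NormedSpace ℝ F]

theorem dir_eq (V : T3 → T3) (f : T3 → F) (p : T3) :
    dir V f p = (V p).1 • pd0 f p + (V p).2.1 • pd1 f p + (V p).2.2 • pd2 f p := by
  have h : V p = (V p).1 • ((1, 0, 0) : T3) + (V p).2.1 • ((0, 1, 0) : T3) +
      (V p).2.2 • ((0, 0, 1) : T3) := by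
    ext <;> simp
  unfold dir pd0 pd1 pd2
  conv_lhs => rw [h]
  rw [map_add, map_add, map_smul, map_smul, map_smul]

theorem dir_add {V : T3 → T3} {f g : T3 → F} {p : T3} (hf : DifferentiableAt ℝ f p)
    (hg : DifferentiableAt ℝ g p) : dir V (fun q => f q + g q) p = dir V f p + dir V g p := by
  unfold dir
  rw [fderiv_fun_add hf hg]
  rfl

theorem dir_mul {V : T3 → T3} {f g : T3 → ℂ} {p : T3} (hf : DifferentiableAt ℝ f p)
    (hg : DifferentiableAt ℝ g p) :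
    dir V (fun q => f q * g q) p = f p * dir V g p + dir V f p * g p := by
  unfold dir
  rw [fderiv_fun_mul hf hg]
  simp [mul_comm]

theorem dir_const_mul {V : T3 → T3} {g : T3 → ℂ} {p : T3} (c : ℂ)
    (hg : DifferentiableAt ℝ g p) : dir V (fun q => c * g q) p = c * dir V g p := by
  have h := dir_mul (V := V) (f := fun _ => c) (differentiableAt_const c) hg
  rw [h]
  unfold dir
  simp

end deriv

theorem op_add {w : CVF} {f g : T3 → ℂ} {p : T3} (hf : DifferentiableAt ℝ f p)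
    (hg : DifferentiableAt ℝ g p) : w.op (fun q => f q + g q) p = w.op f p + w.op g p := by
  unfold CVF.op
  have h0 := dir_add (V := fun _ => (1, 0, 0)) hf hg
  have h1 := dir_add (V := fun _ => (0, 1, 0)) hf hg
  have h2 := dir_add (V := fun _ => (0, 0, 1)) hf hg
  change pd0 _ p = pd0 f p + pd0 g p at h0
  change pd1 _ p = pd1 f p + pd1 g p at h1
  change pd2 _ p = pd2 f p + pd2 g p at h2
  rw [h0, h1, h2]
  ring

theorem pd0_mul {f g : T3 → ℂ} {p : T3} (hf : DifferentiableAt ℝ f p)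
    (hg : DifferentiableAt ℝ g p) : pd0 (fun q => f q * g q) p = f p * pd0 g p + pd0 f p * g p :=
  dir_mul (V := fun _ => (1, 0, 0)) hf hg

theorem op_mul {w : CVF} {f g : T3 → ℂ} {p : T3} (hf : DifferentiableAt ℝ f p)
    (hg : DifferentiableAt ℝ g p) :
    w.op (fun q => f q * g q) p = f p * w.op g p + w.op f p * g p := by
  unfold CVF.op
  have h0 := dir_mul (V := fun _ => (1, 0, 0)) hf hg
  have h1 := dir_mul (V := fun _ => (0, 1, 0)) hf hg
  have h2 := dir_mul (V := fun _ => (0, 0, 1)) hf hg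
  change pd0 _ p = f p * pd0 g p + pd0 f p * g p at h0
  change pd1 _ p = f p * pd1 g p + pd1 f p * g p at h1
  change pd2 _ p = f p * pd2 g p + pd2 f p * g p at h2
  rw [h0, h1, h2]
  ring

theorem op_const_mul {w : CVF} {g : T3 → ℂ} {p : T3} (c : ℂ) (hg : DifferentiableAt ℝ g p) :
    w.op (fun q => c * g q) p = c * w.op g p := by
  unfold CVF.op
  have h0 := dir_const_mul (V := fun _ => (1, 0, 0)) c hg
  have h1 := dir_const_mul (V := fun _ => (0, 1, 0)) c hg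
  have h2 := dir_const_mul (V := fun _ => (0, 0, 1)) c hg
  change pd0 _ p = c * pd0 g p at h0
  change pd1 _ p = c * pd1 g p at h1
  change pd2 _ p = c * pd2 g p at h2
  rw [h0, h1, h2]
  ring

theorem dir_exp {V : T3 → T3} {Φ : T3 → ℂ} {p : T3} (c : ℂ) (hΦ : DifferentiableAt ℝ Φ p) :
    dir V (fun q => Complex.exp (c * Φ q)) p = Complex.exp (c * Φ p) * (c * dir V Φ p) := by
  have h1 : DifferentiableAt ℝ (fun q => c * Φ q) p := hΦ.const_mul c
  have h2 := (h1.hasFDerivAt.cexp).fderiv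
  unfold dir
  rw [h2]
  have h3 := dir_const_mul (V := V) c hΦ
  unfold dir at h3
  simp only [smul_apply, smul_eq_mul]
  rw [h3]

theorem op_exp {w : CVF} {Φ : T3 → ℂ} {p : T3} (c : ℂ) (hΦ : DifferentiableAt ℝ Φ p) :
    w.op (fun q => Complex.exp (c * Φ q)) p = Complex.exp (c * Φ p) * (c * w.op Φ p) := by
  unfold CVF.op
  have h0 := dir_exp (V := fun _ => (1, 0, 0)) c hΦ
  have h1 := dir_exp (V := fun _ => (0, 1, 0)) c hΦ
  have h2 := dir_exp (V := fun _ => (0, 0, 1)) c hΦ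
  change pd0 _ p = Complex.exp (c * Φ p) * (c * pd0 Φ p) at h0
  change pd1 _ p = Complex.exp (c * Φ p) * (c * pd1 Φ p) at h1
  change pd2 _ p = Complex.exp (c * Φ p) * (c * pd2 Φ p) at h2
  rw [h0, h1, h2]
  ring

end Oper

/-- conjugation by `exp (i t Φ)` -/
theorem conj_formula (w : CVF) (m n om : T3 → ℂ) {Φ A : T3 → ℂ} (hw : w.Smooth) (hm : ContDiff ℝ ∞ m)
    (hΦ : ContDiff ℝ ∞ Φ) (hA : ContDiff ℝ ∞ A) (t : ℝ) (p : T3) :
    Wd w n (W1 w m (fun q => Complex.exp (Complex.I * t * Φ q) * A q)) p -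
        Complex.I * pd0 (fun q => Complex.exp (Complex.I * t * Φ q) * A q) p +
        om p * (Complex.exp (Complex.I * t * Φ p) * A p) -
        t * (Complex.exp (Complex.I * t * Φ p) * A p) =
      Complex.exp (Complex.I * t * Φ p) *
        ((t : ℂ) ^ 2 * c2 w Φ A p + t * c1 w m n Φ A p + c0 w m n om A p) := by
  have hdiff : ∀ {f : T3 → ℂ}, ContDiff ℝ ∞ f → ∀ q, DifferentiableAt ℝ f q :=
    fun hf q => (hf.differentiable (by simp)) q
  have hE : ContDiff ℝ ∞ (fun q => Complex.exp (Complex.I * t * Φ q)) :=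
    (contDiff_const.mul hΦ).cexp
  have hwΦ : ContDiff ℝ ∞ (w.op Φ) := op_smooth hw hΦ
  have hwA : ContDiff ℝ ∞ (w.op A) := op_smooth hw hA
  have hW1A : ContDiff ℝ ∞ (W1 w m A) := hwA.add (hm.mul hA)
  have hΦA : ContDiff ℝ ∞ (fun q => w.op Φ q * A q) := hwΦ.mul hA
  -- first order
  have e1 : W1 w m (fun q => Complex.exp (Complex.I * t * Φ q) * A q) =
      fun q => Complex.exp (Complex.I * t * Φ q) *
        (Complex.I * t * (w.op Φ q * A q) + W1 w m A q) := by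
    funext q
    unfold W1
    rw [op_mul (hdiff hE q) (hdiff hA q), op_exp _ (hdiff hΦ q)]
    ring
  have hB1 : ContDiff ℝ ∞ (fun q => Complex.I * t * (w.op Φ q * A q)) := contDiff_const.mul hΦA
  have hB : ContDiff ℝ ∞ (fun q => Complex.I * t * (w.op Φ q * A q) + W1 w m A q) := hB1.add hW1A
  have e2 : pd0 (fun q => Complex.exp (Complex.I * t * Φ q) * A q) p =
      Complex.exp (Complex.I * t * Φ p) * pd0 A p +
        Complex.exp (Complex.I * t * Φ p) * (Complex.I * t * pd0 Φ p) * A p := by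
    rw [pd0_mul (hdiff hE p) (hdiff hA p)]
    have h0 := dir_exp (V := fun _ => (1, 0, 0)) (Complex.I * t) (hdiff hΦ p)
    change pd0 _ p = Complex.exp (Complex.I * t * Φ p) * (Complex.I * t * pd0 Φ p) at h0
    rw [h0]
  rw [e1, e2]
  unfold Wd
  rw [op_mul (hdiff hE p) (hdiff hB p), op_exp _ (hdiff hΦ p), op_add (hdiff hB1 p) (hdiff hW1A p),
    op_const_mul _ (hdiff hΦA p)]
  unfold c2 c1 c0 Wd
  linear_combination (-(t : ℂ) * Complex.exp (Complex.I * t * Φ p) * A p * pd0 Φ p -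
    (t : ℂ) ^ 2 * Complex.exp (Complex.I * t * Φ p) * w.conj.op Φ p * w.op Φ p * A p) *
    Complex.I_sq

/-! ### The structure of `L` -/

namespace Oper

/-- the commutator of the vector fields of the tube -/
theorem comm_vec (τ : Tube) {U : Set T3} (hgood : τ.Good U) {p : T3} (hp : p ∈ U) :
    fderiv ℝ τ.Y p (τ.X p) - fderiv ℝ τ.X p (τ.Y p) =
      -((1, 0, 0) : T3) + τ.alpha p • τ.X p + τ.beta p • τ.Y p := by
  have ha : HasFDerivAt τ.a (fderiv ℝ τ.a p) p :=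
    (τ.smooth_a.differentiable (by simp) p).hasFDerivAt
  have hc : HasFDerivAt τ.c (fderiv ℝ τ.c p) p :=
    (τ.smooth_c.differentiable (by simp) p).hasFDerivAt
  have hd : HasFDerivAt τ.d (fderiv ℝ τ.d p) p :=
    (τ.smooth_d.differentiable (by simp) p).hasFDerivAt
  have hf1 : HasFDerivAt (fun q : T3 => τ.f₁ q.2)
      ((fderiv ℝ τ.f₁ p.2).comp (ContinuousLinearMap.snd ℝ ℝ (ℝ × ℝ))) p :=
    ((τ.smooth_f₁.differentiable (by simp) p.2).hasFDerivAt).comp p hasFDerivAt_snd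
  have hf2 : HasFDerivAt (fun q : T3 => τ.f₂ q.2)
      ((fderiv ℝ τ.f₂ p.2).comp (ContinuousLinearMap.snd ℝ ℝ (ℝ × ℝ))) p :=
    ((τ.smooth_f₂.differentiable (by simp) p.2).hasFDerivAt).comp p hasFDerivAt_snd
  have hX := ((ha.mul hf1).add (hc.mul hf2)).prodMk (ha.prodMk hc)
  have hY := (hd.mul hf2).prodMk ((hasFDerivAt_const (0 : ℝ) p).prodMk hd)
  have eX : fderiv ℝ τ.X p = _ := hX.fderiv
  have eY : fderiv ℝ τ.Y p = _ := hY.fderiv
  have hl1 : ∀ u v : ℝ, fderiv ℝ τ.f₁ p.2 (u, v) =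
      u * fderiv ℝ τ.f₁ p.2 (1, 0) + v * fderiv ℝ τ.f₁ p.2 (0, 1) := by
    intro u v
    have : ((u, v) : ℝ × ℝ) = u • ((1, 0) : ℝ × ℝ) + v • ((0, 1) : ℝ × ℝ) := by ext <;> simp
    rw [this, map_add, map_smul, map_smul, smul_eq_mul, smul_eq_mul]
  have hl2 : ∀ u v : ℝ, fderiv ℝ τ.f₂ p.2 (u, v) =
      u * fderiv ℝ τ.f₂ p.2 (1, 0) + v * fderiv ℝ τ.f₂ p.2 (0, 1) := by
    intro u v
    have : ((u, v) : ℝ × ℝ) = u • ((1, 0) : ℝ × ℝ) + v • ((0, 1) : ℝ × ℝ) := by ext <;> simp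
    rw [this, map_add, map_smul, map_smul, smul_eq_mul, smul_eq_mul]
  have halpha : τ.alpha p * τ.a p = -fderiv ℝ τ.a p (τ.Y p) := by
    have := (τ.a_pos p).ne'
    unfold Tube.alpha dir
    field_simp
  have hbeta : τ.beta p * τ.d p = fderiv ℝ τ.d p (τ.X p) - fderiv ℝ τ.c p (τ.Y p) -
      τ.alpha p * τ.c p := by
    have := (τ.d_pos p).ne'
    unfold Tube.beta dir
    field_simp
  have hg := hgood p hp
  rw [eX, eY]
  ext
  · simp only [Tube.X, Tube.Y] at halpha hbeta ⊢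
    simp
    rw [hl1 0 (τ.d p), hl2 (τ.a p) (τ.c p), hl2 0 (τ.d p)]
    linear_combination (-τ.f₁ p.2) * halpha - τ.f₂ p.2 * hbeta - hg
  · simp only [Tube.X, Tube.Y] at halpha hbeta ⊢
    simp
    linear_combination -halpha
  · simp only [Tube.X, Tube.Y] at halpha hbeta ⊢
    simp
    linear_combination -hbeta

/-- the commutator of the derivations -/
theorem comm (τ : Tube) {U : Set T3} (hgood : τ.Good U) {v : T3 → ℂ}
    (hv : ContDiff ℝ ∞ v) {p : T3} (hp : p ∈ U) :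
    dir τ.X (dir τ.Y v) p - dir τ.Y (dir τ.X v) p =
      -pd0 v p + (τ.alpha p : ℂ) * dir τ.X v p + (τ.beta p : ℂ) * dir τ.Y v p := by
  have hD : HasFDerivAt (fderiv ℝ v) (fderiv ℝ (fderiv ℝ v) p) p :=
    (((hv.fderiv_right (m := ∞) (by simp)).differentiable (by simp)) p).hasFDerivAt
  have hXd : HasFDerivAt τ.X (fderiv ℝ τ.X p) p :=
    ((Oper.X_smooth τ).differentiable (by simp) p).hasFDerivAt
  have hYd : HasFDerivAt τ.Y (fderiv ℝ τ.Y p) p :=
    ((Oper.Y_smooth τ).differentiable (by simp) p).hasFDerivAt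
  have h1 : dir τ.X (dir τ.Y v) p =
      fderiv ℝ (fderiv ℝ v) p (τ.X p) (τ.Y p) + fderiv ℝ v p (fderiv ℝ τ.Y p (τ.X p)) := by
    have := (hD.clm_apply hYd).fderiv
    unfold dir
    rw [this]
    simp [add_comm]
  have h2 : dir τ.Y (dir τ.X v) p =
      fderiv ℝ (fderiv ℝ v) p (τ.Y p) (τ.X p) + fderiv ℝ v p (fderiv ℝ τ.X p (τ.Y p)) := by
    have := (hD.clm_apply hXd).fderiv
    unfold dir
    rw [this]
    simp [add_comm]
  have hsymm : fderiv ℝ (fderiv ℝ v) p (τ.X p) (τ.Y p) =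
      fderiv ℝ (fderiv ℝ v) p (τ.Y p) (τ.X p) := by
    have h3 : IsSymmSndFDerivAt ℝ v p := by
      refine ContDiffAt.isSymmSndFDerivAt (n := ∞) hv.contDiffAt ?_
      simp only [minSmoothness_of_isRCLikeNormedField]
      exact ENat.LEInfty.out
    exact h3.eq _ _
  rw [h1, h2, hsymm]
  have h4 : fderiv ℝ (fderiv ℝ v) p (τ.Y p) (τ.X p) + fderiv ℝ v p (fderiv ℝ τ.Y p (τ.X p)) -
      (fderiv ℝ (fderiv ℝ v) p (τ.Y p) (τ.X p) + fderiv ℝ v p (fderiv ℝ τ.X p (τ.Y p))) =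
      fderiv ℝ v p (fderiv ℝ τ.Y p (τ.X p) - fderiv ℝ τ.X p (τ.Y p)) := by
    rw [map_sub]; ring
  rw [h4, comm_vec τ hgood hp, map_add, map_add, map_neg, map_smul, map_smul]
  unfold pd0 dir
  simp

theorem w_op (τ : Tube) (v : T3 → ℂ) (p : T3) :
    τ.w.op v p = dir τ.X v p + Complex.I * dir τ.Y v p := by
  rw [dir_eq, dir_eq]
  unfold CVF.op Tube.w Tube.X Tube.Y
  simp only [Complex.real_smul]
  push_cast
  ring

theorem w_conj_op (τ : Tube) (v : T3 → ℂ) (p : T3) :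
    τ.w.conj.op v p = dir τ.X v p - Complex.I * dir τ.Y v p := by
  rw [dir_eq, dir_eq]
  unfold CVF.op CVF.conj Tube.w Tube.X Tube.Y
  simp only [Complex.real_smul, map_add, map_mul, Complex.conj_I, Complex.conj_ofReal]
  push_cast
  ring

end Oper

/-- `L = W₁' W₁ - i ∂_s + ω` on the good set -/
theorem oper (τ : Tube) {U : Set T3} (hU : IsOpen U) (hgood : τ.Good U) {v : T3 → ℂ}
    (hv : ContDiff ℝ ∞ v) {p : T3} (hp : p ∈ U) :
    τ.L v p = Wd τ.w τ.nu (W1 τ.w τ.mu v) p - Complex.I * pd0 v p + τ.om p * v p := by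
  have hdiff : ∀ {f : T3 → ℂ}, ContDiff ℝ ∞ f → ∀ q, DifferentiableAt ℝ f q :=
    fun hf q => (hf.differentiable (by simp)) q
  have hXv : ContDiff ℝ ∞ (dir τ.X v) := dir_smooth (Oper.X_smooth τ) hv
  have hYv : ContDiff ℝ ∞ (dir τ.Y v) := dir_smooth (Oper.Y_smooth τ) hv
  have hIYv : ContDiff ℝ ∞ (fun q => Complex.I * dir τ.Y v q) := contDiff_const.mul hYv
  have hmuv : ContDiff ℝ ∞ (fun q => τ.mu q * v q) := τ.mu_smooth.mul hv
  have e1 : W1 τ.w τ.mu v = fun q => (dir τ.X v q + Complex.I * dir τ.Y v q) + τ.mu q * v q := by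
    funext q
    unfold W1
    rw [w_op τ]
  have hsum : ContDiff ℝ ∞ (fun q => dir τ.X v q + Complex.I * dir τ.Y v q) := hXv.add hIYv
  have e2 : τ.w.conj.op (W1 τ.w τ.mu v) p =
      (dir τ.X (dir τ.X v) p - Complex.I * dir τ.Y (dir τ.X v) p) +
        Complex.I * (dir τ.X (dir τ.Y v) p - Complex.I * dir τ.Y (dir τ.Y v) p) +
        (τ.mu p * (dir τ.X v p - Complex.I * dir τ.Y v p) + τ.w.conj.op τ.mu p * v p) := by
    rw [e1, op_add (hdiff hsum p) (hdiff hmuv p), op_add (hdiff hXv p) (hdiff hIYv p),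
      op_const_mul _ (hdiff hYv p), op_mul (hdiff τ.mu_smooth p) (hdiff hv p), w_conj_op τ,
      w_conj_op τ, w_conj_op τ v]
  have hcomm := comm τ hgood hv hp
  unfold Wd
  rw [e2]
  have e3 : W1 τ.w τ.mu v p = dir τ.X v p + Complex.I * dir τ.Y v p + τ.mu p * v p := by rw [e1]
  rw [e3]
  unfold Tube.L Tube.om
  simp only [Complex.real_smul]
  have hmu : τ.mu p = ((τ.div τ.X p : ℂ) + τ.beta p + Complex.I * (τ.div τ.Y p - τ.alpha p)) / 2 := by
    unfold Tube.mu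
    push_cast
    ring
  have hnu : τ.nu p = ((τ.beta p : ℂ) - τ.div τ.X p + Complex.I * (τ.div τ.Y p + τ.alpha p)) / 2 := by
    unfold Tube.nu
    push_cast
    ring
  have hI : Complex.I ^ 2 = -1 := Complex.I_sq
  generalize τ.w.conj.op τ.mu p = wm
  rw [hmu, hnu]
  linear_combination (Complex.I) * hcomm + (-dir τ.Y (dir τ.Y v) p -
    (τ.div τ.Y p : ℂ) * dir τ.Y v p) * hI

end Pool.Agent.SRGap
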