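import Pool.Agent.Work.MP_188050_an.Solve

/-!
# MP_188050_an: periodization in the variable `s` of functions on the tube
-/

open Set MeasureTheory Filter Topology VectorField
open scoped Manifold ContDiff

namespace Pool.Agent.SRGap

/-- `f` has period `ℓ` in the first variable -/
def PerI {F : Type*} (ℓ : ℝ) (f : T3 → F) : Prop := ∀ p : T3, f (p.1 + ℓ, p.2) = f p

theorem PerI.int {F : Type*} {ℓ : ℝ} {f : T3 → F} (hf : PerI ℓ f) (k : ℤ) (p : T3) :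
    f (p.1 + k * ℓ, p.2) = f p := by
  induction k using Int.induction_on with
  | zero => simp
  | succ k ih =>
    have := hf (p.1 + (k : ℤ) * ℓ, p.2)
    rw [← ih, ← this]
    congr 2
    push_cast; ring
  | pred k ih =>
    have := hf (p.1 + ((-(k : ℤ) - 1 : ℤ) : ℝ) * ℓ, p.2)
    rw [← ih, ← this]
    congr 2
    push_cast; ring

/-- shift by `k` periods -/
def shift (ℓ : ℝ) (k : ℤ) (p : T3) : T3 := (p.1 + k * ℓ, p.2)

theorem contDiff_shift (ℓ : ℝ) (k : ℤ) : ContDiff ℝ ∞ (shift ℓ k) := by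
  unfold shift; fun_prop

theorem hasFDerivAt_shift (ℓ : ℝ) (k : ℤ) (p : T3) :
    HasFDerivAt (shift ℓ k) (ContinuousLinearMap.id ℝ T3) p := by
  have h1 : HasFDerivAt (fun p : T3 => p.1 + (k : ℝ) * ℓ) (ContinuousLinearMap.fst ℝ ℝ (ℝ × ℝ)) p :=
    hasFDerivAt_fst.add_const _
  have h2 : HasFDerivAt (fun p : T3 => p.2) (ContinuousLinearMap.snd ℝ ℝ (ℝ × ℝ)) p := hasFDerivAt_snd
  have h3 := h1.prodMk h2
  have e : (ContinuousLinearMap.fst ℝ ℝ (ℝ × ℝ)).prod (ContinuousLinearMap.snd ℝ ℝ (ℝ × ℝ)) =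
      ContinuousLinearMap.id ℝ T3 := by
    ext <;> simp
  rw [e] at h3
  exact h3

/-- one term of the periodization -/
noncomputable def pterm (ℓ : ℝ) (χ : ℝ → ℂ) (f : T3 → ℂ) (k : ℤ) (p : T3) : ℂ :=
  χ (p.1 + k * ℓ) * f (shift ℓ k p)

/-- periodization with weight `χ` -/
noncomputable def per (ℓ : ℝ) (χ : ℝ → ℂ) (f : T3 → ℂ) (p : T3) : ℂ := ∑ᶠ k : ℤ, pterm ℓ χ f k p

section
variable {ℓ : ℝ} (hℓ : 0 < ℓ) {R : ℝ} {χ : ℝ → ℂ} (hχR : ∀ s, χ s ≠ 0 → |s| ≤ R)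
include hℓ hχR

theorem pterm_eq_zero {a : ℝ} {N : ℕ} (hN : (R + a) / ℓ < N) (f : T3 → ℂ) {p : T3} (hp : |p.1| < a)
    {k : ℤ} (hk : k ∉ Finset.Icc (-(N : ℤ)) N) : pterm ℓ χ f k p = 0 := by
  unfold pterm
  by_contra h
  have h1 := hχR _ (left_ne_zero_of_mul h)
  apply hk
  rw [div_lt_iff₀ hℓ] at hN
  have h2 : |(k : ℝ) * ℓ| ≤ |p.1 + k * ℓ| + |p.1| := by
    have : (k : ℝ) * ℓ = (p.1 + k * ℓ) - p.1 := by ring
    calc |(k : ℝ) * ℓ| = |(p.1 + k * ℓ) - p.1| := by rw [← this]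
      _ ≤ |p.1 + k * ℓ| + |p.1| := abs_sub _ _
  rw [abs_mul, abs_of_pos hℓ] at h2
  have h3 : |(k : ℝ)| * ℓ < N * ℓ := by linarith
  have h4 : |(k : ℝ)| < N := lt_of_mul_lt_mul_right h3 hℓ.le
  rw [abs_lt] at h4
  rw [Finset.mem_Icc]
  constructor
  · have : (-(N : ℝ)) ≤ k := h4.1.le
    exact_mod_cast this
  · exact_mod_cast h4.2.le

theorem per_eq_sum {a : ℝ} {N : ℕ} (hN : (R + a) / ℓ < N) (f : T3 → ℂ) {p : T3} (hp : |p.1| < a) :
    per ℓ χ f p = ∑ k ∈ Finset.Icc (-(N : ℤ)) N, pterm ℓ χ f k p := by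
  unfold per
  apply finsum_eq_sum_of_support_subset
  intro k hk
  by_contra h
  exact hk (pterm_eq_zero hℓ hχR hN f hp h)

theorem per_contDiff (hχ : ContDiff ℝ ∞ χ) {f : T3 → ℂ} (hf : ContDiff ℝ ∞ f) :
    ContDiff ℝ ∞ (per ℓ χ f) := by
  rw [contDiff_iff_contDiffAt]
  intro p
  obtain ⟨N, hN⟩ := exists_nat_gt ((R + (|p.1| + 1)) / ℓ)
  have h1 : ContDiff ℝ ∞ (fun p => ∑ k ∈ Finset.Icc (-(N : ℤ)) N, pterm ℓ χ f k p) := by
    apply ContDiff.sum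
    intro k _
    unfold pterm
    exact (hχ.comp (contDiff_fst.add contDiff_const)).mul (hf.comp (contDiff_shift ℓ k))
  refine h1.contDiffAt.congr_of_eventuallyEq ?_
  have hopen : IsOpen {q : T3 | |q.1| < |p.1| + 1} :=
    isOpen_lt (continuous_fst.abs) continuous_const
  filter_upwards [hopen.mem_nhds (show |p.1| < |p.1| + 1 by linarith)] with q hq
  exact per_eq_sum hℓ hχR hN f hq

theorem per_add {f g : T3 → ℂ} (p : T3) :
    per ℓ χ (fun p => f p + g p) p = per ℓ χ f p + per ℓ χ g p := by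
  obtain ⟨N, hN⟩ := exists_nat_gt ((R + (|p.1| + 1)) / ℓ)
  have hp : |p.1| < |p.1| + 1 := by linarith
  rw [per_eq_sum hℓ hχR hN _ hp, per_eq_sum hℓ hχR hN _ hp, per_eq_sum hℓ hχR hN _ hp,
    ← Finset.sum_add_distrib]
  refine Finset.sum_congr rfl fun k _ => ?_
  unfold pterm; ring

theorem per_sub {f g : T3 → ℂ} (p : T3) :
    per ℓ χ (fun p => f p - g p) p = per ℓ χ f p - per ℓ χ g p := by
  obtain ⟨N, hN⟩ := exists_nat_gt ((R + (|p.1| + 1)) / ℓ)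
  have hp : |p.1| < |p.1| + 1 := by linarith
  rw [per_eq_sum hℓ hχR hN _ hp, per_eq_sum hℓ hχR hN _ hp, per_eq_sum hℓ hχR hN _ hp,
    ← Finset.sum_sub_distrib]
  refine Finset.sum_congr rfl fun k _ => ?_
  unfold pterm; ring

/-- periodic smooth factors can be taken out -/
theorem per_mul {u : T3 → ℂ} (hu : PerI ℓ u) {f : T3 → ℂ} (p : T3) :
    per ℓ χ (fun p => u p * f p) p = u p * per ℓ χ f p := by
  obtain ⟨N, hN⟩ := exists_nat_gt ((R + (|p.1| + 1)) / ℓ)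
  have hp : |p.1| < |p.1| + 1 := by linarith
  rw [per_eq_sum hℓ hχR hN _ hp, per_eq_sum hℓ hχR hN _ hp, Finset.mul_sum]
  refine Finset.sum_congr rfl fun k _ => ?_
  unfold pterm
  have : u (shift ℓ k p) = u p := hu.int k p
  simp only [this]; ring

theorem per_xy {g h : T3 → ℂ} :
    per ℓ χ (fun p => (p.2.1 : ℂ) * g p + (p.2.2 : ℂ) * h p) =
      fun p => (p.2.1 : ℂ) * per ℓ χ g p + (p.2.2 : ℂ) * per ℓ χ h p := by
  funext p
  rw [per_add hℓ hχR, per_mul hℓ hχR (u := fun p : T3 => (p.2.1 : ℂ)) (fun _ => rfl),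
    per_mul hℓ hχR (u := fun p : T3 => (p.2.2 : ℂ)) (fun _ => rfl)]

theorem J_per (hχ : ContDiff ℝ ∞ χ) {k : ℕ} {f : T3 → ℂ} (hf : J k f) : J k (per ℓ χ f) := by
  induction k generalizing f with
  | zero => exact per_contDiff hℓ hχR hχ hf
  | succ k ih =>
    obtain ⟨g, h, hg, hh, rfl⟩ := hf
    exact ⟨_, _, ih hg, ih hh, per_xy hℓ hχR⟩

/-- derivative of a periodization -/
theorem fderiv_per (hχ : ContDiff ℝ ∞ χ) {f : T3 → ℂ} (hf : ContDiff ℝ ∞ f) (p v : T3) :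
    fderiv ℝ (per ℓ χ f) p v =
      per ℓ χ (fun q => fderiv ℝ f q v) p + (v.1 : ℂ) * per ℓ (deriv χ) f p := by
  obtain ⟨N, hN⟩ := exists_nat_gt ((R + (|p.1| + 1)) / ℓ)
  have hp : |p.1| < |p.1| + 1 := by linarith
  have hχ' : ∀ s, deriv χ s ≠ 0 → |s| ≤ R := by
    intro s hs
    by_contra h
    apply hs
    have h1 : χ =ᶠ[𝓝 s] fun _ => 0 := by
      have hopen : IsOpen {t : ℝ | R < |t|} := isOpen_lt continuous_const continuous_abs
      filter_upwards [hopen.mem_nhds (not_le.1 h)] with t ht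
      by_contra h2
      exact absurd (hχR t h2) (not_le.2 ht)
    rw [h1.deriv_eq]; simp
  have hev : per ℓ χ f =ᶠ[𝓝 p] fun p => ∑ k ∈ Finset.Icc (-(N : ℤ)) N, pterm ℓ χ f k p := by
    have hopen : IsOpen {q : T3 | |q.1| < |p.1| + 1} :=
      isOpen_lt (continuous_fst.abs) continuous_const
    filter_upwards [hopen.mem_nhds hp] with q hq
    exact per_eq_sum hℓ hχR hN f hq
  have hterm : ∀ k : ℤ, HasFDerivAt (pterm ℓ χ f k)
      (χ (p.1 + k * ℓ) • fderiv ℝ f (shift ℓ k p) +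
        f (shift ℓ k p) • (ContinuousLinearMap.toSpanSingleton ℝ (deriv χ (p.1 + k * ℓ))).comp
          (ContinuousLinearMap.fst ℝ ℝ (ℝ × ℝ))) p := by
    intro k
    have a1 : HasFDerivAt (fun p : T3 => f (shift ℓ k p)) (fderiv ℝ f (shift ℓ k p)) p := by
      have h0 : HasFDerivAt f (fderiv ℝ f (shift ℓ k p)) (shift ℓ k p) :=
        (hf.differentiable (by simp) (shift ℓ k p)).hasFDerivAt
      have := HasFDerivAt.comp (g := f) p h0 (hasFDerivAt_shift ℓ k p)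
      rw [ContinuousLinearMap.comp_id] at this
      exact this
    have a2 : HasFDerivAt (fun p : T3 => χ (p.1 + k * ℓ))
        ((ContinuousLinearMap.toSpanSingleton ℝ (deriv χ (p.1 + k * ℓ))).comp
          (ContinuousLinearMap.fst ℝ ℝ (ℝ × ℝ))) p := by
      have h0 : HasFDerivAt χ (ContinuousLinearMap.toSpanSingleton ℝ (deriv χ (p.1 + k * ℓ)))
          (p.1 + k * ℓ) := (hχ.differentiable (by simp) (p.1 + k * ℓ)).hasDerivAt.hasFDerivAt
      have h1 : HasFDerivAt (fun p : T3 => p.1 + (k : ℝ) * ℓ) (ContinuousLinearMap.fst ℝ ℝ (ℝ × ℝ)) p :=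
        hasFDerivAt_fst.add_const _
      exact HasFDerivAt.comp (g := χ) p h0 h1
    exact a2.mul a1
  have hsum : HasFDerivAt (fun p => ∑ k ∈ Finset.Icc (-(N : ℤ)) N, pterm ℓ χ f k p)
      (∑ k ∈ Finset.Icc (-(N : ℤ)) N, (χ (p.1 + k * ℓ) • fderiv ℝ f (shift ℓ k p) +
        f (shift ℓ k p) • (ContinuousLinearMap.toSpanSingleton ℝ (deriv χ (p.1 + k * ℓ))).comp
          (ContinuousLinearMap.fst ℝ ℝ (ℝ × ℝ)))) p :=
    HasFDerivAt.fun_sum fun k _ => hterm k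
  rw [hev.fderiv_eq, hsum.fderiv, per_eq_sum hℓ hχR hN _ hp, per_eq_sum hℓ hχ' hN _ hp, Finset.mul_sum,
    ← Finset.sum_add_distrib]
  simp only [FunLike.coe_sum, Finset.sum_apply]
  refine Finset.sum_congr rfl fun k _ => ?_
  unfold pterm
  simp
  ring

theorem op_per (hχ : ContDiff ℝ ∞ χ) {w : CVF} (h1 : PerI ℓ w.s) (h2 : PerI ℓ w.x) (h3 : PerI ℓ w.y)
    {f : T3 → ℂ} (hf : ContDiff ℝ ∞ f) (p : T3) :
    w.op (per ℓ χ f) p = per ℓ χ (w.op f) p + w.s p * per ℓ (deriv χ) f p := by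
  have e : per ℓ χ (w.op f) p = w.s p * per ℓ χ (pd0 f) p + w.x p * per ℓ χ (pd1 f) p +
      w.y p * per ℓ χ (pd2 f) p := by
    have : w.op f = fun p => (w.s p * pd0 f p + w.x p * pd1 f p) + w.y p * pd2 f p := rfl
    rw [this, per_add hℓ hχR, per_add hℓ hχR, per_mul hℓ hχR h1, per_mul hℓ hχR h2, per_mul hℓ hχR h3]
  rw [e]
  unfold CVF.op
  have k0 : pd0 (per ℓ χ f) p = per ℓ χ (pd0 f) p + per ℓ (deriv χ) f p := by
    unfold pd0; rw [fderiv_per hℓ hχR hχ hf]; simp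
  have k1 : pd1 (per ℓ χ f) p = per ℓ χ (pd1 f) p := by
    unfold pd1; rw [fderiv_per hℓ hχR hχ hf]; simp
  have k2 : pd2 (per ℓ χ f) p = per ℓ χ (pd2 f) p := by
    unfold pd2; rw [fderiv_per hℓ hχR hχ hf]; simp
  rw [k0, k1, k2]; ring

end

theorem per_perI (ℓ : ℝ) (χ : ℝ → ℂ) (f : T3 → ℂ) : PerI ℓ (per ℓ χ f) := by
  intro p
  unfold per
  have e : ∀ k : ℤ, pterm ℓ χ f k (p.1 + ℓ, p.2) = pterm ℓ χ f (Equiv.addRight (1 : ℤ) k) p := by
    intro k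
    unfold pterm shift
    simp only [Equiv.coe_addRight, Int.cast_add, Int.cast_one]
    have : p.1 + ℓ + (k : ℝ) * ℓ = p.1 + ((k : ℝ) + 1) * ℓ := by ring
    rw [this]
  simp only [e]
  exact finsum_comp_equiv (Equiv.addRight (1 : ℤ)) (f := fun k => pterm ℓ χ f k p)

/-- a partition of unity on the circle -/
theorem exists_part {ℓ : ℝ} (hℓ : 0 < ℓ) : ∃ (χ : ℝ → ℂ) (R : ℝ), ContDiff ℝ ∞ χ ∧
    (∀ s, χ s ≠ 0 → |s| ≤ R) ∧ ∀ u : T3 → ℂ, PerI ℓ u → per ℓ χ u = u := by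
  let b : ContDiffBump (0 : ℝ) := ⟨ℓ, 2 * ℓ, hℓ, by linarith⟩
  set β : ℝ → ℂ := fun s => ((b s : ℝ) : ℂ) with hβ
  have hβs : ContDiff ℝ ∞ β := Complex.ofRealCLM.contDiff.comp b.contDiff
  have hβR : ∀ s, β s ≠ 0 → |s| ≤ 2 * ℓ := by
    intro s hs
    have h1 : b s ≠ 0 := fun h => hs (by rw [hβ]; simp [h])
    have h2 : s ∈ Function.support b := h1
    rw [b.support_eq] at h2
    have : dist s 0 < 2 * ℓ := h2
    rw [Real.dist_eq, sub_zero] at this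
    exact this.le
  set B : T3 → ℂ := per ℓ β (fun _ => 1) with hB
  have hBs : ContDiff ℝ ∞ B := per_contDiff hℓ hβR hβs contDiff_const
  have hBper : PerI ℓ B := per_perI _ _ _
  have hBy : ∀ p : T3, B p = B (p.1, 0, 0) := fun p => rfl
  have hB0 : ∀ p, B p ≠ 0 := by
    intro p
    obtain ⟨N, hN⟩ := exists_nat_gt ((2 * ℓ + (|p.1| + 1)) / ℓ)
    have hp : |p.1| < |p.1| + 1 := by linarith
    rw [hB, per_eq_sum hℓ hβR hN _ hp]
    have e : ∑ k ∈ Finset.Icc (-(N : ℤ)) N, pterm ℓ β (fun _ => 1) k p =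
        ((∑ k ∈ Finset.Icc (-(N : ℤ)) N, b (p.1 + k * ℓ) : ℝ) : ℂ) := by
      rw [Complex.ofReal_sum]
      refine Finset.sum_congr rfl fun k _ => ?_
      unfold pterm; rw [hβ]; simp
    rw [e, Complex.ofReal_ne_zero]
    apply ne_of_gt
    -- the term `k = - ⌊p.1 / ℓ⌋`
    have hk0 : |p.1 + ((-⌊p.1 / ℓ⌋ : ℤ) : ℝ) * ℓ| ≤ ℓ := by
      have h1 := Int.floor_le (p.1 / ℓ)
      have h2 := Int.lt_floor_add_one (p.1 / ℓ)
      rw [le_div_iff₀ hℓ] at h1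
      rw [div_lt_iff₀ hℓ] at h2
      push_cast
      rw [abs_le]; constructor <;> nlinarith
    have hb1 : b (p.1 + ((-⌊p.1 / ℓ⌋ : ℤ) : ℝ) * ℓ) = 1 := by
      apply b.one_of_mem_closedBall
      rw [Metric.mem_closedBall, Real.dist_eq, sub_zero]; exact hk0
    have hmem : (-⌊p.1 / ℓ⌋ : ℤ) ∈ Finset.Icc (-(N : ℤ)) N := by
      by_contra h
      have := pterm_eq_zero hℓ hβR hN (fun _ => 1) hp h
      unfold pterm at this
      rw [hβ] at this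
      simp only [hb1] at this
      simp at this
    refine Finset.sum_pos' (fun k _ => b.nonneg) ⟨_, hmem, ?_⟩
    rw [hb1]; exact one_pos
  set χ : ℝ → ℂ := fun s => β s * (B (s, 0, 0))⁻¹ with hχ
  have hχs : ContDiff ℝ ∞ χ := by
    apply hβs.mul
    exact (hBs.comp (contDiff_id.prodMk contDiff_const)).inv fun s => hB0 _
  have hχR : ∀ s, χ s ≠ 0 → |s| ≤ 2 * ℓ := fun s hs => hβR s (left_ne_zero_of_mul hs)
  refine ⟨χ, 2 * ℓ, hχs, hχR, fun u hu => ?_⟩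
  funext p
  obtain ⟨N, hN⟩ := exists_nat_gt ((2 * ℓ + (|p.1| + 1)) / ℓ)
  have hp : |p.1| < |p.1| + 1 := by linarith
  rw [per_eq_sum hℓ hχR hN _ hp]
  have e : ∀ k ∈ Finset.Icc (-(N : ℤ)) N, pterm ℓ χ u k p =
      pterm ℓ β (fun _ => 1) k p * ((B p)⁻¹ * u p) := by
    intro k _
    unfold pterm
    have h1 : u (shift ℓ k p) = u p := hu.int k p
    have h2 : B (p.1 + k * ℓ, 0, 0) = B p := by
      rw [← hBper.int k p]; rfl
    rw [h1, hχ]
    simp only [h2]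
    ring
  rw [Finset.sum_congr rfl e, ← Finset.sum_mul, ← per_eq_sum hℓ hβR hN _ hp]
  have : per ℓ β (fun _ => 1) p = B p := rfl
  rw [this, ← mul_assoc, mul_inv_cancel₀ (hB0 p), one_mul]

/-- periodic version of `solve` -/
theorem solve_per {w : CVF} (hw : w.Smooth) {ℓ : ℝ} (hℓ : 0 < ℓ)
    (h1 : PerI ℓ w.s) (h2 : PerI ℓ w.x) (h3 : PerI ℓ w.y) (hs : J 1 w.s)
    (hD : ∀ s : ℝ, w.x (s, 0, 0) - Complex.I * w.y (s, 0, 0) ≠ 0) {k : ℕ} {R : T3 → ℂ} (hR : J k R)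
    (hRp : PerI ℓ R) :
    ∃ Q : T3 → ℂ, J (k + 1) Q ∧ PerI ℓ Q ∧ J (k + 1) (fun p => w.op Q p - R p) := by
  obtain ⟨Q, hQ, hQ'⟩ := solve hw hD hR
  obtain ⟨χ, r, hχ, hχR, hχ1⟩ := exists_part hℓ
  have hχ' : ∀ s, deriv χ s ≠ 0 → |s| ≤ r := by
    intro s hs
    by_contra h
    apply hs
    have h1 : χ =ᶠ[𝓝 s] fun _ => 0 := by
      have hopen : IsOpen {t : ℝ | r < |t|} := isOpen_lt continuous_const continuous_abs
      filter_upwards [hopen.mem_nhds (not_le.1 h)] with t ht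
      by_contra h2
      exact absurd (hχR t h2) (not_le.2 ht)
    rw [h1.deriv_eq]; simp
  refine ⟨per ℓ χ Q, J_per hℓ hχR hχ hQ, per_perI _ _ _, ?_⟩
  have e : (fun p => w.op (per ℓ χ Q) p - R p) =
      fun p => per ℓ χ (fun p => w.op Q p - R p) p + w.s p * per ℓ (deriv χ) Q p := by
    funext p
    rw [op_per hℓ hχR hχ h1 h2 h3 (J_contDiff hQ), per_sub hℓ hχR, hχ1 R hRp]
    ring
  rw [e]
  refine J_add (J_per hℓ hχR hχ hQ') ?_
  have hd : ContDiff ℝ ∞ (deriv χ) := by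
    have := (contDiff_infty_iff_deriv.1 hχ).2
    exact this
  exact J_smul (J_contDiff hs) (J_per hℓ hχ' hd hQ)

end Pool.Agent.SRGap
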