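import Pool.Agent.Work.MP_188050_an.Phase
import Pool.Agent.Work.MP_188050_an.Per
import Pool.Agent.Work.MP_188050_an.Oper

/-!
# MP_188050_an: periodic tube data, periodic phase
-/

open Set MeasureTheory Filter Topology VectorField
open scoped Manifold ContDiff

namespace Pool.Agent.SRGap

section perI
variable {F : Type*} [NormedAddCommGroup F] [NormedSpace ℝ F] {ℓ : ℝ}

theorem add_e (p : T3) : p + (ℓ, 0) = (p.1 + ℓ, p.2) := by
  ext <;> simp

/-- if `f` is periodic up to a constant, then its derivative is periodic -/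
theorem fderiv_shift_add {f : T3 → F} {c : F} (hf : ∀ p : T3, f (p.1 + ℓ, p.2) = f p + c) (p : T3) :
    fderiv ℝ f (p.1 + ℓ, p.2) = fderiv ℝ f p := by
  have h1 : (fun q : T3 => f (q + (ℓ, 0))) = fun q => f q + c := by
    funext q; rw [add_e, hf]
  have h2 : fderiv ℝ (fun q : T3 => f (q + (ℓ, 0))) p = fderiv ℝ f (p + (ℓ, 0)) :=
    fderiv_comp_add_right (ℓ, 0)
  rw [← add_e, ← h2, h1, fderiv_add_const]

theorem PerI.fderiv {f : T3 → F} (hf : PerI ℓ f) (p : T3) :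
    fderiv ℝ f (p.1 + ℓ, p.2) = fderiv ℝ f p :=
  fderiv_shift_add (c := 0) (fun p => by rw [hf p, add_zero]) p

theorem pd0_shift {f : T3 → F} {c : F} (hf : ∀ p : T3, f (p.1 + ℓ, p.2) = f p + c) : PerI ℓ (pd0 f) :=
  fun p => by unfold pd0; rw [fderiv_shift_add hf]
theorem pd1_shift {f : T3 → F} {c : F} (hf : ∀ p : T3, f (p.1 + ℓ, p.2) = f p + c) : PerI ℓ (pd1 f) :=
  fun p => by unfold pd1; rw [fderiv_shift_add hf]
theorem pd2_shift {f : T3 → F} {c : F} (hf : ∀ p : T3, f (p.1 + ℓ, p.2) = f p + c) : PerI ℓ (pd2 f) :=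
  fun p => by unfold pd2; rw [fderiv_shift_add hf]

theorem PerI.pd0 {f : T3 → F} (hf : PerI ℓ f) : PerI ℓ (pd0 f) :=
  fun p => by unfold SRGap.pd0; rw [hf.fderiv]
theorem PerI.pd1 {f : T3 → F} (hf : PerI ℓ f) : PerI ℓ (pd1 f) :=
  fun p => by unfold SRGap.pd1; rw [hf.fderiv]
theorem PerI.pd2 {f : T3 → F} (hf : PerI ℓ f) : PerI ℓ (pd2 f) :=
  fun p => by unfold SRGap.pd2; rw [hf.fderiv]

theorem PerI.dir {V : T3 → T3} (hV : PerI ℓ V) {f : T3 → F} (hf : PerI ℓ f) : PerI ℓ (dir V f) :=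
  fun p => by unfold SRGap.dir; rw [hf.fderiv, hV]

end perI

/-- complex vector fields with periodic coefficients -/
structure CVF.Per (ℓ : ℝ) (w : CVF) : Prop where
  s : PerI ℓ w.s
  x : PerI ℓ w.x
  y : PerI ℓ w.y

theorem CVF.Per.conj {ℓ : ℝ} {w : CVF} (hw : w.Per ℓ) : w.conj.Per ℓ :=
  ⟨fun p => by simp only [CVF.conj, hw.s p], fun p => by simp only [CVF.conj, hw.x p],
    fun p => by simp only [CVF.conj, hw.y p]⟩

theorem CVF.Per.op {ℓ : ℝ} {w : CVF} (hw : w.Per ℓ) {f : T3 → ℂ} {c : ℂ}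
    (hf : ∀ p : T3, f (p.1 + ℓ, p.2) = f p + c) : PerI ℓ (w.op f) := fun p => by
  unfold CVF.op
  rw [hw.s, hw.x, hw.y, pd0_shift hf, pd1_shift hf, pd2_shift hf]

theorem CVF.Per.op' {ℓ : ℝ} {w : CVF} (hw : w.Per ℓ) {f : T3 → ℂ} (hf : PerI ℓ f) : PerI ℓ (w.op f) :=
  hw.op (c := 0) (fun p => by rw [hf p, add_zero])

/-- periodic tube data -/
structure Tube.Per (ℓ : ℝ) (τ : Tube) : Prop where
  a : PerI ℓ τ.a
  c : PerI ℓ τ.c
  d : PerI ℓ τ.d
  ρ : PerI ℓ τ.ρ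

namespace Tube.Per
variable {ℓ : ℝ} {τ : Tube} (h : τ.Per ℓ)
include h

theorem w : τ.w.Per ℓ :=
  ⟨fun p => by simp only [Tube.w, h.a p, h.c p, h.d p], fun p => by simp only [Tube.w, h.a p],
    fun p => by simp only [Tube.w, h.c p, h.d p]⟩

theorem X : PerI ℓ τ.X := fun p => by simp only [Tube.X, h.a p, h.c p]
theorem Y : PerI ℓ τ.Y := fun p => by simp only [Tube.Y, h.d p]

theorem div {V : T3 → T3} (hV : PerI ℓ V) : PerI ℓ (τ.div V) := fun p => by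
  have h1 : PerI ℓ (fun q => τ.ρ q * (V q).1) := fun p => by simp only [h.ρ p, hV p]
  have h2 : PerI ℓ (fun q => τ.ρ q * (V q).2.1) := fun p => by simp only [h.ρ p, hV p]
  have h3 : PerI ℓ (fun q => τ.ρ q * (V q).2.2) := fun p => by simp only [h.ρ p, hV p]
  simp only [Tube.div]
  rw [h1.pd0 p, h2.pd1 p, h3.pd2 p, h.ρ p]

theorem alpha : PerI ℓ τ.alpha := fun p => by
  simp only [Tube.alpha]
  rw [h.Y.dir h.a p, h.a p]

theorem beta : PerI ℓ τ.beta := fun p => by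
  simp only [Tube.beta]
  rw [h.X.dir h.d p, h.Y.dir h.c p, h.alpha p, h.c p, h.d p]

theorem mu : PerI ℓ τ.mu := fun p => by
  simp only [Tube.mu]
  rw [h.div h.X p, h.div h.Y p, h.beta p, h.alpha p]

theorem nu : PerI ℓ τ.nu := fun p => by
  simp only [Tube.nu]
  rw [h.div h.X p, h.div h.Y p, h.beta p, h.alpha p]

theorem om : PerI ℓ τ.om := fun p => by
  simp only [Tube.om]
  rw [h.w.conj.op' h.mu p, h.nu p, h.mu p]

theorem kap (s : ℝ) : τ.kap (s + ℓ) = τ.kap s := by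
  unfold Tube.kap
  rw [h.a (s, 0, 0), h.c (s, 0, 0), h.d (s, 0, 0)]

theorem deriv_kap (s : ℝ) : deriv τ.kap (s + ℓ) = deriv τ.kap s := by
  have h1 : (fun s => τ.kap (s + ℓ)) = τ.kap := funext h.kap
  rw [← deriv_comp_add_const, h1]

theorem phi2 (p : T3) : τ.phi2 (p.1 + ℓ, p.2) = τ.phi2 p + ℓ := by
  unfold Tube.phi2
  have h1 : eta (p.1 + ℓ, p.2) = eta p := rfl
  simp only [h1, h.kap]
  push_cast
  ring

end Tube.Per

/-- the periodic phase -/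
theorem exists_phase_per (τ : Tube) {ℓ : ℝ} (hℓ : 0 < ℓ) (hτ : τ.Per ℓ) :
    ∃ Φ : T3 → ℂ, ContDiff ℝ ∞ Φ ∧ (∀ p : T3, Φ (p.1 + ℓ, p.2) = Φ p + ℓ) ∧
      J 3 (fun p => Φ p - τ.phi2 p) ∧ J 4 (τ.w.op Φ) := by
  obtain ⟨Φ₀, hΦs, hΦ3, hΦ4⟩ := exists_phase τ
  obtain ⟨χ, R, hχ, hχR, hχ1⟩ := exists_part hℓ
  have hχ' : ∀ s, deriv χ s ≠ 0 → |s| ≤ R := by
    intro s hs
    by_contra h
    apply hs
    have h1 : χ =ᶠ[𝓝 s] fun _ => 0 := by
      have hopen : IsOpen {t : ℝ | R < |t|} := isOpen_lt continuous_const continuous_abs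
      filter_upwards [hopen.mem_nhds (not_le.1 h)] with t ht
      by_contra h2
      exact absurd (hχR t h2) (not_le.2 ht)
    rw [h1.deriv_eq]; simp
  have hχd : ContDiff ℝ ∞ (deriv χ) := (contDiff_infty_iff_deriv.1 hχ).2
  set D : T3 → ℂ := fun p => Φ₀ p - τ.phi2 p with hD
  have h2s : ContDiff ℝ ∞ τ.phi2 := by
    have : τ.phi2 = fun p => Φ₀ p - D p := by funext p; simp only [hD]; ring
    rw [this]; exact hΦs.sub (J_contDiff hΦ3)
  have hper := J_per hℓ hχR hχ hΦ3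
  refine ⟨fun p => τ.phi2 p + per ℓ χ D p, h2s.add (J_contDiff hper), fun p => ?_, ?_, ?_⟩
  · show τ.phi2 (p.1 + ℓ, p.2) + per ℓ χ D (p.1 + ℓ, p.2) = τ.phi2 p + per ℓ χ D p + ℓ
    rw [hτ.phi2, per_perI ℓ χ D p]; ring
  · have e : (fun p => τ.phi2 p + per ℓ χ D p - τ.phi2 p) = per ℓ χ D := by funext p; ring
    rw [e]; exact hper
  · have e : τ.w.op (fun p => τ.phi2 p + per ℓ χ D p) =
        fun p => per ℓ χ (τ.w.op Φ₀) p + τ.w.s p * per ℓ (deriv χ) D p := by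
      funext p
      rw [τ.w.op_add (h2s.differentiable (by simp) p) (J_diff hper p),
        op_per hℓ hχR hχ hτ.w.s hτ.w.x hτ.w.y (J_contDiff hΦ3)]
      have e1 : per ℓ χ (τ.w.op D) p = per ℓ χ (τ.w.op Φ₀) p - τ.w.op τ.phi2 p := by
        have e2 : τ.w.op D = fun p => τ.w.op Φ₀ p - τ.w.op τ.phi2 p := by
          funext q
          exact τ.w.op_sub (hΦs.differentiable (by simp) q) (h2s.differentiable (by simp) q)
        rw [e2, per_sub hℓ hχR, hχ1 _ (hτ.w.op hτ.phi2)]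
      rw [e1]; ring
    rw [e]
    refine J_add (J_per hℓ hχR hχ hΦ4) ?_
    have := J_mul τ.ws_J (J_per hℓ hχ' hχd hΦ3)
    exact this

end Pool.Agent.SRGap
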