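import Pool.Agent.Work.MP_188050_an.Amp
import Pool.Agent.Work.MP_188050_an.PerPhase

/-!
# MP_188050_an: periodic amplitude
-/

open Set MeasureTheory Filter Topology VectorField
open scoped Manifold ContDiff InnerProductSpace

namespace Pool.Agent.SRGap

namespace Amp

/-- the function `θ` -/
noncomputable def theta (τ : Tube) (s : ℝ) : ℂ :=
  Complex.I * deriv τ.kap s / (4 * τ.kap s * (τ.d (s, 0, 0) : ℂ))

theorem theta_smooth (τ : Tube) : ContDiff ℝ ∞ (theta τ) := by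
  have hκ := τ.kap_smooth
  have hκ1 := contDiff_derivC hκ
  have hd : ContDiff ℝ ∞ (fun s : ℝ => (τ.d (s, 0, 0) : ℂ)) :=
    contDiff_ofReal' (τ.smooth_d.comp (contDiff_id.prodMk contDiff_const))
  have hd0 : ∀ s : ℝ, (τ.d (s, 0, 0) : ℂ) ≠ 0 := fun s => by
    exact_mod_cast (τ.d_pos (s, 0, 0)).ne'
  have h1 : ∀ s, (4 : ℂ) * τ.kap s * (τ.d (s, 0, 0) : ℂ) ≠ 0 := fun s =>
    mul_ne_zero (mul_ne_zero (by norm_num) (τ.kap_ne s)) (hd0 s)
  have h2 : ContDiff ℝ ∞ (fun s : ℝ => (4 : ℂ) * τ.kap s * (τ.d (s, 0, 0) : ℂ)) :=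
    (contDiff_const.mul hκ).mul hd
  have h3 : ContDiff ℝ ∞ (fun s : ℝ => Complex.I * deriv τ.kap s *
      (4 * τ.kap s * (τ.d (s, 0, 0) : ℂ))⁻¹) := (contDiff_const.mul hκ1).mul (h2.inv h1)
  have h4 : theta τ = fun s : ℝ => Complex.I * deriv τ.kap s * (4 * τ.kap s * (τ.d (s, 0, 0) : ℂ))⁻¹ := by
    funext s; simp only [theta, div_eq_mul_inv]
  rw [h4]; exact h3

theorem theta_mul (τ : Tube) (s : ℝ) :
    2 * τ.kap s * (τ.d (s, 0, 0) : ℂ) * theta τ s = Complex.I / 2 * deriv τ.kap s := by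
  have h1 := τ.kap_ne s
  have h2 : (τ.d (s, 0, 0) : ℂ) ≠ 0 := by exact_mod_cast (τ.d_pos (s, 0, 0)).ne'
  simp only [theta]
  field_simp
  ring

/-- the function `D₁ = W̄ η` on the axis -/
noncomputable def DD (τ : Tube) (s : ℝ) : ℂ :=
  τ.w.conj.x (s, 0, 0) - Complex.I * τ.w.conj.y (s, 0, 0)

theorem DD_smooth (τ : Tube) : ContDiff ℝ ∞ (DD τ) :=
  (contDiff_at_axis τ.w_smooth.conj.x).sub (contDiff_const.mul (contDiff_at_axis τ.w_smooth.conj.y))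

/-- the coefficient of the transport equation `a₀' = g a₀` -/
noncomputable def gg (τ : Tube) (om : T3 → ℂ) (s : ℝ) : ℂ :=
  -Complex.I * (om (s, 0, 0) - theta τ s * DD τ s)

theorem gg_smooth (τ : Tube) {om : T3 → ℂ} (hom : ContDiff ℝ ∞ om) : ContDiff ℝ ∞ (gg τ om) :=
  contDiff_const.mul ((contDiff_at_axis hom).sub ((theta_smooth τ).mul (DD_smooth τ)))

/-- the conclusions for an amplitude `ψ A₀ + ψ' B` -/
theorem amp_final (τ : Tube) {m n om : T3 → ℂ} (hm : ContDiff ℝ ∞ m) (hn : ContDiff ℝ ∞ n)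
    (hom : ContDiff ℝ ∞ om) {Φ : T3 → ℂ}
    (hΦ : J 3 (fun p => Φ p - τ.phi2 p)) (hΦ4 : J 4 (τ.w.op Φ)) {a₀ : ℝ → ℂ} {A₀ B : T3 → ℂ}
    (ha : ContDiff ℝ ∞ a₀) (ha1 : ∀ s, deriv a₀ s = gg τ om s * a₀ s)
    (hA₁₂ : J 1 (fun p => A₀ p - a₀ p.1))
    (hAW : J 2 (fun p => W1 τ.w m A₀ p - theta τ p.1 * a₀ p.1 * eta p))
    (hB : J 2 B) (hBW : J 2 (fun p => τ.w.op B p + τ.w.s p * a₀ p.1)) {ψ : ℝ → ℝ}
    (hψ : ContDiff ℝ ∞ ψ) :
        J 1 (fun p => ((ψ p.1 : ℂ) * A₀ p + ((deriv ψ p.1 : ℝ) : ℂ) * B p) - (ψ p.1 : ℂ) * a₀ p.1) ∧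
        J 5 (c2 τ.w Φ (fun p => (ψ p.1 : ℂ) * A₀ p + ((deriv ψ p.1 : ℝ) : ℂ) * B p)) ∧
        J 3 (c1 τ.w m n Φ (fun p => (ψ p.1 : ℂ) * A₀ p + ((deriv ψ p.1 : ℝ) : ℂ) * B p)) ∧
        J 1 (fun p => c0 τ.w m n om (fun p => (ψ p.1 : ℂ) * A₀ p + ((deriv ψ p.1 : ℝ) : ℂ) * B p) p +
          Complex.I * ((deriv ψ p.1 : ℝ) : ℂ) * a₀ p.1) := by
  have hw := τ.w_smooth
  have hws := τ.ws_J
  have hwb : τ.w.conj.Smooth := hw.conj
  have hκ := τ.kap_smooth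
  have hκ1 := contDiff_derivC hκ
  have hd : ContDiff ℝ ∞ (fun s : ℝ => (τ.d (s, 0, 0) : ℂ)) :=
    contDiff_ofReal' (τ.smooth_d.comp (contDiff_id.prodMk contDiff_const))
  have hθ2 := theta_mul τ
  have hθs := theta_smooth τ
  have hα := contDiff_s ha
  have hAs : ContDiff ℝ ∞ A₀ := by
    have := (J_contDiff hA₁₂).add hα
    have e : A₀ = fun p => (A₀ p - a₀ p.1) + a₀ p.1 := by funext p; ring
    rw [e]; exact this
  have hP := phase_conj τ hΦ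
  have hS := phase_pd0 τ hΦ
  have hκd : ContDiff ℝ ∞ (fun p : T3 => 2 * Complex.I * τ.kap p.1 * (τ.d (p.1, 0, 0) : ℂ)) :=
    (contDiff_const.mul (contDiff_s hκ)).mul (contDiff_s hd)
  have hWb : J 1 (τ.w.conj.op Φ) := J_congr (J_add (J_mono (by norm_num) hP) (J_smul hκd J_eta))
    fun p => by ring
  have hψc := contDiff_s (contDiff_ofReal' hψ)
  have hψ1 := contDiff_s (contDiff_ofReal' (contDiff_deriv hψ))
  have hr := amp_W1 hw hws hm ha hA₁₂ hAW hB hBW hψ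
  have hδ : J 1 (fun p : T3 => ((ψ p.1 : ℂ) * A₀ p +
      ((deriv ψ p.1 : ℝ) : ℂ) * B p) - (ψ p.1 : ℂ) * a₀ p.1) :=
    J_congr (J_add (J_smul hψc hA₁₂) (J_smul hψ1 (J_mono (by norm_num) hB))) fun p => by ring
  have hAss : ContDiff ℝ ∞ (fun p : T3 => (ψ p.1 : ℂ) * A₀ p +
      ((deriv ψ p.1 : ℝ) : ℂ) * B p) := (hψc.mul hAs).add (hψ1.mul (J_contDiff hB))
  set A : T3 → ℂ := fun p => (ψ p.1 : ℂ) * A₀ p + ((deriv ψ p.1 : ℝ) : ℂ) * B p with hA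
  have hW1A : J 1 (W1 τ.w m A) := J_congr (J_add (J_mono (by norm_num) hr)
    (J_smul (hψc.mul ((contDiff_s hθs).mul hα)) J_eta)) fun p => by ring
  refine ⟨hδ, ?_, ?_, ?_⟩
  · -- `c2`
    refine J_congr (J_smul hAss (J_mul hWb hΦ4)) fun p => ?_
    unfold c2; ring
  · -- `c1`
    have t1 : J 3 (fun p => (τ.w.conj.op Φ p -
        2 * Complex.I * τ.kap p.1 * (τ.d (p.1, 0, 0) : ℂ) * eta p) * W1 τ.w m A p) := J_mul hP hW1A
    have t2 : J 3 (fun p => eta p * (W1 τ.w m A p - (ψ p.1 : ℂ) * (theta τ p.1 * a₀ p.1) * eta p)) :=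
      J_mul J_eta hr
    have hη2 : J 2 (fun p => eta p * eta p) := J_mul J_eta J_eta
    have t3 : J 3 (fun p => (eta p * eta p) * (A p - (ψ p.1 : ℂ) * a₀ p.1)) := J_mul hη2 hδ
    have t4 : J 4 (fun p => τ.w.op Φ p * A p) := J_congr (J_smul hAss hΦ4) fun p => by ring
    have t5 : J 3 (Wd τ.w n (fun p => τ.w.op Φ p * A p)) := by
      unfold Wd
      exact J_add (J_neg (J_op hwb t4)) (J_mono (by norm_num) (J_smul hn t4))
    have t6 := J_smul hAss hS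
    have s1 := J_smul (contDiff_const (c := -Complex.I)) t1
    have s2 := J_smul (contDiff_const (c := (2 : ℂ)).mul ((contDiff_s hκ).mul (contDiff_s hd))) t2
    have s3 := J_smul (contDiff_const (c := -(Complex.I / 2)).mul (contDiff_s hκ1)) t3
    have s5 := J_smul (contDiff_const (c := Complex.I)) t5
    refine J_congr (J_add (J_add (J_add (J_add s1 s2) s3) s5) t6) fun p => ?_
    unfold c1
    have h1 := hθ2 p.1
    have hI := Complex.I_mul_I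
    linear_combination ((ψ p.1 : ℂ) * a₀ p.1 * (eta p * eta p)) * h1 +
      (-2 * τ.kap p.1 * (τ.d (p.1, 0, 0) : ℂ) * eta p * W1 τ.w m A p) * hI
  · -- `c0`
    have hW1s : ContDiff ℝ ∞ (W1 τ.w m A) := J_contDiff hW1A
    refine J_of_axis ?_ fun s => ?_
    · have t1 : ContDiff ℝ ∞ (Wd τ.w n (W1 τ.w m A)) := by
        unfold Wd
        exact (hwb.op hW1s).neg.add (hn.mul hW1s)
      unfold c0
      exact ((t1.sub (contDiff_const.mul (contDiff_pd0 hAss))).add (hom.mul hAss)).add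
        ((contDiff_const.mul hψ1).mul hα)
    · have z1 : W1 τ.w m A (s, 0, 0) = 0 := J_axis hW1A s
      have z2 := J_axis (J_op hwb hr) s
      have z3 := J_axis (J_pd0 hδ) s
      have z4 := J_axis hδ s
      have z5 : eta (s, 0, 0) = 0 := J_axis J_eta s
      -- the derivative of `W₁ A`
      have f1 : ContDiff ℝ ∞ (fun p : T3 => (ψ p.1 : ℂ) * (theta τ p.1 * a₀ p.1)) :=
        hψc.mul ((contDiff_s hθs).mul hα)
      have f2 : ContDiff ℝ ∞ eta := J_contDiff J_eta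
      have y1 := τ.w.conj.op_sub (f := W1 τ.w m A)
        (g := fun p => (ψ p.1 : ℂ) * (theta τ p.1 * a₀ p.1) * eta p)
        (hW1s.differentiable (by simp) (s, 0, 0)) ((f1.mul f2).differentiable (by simp) (s, 0, 0))
      have y2 := τ.w.conj.op_mul (f := fun p : T3 => (ψ p.1 : ℂ) * (theta τ p.1 * a₀ p.1)) (g := eta)
        (f1.differentiable (by simp) (s, 0, 0)) (f2.differentiable (by simp) (s, 0, 0))
      have y3 := op_eta τ.w.conj (s, 0, 0)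
      -- the derivative of `A`
      have x1 := pd0_add (f := fun p : T3 => A p - (ψ p.1 : ℂ) * a₀ p.1)
        (g := fun p : T3 => (ψ p.1 : ℂ) * a₀ p.1)
        ((J_diff hδ) (s, 0, 0)) ((hψc.mul hα).differentiable (by simp) (s, 0, 0))
      have x2 := pd0_mul (f := fun p : T3 => (ψ p.1 : ℂ)) (g := fun p : T3 => a₀ p.1)
        (hψc.differentiable (by simp) (s, 0, 0)) (hα.differentiable (by simp) (s, 0, 0))
      have x3 : pd0 (fun p : T3 => (ψ p.1 : ℂ)) (s, 0, 0) = ((deriv ψ s : ℝ) : ℂ) := by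
        rw [pd0_s (f := fun s => (ψ s : ℂ)) ((contDiff_ofReal' hψ).differentiable (by simp) _),
          deriv_ofReal (hψ.differentiable (by simp))]
      have x4 : pd0 (fun p : T3 => a₀ p.1) (s, 0, 0) = gg τ om s * a₀ s := by
        rw [pd0_s (ha.differentiable (by simp) _), ha1]
      have x5 : (fun p : T3 => (A p - (ψ p.1 : ℂ) * a₀ p.1) + (ψ p.1 : ℂ) * a₀ p.1) = A := by
        funext p; ring
      rw [x5, x2, x3, x4] at x1
      simp only at z2 z3 z4 y1 y2 x1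
      rw [y2, y3, z5] at y1
      unfold c0 Wd
      simp only
      rw [z1]
      have g1 : gg τ om s = -Complex.I * (om (s, 0, 0) - theta τ s * DD τ s) := rfl
      have g2 : DD τ s = τ.w.conj.x (s, 0, 0) - Complex.I * τ.w.conj.y (s, 0, 0) := rfl
      rw [x1, z3, g1, g2]
      have hI := Complex.I_mul_I
      have z2' : τ.w.conj.op (W1 τ.w m A) (s, 0, 0) = (ψ s : ℂ) * (theta τ s * a₀ s) *
          (τ.w.conj.x (s, 0, 0) - Complex.I * τ.w.conj.y (s, 0, 0)) := by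
        linear_combination z2 - y1
      rw [z2']
      linear_combination (om (s, 0, 0)) * z4 + ((ψ s : ℂ) * a₀ s * (om (s, 0, 0) -
        theta τ s * (τ.w.conj.x (s, 0, 0) - Complex.I * τ.w.conj.y (s, 0, 0)))) * hI

theorem theta_per {τ : Tube} {ℓ : ℝ} (hτ : τ.Per ℓ) (s : ℝ) : theta τ (s + ℓ) = theta τ s := by
  unfold theta
  rw [hτ.deriv_kap, hτ.kap, hτ.d (s, 0, 0)]

theorem gg_per {τ : Tube} {ℓ : ℝ} (hτ : τ.Per ℓ) {om : T3 → ℂ} (hom : PerI ℓ om) (s : ℝ) :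
    gg τ om (s + ℓ) = gg τ om s := by
  unfold gg DD
  rw [theta_per hτ, hom (s, 0, 0), hτ.w.conj.x (s, 0, 0), hτ.w.conj.y (s, 0, 0)]

end Amp

open Amp in
/-- the periodic amplitude -/
theorem exists_amp_per (τ : Tube) {ℓ : ℝ} (hℓ : 0 < ℓ) (hτ : τ.Per ℓ) {m n om : T3 → ℂ}
    (hm : ContDiff ℝ ∞ m) (hn : ContDiff ℝ ∞ n) (hom : ContDiff ℝ ∞ om) (hmp : PerI ℓ m)
    (homp : PerI ℓ om) {Φ : T3 → ℂ}
    (hΦ : J 3 (fun p => Φ p - τ.phi2 p)) (hΦ4 : J 4 (τ.w.op Φ)) :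
    ∃ (μ : ℂ) (a₀ : ℝ → ℂ) (A₀ B : T3 → ℂ), μ ≠ 0 ∧ (∀ s, a₀ (s + ℓ) = μ * a₀ s) ∧
      (∀ p : T3, A₀ (p.1 + ℓ, p.2) = μ * A₀ p) ∧ (∀ p : T3, B (p.1 + ℓ, p.2) = μ * B p) ∧
      ContDiff ℝ ∞ a₀ ∧ (∀ s, a₀ s ≠ 0) ∧ ContDiff ℝ ∞ A₀ ∧
      ContDiff ℝ ∞ B ∧ ∀ ψ : ℝ → ℝ, ContDiff ℝ ∞ ψ →
        J 1 (fun p => ((ψ p.1 : ℂ) * A₀ p + ((deriv ψ p.1 : ℝ) : ℂ) * B p) - (ψ p.1 : ℂ) * a₀ p.1) ∧
        J 5 (c2 τ.w Φ (fun p => (ψ p.1 : ℂ) * A₀ p + ((deriv ψ p.1 : ℝ) : ℂ) * B p)) ∧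
        J 3 (c1 τ.w m n Φ (fun p => (ψ p.1 : ℂ) * A₀ p + ((deriv ψ p.1 : ℝ) : ℂ) * B p)) ∧
        J 1 (fun p => c0 τ.w m n om (fun p => (ψ p.1 : ℂ) * A₀ p + ((deriv ψ p.1 : ℝ) : ℂ) * B p) p +
          Complex.I * ((deriv ψ p.1 : ℝ) : ℂ) * a₀ p.1) := by
  have hw := τ.w_smooth
  have hws := τ.ws_J
  have hθs := contDiff_s (theta_smooth τ)
  have hgs := contDiff_s (gg_smooth τ hom)
  obtain ⟨a₀, ha, ha0, ha1⟩ := exists_a0 (gg_smooth τ hom)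
  have hα := contDiff_s ha
  have hαi : ContDiff ℝ ∞ (fun p : T3 => (a₀ p.1)⁻¹) := hα.inv fun p => ha0 p.1
  -- the multiplier
  have hμ : ∃ μ : ℂ, μ ≠ 0 ∧ ∀ s, a₀ (s + ℓ) = μ * a₀ s := by
    have hd : ∀ s, HasDerivAt (fun s => a₀ (s + ℓ) / a₀ s) 0 s := by
      intro s
      have h1 : HasDerivAt (fun s => a₀ (s + ℓ)) (gg τ om s * a₀ (s + ℓ)) s := by
        have h := ((ha.differentiable (by simp) (s + ℓ)).hasDerivAt)
        rw [ha1, gg_per hτ homp] at h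
        exact h.comp_add_const s ℓ
      have h2 : HasDerivAt a₀ (gg τ om s * a₀ s) s := by
        have h := ((ha.differentiable (by simp) s).hasDerivAt)
        rwa [ha1] at h
      have h3 := h1.div h2 (ha0 s)
      have e : (gg τ om s * a₀ (s + ℓ) * a₀ s - a₀ (s + ℓ) * (gg τ om s * a₀ s)) / a₀ s ^ 2 = 0 := by
        rw [show gg τ om s * a₀ (s + ℓ) * a₀ s - a₀ (s + ℓ) * (gg τ om s * a₀ s) = 0 by ring, zero_div]
      rw [e] at h3
      exact h3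
    refine ⟨a₀ (0 + ℓ) / a₀ 0, div_ne_zero (ha0 _) (ha0 _), fun s => ?_⟩
    have hc := is_const_of_deriv_eq_zero (fun s => (hd s).differentiableAt) (fun s => (hd s).deriv) s 0
    rw [← hc, div_mul_cancel₀ _ (ha0 s)]
  obtain ⟨μ, hμ0, hμ⟩ := hμ
  have hDper : ∀ s, (theta τ (s + ℓ)) = theta τ s := theta_per hτ
  -- normalised amplitude `1 + α₁ + α₂`
  obtain ⟨α₁, hα₁, hα₁p, hα₁'⟩ := solve_per hw hℓ hτ.w.s hτ.w.x hτ.w.y hws τ.w_ne (k := 0)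
    (R := fun p => -m p) hm.neg (fun p => by simp only [hmp p])
  have hR : J 1 (fun p => theta τ p.1 * eta p - (τ.w.op α₁ p +
      (m p + τ.w.s p * gg τ om p.1) * (1 + α₁ p))) := by
    have t1 : J 1 (fun p => theta τ p.1 * eta p) := J_smul hθs J_eta
    have t2 : J 1 (fun p => m p * α₁ p) := J_smul hm hα₁
    have t3 : J 1 (fun p => (gg τ om p.1 * (1 + α₁ p)) * τ.w.s p) :=
      J_smul (hgs.mul (contDiff_const.add (J_contDiff hα₁))) hws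
    refine J_congr (J_sub (J_sub t1 hα₁') (J_add t2 t3)) fun p => ?_
    ring
  obtain ⟨α₂, hα₂, hα₂p, hα₂'⟩ := solve_per hw hℓ hτ.w.s hτ.w.x hτ.w.y hws τ.w_ne hR (by
    intro p
    have e1 : eta (p.1 + ℓ, p.2) = eta p := rfl
    simp only
    rw [e1, hDper, hτ.w.op' hα₁p p, hmp p, hτ.w.s p, gg_per hτ homp, hα₁p p])
  obtain ⟨b, hb, hbp, hb'⟩ := solve_per hw hℓ hτ.w.s hτ.w.x hτ.w.y hws τ.w_ne (k := 1)
    (R := fun p => -τ.w.s p) (J_neg hws) (fun p => by simp only [hτ.w.s p])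
  have dα : Differentiable ℝ (fun p : T3 => a₀ p.1) := hα.differentiable (by simp)
  have hopα : ∀ p, τ.w.op (fun p => a₀ p.1) p = τ.w.s p * (gg τ om p.1 * a₀ p.1) := fun p => by
    rw [op_s τ.w (ha.differentiable (by simp) _), ha1]
  have hns : ContDiff ℝ ∞ (fun p => 1 + α₁ p + α₂ p) :=
    (contDiff_const.add (J_contDiff hα₁)).add (J_contDiff hα₂)
  have hA₁₂ : J 1 (fun p => a₀ p.1 * (1 + α₁ p + α₂ p) - a₀ p.1) :=
    J_congr (J_smul hα (J_add hα₁ (J_mono (by norm_num) hα₂))) fun p => by ring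
  have hAW : J 2 (fun p => W1 τ.w m (fun p => a₀ p.1 * (1 + α₁ p + α₂ p)) p -
      theta τ p.1 * a₀ p.1 * eta p) := by
    have t1 : J 2 (fun p => (m p + τ.w.s p * gg τ om p.1) * α₂ p) :=
      J_smul (hm.add (hw.s.mul hgs)) hα₂
    refine J_congr (J_smul hα (J_add hα₂' t1)) fun p => ?_
    unfold W1
    have s1 := τ.w.op_mul (f := fun p => a₀ p.1) (g := fun p => 1 + α₁ p + α₂ p) (dα p)
      (hns.differentiable (by simp) p)
    have s2 := τ.w.op_add (f := fun p => 1 + α₁ p) (g := α₂)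
      ((contDiff_const.add (J_contDiff hα₁)).differentiable (by simp) p) (J_diff hα₂ p)
    have s3 := τ.w.op_add (f := fun _ => 1) (g := α₁) (differentiableAt_const _) (J_diff hα₁ p)
    have s4 := τ.w.op_const 1 p
    rw [s1, s2, s3, s4, hopα]
    ring
  have hB2 : J 2 (fun p => a₀ p.1 * b p) := J_smul hα hb
  have hBW : J 2 (fun p => τ.w.op (fun p => a₀ p.1 * b p) p + τ.w.s p * a₀ p.1) := by
    have t1 : J 2 (fun p => (τ.w.s p * (gg τ om p.1 * a₀ p.1)) * b p) :=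
      J_smul (hw.s.mul (hgs.mul hα)) hb
    refine J_congr (J_add (J_smul hα hb') t1) fun p => ?_
    have s1 := τ.w.op_mul (f := fun p => a₀ p.1) (g := b) (dα p) (J_diff hb p)
    rw [s1, hopα]
    ring
  refine ⟨μ, a₀, fun p => a₀ p.1 * (1 + α₁ p + α₂ p), fun p => a₀ p.1 * b p, hμ0, hμ, fun p => ?_,
    fun p => ?_, ha, ha0, hα.mul hns, hα.mul (J_contDiff hb), fun ψ hψ => ?_⟩
  · simp only
    rw [hμ, hα₁p p, hα₂p p]; ring
  · simp only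
    rw [hμ, hbp p]; ring
  · exact amp_final τ hm hn hom hΦ hΦ4 ha ha1 hA₁₂ hAW hB2 hBW hψ

end Pool.Agent.SRGap
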