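import Pool.Agent.Work.MP_188050_an.QM
import Pool.Agent.Work.MP_188050_an.PerAmp

/-!
# MP_188050_an: periodic quasimodes
-/

open Set MeasureTheory Filter Topology
open scoped ContDiff

namespace Pool.Agent.SRGap

/-- the open solid tube of radius `δ` -/
def tubeN (δ : ℝ) : Set T3 := {p | ‖p.2‖ < δ}

theorem isOpen_tubeN (δ : ℝ) : IsOpen (tubeN δ) := isOpen_lt (by fun_prop) continuous_const

theorem axis_mem_tubeN {δ : ℝ} (hδ : 0 < δ) (s : ℝ) : ((s, 0, 0) : T3) ∈ tubeN δ := by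
  change ‖((0 : ℝ), (0 : ℝ))‖ < δ
  have : ‖((0 : ℝ), (0 : ℝ))‖ = 0 := norm_zero
  rwa [this]

/-- the data of the periodic quasimode construction -/
structure PQ (τ : Tube) (δ ℓ : ℝ) where
  D : QD τ (tubeN δ) (3 * ℓ)
  μ : ℂ
  hΦ' : ∀ p : T3, D.Φ (p.1 + ℓ, p.2) = D.Φ p + ℓ
  ha' : ∀ s, D.a₀ (s + ℓ) = μ * D.a₀ s
  hA' : ∀ p : T3, D.A₀ (p.1 + ℓ, p.2) = μ * D.A₀ p

theorem exists_PQ (τ : Tube) {δ ℓ : ℝ} (hδ : 0 < δ) (hℓ : 0 < ℓ) (hτ : τ.Per ℓ)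
    (hgood : τ.Good (tubeN δ)) : Nonempty (PQ τ δ ℓ) := by
  obtain ⟨Φ, hΦs, hΦp, hΦ, hΦ4⟩ := exists_phase_per τ hℓ hτ
  obtain ⟨μ, a₀, A₀, B, -, ha', hA', -, ha₀, ha₀n, hA₀, hB, hamp⟩ :=
    exists_amp_per τ hℓ hτ τ.mu_smooth τ.nu_smooth τ.om_smooth hτ.mu hτ.om hΦ hΦ4
  obtain ⟨ε, c, C, hε, hc, hreg, hlow, happr, hq⟩ := region τ hΦ (isOpen_tubeN δ) (ℓ := 3 * ℓ)
    (fun s _ => axis_mem_tubeN hδ s)
  let f : ContDiffBump (0 : ℝ × ℝ) := ⟨ε / 2, ε, by positivity, by linarith⟩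
  refine ⟨⟨⟨Φ, a₀, A₀, B, ε, c, C, f, isOpen_tubeN δ, hgood, hΦs, hΦ, ha₀, ha₀n, hA₀, hB, hamp, hε, hc,
    hreg, hlow, happr, hq, f.contDiff, fun z hz => ?_, fun z hz => ?_⟩, μ, hΦp, ha', hA'⟩⟩
  · exact f.one_of_mem_closedBall (by rw [mem_closedBall_zero_iff]; exact hz.le)
  · exact f.zero_of_le_dist (by rw [dist_zero_right]; exact hz.le)

namespace PQ

variable {τ : Tube} {δ ℓ : ℝ} (Q : PQ τ δ ℓ)

theorem Φ_im (p : T3) : (Q.D.Φ (p.1 + ℓ, p.2)).im = (Q.D.Φ p).im := by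
  rw [Q.hΦ']; simp

theorem G_per (hτ : τ.Per ℓ) (s : ℝ) : QD.G τ (s + ℓ) = QD.G τ s := by
  unfold QD.G
  refine integral_congr_ae (Eventually.of_forall fun z => ?_)
  have h := hτ.phi2 (s, z)
  simp only at h
  simp only [Tube.q, h, Complex.add_im, Complex.ofReal_im, add_zero]

include Q in
theorem N_per (hτ : τ.Per ℓ) (s : ℝ) : Q.D.N (s + ℓ) = ‖Q.μ‖ ^ 2 * Q.D.N s := by
  unfold QD.N
  rw [G_per hτ, Q.ha', norm_mul, hτ.ρ (s, 0, 0)]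
  ring

/-- the multiplier has modulus one -/
theorem norm_mu (hℓ : 0 < ℓ) (hτ : τ.Per ℓ) : ‖Q.μ‖ = 1 := by
  obtain ⟨C, hC⟩ := Q.D.N_const
  have h1 := hC ℓ ⟨hℓ, by linarith⟩
  have h2 := hC (ℓ + ℓ) ⟨by linarith, by linarith⟩
  have h3 := Q.D.N_pos ℓ
  rw [Q.N_per hτ, h1] at h2
  rw [h1] at h3
  have h4 : ‖Q.μ‖ ^ 2 = 1 := by
    have h5 : (‖Q.μ‖ ^ 2 - 1) * C = 0 := by rw [sub_mul, h2]; ring
    rcases mul_eq_zero.1 h5 with h | h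
    · linarith
    · exact absurd h h3.ne'
  have h6 : 0 ≤ ‖Q.μ‖ := norm_nonneg _
  nlinarith

/-- the constant function one -/
def one : ℝ → ℝ := fun _ => 1

theorem one_smooth : ContDiff ℝ ∞ one := contDiff_const

theorem deriv_one' (s : ℝ) : deriv one s = 0 := by unfold one; simp

theorem raw_eq (p : T3) : Q.D.raw one p = Q.D.A₀ p := by
  unfold QD.raw
  rw [deriv_one']
  simp [one]

theorem raw_smooth : ContDiff ℝ ∞ (Q.D.raw one) := by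
  have : Q.D.raw one = Q.D.A₀ := funext Q.raw_eq
  rw [this]; exact Q.D.hA₀

theorem A_smooth : ContDiff ℝ ∞ (Q.D.A one) := by
  have h1 : ContDiff ℝ ∞ (fun p : T3 => ((Q.D.χ p.2 : ℝ) : ℂ)) :=
    Complex.ofRealCLM.contDiff.comp (Q.D.hχs.comp contDiff_snd)
  exact h1.mul Q.raw_smooth

/-- the exterior of the support -/
def far : Set T3 := {p | Q.D.ε < ‖p.2‖}

theorem isOpen_far : IsOpen Q.far := isOpen_lt continuous_const (by fun_prop)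

theorem A_far : EqOn (Q.D.A one) (fun _ => 0) Q.far := by
  intro p hp
  unfold QD.A
  rw [Q.D.hχ0 _ hp, Complex.ofReal_zero, zero_mul]

theorem c2_far {p : T3} (hp : p ∈ Q.far) : c2 τ.w Q.D.Φ (Q.D.A one) p = 0 := by
  rw [c2_congr _ _ Q.A_far hp, c2_zero]

theorem c1_far {p : T3} (hp : p ∈ Q.far) : c1 τ.w τ.mu τ.nu Q.D.Φ (Q.D.A one) p = 0 := by
  rw [c1_congr _ _ _ _ Q.isOpen_far Q.A_far hp, c1_zero]

theorem c0_far {p : T3} (hp : p ∈ Q.far) : c0 τ.w τ.mu τ.nu τ.om (Q.D.A one) p = 0 := by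
  rw [c0_congr _ _ _ _ Q.isOpen_far Q.A_far hp, c0_zero]

theorem A_axis (s : ℝ) : Q.D.A one (s, 0, 0) = Q.D.a₀ s := by
  rw [Q.D.A_eqOn_raw one (Q.D.axis_near s)]
  have h := sub_eq_zero.1 (J_axis (Q.D.hamp one one_smooth).1 s)
  have e : ((one s : ℝ) : ℂ) = 1 := by simp [one]
  have h2 : Q.D.raw one (s, 0, 0) = (one s : ℂ) * Q.D.a₀ s := h
  rw [h2, e, one_mul]

theorem c0_J : J 1 (c0 τ.w τ.mu τ.nu τ.om (Q.D.raw one)) := by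
  have h := (Q.D.hamp one one_smooth).2.2.2
  have e : (fun p : T3 => c0 τ.w τ.mu τ.nu τ.om
      (fun p => (one p.1 : ℂ) * Q.D.A₀ p + ((deriv one p.1 : ℝ) : ℂ) * Q.D.B p) p +
      Complex.I * ((deriv one p.1 : ℝ) : ℂ) * Q.D.a₀ p.1) = c0 τ.w τ.mu τ.nu τ.om (Q.D.raw one) := by
    funext p
    rw [deriv_one' p.1]
    simp only [Complex.ofReal_zero, mul_zero, zero_mul, add_zero]
    rfl
  rwa [e] at h

theorem c2_bound : ∃ C : ℝ, 0 ≤ C ∧ ∀ p ∈ reg (3 * ℓ) Q.D.ε,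
    ‖c2 τ.w Q.D.Φ (Q.D.A one) p‖ ≤ C * ‖p.2‖ ^ 5 :=
  bound_of_near (c2_smooth τ.w_smooth Q.D.hΦs Q.A_smooth).continuous (Q.D.hamp one one_smooth).2.1
    (δ := Q.D.ε / 2) (by have := Q.D.hε; positivity)
    (fun _ hp => c2_congr _ _ (Q.D.A_eqOn_raw one) hp) (reg_compact _ _)

theorem c1_bound : ∃ C : ℝ, 0 ≤ C ∧ ∀ p ∈ reg (3 * ℓ) Q.D.ε,
    ‖c1 τ.w τ.mu τ.nu Q.D.Φ (Q.D.A one) p‖ ≤ C * ‖p.2‖ ^ 3 :=
  bound_of_near (c1_smooth τ.w_smooth τ.mu_smooth τ.nu_smooth Q.D.hΦs Q.A_smooth).continuous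
    (Q.D.hamp one one_smooth).2.2.1 (δ := Q.D.ε / 2) (by have := Q.D.hε; positivity)
    (fun _ hp => c1_congr _ _ _ _ Q.D.isOpen_near (Q.D.A_eqOn_raw one) hp) (reg_compact _ _)

theorem c0_bound : ∃ C : ℝ, 0 ≤ C ∧ ∀ p ∈ reg (3 * ℓ) Q.D.ε,
    ‖c0 τ.w τ.mu τ.nu τ.om (Q.D.A one) p‖ ≤ C * ‖p.2‖ ^ 1 :=
  bound_of_near (c0_smooth τ.w_smooth τ.mu_smooth τ.nu_smooth τ.om_smooth Q.A_smooth).continuous
    Q.c0_J (δ := Q.D.ε / 2) (by have := Q.D.hε; positivity)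
    (fun _ hp => c0_congr _ _ _ _ Q.D.isOpen_near (Q.D.A_eqOn_raw one) hp) (reg_compact _ _)

/-- the complex quasimode -/
noncomputable def V (t : ℝ) : T3 → ℂ := Q.D.v one t

theorem V_smooth (t : ℝ) : ContDiff ℝ ∞ (Q.V t) :=
  (Complex.contDiff_exp.comp (contDiff_const.mul Q.D.hΦs)).mul Q.A_smooth

theorem V_far (t : ℝ) : EqOn (Q.V t) (fun _ => 0) Q.far := by
  intro p hp
  unfold V QD.v
  rw [Q.A_far hp, mul_zero]

theorem ε_lt (hℓ : 0 < ℓ) : Q.D.ε < δ := by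
  have h1 : ((0, Q.D.ε, 0) : T3) ∈ reg (3 * ℓ) Q.D.ε := by
    refine ⟨⟨le_rfl, by positivity⟩, ?_⟩
    rw [mem_closedBall_zero_iff]
    show ‖((Q.D.ε, 0) : ℝ × ℝ)‖ ≤ Q.D.ε
    rw [Prod.norm_def]
    simp [Real.norm_eq_abs, abs_of_pos Q.D.hε, Q.D.hε.le]
  have h2 := Q.D.hreg h1
  have h3 : ‖((Q.D.ε, 0) : ℝ × ℝ)‖ < δ := h2
  rw [Prod.norm_def] at h3
  have h4 : ‖Q.D.ε‖ < δ := lt_of_le_of_lt (le_max_left _ _) h3
  rwa [Real.norm_eq_abs, abs_of_pos Q.D.hε] at h4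

/-- the multiplier relation -/
theorem V_shift (t : ℝ) (p : T3) : Q.V t (p.1 + ℓ, p.2) =
    (Complex.exp (Complex.I * t * ℓ) * Q.μ) * Q.V t p := by
  unfold V QD.v QD.A
  rw [Q.raw_eq, Q.raw_eq, Q.hΦ', Q.hA', mul_add, Complex.exp_add]
  ring

theorem formula (hℓ : 0 < ℓ) (t : ℝ) (p : T3) :
    τ.L (Q.V t) p - t * Q.V t p = Complex.exp (Complex.I * t * Q.D.Φ p) * Q.D.P one t p := by
  by_cases hp : p ∈ tubeN δ
  · rw [oper τ Q.D.hU Q.D.good (Q.V_smooth t) hp]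
    exact conj_formula τ.w τ.mu τ.nu τ.om τ.w_smooth τ.mu_smooth Q.D.hΦs Q.A_smooth t p
  · have hp' : p ∈ Q.far := lt_of_lt_of_le (Q.ε_lt hℓ) (not_lt.1 hp)
    rw [L_congr τ Q.isOpen_far (Q.V_far t) hp', L_zero, Q.V_far t hp']
    unfold QD.P
    rw [Q.c2_far hp', Q.c1_far hp', Q.c0_far hp']
    simp

theorem norm_V_sq (t : ℝ) (p : T3) :
    ‖Q.V t p‖ ^ 2 = ‖Q.D.A one p‖ ^ 2 * Real.exp (-(t * Q.D.φ p)) := Q.D.norm_v_sq one t p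

theorem norm_LV_sq (hℓ : 0 < ℓ) (t : ℝ) (p : T3) :
    ‖τ.L (Q.V t) p - t * Q.V t p‖ ^ 2 = ‖Q.D.P one t p‖ ^ 2 * Real.exp (-(t * Q.D.φ p)) := by
  rw [Q.formula hℓ, norm_mul, mul_pow, Q.D.norm_exp_sq]
  ring

section est
variable {θ : ℝ → ℝ} (hθ : Continuous θ) (hθ0 : ∀ s, 0 ≤ θ s) (hθs : ∀ s, s ∉ Icc 0 (3 * ℓ) → θ s = 0)
include hθs

theorem zero_of {F : T3 → ℝ} (hF : ∀ p ∈ Q.far, F p = 0) (p : T3) (hp : p ∉ reg (3 * ℓ) Q.D.ε) :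
    θ p.1 * F p = 0 := by
  by_cases hs : p.1 ∈ Icc 0 (3 * ℓ)
  · have hz : p.2 ∉ Metric.closedBall (0 : ℝ × ℝ) Q.D.ε := fun h => hp ⟨hs, h⟩
    rw [mem_closedBall_zero_iff, not_le] at hz
    rw [hF p hz, mul_zero]
  · rw [hθs _ hs, zero_mul]

include hθ hθ0

omit hθ0 in
/-- limit of the denominators -/
theorem den : Tendsto (fun t : ℝ => t * ∫ p, θ p.1 * (‖Q.V t p‖ ^ 2 * τ.ρ p)) atTop
      (𝓝 (∫ s : ℝ, θ s * Q.D.N s)) := by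
  have hA := Q.A_smooth.continuous
  have hρ := τ.smooth_ρ.continuous
  have h := Q.D.lim (F := fun p => θ p.1 * (‖Q.D.A one p‖ ^ 2 * τ.ρ p)) (by fun_prop)
    (Q.zero_of hθs (F := fun p => ‖Q.D.A one p‖ ^ 2 * τ.ρ p) (fun p hp => by simp [Q.A_far hp]))
  convert h using 2 with t
  · congr 1
    refine integral_congr_ae (Eventually.of_forall fun p => ?_)
    simp only [Q.norm_V_sq]
    ring
  · refine integral_congr_ae (Eventually.of_forall fun s => ?_)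
    simp only [Q.A_axis, QD.N]
    ring

/-- the numerators tend to zero -/
theorem num (hℓ : 0 < ℓ) :
    Tendsto (fun t : ℝ => t * ∫ p, θ p.1 * (‖τ.L (Q.V t) p - t * Q.V t p‖ ^ 2 * τ.ρ p)) atTop
      (𝓝 0) := by
  have hA := Q.A_smooth
  have hc2 := (c2_smooth τ.w_smooth Q.D.hΦs hA).continuous
  have hc1 := (c1_smooth τ.w_smooth τ.mu_smooth τ.nu_smooth Q.D.hΦs hA).continuous
  have hc0 := (c0_smooth τ.w_smooth τ.mu_smooth τ.nu_smooth τ.om_smooth hA).continuous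
  have hρ := τ.smooth_ρ.continuous
  obtain ⟨R, hR0, hR⟩ := Q.D.ρ_bound
  obtain ⟨C2, hC2, hb2⟩ := Q.c2_bound
  obtain ⟨C1, hC1, hb1⟩ := Q.c1_bound
  obtain ⟨C0, hC0, hb0⟩ := Q.c0_bound
  obtain ⟨T, hT⟩ := (isCompact_Icc (a := (0 : ℝ)) (b := 3 * ℓ)).exists_bound_of_continuousOn
    hθ.continuousOn
  set F2 : T3 → ℝ := fun p => θ p.1 * (‖c2 τ.w Q.D.Φ (Q.D.A one) p‖ ^ 2 * τ.ρ p) with hF2
  set F1 : T3 → ℝ := fun p => θ p.1 * (‖c1 τ.w τ.mu τ.nu Q.D.Φ (Q.D.A one) p‖ ^ 2 * τ.ρ p) with hF1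
  set F0 : T3 → ℝ := fun p => θ p.1 * (‖c0 τ.w τ.mu τ.nu τ.om (Q.D.A one) p‖ ^ 2 * τ.ρ p) with hF0
  have hF2c : Continuous F2 := by fun_prop
  have hF1c : Continuous F1 := by fun_prop
  have hF0c : Continuous F0 := by fun_prop
  have hF20 : ∀ p, p ∉ reg (3 * ℓ) Q.D.ε → F2 p = 0 := Q.zero_of hθs (fun p hp => by simp [Q.c2_far hp])
  have hF10 : ∀ p, p ∉ reg (3 * ℓ) Q.D.ε → F1 p = 0 := Q.zero_of hθs (fun p hp => by simp [Q.c1_far hp])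
  have hF00 : ∀ p, p ∉ reg (3 * ℓ) Q.D.ε → F0 p = 0 := Q.zero_of hθs (fun p hp => by simp [Q.c0_far hp])
  have hgen : ∀ (z : ℂ) (p : T3) (C : ℝ) (k : ℕ), p ∈ reg (3 * ℓ) Q.D.ε → ‖z‖ ≤ C * ‖p.2‖ ^ k → 0 ≤ C →
      |θ p.1 * (‖z‖ ^ 2 * τ.ρ p)| ≤ |T| * C ^ 2 * R * ‖p.2‖ ^ (2 * k) := by
    intro z p C k hp hz hC
    have h1 : θ p.1 ≤ |T| := (le_abs_self _).trans ((hT p.1 hp.1).trans (le_abs_self _))
    have h2 := hR p hp
    have h3 := (τ.ρ_pos p).le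
    have h4 := hθ0 p.1
    rw [abs_of_nonneg (by positivity)]
    calc θ p.1 * (‖z‖ ^ 2 * τ.ρ p) ≤ |T| * ((C * ‖p.2‖ ^ k) ^ 2 * R) := by gcongr
      _ = |T| * C ^ 2 * R * ‖p.2‖ ^ (2 * k) := by rw [mul_pow, ← pow_mul, mul_comm k 2]; ring
  have hl2 := Q.D.small_tendsto hF2c hF20 (k := 2 * 5) (j := 4) (by norm_num) (C := |T| * C2 ^ 2 * R)
    (fun p hp => hgen _ p _ 5 hp (hb2 p hp) hC2)
  have hl1 := Q.D.small_tendsto hF1c hF10 (k := 2 * 3) (j := 2) (by norm_num) (C := |T| * C1 ^ 2 * R)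
    (fun p hp => hgen _ p _ 3 hp (hb1 p hp) hC1)
  have hl0 := Q.D.small_tendsto hF0c hF00 (k := 2 * 1) (j := 0) (by norm_num) (C := |T| * C0 ^ 2 * R)
    (fun p hp => hgen _ p _ 1 hp (hb0 p hp) hC0)
  have hmaj := ((hl2.const_mul 3).add (hl1.const_mul 3)).add (hl0.const_mul 3)
  simp only [mul_zero, add_zero, pow_zero, one_mul] at hmaj
  refine squeeze_zero' ?_ ?_ hmaj
  · filter_upwards [eventually_ge_atTop 0] with t ht
    refine mul_nonneg ht (integral_nonneg fun p => ?_)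
    exact mul_nonneg (hθ0 _) (mul_nonneg (by positivity) (τ.ρ_pos p).le)
  filter_upwards [eventually_ge_atTop 1] with t ht
  have ht0 : 0 < t := by linarith
  have hint2 := Q.D.integrable hF2c hF20 t
  have hint1 := Q.D.integrable hF1c hF10 t
  have hint0 := Q.D.integrable hF0c hF00 t
  have hle : ∫ p, θ p.1 * (‖τ.L (Q.V t) p - t * Q.V t p‖ ^ 2 * τ.ρ p) ≤
      ∫ p, (3 * t ^ 4 * (F2 p * Real.exp (-(t * Q.D.φ p))) +
        3 * t ^ 2 * (F1 p * Real.exp (-(t * Q.D.φ p))) + 3 * (F0 p * Real.exp (-(t * Q.D.φ p)))) := by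
    refine integral_mono_of_nonneg (Eventually.of_forall fun p => ?_)
      (((hint2.const_mul _).add (hint1.const_mul _)).add (hint0.const_mul _))
      (Eventually.of_forall fun p => ?_)
    · exact mul_nonneg (hθ0 _) (mul_nonneg (by positivity) (τ.ρ_pos p).le)
    · simp only [hF2, hF1, hF0]
      rw [Q.norm_LV_sq hℓ]
      have h3 : ‖Q.D.P one t p‖ ≤ t ^ 2 * ‖c2 τ.w Q.D.Φ (Q.D.A one) p‖ +
          t * ‖c1 τ.w τ.mu τ.nu Q.D.Φ (Q.D.A one) p‖ + ‖c0 τ.w τ.mu τ.nu τ.om (Q.D.A one) p‖ := by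
        unfold QD.P
        refine (norm_add₃_le).trans ?_
        rw [norm_mul, norm_mul, norm_pow, Complex.norm_real, Real.norm_eq_abs, abs_of_pos ht0]
      have h4 : ‖Q.D.P one t p‖ ^ 2 ≤ 3 * t ^ 4 * ‖c2 τ.w Q.D.Φ (Q.D.A one) p‖ ^ 2 +
          3 * t ^ 2 * ‖c1 τ.w τ.mu τ.nu Q.D.Φ (Q.D.A one) p‖ ^ 2 +
          3 * ‖c0 τ.w τ.mu τ.nu τ.om (Q.D.A one) p‖ ^ 2 := by
        have h5 := pow_le_pow_left₀ (norm_nonneg _) h3 2
        set x := t ^ 2 * ‖c2 τ.w Q.D.Φ (Q.D.A one) p‖ with hx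
        set y := t * ‖c1 τ.w τ.mu τ.nu Q.D.Φ (Q.D.A one) p‖ with hy
        set z := ‖c0 τ.w τ.mu τ.nu τ.om (Q.D.A one) p‖ with hz
        have e1 : 3 * t ^ 4 * ‖c2 τ.w Q.D.Φ (Q.D.A one) p‖ ^ 2 = 3 * x ^ 2 := by rw [hx]; ring
        have e2 : 3 * t ^ 2 * ‖c1 τ.w τ.mu τ.nu Q.D.Φ (Q.D.A one) p‖ ^ 2 = 3 * y ^ 2 := by rw [hy]; ring
        rw [e1, e2]
        nlinarith [sq_nonneg (x - y), sq_nonneg (y - z), sq_nonneg (x - z)]
      have h6 : 0 ≤ θ p.1 * (τ.ρ p * Real.exp (-(t * Q.D.φ p))) :=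
        mul_nonneg (hθ0 _) (mul_nonneg (τ.ρ_pos p).le (Real.exp_pos _).le)
      nlinarith [mul_le_mul_of_nonneg_left h4 h6]
  have e1 : ∫ p, (3 * t ^ 4 * (F2 p * Real.exp (-(t * Q.D.φ p))) +
        3 * t ^ 2 * (F1 p * Real.exp (-(t * Q.D.φ p))) + 3 * (F0 p * Real.exp (-(t * Q.D.φ p)))) =
      3 * t ^ 4 * (∫ p, F2 p * Real.exp (-(t * Q.D.φ p))) +
        3 * t ^ 2 * (∫ p, F1 p * Real.exp (-(t * Q.D.φ p))) +
          3 * ∫ p, F0 p * Real.exp (-(t * Q.D.φ p)) := by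
    have h7 := integral_add (f := fun p => 3 * t ^ 4 * (F2 p * Real.exp (-(t * Q.D.φ p))) +
        3 * t ^ 2 * (F1 p * Real.exp (-(t * Q.D.φ p))))
        (g := fun p => 3 * (F0 p * Real.exp (-(t * Q.D.φ p))))
        ((hint2.const_mul _).add (hint1.const_mul _)) (hint0.const_mul _)
    have h8 := integral_add (f := fun p => 3 * t ^ 4 * (F2 p * Real.exp (-(t * Q.D.φ p))))
        (g := fun p => 3 * t ^ 2 * (F1 p * Real.exp (-(t * Q.D.φ p))))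
        (hint2.const_mul _) (hint1.const_mul _)
    rw [h7, h8, integral_const_mul, integral_const_mul, integral_const_mul]
  rw [e1] at hle
  have h9 := mul_le_mul_of_nonneg_left hle ht0.le
  refine h9.trans (le_of_eq ?_)
  ring

theorem den_pos (hθp : ∃ s, 0 < θ s) : 0 < ∫ s : ℝ, θ s * Q.D.N s := by
  have hN := Q.D.N_cont
  have hcs : HasCompactSupport (fun s => θ s * Q.D.N s) :=
    HasCompactSupport.intro (isCompact_Icc (a := (0 : ℝ)) (b := 3 * ℓ))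
      (fun s hs => by rw [hθs s hs, zero_mul])
  have hc : Continuous (fun s => θ s * Q.D.N s) := hθ.mul hN
  obtain ⟨s₀, hs₀⟩ := hθp
  have h0 : ∀ s, 0 ≤ θ s * Q.D.N s := fun s => mul_nonneg (hθ0 s) (Q.D.N_pos s).le
  exact hc.integral_pos_of_hasCompactSupport_nonneg_nonzero hcs h0 (x := s₀)
    (mul_pos hs₀ (Q.D.N_pos s₀)).ne'

theorem estimate (hℓ : 0 < ℓ) (hθp : ∃ s, 0 < θ s) {κ : ℝ} (hκ : 0 < κ) :
    ∀ᶠ t : ℝ in atTop, ∫ p, θ p.1 * (‖τ.L (Q.V t) p - t * Q.V t p‖ ^ 2 * τ.ρ p) <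
      κ ^ 2 * ∫ p, θ p.1 * (‖Q.V t p‖ ^ 2 * τ.ρ p) := by
  have h1 := Q.num hθ hθ0 hθs hℓ
  have h2 := (Q.den hθ hθs).const_mul (κ ^ 2)
  have h3 : 0 < κ ^ 2 * ∫ s : ℝ, θ s * Q.D.N s := mul_pos (by positivity) (Q.den_pos hθ hθ0 hθs hθp)
  filter_upwards [h1.eventually_lt h2 h3, eventually_gt_atTop 0] with t ht ht0
  have h4 : t * ∫ p, θ p.1 * (‖τ.L (Q.V t) p - t * Q.V t p‖ ^ 2 * τ.ρ p) <
      t * (κ ^ 2 * ∫ p, θ p.1 * (‖Q.V t p‖ ^ 2 * τ.ρ p)) := by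
    refine lt_of_lt_of_eq ht ?_
    ring
  exact lt_of_mul_lt_mul_left h4 ht0.le

end est

end PQ

/-- periodic quasimodes along a closed axis -/
theorem per_quasimode (τ : Tube) {δ ℓ : ℝ} (hδ : 0 < δ) (hℓ : 0 < ℓ) (hτ : τ.Per ℓ)
    (hgood : τ.Good (tubeN δ)) : ∃ β ε : ℝ, 0 < ε ∧ ε < δ ∧
    ∀ θ : ℝ → ℝ, Continuous θ → (∀ s, 0 ≤ θ s) → (∀ s, s ∉ Icc 0 (3 * ℓ) → θ s = 0) →
    (∃ s, 0 < θ s) → ∀ κ : ℝ, 0 < κ → ∃ Λ : ℝ, ∀ n : ℤ, Λ ≤ (2 * Real.pi * n + β) / ℓ →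
      ∃ v : T3 → ℝ, ContDiff ℝ ∞ v ∧ PerI ℓ v ∧ (∀ p : T3, ε < ‖p.2‖ → v p = 0) ∧
        0 < ∫ p, θ p.1 * (v p ^ 2 * τ.ρ p) ∧
        ∫ p, θ p.1 * ((τ.L v p - (2 * Real.pi * n + β) / ℓ * v p) ^ 2 * τ.ρ p) <
          κ ^ 2 * ∫ p, θ p.1 * (v p ^ 2 * τ.ρ p) := by
  obtain ⟨Q⟩ := exists_PQ τ hδ hℓ hτ hgood
  have hμ := Q.norm_mu hℓ hτ
  -- the angle
  have hμ' : Q.μ = Complex.exp (-(Complex.I * (-Complex.arg Q.μ : ℝ))) := by
    have h := Complex.norm_mul_exp_arg_mul_I Q.μ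
    rw [hμ, Complex.ofReal_one, one_mul] at h
    have e : (Q.μ.arg : ℂ) * Complex.I = -(Complex.I * (-Complex.arg Q.μ : ℝ)) := by
      push_cast
      ring
    rw [← e]
    exact h.symm
  refine ⟨-Complex.arg Q.μ, Q.D.ε, Q.D.hε, Q.ε_lt hℓ, fun θ hθ hθ0 hθs hθp κ hκ => ?_⟩
  set β : ℝ := -Complex.arg Q.μ with hβ
  obtain ⟨Λ, hΛ⟩ := eventually_atTop.1 (Q.estimate hθ hθ0 hθs hℓ hθp hκ)
  refine ⟨Λ, fun n hn => ?_⟩
  set t : ℝ := (2 * Real.pi * n + β) / ℓ with ht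
  have hest := hΛ t hn
  have hv := Q.V_smooth t
  have hρ := τ.smooth_ρ.continuous
  set u : T3 → ℂ := Q.V t with hu
  have hur : ContDiff ℝ ∞ (fun p => (u p).re) := Complex.reCLM.contDiff.comp hv
  have hui : ContDiff ℝ ∞ (fun p => (u p).im) := Complex.imCLM.contDiff.comp hv
  have hmult : Complex.exp (Complex.I * t * ℓ) * Q.μ = 1 := by
    rw [hμ', ← Complex.exp_add, Complex.exp_eq_one_iff]
    refine ⟨n, ?_⟩
    have e1 : ((t : ℝ) : ℂ) * (ℓ : ℂ) = 2 * Real.pi * n + β := by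
      rw [← Complex.ofReal_mul, ht, div_mul_cancel₀ _ hℓ.ne']
      push_cast
      ring
    rw [mul_assoc, e1]
    ring
  have hper : PerI ℓ u := by
    intro p
    rw [hu, Q.V_shift t p, hmult, one_mul]
  have hu0 : ∀ p ∈ Q.far, u p = 0 := fun p hp => Q.V_far t hp
  have hL0 : ∀ p ∈ Q.far, τ.L u p = 0 := by
    intro p hp
    rw [L_congr τ Q.isOpen_far (Q.V_far t) hp, L_zero]
  have hLc := (L_contDiff' τ hv).continuous
  have hvc := hv.continuous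
  have hcs : ∀ F : T3 → ℝ, Continuous F → (∀ p ∈ Q.far, F p = 0) →
      Integrable (fun p => θ p.1 * F p) := by
    intro F hF hF0
    exact (Continuous.mul (hθ.comp continuous_fst) hF).integrable_of_hasCompactSupport
      (HasCompactSupport.intro (reg_compact (3 * ℓ) Q.D.ε) (Q.zero_of hθs hF0))
  have hi1 : Integrable (fun p => θ p.1 * ((u p).re ^ 2 * τ.ρ p)) := hcs _
    (((Complex.continuous_re.comp hvc).pow 2).mul hρ) (fun p hp => by simp [hu0 p hp])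
  have hi2 : Integrable (fun p => θ p.1 * ((u p).im ^ 2 * τ.ρ p)) := hcs _
    (((Complex.continuous_im.comp hvc).pow 2).mul hρ) (fun p hp => by simp [hu0 p hp])
  have hi3 : Integrable (fun p => θ p.1 * (((τ.L u p).re - t * (u p).re) ^ 2 * τ.ρ p)) := hcs _
    ((((Complex.continuous_re.comp hLc).sub (continuous_const.mul
      (Complex.continuous_re.comp hvc))).pow 2).mul hρ) (fun p hp => by simp [hu0 p hp, hL0 p hp])
  have hi4 : Integrable (fun p => θ p.1 * (((τ.L u p).im - t * (u p).im) ^ 2 * τ.ρ p)) := hcs _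
    ((((Complex.continuous_im.comp hLc).sub (continuous_const.mul
      (Complex.continuous_im.comp hvc))).pow 2).mul hρ) (fun p hp => by simp [hu0 p hp, hL0 p hp])
  have hsum1 : ∫ p, θ p.1 * (‖u p‖ ^ 2 * τ.ρ p) =
      (∫ p, θ p.1 * ((u p).re ^ 2 * τ.ρ p)) + ∫ p, θ p.1 * ((u p).im ^ 2 * τ.ρ p) := by
    rw [← integral_add hi1 hi2]
    refine integral_congr_ae (Eventually.of_forall fun p => ?_)
    simp only [← Complex.normSq_eq_norm_sq, Complex.normSq_apply]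
    ring
  have hsum2 : ∫ p, θ p.1 * (‖τ.L u p - t * u p‖ ^ 2 * τ.ρ p) =
      (∫ p, θ p.1 * (((τ.L u p).re - t * (u p).re) ^ 2 * τ.ρ p)) +
        ∫ p, θ p.1 * (((τ.L u p).im - t * (u p).im) ^ 2 * τ.ρ p) := by
    rw [← integral_add hi3 hi4]
    refine integral_congr_ae (Eventually.of_forall fun p => ?_)
    simp only [← Complex.normSq_eq_norm_sq, Complex.normSq_apply, Complex.sub_re, Complex.sub_im,
      Complex.re_ofReal_mul, Complex.im_ofReal_mul]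
    ring
  rw [hsum1, hsum2] at hest
  have hfin : ∀ f : T3 → ℝ, ContDiff ℝ ∞ f → PerI ℓ f → (∀ p : T3, Q.D.ε < ‖p.2‖ → f p = 0) →
      ∫ p, θ p.1 * ((τ.L f p - t * f p) ^ 2 * τ.ρ p) < κ ^ 2 * ∫ p, θ p.1 * (f p ^ 2 * τ.ρ p) →
      ∃ v : T3 → ℝ, ContDiff ℝ ∞ v ∧ PerI ℓ v ∧ (∀ p : T3, Q.D.ε < ‖p.2‖ → v p = 0) ∧
        0 < ∫ p, θ p.1 * (v p ^ 2 * τ.ρ p) ∧
        ∫ p, θ p.1 * ((τ.L v p - t * v p) ^ 2 * τ.ρ p) < κ ^ 2 * ∫ p, θ p.1 * (v p ^ 2 * τ.ρ p) := by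
    intro f hf hfp hf0 hfl
    refine ⟨f, hf, hfp, hf0, ?_, hfl⟩
    have h0 : 0 ≤ ∫ p, θ p.1 * ((τ.L f p - t * f p) ^ 2 * τ.ρ p) :=
      integral_nonneg fun p => mul_nonneg (hθ0 _) (mul_nonneg (by positivity) (τ.ρ_pos p).le)
    have h1 : 0 < κ ^ 2 * ∫ p, θ p.1 * (f p ^ 2 * τ.ρ p) := lt_of_le_of_lt h0 hfl
    exact (mul_pos_iff_of_pos_left (by positivity : 0 < κ ^ 2)).1 h1
  by_cases hre : ∫ p, θ p.1 * (((τ.L u p).re - t * (u p).re) ^ 2 * τ.ρ p) <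
      κ ^ 2 * ∫ p, θ p.1 * ((u p).re ^ 2 * τ.ρ p)
  · refine hfin (fun p => (u p).re) hur (fun p => by simp only [hper p]) (fun p hp => ?_) ?_
    · simp only [hu0 p hp, Complex.zero_re]
    · simpa only [L_re τ hv] using hre
  · refine hfin (fun p => (u p).im) hui (fun p => by simp only [hper p]) (fun p hp => ?_) ?_
    · simp only [hu0 p hp, Complex.zero_im]
    · simp only [L_im τ hv]
      push Not at hre
      linarith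

end Pool.Agent.SRGap
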