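import Pool.Agent.Work.MP_188050_an.BDefs
import Pool.Agent.Work.MP_188050_an.PerQM
import Pool.Agent.Work.MP_188050_an.Dens

/-!
# K3: densities in immersed tubes
-/

open Set MeasureTheory Filter Topology VectorField
open scoped Manifold ContDiff

namespace Pool.Agent.SRGap

section M
variable {M : Type*} [TopologicalSpace M] [ChartedSpace E3 M]

theorem density_unique [MeasurableSpace M] [BorelSpace M] {μ : Measure M}
    {e : OpenPartialHomeomorph M T3} (he : IsTubeChart e) {ρ ρ' : T3 → ℝ}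
    (hc : ContinuousOn ρ e.target) (hc' : ContinuousOn ρ' e.target)
    (h : ∀ g : M → ℝ, Continuous g → (∀ x, x ∉ e.source → g x = 0) →
      ∫ x, g x ∂μ = ∫ p in e.target, g (e.symm p) * ρ p)
    (h' : ∀ g : M → ℝ, Continuous g → (∀ x, x ∉ e.source → g x = 0) →
      ∫ x, g x ∂μ = ∫ p in e.target, g (e.symm p) * ρ' p) [T2Space M] : EqOn ρ ρ' e.target := by
  have hU : IsOpen e.target := e.open_target
  have hcd : ContinuousOn (fun p => ρ p - ρ' p) e.target := hc.sub hc'
  have hloc : LocallyIntegrableOn (fun p => ρ p - ρ' p) e.target (volume : Measure T3) :=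
    hcd.locallyIntegrableOn hU.measurableSet
  have hint : ∀ {v : T3 → ℝ} {σ : T3 → ℝ}, Continuous v → HasCompactSupport v →
      tsupport v ⊆ e.target → ContinuousOn σ e.target →
      IntegrableOn (fun p => v p * σ p) e.target (volume : Measure T3) := by
    intro v σ hv hvc hvU hσ
    have h1 : IntegrableOn (fun p => v p * σ p) (tsupport v) (volume : Measure T3) :=
      (hv.continuousOn.mul (hσ.mono hvU)).integrableOn_compact hvc.isCompact
    refine h1.of_forall_sdiff_eq_zero hU.measurableSet fun p hp => ?_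
    rw [image_eq_zero_of_notMem_tsupport hp.2, zero_mul]
  have key := hU.ae_eq_zero_of_integral_contDiff_smul_eq_zero hloc fun v hv hvc hvU => by
    have hsm : SmoothFun (ext0 e v) := ext0_smooth e he hv hvc hvU
    have hgc : Continuous (ext0 e v) := hsm.continuous
    have hg0 : ∀ x, x ∉ e.source → ext0 e v x = 0 := by
      intro x hx
      simp [ext0, hx]
    have hgv : ∀ p ∈ e.target, ext0 e v (e.symm p) = v p := by
      intro p hp
      simp [ext0, e.map_target hp, e.right_inv hp]
    have h1 := (h _ hgc hg0).symm.trans (h' _ hgc hg0)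
    have h2 : ∫ p in e.target, v p * ρ p = ∫ p in e.target, v p * ρ' p := by
      have e1 : ∫ p in e.target, ext0 e v (e.symm p) * ρ p = ∫ p in e.target, v p * ρ p :=
        setIntegral_congr_fun hU.measurableSet fun p hp => by simp only [hgv p hp]
      have e2 : ∫ p in e.target, ext0 e v (e.symm p) * ρ' p = ∫ p in e.target, v p * ρ' p :=
        setIntegral_congr_fun hU.measurableSet fun p hp => by simp only [hgv p hp]
      rw [← e1, ← e2]
      exact h1
    have h3 : ∫ p, v p • (ρ p - ρ' p) = ∫ p in e.target, v p * (ρ p - ρ' p) := by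
      symm
      refine setIntegral_eq_integral_of_forall_compl_eq_zero fun p hp => ?_
      rw [image_eq_zero_of_notMem_tsupport fun h => hp (hvU h), zero_mul]
    rw [h3]
    simp only [mul_sub]
    rw [integral_sub (hint hv.continuous hvc hvU hc) (hint hv.continuous hvc hvU hc'), h2, sub_self]
  have h4 : ρ =ᵐ[(volume : Measure T3).restrict e.target] ρ' := by
    rw [EventuallyEq, ae_restrict_iff' hU.measurableSet]
    filter_upwards [key] with p hp hpU
    exact sub_eq_zero.1 (hp hpU)
  exact Measure.eqOn_open_of_ae_eq h4 hU hc hc'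

/-- restriction of a chart to an open subset of the target -/
noncomputable def rchart (e : OpenPartialHomeomorph M T3) (V : Set T3) (hV : IsOpen V) :
    OpenPartialHomeomorph M T3 := (e.symm.restrOpen V hV).symm

omit [ChartedSpace E3 M] in
theorem rchart_target (e : OpenPartialHomeomorph M T3) {V : Set T3} (hV : IsOpen V)
    (hVe : V ⊆ e.target) : (rchart e V hV).target = V := by
  show e.target ∩ V = V
  exact inter_eq_right.2 hVe

omit [ChartedSpace E3 M] in
theorem rchart_source (e : OpenPartialHomeomorph M T3) {V : Set T3} (hV : IsOpen V)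
    (hVe : V ⊆ e.target) : (rchart e V hV).source = e.symm '' V := by
  have h1 := (rchart e V hV).symm.image_source_eq_target
  rw [OpenPartialHomeomorph.symm_source, rchart_target e hV hVe] at h1
  rw [← OpenPartialHomeomorph.symm_target, ← h1]
  rfl

theorem rchart_tube {e : OpenPartialHomeomorph M T3} (he : IsTubeChart e) {V : Set T3}
    (hV : IsOpen V) (hVe : V ⊆ e.target) : IsTubeChart (rchart e V hV) := by
  constructor
  · refine he.smooth.mono ?_
    rw [rchart_source e hV hVe]
    rintro _ ⟨p, hp, rfl⟩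
    exact e.map_target (hVe hp)
  · refine he.smooth_symm.mono ?_
    rw [rchart_target e hV hVe]
    exact hVe

omit [ChartedSpace E3 M] in
theorem restr_formula [MeasurableSpace M] {μ : Measure M} {e : OpenPartialHomeomorph M T3}
    {ρ : T3 → ℝ} (h : ∀ g : M → ℝ, Continuous g → (∀ x, x ∉ e.source → g x = 0) →
      ∫ x, g x ∂μ = ∫ p in e.target, g (e.symm p) * ρ p) {V : Set T3} (hV : IsOpen V)
    (hVe : V ⊆ e.target) (g : M → ℝ) (hg : Continuous g)
    (hg0 : ∀ x, x ∉ e.symm '' V → g x = 0) :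
    ∫ x, g x ∂μ = ∫ p in V, g (e.symm p) * ρ p := by
  rw [h g hg fun x hx => hg0 x fun ⟨p, hp, hpx⟩ => hx (hpx ▸ e.map_target (hVe hp))]
  refine setIntegral_eq_of_subset_of_forall_sdiff_eq_zero e.open_target.measurableSet hVe
    fun p hp => ?_
  have h1 : g (e.symm p) = 0 := by
    refine hg0 _ ?_
    rintro ⟨q, hq, hqp⟩
    have h2 := e.symm.injOn (hVe hq) hp.1 hqp
    exact hp.2 (h2 ▸ hq)
  rw [h1, zero_mul]

/-- two charts with the same inverse on the intersection of the targets have the same density -/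
theorem overlap [T2Space M] [MeasurableSpace M] [BorelSpace M] {μ : Measure M}
    {e e' : OpenPartialHomeomorph M T3} (he : IsTubeChart e) {ρ ρ' : T3 → ℝ}
    (hc : ContinuousOn ρ e.target) (hc' : ContinuousOn ρ' e'.target)
    (h : ∀ g : M → ℝ, Continuous g → (∀ x, x ∉ e.source → g x = 0) →
      ∫ x, g x ∂μ = ∫ p in e.target, g (e.symm p) * ρ p)
    (h' : ∀ g : M → ℝ, Continuous g → (∀ x, x ∉ e'.source → g x = 0) →
      ∫ x, g x ∂μ = ∫ p in e'.target, g (e'.symm p) * ρ' p)
    (hEq : EqOn e.symm e'.symm (e.target ∩ e'.target)) : EqOn ρ ρ' (e.target ∩ e'.target) := by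
  have hV : IsOpen (e.target ∩ e'.target) := e.open_target.inter e'.open_target
  have hV1 : e.target ∩ e'.target ⊆ e.target := inter_subset_left
  have hV2 : e.target ∩ e'.target ⊆ e'.target := inter_subset_right
  have ht := rchart_target e hV hV1
  have hs := rchart_source e hV hV1
  have h1 := density_unique (μ := μ) (rchart_tube he hV hV1) (ρ := ρ) (ρ' := ρ')
    (by rw [ht]; exact hc.mono hV1) (by rw [ht]; exact hc'.mono hV2)
    (fun g hg hg0 => by
      rw [ht]
      rw [hs] at hg0
      exact restr_formula h hV hV1 g hg hg0)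
    (fun g hg hg0 => by
      rw [ht]
      rw [hs] at hg0
      have h2 : e.symm '' (e.target ∩ e'.target) = e'.symm '' (e.target ∩ e'.target) :=
        image_congr hEq
      rw [h2] at hg0
      rw [restr_formula h' hV hV2 g hg hg0]
      exact setIntegral_congr_fun hV.measurableSet fun p hp => by
        show g (e'.symm p) * ρ' p = g (e.symm p) * ρ' p
        rw [hEq hp])
  rwa [ht] at h1

theorem imm_density [T2Space M] [MeasurableSpace M] [BorelSpace M] {μ : Measure M}
    (hμ : SmoothPositive μ) {F : T3 → M} {O : Set T3} (hF : IsImm F O) :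
    ∃ ρ₀ : T3 → ℝ, ContDiffOn ℝ ∞ ρ₀ O ∧ (∀ p ∈ O, 0 < ρ₀ p) ∧ IsDens μ F O ρ₀ := by
  classical
  rcases isEmpty_or_nonempty (OpenPartialHomeomorph M T3) with hem | hne
  · exact ⟨fun _ => 1, contDiffOn_const, fun _ _ => one_pos, fun e => hem.elim e⟩
  choose! e he hpe heO heF using hF.chart
  have hden : ∀ p ∈ O, ∃ ρ₀ : T3 → ℝ, ContDiffOn ℝ ∞ ρ₀ (e p).target ∧
      (∀ q ∈ (e p).target, 0 < ρ₀ q) ∧
      ∀ g : M → ℝ, Continuous g → (∀ x, x ∉ (e p).source → g x = 0) →
        ∫ x, g x ∂μ = ∫ q in (e p).target, g ((e p).symm q) * ρ₀ q :=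
    fun p hp => density hμ (e p) (he p hp)
  choose! ρ hρs hρp hρ using hden
  have hover : ∀ (e' : OpenPartialHomeomorph M T3), IsTubeChart e' → e'.target ⊆ O →
      (∀ q, e'.symm q = F q) → ∀ ρ' : T3 → ℝ, ContinuousOn ρ' e'.target →
      (∀ g : M → ℝ, Continuous g → (∀ x, x ∉ e'.source → g x = 0) →
        ∫ x, g x ∂μ = ∫ q in e'.target, g (e'.symm q) * ρ' q) →
      ∀ q ∈ e'.target, ρ q q = ρ' q := by
    intro e' he' heO' heF' ρ' hc' h' q hq
    have hqO := heO' hq
    exact overlap (he q hqO) (hρs q hqO).continuousOn hc' (hρ q hqO) h'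
      (fun p _ => by rw [heF q hqO, heF']) ⟨hpe q hqO, hq⟩
  refine ⟨fun p => ρ p p, ?_, fun p hp => hρp p hp p (hpe p hp), ?_⟩
  · intro p hp
    refine ContDiffAt.contDiffWithinAt ?_
    have h1 : ContDiffAt ℝ ∞ (ρ p) p :=
      (hρs p hp).contDiffAt ((e p).open_target.mem_nhds (hpe p hp))
    refine h1.congr_of_eventuallyEq ?_
    filter_upwards [(e p).open_target.mem_nhds (hpe p hp)] with q hq
    exact hover (e p) (he p hp) (heO p hp) (heF p hp) (ρ p) (hρs p hp).continuousOn (hρ p hp) q hq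
  · intro e' he' heO' heF' g hg hg0
    obtain ⟨ρ', hρ's, -, hρ'⟩ := density hμ e' he'
    rw [hρ' g hg hg0]
    refine setIntegral_congr_fun e'.open_target.measurableSet fun q hq => ?_
    show g (e'.symm q) * ρ' q = g (F q) * ρ q q
    rw [heF', hover e' he' heO' heF' ρ' hρ's.continuousOn hρ' q hq]

/-- translation along the tube -/
noncomputable def shT (ℓ : ℝ) : T3 ≃ₜ T3 := Homeomorph.addRight ((ℓ, 0, 0) : T3)

theorem shT_apply (ℓ : ℝ) (p : T3) : shT ℓ p = (p.1 + ℓ, p.2) := by
  show p + (ℓ, 0, 0) = (p.1 + ℓ, p.2)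
  ext <;> simp

theorem density_per [T2Space M] [MeasurableSpace M] [BorelSpace M] {μ : Measure M} {F : T3 → M}
    {d ℓ : ℝ} (hF : IsImm F (tubeN d)) (hper : ∀ p ∈ tubeN d, F (p.1 + ℓ, p.2) = F p) {ρ₀ : T3 → ℝ}
    (hρ : ContinuousOn ρ₀ (tubeN d)) (hd : IsDens μ F (tubeN d) ρ₀) :
    ∀ p ∈ tubeN d, ρ₀ (p.1 + ℓ, p.2) = ρ₀ p := by
  intro p hp
  have hshift : ∀ q : T3, shT ℓ q ∈ tubeN d ↔ q ∈ tubeN d := by
    intro q
    rw [shT_apply]
    exact Iff.rfl
  obtain ⟨e, he, hpe, heO, heF⟩ := hF.chart p hp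
  obtain ⟨e₁, he₁, hpe₁, heO₁, heF₁⟩ := hF.chart (shT ℓ p) ((hshift p).2 hp)
  set e' : OpenPartialHomeomorph M T3 := e₁.transHomeomorph (shT ℓ).symm with he'
  have ht' : e'.target = shT ℓ ⁻¹' e₁.target := rfl
  have hs' : e'.source = e₁.source := rfl
  have hsy : ∀ q, e'.symm q = e₁.symm (shT ℓ q) := fun q => rfl
  have hh1 : (volume : Measure (ℝ × ℝ)).IsAddHaarMeasure := Measure.prod.instIsAddHaarMeasure _ _
  have hh2 : (volume : Measure T3).IsAddHaarMeasure := Measure.prod.instIsAddHaarMeasure _ _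
  have hmeas : MeasurePreserving (shT ℓ) (volume : Measure T3) (volume : Measure T3) :=
    measurePreserving_add_right (volume : Measure T3) ((ℓ, 0, 0) : T3)
  have hform : ∀ g : M → ℝ, Continuous g → (∀ x, x ∉ e'.source → g x = 0) →
      ∫ x, g x ∂μ = ∫ q in e'.target, g (e'.symm q) * ρ₀ (shT ℓ q) := by
    intro g hg hg0
    rw [hd e₁ he₁ heO₁ heF₁ g hg hg0, ht']
    rw [← hmeas.setIntegral_preimage_emb (shT ℓ).measurableEmbedding
      (fun q => g (F q) * ρ₀ q) e₁.target]
    refine setIntegral_congr_fun ((shT ℓ).continuous.isOpen_preimage _ e₁.open_target).measurableSet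
      fun q _ => ?_
    show g (F (shT ℓ q)) * ρ₀ (shT ℓ q) = g (e'.symm q) * ρ₀ (shT ℓ q)
    rw [hsy, heF₁]
  have hEq : EqOn e.symm e'.symm (e.target ∩ e'.target) := by
    intro q hq
    rw [heF, hsy, heF₁, shT_apply, hper q (heO hq.1)]
  have h1 := overlap he (hρ.mono heO) (ρ' := fun q => ρ₀ (shT ℓ q))
    (hρ.comp (shT ℓ).continuous.continuousOn fun q hq => heO₁ hq)
    (fun g hg hg0 => by
      rw [hd e he heO heF g hg hg0]
      exact setIntegral_congr_fun e.open_target.measurableSet fun q _ => by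
        show g (F q) * ρ₀ q = g (e.symm q) * ρ₀ q
        rw [heF])
    hform hEq ⟨hpe, hpe₁⟩
  rw [h1]
  show ρ₀ (p.1 + ℓ, p.2) = ρ₀ (shT ℓ p)
  rw [shT_apply]

end M

end Pool.Agent.SRGap
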