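import Pool.Agent.Work.MP_188050_an.BDefs
import Pool.Agent.Work.MP_188050_an.Frames

/-!
# The cometric and the frames of an immersed tube (module K2)
-/

open Set MeasureTheory Filter Topology VectorField
open scoped Manifold ContDiff

namespace Pool.Agent.SRGap

section M
variable {M : Type*} [TopologicalSpace M] [ChartedSpace E3 M] [IsManifold (𝓡 3) ∞ M]

theorem iG_eq (S : ContactSR M) {F : T3 → M} {e : OpenPartialHomeomorph M T3} (he : IsTubeChart e)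
    (heF : ∀ q, e.symm q = F q) {p : T3} (hp : p ∈ e.target) (ξ η : T3 →L[ℝ] ℝ) :
    cG S e p ξ η = iG S F p ξ η := by
  have hF : (e.symm : T3 → M) = F := funext heF
  subst hF
  obtain ⟨L, hL, hL'⟩ := exists_deriv_equiv e he hp
  have h : (mfderiv 𝓘(ℝ, T3) (𝓡 3) e.symm p).inverse =
      (L.symm : TangentSpace (𝓡 3) (e.symm p) →L[ℝ] T3) := by
    rw [← hL]
    exact ContinuousLinearMap.inverse_equiv L
  unfold cG iG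
  rw [h, ← hL']

/-- the pulled back cometric depends only on the germ of the map -/
theorem kg_congr (S : ContactSR M) {F F' : T3 → M} {p : T3} (h : F =ᶠ[𝓝 p] F')
    (ξ η : T3 →L[ℝ] ℝ) : iG S F p ξ η = iG S F' p ξ η := by
  let g : M → (T3 →L[ℝ] E3) → ℝ := fun x A =>
    S.G x (ξ ∘L (A.inverse : E3 →L[ℝ] T3)) (η ∘L (A.inverse : E3 →L[ℝ] T3))
  have h1 : iG S F p ξ η = g (F p) (mfderiv 𝓘(ℝ, T3) (𝓡 3) F p) := rfl
  have h2 : iG S F' p ξ η = g (F' p) (mfderiv 𝓘(ℝ, T3) (𝓡 3) F' p) := rfl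
  have h3 : (mfderiv 𝓘(ℝ, T3) (𝓡 3) F p : T3 →L[ℝ] E3) = mfderiv 𝓘(ℝ, T3) (𝓡 3) F' p :=
    h.mfderiv_eq
  rw [h1, h2, h.eq_of_nhds, h3]

/-- the pulled back cometric and translations along the first axis -/
theorem kg_shift (S : ContactSR M) {F : T3 → M} {ℓ : ℝ} {p : T3}
    (hF : MDifferentiableAt 𝓘(ℝ, T3) (𝓡 3) F ((p.1 + ℓ, p.2) : T3)) (ξ η : T3 →L[ℝ] ℝ) :
    iG S (fun q : T3 => F (q.1 + ℓ, q.2)) p ξ η = iG S F (p.1 + ℓ, p.2) ξ η := by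
  let g : M → (T3 →L[ℝ] E3) → ℝ := fun x A =>
    S.G x (ξ ∘L (A.inverse : E3 →L[ℝ] T3)) (η ∘L (A.inverse : E3 →L[ℝ] T3))
  let sh : T3 → T3 := fun q => (q.1 + ℓ, q.2)
  have hsh : HasFDerivAt sh (ContinuousLinearMap.id ℝ T3) p := by
    have h1 : HasFDerivAt (fun q : T3 => q + ((ℓ, 0, 0) : T3)) (ContinuousLinearMap.id ℝ T3) p :=
      (hasFDerivAt_id p).add_const _
    have h2 : sh = fun q : T3 => q + ((ℓ, 0, 0) : T3) := by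
      funext q
      ext <;> simp [sh]
    rw [h2]
    exact h1
  have hsh' : HasMFDerivAt 𝓘(ℝ, T3) 𝓘(ℝ, T3) sh p (ContinuousLinearMap.id ℝ T3) :=
    hsh.hasMFDerivAt
  have hc := (hF.hasMFDerivAt).comp p hsh'
  have h3 : (mfderiv 𝓘(ℝ, T3) (𝓡 3) (fun q : T3 => F (q.1 + ℓ, q.2)) p : T3 →L[ℝ] E3) =
      mfderiv 𝓘(ℝ, T3) (𝓡 3) F ((p.1 + ℓ, p.2) : T3) := by
    refine hc.mfderiv.trans ?_
    exact ContinuousLinearMap.comp_id _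
  have h1 : iG S (fun q : T3 => F (q.1 + ℓ, q.2)) p ξ η =
      g (F (p.1 + ℓ, p.2)) (mfderiv 𝓘(ℝ, T3) (𝓡 3) (fun q : T3 => F (q.1 + ℓ, q.2)) p) := rfl
  have h2 : iG S F (p.1 + ℓ, p.2) ξ η =
      g (F (p.1 + ℓ, p.2)) (mfderiv 𝓘(ℝ, T3) (𝓡 3) F ((p.1 + ℓ, p.2) : T3)) := rfl
  rw [h1, h2, h3]

omit [IsManifold (𝓡 3) ∞ M] in
theorem kg_mdiff {F : T3 → M} {O : Set T3} (hF : IsImm F O) {p : T3} (hp : p ∈ O) :
    MDifferentiableAt 𝓘(ℝ, T3) (𝓡 3) F p := by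
  obtain ⟨e, he, hpe, -, heF⟩ := hF.chart p hp
  have h1 : (e.symm : T3 → M) = F := funext heF
  rw [← h1]
  exact ((he.smooth_symm p hpe).contMDiffAt (e.open_target.mem_nhds hpe)).mdifferentiableAt
    (by simp)

theorem iG_per (S : ContactSR M) {F : T3 → M} {O : Set T3} (hF : IsImm F O) {ℓ : ℝ} {p : T3}
    (hp : p ∈ O) (hp' : ((p.1 + ℓ, p.2) : T3) ∈ O) (hper : ∀ᶠ q : T3 in 𝓝 p, F (q.1 + ℓ, q.2) = F q)
    (ξ η : T3 →L[ℝ] ℝ) : iG S F (p.1 + ℓ, p.2) ξ η = iG S F p ξ η := by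
  rw [← kg_shift S (kg_mdiff hF hp') ξ η]
  exact kg_congr S hper ξ η

theorem imm_frames (S : ContactSR M) {F : T3 → M} {O : Set T3} (hF : IsImm F O)
    (hZ : ∀ p ∈ O, mfderiv 𝓘(ℝ, T3) (𝓡 3) F p ((1, 0, 0) : T3) = S.Z (F p)) :
    ∀ p₀ ∈ O, ∃ U X Y, p₀ ∈ U ∧ U ⊆ O ∧ EFrame (iG S F) X Y U := by
  intro p₀ hp₀
  obtain ⟨e, he, hpe, heO, heF⟩ := hF.chart p₀ hp₀
  have hF' : F = e.symm := (funext heF).symm
  subst hF'
  obtain ⟨V, hV, X, Y, hXY⟩ := S.frame (e.symm p₀)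
  have h := frames S e he (fun p hp => hZ p (heO hp)) hXY
  refine ⟨e.target ∩ e.symm ⁻¹' V, _, _, ⟨hpe, hV⟩, inter_subset_left.trans heO,
    ⟨h.isOpen, h.smooth_X, h.smooth_Y, h.indep, ?_, h.bracket, h.bracket_X, h.bracket_Y⟩⟩
  intro p hp ξ η
  rw [← iG_eq S he (fun _ => rfl) hp.1]
  exact h.cometric p hp ξ η

theorem imm_frames0 (S : ContactSR M) {F : T3 → M} {O : Set T3} (hF : IsImm F O)
    (hZ : ∀ p ∈ O, mfderiv 𝓘(ℝ, T3) (𝓡 3) F p ((1, 0, 0) : T3) = S.Z (F p))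
    (h0 : ((0, 0, 0) : T3) ∈ O) {U₀ : Set M} {X Y : (x : M) → TangentSpace (𝓡 3) x}
    (hXY : IsReebFrame S.Z S.G X Y U₀) (hx : F (0, 0, 0) ∈ U₀)
    (hX : mfderiv 𝓘(ℝ, T3) (𝓡 3) F (0, 0, 0) ((0, 1, 0) : T3) = X (F (0, 0, 0)))
    (hY : mfderiv 𝓘(ℝ, T3) (𝓡 3) F (0, 0, 0) ((0, 0, 1) : T3) = Y (F (0, 0, 0))) :
    ∃ U X' Y', ((0, 0, 0) : T3) ∈ U ∧ U ⊆ O ∧ EFrame (iG S F) X' Y' U ∧ X' (0, 0, 0) = (0, 1, 0) ∧
      Y' (0, 0, 0) = (0, 0, 1) := by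
  obtain ⟨e, he, hpe, heO, heF⟩ := hF.chart _ h0
  have hF' : F = e.symm := (funext heF).symm
  subst hF'
  have h := frames S e he (fun p hp => hZ p (heO hp)) hXY
  refine ⟨e.target ∩ e.symm ⁻¹' U₀, _, _, ⟨hpe, hx⟩, inter_subset_left.trans heO,
    ⟨h.isOpen, h.smooth_X, h.smooth_Y, h.indep, ?_, h.bracket, h.bracket_X, h.bracket_Y⟩,
    mpullback_eq e he hpe X (0, 1, 0) hX, mpullback_eq e he hpe Y (0, 0, 1) hY⟩
  intro p hp ξ η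
  rw [← iG_eq S he (fun _ => rfl) hp.1]
  exact h.cometric p hp ξ η

end M

end Pool.Agent.SRGap
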