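import Pool.Agent.Work.MP_188050_an.BDefs
import Pool.Agent.Work.MP_188050_an.Box
import Pool.Agent.Work.MP_188050_an.PerQM

/-!
# Cell SR, K1: immersed tubes along the orbits of a flow
-/

open Set MeasureTheory Filter Topology VectorField
open scoped Manifold ContDiff

namespace Pool.Agent.SRGap

section M
variable {M : Type*} [TopologicalSpace M] [ChartedSpace E3 M] [IsManifold (𝓡 3) ∞ M]

omit [IsManifold (𝓡 3) ∞ M] in
/-- an injective local diffeomorphism on an open set is (the inverse of) a chart with exactly this target -/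
theorem imm_box {F : T3 → M} {O : Set T3} (hF : IsImm F O) {W : Set T3} (hW : IsOpen W) (hWO : W ⊆ O)
    (hne : W.Nonempty) (hinj : InjOn F W) :
    ∃ e : OpenPartialHomeomorph M T3, IsTubeChart e ∧ e.target = W ∧ e.source = F '' W ∧
      ∀ q, e.symm q = F q := by
  have hFc : ContinuousOn F W := fun q hq => by
    obtain ⟨e, he, hqe, -, heF⟩ := hF.chart q (hWO hq)
    have h : F = e.symm := by funext q; exact (heF q).symm
    rw [h]
    exact (e.continuousAt_symm hqe).continuousWithinAt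
  have hopen : IsOpenMap (W.domRestrict F) := by
    rw [isOpenMap_iff_nhds_le]
    rintro ⟨q, hq⟩
    obtain ⟨e, he, hqe, -, heF⟩ := hF.chart q (hWO hq)
    have h : F = e.symm := by funext q; exact (heF q).symm
    have h1 : Filter.map F (𝓝 q) = 𝓝 (F q) := by
      rw [h]
      exact e.symm.map_nhds_eq hqe
    have h2 : Filter.map (W.domRestrict F) (𝓝 (⟨q, hq⟩ : W)) = 𝓝 (F q) := by
      have h3 : W.domRestrict F = F ∘ ((↑) : W → T3) := rfl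
      rw [h3, ← Filter.map_map, map_nhds_subtype_coe_eq_nhds hq (hW.mem_nhds hq), h1]
    exact h2.ge
  have hne' : Nonempty T3 := ⟨0⟩
  set e' : OpenPartialHomeomorph T3 M := OpenPartialHomeomorph.ofContinuousOpenRestrict
    hinj.toPartialEquiv hFc hopen hW with he'
  refine ⟨e'.symm, ⟨?_, ?_⟩, rfl, rfl, fun p => rfl⟩
  · intro y hy
    have hy' : y ∈ e'.target := hy
    have hq : e'.symm y ∈ W := e'.map_target hy'
    have hFy : F (e'.symm y) = y := e'.right_inv hy'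
    obtain ⟨e, he, hqe, -, heF⟩ := hF.chart _ (hWO hq)
    have hys : y ∈ e.source := by
      rw [← hFy, ← heF]
      exact e.map_target hqe
    have hey : e y = e'.symm y := by
      conv_lhs => rw [← hFy, ← heF]
      exact e.right_inv hqe
    have h1 : ContMDiffAt (𝓡 3) 𝓘(ℝ, T3) ∞ e y := he.smooth.contMDiffAt (e.open_source.mem_nhds hys)
    have h2 : e'.symm =ᶠ[𝓝 y] e := by
      have h3 : ∀ᶠ z in 𝓝 y, e z ∈ W := by
        have h4 : ContinuousAt e y := e.continuousAt hys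
        refine h4 ?_
        rw [hey]
        exact hW.mem_nhds hq
      filter_upwards [h3, e.open_source.mem_nhds hys, e'.open_target.mem_nhds hy'] with z hz1 hz2 hz3
      refine hinj (e'.map_target hz3) hz1 ?_
      have h5 : F (e'.symm z) = z := e'.right_inv hz3
      rw [h5, ← heF]
      exact (e.left_inv hz2).symm
    exact (h1.congr_of_eventuallyEq h2).contMDiffWithinAt
  · intro q hq
    have hq' : q ∈ W := hq
    obtain ⟨e, he, hqe, -, heF⟩ := hF.chart q (hWO hq')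
    have h : F = e.symm := by funext q; exact (heF q).symm
    have h1 : ContMDiffAt 𝓘(ℝ, T3) (𝓡 3) ∞ e.symm q :=
      he.smooth_symm.contMDiffAt (e.open_target.mem_nhds hqe)
    rw [← h] at h1
    exact h1.contMDiffWithinAt

theorem exists_imm [T2Space M] (Z : (x : M) → TangentSpace (𝓡 3) x)
    (Fl : ℝ → M → M) (hFl : ContMDiff (𝓘(ℝ, ℝ).prod (𝓡 3)) (𝓡 3) ∞ (fun p : ℝ × M => Fl p.1 p.2))
    (hFl0 : ∀ x, Fl 0 x = x) (hFlZ : ∀ x, IsMIntegralCurve (fun t => Fl t x) Z)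
    (hFla : ∀ s t x, Fl (s + t) x = Fl s (Fl t x)) (x₀ : M) (X Y : (x : M) → TangentSpace (𝓡 3) x)
    (hind : LinearIndependent ℝ ![Z x₀, X x₀, Y x₀]) :
    ∃ (F : T3 → M) (d : ℝ), 0 < d ∧ IsImm F (tubeN d) ∧ F (0, 0, 0) = x₀ ∧
      (∀ (t : ℝ) (p : T3), F (p.1 + t, p.2) = Fl t (F p)) ∧
      (∀ p ∈ tubeN d, mfderiv 𝓘(ℝ, T3) (𝓡 3) F p ((1, 0, 0) : T3) = Z (F p)) ∧
      mfderiv 𝓘(ℝ, T3) (𝓡 3) F (0, 0, 0) ((0, 1, 0) : T3) = X (F (0, 0, 0)) ∧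
      mfderiv 𝓘(ℝ, T3) (𝓡 3) F (0, 0, 0) ((0, 0, 1) : T3) = Y (F (0, 0, 0)) := by
  have hM1 : IsManifold (𝓡 3) 1 M := IsManifold.of_le (n := ∞) (by norm_cast)
  set c := chartAt E3 x₀ with hc
  have hmd : c.MDifferentiable (𝓡 3) (𝓡 3) := mdifferentiable_chart x₀
  have hx₀ : x₀ ∈ c.source := mem_chart_source E3 x₀
  have hcs : ContMDiffOn 𝓘(ℝ, E3) (𝓡 3) ∞ c.symm c.target := contMDiffOn_chart_symm
  set z : E3 := c x₀ with hz
  have hzt : z ∈ c.target := c.map_source hx₀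
  have hcz : c.symm z = x₀ := c.left_inv hx₀
  set u : E3 := mfderiv (𝓡 3) 𝓘(ℝ, E3) c x₀ (X x₀) with hu
  set v : E3 := mfderiv (𝓡 3) 𝓘(ℝ, E3) c x₀ (Y x₀) with hv
  have huX : (mfderiv 𝓘(ℝ, E3) (𝓡 3) c.symm z u : E3) = X x₀ :=
    DFunLike.congr_fun (hmd.symm_comp_deriv hx₀) (X x₀)
  have hvY : (mfderiv 𝓘(ℝ, E3) (𝓡 3) c.symm z v : E3) = Y x₀ :=
    DFunLike.congr_fun (hmd.symm_comp_deriv hx₀) (Y x₀)
  set A : T3 → E3 := fun p => z + p.2.1 • u + p.2.2 • v with hA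
  have hAs : ContDiff ℝ ∞ A := by
    refine (contDiff_const.add ?_).add ?_
    · exact (contDiff_snd.fst).smul contDiff_const
    · exact (contDiff_snd.snd).smul contDiff_const
  have hA0 : ∀ s : ℝ, A (s, 0, 0) = z := fun s => by simp [hA]
  set F : T3 → M := fun p => Fl p.1 (c.symm (A p)) with hF
  set O : Set T3 := A ⁻¹' c.target with hO
  have hOo : IsOpen O := c.open_target.preimage hAs.continuous
  have hFs : ContMDiffOn 𝓘(ℝ, T3) (𝓡 3) ∞ F O := by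
    have h1 : ContMDiffOn 𝓘(ℝ, T3) (𝓡 3) ∞ (fun p : T3 => c.symm (A p)) O :=
      hcs.comp hAs.contMDiff.contMDiffOn fun p hp => hp
    have h2 : ContMDiffOn 𝓘(ℝ, T3) 𝓘(ℝ, ℝ) ∞ (fun p : T3 => p.1) O :=
      contDiff_fst.contMDiff.contMDiffOn
    exact hFl.comp_contMDiffOn (h2.prodMk h1)
  have hFd : ∀ p ∈ O, HasMFDerivAt 𝓘(ℝ, T3) (𝓡 3) F p (mfderiv 𝓘(ℝ, T3) (𝓡 3) F p) := fun p hp =>
    ((hFs.contMDiffAt (hOo.mem_nhds hp)).mdifferentiableAt (by simp)).hasMFDerivAt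
  have hmem : ∀ s : ℝ, ((s, 0, 0) : T3) ∈ O := fun s => by
    show A (s, 0, 0) ∈ c.target
    rw [hA0]
    exact hzt
  have hF0 : F (0, 0, 0) = x₀ := by
    show Fl 0 (c.symm (A (0, 0, 0))) = x₀
    rw [hFl0, hA0, hcz]
  -- the derivative in the direction of the flow
  have hd0 : ∀ p ∈ O, mfderiv 𝓘(ℝ, T3) (𝓡 3) F p ((1, 0, 0) : T3) = Z (F p) := by
    intro p hp
    have h1 : HasMFDerivAt 𝓘(ℝ, ℝ) 𝓘(ℝ, T3) (fun t : ℝ => ((t, p.2) : T3)) p.1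
        ((1 : ℝ →L[ℝ] ℝ).smulRight ((1, 0, 0) : T3)) := by
      have h2 : HasDerivAt (fun t : ℝ => ((t, p.2) : T3)) ((1, 0) : T3) p.1 :=
        (hasDerivAt_id p.1).prodMk (hasDerivAt_const p.1 p.2)
      exact h2.hasFDerivAt.hasMFDerivAt
    have h3 : HasMFDerivAt 𝓘(ℝ, ℝ) (𝓡 3) (F ∘ fun t : ℝ => ((t, p.2) : T3)) p.1
        ((mfderiv 𝓘(ℝ, T3) (𝓡 3) F p).comp ((1 : ℝ →L[ℝ] ℝ).smulRight ((1, 0, 0) : T3))) :=
      HasMFDerivAt.comp p.1 (hFd p hp) h1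
    have h4 : HasMFDerivAt 𝓘(ℝ, ℝ) (𝓡 3) (F ∘ fun t : ℝ => ((t, p.2) : T3)) p.1
        ((1 : ℝ →L[ℝ] ℝ).smulRight (Z (F p))) := hFlZ (c.symm (A p)) p.1
    have h5 := hasMFDerivAt_unique h3 h4
    have h6 : (1 : ℝ) • (mfderiv 𝓘(ℝ, T3) (𝓡 3) F p ((1, 0, 0) : T3) : E3) = (1 : ℝ) • (Z (F p) : E3) := by
      have h7 := DFunLike.congr_fun h5 (1 : ℝ)
      have h8 : (mfderiv 𝓘(ℝ, T3) (𝓡 3) F p ((1 : ℝ) • ((1, 0, 0) : T3)) : E3) = (1 : ℝ) • (Z (F p) : E3) := h7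
      rw [one_smul] at h8
      rw [one_smul]
      exact h8
    rw [one_smul, one_smul] at h6
    exact h6
  -- the derivative in the transversal directions
  have hd12 : ∀ a b : ℝ, (mfderiv 𝓘(ℝ, T3) (𝓡 3) F (0, 0, 0) ((0, a, b) : T3) : E3) =
      (mfderiv 𝓘(ℝ, E3) (𝓡 3) c.symm z (a • u + b • v) : E3) := by
    intro a b
    have h1 : HasMFDerivAt 𝓘(ℝ, ℝ) 𝓘(ℝ, T3) (fun t : ℝ => ((0, t * a, t * b) : T3)) 0
        ((1 : ℝ →L[ℝ] ℝ).smulRight ((0, a, b) : T3)) := by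
      have h2 : HasDerivAt (fun t : ℝ => ((0, t * a, t * b) : T3)) ((0, 1 * a, 1 * b) : T3) 0 :=
        (hasDerivAt_const (0 : ℝ) (0 : ℝ)).prodMk (((hasDerivAt_id (0 : ℝ)).mul_const a).prodMk
          ((hasDerivAt_id (0 : ℝ)).mul_const b))
      rw [one_mul, one_mul] at h2
      exact h2.hasFDerivAt.hasMFDerivAt
    have h0 : ((0, (0 : ℝ) * a, (0 : ℝ) * b) : T3) = (0, 0, 0) := by simp
    have hFd0 : HasMFDerivAt 𝓘(ℝ, T3) (𝓡 3) F ((0, (0 : ℝ) * a, (0 : ℝ) * b) : T3)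
        (mfderiv 𝓘(ℝ, T3) (𝓡 3) F ((0, (0 : ℝ) * a, (0 : ℝ) * b) : T3)) := by
      refine hFd _ ?_
      rw [h0]
      exact hmem 0
    have h3 : HasMFDerivAt 𝓘(ℝ, ℝ) (𝓡 3) (F ∘ fun t : ℝ => ((0, t * a, t * b) : T3)) 0
        ((mfderiv 𝓘(ℝ, T3) (𝓡 3) F ((0, (0 : ℝ) * a, (0 : ℝ) * b) : T3)).comp
          ((1 : ℝ →L[ℝ] ℝ).smulRight ((0, a, b) : T3))) :=
      HasMFDerivAt.comp (0 : ℝ) hFd0 h1
    have h4 : HasMFDerivAt 𝓘(ℝ, ℝ) 𝓘(ℝ, E3) (fun t : ℝ => z + (t * a) • u + (t * b) • v) 0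
        ((1 : ℝ →L[ℝ] ℝ).smulRight (a • u + b • v)) := by
      have h2 : HasDerivAt (fun t : ℝ => z + (t * a) • u + (t * b) • v) ((1 * a) • u + (1 * b) • v) 0 := by
        have h5 := (((hasDerivAt_id (0 : ℝ)).mul_const a).smul_const u).add
          (((hasDerivAt_id (0 : ℝ)).mul_const b).smul_const v)
        have h6 := h5.const_add z
        refine h6.congr_of_eventuallyEq (Eventually.of_forall fun t => ?_)
        show z + (t * a) • u + (t * b) • v = z + ((t * a) • u + (t * b) • v)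
        rw [add_assoc]
      rw [one_mul, one_mul] at h2
      exact h2.hasFDerivAt.hasMFDerivAt
    have hz0 : z + ((0 : ℝ) * a) • u + ((0 : ℝ) * b) • v = z := by simp
    have h5 : HasMFDerivAt 𝓘(ℝ, E3) (𝓡 3) c.symm (z + ((0 : ℝ) * a) • u + ((0 : ℝ) * b) • v)
        (mfderiv 𝓘(ℝ, E3) (𝓡 3) c.symm (z + ((0 : ℝ) * a) • u + ((0 : ℝ) * b) • v)) := by
      refine (hmd.mdifferentiableAt_symm ?_).hasMFDerivAt
      rw [hz0]
      exact hzt
    have h6 : HasMFDerivAt 𝓘(ℝ, ℝ) (𝓡 3) (c.symm ∘ fun t : ℝ => z + (t * a) • u + (t * b) • v) 0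
        ((mfderiv 𝓘(ℝ, E3) (𝓡 3) c.symm (z + ((0 : ℝ) * a) • u + ((0 : ℝ) * b) • v)).comp
          ((1 : ℝ →L[ℝ] ℝ).smulRight (a • u + b • v))) :=
      HasMFDerivAt.comp (0 : ℝ) h5 h4
    have h7 : (F ∘ fun t : ℝ => ((0, t * a, t * b) : T3)) =
        (c.symm ∘ fun t : ℝ => z + (t * a) • u + (t * b) • v) := by
      funext t
      show Fl 0 (c.symm (z + (t * a) • u + (t * b) • v)) = c.symm (z + (t * a) • u + (t * b) • v)
      rw [hFl0]
    rw [h7] at h3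
    have h8 := DFunLike.congr_fun (hasMFDerivAt_unique h3 h6) (1 : ℝ)
    have h9 : (mfderiv 𝓘(ℝ, T3) (𝓡 3) F ((0, (0 : ℝ) * a, (0 : ℝ) * b) : T3) ((1 : ℝ) • ((0, a, b) : T3)) : E3) =
        (mfderiv 𝓘(ℝ, E3) (𝓡 3) c.symm (z + ((0 : ℝ) * a) • u + ((0 : ℝ) * b) • v)
          ((1 : ℝ) • (a • u + b • v)) : E3) := h8
    rw [one_smul, one_smul, h0, hz0] at h9
    exact h9
  have hX0 : (mfderiv 𝓘(ℝ, T3) (𝓡 3) F (0, 0, 0) ((0, 1, 0) : T3) : E3) = X x₀ := by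
    rw [hd12 1 0, one_smul, zero_smul, add_zero]
    exact huX
  have hY0 : (mfderiv 𝓘(ℝ, T3) (𝓡 3) F (0, 0, 0) ((0, 0, 1) : T3) : E3) = Y x₀ := by
    rw [hd12 0 1, one_smul, zero_smul, zero_add]
    exact hvY
  have hZ0 : (mfderiv 𝓘(ℝ, T3) (𝓡 3) F (0, 0, 0) ((1, 0, 0) : T3) : E3) = Z x₀ := by
    have h1 : (mfderiv 𝓘(ℝ, T3) (𝓡 3) F (0, 0, 0) ((1, 0, 0) : T3) : E3) = Z (F (0, 0, 0)) :=
      hd0 (0, 0, 0) (hmem 0)
    rw [h1]
    exact congrArg (fun x => (Z x : E3)) hF0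
  -- injectivity of the derivative
  have hinj0 : Function.Injective (mfderiv 𝓘(ℝ, T3) (𝓡 3) F (0, 0, 0)) := by
    have hlin : ∀ D : T3 →L[ℝ] E3, D ((1, 0, 0) : T3) = Z x₀ → D ((0, 1, 0) : T3) = X x₀ →
        D ((0, 0, 1) : T3) = Y x₀ → Function.Injective D := by
      intro D h1 h2 h3
      rw [injective_iff_map_eq_zero]
      rintro ⟨a, b, d⟩ hw
      have h4 : ((a, b, d) : T3) = a • ((1, 0, 0) : T3) + b • ((0, 1, 0) : T3) + d • ((0, 0, 1) : T3) := by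
        ext <;> simp
      rw [h4, map_add, map_add, map_smul, map_smul, map_smul, h1, h2, h3] at hw
      have h5 := Fintype.linearIndependent_iff.1 hind ![a, b, d] (by
        rw [Fin.sum_univ_three]
        exact hw)
      have ha : a = 0 := h5 0
      have hb : b = 0 := h5 1
      have hd : d = 0 := h5 2
      rw [ha, hb, hd]
      rfl
    exact hlin _ hZ0 hX0 hY0
  -- a neighbourhood of the origin
  obtain ⟨Φ, hΦ0, hΦO, hΦ⟩ := exists_locDiff hOo hFs (hmem 0) hinj0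
  have hnb : ∀ᶠ z : ℝ × ℝ in 𝓝 (0, 0), ((0, z) : T3) ∈ Φ.source := by
    have h1 : ContinuousAt (fun z : ℝ × ℝ => ((0, z) : T3)) (0, 0) := by fun_prop
    exact h1 (Φ.open_source.mem_nhds hΦ0)
  obtain ⟨d, hd, hball⟩ := Metric.eventually_nhds_iff.1 hnb
  have hball' : ∀ z : ℝ × ℝ, ‖z‖ < d → ((0, z) : T3) ∈ Φ.source := by
    intro z hz
    refine hball ?_
    have h0 : ((0 : ℝ), (0 : ℝ)) = 0 := rfl
    rw [h0, dist_zero_right]
    exact hz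
  have hAsnd : ∀ (s : ℝ) (z : ℝ × ℝ), A (s, z) = A (0, z) := fun s z => rfl
  have hOs : ∀ (s : ℝ) (z : ℝ × ℝ), ‖z‖ < d → ((s, z) : T3) ∈ O := by
    intro s z hz
    have h1 : ((0, z) : T3) ∈ O := hΦO (hball' z hz)
    exact h1
  have hinjz : ∀ z : ℝ × ℝ, ‖z‖ < d → Function.Injective (mfderiv 𝓘(ℝ, T3) (𝓡 3) F (0, z)) := by
    intro z hz
    have hzΦ := hball' z hz
    have hFΦ : F =ᶠ[𝓝 ((0, z) : T3)] Φ := by
      filter_upwards [Φ.open_source.mem_nhds hzΦ] with r hr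
      exact (hΦ.eq r hr).symm
    have h1 : MDifferentiableAt 𝓘(ℝ, T3) (𝓡 3) Φ ((0, z) : T3) :=
      (hΦ.smooth.contMDiffAt (Φ.open_source.mem_nhds hzΦ)).mdifferentiableAt (by simp)
    have h2 : MDifferentiableAt (𝓡 3) 𝓘(ℝ, T3) Φ.symm (Φ ((0, z) : T3)) :=
      (hΦ.smooth_symm.contMDiffAt (Φ.open_target.mem_nhds (Φ.map_source hzΦ))).mdifferentiableAt (by simp)
    have h3 := HasMFDerivAt.comp ((0, z) : T3) h2.hasMFDerivAt h1.hasMFDerivAt
    have h4 : HasMFDerivAt 𝓘(ℝ, T3) 𝓘(ℝ, T3) (Φ.symm ∘ Φ) ((0, z) : T3) (ContinuousLinearMap.id ℝ T3) := by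
      have h5 : HasMFDerivAt 𝓘(ℝ, T3) 𝓘(ℝ, T3) (id : T3 → T3) ((0, z) : T3) (ContinuousLinearMap.id ℝ T3) :=
        hasMFDerivAt_id _
      refine h5.congr_of_eventuallyEq ?_
      filter_upwards [Φ.open_source.mem_nhds hzΦ] with r hr
      exact Φ.left_inv hr
    have h5 := hasMFDerivAt_unique h3 h4
    rw [hFΦ.mfderiv_eq]
    intro a b hab
    have h6 : ∀ w : T3, (mfderiv (𝓡 3) 𝓘(ℝ, T3) Φ.symm (Φ ((0, z) : T3))
        (mfderiv 𝓘(ℝ, T3) (𝓡 3) Φ ((0, z) : T3) w) : T3) = w := fun w => DFunLike.congr_fun h5 w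
    exact (h6 a).symm.trans ((congrArg (mfderiv (𝓡 3) 𝓘(ℝ, T3) Φ.symm (Φ ((0, z) : T3))) hab).trans (h6 b))
  have hinjs : ∀ (s : ℝ) (z : ℝ × ℝ), ‖z‖ < d →
      Function.Injective (mfderiv 𝓘(ℝ, T3) (𝓡 3) F (s, z)) := by
    intro s z hz
    have hq : ((0 + s, z) : T3) = (s, z) := by rw [zero_add]
    have hT : HasMFDerivAt 𝓘(ℝ, T3) 𝓘(ℝ, T3) (fun p : T3 => ((p.1 + s, p.2) : T3)) (0, z)
        (ContinuousLinearMap.id ℝ T3) := by
      have h1 : HasFDerivAt (fun p : T3 => ((p.1 + s, p.2) : T3)) (ContinuousLinearMap.id ℝ T3) (0, z) := by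
        have h2 : HasFDerivAt (fun p : T3 => p + ((s, 0, 0) : T3)) (ContinuousLinearMap.id ℝ T3) (0, z) :=
          (hasFDerivAt_id _).add_const _
        refine h2.congr_of_eventuallyEq (Eventually.of_forall fun p => ?_)
        ext <;> simp
      exact h1.hasMFDerivAt
    have h1 : HasMFDerivAt 𝓘(ℝ, T3) (𝓡 3) F ((0 + s, z) : T3)
        (mfderiv 𝓘(ℝ, T3) (𝓡 3) F ((0 + s, z) : T3)) := by
      refine hFd _ ?_
      rw [hq]
      exact hOs s z hz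
    have h2 : HasMFDerivAt (𝓡 3) (𝓡 3) (Fl (-s)) (F ((0 + s, z) : T3))
        (mfderiv (𝓡 3) (𝓡 3) (Fl (-s)) (F ((0 + s, z) : T3))) := by
      have h3 : ContMDiff (𝓡 3) (𝓡 3) ∞ (Fl (-s)) := by
        have h4 : ContMDiff (𝓡 3) (𝓘(ℝ, ℝ).prod (𝓡 3)) ∞ (fun x : M => ((-s, x) : ℝ × M)) :=
          contMDiff_const.prodMk contMDiff_id
        exact hFl.comp h4
      exact ((h3.contMDiffAt).mdifferentiableAt (by simp)).hasMFDerivAt
    have h3 := HasMFDerivAt.comp ((0, z) : T3) h2 (HasMFDerivAt.comp ((0, z) : T3) h1 hT)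
    have h4 : (Fl (-s) ∘ F ∘ fun p : T3 => ((p.1 + s, p.2) : T3)) = F := by
      funext p
      show Fl (-s) (Fl (p.1 + s) (c.symm (A p))) = Fl p.1 (c.symm (A p))
      rw [← hFla]
      congr 1
      ring
    rw [h4] at h3
    have h5 := hasMFDerivAt_unique (hFd (0, z) (hOs 0 z hz)) h3
    have h6 := hinjz z hz
    rw [h5] at h6
    rw [hq] at h6
    exact fun a b hab => h6 (congrArg (mfderiv (𝓡 3) (𝓡 3) (Fl (-s)) (F ((s, z) : T3))) hab)
  refine ⟨F, d, hd, ⟨isOpen_tubeN d, fun p hp => ?_⟩, hF0, fun t p => ?_, fun p hp => hd0 p (hOs p.1 p.2 hp),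
    ?_, ?_⟩
  · obtain ⟨e, he, hKe, hsub, hes⟩ := exists_chart_of_locDiff (F := F) (K := {p}) isCompact_singleton
      (singleton_nonempty p) (injOn_singleton F p) (fun q hq => by
        rw [mem_singleton_iff] at hq
        subst hq
        obtain ⟨Ψ, h1, -, h2⟩ := exists_locDiff hOo hFs (hOs q.1 q.2 hp) (hinjs q.1 q.2 hp)
        exact ⟨Ψ, h1, h2⟩) (isOpen_tubeN d) (singleton_subset_iff.2 hp)
    exact ⟨e, he, hKe rfl, hsub, hes⟩
  · show Fl (p.1 + t) (c.symm (A (p.1 + t, p.2))) = Fl t (Fl p.1 (c.symm (A p)))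
    rw [← hFla, add_comm t p.1]
  · exact hX0.trans (congrArg (fun x => (X x : E3)) hF0.symm)
  · exact hY0.trans (congrArg (fun x => (Y x : E3)) hF0.symm)

end M

end Pool.Agent.SRGap
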