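import Pool.Agent.Work.MP_188050_an.BDefs
import Pool.Agent.Work.MP_188050_an.PerQM

/-!
# Injectivity of a periodic immersed tube modulo its period (module K5)
-/

open Set MeasureTheory Filter Topology VectorField
open scoped Manifold ContDiff

namespace Pool.Agent.SRGap

lemma kinj_shift {M : Type*} {F : T3 → M} {d ℓ : ℝ} (hper : ∀ p ∈ tubeN d, F (p.1 + ℓ, p.2) = F p) (k : ℤ) :
    ∀ p ∈ tubeN d, F (p.1 + k * ℓ, p.2) = F p := by
  induction k using Int.induction_on with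
  | zero =>
    intro p _
    simp
  | succ n ih =>
    intro p hp
    have h1 : ((p.1 + (n : ℤ) * ℓ, p.2) : T3) ∈ tubeN d := hp
    have h2 := hper _ h1
    rw [ih p hp] at h2
    rw [← h2]
    congr 1
    ext
    · push_cast
      ring
    · rfl
    · rfl
  | pred n ih =>
    intro p hp
    have h1 : ((p.1 + ((-(n : ℤ) - 1 : ℤ) : ℝ) * ℓ, p.2) : T3) ∈ tubeN d := hp
    have h2 := hper _ h1
    rw [← h2, ← ih p hp]
    congr 1
    ext
    · push_cast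
      ring
    · rfl
    · rfl

section M
variable {M : Type*} [TopologicalSpace M] [ChartedSpace E3 M] [IsManifold (𝓡 3) ∞ M]

theorem inj_mod [T2Space M] {F : T3 → M} {d ℓ : ℝ} (hF : IsImm F (tubeN d)) (hd : 0 < d) (hℓ : 0 < ℓ)
    (hper : ∀ p ∈ tubeN d, F (p.1 + ℓ, p.2) = F p)
    (hinj : InjOn (fun s : ℝ => F (s, 0, 0)) (Ico 0 ℓ)) :
    ∃ d' : ℝ, 0 < d' ∧ d' ≤ d ∧ ∀ p ∈ tubeN d', ∀ p' ∈ tubeN d', F p = F p' →
      ∃ k : ℤ, p' = (p.1 + k * ℓ, p.2) := by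
  by_contra hcon
  push Not at hcon
  have hshift := kinj_shift hper
  -- the sequences
  have hpos : ∀ j : ℕ, 0 < min d (1 / ((j : ℝ) + 1)) := fun j => lt_min hd (by positivity)
  choose p hp p' hp' hpp hne using fun j : ℕ =>
    hcon (min d (1 / ((j : ℝ) + 1))) (hpos j) (min_le_left _ _)
  have hmono : ∀ (j : ℕ) (q : T3), q ∈ tubeN (min d (1 / ((j : ℝ) + 1))) → q ∈ tubeN d :=
    fun j q hq => (show ‖q.2‖ < d from lt_of_lt_of_le hq (min_le_left _ _))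
  have hsmall : ∀ (j : ℕ) (q : T3), q ∈ tubeN (min d (1 / ((j : ℝ) + 1))) →
      ‖q.2‖ < 1 / ((j : ℝ) + 1) := fun j q hq => lt_of_lt_of_le hq (min_le_right _ _)
  -- reduce the first coordinate
  let r : T3 → T3 := fun q => (q.1 + ((-⌊q.1 / ℓ⌋ : ℤ) : ℝ) * ℓ, q.2)
  have hr1 : ∀ q : T3, (r q).1 ∈ Icc 0 ℓ := by
    intro q
    have h1 := Int.floor_le (q.1 / ℓ)
    have h2 := Int.lt_floor_add_one (q.1 / ℓ)
    rw [le_div_iff₀ hℓ] at h1
    rw [div_lt_iff₀ hℓ] at h2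
    constructor
    · show 0 ≤ q.1 + ((-⌊q.1 / ℓ⌋ : ℤ) : ℝ) * ℓ
      push_cast
      linarith
    · show q.1 + ((-⌊q.1 / ℓ⌋ : ℤ) : ℝ) * ℓ ≤ ℓ
      push_cast
      linarith
  have hrF : ∀ q ∈ tubeN d, F (r q) = F q := fun q hq => hshift _ q hq
  -- a convergent subsequence
  have hK : IsCompact (Icc (0 : ℝ) ℓ ×ˢ Icc (0 : ℝ) ℓ) := isCompact_Icc.prod isCompact_Icc
  obtain ⟨⟨s, s'⟩, -, φ, hφ, hlim⟩ := hK.tendsto_subseq
    (x := fun j => ((r (p j)).1, (r (p' j)).1)) fun j => ⟨hr1 _, hr1 _⟩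
  have hz : ∀ q : ℕ → T3, (∀ j, ‖(q j).2‖ < 1 / ((j : ℝ) + 1)) →
      Tendsto (fun j => (q (φ j)).2) atTop (𝓝 ((0 : ℝ), (0 : ℝ))) := by
    intro q hq
    have h1 : Tendsto (fun j : ℕ => 1 / ((j : ℝ) + 1)) atTop (𝓝 0) :=
      tendsto_one_div_add_atTop_nhds_zero_nat
    have h2 : Tendsto (fun j => (q j).2) atTop (𝓝 ((0 : ℝ), (0 : ℝ))) := by
      have : ((0 : ℝ), (0 : ℝ)) = 0 := rfl
      rw [this, tendsto_zero_iff_norm_tendsto_zero]
      exact squeeze_zero (fun _ => norm_nonneg _) (fun j => (hq j).le) h1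
    exact h2.comp hφ.tendsto_atTop
  have hl1 : Tendsto (fun j => r (p (φ j))) atTop (𝓝 ((s, 0, 0) : T3)) := by
    have h1 : Tendsto (fun j => (r (p (φ j))).1) atTop (𝓝 s) :=
      (continuous_fst.tendsto _).comp hlim
    exact h1.prodMk_nhds (hz p fun j => hsmall j _ (hp j))
  have hl2 : Tendsto (fun j => r (p' (φ j))) atTop (𝓝 ((s', 0, 0) : T3)) := by
    have h1 : Tendsto (fun j => (r (p' (φ j))).1) atTop (𝓝 s') :=
      (continuous_snd.tendsto _).comp hlim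
    exact h1.prodMk_nhds (hz p' fun j => hsmall j _ (hp' j))
  have hs : s ∈ Icc 0 ℓ := isClosed_Icc.mem_of_tendsto
    ((continuous_fst.tendsto _).comp hlim) (Eventually.of_forall fun j => hr1 _)
  have hs' : s' ∈ Icc 0 ℓ := isClosed_Icc.mem_of_tendsto
    ((continuous_snd.tendsto _).comp hlim) (Eventually.of_forall fun j => hr1 _)
  have hcont : ∀ q ∈ tubeN d, ContinuousAt F q := by
    intro q hq
    obtain ⟨e, -, h1, -, h2⟩ := hF.chart q hq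
    have h3 : (e.symm : T3 → M) = F := funext h2
    rw [← h3]
    exact e.symm.continuousAt h1
  have hax : ∀ s : ℝ, ((s, 0, 0) : T3) ∈ tubeN d := axis_mem_tubeN hd
  have hFF : ∀ j, F (r (p j)) = F (r (p' j)) := fun j => by
    rw [hrF _ (hmono j _ (hp j)), hrF _ (hmono j _ (hp' j)), hpp j]
  have heq : F (s, 0, 0) = F (s', 0, 0) := by
    have h1 := (hcont _ (hax s)).tendsto.comp hl1
    have h2 := (hcont _ (hax s')).tendsto.comp hl2
    refine tendsto_nhds_unique h1 ?_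
    have h3 : (F ∘ fun j => r (p (φ j))) = F ∘ fun j => r (p' (φ j)) := funext fun j => hFF (φ j)
    rw [h3]
    exact h2
  -- the limits are congruent
  have hF0 : F (ℓ, 0, 0) = F (0, 0, 0) := by
    have := hper (0, 0, 0) (hax 0)
    simpa using this
  have hk : ∃ k : ℤ, s' = s + k * ℓ := by
    rcases hs.2.eq_or_lt with h1 | h1
    · rcases hs'.2.eq_or_lt with h2 | h2
      · exact ⟨0, by rw [h1, h2]; simp⟩
      · rw [h1, hF0] at heq
        have h3 : (0 : ℝ) = s' := hinj ⟨le_rfl, hℓ⟩ ⟨hs'.1, h2⟩ heq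
        exact ⟨-1, by rw [h1, ← h3]; push_cast; ring⟩
    · rcases hs'.2.eq_or_lt with h2 | h2
      · rw [h2, hF0] at heq
        have h3 : s = 0 := hinj ⟨hs.1, h1⟩ ⟨le_rfl, hℓ⟩ heq
        exact ⟨1, by rw [h2, h3]; push_cast; ring⟩
      · have h3 : s = s' := hinj ⟨hs.1, h1⟩ ⟨hs'.1, h2⟩ heq
        exact ⟨0, by rw [h3]; simp⟩
  obtain ⟨k, hk⟩ := hk
  obtain ⟨e, -, he1, he2, he3⟩ := hF.chart _ (hax s)
  -- local injectivity
  have h1 : ∀ᶠ j in atTop, r (p (φ j)) ∈ e.target := hl1.eventually (e.open_target.mem_nhds he1)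
  have hl3 : Tendsto (fun j => (((r (p' (φ j))).1 + ((-k : ℤ) : ℝ) * ℓ, (r (p' (φ j))).2) : T3))
      atTop (𝓝 ((s, 0, 0) : T3)) := by
    have h2 : Continuous fun q : T3 => ((q.1 + ((-k : ℤ) : ℝ) * ℓ, q.2) : T3) := by fun_prop
    have h3 := (h2.tendsto ((s', 0, 0) : T3)).comp hl2
    have h4 : (((s', 0, 0) : T3).1 + ((-k : ℤ) : ℝ) * ℓ, ((s', 0, 0) : T3).2) =
        ((s, 0, 0) : T3) := by
      ext
      · show s' + ((-k : ℤ) : ℝ) * ℓ = s
        rw [hk]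
        push_cast
        ring
      · rfl
      · rfl
    rw [h4] at h3
    exact h3
  have h2 : ∀ᶠ j in atTop, (((r (p' (φ j))).1 + ((-k : ℤ) : ℝ) * ℓ, (r (p' (φ j))).2) : T3) ∈
      e.target := hl3.eventually (e.open_target.mem_nhds he1)
  obtain ⟨j, hj1, hj2⟩ := (h1.and h2).exists
  have h3 : F (r (p (φ j))) =
      F (((r (p' (φ j))).1 + ((-k : ℤ) : ℝ) * ℓ, (r (p' (φ j))).2) : T3) := by
    have h4 : r (p' (φ j)) ∈ tubeN d := hmono _ _ (hp' (φ j))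
    rw [hshift (-k) _ h4, hFF]
  rw [← he3, ← he3] at h3
  have h4 := e.symm.injOn hj1 hj2 h3
  apply hne (φ j) (⌊(p' (φ j)).1 / ℓ⌋ + k - ⌊(p (φ j)).1 / ℓ⌋)
  have h5 : (r (p (φ j))).1 = (r (p' (φ j))).1 + ((-k : ℤ) : ℝ) * ℓ := congrArg Prod.fst h4
  have h6 : (p (φ j)).2 = (p' (φ j)).2 := by
    have h8 : (r (p (φ j))).2 =
        (((r (p' (φ j))).1 + ((-k : ℤ) : ℝ) * ℓ, (r (p' (φ j))).2) : T3).2 := by rw [h4]
    exact h8
  have h7 : (p (φ j)).1 + ((-⌊(p (φ j)).1 / ℓ⌋ : ℤ) : ℝ) * ℓ =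
      (p' (φ j)).1 + ((-⌊(p' (φ j)).1 / ℓ⌋ : ℤ) : ℝ) * ℓ + ((-k : ℤ) : ℝ) * ℓ := h5
  refine Prod.ext ?_ h6.symm
  show (p' (φ j)).1 = (p (φ j)).1 + _ * ℓ
  push_cast at h7 ⊢
  linarith

end M

end Pool.Agent.SRGap
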