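import Pool.Agent.Work.MP_188050_an.BDefs
import Pool.Agent.Work.MP_188050_an.PerQM

/-!
# Second theorem of the cell SR, module K11: the local return time is constant
-/

open Set MeasureTheory Filter Topology VectorField
open scoped Manifold ContDiff

namespace Pool.Agent.SRGap

namespace KLocAux

/-- the shear `(a, b) ↦ (a + L b, b)` -/
noncomputable def shear (L : ℝ × ℝ →L[ℝ] ℝ) : T3 →L[ℝ] T3 :=
  (ContinuousLinearMap.fst ℝ ℝ (ℝ × ℝ) + L.comp (ContinuousLinearMap.snd ℝ ℝ (ℝ × ℝ))).prod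
    (ContinuousLinearMap.snd ℝ ℝ (ℝ × ℝ))

theorem shear_apply (L : ℝ × ℝ →L[ℝ] ℝ) (v : T3) : shear L v = (v.1 + L v.2, v.2) := rfl

/-- the shear as an equivalence -/
noncomputable def shearE (L : ℝ × ℝ →L[ℝ] ℝ) : T3 ≃L[ℝ] T3 :=
  ContinuousLinearEquiv.equivOfInverse (shear L) (shear (-L))
    (fun v => by
      rw [shear_apply, shear_apply]
      ext <;> simp)
    (fun v => by
      rw [shear_apply, shear_apply]
      ext <;> simp)

theorem coe_shearE (L : ℝ × ℝ →L[ℝ] ℝ) : ((shearE L : T3 ≃L[ℝ] T3) : T3 →L[ℝ] T3) = shear L := rfl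

theorem inverse_shear (L : ℝ × ℝ →L[ℝ] ℝ) : (shear L).inverse = shear (-L) := by
  rw [← coe_shearE, ContinuousLinearMap.inverse_equiv]
  rfl

section M
variable {M : Type*} [TopologicalSpace M] [ChartedSpace E3 M]

theorem contMDiffAt_imm {F : T3 → M} {O : Set T3} (hF : IsImm F O) {p : T3} (hp : p ∈ O) :
    ContMDiffAt 𝓘(ℝ, T3) (𝓡 3) ∞ F p := by
  obtain ⟨e, he, hpe, -, heF⟩ := hF.chart p hp
  have h1 : (e.symm : T3 → M) = F := funext heF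
  rw [← h1]
  exact he.smooth_symm.contMDiffAt (e.open_target.mem_nhds hpe)

variable [IsManifold (𝓡 3) ∞ M]

theorem inverse_comp_shear (B : T3 →L[ℝ] E3) (L : ℝ × ℝ →L[ℝ] ℝ) :
    (B ∘L shear L).inverse = shear (-L) ∘L B.inverse := by
  rw [ContinuousLinearMap.IsInvertible.inverse_comp_of_right (f := shear L) ⟨shearE L, rfl⟩,
    inverse_shear]

theorem G_comp (S : ContactSR M) (L : ℝ × ℝ →L[ℝ] ℝ) (ξ η : T3 →L[ℝ] ℝ) (x y : M) (hxy : x = y)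
    (A B : T3 →L[ℝ] E3) (h : A = B ∘L shear L) :
    S.G x (ξ ∘L (A.inverse : TangentSpace (𝓡 3) x →L[ℝ] T3))
        (η ∘L (A.inverse : TangentSpace (𝓡 3) x →L[ℝ] T3)) =
      S.G y ((ξ ∘L shear (-L)) ∘L (B.inverse : TangentSpace (𝓡 3) y →L[ℝ] T3))
        ((η ∘L shear (-L)) ∘L (B.inverse : TangentSpace (𝓡 3) y →L[ℝ] T3)) := by
  subst hxy
  have h1 : A.inverse = shear (-L) ∘L B.inverse := by rw [h, inverse_comp_shear]
  rw [h1]
  rfl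

/-- the cometrics at two points with the same image -/
theorem iG_comp (S : ContactSR M) {F : T3 → M} {p q : T3} (hpq : F p = F q) (L : ℝ × ℝ →L[ℝ] ℝ)
    (hd : (mfderiv 𝓘(ℝ, T3) (𝓡 3) F p : T3 →L[ℝ] E3) =
      (mfderiv 𝓘(ℝ, T3) (𝓡 3) F q : T3 →L[ℝ] E3) ∘L shear L) (ξ η : T3 →L[ℝ] ℝ) :
    iG S F p ξ η = iG S F q (ξ ∘L shear (-L)) (η ∘L shear (-L)) :=
  G_comp S L ξ η (F p) (F q) hpq (mfderiv 𝓘(ℝ, T3) (𝓡 3) F p) (mfderiv 𝓘(ℝ, T3) (𝓡 3) F q) hd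

end M

theorem apply_pair (L : ℝ × ℝ →L[ℝ] ℝ) (a b : ℝ) : L (a, b) = a * L (1, 0) + b * L (0, 1) := by
  have h : ((a, b) : ℝ × ℝ) = a • ((1, 0) : ℝ × ℝ) + b • ((0, 1) : ℝ × ℝ) := by
    ext <;> simp
  rw [h, map_add, map_smul, map_smul, smul_eq_mul, smul_eq_mul]

/-- a shear which takes the frame of a tube to an orthonormal frame of the same cometric is trivial -/
theorem shear_zero (τ : Tube) {z : ℝ × ℝ} {s s' : ℝ} (L : ℝ × ℝ →L[ℝ] ℝ)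
    (h : ∀ ξ η : T3 →L[ℝ] ℝ, ξ (τ.X (s, z)) * η (τ.X (s, z)) + ξ (τ.Y (s, z)) * η (τ.Y (s, z)) =
      (ξ ∘L shear (-L)) (τ.X (s', z)) * (η ∘L shear (-L)) (τ.X (s', z)) +
        (ξ ∘L shear (-L)) (τ.Y (s', z)) * (η ∘L shear (-L)) (τ.Y (s', z))) : L = 0 := by
  obtain ⟨w, hw⟩ : ∃ w : T3 →L[ℝ] ℝ, ∀ v : T3, w v = v.1 - τ.f₁ z * v.2.1 - τ.f₂ z * v.2.2 :=
    ⟨ContinuousLinearMap.fst ℝ ℝ (ℝ × ℝ) -
      τ.f₁ z • (ContinuousLinearMap.fst ℝ ℝ ℝ).comp (ContinuousLinearMap.snd ℝ ℝ (ℝ × ℝ)) -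
      τ.f₂ z • (ContinuousLinearMap.snd ℝ ℝ ℝ).comp (ContinuousLinearMap.snd ℝ ℝ (ℝ × ℝ)),
      fun v => by simp⟩
  have h1 := h w w
  have hX : w (τ.X (s, z)) = 0 := by
    rw [hw]
    simp only [Tube.X]
    ring
  have hY : w (τ.Y (s, z)) = 0 := by
    rw [hw]
    simp only [Tube.Y]
    ring
  have hX' : (w ∘L shear (-L)) (τ.X (s', z)) =
      -(τ.a (s', z) * L (1, 0) + τ.c (s', z) * L (0, 1)) := by
    rw [ContinuousLinearMap.comp_apply, shear_apply, hw, neg_apply]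
    simp only [Tube.X]
    rw [apply_pair L (τ.a (s', z)) (τ.c (s', z))]
    ring
  have hY' : (w ∘L shear (-L)) (τ.Y (s', z)) = -(τ.d (s', z) * L (0, 1)) := by
    rw [ContinuousLinearMap.comp_apply, shear_apply, hw, neg_apply]
    simp only [Tube.Y]
    rw [apply_pair L 0 (τ.d (s', z))]
    ring
  rw [hX, hY, hX', hY'] at h1
  have hd := τ.d_pos (s', z)
  have ha := τ.a_pos (s', z)
  have h2 : τ.d (s', z) * L (0, 1) = 0 := by
    nlinarith [sq_nonneg (τ.d (s', z) * L (0, 1)),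
      sq_nonneg (τ.a (s', z) * L (1, 0) + τ.c (s', z) * L (0, 1))]
  have h3 : L (0, 1) = 0 := (mul_eq_zero.1 h2).resolve_left hd.ne'
  have h4 : τ.a (s', z) * L (1, 0) = 0 := by
    rw [h3] at h1
    nlinarith [sq_nonneg (τ.a (s', z) * L (1, 0))]
  have h5 : L (1, 0) = 0 := (mul_eq_zero.1 h4).resolve_left ha.ne'
  ext
  · simpa using h5
  · simpa using h3

end KLocAux

open KLocAux

variable {M : Type*} [TopologicalSpace M] [ChartedSpace E3 M] [IsManifold (𝓡 3) ∞ M]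

/-- the local return time of a family of closed orbits is constant -/
theorem loc_const (S : ContactSR M) {F : T3 → M} {d : ℝ} (hF : IsImm F (tubeN d))
    (Fl : ℝ → M → M) (hFla : ∀ s t x, Fl (s + t) x = Fl s (Fl t x)) (hFl0 : ∀ x, Fl 0 x = x)
    (heq : ∀ (t : ℝ) (p : T3), F (p.1 + t, p.2) = Fl t (F p)) (τ : Tube) {U : Set T3} (hU : IsOpen U)
    (hUO : U ⊆ tubeN d)
    (hG : ∀ p ∈ U, ∀ ξ η : T3 →L[ℝ] ℝ,
      iG S F p ξ η = ξ (τ.X p) * η (τ.X p) + ξ (τ.Y p) * η (τ.Y p))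
    {P : ℝ} (h0 : ((0, 0, 0) : T3) ∈ U) (hP : ((P, 0, 0) : T3) ∈ U)
    (hFP : F (P, 0, 0) = F (0, 0, 0))
    (hnear : ∀ ε > 0, ∀ᶠ x in 𝓝 (F (0, 0, 0)), ∃ T : ℝ, |T - P| < ε ∧ Fl T x = x) :
    ∀ᶠ x in 𝓝 (F (0, 0, 0)), Fl P x = x := by
  obtain ⟨e, he, h0e, heO, heF⟩ := hF.chart _ (hUO h0)
  have hx0 : F (0, 0, 0) ∈ e.source := by
    rw [← heF]
    exact e.map_target h0e
  have hex0 : e (F (0, 0, 0)) = (0, 0, 0) := by rw [← heF, e.right_inv h0e]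
  -- continuity of the two sections
  have hsm : ∀ p ∈ U, ContMDiffAt 𝓘(ℝ, T3) (𝓡 3) ∞ F p := fun p hp => contMDiffAt_imm hF (hUO hp)
  have hcP : ContinuousAt (fun z : ℝ × ℝ => F (P, z)) (0 : ℝ × ℝ) := by
    have h1 : ContinuousAt F ((P, (0 : ℝ × ℝ)) : T3) := (hsm _ hP).continuousAt
    exact ContinuousAt.comp (f := fun z : ℝ × ℝ => ((P, z) : T3)) h1 (by fun_prop)
  have hc0 : ContinuousAt (fun z : ℝ × ℝ => F (0, z)) (0 : ℝ × ℝ) := by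
    have h1 : ContinuousAt F ((0, (0 : ℝ × ℝ)) : T3) := (hsm _ h0).continuousAt
    exact ContinuousAt.comp (f := fun z : ℝ × ℝ => ((0, z) : T3)) h1 (by fun_prop)
  have htP : Tendsto (fun z : ℝ × ℝ => F (P, z)) (𝓝 0) (𝓝 (F (0, 0, 0))) := by
    rw [← hFP]; exact hcP
  have ht0 : Tendsto (fun z : ℝ × ℝ => F (0, z)) (𝓝 0) (𝓝 (F (0, 0, 0))) := hc0
  -- a box
  obtain ⟨ε, hε, hbox⟩ : ∃ ε > 0, ∀ (s : ℝ) (z : ℝ × ℝ), |s| < ε → ‖z‖ < ε →
      ((s, z) : T3) ∈ e.target ∩ U := by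
    obtain ⟨ε, hε, hb⟩ := Metric.isOpen_iff.1 (e.open_target.inter hU) _ ⟨h0e, h0⟩
    refine ⟨ε, hε, fun s z hs hz => hb ?_⟩
    have hz0 : (((0 : ℝ), (0 : ℝ), (0 : ℝ)) : T3) = 0 := rfl
    rw [hz0, mem_ball_zero_iff]
    exact max_lt (by rwa [Real.norm_eq_abs]) hz
  obtain ⟨g, hg⟩ : ∃ g : ℝ × ℝ → ℝ, ∀ z, g z = (e (F (P, z))).1 := ⟨_, fun _ => rfl⟩
  -- the good points
  have hev : ∀ᶠ z : ℝ × ℝ in 𝓝 0, F (P, z) = F (g z, z) ∧ ((g z, z) : T3) ∈ U ∧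
      ((P, z) : T3) ∈ U ∧ DifferentiableAt ℝ g z := by
    have h1 : ∀ᶠ z : ℝ × ℝ in 𝓝 0, ‖z‖ < ε := by
      filter_upwards [Metric.ball_mem_nhds (0 : ℝ × ℝ) hε] with z hz
      exact mem_ball_zero_iff.1 hz
    have h2 : ∀ᶠ z : ℝ × ℝ in 𝓝 0, F (P, z) ∈ e.source :=
      htP.eventually (e.open_source.mem_nhds hx0)
    have h3 : ∀ᶠ z : ℝ × ℝ in 𝓝 0, ∃ T : ℝ, |T - P| < ε ∧ Fl T (F (0, z)) = F (0, z) :=
      ht0.eventually (hnear ε hε)
    have h4 : ∀ᶠ z : ℝ × ℝ in 𝓝 0, ((P, z) : T3) ∈ U :=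
      (Continuous.prodMk_right P).continuousAt.eventually (hU.mem_nhds hP)
    filter_upwards [h1, h2, h3, h4] with z hz1 hz2 hz3 hz4
    obtain ⟨T, hT, hTz⟩ := hz3
    have hbz := hbox (P - T) z (by rw [abs_sub_comm]; exact hT) hz1
    have h5 : F (P, z) = F (P - T, z) := by
      have h6 := heq P ((0, z) : T3)
      have h7 := heq (P - T) ((0, z) : T3)
      simp only [zero_add] at h6 h7
      rw [h6, h7]
      have h8 := hFla (P - T) T (F (0, z))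
      rw [hTz, sub_add_cancel] at h8
      exact h8
    have h6 : e (F (P, z)) = (P - T, z) := by rw [h5, ← heF, e.right_inv hbz.1]
    have h7 : g z = P - T := by rw [hg, h6]
    refine ⟨by rw [h7]; exact h5, by rw [h7]; exact hbz.2, hz4, ?_⟩
    have h8 : ContMDiffAt 𝓘(ℝ, ℝ × ℝ) 𝓘(ℝ, T3) ∞ (fun z : ℝ × ℝ => e (F (P, z))) z := by
      have h9 : ContMDiffAt (𝓡 3) 𝓘(ℝ, T3) ∞ e (F (P, z)) :=
        he.smooth.contMDiffAt (e.open_source.mem_nhds hz2)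
      have h10 : ContMDiffAt 𝓘(ℝ, ℝ × ℝ) (𝓡 3) ∞ (fun z : ℝ × ℝ => F (P, z)) z := by
        refine ContMDiffAt.comp (g := F) (f := fun z : ℝ × ℝ => ((P, z) : T3)) z
          (hsm _ hz4) ?_
        exact (contDiffAt_const.prodMk contDiffAt_id).contMDiffAt
      exact ContMDiffAt.comp (g := e) (f := fun z : ℝ × ℝ => F (P, z)) z h9 h10
    have h11 : DifferentiableAt ℝ (fun z : ℝ × ℝ => e (F (P, z))) z :=
      (contMDiffAt_iff_contDiffAt.1 h8).differentiableAt (by simp)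
    have h12 : g = fun z => (e (F (P, z))).1 := funext hg
    rw [h12]
    exact h11.fst
  obtain ⟨r, hr, hball⟩ := Metric.eventually_nhds_iff_ball.1 hev
  -- the return map
  have hret : ∀ z' ∈ Metric.ball (0 : ℝ × ℝ) r, ∀ s : ℝ, F (s, z') = F (s - P + g z', z') := by
    intro z' hz' s
    have h1 := (hball z' hz').1
    have h2 := heq (s - P) ((P, z') : T3)
    have h3 := heq (s - P) ((g z', z') : T3)
    simp only at h2 h3
    rw [h1, ← h3] at h2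
    have e1 : P + (s - P) = s := by ring
    have e2 : g z' + (s - P) = s - P + g z' := by ring
    rw [e1, e2] at h2
    exact h2
  have hder : ∀ z ∈ Metric.ball (0 : ℝ × ℝ) r, fderiv ℝ g z = 0 := by
    intro z hz
    obtain ⟨hz1, hz2, hz3, hz4⟩ := hball z hz
    obtain ⟨Ψ, hΨ⟩ : ∃ Ψ : T3 → T3, ∀ p, Ψ p = (p.1 - P + g p.2, p.2) := ⟨_, fun _ => rfl⟩
    have hΨd : HasFDerivAt Ψ (shear (fderiv ℝ g z)) ((P, z) : T3) := by
      have h1 : HasFDerivAt (fun p : T3 => g p.2)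
          ((fderiv ℝ g z).comp (ContinuousLinearMap.snd ℝ ℝ (ℝ × ℝ))) ((P, z) : T3) :=
        HasFDerivAt.comp (g := g) (f := fun p : T3 => p.2) ((P, z) : T3) hz4.hasFDerivAt
          hasFDerivAt_snd
      have h2 : HasFDerivAt (fun p : T3 => p.1 - P + g p.2)
          (ContinuousLinearMap.fst ℝ ℝ (ℝ × ℝ) +
            (fderiv ℝ g z).comp (ContinuousLinearMap.snd ℝ ℝ (ℝ × ℝ))) ((P, z) : T3) :=
        (hasFDerivAt_fst.sub_const P).add h1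
      have h3 := h2.prodMk (hasFDerivAt_snd (p := ((P, z) : T3)))
      have h4 : Ψ = fun p : T3 => (p.1 - P + g p.2, p.2) := funext hΨ
      rw [h4]
      exact h3
    have hΨz : Ψ ((P, z) : T3) = (g z, z) := by
      rw [hΨ]
      simp
    have hFΨ : F =ᶠ[𝓝 ((P, z) : T3)] F ∘ Ψ := by
      have h1 : ∀ᶠ p : T3 in 𝓝 ((P, z) : T3), p.2 ∈ Metric.ball (0 : ℝ × ℝ) r :=
        continuous_snd.continuousAt.eventually (Metric.isOpen_ball.mem_nhds hz)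
      filter_upwards [h1] with p hp
      rw [Function.comp_apply, hΨ]
      exact hret p.2 hp p.1
    have hdF : MDifferentiableAt 𝓘(ℝ, T3) (𝓡 3) F (Ψ ((P, z) : T3)) := by
      rw [hΨz]
      exact (hsm _ hz2).mdifferentiableAt (by simp)
    have hd1 : mfderiv 𝓘(ℝ, T3) (𝓡 3) (F ∘ Ψ) ((P, z) : T3) =
        (mfderiv 𝓘(ℝ, T3) (𝓡 3) F (Ψ ((P, z) : T3))).comp
          (mfderiv 𝓘(ℝ, T3) 𝓘(ℝ, T3) Ψ ((P, z) : T3)) :=
      mfderiv_comp _ hdF hΨd.differentiableAt.mdifferentiableAt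
    have hd2 : (mfderiv 𝓘(ℝ, T3) 𝓘(ℝ, T3) Ψ ((P, z) : T3) : T3 →L[ℝ] T3) =
        shear (fderiv ℝ g z) := by
      rw [mfderiv_eq_fderiv]
      exact hΨd.fderiv
    have hd3 : (mfderiv 𝓘(ℝ, T3) (𝓡 3) F ((P, z) : T3) : T3 →L[ℝ] E3) =
        (mfderiv 𝓘(ℝ, T3) (𝓡 3) F ((g z, z) : T3) : T3 →L[ℝ] E3) ∘L shear (fderiv ℝ g z) := by
      have h1 : (mfderiv 𝓘(ℝ, T3) (𝓡 3) F ((P, z) : T3) : T3 →L[ℝ] E3) =
          (mfderiv 𝓘(ℝ, T3) (𝓡 3) F (Ψ ((P, z) : T3)) : T3 →L[ℝ] E3) ∘L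
            (mfderiv 𝓘(ℝ, T3) 𝓘(ℝ, T3) Ψ ((P, z) : T3) : T3 →L[ℝ] T3) :=
        (hFΨ.mfderiv_eq).trans hd1
      rw [h1, hd2, hΨz]
      rfl
    refine shear_zero τ (z := z) (s := P) (s' := g z) (fderiv ℝ g z) fun ξ η => ?_
    have h1 := iG_comp S hz1 (fderiv ℝ g z) hd3 ξ η
    rw [hG _ hz3, hG _ hz2] at h1
    exact h1
  have hg0 : g 0 = 0 := by
    have h1 : ((P, (0 : ℝ × ℝ)) : T3) = (P, 0, 0) := rfl
    rw [hg, h1, hFP, hex0]
  have hgz : ∀ z ∈ Metric.ball (0 : ℝ × ℝ) r, g z = 0 := by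
    intro z hz
    rw [← hg0]
    refine Metric.isOpen_ball.is_const_of_fderiv_eq_zero (𝕜 := ℝ) (s := Metric.ball (0 : ℝ × ℝ) r)
      (convex_ball (0 : ℝ × ℝ) r).isPreconnected
      (fun w hw => (hball w hw).2.2.2.differentiableWithinAt) (fun w hw => hder w hw) hz
      (Metric.mem_ball_self hr)
  have hPz : ∀ z ∈ Metric.ball (0 : ℝ × ℝ) r, F (P, z) = F (0, z) := by
    intro z hz
    have h1 := (hball z hz).1
    rwa [hgz z hz] at h1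
  have hfin1 : ∀ᶠ x in 𝓝 (F (0, 0, 0)), x ∈ e.source := e.open_source.mem_nhds hx0
  have hfin2 : ∀ᶠ x in 𝓝 (F (0, 0, 0)), (e x).2 ∈ Metric.ball (0 : ℝ × ℝ) r := by
    have h1 : ContinuousAt (fun x => (e x).2) (F (0, 0, 0)) :=
      continuous_snd.continuousAt.comp (e.continuousAt hx0)
    refine h1.eventually (Metric.isOpen_ball.mem_nhds ?_)
    show (e (F (0, 0, 0))).2 ∈ Metric.ball (0 : ℝ × ℝ) r
    rw [hex0]
    exact Metric.mem_ball_self hr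
  filter_upwards [hfin1, hfin2] with x hx1 hx2
  have hx3 : F ((e x).1, (e x).2) = x := by
    rw [← heF]
    exact e.left_inv hx1
  have h1 := heq P (((e x).1, (e x).2) : T3)
  have h2 := heq (e x).1 ((P, (e x).2) : T3)
  have h3 := heq (e x).1 ((0, (e x).2) : T3)
  simp only [zero_add] at h1 h2 h3
  rw [hx3] at h1 h3
  rw [← h1, add_comm, h2, hPz _ hx2, ← h3]

end Pool.Agent.SRGap
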