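import Mathlib

/-!
# A point with a locally constant period (pure topology)
-/

open Set MeasureTheory Filter Topology

namespace Pool.Agent.SRGap

/-- If no time of a compact set is a period of `x`, the same holds near `x`. -/
theorem ktop_not_period {M : Type*} [TopologicalSpace M] [T2Space M] (Fl : ℝ → M → M)
    (hc : Continuous fun p : ℝ × M => Fl p.1 p.2) {K : Set ℝ} (hK : IsCompact K) {x : M}
    (hx : ∀ t ∈ K, Fl t x ≠ x) : ∀ᶠ y in 𝓝 x, ∀ t ∈ K, Fl t y ≠ y := by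
  have hopen : IsOpen {p : ℝ × M | Fl p.1 p.2 ≠ p.2} :=
    isOpen_ne_fun hc continuous_snd
  obtain ⟨u, v, -, hv, hKu, hxv, huv⟩ := generalized_tube_lemma hK (isCompact_singleton (x := x))
    hopen (by
      rintro ⟨t, y⟩ ⟨ht, hy⟩
      obtain rfl : y = x := hy
      exact hx t ht)
  filter_upwards [hv.mem_nhds (hxv rfl)] with y hy t ht
  have h1 : ((t, y) : ℝ × M) ∈ u ×ˢ v := ⟨hKu ht, hy⟩
  exact huv h1

theorem good_point {M : Type*} [TopologicalSpace M] [T2Space M] (Fl : ℝ → M → M)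
    (hc : Continuous fun p : ℝ × M => Fl p.1 p.2) (hFl0 : ∀ x, Fl 0 x = x)
    (hFla : ∀ s t x, Fl (s + t) x = Fl s (Fl t x)) {m C : ℝ} (hm : 0 < m)
    (hshort : ∀ (x : M) (T : ℝ), 0 < T → T < m → Fl T x ≠ x)
    (hper : ∀ x : M, ∃ T : ℝ, 0 < T ∧ T ≤ C ∧ Fl T x = x) {W : Set M} (hW : IsOpen W)
    (hne : W.Nonempty) :
    ∃ x₀ ∈ W, ∃ P : ℝ, 0 < P ∧ Fl P x₀ = x₀ ∧ InjOn (fun s => Fl s x₀) (Ico 0 P) ∧
      ∀ ε > 0, ∀ᶠ x in 𝓝 x₀, ∃ T : ℝ, |T - P| < ε ∧ Fl T x = x := by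
  classical
  let b : ℕ → ℝ := fun j => m * (3 / 2) ^ j
  have hb0 : b 0 = m := by simp [b]
  have hbs : ∀ j, b (j + 1) = 3 / 2 * b j := fun j => by simp only [b, pow_succ]; ring
  let A : ℕ → Set M := fun j => {x | ∃ t ∈ Icc m (b j), Fl t x = x}
  have hAcl : ∀ j, IsClosed (A j) := by
    intro j
    rw [← isOpen_compl_iff, isOpen_iff_mem_nhds]
    intro x hx
    have h1 : ∀ t ∈ Icc m (b j), Fl t x ≠ x := fun t ht h => hx ⟨t, ht, h⟩
    filter_upwards [ktop_not_period Fl hc isCompact_Icc h1] with y hy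
    rintro ⟨t, ht, h⟩
    exact hy t ht h
  -- all points for large `j`
  have hJ : ∃ j, (interior (A j) ∩ W).Nonempty := by
    obtain ⟨J, hJ⟩ : ∃ J : ℕ, C ≤ b J := by
      have h1 : Tendsto b atTop atTop :=
        (tendsto_pow_atTop_atTop_of_one_lt (by norm_num : (1 : ℝ) < 3 / 2)).const_mul_atTop hm
      exact (h1.eventually_ge_atTop C).exists
    have hu : A J = univ := by
      rw [eq_univ_iff_forall]
      intro x
      obtain ⟨T, hT0, hTC, hT⟩ := hper x
      refine ⟨T, ⟨?_, hTC.trans hJ⟩, hT⟩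
      by_contra hlt
      exact hshort x T hT0 (not_le.1 hlt) hT
    refine ⟨J, ?_⟩
    rw [hu, interior_univ, univ_inter]
    exact hne
  let j := Nat.find hJ
  have hj : (interior (A j) ∩ W).Nonempty := Nat.find_spec hJ
  have hjmin : ∀ i < j, ¬ (interior (A i) ∩ W).Nonempty := fun i hi => Nat.find_min hJ hi
  -- the good point
  obtain ⟨x₀, hx₀, hx₀'⟩ : ∃ x₀ ∈ interior (A j) ∩ W, ∀ i < j, x₀ ∉ A i := by
    rcases Nat.eq_zero_or_pos j with h0 | hpos
    · obtain ⟨x, hx⟩ := hj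
      exact ⟨x, hx, fun i hi => by omega⟩
    · have h1 : ¬ (interior (A j) ∩ W ⊆ A (j - 1)) := by
        intro hsub
        have h2 : interior (A j) ∩ W ⊆ interior (A (j - 1)) :=
          interior_maximal hsub (isOpen_interior.inter hW)
        obtain ⟨x, hx⟩ := hj
        exact hjmin (j - 1) (by omega) ⟨x, h2 hx, hx.2⟩
      rw [not_subset] at h1
      obtain ⟨x, hx, hxn⟩ := h1
      refine ⟨x, hx, fun i hi hxi => hxn ?_⟩
      obtain ⟨t, ht, h⟩ := hxi
      refine ⟨t, ⟨ht.1, ht.2.trans ?_⟩, h⟩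
      have : i ≤ j - 1 := by omega
      exact mul_le_mul_of_nonneg_left (pow_le_pow_right₀ (by norm_num) this) hm.le
  have hxA : x₀ ∈ A j := interior_subset hx₀.1
  -- the least period
  obtain ⟨P, hPmem, hPmin⟩ : ∃ P, (P ∈ Icc m (b j) ∧ Fl P x₀ = x₀) ∧
      ∀ t ∈ Icc m (b j), Fl t x₀ = x₀ → P ≤ t := by
    have hcl : IsCompact (Icc m (b j) ∩ {t | Fl t x₀ = x₀}) := by
      refine isCompact_Icc.inter_right ?_
      exact isClosed_eq (hc.comp (Continuous.prodMk_left x₀)) continuous_const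
    obtain ⟨t, ht, h⟩ := hxA
    obtain ⟨P, hP, hmin⟩ := hcl.exists_isLeast ⟨t, ht, h⟩
    exact ⟨P, ⟨hP.1, hP.2⟩, fun t ht h => hmin ⟨ht, h⟩⟩
  obtain ⟨hPI, hP⟩ := hPmem
  have hP0 : 0 < P := hm.trans_le hPI.1
  have hno : ∀ t, 0 < t → t < P → Fl t x₀ ≠ x₀ := by
    intro t ht0 htP h
    by_cases htm : t < m
    · exact hshort x₀ t ht0 htm h
    · have := hPmin t ⟨not_lt.1 htm, htP.le.trans hPI.2⟩ h
      linarith
  have hdiff : ∀ s s', Fl s x₀ = Fl s' x₀ → Fl (s' - s) x₀ = x₀ := by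
    intro s s' h
    have h1 : Fl (-s) (Fl s x₀) = x₀ := by
      rw [← hFla]
      simp [hFl0]
    have h2 : Fl (s' - s) x₀ = Fl (-s) (Fl s' x₀) := by
      rw [← hFla]
      congr 1
      ring
    rw [h2, ← h, h1]
  have hlt : b j < 2 * P := by
    rcases Nat.eq_zero_or_pos j with h0 | hpos
    · rw [h0, hb0]
      linarith [hPI.1]
    · obtain ⟨i, hi⟩ : ∃ i, j = i + 1 := ⟨j - 1, by omega⟩
      have h1 : b i < P := by
        by_contra hcon
        exact hx₀' i (by omega) ⟨P, ⟨hPI.1, not_lt.1 hcon⟩, hP⟩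
      rw [hi, hbs]
      linarith
  have huniq : ∀ t ∈ Icc m (b j), Fl t x₀ = x₀ → t = P := by
    intro t ht h
    have h1 := hPmin t ht h
    by_contra hne'
    have h2 : P < t := lt_of_le_of_ne h1 (Ne.symm hne')
    refine hno (t - P) (by linarith) (by linarith [ht.2]) ?_
    exact hdiff P t (by rw [hP, h])
  refine ⟨x₀, hx₀.2, P, hP0, hP, ?_, ?_⟩
  · intro s hs s' hs' h
    simp only at h
    rcases lt_trichotomy s s' with hlt' | heq | hgt
    · exact absurd (hdiff s s' h) (hno _ (by linarith) (by linarith [hs.1, hs'.2]))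
    · exact heq
    · exact absurd (hdiff s' s h.symm) (hno _ (by linarith) (by linarith [hs'.1, hs.2]))
  · intro ε hε
    have hKc : IsCompact (Icc m (b j) ∩ {t | ε ≤ |t - P|}) :=
      isCompact_Icc.inter_right (isClosed_le continuous_const (by fun_prop))
    have hK : ∀ t ∈ Icc m (b j) ∩ {t | ε ≤ |t - P|}, Fl t x₀ ≠ x₀ := by
      rintro t ⟨ht, hte⟩ h
      have h1 := huniq t ht h
      have h2 : ε ≤ |t - P| := hte
      rw [h1, sub_self, abs_zero] at h2
      linarith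
    filter_upwards [ktop_not_period Fl hc hKc hK, isOpen_interior.mem_nhds hx₀.1] with x hx hxi
    obtain ⟨t, ht, h⟩ := interior_subset hxi
    refine ⟨t, ?_, h⟩
    by_contra hcon
    exact hx t ⟨ht, not_lt.1 hcon⟩ h

end Pool.Agent.SRGap
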