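import Pool.Agent.Work.MP_188050_an.Trans

/-!
# The tube Laplacian is the Laplacian of `M`: the graph
-/

open Set MeasureTheory Filter Topology VectorField
open scoped Manifold ContDiff InnerProductSpace

set_option linter.unusedSectionVars false

namespace Pool.Agent.SRGap

section M
variable {M : Type*} [TopologicalSpace M] [ChartedSpace E3 M] [IsManifold (𝓡 3) ∞ M]

theorem tube_mem' [T2Space M] [CompactSpace M] [MeasurableSpace M] [BorelSpace M] (S : ContactSR M)
    (μ : Measure M) [IsFiniteMeasure μ] (e : OpenPartialHomeomorph M T3) (he : IsTubeChart e)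
    (τ : Tube) {U : Set T3} (hU : IsOpen U) (hUe : U ⊆ e.target)
    (hG : ∀ p ∈ U, ∀ ξ η : T3 →L[ℝ] ℝ,
      cG S e p ξ η = ξ (τ.X p) * η (τ.X p) + ξ (τ.Y p) * η (τ.Y p))
    (hρ : ∀ g : M → ℝ, Continuous g → (∀ x, ¬ (x ∈ e.source ∧ e x ∈ U) → g x = 0) →
      ∫ x, g x ∂μ = ∫ p in U, g (e.symm p) * τ.ρ p)
    {v : T3 → ℝ} (hv : ContDiff ℝ ∞ v) (hvc : HasCompactSupport v) (hvU : tsupport v ⊆ U) :
    ∃ q ∈ friedrichs S μ, (q.1 : M → ℝ) =ᵐ[μ] ext0 e v ∧ (q.2 : M → ℝ) =ᵐ[μ] ext0 e (τ.L v) := by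
  classical
  have hLv : ContDiff ℝ ∞ (τ.L v) := L_contDiff τ hv
  have hLs : tsupport (τ.L v) ⊆ tsupport v := L_tsupport τ v
  have hLc : HasCompactSupport (τ.L v) :=
    hvc.isCompact.of_isClosed_subset (isClosed_tsupport _) hLs
  have hf : SmoothFun (ext0 e v) := ext0_smooth e he hv hvc (hvU.trans hUe)
  have hh : SmoothFun (ext0 e (τ.L v)) := ext0_smooth e he hLv hLc ((hLs.trans hvU).trans hUe)
  have hfc : Continuous (ext0 e v) := hf.continuous
  have hhc : Continuous (ext0 e (τ.L v)) := hh.continuous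
  have hfm : MemLp (ext0 e v) 2 μ := tr_memLp_of_continuous μ hfc
  have hhm : MemLp (ext0 e (τ.L v)) 2 μ := tr_memLp_of_continuous μ hhc
  have hsrc : ∀ p ∈ U, e.symm p ∈ e.source := fun p hp => e.map_target (hUe hp)
  have hf0 : ∀ x, ¬ (x ∈ e.source ∧ e x ∈ U) → ext0 e v x = 0 := fun x hx => tr_ext0_eq_zero e hvU hx
  have hh0 : ∀ x, ¬ (x ∈ e.source ∧ e x ∈ U) → ext0 e (τ.L v) x = 0 := fun x hx =>
    tr_ext0_eq_zero e (hLs.trans hvU) hx
  have hfv : ∀ p ∈ U, ext0 e v (e.symm p) = v p := fun p hp => by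
    rw [tr_ext0_apply e v (hsrc p hp), e.right_inv (hUe hp)]
  have hhv : ∀ p ∈ U, ext0 e (τ.L v) (e.symm p) = τ.L v p := fun p hp => by
    rw [tr_ext0_apply e _ (hsrc p hp), e.right_inv (hUe hp)]
  have hvz : ∀ p, p ∉ U → v p = 0 := fun p hp =>
    image_eq_zero_of_notMem_tsupport fun h => hp (hvU h)
  have hLz : ∀ p, p ∉ U → τ.L v p = 0 := fun p hp =>
    image_eq_zero_of_notMem_tsupport fun h => hp (hvU (hLs h))
  refine ⟨(hfm.toLp _, hhm.toLp _), ⟨fun _ => ext0 e v, fun _ => hf, ?_, ?_, ?_⟩, ?_, ?_⟩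
  · have h0 : eLpNorm (fun x => ext0 e v x - (hfm.toLp (ext0 e v)) x) 2 μ = 0 := by
      have h1 : (fun x => ext0 e v x - (hfm.toLp (ext0 e v)) x) =ᵐ[μ] 0 := by
        filter_upwards [hfm.coeFn_toLp] with x hx
        simp [hx]
      rw [eLpNorm_congr_ae h1, eLpNorm_zero]
    show Tendsto (fun _ : ℕ => eLpNorm (fun x => ext0 e v x - (hfm.toLp (ext0 e v)) x) 2 μ) atTop
      (𝓝 0)
    rw [h0]
    exact tendsto_const_nhds
  · have h0 : energy S μ (ext0 e v - ext0 e v) (ext0 e v - ext0 e v) = 0 := by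
      unfold energy
      have : ∀ x, S.G x (dd (ext0 e v - ext0 e v) x) (dd (ext0 e v - ext0 e v) x) = 0 := by
        intro x
        have h1 : dd (ext0 e v - ext0 e v) x = 0 :=
          tr_dd_zero (Eventually.of_forall fun y => by simp)
        rw [h1]
        exact tr_G_zero_left S x _
      simp only [this, integral_zero]
    show Tendsto (fun _ : ℕ × ℕ => energy S μ (ext0 e v - ext0 e v) (ext0 e v - ext0 e v)) atTop
      (𝓝 0)
    rw [h0]
    exact tendsto_const_nhds
  · intro φ hφ
    have hφc : Continuous φ := hφ.continuous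
    suffices h : energy S μ (ext0 e v) φ = ∫ x, (hhm.toLp (ext0 e (τ.L v))) x * φ x ∂μ by
      show Tendsto (fun _ : ℕ => energy S μ (ext0 e v) φ) atTop
        (𝓝 (∫ x, (hhm.toLp (ext0 e (τ.L v))) x * φ x ∂μ))
      rw [h]
      exact tendsto_const_nhds
    -- the right side
    have hR : ∫ x, (hhm.toLp (ext0 e (τ.L v))) x * φ x ∂μ = ∫ x, ext0 e (τ.L v) x * φ x ∂μ := by
      refine integral_congr_ae ?_
      filter_upwards [hhm.coeFn_toLp] with x hx
      rw [hx]
    -- cutoff
    obtain ⟨χ, hχ, hχ1, hχU⟩ := tr_exists_cutoff hvc.isCompact hU hvU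
    have hφe : ContDiffOn ℝ ∞ (φ ∘ e.symm) e.target := by
      rw [← contMDiffOn_iff_contDiffOn]
      exact hφ.comp_contMDiffOn he.smooth_symm
    have hψ : ContDiff ℝ ∞ (fun p => χ p * φ (e.symm p)) := by
      rw [contDiff_iff_contDiffAt]
      intro p
      by_cases hp : p ∈ e.target
      · exact hχ.contDiffAt.mul (hφe.contDiffAt (e.open_target.mem_nhds hp))
      · have h1 : χ =ᶠ[𝓝 p] 0 :=
          notMem_tsupport_iff_eventuallyEq.1 fun h => hp (hUe (hχU h))
        have h2 : (fun p => χ p * φ (e.symm p)) =ᶠ[𝓝 p] fun _ => 0 := by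
          filter_upwards [h1] with y hy
          simp [hy]
        exact contDiffAt_const.congr_of_eventuallyEq h2
    have hψe : ∀ p ∈ tsupport v, (fun p => χ p * φ (e.symm p)) =ᶠ[𝓝 p] φ ∘ e.symm := by
      intro p hp
      filter_upwards [hχ1 p hp] with y hy
      simp [hy]
    have hhφ : Continuous (fun x => ext0 e (τ.L v) x * φ x) := hhc.mul hφc
    rw [hR, energy, hρ _ (continuous_G S hf hφ), hρ _ hhφ]
    · have hgreen := green τ hv hvc hψ
      have hL' : ∫ p in U, S.G (e.symm p) (dd (ext0 e v) (e.symm p)) (dd φ (e.symm p)) * τ.ρ p =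
          ∫ p, (dir τ.X v p * dir τ.X (fun p => χ p * φ (e.symm p)) p +
            dir τ.Y v p * dir τ.Y (fun p => χ p * φ (e.symm p)) p) * τ.ρ p := by
        refine tr_setInt_eq hU (fun p hp => ?_) (fun p hp => ?_)
        · have h1 : dd (ext0 e v) (e.symm p) = (fderiv ℝ v p) ∘L
              (mfderiv (𝓡 3) 𝓘(ℝ, T3) e (e.symm p) : TangentSpace (𝓡 3) (e.symm p) →L[ℝ] T3) := by
            refine tr_dd_comp e he (hUe hp) (hv.differentiable (by simp) p) ?_
            filter_upwards [e.open_source.mem_nhds (hsrc p hp)] with y hy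
            rw [tr_ext0_apply e v hy, Function.comp_apply]
          have h2 : dd φ (e.symm p) = (fderiv ℝ (φ ∘ e.symm) p) ∘L
              (mfderiv (𝓡 3) 𝓘(ℝ, T3) e (e.symm p) : TangentSpace (𝓡 3) (e.symm p) →L[ℝ] T3) := by
            refine tr_dd_comp e he (hUe hp) ?_ ?_
            · exact (hφe.contDiffAt (e.open_target.mem_nhds (hUe hp))).differentiableAt (by simp)
            · filter_upwards [e.open_source.mem_nhds (hsrc p hp)] with y hy
              simp [e.left_inv hy]
          have h3 := hG p hp (fderiv ℝ v p) (fderiv ℝ (φ ∘ e.symm) p)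
          unfold cG at h3
          simp only [h1, h2]
          rw [h3]
          by_cases hps : p ∈ tsupport v
          · have h4 : ∀ V : T3 → T3, fderiv ℝ (φ ∘ e.symm) p (V p) =
                dir V (fun p => χ p * φ (e.symm p)) p := by
              intro V
              unfold dir
              rw [(hψe p hps).fderiv_eq]
            rw [h4, h4]
            rfl
          · have h5 : fderiv ℝ v p = 0 := by
              have h6 : v =ᶠ[𝓝 p] 0 := notMem_tsupport_iff_eventuallyEq.1 hps
              rw [h6.fderiv_eq]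
              simp
            rw [tr_dir_eq_zero hps, tr_dir_eq_zero hps, h5]
            simp
        · have hps : p ∉ tsupport v := fun h => hp (hvU h)
          rw [tr_dir_eq_zero hps, tr_dir_eq_zero hps]
          simp
      have hR' : ∫ p in U, ext0 e (τ.L v) (e.symm p) * φ (e.symm p) * τ.ρ p =
          ∫ p, τ.L v p * (χ p * φ (e.symm p)) * τ.ρ p := by
        refine tr_setInt_eq hU (fun p hp => ?_) (fun p hp => ?_)
        · simp only [hhv p hp]
          by_cases hps : p ∈ tsupport v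
          · have := (hψe p hps).self_of_nhds
            simp only [Function.comp_apply] at this
            rw [this]
          · rw [image_eq_zero_of_notMem_tsupport fun h => hps (hLs h)]
            simp
        · rw [hLz p hp]
          simp
      rw [hL', hgreen, hR']
    · intro x hx
      rw [hh0 x hx, zero_mul]
    · intro x hx
      rw [tr_dd_zero (tr_ext0_eventually_zero e hvc hvU hUe hx)]
      exact tr_G_zero_left S x _
  · exact hfm.coeFn_toLp
  · exact hhm.coeFn_toLp

end M

end Pool.Agent.SRGap
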