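import Pool.Agent.Work.MP_188050_an.KImm
import Pool.Agent.Work.MP_188050_an.KGlue
import Pool.Agent.Work.MP_188050_an.KTrans
import Pool.Agent.Work.MP_188050_an.PerQM

/-!
# MP_188050_an: periodic functions on a closed tube as functions on the manifold
-/

open Set MeasureTheory Filter Topology VectorField
open scoped Manifold ContDiff

namespace Pool.Agent.SRGap
namespace KT

/-- a partition of unity on the circle in two pieces -/
theorem exists_theta {ℓ : ℝ} (hℓ : 0 < ℓ) : ∃ θ₁ θ₂ : ℝ → ℝ, ContDiff ℝ ∞ θ₁ ∧ ContDiff ℝ ∞ θ₂ ∧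
    (∀ s, 0 ≤ θ₁ s) ∧ (∀ s, 0 ≤ θ₂ s) ∧ (∀ s, θ₁ s ≠ 0 → s ∈ Icc (ℓ / 8) (7 * ℓ / 8)) ∧
    (∀ s, θ₂ s ≠ 0 → s ∈ Icc (5 * ℓ / 8) (11 * ℓ / 8)) ∧ 0 < θ₁ (ℓ / 2) ∧
    ∀ s, -ℓ / 8 < s → s < 9 * ℓ / 8 → θ₁ s + θ₂ s + θ₂ (s + ℓ) = 1 := by
  let f : ContDiffBump (ℓ / 2 : ℝ) := ⟨ℓ / 4, 3 * ℓ / 8, by positivity, by linarith⟩
  let κ : ContDiffBump (ℓ : ℝ) := ⟨ℓ / 4, 3 * ℓ / 8, by positivity, by linarith⟩
  have f1 : ∀ s, ℓ / 4 ≤ s → s ≤ 3 * ℓ / 4 → f s = 1 := fun s h1 h2 =>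
    f.one_of_mem_closedBall (by
      rw [Metric.mem_closedBall, Real.dist_eq, abs_le]
      show -(ℓ / 4) ≤ _ ∧ _ ≤ ℓ / 4
      constructor <;> linarith)
  have κ1 : ∀ s, 3 * ℓ / 4 ≤ s → s ≤ 5 * ℓ / 4 → κ s = 1 := fun s h1 h2 =>
    κ.one_of_mem_closedBall (by
      rw [Metric.mem_closedBall, Real.dist_eq, abs_le]
      show -(ℓ / 4) ≤ _ ∧ _ ≤ ℓ / 4
      constructor <;> linarith)
  have f0 : ∀ s, f s ≠ 0 → ℓ / 8 < s ∧ s < 7 * ℓ / 8 := fun s hs => by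
    have h : s ∈ Function.support f := hs
    rw [ContDiffBump.support_eq, Metric.mem_ball, Real.dist_eq, abs_lt] at h
    have h1 : -(3 * ℓ / 8) < s - ℓ / 2 := h.1
    have h2 : s - ℓ / 2 < 3 * ℓ / 8 := h.2
    constructor <;> linarith
  have κ0 : ∀ s, κ s ≠ 0 → 5 * ℓ / 8 < s ∧ s < 11 * ℓ / 8 := fun s hs => by
    have h : s ∈ Function.support κ := hs
    rw [ContDiffBump.support_eq, Metric.mem_ball, Real.dist_eq, abs_lt] at h
    have h1 : -(3 * ℓ / 8) < s - ℓ := h.1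
    have h2 : s - ℓ < 3 * ℓ / 8 := h.2
    constructor <;> linarith
  have f0l : ∀ s, s ≤ ℓ / 8 → f s = 0 := fun s hs => by
    by_contra h; exact absurd (f0 s h).1 (not_lt.2 hs)
  have f0r : ∀ s, 7 * ℓ / 8 ≤ s → f s = 0 := fun s hs => by
    by_contra h; exact absurd (f0 s h).2 (not_lt.2 hs)
  have κ0l : ∀ s, s ≤ 5 * ℓ / 8 → κ s = 0 := fun s hs => by
    by_contra h; exact absurd (κ0 s h).1 (not_lt.2 hs)
  have κ0r : ∀ s, 11 * ℓ / 8 ≤ s → κ s = 0 := fun s hs => by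
    by_contra h; exact absurd (κ0 s h).2 (not_lt.2 hs)
  refine ⟨f, fun s => κ s * (1 - f s - f (s - ℓ)), f.contDiff, ?_, fun s => f.nonneg, fun s => ?_,
    fun s hs => ⟨(f0 s hs).1.le, (f0 s hs).2.le⟩,
    fun s hs => ⟨(κ0 s (left_ne_zero_of_mul hs)).1.le, (κ0 s (left_ne_zero_of_mul hs)).2.le⟩, ?_, ?_⟩
  · exact κ.contDiff.mul ((contDiff_const.sub f.contDiff).sub
      (f.contDiff.comp (contDiff_id.sub contDiff_const)))
  · refine mul_nonneg κ.nonneg ?_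
    rcases le_total s (7 * ℓ / 8) with h | h
    · rw [f0l (s - ℓ) (by linarith)]
      have := f.le_one (x := s)
      linarith
    · rw [f0r s h]
      have := f.le_one (x := s - ℓ)
      linarith
  · rw [f1 (ℓ / 2) (by linarith) (by linarith)]
    exact one_pos
  · intro s h1 h2
    simp only
    have e : s + ℓ - ℓ = s := by ring
    rw [e]
    rcases le_total s (ℓ / 4) with h | h
    · rw [κ0l s (by linarith), κ1 (s + ℓ) (by linarith) (by linarith), f0r (s + ℓ) (by linarith)]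
      ring
    · rcases le_total s (3 * ℓ / 4) with h' | h'
      · rw [f1 s h h', f0l (s - ℓ) (by linarith), f0r (s + ℓ) (by linarith)]
        ring
      · rw [κ1 s h' (by linarith), κ0r (s + ℓ) (by linarith), f0l (s - ℓ) (by linarith)]
        ring

section L
variable (τ : Tube)

theorem dir_add (V : T3 → T3) {u v : T3 → ℝ} (hu : ContDiff ℝ ∞ u) (hv : ContDiff ℝ ∞ v) :
    dir V (fun q => u q + v q) = fun p => dir V u p + dir V v p := by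
  funext p
  have h := fderiv_add (hu.differentiable (by simp) p) (hv.differentiable (by simp) p)
  have h' : fderiv ℝ (fun q => u q + v q) p = fderiv ℝ u p + fderiv ℝ v p := h
  simp only [dir, h']
  rfl

theorem L_add {u v : T3 → ℝ} (hu : ContDiff ℝ ∞ u) (hv : ContDiff ℝ ∞ v) (p : T3) :
    τ.L (fun q => u q + v q) p = τ.L u p + τ.L v p := by
  have hX := τ.X_contDiff
  have hY := τ.Y_contDiff
  simp only [Tube.L, smul_eq_mul]
  rw [dir_add τ.X hu hv, dir_add τ.Y hu hv, dir_add τ.X (dir_contDiff hX hu) (dir_contDiff hX hv),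
    dir_add τ.Y (dir_contDiff hY hu) (dir_contDiff hY hv)]
  simp only
  ring

variable {τ} {ℓ : ℝ} (hτ : τ.Per ℓ)
include hτ

omit hτ in
theorem dir_shift {V : T3 → T3} (hV : PerI ℓ V) (u : T3 → ℝ) :
    dir V (fun q : T3 => u (q.1 + ℓ, q.2)) = fun p => dir V u (p.1 + ℓ, p.2) := by
  funext p
  have h1 : (fun q : T3 => u (q.1 + ℓ, q.2)) = fun q => u (q + (ℓ, 0)) := by
    funext q; rw [add_e]
  have h2 : fderiv ℝ (fun q : T3 => u (q + (ℓ, 0))) p = fderiv ℝ u (p + (ℓ, 0)) :=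
    fderiv_comp_add_right (ℓ, 0)
  simp only [dir]
  rw [h1, h2, add_e, hV p]

theorem L_shift (u : T3 → ℝ) (p : T3) :
    τ.L (fun q : T3 => u (q.1 + ℓ, q.2)) p = τ.L u (p.1 + ℓ, p.2) := by
  simp only [Tube.L]
  rw [dir_shift hτ.X, dir_shift hτ.Y, dir_shift hτ.X, dir_shift hτ.Y, hτ.div hτ.X p, hτ.div hτ.Y p]

theorem L_perI {u : T3 → ℝ} (hu : PerI ℓ u) : PerI ℓ (τ.L u) := fun p => by
  rw [← L_shift hτ u p]
  congr 1
  funext q
  exact hu q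

end L

theorem L_zero_of {τ : Tube} {u : T3 → ℝ} {O : Set T3} (hO : IsOpen O) (h : ∀ p ∈ O, u p = 0) {p : T3}
    (hp : p ∈ O) : τ.L u p = 0 := by
  have h1 : EqOn u (fun _ => 0) O := fun q hq => h q hq
  rw [L_congr τ hO h1 hp, L_zero]

section M
variable {M : Type*} [TopologicalSpace M] [ChartedSpace E3 M]

theorem F_int {F : T3 → M} {d ℓ : ℝ} (hper : ∀ p ∈ tubeN d, F (p.1 + ℓ, p.2) = F p) (k : ℤ) :
    ∀ p ∈ tubeN d, F (p.1 + k * ℓ, p.2) = F p := by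
  induction k using Int.induction_on with
  | zero => intro p _; simp
  | succ k ih =>
    intro p hp
    have h := hper (p.1 + (k : ℤ) * ℓ, p.2) hp
    rw [← ih p hp, ← h]
    congr 2
    push_cast; ring
  | pred k ih =>
    intro p hp
    have h := hper (p.1 + ((-(k : ℤ) - 1 : ℤ) : ℝ) * ℓ, p.2) hp
    rw [← ih p hp, ← h]
    congr 2
    push_cast; ring

theorem lift_in {F : T3 → M} {e : OpenPartialHomeomorph M T3} (hes : ∀ q, e.symm q = F q) (u : T3 → ℝ)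
    {p : T3} (hp : p ∈ e.target) : ext0 e u (F p) = u p := by
  rw [← hes p]
  unfold ext0
  rw [if_pos (e.map_target hp), e.right_inv hp]

theorem lift_out {F : T3 → M} {d ℓ : ℝ} {e : OpenPartialHomeomorph M T3} (hed : e.target ⊆ tubeN d)
    (hes : ∀ q, e.symm q = F q)
    (hinj : ∀ p ∈ tubeN d, ∀ p' ∈ tubeN d, F p = F p' → ∃ k : ℤ, p' = (p.1 + k * ℓ, p.2)) (u : T3 → ℝ)
    {p : T3} (hp : p ∈ tubeN d) (hk : ∀ k : ℤ, ((p.1 + k * ℓ, p.2) : T3) ∉ e.target) :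
    ext0 e u (F p) = 0 := by
  unfold ext0
  rw [if_neg]
  intro hx
  have h1 : e (F p) ∈ e.target := e.map_source hx
  have h2 : F (e (F p)) = F p := by rw [← hes, e.left_inv hx]
  obtain ⟨k, hk'⟩ := hinj p hp _ (hed h1) h2.symm
  apply hk k
  rw [← hk']
  exact h1

/-- two boxes covering a closed tube, and a partition of unity -/
structure Cfg (F : T3 → M) (d ℓ : ℝ) where
  e₁ : OpenPartialHomeomorph M T3
  e₂ : OpenPartialHomeomorph M T3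
  θ₁ : ℝ → ℝ
  θ₂ : ℝ → ℝ
  hd : 0 < d
  hℓ : 0 < ℓ
  per : ∀ p ∈ tubeN d, F (p.1 + ℓ, p.2) = F p
  inj : ∀ p ∈ tubeN d, ∀ p' ∈ tubeN d, F p = F p' → ∃ k : ℤ, p' = (p.1 + k * ℓ, p.2)
  c₁ : IsTubeChart e₁
  c₂ : IsTubeChart e₂
  t₁ : e₁.target = Ioo 0 ℓ ×ˢ Metric.ball (0 : ℝ × ℝ) d
  t₂ : e₂.target = Ioo (ℓ / 2) (3 * ℓ / 2) ×ˢ Metric.ball (0 : ℝ × ℝ) d
  s₁ : ∀ q, e₁.symm q = F q
  s₂ : ∀ q, e₂.symm q = F q
  θ₁s : ContDiff ℝ ∞ θ₁
  θ₂s : ContDiff ℝ ∞ θ₂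
  θ₁n : ∀ s, 0 ≤ θ₁ s
  θ₂n : ∀ s, 0 ≤ θ₂ s
  θ₁z : ∀ s, θ₁ s ≠ 0 → s ∈ Icc (ℓ / 8) (7 * ℓ / 8)
  θ₂z : ∀ s, θ₂ s ≠ 0 → s ∈ Icc (5 * ℓ / 8) (11 * ℓ / 8)
  θpos : 0 < θ₁ (ℓ / 2)
  θsum : ∀ s, -ℓ / 8 < s → s < 9 * ℓ / 8 → θ₁ s + θ₂ s + θ₂ (s + ℓ) = 1

theorem exists_cfg [IsManifold (𝓡 3) ∞ M] {F : T3 → M} {d ℓ : ℝ} (hF : IsImm F (tubeN d)) (hd : 0 < d)
    (hℓ : 0 < ℓ) (hper : ∀ p ∈ tubeN d, F (p.1 + ℓ, p.2) = F p)
    (hinj : ∀ p ∈ tubeN d, ∀ p' ∈ tubeN d, F p = F p' → ∃ k : ℤ, p' = (p.1 + k * ℓ, p.2)) :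
    Nonempty (Cfg F d ℓ) := by
  have hbox : ∀ a b : ℝ, a < b → b ≤ a + ℓ → ∃ e : OpenPartialHomeomorph M T3, IsTubeChart e ∧
      e.target = Ioo a b ×ˢ Metric.ball (0 : ℝ × ℝ) d ∧ ∀ q, e.symm q = F q := by
    intro a b hab hb
    have hW : Ioo a b ×ˢ Metric.ball (0 : ℝ × ℝ) d ⊆ tubeN d := by
      rintro p ⟨-, hp⟩
      rw [mem_ball_zero_iff] at hp
      exact hp
    obtain ⟨e, h1, h2, -, h3⟩ := imm_box hF (isOpen_Ioo.prod Metric.isOpen_ball) hW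
      ⟨((a + b) / 2, 0), ⟨by constructor <;> linarith, Metric.mem_ball_self hd⟩⟩ (by
        intro p hp q hq hpq
        obtain ⟨k, hk⟩ := hinj p (hW hp) q (hW hq) hpq
        have h4 := hp.1
        have h5 := hq.1
        rw [hk] at h5
        have h6 : (k : ℝ) * ℓ < 1 * ℓ := by
          have := h5.2
          have := h4.1
          simp only at *
          linarith
        have h7 : (-1 : ℝ) * ℓ < k * ℓ := by
          have := h5.1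
          have := h4.2
          simp only at *
          linarith
        have h8 : (k : ℝ) < 1 := lt_of_mul_lt_mul_right h6 hℓ.le
        have h9 : (-1 : ℝ) < k := lt_of_mul_lt_mul_right h7 hℓ.le
        have h10 : k = 0 := by
          have h11 : k < 1 := by exact_mod_cast h8
          have h12 : -1 < k := by exact_mod_cast h9
          omega
        rw [hk, h10]
        simp)
    exact ⟨e, h1, h2, h3⟩
  obtain ⟨e₁, c₁, t₁, s₁⟩ := hbox 0 ℓ hℓ (by linarith)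
  obtain ⟨e₂, c₂, t₂, s₂⟩ := hbox (ℓ / 2) (3 * ℓ / 2) (by linarith) (by linarith)
  obtain ⟨θ₁, θ₂, h1, h2, h3, h4, h5, h6, h7, h8⟩ := exists_theta hℓ
  exact ⟨⟨e₁, e₂, θ₁, θ₂, hd, hℓ, hper, hinj, c₁, c₂, t₁, t₂, s₁, s₂, h1, h2, h3, h4, h5, h6, h7, h8⟩⟩

namespace Cfg

variable {F : T3 → M} {d ℓ : ℝ} (C : Cfg F d ℓ)

theorem t₁sub : C.e₁.target ⊆ tubeN d := by
  rw [C.t₁]
  rintro p ⟨-, hp⟩
  rw [mem_ball_zero_iff] at hp
  exact hp

theorem t₂sub : C.e₂.target ⊆ tubeN d := by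
  rw [C.t₂]
  rintro p ⟨-, hp⟩
  rw [mem_ball_zero_iff] at hp
  exact hp

/-- the function on `M` glued from two pieces -/
noncomputable def glue (u₁ u₂ : T3 → ℝ) (x : M) : ℝ := ext0 C.e₁ u₁ x + ext0 C.e₂ u₂ x

theorem lift₁ {u : T3 → ℝ} (h : ∀ p, u p ≠ 0 → p.1 ∈ Icc (ℓ / 8) (7 * ℓ / 8)) {p : T3}
    (hp : p ∈ tubeN d) (h0 : 0 ≤ p.1) (h1 : p.1 ≤ ℓ) : ext0 C.e₁ u (F p) = u p := by
  have hℓ := C.hℓ
  by_cases hin : 0 < p.1 ∧ p.1 < ℓ
  · refine lift_in C.s₁ u ?_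
    rw [C.t₁]
    exact ⟨hin, by rw [mem_ball_zero_iff]; exact hp⟩
  · have hu : u p = 0 := by
      by_contra hne
      have h2 := h p hne
      exact hin ⟨by linarith [h2.1], by linarith [h2.2]⟩
    rw [hu]
    refine lift_out C.t₁sub C.s₁ C.inj u hp fun k hk => ?_
    rw [C.t₁] at hk
    have h2 : 0 < p.1 + k * ℓ := hk.1.1
    have h3 : p.1 + k * ℓ < ℓ := hk.1.2
    apply hin
    -- `p.1` is `0` or `ℓ`, so `k ℓ` is not in between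
    have hk1 : -1 < (k : ℝ) := by
      by_contra hcon
      push Not at hcon
      have : (k : ℝ) * ℓ ≤ -1 * ℓ := mul_le_mul_of_nonneg_right hcon hℓ.le
      linarith
    have hk2 : (k : ℝ) < 1 := by
      by_contra hcon
      push Not at hcon
      have : 1 * ℓ ≤ (k : ℝ) * ℓ := mul_le_mul_of_nonneg_right hcon hℓ.le
      linarith
    have hk0 : k = 0 := by
      have h11 : k < 1 := by exact_mod_cast hk2
      have h12 : -1 < k := by exact_mod_cast hk1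
      omega
    rw [hk0] at h2 h3
    simp only [Int.cast_zero, zero_mul, add_zero] at h2 h3
    exact ⟨h2, h3⟩

theorem lift₂ {u : T3 → ℝ} (h : ∀ p, u p ≠ 0 → p.1 ∈ Icc (5 * ℓ / 8) (11 * ℓ / 8)) {p : T3}
    (hp : p ∈ tubeN d) (h0 : 0 ≤ p.1) (h1 : p.1 ≤ ℓ) :
    ext0 C.e₂ u (F p) = u p + u (p.1 + ℓ, p.2) := by
  have hℓ := C.hℓ
  rcases lt_trichotomy p.1 (ℓ / 2) with hlt | heq | hgt
  · have hu : u p = 0 := by
      by_contra hne
      have h2 := (h p hne).1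
      linarith
    rw [hu, zero_add, ← C.per p hp]
    refine lift_in C.s₂ u ?_
    rw [C.t₂]
    refine ⟨⟨?_, ?_⟩, by rw [mem_ball_zero_iff]; exact hp⟩
    · show ℓ / 2 < p.1 + ℓ
      linarith
    · show p.1 + ℓ < 3 * ℓ / 2
      linarith
  · have hu : u p = 0 := by
      by_contra hne
      have h2 := (h p hne).1
      linarith
    have hu' : u (p.1 + ℓ, p.2) = 0 := by
      by_contra hne
      have h2 : p.1 + ℓ ≤ 11 * ℓ / 8 := (h _ hne).2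
      linarith
    rw [hu, hu', add_zero]
    refine lift_out C.t₂sub C.s₂ C.inj u hp fun k hk => ?_
    rw [C.t₂] at hk
    have h2 : ℓ / 2 < p.1 + k * ℓ := hk.1.1
    have h3 : p.1 + k * ℓ < 3 * ℓ / 2 := hk.1.2
    have h4 : 0 * ℓ < (k : ℝ) * ℓ := by linarith
    have h5 : (k : ℝ) * ℓ < 1 * ℓ := by linarith
    have h6 : (0 : ℝ) < k := lt_of_mul_lt_mul_right h4 hℓ.le
    have h7 : (k : ℝ) < 1 := lt_of_mul_lt_mul_right h5 hℓ.le
    have h8 : (0 : ℤ) < k := by exact_mod_cast h6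
    have h9 : k < 1 := by exact_mod_cast h7
    omega
  · have hu' : u (p.1 + ℓ, p.2) = 0 := by
      by_contra hne
      have h2 : p.1 + ℓ ≤ 11 * ℓ / 8 := (h _ hne).2
      linarith
    rw [hu', add_zero]
    refine lift_in C.s₂ u ?_
    rw [C.t₂]
    refine ⟨⟨?_, ?_⟩, by rw [mem_ball_zero_iff]; exact hp⟩
    · exact hgt
    · linarith

theorem glue_lift {u₁ u₂ w : T3 → ℝ} (h₁ : ∀ p, u₁ p ≠ 0 → p.1 ∈ Icc (ℓ / 8) (7 * ℓ / 8))
    (h₂ : ∀ p, u₂ p ≠ 0 → p.1 ∈ Icc (5 * ℓ / 8) (11 * ℓ / 8)) (hw : PerI ℓ w)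
    (h : ∀ p : T3, 0 ≤ p.1 → p.1 ≤ ℓ → u₁ p + u₂ p + u₂ (p.1 + ℓ, p.2) = w p) {p : T3}
    (hp : p ∈ tubeN d) : C.glue u₁ u₂ (F p) = w p := by
  have hℓ := C.hℓ
  set k : ℤ := ⌊p.1 / ℓ⌋ with hk
  set p' : T3 := (p.1 + ((-k : ℤ) : ℝ) * ℓ, p.2) with hp'
  have e1 : F p' = F p := F_int C.per (-k) p hp
  have e2 : w p' = w p := hw.int (-k) p
  have h0 : 0 ≤ p'.1 := by
    have := Int.floor_le (p.1 / ℓ)
    rw [← hk, le_div_iff₀ hℓ] at this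
    show 0 ≤ p.1 + ((-k : ℤ) : ℝ) * ℓ
    push_cast
    linarith
  have h1 : p'.1 ≤ ℓ := by
    have := (Int.lt_floor_add_one (p.1 / ℓ)).le
    rw [← hk, div_le_iff₀ hℓ] at this
    show p.1 + ((-k : ℤ) : ℝ) * ℓ ≤ ℓ
    push_cast
    linarith
  have hp'd : p' ∈ tubeN d := hp
  rw [← e1, ← e2, glue, C.lift₁ h₁ hp'd h0 h1, C.lift₂ h₂ hp'd h0 h1, ← h p' h0 h1]
  ring

theorem glue_ne {u₁ u₂ : T3 → ℝ} {x : M} (hx : C.glue u₁ u₂ x ≠ 0) :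
    ∃ p ∈ tubeN d, x = F p ∧ (u₁ p ≠ 0 ∨ u₂ p ≠ 0) := by
  by_cases h1 : ext0 C.e₁ u₁ x ≠ 0
  · have hs : x ∈ C.e₁.source := by
      by_contra hne
      apply h1
      unfold ext0
      rw [if_neg hne]
    refine ⟨C.e₁ x, C.t₁sub (C.e₁.map_source hs), ?_, Or.inl ?_⟩
    · rw [← C.s₁, C.e₁.left_inv hs]
    · unfold ext0 at h1
      rwa [if_pos hs] at h1
  · push Not at h1
    have h2 : ext0 C.e₂ u₂ x ≠ 0 := by
      intro h2
      apply hx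
      rw [glue, h1, h2, add_zero]
    have hs : x ∈ C.e₂.source := by
      by_contra hne
      apply h2
      unfold ext0
      rw [if_neg hne]
    refine ⟨C.e₂ x, C.t₂sub (C.e₂.map_source hs), ?_, Or.inr ?_⟩
    · rw [← C.s₂, C.e₂.left_inv hs]
    · unfold ext0 at h2
      rwa [if_pos hs] at h2

/-- the pieces are supported in the boxes -/
theorem supp {a b a' b' ε : ℝ} (h : a < a') (h' : b' < b) (hε : ε < d) {e : OpenPartialHomeomorph M T3}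
    (ht : e.target = Ioo a b ×ˢ Metric.ball (0 : ℝ × ℝ) d) {u : T3 → ℝ}
    (hu : ∀ p : T3, u p ≠ 0 → p.1 ∈ Icc a' b' ∧ ‖p.2‖ ≤ ε) :
    HasCompactSupport u ∧ tsupport u ⊆ e.target := by
  have hK : IsCompact (Icc a' b' ×ˢ Metric.closedBall (0 : ℝ × ℝ) ε) :=
    isCompact_Icc.prod (isCompact_closedBall _ _)
  have hsub : tsupport u ⊆ Icc a' b' ×ˢ Metric.closedBall (0 : ℝ × ℝ) ε := by
    refine closure_minimal ?_ hK.isClosed
    intro p hp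
    obtain ⟨h1, h2⟩ := hu p hp
    exact ⟨h1, by rw [mem_closedBall_zero_iff]; exact h2⟩
  refine ⟨hK.of_isClosed_subset (isClosed_tsupport _) hsub, hsub.trans ?_⟩
  rw [ht]
  rintro p ⟨h1, h2⟩
  refine ⟨⟨by linarith [h1.1], by linarith [h1.2]⟩, ?_⟩
  rw [mem_closedBall_zero_iff] at h2
  rw [mem_ball_zero_iff]
  linarith

/-- the function `θ` of the whole partition -/
noncomputable def θ (s : ℝ) : ℝ := C.θ₁ s + C.θ₂ s

/-- integral over `M` of the square of a function which lives on the closed tube -/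
theorem norm_glue [IsManifold (𝓡 3) ∞ M] [T2Space M] [CompactSpace M] [MeasurableSpace M] [BorelSpace M]
    (μ : Measure M) [IsFiniteMeasure μ] {ρ : T3 → ℝ} (hρc : Continuous ρ) (hρ : IsDens μ F (tubeN d) ρ)
    {w : M → ℝ} (hw : Continuous w) {u : T3 → ℝ} (hu : Continuous u)
    (hwu : ∀ p ∈ tubeN d, w (F p) = u p) {ε : ℝ} (hε : ε < d)
    (hw0 : ∀ x, w x ≠ 0 → ∃ p : T3, ‖p.2‖ ≤ ε ∧ x = F p) (hu0 : ∀ p : T3, ε < ‖p.2‖ → u p = 0) :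
    ∫ x, w x ^ 2 ∂μ = ∫ p : T3, C.θ p.1 * (u p ^ 2 * ρ p) := by
  have hℓ := C.hℓ
  have hd := C.hd
  set ε' := max ε (d / 2) with hε'
  have h1 : 0 < ε' := lt_of_lt_of_le (by linarith) (le_max_right _ _)
  have h2 : ε' < d := max_lt hε (by linarith)
  have h3 : ε ≤ ε' := le_max_left _ _
  let χ : ContDiffBump (0 : ℝ × ℝ) := ⟨ε', (ε' + d) / 2, h1, by linarith⟩
  have hχ1 : ∀ z : ℝ × ℝ, ‖z‖ ≤ ε → χ z = 1 := fun z hz => χ.one_of_mem_closedBall (by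
    rw [mem_closedBall_zero_iff]; exact hz.trans h3)
  have hχ0 : ∀ z : ℝ × ℝ, χ z ≠ 0 → ‖z‖ ≤ (ε' + d) / 2 := fun z hz => by
    have h : z ∈ Function.support χ := hz
    rw [ContDiffBump.support_eq, mem_ball_zero_iff] at h
    exact h.le
  set m₁ : T3 → ℝ := fun p => C.θ₁ p.1 * χ p.2 with hm₁
  set m₂ : T3 → ℝ := fun p => C.θ₂ p.1 * χ p.2 with hm₂
  have sχ : ContDiff ℝ ∞ (fun p : T3 => χ p.2) := χ.contDiff.comp contDiff_snd
  have s₁ : ContDiff ℝ ∞ m₁ := (C.θ₁s.comp contDiff_fst).mul sχ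
  have s₂ : ContDiff ℝ ∞ m₂ := (C.θ₂s.comp contDiff_fst).mul sχ
  obtain ⟨k₁, l₁⟩ := supp (a := 0) (b := ℓ) (a' := ℓ / 8) (b' := 7 * ℓ / 8) (ε := (ε' + d) / 2)
    (by linarith) (by linarith) (by linarith) C.t₁ (u := m₁)
    (fun p hp => ⟨C.θ₁z _ (left_ne_zero_of_mul hp), hχ0 _ (right_ne_zero_of_mul hp)⟩)
  obtain ⟨k₂, l₂⟩ := supp (a := ℓ / 2) (b := 3 * ℓ / 2) (a' := 5 * ℓ / 8) (b' := 11 * ℓ / 8)
    (ε := (ε' + d) / 2) (by linarith) (by linarith) (by linarith) C.t₂ (u := m₂)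
    (fun p hp => ⟨C.θ₂z _ (left_ne_zero_of_mul hp), hχ0 _ (right_ne_zero_of_mul hp)⟩)
  have q₁ : Continuous (ext0 C.e₁ m₁) := (ext0_smooth C.e₁ C.c₁ s₁ k₁ l₁).continuous
  have q₂ : Continuous (ext0 C.e₂ m₂) := (ext0_smooth C.e₂ C.c₂ s₂ k₂ l₂).continuous
  -- the partition of unity
  have hpart : ∀ x, w x ^ 2 = ext0 C.e₁ m₁ x * w x ^ 2 + ext0 C.e₂ m₂ x * w x ^ 2 := by
    intro x
    by_cases hx : w x = 0
    · rw [hx]; ring
    · obtain ⟨p, hp, rfl⟩ := hw0 x hx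
      have hpd : p ∈ tubeN d := lt_of_le_of_lt hp hε
      have hg : C.glue m₁ m₂ (F p) = χ p.2 := by
        refine C.glue_lift (w := fun p => χ p.2)
          (fun p hp => C.θ₁z _ (left_ne_zero_of_mul hp)) (fun p hp => C.θ₂z _ (left_ne_zero_of_mul hp))
          (fun p => rfl) (fun p hp0 hp1 => ?_) hpd
        have h := C.θsum p.1 (by linarith) (by linarith)
        simp only [hm₁, hm₂]
        calc C.θ₁ p.1 * χ p.2 + C.θ₂ p.1 * χ p.2 + C.θ₂ (p.1 + ℓ) * χ p.2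
            = (C.θ₁ p.1 + C.θ₂ p.1 + C.θ₂ (p.1 + ℓ)) * χ p.2 := by ring
          _ = χ p.2 := by rw [h, one_mul]
      rw [hχ1 p.2 hp] at hg
      have hg' : ext0 C.e₁ m₁ (F p) + ext0 C.e₂ m₂ (F p) = 1 := hg
      rw [← add_mul, hg', one_mul]
  -- one piece
  have hpiece : ∀ (e : OpenPartialHomeomorph M T3) (he : IsTubeChart e) (hes : ∀ q, e.symm q = F q)
      (hed : e.target ⊆ tubeN d) (a b : ℝ) (ht : e.target = Ioo a b ×ˢ Metric.ball (0 : ℝ × ℝ) d)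
      (ϑ : ℝ → ℝ) (hϑ : ∀ s, s ∉ Ioo a b → ϑ s = 0)
      (hc : Continuous (ext0 e (fun p => ϑ p.1 * χ p.2))),
      ∫ x, ext0 e (fun p => ϑ p.1 * χ p.2) x * w x ^ 2 ∂μ = ∫ p : T3, ϑ p.1 * (u p ^ 2 * ρ p) := by
    intro e he hes hed a b ht ϑ hϑ hc
    rw [hρ e he hed hes (fun x => ext0 e (fun p => ϑ p.1 * χ p.2) x * w x ^ 2) (hc.mul (hw.pow 2))
      (fun x hx => by simp only [tr_ext0_notMem e _ hx, zero_mul])]
    refine tr_setInt_eq e.open_target (fun p hp => ?_) (fun p hp => ?_)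
    · rw [lift_in hes _ hp, hwu p (hed hp)]
      by_cases hz : ‖p.2‖ ≤ ε
      · rw [hχ1 p.2 hz]; ring
      · push Not at hz
        rw [hu0 p hz]; ring
    · rw [ht] at hp
      by_cases hs : p.1 ∈ Ioo a b
      · have hz : ¬ ‖p.2‖ < d := fun h => hp ⟨hs, by rw [mem_ball_zero_iff]; exact h⟩
        rw [hu0 p (by push Not at hz; linarith)]; ring
      · rw [hϑ _ hs, zero_mul]
  have z₁ : ∀ s, s ∉ Ioo 0 ℓ → C.θ₁ s = 0 := fun s hs => by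
    by_contra hne
    have h := C.θ₁z s hne
    exact hs ⟨by linarith [h.1], by linarith [h.2]⟩
  have z₂ : ∀ s, s ∉ Ioo (ℓ / 2) (3 * ℓ / 2) → C.θ₂ s = 0 := fun s hs => by
    by_contra hne
    have h := C.θ₂z s hne
    exact hs ⟨by linarith [h.1], by linarith [h.2]⟩
  have hI₁ := hpiece C.e₁ C.c₁ C.s₁ C.t₁sub 0 ℓ C.t₁ C.θ₁ z₁ q₁
  have hI₂ := hpiece C.e₂ C.c₂ C.s₂ C.t₂sub (ℓ / 2) (3 * ℓ / 2) C.t₂ C.θ₂ z₂ q₂
  have hint : ∀ g : M → ℝ, Continuous g → Integrable g μ := fun g hg => by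
    obtain ⟨B, hB⟩ := isCompact_univ.exists_bound_of_continuousOn hg.continuousOn
    exact Integrable.of_bound hg.aestronglyMeasurable B (ae_of_all _ fun x => hB x (mem_univ x))
  have hintT : ∀ (a' b' : ℝ) (ϑ : ℝ → ℝ), Continuous ϑ → (∀ s, ϑ s ≠ 0 → s ∈ Icc a' b') →
      Integrable (fun p : T3 => ϑ p.1 * (u p ^ 2 * ρ p)) := by
    intro a' b' ϑ hϑ hϑ0
    refine Continuous.integrable_of_hasCompactSupport
      ((hϑ.comp continuous_fst).mul ((hu.pow 2).mul hρc)) ?_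
    refine HasCompactSupport.intro (isCompact_Icc.prod (isCompact_closedBall (0 : ℝ × ℝ) ε))
      (K := Icc a' b' ×ˢ Metric.closedBall (0 : ℝ × ℝ) ε) fun p hp => ?_
    by_cases hz : ε < ‖p.2‖
    · rw [hu0 p hz]; ring
    · push Not at hz
      have hs : ϑ p.1 = 0 := by
        by_contra hne
        exact hp ⟨hϑ0 _ hne, by rw [mem_closedBall_zero_iff]; exact hz⟩
      rw [hs, zero_mul]
  calc ∫ x, w x ^ 2 ∂μ = ∫ x, (ext0 C.e₁ m₁ x * w x ^ 2 + ext0 C.e₂ m₂ x * w x ^ 2) ∂μ :=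
        integral_congr_ae (Eventually.of_forall hpart)
    _ = (∫ x, ext0 C.e₁ m₁ x * w x ^ 2 ∂μ) + ∫ x, ext0 C.e₂ m₂ x * w x ^ 2 ∂μ :=
        integral_add (hint _ (q₁.mul (hw.pow 2))) (hint _ (q₂.mul (hw.pow 2)))
    _ = (∫ p : T3, C.θ₁ p.1 * (u p ^ 2 * ρ p)) + ∫ p : T3, C.θ₂ p.1 * (u p ^ 2 * ρ p) := by
        rw [hI₁, hI₂]
    _ = ∫ p : T3, (C.θ₁ p.1 * (u p ^ 2 * ρ p) + C.θ₂ p.1 * (u p ^ 2 * ρ p)) :=
        (integral_add (hintT _ _ _ C.θ₁s.continuous C.θ₁z) (hintT _ _ _ C.θ₂s.continuous C.θ₂z)).symm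
    _ = ∫ p : T3, C.θ p.1 * (u p ^ 2 * ρ p) := by
        refine integral_congr_ae (Eventually.of_forall fun p => ?_)
        simp only [θ]
        ring

end Cfg
end M

end KT

section M
variable {M : Type*} [TopologicalSpace M] [ChartedSpace E3 M] [IsManifold (𝓡 3) ∞ M]

open KT in
/-- periodic functions on a closed tube as elements of the domain of the sub-Riemannian Laplacian -/
theorem per_mem [T2Space M] [CompactSpace M] [MeasurableSpace M] [BorelSpace M] (S : ContactSR M)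
    (μ : Measure M) [IsFiniteMeasure μ] {F : T3 → M} {d ℓ : ℝ} (hF : IsImm F (tubeN d)) (hd : 0 < d)
    (hℓ : 0 < ℓ) (hper : ∀ p ∈ tubeN d, F (p.1 + ℓ, p.2) = F p)
    (hinj : ∀ p ∈ tubeN d, ∀ p' ∈ tubeN d, F p = F p' → ∃ k : ℤ, p' = (p.1 + k * ℓ, p.2))
    (τ : Tube) (hτ : τ.Per ℓ) (hρ : IsDens μ F (tubeN d) τ.ρ)
    (hG : ∀ p ∈ tubeN d, ∀ ξ η : T3 →L[ℝ] ℝ,
      iG S F p ξ η = ξ (τ.X p) * η (τ.X p) + ξ (τ.Y p) * η (τ.Y p)) :
    ∃ θ : ℝ → ℝ, Continuous θ ∧ (∀ s, 0 ≤ θ s) ∧ (∀ s, s ∉ Icc 0 (3 * ℓ) → θ s = 0) ∧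
      (∃ s, 0 < θ s) ∧ ∀ (ε : ℝ), ε < d → ∀ v : T3 → ℝ, ContDiff ℝ ∞ v → PerI ℓ v →
        (∀ p : T3, ε < ‖p.2‖ → v p = 0) → ∀ t : ℝ, ∃ q ∈ friedrichs S μ,
          ‖q.1‖ ^ 2 = ∫ p : T3, θ p.1 * (v p ^ 2 * τ.ρ p) ∧
          ‖q.2 - t • q.1‖ ^ 2 = ∫ p : T3, θ p.1 * ((τ.L v p - t * v p) ^ 2 * τ.ρ p) := by
  obtain ⟨C⟩ := exists_cfg hF hd hℓ hper hinj
  refine ⟨C.θ, C.θ₁s.continuous.add C.θ₂s.continuous, fun s => add_nonneg (C.θ₁n s) (C.θ₂n s),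
    fun s hs => ?_, ⟨ℓ / 2, ?_⟩, fun ε hε v hv hvp hv0 t => ?_⟩
  · have h1 : C.θ₁ s = 0 := by
      by_contra hne
      have h := C.θ₁z s hne
      exact hs ⟨by linarith [h.1], by linarith [h.2]⟩
    have h2 : C.θ₂ s = 0 := by
      by_contra hne
      have h := C.θ₂z s hne
      exact hs ⟨by linarith [h.1], by linarith [h.2]⟩
    rw [Cfg.θ, h1, h2, add_zero]
  · exact add_pos_of_pos_of_nonneg C.θpos (C.θ₂n _)
  set v₁ : T3 → ℝ := fun p => C.θ₁ p.1 * v p with hv₁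
  set v₂ : T3 → ℝ := fun p => C.θ₂ p.1 * v p with hv₂
  have sv₁ : ContDiff ℝ ∞ v₁ := (C.θ₁s.comp contDiff_fst).mul hv
  have sv₂ : ContDiff ℝ ∞ v₂ := (C.θ₂s.comp contDiff_fst).mul hv
  have hne : ∀ p : T3, v p ≠ 0 → ‖p.2‖ ≤ ε := fun p hp => by
    by_contra h
    exact hp (hv0 p (not_le.1 h))
  obtain ⟨k₁, l₁⟩ := Cfg.supp (a := 0) (b := ℓ) (a' := ℓ / 8) (b' := 7 * ℓ / 8) (ε := ε)
    (by linarith) (by linarith) hε C.t₁ (u := v₁)
    (fun p hp => ⟨C.θ₁z _ (left_ne_zero_of_mul hp), hne _ (right_ne_zero_of_mul hp)⟩)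
  obtain ⟨k₂, l₂⟩ := Cfg.supp (a := ℓ / 2) (b := 3 * ℓ / 2) (a' := 5 * ℓ / 8) (b' := 11 * ℓ / 8)
    (ε := ε) (by linarith) (by linarith) hε C.t₂ (u := v₂)
    (fun p hp => ⟨C.θ₂z _ (left_ne_zero_of_mul hp), hne _ (right_ne_zero_of_mul hp)⟩)
  have hρ' : ∀ (e : OpenPartialHomeomorph M T3), IsTubeChart e → e.target ⊆ tubeN d →
      (∀ q, e.symm q = F q) → ∀ g : M → ℝ, Continuous g →
        (∀ x, ¬ (x ∈ e.source ∧ e x ∈ e.target) → g x = 0) →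
          ∫ x, g x ∂μ = ∫ p in e.target, g (e.symm p) * τ.ρ p := by
    intro e he hed hes g hg hg0
    rw [hρ e he hed hes g hg (fun x hx => hg0 x fun h => hx h.1)]
    simp only [hes]
  have hG' : ∀ (e : OpenPartialHomeomorph M T3), IsTubeChart e → e.target ⊆ tubeN d →
      (∀ q, e.symm q = F q) → ∀ p ∈ e.target, ∀ ξ η : T3 →L[ℝ] ℝ,
        cG S e p ξ η = ξ (τ.X p) * η (τ.X p) + ξ (τ.Y p) * η (τ.Y p) := by
    intro e he hed hes p hp ξ η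
    rw [iG_eq S he hes hp, hG p (hed hp)]
  obtain ⟨q₁, hq₁, a₁, b₁⟩ := tube_mem' S μ C.e₁ C.c₁ τ C.e₁.open_target le_rfl
    (hG' C.e₁ C.c₁ C.t₁sub C.s₁) (hρ' C.e₁ C.c₁ C.t₁sub C.s₁) sv₁ k₁ l₁
  obtain ⟨q₂, hq₂, a₂, b₂⟩ := tube_mem' S μ C.e₂ C.c₂ τ C.e₂.open_target le_rfl
    (hG' C.e₂ C.c₂ C.t₂sub C.s₂) (hρ' C.e₂ C.c₂ C.t₂sub C.s₂) sv₂ k₂ l₂
  -- the functions on `M`
  have sL₁ := L_contDiff τ sv₁
  have sL₂ := L_contDiff τ sv₂
  have tL₁ := L_tsupport τ v₁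
  have tL₂ := L_tsupport τ v₂
  have cL₁ : HasCompactSupport (τ.L v₁) := k₁.isCompact.of_isClosed_subset (isClosed_tsupport _) tL₁
  have cL₂ : HasCompactSupport (τ.L v₂) := k₂.isCompact.of_isClosed_subset (isClosed_tsupport _) tL₂
  set f : M → ℝ := C.glue v₁ v₂ with hf
  set h : M → ℝ := C.glue (τ.L v₁) (τ.L v₂) with hh
  have hfc : Continuous f := (ext0_smooth C.e₁ C.c₁ sv₁ k₁ l₁).continuous.add
    (ext0_smooth C.e₂ C.c₂ sv₂ k₂ l₂).continuous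
  have hhc : Continuous h := (ext0_smooth C.e₁ C.c₁ sL₁ cL₁ (tL₁.trans l₁)).continuous.add
    (ext0_smooth C.e₂ C.c₂ sL₂ cL₂ (tL₂.trans l₂)).continuous
  have hsum : ∀ p : T3, -ℓ / 8 < p.1 → p.1 < 9 * ℓ / 8 →
      v₁ p + v₂ p + v₂ (p.1 + ℓ, p.2) = v p := by
    intro p hp0 hp1
    have e := C.θsum p.1 hp0 hp1
    simp only [hv₁, hv₂, hvp p]
    calc C.θ₁ p.1 * v p + C.θ₂ p.1 * v p + C.θ₂ (p.1 + ℓ) * v p
        = (C.θ₁ p.1 + C.θ₂ p.1 + C.θ₂ (p.1 + ℓ)) * v p := by ring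
      _ = v p := by rw [e, one_mul]
  have hfF : ∀ p ∈ tubeN d, f (F p) = v p := fun p hp =>
    C.glue_lift (fun p hp => C.θ₁z _ (left_ne_zero_of_mul hp))
      (fun p hp => C.θ₂z _ (left_ne_zero_of_mul hp)) hvp
      (fun p h0 h1 => hsum p (by linarith) (by linarith)) hp
  -- the support of `L v₁`, `L v₂`
  have hL₁0 : ∀ p : T3, τ.L v₁ p ≠ 0 → p.1 ∈ Icc (ℓ / 8) (7 * ℓ / 8) := by
    intro p hp
    by_contra hcon
    apply hp
    have hO : IsOpen {q : T3 | q.1 ∉ Icc (ℓ / 8) (7 * ℓ / 8)} :=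
      (isClosed_Icc.preimage continuous_fst).isOpen_compl
    refine L_zero_of hO (fun q hq => ?_) hcon
    have : C.θ₁ q.1 = 0 := by
      by_contra hne
      exact hq (C.θ₁z _ hne)
    simp only [hv₁, this, zero_mul]
  have hL₂0 : ∀ p : T3, τ.L v₂ p ≠ 0 → p.1 ∈ Icc (5 * ℓ / 8) (11 * ℓ / 8) := by
    intro p hp
    by_contra hcon
    apply hp
    have hO : IsOpen {q : T3 | q.1 ∉ Icc (5 * ℓ / 8) (11 * ℓ / 8)} :=
      (isClosed_Icc.preimage continuous_fst).isOpen_compl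
    refine L_zero_of hO (fun q hq => ?_) hcon
    have : C.θ₂ q.1 = 0 := by
      by_contra hne
      exact hq (C.θ₂z _ hne)
    simp only [hv₂, this, zero_mul]
  have hfar : ∀ w : T3 → ℝ, (∀ p : T3, ε < ‖p.2‖ → w p = 0) → ∀ p : T3, ε < ‖p.2‖ → τ.L w p = 0 := by
    intro w hw p hp
    have hO : IsOpen {q : T3 | ε < ‖q.2‖} := isOpen_lt continuous_const (by fun_prop)
    exact L_zero_of hO (fun q hq => hw q hq) hp
  have hLsum : ∀ p : T3, 0 ≤ p.1 → p.1 ≤ ℓ →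
      τ.L v₁ p + τ.L v₂ p + τ.L v₂ (p.1 + ℓ, p.2) = τ.L v p := by
    intro p hp0 hp1
    have s₃ : ContDiff ℝ ∞ (fun q : T3 => v₂ (q.1 + ℓ, q.2)) :=
      sv₂.comp ((contDiff_fst.add contDiff_const).prodMk contDiff_snd)
    have e1 : τ.L (fun q => (v₁ q + v₂ q) + v₂ (q.1 + ℓ, q.2)) p =
        τ.L v₁ p + τ.L v₂ p + τ.L v₂ (p.1 + ℓ, p.2) := by
      rw [L_add τ (u := fun q => v₁ q + v₂ q) (v := fun q => v₂ (q.1 + ℓ, q.2)) (sv₁.add sv₂) s₃ p,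
        L_add τ sv₁ sv₂ p, L_shift hτ v₂ p]
    rw [← e1]
    have hO : IsOpen {q : T3 | -ℓ / 8 < q.1 ∧ q.1 < 9 * ℓ / 8} :=
      (isOpen_lt continuous_const continuous_fst).inter (isOpen_lt continuous_fst continuous_const)
    exact L_congr τ hO (A := fun q => (v₁ q + v₂ q) + v₂ (q.1 + ℓ, q.2)) (A' := v)
      (fun q hq => hsum q hq.1 hq.2) ⟨by linarith, by linarith⟩
  have hhF : ∀ p ∈ tubeN d, h (F p) = τ.L v p := fun p hp =>
    C.glue_lift hL₁0 hL₂0 (L_perI hτ hvp) hLsum hp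
  have hf0 : ∀ x, f x ≠ 0 → ∃ p : T3, ‖p.2‖ ≤ ε ∧ x = F p := by
    intro x hx
    obtain ⟨p, -, rfl, hp⟩ := C.glue_ne hx
    refine ⟨p, hne p ?_, rfl⟩
    rcases hp with hp | hp
    · exact right_ne_zero_of_mul hp
    · exact right_ne_zero_of_mul hp
  have hh0 : ∀ x, h x ≠ 0 → ∃ p : T3, ‖p.2‖ ≤ ε ∧ x = F p := by
    intro x hx
    obtain ⟨p, -, rfl, hp⟩ := C.glue_ne hx
    refine ⟨p, ?_, rfl⟩
    by_contra hcon
    push Not at hcon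
    rcases hp with hp | hp
    · exact hp (hfar v₁ (fun q hq => by simp only [hv₁, hv0 q hq, mul_zero]) p hcon)
    · exact hp (hfar v₂ (fun q hq => by simp only [hv₂, hv0 q hq, mul_zero]) p hcon)
  have hρc := τ.smooth_ρ.continuous
  have hLvc := (L_contDiff τ hv).continuous
  have hn1 := C.norm_glue μ hρc hρ hfc hv.continuous hfF hε hf0 hv0
  have hwc : Continuous (fun x => h x - t * f x) := hhc.sub (continuous_const.mul hfc)
  have hn2 := C.norm_glue μ hρc hρ hwc (u := fun p => τ.L v p - t * v p)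
    (hLvc.sub (continuous_const.mul hv.continuous)) (fun p hp => by rw [hhF p hp, hfF p hp]) hε
    (fun x hx => by
      by_cases h1 : h x = 0
      · refine hf0 x fun h2 => hx ?_
        rw [h1, h2, mul_zero, sub_zero]
      · exact hh0 x h1)
    (fun p hp => by rw [hfar v hv0 p hp, hv0 p hp, mul_zero, sub_zero])
  refine ⟨q₁ + q₂, friedrichs_add S μ hq₁ hq₂, ?_, ?_⟩
  · have hfm := tr_memLp_of_continuous μ hfc
    have e1 : (q₁ + q₂).1 = hfm.toLp f := by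
      apply Lp.ext
      filter_upwards [Lp.coeFn_add q₁.1 q₂.1, hfm.coeFn_toLp, a₁, a₂] with x h1 h2 h3 h4
      rw [h2, Prod.fst_add, h1, Pi.add_apply, h3, h4]
      rfl
    rw [e1, tr_norm_toLp_sq, hn1]
  · have hwm := tr_memLp_of_continuous μ hwc
    have e1 : (q₁ + q₂).2 - t • (q₁ + q₂).1 = hwm.toLp _ := by
      apply Lp.ext
      filter_upwards [Lp.coeFn_add q₁.1 q₂.1, Lp.coeFn_add q₁.2 q₂.2, hwm.coeFn_toLp, a₁, a₂, b₁, b₂,
        Lp.coeFn_sub (q₁ + q₂).2 (t • (q₁ + q₂).1), Lp.coeFn_smul t (q₁ + q₂).1]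
        with x h1 h1' h2 h3 h4 h5 h6 h7 h8
      rw [h2, h7, Pi.sub_apply, h8, Pi.smul_apply, Prod.fst_add, Prod.snd_add, h1, h1', Pi.add_apply,
        Pi.add_apply, h3, h4, h5, h6, smul_eq_mul]
      rfl
    rw [e1, tr_norm_toLp_sq, hn2]

end M
end Pool.Agent.SRGap
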