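import Pool.Agent.Work.MP_188050_an.PerQM

/-!
# MP_188050_an: from periodic Reeb frames in coordinates to periodic tube data
-/

open Set MeasureTheory Filter Topology VectorField
open scoped Manifold ContDiff

namespace Pool.Agent.SRGap

namespace PT

/-- `ds` -/
noncomputable def ds : T3 →L[ℝ] ℝ := ContinuousLinearMap.fst ℝ ℝ (ℝ × ℝ)
/-- `dx` -/
noncomputable def dx : T3 →L[ℝ] ℝ := (ContinuousLinearMap.fst ℝ ℝ ℝ).comp (ContinuousLinearMap.snd ℝ ℝ (ℝ × ℝ))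
/-- `dy` -/
noncomputable def dy : T3 →L[ℝ] ℝ := (ContinuousLinearMap.snd ℝ ℝ ℝ).comp (ContinuousLinearMap.snd ℝ ℝ (ℝ × ℝ))

@[simp] theorem ds_apply (v : T3) : ds v = v.1 := rfl
@[simp] theorem dx_apply (v : T3) : dx v = v.2.1 := rfl
@[simp] theorem dy_apply (v : T3) : dy v = v.2.2 := rfl

variable (Gc : T3 → (T3 →L[ℝ] ℝ) → (T3 →L[ℝ] ℝ) → ℝ)

/-- `G(dx, dx)` -/
noncomputable def fP (p : T3) : ℝ := Gc p dx dx
/-- `G(dx, dy)` -/
noncomputable def fQ (p : T3) : ℝ := Gc p dx dy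
/-- `G(dy, dy)` -/
noncomputable def fR (p : T3) : ℝ := Gc p dy dy
/-- `G(ds, dx)` -/
noncomputable def fE (p : T3) : ℝ := Gc p ds dx
/-- `G(ds, dy)` -/
noncomputable def fF (p : T3) : ℝ := Gc p ds dy
/-- the distribution is `ds = g1 dx + g2 dy` -/
noncomputable def g1 (p : T3) : ℝ := (fE Gc p * fR Gc p - fF Gc p * fQ Gc p) / (fP Gc p * fR Gc p - fQ Gc p ^ 2)
/-- the distribution is `ds = g1 dx + g2 dy` -/
noncomputable def g2 (p : T3) : ℝ := (fF Gc p * fP Gc p - fE Gc p * fQ Gc p) / (fP Gc p * fR Gc p - fQ Gc p ^ 2)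

/-- the determinant -/
def det (V W : T3) : ℝ := V.2.1 * W.2.2 - V.2.2 * W.2.1

variable {Gc}

section frame
variable {X Y : T3 → T3} {U : Set T3} (h : EFrame Gc X Y U) {p : T3} (hp : p ∈ U)
include h hp

theorem det_ne : det (X p) (Y p) ≠ 0 := by
  intro h0
  have hi := Fintype.linearIndependent_iff.1 (h.indep p hp)
  unfold det at h0
  generalize X p = V at hi h0
  generalize Y p = W at hi h0
  obtain ⟨Xs, Xx, Xy⟩ := V
  obtain ⟨Ys, Yx, Yy⟩ := W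
  simp only at h0
  have h1 := hi ![-(Yy * Xs - Xy * Ys), Yy, -Xy] (by
    simp only [Fin.sum_univ_three, Matrix.cons_val_zero, Matrix.cons_val_one, Matrix.cons_val]
    ext
    · simp
    · simp; linarith
    · simp; ring)
  have h2 := hi ![-(Yx * Xs - Xx * Ys), Yx, -Xx] (by
    simp only [Fin.sum_univ_three, Matrix.cons_val_zero, Matrix.cons_val_one, Matrix.cons_val]
    ext
    · simp
    · simp; ring
    · simp; linarith)
  have e1 : Xy = 0 := by simpa using h1 2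
  have e2 : Xx = 0 := by simpa using h2 2
  have h3 := hi ![-Xs, 1, 0] (by
    simp only [Fin.sum_univ_three, Matrix.cons_val_zero, Matrix.cons_val_one, Matrix.cons_val]
    ext
    · simp
    · simp [e2]
    · simp [e1])
  have := h3 1
  simp at this

theorem P_eq : fP Gc p = (X p).2.1 ^ 2 + (Y p).2.1 ^ 2 := by
  unfold fP; rw [h.cometric p hp]; simp; ring
theorem Q_eq : fQ Gc p = (X p).2.1 * (X p).2.2 + (Y p).2.1 * (Y p).2.2 := by
  unfold fQ; rw [h.cometric p hp]; simp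
theorem R_eq : fR Gc p = (X p).2.2 ^ 2 + (Y p).2.2 ^ 2 := by
  unfold fR; rw [h.cometric p hp]; simp; ring
theorem E_eq : fE Gc p = (X p).1 * (X p).2.1 + (Y p).1 * (Y p).2.1 := by
  unfold fE; rw [h.cometric p hp]; simp
theorem F_eq : fF Gc p = (X p).1 * (X p).2.2 + (Y p).1 * (Y p).2.2 := by
  unfold fF; rw [h.cometric p hp]; simp

theorem disc_eq : fP Gc p * fR Gc p - fQ Gc p ^ 2 = det (X p) (Y p) ^ 2 := by
  rw [P_eq h hp, Q_eq h hp, R_eq h hp]; unfold det; ring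

theorem g1_eq : g1 Gc p = ((X p).1 * (Y p).2.2 - (Y p).1 * (X p).2.2) / det (X p) (Y p) := by
  have hd := det_ne h hp
  unfold g1
  rw [disc_eq h hp, E_eq h hp, F_eq h hp, R_eq h hp, Q_eq h hp]
  rw [div_eq_div_iff (pow_ne_zero 2 hd) hd]
  unfold det; ring

theorem g2_eq : g2 Gc p = ((Y p).1 * (X p).2.1 - (X p).1 * (Y p).2.1) / det (X p) (Y p) := by
  have hd := det_ne h hp
  unfold g2
  rw [disc_eq h hp, E_eq h hp, F_eq h hp, P_eq h hp, Q_eq h hp]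
  rw [div_eq_div_iff (pow_ne_zero 2 hd) hd]
  unfold det; ring

theorem X_s : (X p).1 = g1 Gc p * (X p).2.1 + g2 Gc p * (X p).2.2 := by
  have hd := det_ne h hp
  rw [g1_eq h hp, g2_eq h hp]
  field_simp
  unfold det; ring

theorem Y_s : (Y p).1 = g1 Gc p * (Y p).2.1 + g2 Gc p * (Y p).2.2 := by
  have hd := det_ne h hp
  rw [g1_eq h hp, g2_eq h hp]
  field_simp
  unfold det; ring

theorem P_pos : 0 < fP Gc p := by
  have hd := det_ne h hp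
  rw [P_eq h hp]
  rcases eq_or_ne (X p).2.1 0 with h1 | h1
  · have : (Y p).2.1 ≠ 0 := by
      intro h2; apply hd; unfold det; rw [h1, h2]; ring
    positivity
  · positivity

theorem disc_pos : 0 < fP Gc p * fR Gc p - fQ Gc p ^ 2 := by
  rw [disc_eq h hp]
  have := det_ne h hp
  positivity

theorem smoothAt_G (ξ η : T3 →L[ℝ] ℝ) : ContDiffAt ℝ ∞ (fun q => Gc q ξ η) p := by
  have hX : ContDiffAt ℝ ∞ X p := h.smooth_X.contDiffAt (h.isOpen.mem_nhds hp)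
  have hY : ContDiffAt ℝ ∞ Y p := h.smooth_Y.contDiffAt (h.isOpen.mem_nhds hp)
  have h1 : ContDiffAt ℝ ∞ (fun q => ξ (X q) * η (X q) + ξ (Y q) * η (Y q)) p :=
    ((ξ.contDiff.contDiffAt.comp p hX).mul (η.contDiff.contDiffAt.comp p hX)).add
      ((ξ.contDiff.contDiffAt.comp p hY).mul (η.contDiff.contDiffAt.comp p hY))
  refine h1.congr_of_eventuallyEq ?_
  filter_upwards [h.isOpen.mem_nhds hp] with q hq
  exact h.cometric q hq ξ η

theorem smoothAt_g1 : ContDiffAt ℝ ∞ (g1 Gc) p := by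
  have hs := fun ξ η => smoothAt_G h hp ξ η
  exact (((hs _ _).mul (hs _ _)).sub ((hs _ _).mul (hs _ _))).div
    (((hs _ _).mul (hs _ _)).sub ((hs _ _).pow 2)) (disc_pos h hp).ne'

theorem smoothAt_g2 : ContDiffAt ℝ ∞ (g2 Gc) p := by
  have hs := fun ξ η => smoothAt_G h hp ξ η
  exact (((hs _ _).mul (hs _ _)).sub ((hs _ _).mul (hs _ _))).div
    (((hs _ _).mul (hs _ _)).sub ((hs _ _).pow 2)) (disc_pos h hp).ne'

theorem deriv_rel {V : T3 → T3} (hV : DifferentiableAt ℝ V p)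
    (hrel : ∀ q ∈ U, (V q).1 = g1 Gc q * (V q).2.1 + g2 Gc q * (V q).2.2) (v : T3) :
    (fderiv ℝ V p v).1 - g1 Gc p * (fderiv ℝ V p v).2.1 - g2 Gc p * (fderiv ℝ V p v).2.2 =
      fderiv ℝ (g1 Gc) p v * (V p).2.1 + fderiv ℝ (g2 Gc) p v * (V p).2.2 := by
  have hV' := hV.hasFDerivAt
  have h1 : HasFDerivAt (fun q => (V q).1) (ds.comp (fderiv ℝ V p)) p := ds.hasFDerivAt.comp p hV'
  have h2 : HasFDerivAt (fun q => (V q).2.1) (dx.comp (fderiv ℝ V p)) p := dx.hasFDerivAt.comp p hV'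
  have h3 : HasFDerivAt (fun q => (V q).2.2) (dy.comp (fderiv ℝ V p)) p := dy.hasFDerivAt.comp p hV'
  have hg1 := ((smoothAt_g1 h hp).differentiableAt (by simp)).hasFDerivAt
  have hg2 := ((smoothAt_g2 h hp).differentiableAt (by simp)).hasFDerivAt
  have h4 := (hg1.mul h2).add (hg2.mul h3)
  have h5 : (fun q => (V q).1) =ᶠ[𝓝 p] (g1 Gc * (fun q => (V q).2.1) + g2 Gc * fun q => (V q).2.2) := by
    filter_upwards [h.isOpen.mem_nhds hp] with q hq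
    exact hrel q hq
  have h6 := h1.unique (h4.congr_of_eventuallyEq h5)
  have h7 := congrArg (fun L : T3 →L[ℝ] ℝ => L v) h6
  simp at h7
  rw [h7]; ring

theorem diffX : DifferentiableAt ℝ X p :=
  (h.smooth_X.contDiffAt (h.isOpen.mem_nhds hp)).differentiableAt (by simp)
theorem diffY : DifferentiableAt ℝ Y p :=
  (h.smooth_Y.contDiffAt (h.isOpen.mem_nhds hp)).differentiableAt (by simp)

/-- `∂_s g_i = 0` -/
theorem ds_g : fderiv ℝ (g1 Gc) p (1, 0, 0) = 0 ∧ fderiv ℝ (g2 Gc) p (1, 0, 0) = 0 := by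
  have hd := det_ne h hp
  have hX := deriv_rel h hp (diffX h hp) (fun q hq => X_s h hq) (1, 0, 0)
  have hY := deriv_rel h hp (diffY h hp) (fun q hq => Y_s h hq) (1, 0, 0)
  have bX := h.bracket_X p hp
  have bY := h.bracket_Y p hp
  rw [lieBracket_eq] at bX bY
  simp only [fderiv_fun_const, Pi.zero_apply, _root_.zero_apply, sub_zero] at bX bY
  obtain ⟨a, b, hab⟩ := Submodule.mem_span_pair.1 bX
  obtain ⟨a', b', hab'⟩ := Submodule.mem_span_pair.1 bY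
  rw [← hab] at hX
  rw [← hab'] at hY
  have xs := X_s h hp
  have ys := Y_s h hp
  simp at hX hY
  set G1 := fderiv ℝ (g1 Gc) p (1, 0, 0)
  set G2 := fderiv ℝ (g2 Gc) p (1, 0, 0)
  have e1 : G1 * (X p).2.1 + G2 * (X p).2.2 = 0 := by
    rw [← hX, xs, ys]; ring
  have e2 : G1 * (Y p).2.1 + G2 * (Y p).2.2 = 0 := by
    rw [← hY, xs, ys]; ring
  constructor
  · have : G1 * det (X p) (Y p) = 0 := by
      unfold det; linear_combination (Y p).2.2 * e1 - (X p).2.2 * e2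
    exact (mul_eq_zero.1 this).resolve_right hd
  · have : G2 * det (X p) (Y p) = 0 := by
      unfold det; linear_combination (X p).2.1 * e2 - (Y p).2.1 * e1
    exact (mul_eq_zero.1 this).resolve_right hd

omit h hp in
theorem fderiv_split (g : T3 → ℝ) (v : T3) (p : T3) : fderiv ℝ g p v =
    v.1 * fderiv ℝ g p (1, 0, 0) + v.2.1 * fderiv ℝ g p (0, 1, 0) + v.2.2 * fderiv ℝ g p (0, 0, 1) := by
  have e : v = v.1 • ((1, 0, 0) : T3) + v.2.1 • ((0, 1, 0) : T3) + v.2.2 • ((0, 0, 1) : T3) := by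
    ext <;> simp
  conv_lhs => rw [e]
  simp only [map_add, map_smul, smul_eq_mul]

/-- `det (∂_y g1 - ∂_x g2) = 1` -/
theorem det_curl : det (X p) (Y p) *
    (fderiv ℝ (g1 Gc) p (0, 0, 1) - fderiv ℝ (g2 Gc) p (0, 1, 0)) = 1 := by
  have hX := deriv_rel h hp (diffX h hp) (fun q hq => X_s h hq) (Y p)
  have hY := deriv_rel h hp (diffY h hp) (fun q hq => Y_s h hq) (X p)
  have bb := h.bracket p hp
  rw [lieBracket_eq] at bb
  obtain ⟨a, b, hab⟩ := Submodule.mem_span_pair.1 bb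
  have xs := X_s h hp
  have ys := Y_s h hp
  obtain ⟨s1, s2⟩ := ds_g h hp
  rw [fderiv_split (g1 Gc), fderiv_split (g2 Gc), s1, s2] at hX hY
  have c1 := congrArg (fun v : T3 => v.1) hab
  have c2 := congrArg (fun v : T3 => v.2.1) hab
  have c3 := congrArg (fun v : T3 => v.2.2) hab
  simp at c1 c2 c3
  unfold det
  linear_combination c1 - g1 Gc p * c2 - g2 Gc p * c3 - a * xs - b * ys - hX + hY

end frame

theorem ext_smooth {E : Type*} [NormedAddCommGroup E] [NormedSpace ℝ E] {χ f : E → ℝ} {B : Set E}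
    (hB : IsOpen B) (hχ : ContDiff ℝ ∞ χ) (hsupp : tsupport χ ⊆ B) (hf : ContDiffOn ℝ ∞ f B) :
    ContDiff ℝ ∞ (fun p => χ p * f p) := by
  rw [contDiff_iff_contDiffAt]
  intro p
  by_cases hp : p ∈ B
  · exact hχ.contDiffAt.mul (hf.contDiffAt (hB.mem_nhds hp))
  · have h1 : χ =ᶠ[𝓝 p] 0 := notMem_tsupport_iff_eventuallyEq.1 (fun h => hp (hsupp h))
    have h2 : (fun p => χ p * f p) =ᶠ[𝓝 p] fun _ => 0 := by
      filter_upwards [h1] with q hq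
      rw [hq]; simp
    exact contDiffAt_const.congr_of_eventuallyEq h2

theorem pos_mix {c x : ℝ} (h0 : 0 ≤ c) (h1 : c ≤ 1) (hx : c ≠ 0 → 0 < x) : 0 < c * x + (1 - c) := by
  rcases eq_or_ne c 0 with h | h
  · rw [h]; simp
  · have hx' := hx h
    have hc : 0 < c := lt_of_le_of_ne h0 h.symm
    have : 0 < c * x := mul_pos hc hx'
    linarith

/-- decomposition of the cometric -/
theorem G_eq {X Y : T3 → T3} {U : Set T3} (h : EFrame Gc X Y U) {p : T3} (hp : p ∈ U)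
    (ξ η : T3 →L[ℝ] ℝ) : Gc p ξ η =
      (ξ (1, 0, 0) * g1 Gc p + ξ (0, 1, 0)) * (η (1, 0, 0) * g1 Gc p + η (0, 1, 0)) * fP Gc p +
      ((ξ (1, 0, 0) * g1 Gc p + ξ (0, 1, 0)) * (η (1, 0, 0) * g2 Gc p + η (0, 0, 1)) +
        (ξ (1, 0, 0) * g2 Gc p + ξ (0, 0, 1)) * (η (1, 0, 0) * g1 Gc p + η (0, 1, 0))) * fQ Gc p +
      (ξ (1, 0, 0) * g2 Gc p + ξ (0, 0, 1)) * (η (1, 0, 0) * g2 Gc p + η (0, 0, 1)) * fR Gc p := by
  have sp : ∀ (ζ : T3 →L[ℝ] ℝ) (v : T3), ζ v = v.1 * ζ (1, 0, 0) + v.2.1 * ζ (0, 1, 0) + v.2.2 * ζ (0, 0, 1) := by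
    intro ζ v
    have e : v = v.1 • ((1, 0, 0) : T3) + v.2.1 • ((0, 1, 0) : T3) + v.2.2 • ((0, 0, 1) : T3) := by
      ext <;> simp
    conv_lhs => rw [e]
    simp only [map_add, map_smul, smul_eq_mul]
  rw [h.cometric p hp, sp ξ (X p), sp ξ (Y p), sp η (X p), sp η (Y p), P_eq h hp, Q_eq h hp, R_eq h hp,
    X_s h hp, Y_s h hp]
  ring

end PT

open PT in
/-- periodic tube data from periodic frames -/
theorem exists_tube_per' {δ₀ : ℝ} (hδ₀ : 0 < δ₀) (Gc : T3 → (T3 →L[ℝ] ℝ) → (T3 →L[ℝ] ℝ) → ℝ)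
    (hfr : ∀ p₀ ∈ tubeN δ₀, ∃ U X Y, p₀ ∈ U ∧ EFrame Gc X Y U) {ℓ : ℝ}
    (hGp : ∀ p ∈ tubeN δ₀, ∀ ξ η, Gc (p.1 + ℓ, p.2) ξ η = Gc p ξ η)
    (h0 : ∃ U X Y, ((0, 0, 0) : T3) ∈ U ∧ EFrame Gc X Y U ∧ X (0, 0, 0) = (0, 1, 0) ∧
      Y (0, 0, 0) = (0, 0, 1))
    {ρ₀ : T3 → ℝ} (hρ : ContDiffOn ℝ ∞ ρ₀ (tubeN δ₀)) (hρpos : ∀ p ∈ tubeN δ₀, 0 < ρ₀ p)
    (hρp : ∀ p ∈ tubeN δ₀, ρ₀ (p.1 + ℓ, p.2) = ρ₀ p) :
    ∃ (τ : Tube) (δ : ℝ), 0 < δ ∧ δ ≤ δ₀ ∧ τ.Per ℓ ∧ τ.Good (tubeN δ) ∧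
      (∀ p ∈ tubeN δ, τ.ρ p = ρ₀ p) ∧
      ∀ p ∈ tubeN δ, ∀ ξ η : T3 →L[ℝ] ℝ, Gc p ξ η = ξ (τ.X p) * η (τ.X p) + ξ (τ.Y p) * η (τ.Y p) := by
  -- pointwise facts
  have hP : ∀ p ∈ tubeN δ₀, 0 < fP Gc p := fun p hp => by
    obtain ⟨U, X, Y, hpU, h⟩ := hfr p hp; exact P_pos h hpU
  have hD : ∀ p ∈ tubeN δ₀, 0 < fP Gc p * fR Gc p - fQ Gc p ^ 2 := fun p hp => by
    obtain ⟨U, X, Y, hpU, h⟩ := hfr p hp; exact disc_pos h hpU
  have hG : ∀ ξ η : T3 →L[ℝ] ℝ, ∀ p ∈ tubeN δ₀, ContDiffAt ℝ ∞ (fun q => Gc q ξ η) p := fun ξ η p hp => by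
    obtain ⟨U, X, Y, hpU, h⟩ := hfr p hp; exact smoothAt_G h hpU ξ η
  have hg1 : ∀ p ∈ tubeN δ₀, ContDiffAt ℝ ∞ (g1 Gc) p := fun p hp => by
    obtain ⟨U, X, Y, hpU, h⟩ := hfr p hp; exact smoothAt_g1 h hpU
  have hg2 : ∀ p ∈ tubeN δ₀, ContDiffAt ℝ ∞ (g2 Gc) p := fun p hp => by
    obtain ⟨U, X, Y, hpU, h⟩ := hfr p hp; exact smoothAt_g2 h hpU
  have hds : ∀ p ∈ tubeN δ₀, fderiv ℝ (g1 Gc) p (1, 0, 0) = 0 ∧ fderiv ℝ (g2 Gc) p (1, 0, 0) = 0 :=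
    fun p hp => by
      obtain ⟨U, X, Y, hpU, h⟩ := hfr p hp; exact ds_g h hpU
  -- the functions of two variables
  set f1 : ℝ × ℝ → ℝ := fun z => g1 Gc (0, z) with hf1
  set f2 : ℝ × ℝ → ℝ := fun z => g2 Gc (0, z) with hf2
  have hmem : ∀ z ∈ Metric.ball (0 : ℝ × ℝ) δ₀, ∀ s : ℝ, ((s, z) : T3) ∈ tubeN δ₀ := fun z hz s => by
    show ‖z‖ < δ₀
    simpa using hz
  have hmem' : ∀ p ∈ tubeN δ₀, p.2 ∈ Metric.ball (0 : ℝ × ℝ) δ₀ := fun p hp => by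
    rw [mem_ball_zero_iff]
    exact hp
  have hsf1 : ∀ z ∈ Metric.ball (0 : ℝ × ℝ) δ₀, ContDiffAt ℝ ∞ f1 z := fun z hz =>
    (hg1 _ (hmem z hz 0)).comp z (contDiffAt_const.prodMk contDiffAt_id)
  have hsf2 : ∀ z ∈ Metric.ball (0 : ℝ × ℝ) δ₀, ContDiffAt ℝ ∞ f2 z := fun z hz =>
    (hg2 _ (hmem z hz 0)).comp z (contDiffAt_const.prodMk contDiffAt_id)
  have hconst : ∀ g : T3 → ℝ, (∀ p ∈ tubeN δ₀, ContDiffAt ℝ ∞ g p) →
      (∀ p ∈ tubeN δ₀, fderiv ℝ g p (1, 0, 0) = 0) → ∀ p ∈ tubeN δ₀, g p = g (0, p.2) := by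
    intro g hg hg0 p hp
    obtain ⟨s, z⟩ := p
    have hder : ∀ t : ℝ, HasDerivAt (fun t : ℝ => g (t, z)) 0 t := by
      intro t
      have hO' : ((t, z) : T3) ∈ tubeN δ₀ := hp
      have h1 := ((hg _ hO').differentiableAt (by simp)).hasFDerivAt
      have h2 : HasDerivAt (fun t : ℝ => ((t, z) : T3)) ((1, 0) : T3) t :=
        (hasDerivAt_id t).prodMk (hasDerivAt_const t z)
      have h3 := h1.comp_hasDerivAt t h2
      have e : ((1, 0) : T3) = (1, 0, 0) := rfl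
      rw [e, hg0 _ hO'] at h3
      exact h3
    exact is_const_of_deriv_eq_zero (fun t => (hder t).differentiableAt) (fun t => (hder t).deriv) s 0
  have hc1 := hconst _ hg1 (fun p hp => (hds p hp).1)
  have hc2 := hconst _ hg2 (fun p hp => (hds p hp).2)
  -- derivatives
  have hfd : ∀ g : T3 → ℝ, (∀ p ∈ tubeN δ₀, ContDiffAt ℝ ∞ g p) → (∀ p ∈ tubeN δ₀, g p = g (0, p.2)) →
      ∀ p ∈ tubeN δ₀, ∀ v : ℝ × ℝ, fderiv ℝ g p (0, v) = fderiv ℝ (fun z => g (0, z)) p.2 v := by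
    intro g hg hgc p hp v
    have h1 : HasFDerivAt (fun z => g (0, z)) (fderiv ℝ (fun z => g (0, z)) p.2) p.2 :=
      (((hg _ (hmem p.2 (hmem' p hp) 0)).comp p.2
        (contDiffAt_const.prodMk contDiffAt_id)).differentiableAt (by simp)).hasFDerivAt
    have h2 : HasFDerivAt (fun q : T3 => g (0, q.2))
        ((fderiv ℝ (fun z => g (0, z)) p.2).comp (ContinuousLinearMap.snd ℝ ℝ (ℝ × ℝ))) p :=
      HasFDerivAt.comp (g := fun z => g (0, z)) p h1 hasFDerivAt_snd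
    have h3 : g =ᶠ[𝓝 p] fun q : T3 => g (0, q.2) := by
      filter_upwards [(isOpen_tubeN δ₀).mem_nhds hp] with q hq
      exact hgc q hq
    rw [(h2.congr_of_eventuallyEq h3).fderiv]
    simp
  have hd1 := hfd _ hg1 hc1
  have hd2 := hfd _ hg2 hc2
  set b : ℝ × ℝ → ℝ := fun z => fderiv ℝ f1 z (0, 1) - fderiv ℝ f2 z (1, 0) with hb
  have hdet : ∀ p ∈ tubeN δ₀, ∃ D : ℝ, D * b p.2 = 1 ∧ fP Gc p * fR Gc p - fQ Gc p ^ 2 = D ^ 2 := by
    intro p hp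
    obtain ⟨U, X, Y, hpU, h⟩ := hfr p hp
    refine ⟨det (X p) (Y p), ?_, disc_eq h hpU⟩
    have := det_curl h hpU
    rw [hd1 p hp (0, 1), hd2 p hp (1, 0)] at this
    exact this
  have h00 : ((0, 0, 0) : T3) ∈ tubeN δ₀ := axis_mem_tubeN hδ₀ 0
  obtain ⟨U₀, X₀, Y₀, h0U, h0f, hX₀, hY₀⟩ := h0
  have hf10 : f1 (0, 0) = 0 := by
    have := X_s h0f h0U
    rw [hX₀] at this
    simpa using this.symm
  have hf20 : f2 (0, 0) = 0 := by
    have := Y_s h0f h0U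
    rw [hY₀] at this
    simpa using this.symm
  have hb0 : b (0, 0) = 1 := by
    have := det_curl h0f h0U
    rw [hd1 _ h00 (0, 1), hd2 _ h00 (1, 0), hX₀, hY₀] at this
    simpa [det] using this
  have hbc : ContinuousAt b (0, 0) := by
    have m0 : ((0, 0) : ℝ × ℝ) ∈ Metric.ball (0 : ℝ × ℝ) δ₀ := Metric.mem_ball_self hδ₀
    have c1 : ContinuousAt (fderiv ℝ f1) (0, 0) := ((hsf1 _ m0).fderiv_right (m := 0) (by simp)).continuousAt
    have c2 : ContinuousAt (fderiv ℝ f2) (0, 0) := ((hsf2 _ m0).fderiv_right (m := 0) (by simp)).continuousAt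
    exact (c1.clm_apply continuousAt_const).sub (c2.clm_apply continuousAt_const)
  obtain ⟨δ₁, hδ₁, hbpos⟩ : ∃ δ₁ > 0, ∀ z ∈ Metric.ball (0 : ℝ × ℝ) δ₁, 0 < b z := by
    have := hbc.eventually (lt_mem_nhds (show (0:ℝ) < b (0, 0) by rw [hb0]; norm_num))
    rw [Metric.eventually_nhds_iff_ball] at this
    exact this
  set δ := min δ₀ δ₁ with hδdef
  have hδ : 0 < δ := lt_min hδ₀ hδ₁
  have hBO : tubeN δ ⊆ tubeN δ₀ := fun p hp => by
    have h1 : ‖p.2‖ < δ := hp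
    exact lt_of_lt_of_le h1 (min_le_left _ _)
  have hroot : ∀ p ∈ tubeN δ, Real.sqrt (fP Gc p * fR Gc p - fQ Gc p ^ 2) * b p.2 = 1 := by
    intro p hp
    obtain ⟨D, h1, h2⟩ := hdet p (hBO hp)
    have hbp : 0 < b p.2 := hbpos _ (by
      rw [mem_ball_zero_iff]
      exact lt_of_lt_of_le hp (min_le_right _ _))
    have hDpos : 0 < D := by
      by_contra hneg
      have : D * b p.2 ≤ 0 := mul_nonpos_of_nonpos_of_nonneg (not_lt.1 hneg) hbp.le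
      linarith
    rw [h2, Real.sqrt_sq hDpos.le, h1]
  -- cutoff
  let χ2 : ContDiffBump (0 : ℝ × ℝ) := ⟨δ / 2, 3 * δ / 4, by positivity, by linarith⟩
  set χ : T3 → ℝ := fun p => χ2 p.2 with hχdef
  have hχs : ContDiff ℝ ∞ χ := χ2.contDiff.comp contDiff_snd
  have hχp : ∀ p : T3, χ (p.1 + ℓ, p.2) = χ p := fun p => rfl
  have hχ0 : ∀ p, 0 ≤ χ p := fun p => χ2.nonneg
  have hχ1 : ∀ p, χ p ≤ 1 := fun p => χ2.le_one
  have hχsupp : tsupport χ ⊆ tubeN δ := by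
    have hsub : tsupport χ ⊆ {p : T3 | ‖p.2‖ ≤ 3 * δ / 4} := by
      apply closure_minimal _ (isClosed_le (by fun_prop) continuous_const)
      intro p hp
      have hp' : p.2 ∈ Function.support χ2 := hp
      rw [ContDiffBump.support_eq, mem_ball_zero_iff] at hp'
      exact hp'.le
    refine hsub.trans fun p hp => ?_
    have hp' : ‖p.2‖ ≤ 3 * δ / 4 := hp
    show ‖p.2‖ < δ
    linarith
  have hχB : ∀ p, χ p ≠ 0 → p ∈ tubeN δ := fun p hp => hχsupp (subset_tsupport _ hp)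
  have hχ2supp : tsupport (χ2 : ℝ × ℝ → ℝ) ⊆ Metric.ball (0 : ℝ × ℝ) δ₀ := by
    rw [χ2.tsupport_eq]
    exact Metric.closedBall_subset_ball (by
      have : δ ≤ δ₀ := min_le_left _ _
      show 3 * δ / 4 < δ₀
      linarith)
  have hUB : tubeN (δ / 2) ⊆ tubeN δ := fun p hp => by
    have h1 : ‖p.2‖ < δ / 2 := hp
    show ‖p.2‖ < δ
    linarith
  have hU2 : ∀ p ∈ tubeN (δ / 2), p.2 ∈ Metric.ball (0 : ℝ × ℝ) (δ / 2) := fun p hp => by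
    rw [mem_ball_zero_iff]; exact hp
  have hχU : ∀ p ∈ tubeN (δ / 2), χ p = 1 := by
    intro p hp
    exact χ2.one_of_mem_closedBall (Metric.ball_subset_closedBall (hU2 p hp))
  have hf1U : ∀ z ∈ Metric.ball (0 : ℝ × ℝ) (δ / 2), (fun z => χ2 z * f1 z) =ᶠ[𝓝 z] f1 := by
    intro z hz
    filter_upwards [Metric.isOpen_ball.mem_nhds hz] with w hw
    rw [χ2.one_of_mem_closedBall (Metric.ball_subset_closedBall hw), one_mul]
  have hf2U : ∀ z ∈ Metric.ball (0 : ℝ × ℝ) (δ / 2), (fun z => χ2 z * f2 z) =ᶠ[𝓝 z] f2 := by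
    intro z hz
    filter_upwards [Metric.isOpen_ball.mem_nhds hz] with w hw
    rw [χ2.one_of_mem_closedBall (Metric.ball_subset_closedBall hw), one_mul]
  have hBopen := isOpen_tubeN δ
  have sP : ContDiffOn ℝ ∞ (fun p => Real.sqrt (fP Gc p)) (tubeN δ) := fun p hp =>
    ((hG dx dx p (hBO hp)).sqrt (hP p (hBO hp)).ne').contDiffWithinAt
  have sP0 : ∀ p ∈ tubeN δ, Real.sqrt (fP Gc p) ≠ 0 := fun p hp =>
    (Real.sqrt_pos.2 (hP p (hBO hp))).ne'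
  have sQ : ContDiffOn ℝ ∞ (fQ Gc) (tubeN δ) := fun p hp => (hG dx dy p (hBO hp)).contDiffWithinAt
  have sD : ContDiffOn ℝ ∞ (fun p => Real.sqrt (fP Gc p * fR Gc p - fQ Gc p ^ 2)) (tubeN δ) := fun p hp =>
    ((((hG dx dx p (hBO hp)).mul (hG dy dy p (hBO hp))).sub ((hG dx dy p (hBO hp)).pow 2)).sqrt
      (hD p (hBO hp)).ne').contDiffWithinAt
  have m00 : ((0, 0) : ℝ × ℝ) ∈ Metric.ball (0 : ℝ × ℝ) (δ / 2) := Metric.mem_ball_self (by linarith)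
  -- periodicity
  have pP : ∀ p ∈ tubeN δ, fP Gc (p.1 + ℓ, p.2) = fP Gc p := fun p hp => hGp p (hBO hp) _ _
  have pQ : ∀ p ∈ tubeN δ, fQ Gc (p.1 + ℓ, p.2) = fQ Gc p := fun p hp => hGp p (hBO hp) _ _
  have pR : ∀ p ∈ tubeN δ, fR Gc (p.1 + ℓ, p.2) = fR Gc p := fun p hp => hGp p (hBO hp) _ _
  have hperx : ∀ u : T3 → ℝ, (∀ p ∈ tubeN δ, u (p.1 + ℓ, p.2) = u p) → PerI ℓ (fun p => χ p * u p) := by
    intro u hu p
    show χ (p.1 + ℓ, p.2) * u (p.1 + ℓ, p.2) = χ p * u p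
    rw [hχp]
    by_cases hp : p ∈ tubeN δ
    · rw [hu p hp]
    · have : χ p = 0 := by
        by_contra hne
        exact hp (hχB p hne)
      rw [this, zero_mul, zero_mul]
  have hperx' : ∀ u : T3 → ℝ, (∀ p ∈ tubeN δ, u (p.1 + ℓ, p.2) = u p) →
      PerI ℓ (fun p => χ p * u p + (1 - χ p)) := by
    intro u hu p
    have h1 := hperx u hu p
    simp only at h1
    simp only
    rw [h1, hχp]
  let τ : Tube :=
    { a := fun p => χ p * Real.sqrt (fP Gc p) + (1 - χ p)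
      c := fun p => χ p * (fQ Gc p / Real.sqrt (fP Gc p))
      d := fun p => χ p * (Real.sqrt (fP Gc p * fR Gc p - fQ Gc p ^ 2) / Real.sqrt (fP Gc p)) + (1 - χ p)
      ρ := fun p => χ p * ρ₀ p + (1 - χ p)
      f₁ := fun z => χ2 z * f1 z
      f₂ := fun z => χ2 z * f2 z
      smooth_a := (ext_smooth hBopen hχs hχsupp sP).add (contDiff_const.sub hχs)
      smooth_c := ext_smooth hBopen hχs hχsupp (sQ.div sP sP0)
      smooth_d := (ext_smooth hBopen hχs hχsupp (sD.div sP sP0)).add (contDiff_const.sub hχs)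
      smooth_ρ := (ext_smooth hBopen hχs hχsupp (hρ.mono hBO)).add (contDiff_const.sub hχs)
      smooth_f₁ := ext_smooth Metric.isOpen_ball χ2.contDiff hχ2supp
        (fun z hz => (hsf1 z hz).contDiffWithinAt)
      smooth_f₂ := ext_smooth Metric.isOpen_ball χ2.contDiff hχ2supp
        (fun z hz => (hsf2 z hz).contDiffWithinAt)
      a_pos := fun p => pos_mix (hχ0 p) (hχ1 p) (fun h => Real.sqrt_pos.2 (hP p (hBO (hχB p h))))
      d_pos := fun p => pos_mix (hχ0 p) (hχ1 p) (fun h =>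
        div_pos (Real.sqrt_pos.2 (hD p (hBO (hχB p h)))) (Real.sqrt_pos.2 (hP p (hBO (hχB p h)))))
      ρ_pos := fun p => pos_mix (hχ0 p) (hχ1 p) (fun h => hρpos p (hBO (hχB p h)))
      f₁_zero := by rw [hf10, mul_zero]
      f₂_zero := by rw [hf20, mul_zero]
      curl_zero := by
        rw [(hf1U _ m00).fderiv_eq, (hf2U _ m00).fderiv_eq]
        exact hb0 }
  have hτa : ∀ p ∈ tubeN (δ / 2), τ.a p = Real.sqrt (fP Gc p) := fun p hp => by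
    show χ p * Real.sqrt (fP Gc p) + (1 - χ p) = _
    rw [hχU p hp]; ring
  have hτc : ∀ p ∈ tubeN (δ / 2), τ.c p = fQ Gc p / Real.sqrt (fP Gc p) := fun p hp => by
    show χ p * (fQ Gc p / Real.sqrt (fP Gc p)) = _
    rw [hχU p hp]; ring
  have hτd : ∀ p ∈ tubeN (δ / 2),
      τ.d p = Real.sqrt (fP Gc p * fR Gc p - fQ Gc p ^ 2) / Real.sqrt (fP Gc p) :=
    fun p hp => by
      show χ p * (Real.sqrt (fP Gc p * fR Gc p - fQ Gc p ^ 2) / Real.sqrt (fP Gc p)) + (1 - χ p) = _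
      rw [hχU p hp]; ring
  have hτf1 : ∀ p ∈ tubeN (δ / 2), τ.f₁ p.2 = g1 Gc p := fun p hp => by
    rw [hc1 p (hBO (hUB hp))]
    exact (hf1U p.2 (hU2 p hp)).self_of_nhds
  have hτf2 : ∀ p ∈ tubeN (δ / 2), τ.f₂ p.2 = g2 Gc p := fun p hp => by
    rw [hc2 p (hBO (hUB hp))]
    exact (hf2U p.2 (hU2 p hp)).self_of_nhds
  refine ⟨τ, δ / 2, by linarith, by
    have : δ ≤ δ₀ := min_le_left _ _
    linarith, ⟨?_, ?_, ?_, ?_⟩, ?_, ?_, ?_⟩
  · exact hperx' (fun p => Real.sqrt (fP Gc p)) (fun p hp => by simp only [pP p hp])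
  · exact hperx (fun p => fQ Gc p / Real.sqrt (fP Gc p)) (fun p hp => by simp only [pP p hp, pQ p hp])
  · exact hperx' (fun p => Real.sqrt (fP Gc p * fR Gc p - fQ Gc p ^ 2) / Real.sqrt (fP Gc p))
      (fun p hp => by simp only [pP p hp, pQ p hp, pR p hp])
  · exact hperx' ρ₀ (fun p hp => hρp p (hBO hp))
  · intro p hp
    rw [hτa p hp, hτd p hp]
    have e1 : fderiv ℝ τ.f₁ p.2 = fderiv ℝ f1 p.2 := (hf1U p.2 (hU2 p hp)).fderiv_eq
    have e2 : fderiv ℝ τ.f₂ p.2 = fderiv ℝ f2 p.2 := (hf2U p.2 (hU2 p hp)).fderiv_eq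
    rw [e1, e2]
    have h1 := hroot p (hUB hp)
    have h2 := sP0 p (hUB hp)
    have h3 : Real.sqrt (fP Gc p) *
        (Real.sqrt (fP Gc p * fR Gc p - fQ Gc p ^ 2) / Real.sqrt (fP Gc p)) =
          Real.sqrt (fP Gc p * fR Gc p - fQ Gc p ^ 2) := by field_simp
    rw [h3]; exact h1
  · intro p hp
    show χ p * ρ₀ p + (1 - χ p) = ρ₀ p
    rw [hχU p hp]; ring
  · intro p hp ξ η
    obtain ⟨V, X, Y, hpV, h⟩ := hfr p (hBO (hUB hp))
    rw [G_eq h hpV]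
    have sp : ∀ (ζ : T3 →L[ℝ] ℝ) (v1 v2 v3 : ℝ), ζ (v1, v2, v3) =
        v1 * ζ (1, 0, 0) + v2 * ζ (0, 1, 0) + v3 * ζ (0, 0, 1) := by
      intro ζ v1 v2 v3
      have e : ((v1, v2, v3) : T3) = v1 • ((1, 0, 0) : T3) + v2 • ((0, 1, 0) : T3) + v3 • ((0, 0, 1) : T3) := by
        ext <;> simp
      rw [e]
      simp only [map_add, map_smul, smul_eq_mul]
    have hPp := hP p (hBO (hUB hp))
    have hDp := hD p (hBO (hUB hp))
    have r1 : Real.sqrt (fP Gc p) ^ 2 = fP Gc p := Real.sq_sqrt hPp.le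
    have r2 : Real.sqrt (fP Gc p * fR Gc p - fQ Gc p ^ 2) ^ 2 = fP Gc p * fR Gc p - fQ Gc p ^ 2 :=
      Real.sq_sqrt hDp.le
    have r3 := sP0 p (hUB hp)
    have e1 : τ.a p ^ 2 = fP Gc p := by rw [hτa p hp, r1]
    have e2 : τ.a p * τ.c p = fQ Gc p := by rw [hτa p hp, hτc p hp]; field_simp
    have e3 : τ.c p ^ 2 + τ.d p ^ 2 = fR Gc p := by
      rw [hτc p hp, hτd p hp, div_pow, div_pow, r1, r2]
      field_simp; ring
    show _ = ξ (τ.a p * τ.f₁ p.2 + τ.c p * τ.f₂ p.2, τ.a p, τ.c p) *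
      η (τ.a p * τ.f₁ p.2 + τ.c p * τ.f₂ p.2, τ.a p, τ.c p) +
      ξ (τ.d p * τ.f₂ p.2, 0, τ.d p) * η (τ.d p * τ.f₂ p.2, 0, τ.d p)
    rw [sp ξ (τ.a p * τ.f₁ p.2 + τ.c p * τ.f₂ p.2) (τ.a p) (τ.c p),
      sp η (τ.a p * τ.f₁ p.2 + τ.c p * τ.f₂ p.2) (τ.a p) (τ.c p),
      sp ξ (τ.d p * τ.f₂ p.2) 0 (τ.d p), sp η (τ.d p * τ.f₂ p.2) 0 (τ.d p),
      hτf1 p hp, hτf2 p hp, ← e1, ← e2, ← e3]
    ring

/-- periodic tube data from periodic frames -/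
theorem exists_tube_per {d₀ ℓ : ℝ} (hd₀ : 0 < d₀) (_hℓ : 0 < ℓ)
    (Gc : T3 → (T3 →L[ℝ] ℝ) → (T3 →L[ℝ] ℝ) → ℝ)
    (hGper : ∀ p ∈ tubeN d₀, ∀ ξ η : T3 →L[ℝ] ℝ, Gc (p.1 + ℓ, p.2) ξ η = Gc p ξ η)
    (hfr : ∀ p₀ ∈ tubeN d₀, ∃ U X Y, p₀ ∈ U ∧ U ⊆ tubeN d₀ ∧ EFrame Gc X Y U)
    (h0 : ∃ U X Y, ((0, 0, 0) : T3) ∈ U ∧ U ⊆ tubeN d₀ ∧ EFrame Gc X Y U ∧ X (0, 0, 0) = (0, 1, 0) ∧
      Y (0, 0, 0) = (0, 0, 1))
    {ρ₀ : T3 → ℝ} (hρ : ContDiffOn ℝ ∞ ρ₀ (tubeN d₀)) (hρpos : ∀ p ∈ tubeN d₀, 0 < ρ₀ p)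
    (hρper : ∀ p ∈ tubeN d₀, ρ₀ (p.1 + ℓ, p.2) = ρ₀ p) :
    ∃ (τ : Tube) (d : ℝ), 0 < d ∧ d ≤ d₀ ∧ τ.Per ℓ ∧ τ.Good (tubeN d) ∧
      (∀ p ∈ tubeN d, τ.ρ p = ρ₀ p) ∧
      ∀ p ∈ tubeN d, ∀ ξ η : T3 →L[ℝ] ℝ,
        Gc p ξ η = ξ (τ.X p) * η (τ.X p) + ξ (τ.Y p) * η (τ.Y p) := by
  refine exists_tube_per' hd₀ Gc (fun p hp => ?_) hGper ?_ hρ hρpos hρper
  · obtain ⟨U, X, Y, h1, -, h2⟩ := hfr p hp
    exact ⟨U, X, Y, h1, h2⟩
  · obtain ⟨U, X, Y, h1, -, h2⟩ := h0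
    exact ⟨U, X, Y, h1, h2⟩

end Pool.Agent.SRGap
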