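import Pool.Agent.Work.MP_188050_an.Final
import Pool.Agent.Work.MP_188050_an.PerQM
import Pool.Agent.Work.MP_188050_an.PerTube
import Pool.Agent.Work.MP_188050_an.KImm
import Pool.Agent.Work.MP_188050_an.KGlue
import Pool.Agent.Work.MP_188050_an.KDens
import Pool.Agent.Work.MP_188050_an.KInj
import Pool.Agent.Work.MP_188050_an.KTrans
import Pool.Agent.Work.MP_188050_an.KTransfer
import Pool.Agent.Work.MP_188050_an.KTop
import Pool.Agent.Work.MP_188050_an.KShort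
import Pool.Agent.Work.MP_188050_an.KLoc
import Pool.Agent.Work.MP_188050_an.KCommon
import Pool.Agent.Work.MP_188050_an.KBochner

/-!
# Cell SR, second theorem: arithmetic progressions in the spectrum, and the flow is periodic
-/

open Set MeasureTheory Filter Topology VectorField
open scoped Manifold ContDiff

namespace Pool.Agent.SRGap

section M
variable {M : Type*} [TopologicalSpace M] [ChartedSpace E3 M]

theorem IsImm.mono {F : T3 → M} {O O' : Set T3} (hF : IsImm F O) (hO' : IsOpen O') (h : O' ⊆ O) :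
    IsImm F O' := by
  refine ⟨hO', fun p hp => ?_⟩
  obtain ⟨e, he, hpe, heO, heF⟩ := hF.chart p (h hp)
  refine ⟨(e.symm.restrOpen O' hO').symm, ⟨?_, ?_⟩, ?_, ?_, ?_⟩
  · refine he.smooth.mono ?_
    intro x hx
    have : x ∈ (e.symm.restrOpen O' hO').target := hx
    have h2 := (e.symm.restrOpen O' hO').map_target this
    have h3 : (e.symm.restrOpen O' hO').symm x = e x := rfl
    have h4 : (e.symm.restrOpen O' hO').source = e.symm.source ∩ O' := OpenPartialHomeomorph.restrOpen_source _ _ _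
    rw [h4, h3] at h2
    have h5 := (e.symm.restrOpen O' hO').right_inv this
    rw [← h5, h3]
    exact e.map_target h2.1
  · refine he.smooth_symm.mono ?_
    intro x hx
    have h4 : (e.symm.restrOpen O' hO').source = e.symm.source ∩ O' := OpenPartialHomeomorph.restrOpen_source _ _ _
    have : x ∈ (e.symm.restrOpen O' hO').source := hx
    rw [h4] at this
    exact this.1
  · have h4 : (e.symm.restrOpen O' hO').source = e.symm.source ∩ O' := OpenPartialHomeomorph.restrOpen_source _ _ _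
    show p ∈ (e.symm.restrOpen O' hO').source
    rw [h4]
    exact ⟨hpe, hp⟩
  · have h4 : (e.symm.restrOpen O' hO').source = e.symm.source ∩ O' := OpenPartialHomeomorph.restrOpen_source _ _ _
    intro x hx
    have : x ∈ (e.symm.restrOpen O' hO').source := hx
    rw [h4] at this
    exact this.2
  · intro q
    exact heF q

theorem IsImm.continuousAt {F : T3 → M} {O : Set T3} (hF : IsImm F O) {p : T3} (hp : p ∈ O) :
    ContinuousAt F p := by
  obtain ⟨e, he, hpe, -, heF⟩ := hF.chart p hp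
  have h : F = e.symm := by funext q; exact (heF q).symm
  rw [h]
  exact e.continuousAt_symm hpe

theorem tubeN_mono {d d' : ℝ} (h : d' ≤ d) : tubeN d' ⊆ tubeN d := fun _ hp => lt_of_lt_of_le hp h

theorem zero_mem_tubeN {d : ℝ} (hd : 0 < d) : ((0, 0, 0) : T3) ∈ tubeN d := axis_mem_tubeN hd 0

variable [IsManifold (𝓡 3) ∞ M]

theorem progression [T2Space M] [CompactSpace M] [MeasurableSpace M] [BorelSpace M]
    (S : ContactSR M) (μ : Measure M) [IsFiniteMeasure μ] (hμ : SmoothPositive μ) (Fl : ℝ → M → M)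
    (hFl : ContMDiff (𝓘(ℝ, ℝ).prod (𝓡 3)) (𝓡 3) ∞ (fun p : ℝ × M => Fl p.1 p.2))
    (hFl0 : ∀ x, Fl 0 x = x) (hFlZ : ∀ x, IsMIntegralCurve (fun t => Fl t x) S.Z)
    (hFla : ∀ s t x, Fl (s + t) x = Fl s (Fl t x)) {x₀ : M} {ℓ : ℝ} (hℓ : 0 < ℓ)
    (hper : ∀ᶠ x in 𝓝 x₀, Fl ℓ x = x) (hinj : InjOn (fun s => Fl s x₀) (Ico 0 ℓ)) :
    ∃ β : ℝ, ∀ ε > 0, ∃ Λ : ℝ, ∀ n : ℤ, Λ ≤ n → ∃ s ∈ spec S μ, |s - (2 * Real.pi * n + β) / ℓ| < ε := by
  obtain ⟨U₀, hxU, X, Y, hXY⟩ := S.frame x₀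
  obtain ⟨F, d₀, hd₀, hF, hF0, heq, hZ, hX, hY⟩ := exists_imm S.Z Fl hFl hFl0 hFlZ hFla x₀ X Y
    (hXY.indep x₀ hxU)
  -- periodicity
  have h1 : ∀ᶠ z : ℝ × ℝ in 𝓝 (0, 0), Fl ℓ (F (0, z)) = F (0, z) := by
    have hc : ContinuousAt (fun z : ℝ × ℝ => F (0, z)) (0, 0) := by
      have h2 := hF.continuousAt (zero_mem_tubeN hd₀)
      have h3 : ContinuousAt (fun z : ℝ × ℝ => ((0, z) : T3)) (0, 0) := by fun_prop
      exact ContinuousAt.comp (f := fun z : ℝ × ℝ => ((0, z) : T3)) (g := F) (x := (0, 0)) h2 h3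
    have h4 : Tendsto (fun z : ℝ × ℝ => F (0, z)) (𝓝 (0, 0)) (𝓝 x₀) := by
      have := hc.tendsto
      rwa [hF0] at this
    exact h4.eventually hper
  obtain ⟨r, hr, hball⟩ := Metric.eventually_nhds_iff.1 h1
  set d₁ := min d₀ r with hd₁
  have hd₁0 : 0 < d₁ := lt_min hd₀ hr
  have hF1 : IsImm F (tubeN d₁) := hF.mono (isOpen_tubeN _) (tubeN_mono (min_le_left _ _))
  have heq0 : ∀ (s : ℝ) (z : ℝ × ℝ), F (s, z) = Fl s (F (0, z)) := by
    intro s z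
    have := heq s (0, z)
    simpa using this
  have hFper : ∀ p ∈ tubeN d₁, F (p.1 + ℓ, p.2) = F p := by
    rintro ⟨s, z⟩ hp
    have hz : dist z (0, 0) < r := by
      have : ‖z‖ < d₁ := hp
      have h0 : ((0 : ℝ), (0 : ℝ)) = 0 := rfl
      rw [h0, dist_zero_right]
      exact lt_of_lt_of_le this (min_le_right _ _)
    show F (s + ℓ, z) = F (s, z)
    rw [heq0 (s + ℓ) z, heq0 s z, hFla, hball hz]
  have hinj1 : InjOn (fun s : ℝ => F (s, 0, 0)) (Ico 0 ℓ) := by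
    have : (fun s : ℝ => F (s, 0, 0)) = fun s => Fl s x₀ := by
      funext s
      rw [heq0 s (0, 0), hF0]
    rw [this]
    exact hinj
  obtain ⟨d₂, hd₂, hd₂1, hmod⟩ := inj_mod hF1 hd₁0 hℓ hFper hinj1
  have hF2 : IsImm F (tubeN d₂) := hF1.mono (isOpen_tubeN _) (tubeN_mono hd₂1)
  have hFper2 : ∀ p ∈ tubeN d₂, F (p.1 + ℓ, p.2) = F p := fun p hp => hFper p (tubeN_mono hd₂1 hp)
  have h20 : tubeN d₂ ⊆ tubeN d₀ := tubeN_mono (hd₂1.trans (min_le_left _ _))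
  have hZ2 : ∀ p ∈ tubeN d₂, mfderiv 𝓘(ℝ, T3) (𝓡 3) F p ((1, 0, 0) : T3) = S.Z (F p) :=
    fun p hp => hZ p (h20 hp)
  obtain ⟨ρ₀, hρs, hρpos, hρd⟩ := imm_density hμ hF2
  have hρper := density_per hF2 hFper2 hρs.continuousOn hρd
  have hGper : ∀ p ∈ tubeN d₂, ∀ ξ η : T3 →L[ℝ] ℝ, iG S F (p.1 + ℓ, p.2) ξ η = iG S F p ξ η := by
    intro p hp ξ η
    refine iG_per S hF2 hp hp ?_ ξ η
    filter_upwards [(isOpen_tubeN d₂).mem_nhds hp] with q hq
    exact hFper2 q hq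
  obtain ⟨τ, d, hd, hd2, hτ, hgood, hτρ, hG⟩ := exists_tube_per hd₂ hℓ (iG S F) hGper
    (imm_frames S hF2 hZ2) (imm_frames0 S hF2 hZ2 (zero_mem_tubeN hd₂) hXY (by rw [hF0]; exact hxU) hX hY)
    hρs hρpos hρper
  have hF3 : IsImm F (tubeN d) := hF2.mono (isOpen_tubeN _) (tubeN_mono hd2)
  have hdens : IsDens μ F (tubeN d) τ.ρ := by
    intro e he het heF g hg hg0
    rw [hρd e he (het.trans (tubeN_mono hd2)) heF g hg hg0]
    refine setIntegral_congr_fun e.open_target.measurableSet fun p hp => ?_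
    simp only [hτρ p (het hp)]
  obtain ⟨β, ε, hε, hεd, hQ⟩ := per_quasimode τ hd hℓ hτ hgood
  obtain ⟨θ, hθc, hθ0, hθs, hθp, hmem⟩ := per_mem S μ hF3 hd hℓ
    (fun p hp => hFper2 p (tubeN_mono hd2 hp))
    (fun p hp p' hp' h => hmod p (tubeN_mono hd2 hp) p' (tubeN_mono hd2 hp') h) τ hτ hdens hG
  refine ⟨β, fun κ hκ => ?_⟩
  obtain ⟨Λ, hΛ⟩ := hQ θ hθc hθ0 hθs hθp κ hκ
  refine ⟨(Λ * ℓ - β) / (2 * Real.pi), fun n hn => ?_⟩
  have hn' : Λ ≤ (2 * Real.pi * n + β) / ℓ := by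
    rw [le_div_iff₀ hℓ]
    rw [div_le_iff₀ (by positivity)] at hn
    linarith
  obtain ⟨v, hv, hvp, hv0, hpos, hlt⟩ := hΛ n hn'
  set t := (2 * Real.pi * n + β) / ℓ with ht
  by_contra hcon
  push Not at hcon
  obtain ⟨q, hq, hq1, hq2⟩ := hmem ε hεd v hv hvp hv0 t
  have hgap := gap_ineq S μ t (2 * κ) (by positivity)
    (fun s hs hs' => absurd (hcon s hs') (not_le.2 (by linarith))) q hq
  rw [← hq1] at hpos
  rw [← hq1, ← hq2] at hlt
  have h2 : (2 * κ / 2 * ‖q.1‖) ^ 2 ≤ ‖q.2 - t • q.1‖ ^ 2 :=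
    pow_le_pow_left₀ (by positivity) hgap 2
  have h3 : (2 * κ / 2 * ‖q.1‖) ^ 2 = κ ^ 2 * ‖q.1‖ ^ 2 := by ring
  linarith

omit [TopologicalSpace M] [ChartedSpace E3 M] [IsManifold (𝓡 3) ∞ M] in
theorem Fl_int {Fl : ℝ → M → M} (hFl0 : ∀ x, Fl 0 x = x)
    (hFla : ∀ s t x, Fl (s + t) x = Fl s (Fl t x)) {x : M} {P : ℝ} (h : Fl P x = x) (k : ℕ) :
    Fl (k * P) x = x := by
  induction k with
  | zero => simp [hFl0]
  | succ k ih =>
    have : ((k + 1 : ℕ) : ℝ) * P = k * P + P := by push_cast; ring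
    rw [this, hFla, h, ih]

/-- all minimal periods on a dense set divide `2 π / c` -/
theorem period_mem {B : Set ℝ} {a c β P : ℝ} (hc : 0 < c) (hP : 0 < P)
    (hspec : ∀ ε > 0, ∃ Λ : ℝ, ∀ s ∈ B, Λ ≤ s → ∃ n : ℤ, |s - (a + n * c)| < ε)
    (hprog : ∀ ε > 0, ∃ Λ : ℝ, ∀ n : ℤ, Λ ≤ n → ∃ s ∈ B, |s - (2 * Real.pi * n + β) / P| < ε) :
    ∃ k : ℕ, 2 * Real.pi / c = k * P := by
  have key : ∀ ε > 0, ∃ k : ℤ, |2 * Real.pi / P / c - k| < ε := by
    intro ε hε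
    have hε' : 0 < ε * c / 4 := by positivity
    obtain ⟨Λ, hΛ⟩ := hspec _ hε'
    obtain ⟨Λ', hΛ'⟩ := hprog _ hε'
    obtain ⟨n, hn⟩ := exists_int_gt (max Λ' (((Λ + ε * c / 4) * P - β) / (2 * Real.pi)))
    have hn1 : Λ' ≤ n := (le_max_left _ _).trans hn.le
    have hn2 : ((Λ + ε * c / 4) * P - β) / (2 * Real.pi) ≤ n := (le_max_right _ _).trans hn.le
    have hlow : ∀ m : ℤ, n ≤ m → Λ + ε * c / 4 ≤ (2 * Real.pi * m + β) / P := by
      intro m hm
      rw [le_div_iff₀ hP]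
      rw [div_le_iff₀ (by positivity)] at hn2
      have : (n : ℝ) ≤ m := by exact_mod_cast hm
      nlinarith [Real.pi_pos]
    have hap : ∀ m : ℤ, n ≤ m → ∃ j : ℤ, |(2 * Real.pi * m + β) / P - (a + j * c)| < ε * c / 2 := by
      intro m hm
      obtain ⟨s, hs, hs1⟩ := hΛ' m (hn1.trans (by exact_mod_cast hm))
      have h1 := hlow m hm
      rw [abs_lt] at hs1
      obtain ⟨j, hj⟩ := hΛ s hs (by linarith)
      rw [abs_lt] at hj
      exact ⟨j, by rw [abs_lt]; constructor <;> linarith⟩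
    obtain ⟨j, hj⟩ := hap n le_rfl
    obtain ⟨j', hj'⟩ := hap (n + 1) (by omega)
    refine ⟨j' - j, ?_⟩
    have e : 2 * Real.pi / P / c - ((j' - j : ℤ) : ℝ) =
        (((2 * Real.pi * ((n + 1 : ℤ) : ℝ) + β) / P - (a + j' * c)) -
          ((2 * Real.pi * n + β) / P - (a + j * c))) / c := by
      push_cast
      field_simp
      ring
    rw [e, abs_div, abs_of_pos hc, div_lt_iff₀ hc]
    rw [abs_lt] at hj hj' ⊢
    constructor <;> linarith
  have hx : 2 * Real.pi / P / c = round (2 * Real.pi / P / c) := by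
    by_contra hne
    have hpos : 0 < |2 * Real.pi / P / c - round (2 * Real.pi / P / c)| :=
      abs_pos.2 (sub_ne_zero.2 hne)
    obtain ⟨k, hk⟩ := key _ hpos
    exact absurd (round_le (2 * Real.pi / P / c) k) (not_le.2 hk)
  set k := round (2 * Real.pi / P / c) with hk
  have hk0 : 0 < (k : ℝ) := by
    rw [← hx]
    positivity
  have hk0' : 0 ≤ k := by
    have : 0 < k := by exact_mod_cast hk0
    exact this.le
  refine ⟨k.toNat, ?_⟩
  have h2 : ((k.toNat : ℕ) : ℝ) = (k : ℝ) := by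
    have := Int.toNat_of_nonneg hk0'
    exact_mod_cast congrArg (fun z : ℤ => (z : ℝ)) this
  rw [h2, ← hx]
  field_simp

/-- if the periods of the nearby points approximate `P`, then `P` is a period of all nearby points -/
theorem loc_period [T2Space M] (S : ContactSR M) (Fl : ℝ → M → M)
    (hFl : ContMDiff (𝓘(ℝ, ℝ).prod (𝓡 3)) (𝓡 3) ∞ (fun p : ℝ × M => Fl p.1 p.2))
    (hFl0 : ∀ x, Fl 0 x = x) (hFlZ : ∀ x, IsMIntegralCurve (fun t => Fl t x) S.Z)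
    (hFla : ∀ s t x, Fl (s + t) x = Fl s (Fl t x)) {x₀ : M} {P : ℝ} (hP : 0 < P) (hPx : Fl P x₀ = x₀)
    (hnear : ∀ ε > 0, ∀ᶠ x in 𝓝 x₀, ∃ T : ℝ, |T - P| < ε ∧ Fl T x = x) :
    ∀ᶠ x in 𝓝 x₀, Fl P x = x := by
  obtain ⟨U₀, hxU, X, Y, hXY⟩ := S.frame x₀
  obtain ⟨F, d₀, hd₀, hF, hF0, heq, hZ, hX, hY⟩ := exists_imm S.Z Fl hFl hFl0 hFlZ hFla x₀ X Y
    (hXY.indep x₀ hxU)
  obtain ⟨τ, U, hU, hUO, hseg, -, -, hG⟩ := exists_tube (isOpen_tubeN d₀) (iG S F)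
    (imm_frames S hF hZ) hP (fun s _ => axis_mem_tubeN hd₀ s)
    (imm_frames0 S hF hZ (zero_mem_tubeN hd₀) hXY (by rw [hF0]; exact hxU) hX hY)
    (ρ₀ := fun _ => 1) contDiffOn_const (fun _ _ => one_pos)
  have hFP : F (P, 0, 0) = F (0, 0, 0) := by
    have := heq P (0, 0, 0)
    simp only [zero_add] at this
    rw [this, hF0, hPx]
  have hloc := loc_const S hF Fl hFla hFl0 heq τ hU hUO hG (hseg 0 ⟨le_rfl, hP.le⟩)
    (hseg P ⟨hP.le, le_rfl⟩) hFP (by rw [hF0]; exact hnear)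
  rwa [hF0] at hloc

theorem main2 [T2Space M] [CompactSpace M] [MeasurableSpace M] [BorelSpace M]
    (S : ContactSR M) (μ : Measure M) [IsFiniteMeasure μ] (hμ : SmoothPositive μ) {a c : ℝ}
    (hc : 0 < c)
    (hspec : ∀ ε > 0, ∃ Λ : ℝ, ∀ s ∈ spec S μ, Λ ≤ s → ∃ n : ℤ, |s - (a + n * c)| < ε)
    (γ : ℝ → M) (hγ : IsMIntegralCurve γ S.Z) : γ (2 * Real.pi / c) = γ 0 := by
  obtain ⟨Fl, hFl, hFl0, hFlZ, hFla⟩ := exists_flow S.Z S.smooth_Z
  have hγFl : γ = fun t => Fl t (γ 0) := curve_eq S.smooth_Z hγ (hFlZ (γ 0)) (by simp [hFl0])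
  have hcont : Continuous fun p : ℝ × M => Fl p.1 p.2 := hFl.continuous
  -- all orbits are closed with a bounded period
  have hbd : ∀ x : M, ∃ T : ℝ, 0 < T ∧ T ≤ 4 * Real.pi / c ∧ Fl T x = x := by
    intro x
    by_contra hcon
    push Not at hcon
    obtain ⟨Λ, hΛ⟩ := main S μ hμ (fun t => Fl t x) (hFlZ x) (c := c / 2) (by positivity)
      (fun T hT hTc => by
        simp only [hFl0]
        refine hcon T hT ?_
        rw [le_div_iff₀ hc]
        linarith)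
    obtain ⟨Λ', hΛ'⟩ := hspec (c / 8) (by positivity)
    obtain ⟨N, hN⟩ := exists_int_gt ((max Λ (Λ' + c / 4) - a) / c)
    have hN' : max Λ (Λ' + c / 4) - a < N * c := by rwa [div_lt_iff₀ hc] at hN
    have h1 : Λ ≤ a + (N + 1 / 2) * c := by
      have := le_max_left Λ (Λ' + c / 4)
      nlinarith
    have h2 : Λ' + c / 4 ≤ a + (N + 1 / 2) * c := by
      have := le_max_right Λ (Λ' + c / 4)
      nlinarith
    obtain ⟨s, hs, hst⟩ := hΛ _ h1
    rw [abs_lt] at hst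
    obtain ⟨n, hn⟩ := hΛ' s hs (by linarith)
    rw [abs_lt] at hn
    rcases le_or_gt n N with h | h
    · have : (n : ℝ) ≤ N := by exact_mod_cast h
      nlinarith
    · have : (N : ℝ) + 1 ≤ n := by exact_mod_cast h
      nlinarith
  obtain ⟨m, hm, hshort⟩ := no_short S.Z Fl hFl hFl0 hFlZ hFla (fun x₀ => by
    obtain ⟨U, hxU, X, Y, hXY⟩ := S.frame x₀
    exact ⟨X, Y, hXY.indep x₀ hxU⟩)
  -- the set of periodic points is dense
  have hdense : Dense {x : M | Fl (2 * Real.pi / c) x = x} := by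
    rw [dense_iff_inter_open]
    intro W hW hne
    obtain ⟨x₀, hx₀W, P, hP, hPx, hinj, hnear⟩ := good_point Fl hcont hFl0 hFla hm hshort hbd hW hne
    have hloc := loc_period S Fl hFl hFl0 hFlZ hFla hP hPx hnear
    obtain ⟨β, hβ⟩ := progression S μ hμ Fl hFl hFl0 hFlZ hFla hP hloc hinj
    obtain ⟨k, hk⟩ := period_mem hc hP hspec hβ
    refine ⟨x₀, hx₀W, ?_⟩
    show Fl (2 * Real.pi / c) x₀ = x₀
    rw [hk]
    exact Fl_int hFl0 hFla hPx k
  have hclosed : IsClosed {x : M | Fl (2 * Real.pi / c) x = x} := by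
    refine isClosed_eq ?_ continuous_id
    exact hcont.comp (Continuous.prodMk_right _)
  have huniv : γ 0 ∈ {x : M | Fl (2 * Real.pi / c) x = x} := by
    rw [hclosed.closure_eq.symm, hdense.closure_eq]
    trivial
  have h1 : Fl (2 * Real.pi / c) (γ 0) = γ 0 := huniv
  rw [hγFl]
  simp only
  rw [h1, hFl0]

/-- spectral gaps force the Reeb flow to be periodic -/
theorem besse [T2Space M] [CompactSpace M] [ConnectedSpace M] [MeasurableSpace M] [BorelSpace M]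
    (S : ContactSR M) (μ : Measure M) [IsFiniteMeasure μ] (hμ : SmoothPositive μ) {c : ℝ} (hc : 0 < c)
    (hgap : ∀ Λ : ℝ, ∃ t ≥ Λ, ∀ s ∈ spec S μ, c / 2 ≤ |s - t|) :
    ∃ T : ℝ, 0 < T ∧ T ≤ 2 * Real.pi / c ∧ ∀ γ : ℝ → M, IsMIntegralCurve γ S.Z → γ T = γ 0 := by
  have hall : ∀ γ : ℝ → M, IsMIntegralCurve γ S.Z →
      ∃ T : ℝ, 0 < T ∧ T ≤ 2 * Real.pi / c ∧ γ T = γ 0 := by
    intro γ hγ
    by_contra hcon
    push Not at hcon
    obtain ⟨Λ, hΛ⟩ := main S μ hμ γ hγ hc fun T hT hTc => hcon T hT ((le_div_iff₀ hc).2 hTc)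
    obtain ⟨t, ht, hs⟩ := hgap Λ
    obtain ⟨s, hsS, hst⟩ := hΛ t ht
    exact absurd (hs s hsS) (not_le.2 hst)
  obtain ⟨Fl, hFl, hFl0, hFlZ, hFla⟩ := exists_flow S.Z S.smooth_Z
  have hcont : Continuous fun p : ℝ × M => Fl p.1 p.2 := hFl.continuous
  have hbd : ∀ x : M, ∃ T : ℝ, 0 < T ∧ T ≤ 2 * Real.pi / c ∧ Fl T x = x := by
    intro x
    obtain ⟨T, hT, hT2, hT3⟩ := hall _ (hFlZ x)
    simp only [hFl0] at hT3
    exact ⟨T, hT, hT2, hT3⟩
  obtain ⟨m, hm, hshort⟩ := no_short S.Z Fl hFl hFl0 hFlZ hFla (fun x₀ => by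
    obtain ⟨U, hxU, X, Y, hXY⟩ := S.frame x₀
    exact ⟨X, Y, hXY.indep x₀ hxU⟩)
  have hcom := common_of_local Fl hcont hFl0 hFla hm hshort (fun x₀ => by
    obtain ⟨P, hP, hPx, hnear⟩ := near_multiple Fl hcont hFl0 hFla hm hshort hbd x₀
    exact ⟨P, hP, loc_period S Fl hFl hFl0 hFlZ hFla hP hPx hnear⟩)
  obtain ⟨T, hT, hTC, hTx⟩ := common_le Fl hFl hFl0 hFla hm hshort hbd hcom
  refine ⟨T, hT, hTC, fun γ hγ => ?_⟩
  have hγFl : γ = fun t => Fl t (γ 0) := curve_eq S.smooth_Z hγ (hFlZ (γ 0)) (by simp [hFl0])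
  rw [hγFl]
  simp only
  rw [hTx, hFl0]

end M

end Pool.Agent.SRGap
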