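import Pool.Agent.Work.MP_188050_an.Conv
import Pool.Agent.Work.MP_188050_an.KFinal

/-!
# The second theorem in terms of integral curves
-/

open Set MeasureTheory Filter Topology VectorField
open scoped Manifold ContDiff

namespace Pool.Agent.SRGap

variable {M : Type*} [TopologicalSpace M] [ChartedSpace E3 M] [IsManifold (𝓡 3) ∞ M]

/-- arithmetic progressions in the spectrum, in terms of integral curves -/
theorem progression_curves [T2Space M] [CompactSpace M] [MeasurableSpace M] [BorelSpace M]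
    (S : ContactSR M) (μ : Measure M) [IsFiniteMeasure μ] (hμ : SmoothPositive μ) {W : Set M}
    (hW : IsOpen W) {ℓ : ℝ} (hℓ : 0 < ℓ)
    (hper : ∀ γ : ℝ → M, IsMIntegralCurve γ S.Z → γ 0 ∈ W → γ ℓ = γ 0)
    (γ₀ : ℝ → M) (hγ₀ : IsMIntegralCurve γ₀ S.Z) (h0 : γ₀ 0 ∈ W)
    (hmin : ∀ T : ℝ, 0 < T → T < ℓ → γ₀ T ≠ γ₀ 0) :
    ∃ β : ℝ, ∀ ε > 0, ∃ Λ : ℝ, ∀ n : ℤ, Λ ≤ n → ∃ s ∈ spec S μ, |s - (2 * Real.pi * n + β) / ℓ| < ε := by
  obtain ⟨Fl, hFl, hFl0, hFlZ, hFla⟩ := exists_flow S.Z S.smooth_Z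
  have hγFl : γ₀ = fun t => Fl t (γ₀ 0) := curve_eq S.smooth_Z hγ₀ (hFlZ (γ₀ 0)) (by simp [hFl0])
  refine progression S μ hμ Fl hFl hFl0 hFlZ hFla (x₀ := γ₀ 0) hℓ ?_ ?_
  · filter_upwards [hW.mem_nhds h0] with x hx
    have := hper (fun t => Fl t x) (hFlZ x) (by simpa [hFl0] using hx)
    simpa [hFl0] using this
  · have key : ∀ a b : ℝ, a ∈ Ico 0 ℓ → b ∈ Ico 0 ℓ → a < b → Fl a (γ₀ 0) ≠ Fl b (γ₀ 0) := by
      intro a b ha hb hab heq
      refine hmin (b - a) (by linarith) (by linarith [ha.1, hb.2]) ?_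
      rw [hγFl]
      simp only
      have h1 : Fl (b - a) (γ₀ 0) = Fl (-a) (Fl b (γ₀ 0)) := by
        rw [← hFla]; congr 1; ring
      rw [h1, ← heq, ← hFla, neg_add_cancel]
    intro a ha b hb heq
    rcases lt_trichotomy a b with h | h | h
    · exact absurd heq (key a b ha hb h)
    · exact h
    · exact absurd heq.symm (key b a hb ha h)

end Pool.Agent.SRGap
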