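import Pool.Agent.Work.MP_188050_an.BDefs

/-!
# No short periods: the flow of a nowhere vanishing vector field on a compact manifold
-/

open Set MeasureTheory Filter Topology VectorField
open scoped Manifold ContDiff

namespace Pool.Agent.SRGap

section M
variable {M : Type*} [TopologicalSpace M] [ChartedSpace E3 M] [IsManifold (𝓡 3) ∞ M]

theorem no_short_loc (Z : (x : M) → TangentSpace (𝓡 3) x)
    (Fl : ℝ → M → M) (hFl : ContMDiff (𝓘(ℝ, ℝ).prod (𝓡 3)) (𝓡 3) ∞ (fun p : ℝ × M => Fl p.1 p.2))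
    (hFl0 : ∀ x, Fl 0 x = x) (hFlZ : ∀ x, IsMIntegralCurve (fun t => Fl t x) Z) (x₀ : M)
    (hne : Z x₀ ≠ 0) :
    ∃ V ∈ 𝓝 x₀, ∃ δ : ℝ, 0 < δ ∧ ∀ x ∈ V, ∀ T : ℝ, 0 < T → T < δ → Fl T x ≠ x := by
  set c := chartAt E3 x₀ with hc
  have hx₀ : x₀ ∈ c.source := mem_chart_source E3 x₀
  have hcy : c x₀ ∈ c.target := c.map_source hx₀
  have hsc : ContMDiffOn (𝓡 3) 𝓘(ℝ, E3) ∞ c c.source := contMDiffOn_chart
  have hcs : ContMDiffOn 𝓘(ℝ, E3) (𝓡 3) ∞ c.symm c.target := contMDiffOn_chart_symm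
  have hmd : c.MDifferentiable (𝓡 3) (𝓡 3) := mdifferentiable_chart x₀
  set G : ℝ × E3 → E3 := fun p => c (Fl p.1 (c.symm p.2)) with hG
  -- smoothness of `G` at `(0, c x₀)`
  have hGs : ContDiffAt ℝ ∞ G (0, c x₀) := by
    rw [← contMDiffAt_iff_contDiffAt]
    have h1 : ContMDiffAt 𝓘(ℝ, E3) (𝓡 3) ∞ c.symm (c x₀) :=
      hcs.contMDiffAt (c.open_target.mem_nhds hcy)
    have h2 : ContMDiffAt 𝓘(ℝ, ℝ × E3) (𝓡 3) ∞ (fun p : ℝ × E3 => c.symm p.2) (0, c x₀) :=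
      ContMDiffAt.comp (0, c x₀) (g := c.symm) (f := fun p : ℝ × E3 => p.2) h1
        contDiff_snd.contMDiff.contMDiffAt
    have h3 : ContMDiffAt 𝓘(ℝ, ℝ × E3) 𝓘(ℝ, ℝ) ∞ (fun p : ℝ × E3 => p.1) (0, c x₀) :=
      contDiff_fst.contMDiff.contMDiffAt
    have h4 := h3.prodMk h2
    have h5 : ContMDiffAt 𝓘(ℝ, ℝ × E3) (𝓡 3) ∞ (fun p : ℝ × E3 => Fl p.1 (c.symm p.2)) (0, c x₀) :=
      ContMDiffAt.comp (0, c x₀) (g := fun p : ℝ × M => Fl p.1 p.2) hFl.contMDiffAt h4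
    have h6 : Fl 0 (c.symm (c x₀)) = x₀ := by rw [hFl0, c.left_inv hx₀]
    refine ContMDiffAt.comp (0, c x₀) (g := c) ?_ h5
    show ContMDiffAt (𝓡 3) 𝓘(ℝ, E3) ∞ c (Fl 0 (c.symm (c x₀)))
    rw [h6]
    exact hsc.contMDiffAt (c.open_source.mem_nhds hx₀)
  -- its time derivative
  set v₀ : E3 := fderiv ℝ G (0, c x₀) (1, 0) with hv₀
  have hv : v₀ ≠ 0 := by
    have h1 : HasMFDerivAt 𝓘(ℝ, ℝ) (𝓡 3) (fun t => Fl t x₀) 0
      ((1 : ℝ →L[ℝ] ℝ).smulRight (Z (Fl 0 x₀))) := hFlZ x₀ 0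
    have hx0' : Fl 0 x₀ ∈ c.source := by rw [hFl0]; exact hx₀
    have h2 : HasMFDerivAt (𝓡 3) 𝓘(ℝ, E3) c (Fl 0 x₀) (mfderiv (𝓡 3) 𝓘(ℝ, E3) c (Fl 0 x₀)) :=
      (hmd.mdifferentiableAt hx0').hasMFDerivAt
    have h3 := HasMFDerivAt.comp (0 : ℝ) h2 h1
    obtain ⟨L, hL⟩ : ∃ L : ℝ →L[ℝ] E3, L = (mfderiv (𝓡 3) 𝓘(ℝ, E3) c (Fl 0 x₀)).comp
      ((1 : ℝ →L[ℝ] ℝ).smulRight (Z (Fl 0 x₀))) := ⟨_, rfl⟩
    have h4 : HasFDerivAt (fun t : ℝ => (c (Fl t x₀) : E3)) L 0 := by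
      rw [hL]
      exact h3.hasFDerivAt
    have h4' : HasDerivAt (fun t : ℝ => (c (Fl t x₀) : E3)) (L 1) 0 := h4.hasDerivAt
    have h5 : HasFDerivAt G (fderiv ℝ G (0, c x₀)) (0, c x₀) :=
      (hGs.differentiableAt (by simp)).hasFDerivAt
    have h6 : HasDerivAt (fun t : ℝ => G (t, c x₀)) v₀ 0 := by
      have h6' : HasDerivAt (fun t : ℝ => ((t, c x₀) : ℝ × E3)) (1, 0) 0 :=
        (hasDerivAt_id (0 : ℝ)).prodMk (hasDerivAt_const _ _)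
      exact HasFDerivAt.comp_hasDerivAt (0 : ℝ) (l := G) (f := fun t : ℝ => (t, c x₀)) h5 h6'
    have h7 : (fun t : ℝ => G (t, c x₀)) = fun t : ℝ => c (Fl t x₀) := by
      funext t
      simp only [hG]
      rw [c.left_inv hx₀]
    rw [h7] at h6
    have h8 := h6.unique h4'
    have h9 : v₀ = mfderiv (𝓡 3) 𝓘(ℝ, E3) c (Fl 0 x₀) (Z (Fl 0 x₀)) := by
      rw [h8, hL]
      show (mfderiv (𝓡 3) 𝓘(ℝ, E3) c (Fl 0 x₀)) ((1 : ℝ) • (Z (Fl 0 x₀))) = _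
      rw [one_smul]
    have hinj : Function.Injective (mfderiv (𝓡 3) 𝓘(ℝ, E3) c (Fl 0 x₀)) :=
      hmd.mfderiv_injective hx0'
    have hne' : Z (Fl 0 x₀) ≠ 0 := by rw [hFl0]; exact hne
    rw [h9]
    intro h
    exact hne' (hinj (h.trans (map_zero _).symm))
  -- positivity near `(0, c x₀)`
  have hfc : ContinuousAt (fun p => fderiv ℝ G p (1, 0)) (0, c x₀) := by
    have h1 : ContDiffAt ℝ 0 (fderiv ℝ G) (0, c x₀) := hGs.fderiv_right (by simp)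
    exact h1.continuousAt.clm_apply continuousAt_const
  have hpos0 : 0 < inner ℝ v₀ (fderiv ℝ G (0, c x₀) (1, 0)) := by
    rw [← hv₀]
    exact real_inner_self_pos.2 hv
  have hev1 : ∀ᶠ p in 𝓝 ((0 : ℝ), c x₀), 0 < inner ℝ v₀ (fderiv ℝ G p (1, 0)) := by
    have h1 : ContinuousAt (fun p => (inner ℝ v₀ (fderiv ℝ G p (1, 0)) : ℝ)) (0, c x₀) :=
      ContinuousAt.inner continuousAt_const hfc
    exact h1.eventually (lt_mem_nhds hpos0)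
  have hev2 : ∀ᶠ p in 𝓝 ((0 : ℝ), c x₀), DifferentiableAt ℝ G p := by
    have h1 : ContDiffAt ℝ 1 G (0, c x₀) := hGs.of_le (by simp)
    filter_upwards [h1.eventually (by simp)] with p hp
    exact hp.differentiableAt (by simp)
  have hev := hev1.and hev2
  rw [nhds_prod_eq, Filter.eventually_prod_iff] at hev
  obtain ⟨pa, hpa, pb, hpb, hab⟩ := hev
  obtain ⟨δ, hδ, hδa⟩ := Metric.eventually_nhds_iff.1 hpa
  refine ⟨c.source ∩ c ⁻¹' {y | pb y}, ?_, δ, hδ, ?_⟩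
  · refine inter_mem (c.open_source.mem_nhds hx₀) ?_
    exact (c.continuousAt hx₀).eventually hpb
  · rintro x ⟨hx, hxb⟩ T hT hTδ hfix
    have hd : ∀ t ∈ Icc 0 T, HasDerivAt (fun t : ℝ => (inner ℝ v₀ (G (t, c x)) : ℝ))
        (inner ℝ v₀ (fderiv ℝ G (t, c x) (1, 0))) t := by
      intro t ht
      have h1 := (hab (hδa (y := t) (by
        rw [Real.dist_eq, sub_zero, abs_of_nonneg ht.1]; exact ht.2.trans_lt hTδ)) hxb).2
      have h2 : HasDerivAt (fun t : ℝ => ((t, c x) : ℝ × E3)) (1, 0) t :=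
        (hasDerivAt_id t).prodMk (hasDerivAt_const _ _)
      have h3 : HasDerivAt (fun t : ℝ => G (t, c x)) (fderiv ℝ G (t, c x) (1, 0)) t :=
        HasFDerivAt.comp_hasDerivAt t (l := G) (f := fun t : ℝ => (t, c x)) h1.hasFDerivAt h2
      have h4 := (innerSL ℝ v₀).hasFDerivAt.comp_hasDerivAt t h3
      exact h4
    have hmono : StrictMonoOn (fun t : ℝ => (inner ℝ v₀ (G (t, c x)) : ℝ)) (Icc 0 T) := by
      refine strictMonoOn_of_deriv_pos (convex_Icc 0 T)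
        (fun t ht => (hd t ht).continuousAt.continuousWithinAt) ?_
      intro t ht
      rw [interior_Icc] at ht
      have ht' : t ∈ Icc 0 T := Ioo_subset_Icc_self ht
      rw [(hd t ht').deriv]
      exact (hab (hδa (y := t) (by
        rw [Real.dist_eq, sub_zero, abs_of_nonneg ht'.1]; exact ht'.2.trans_lt hTδ)) hxb).1
    have h1 := hmono (left_mem_Icc.2 hT.le) (right_mem_Icc.2 hT.le) hT
    simp only [hG, c.left_inv hx, hFl0, hfix, lt_self_iff_false] at h1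

/-! ### K10 -/

theorem no_short [T2Space M] [CompactSpace M] (Z : (x : M) → TangentSpace (𝓡 3) x)
    (Fl : ℝ → M → M) (hFl : ContMDiff (𝓘(ℝ, ℝ).prod (𝓡 3)) (𝓡 3) ∞ (fun p : ℝ × M => Fl p.1 p.2))
    (hFl0 : ∀ x, Fl 0 x = x) (hFlZ : ∀ x, IsMIntegralCurve (fun t => Fl t x) Z)
    (hFla : ∀ s t x, Fl (s + t) x = Fl s (Fl t x))
    (hind : ∀ x₀ : M, ∃ X Y : (x : M) → TangentSpace (𝓡 3) x,
      LinearIndependent ℝ ![Z x₀, X x₀, Y x₀]) :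
    ∃ m : ℝ, 0 < m ∧ ∀ (x : M) (T : ℝ), 0 < T → T < m → Fl T x ≠ x := by
  have hne : ∀ x₀, Z x₀ ≠ 0 := by
    intro x₀
    obtain ⟨X, Y, h⟩ := hind x₀
    exact h.ne_zero 0
  choose V hV δ hδ h using fun x₀ => no_short_loc Z Fl hFl hFl0 hFlZ x₀ (hne x₀)
  obtain ⟨t, -, ht⟩ := isCompact_univ.elim_nhds_subcover V (fun x _ => hV x)
  obtain ⟨m, hm, hmt⟩ : ∃ m : ℝ, 0 < m ∧ ∀ y ∈ t, m ≤ δ y := by
    rcases t.eq_empty_or_nonempty with h | h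
    · exact ⟨1, one_pos, fun y hy => absurd hy (by simp [h])⟩
    · obtain ⟨y₀, hy₀, hmin⟩ := t.exists_min_image δ h
      exact ⟨δ y₀, hδ y₀, hmin⟩
  refine ⟨m, hm, fun x T hT hTm => ?_⟩
  have hx := ht (mem_univ x)
  simp only [mem_iUnion, exists_prop] at hx
  obtain ⟨y, hy, hxy⟩ := hx
  exact h y x hxy T hT (hTm.trans_le (hmt y hy))

end M

end Pool.Agent.SRGap
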