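import Mathlib

/-!
# MP_188050_an, cell SR, module 8: one variable
-/

open Set MeasureTheory Filter Topology
open scoped ContDiff

namespace Pool.Agent.SRGap

namespace OneD

/-- extension by zero of a smooth function which vanishes off a compact subset of `(0, ℓ)` -/
theorem ext_zero {ℓ : ℝ} {f : ℝ → ℝ} (hf : ContDiff ℝ ∞ f) {S : Set ℝ} (hS : IsCompact S)
    (hSI : S ⊆ Ioo 0 ℓ) (h0 : ∀ s ∈ Ioo 0 ℓ, s ∉ S → f s = 0) :
    ContDiff ℝ ∞ (indicator (Ioo 0 ℓ) f) ∧ HasCompactSupport (indicator (Ioo 0 ℓ) f) ∧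
      tsupport (indicator (Ioo 0 ℓ) f) ⊆ Ioo 0 ℓ ∧
      deriv (indicator (Ioo 0 ℓ) f) = indicator (Ioo 0 ℓ) (deriv f) := by
  have hin : ∀ s ∈ Ioo 0 ℓ, indicator (Ioo 0 ℓ) f =ᶠ[𝓝 s] f := by
    intro s hs
    filter_upwards [isOpen_Ioo.mem_nhds hs] with t ht
    simp [indicator_of_mem ht]
  have hz : ∀ s, s ∉ S → indicator (Ioo 0 ℓ) f s = 0 := by
    intro s hs
    by_cases h : s ∈ Ioo 0 ℓ
    · rw [indicator_of_mem h]; exact h0 s h hs
    · exact indicator_of_notMem h _
  have hout : ∀ s, s ∉ S → indicator (Ioo 0 ℓ) f =ᶠ[𝓝 s] fun _ => 0 := by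
    intro s hs
    filter_upwards [hS.isClosed.isOpen_compl.mem_nhds hs] with t ht
    exact hz t ht
  have hts : tsupport (indicator (Ioo 0 ℓ) f) ⊆ S := by
    refine closure_minimal ?_ hS.isClosed
    intro s hs
    by_contra h
    exact hs (hz s h)
  refine ⟨?_, ?_, hts.trans hSI, ?_⟩
  · rw [contDiff_iff_contDiffAt]
    intro s
    by_cases h : s ∈ S
    · exact (hf.contDiffAt).congr_of_eventuallyEq (hin s (hSI h))
    · exact contDiffAt_const.congr_of_eventuallyEq (hout s h)
  · exact hS.of_isClosed_subset (isClosed_tsupport _) hts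
  · ext s
    by_cases h : s ∈ Ioo 0 ℓ
    · rw [indicator_of_mem h, (hin s h).deriv_eq]
    · rw [indicator_of_notMem h, (hout s (fun hs => h (hSI hs))).deriv_eq]
      simp

/-- the cutoff of the identity -/
noncomputable def cut (t : ℝ) : ℝ := t * Real.smoothTransition (t - 1)

theorem cut_contDiff : ContDiff ℝ ∞ cut := by
  have h : ContDiff ℝ ∞ (fun t : ℝ => Real.smoothTransition (t - 1)) :=
    Real.smoothTransition.contDiff.comp (contDiff_id.sub contDiff_const)
  exact contDiff_id.mul h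

theorem cut_zero {t : ℝ} (ht : t ≤ 1) : cut t = 0 := by
  simp [cut, Real.smoothTransition.zero_of_nonpos (show t - 1 ≤ 0 by linarith)]

theorem cut_eq {t : ℝ} (ht : 2 ≤ t) : cut t = t := by
  simp [cut, Real.smoothTransition.one_of_one_le (show 1 ≤ t - 1 by linarith)]

theorem cut_abs (t : ℝ) : |cut t| ≤ |t| := by
  unfold cut
  rw [abs_mul, abs_of_nonneg (Real.smoothTransition.nonneg _)]
  exact mul_le_of_le_one_right (abs_nonneg _) (Real.smoothTransition.le_one _)

theorem deriv_cut_eq {t : ℝ} (ht : 2 < t) : deriv cut t = 1 := by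
  have h : cut =ᶠ[𝓝 t] id := by
    filter_upwards [isOpen_Ioi.mem_nhds (show t ∈ Ioi (2 : ℝ) from ht)] with s hs
    exact cut_eq (le_of_lt hs)
  rw [h.deriv_eq]
  simp

theorem deriv_cut_zero {t : ℝ} (ht : t < 1) : deriv cut t = 0 := by
  have h : cut =ᶠ[𝓝 t] fun _ => 0 := by
    filter_upwards [isOpen_Iio.mem_nhds (show t ∈ Iio (1 : ℝ) from ht)] with s hs
    exact cut_zero (le_of_lt hs)
  rw [h.deriv_eq]
  simp

theorem deriv_cut_bound : ∃ M : ℝ, 1 ≤ M ∧ ∀ t, |deriv cut t| ≤ M := by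
  have hc : Continuous (deriv cut) := cut_contDiff.continuous_deriv (by simp)
  obtain ⟨M, hM⟩ := (isCompact_Icc (a := (0 : ℝ)) (b := 3)).exists_bound_of_continuousOn hc.continuousOn
  refine ⟨max M 1, le_max_right _ _, fun t => ?_⟩
  by_cases h1 : t < 1
  · rw [deriv_cut_zero h1]; simp
  · by_cases h2 : 2 < t
    · rw [deriv_cut_eq h2]; simp
    · exact (hM t ⟨by linarith, by linarith⟩).trans (le_max_left _ _)

/-- the approximating functions -/
noncomputable def base (ℓ : ℝ) (n : ℕ) (s : ℝ) : ℝ := cut ((n : ℝ) * Real.sin (Real.pi / ℓ * s)) / n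

theorem base_contDiff (ℓ : ℝ) (n : ℕ) : ContDiff ℝ ∞ (base ℓ n) := by
  have h : ContDiff ℝ ∞ (fun s : ℝ => (n : ℝ) * Real.sin (Real.pi / ℓ * s)) :=
    contDiff_const.mul (Real.contDiff_sin.comp (contDiff_const.mul contDiff_id))
  exact (cut_contDiff.comp h).div_const _

theorem base_deriv (ℓ : ℝ) {n : ℕ} (hn : 1 ≤ n) (s : ℝ) :
    deriv (base ℓ n) s = deriv cut ((n : ℝ) * Real.sin (Real.pi / ℓ * s)) *
      (Real.cos (Real.pi / ℓ * s) * (Real.pi / ℓ)) := by
  have hn0 : (n : ℝ) ≠ 0 := by positivity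
  have h1 : HasDerivAt (fun s : ℝ => Real.pi / ℓ * s) (Real.pi / ℓ) s := by
    simpa using (hasDerivAt_id s).const_mul (Real.pi / ℓ)
  have h2 : HasDerivAt (fun s : ℝ => (n : ℝ) * Real.sin (Real.pi / ℓ * s))
      ((n : ℝ) * (Real.cos (Real.pi / ℓ * s) * (Real.pi / ℓ))) s := (h1.sin).const_mul _
  have h3 : HasDerivAt cut (deriv cut ((n : ℝ) * Real.sin (Real.pi / ℓ * s)))
      ((n : ℝ) * Real.sin (Real.pi / ℓ * s)) :=
    ((cut_contDiff.differentiable (by simp)) _).hasDerivAt
  have h4 := (h3.comp s h2).div_const (n : ℝ)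
  have h5 : HasDerivAt (base ℓ n) (deriv cut ((n : ℝ) * Real.sin (Real.pi / ℓ * s)) *
      ((n : ℝ) * (Real.cos (Real.pi / ℓ * s) * (Real.pi / ℓ))) / n) s := h4
  rw [h5.deriv]
  field_simp

end OneD

open OneD in
theorem oned {ℓ κ : ℝ} (hℓ : 0 < ℓ) (hκ : Real.pi / ℓ < κ) :
    ∃ ψ : ℝ → ℝ, ContDiff ℝ ∞ ψ ∧ HasCompactSupport ψ ∧ tsupport ψ ⊆ Ioo 0 ℓ ∧
      0 < ∫ s, ψ s ^ 2 ∧ ∫ s, deriv ψ s ^ 2 < κ ^ 2 * ∫ s, ψ s ^ 2 := by
  have hpi := Real.pi_pos
  have hc : 0 < Real.pi / ℓ := div_pos hpi hℓ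
  set c := Real.pi / ℓ with hcdef
  have hcl : c * ℓ = Real.pi := by rw [hcdef]; field_simp
  -- positivity of the sine
  have hsin : ∀ s ∈ Ioo 0 ℓ, 0 < Real.sin (c * s) := by
    intro s hs
    apply Real.sin_pos_of_pos_of_lt_pi (mul_pos hc hs.1)
    calc c * s < c * ℓ := mul_lt_mul_of_pos_left hs.2 hc
      _ = Real.pi := hcl
  obtain ⟨M, hM1, hM⟩ := deriv_cut_bound
  -- the functions
  have hprop : ∀ n : ℕ, 1 ≤ n → ContDiff ℝ ∞ (indicator (Ioo 0 ℓ) (base ℓ n)) ∧
      HasCompactSupport (indicator (Ioo 0 ℓ) (base ℓ n)) ∧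
      tsupport (indicator (Ioo 0 ℓ) (base ℓ n)) ⊆ Ioo 0 ℓ ∧
      deriv (indicator (Ioo 0 ℓ) (base ℓ n)) = indicator (Ioo 0 ℓ) (deriv (base ℓ n)) := by
    intro n hn
    have hn0 : (0 : ℝ) < n := by positivity
    apply ext_zero (base_contDiff ℓ n) (S := Icc 0 ℓ ∩ {s | 1 ≤ (n : ℝ) * Real.sin (c * s)})
    · apply isCompact_Icc.inter_right
      exact isClosed_le continuous_const (by fun_prop)
    · rintro s ⟨hs, hs1⟩
      simp only [mem_ofPred_eq] at hs1
      refine ⟨lt_of_le_of_ne hs.1 ?_, lt_of_le_of_ne hs.2 ?_⟩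
      · rintro rfl
        simp at hs1
        linarith
      · intro h
        rw [h, hcl] at hs1
        simp at hs1
        linarith
    · intro s hs hs2
      have : ¬ (1 ≤ (n : ℝ) * Real.sin (c * s)) := fun h => hs2 ⟨Ioo_subset_Icc_self hs, h⟩
      simp only [base]
      rw [← hcdef, cut_zero (not_le.mp this).le]
      simp
  -- limits of the integrals
  have lim1 : Tendsto (fun n : ℕ => ∫ s in Ioo 0 ℓ, (base ℓ n s) ^ 2) atTop
      (𝓝 (∫ s in Ioo 0 ℓ, Real.sin (c * s) ^ 2)) := by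
    apply tendsto_integral_filter_of_dominated_convergence (fun _ => (1 : ℝ))
    · exact Eventually.of_forall fun n =>
        (((base_contDiff ℓ n).continuous.pow 2).aestronglyMeasurable)
    · filter_upwards [eventually_ge_atTop 1] with n hn
      refine Eventually.of_forall fun s => ?_
      have hn0 : (0 : ℝ) < n := by positivity
      have h1 : |base ℓ n s| ≤ 1 := by
        unfold base
        rw [abs_div, abs_of_pos hn0, div_le_one hn0]
        refine (cut_abs _).trans ?_
        rw [abs_mul, abs_of_pos hn0]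
        exact mul_le_of_le_one_right hn0.le (Real.abs_sin_le_one _)
      rw [Real.norm_eq_abs, abs_pow]
      exact pow_le_one₀ (abs_nonneg _) h1
    · simp
    · refine (ae_restrict_iff' measurableSet_Ioo).mpr (Eventually.of_forall fun s hs => ?_)
      apply tendsto_const_nhds.congr'
      have hs0 := hsin s hs
      obtain ⟨N, hN⟩ := exists_nat_gt (2 / Real.sin (c * s))
      filter_upwards [eventually_ge_atTop (max N 1)] with n hn
      have hn1 : 1 ≤ n := (le_max_right _ _).trans hn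
      have hnN : (N : ℝ) ≤ n := by exact_mod_cast (le_max_left _ _).trans hn
      have hn0 : (0 : ℝ) < n := by positivity
      have h2 : 2 ≤ (n : ℝ) * Real.sin (c * s) := by
        rw [div_lt_iff₀ hs0] at hN
        nlinarith
      simp only [base]
      rw [← hcdef, cut_eq h2]
      field_simp
  have lim2 : Tendsto (fun n : ℕ => ∫ s in Ioo 0 ℓ, (deriv (base ℓ n) s) ^ 2) atTop
      (𝓝 (∫ s in Ioo 0 ℓ, c ^ 2 * Real.cos (c * s) ^ 2)) := by
    apply tendsto_integral_filter_of_dominated_convergence (fun _ => (M * c) ^ 2)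
    · exact Eventually.of_forall fun n =>
        ((((base_contDiff ℓ n).continuous_deriv (by simp)).pow 2).aestronglyMeasurable)
    · filter_upwards [eventually_ge_atTop 1] with n hn
      refine Eventually.of_forall fun s => ?_
      have h1 : |deriv (base ℓ n) s| ≤ M * c := by
        rw [base_deriv ℓ hn s, abs_mul, ← hcdef, abs_mul, abs_of_pos hc]
        have h2 := hM ((n : ℝ) * Real.sin (c * s))
        have h3 := Real.abs_cos_le_one (c * s)
        have h4 : |Real.cos (c * s)| * c ≤ c := mul_le_of_le_one_left hc.le h3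
        exact mul_le_mul h2 h4 (by positivity) (by linarith)
      rw [Real.norm_eq_abs, abs_pow]
      exact pow_le_pow_left₀ (abs_nonneg _) h1 2
    · exact integrable_const _
    · refine (ae_restrict_iff' measurableSet_Ioo).mpr (Eventually.of_forall fun s hs => ?_)
      apply tendsto_const_nhds.congr'
      have hs0 := hsin s hs
      obtain ⟨N, hN⟩ := exists_nat_gt (2 / Real.sin (c * s))
      filter_upwards [eventually_ge_atTop (max N 1)] with n hn
      have hn1 : 1 ≤ n := (le_max_right _ _).trans hn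
      have hnN : (N : ℝ) ≤ n := by exact_mod_cast (le_max_left _ _).trans hn
      have h2 : 2 < (n : ℝ) * Real.sin (c * s) := by
        rw [div_lt_iff₀ hs0] at hN
        nlinarith
      rw [base_deriv ℓ hn1 s, ← hcdef, deriv_cut_eq h2]
      ring
  -- the two integrals
  have I1 : ∫ s in Ioo 0 ℓ, Real.sin (c * s) ^ 2 = ℓ / 2 := by
    rw [← integral_Ioc_eq_integral_Ioo, ← intervalIntegral.integral_of_le hℓ.le]
    rw [intervalIntegral.integral_comp_mul_left (fun x => Real.sin x ^ 2) hc.ne', hcl, mul_zero,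
      integral_sin_sq]
    simp only [Real.sin_zero, Real.sin_pi, zero_mul, sub_zero, zero_add, smul_eq_mul]
    rw [← hcl]
    field_simp
  have I2 : ∫ s in Ioo 0 ℓ, c ^ 2 * Real.cos (c * s) ^ 2 = c ^ 2 * (ℓ / 2) := by
    rw [integral_const_mul, ← integral_Ioc_eq_integral_Ioo, ← intervalIntegral.integral_of_le hℓ.le]
    rw [intervalIntegral.integral_comp_mul_left (fun x => Real.cos x ^ 2) hc.ne', hcl, mul_zero,
      integral_cos_sq]
    simp only [Real.sin_zero, Real.sin_pi, mul_zero, sub_zero, zero_add, smul_eq_mul]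
    rw [← hcl]
    field_simp
  rw [I1] at lim1
  rw [I2] at lim2
  have hlt : c ^ 2 * (ℓ / 2) < κ ^ 2 * (ℓ / 2) := by
    have : c ^ 2 < κ ^ 2 := by nlinarith
    exact mul_lt_mul_of_pos_right this (by positivity)
  have e1 : ∀ᶠ n : ℕ in atTop, 0 < ∫ s in Ioo 0 ℓ, (base ℓ n s) ^ 2 :=
    lim1.eventually (lt_mem_nhds (by positivity))
  have e2 : ∀ᶠ n : ℕ in atTop, ∫ s in Ioo 0 ℓ, (deriv (base ℓ n) s) ^ 2 <
      κ ^ 2 * ∫ s in Ioo 0 ℓ, (base ℓ n s) ^ 2 :=
    lim2.eventually_lt (lim1.const_mul (κ ^ 2)) hlt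
  obtain ⟨n, hn1, hn2, hn3⟩ := (e1.and (e2.and (eventually_ge_atTop 1))).exists
  obtain ⟨p1, p2, p3, p4⟩ := hprop n hn3
  have q1 : ∫ s, indicator (Ioo 0 ℓ) (base ℓ n) s ^ 2 = ∫ s in Ioo 0 ℓ, (base ℓ n s) ^ 2 := by
    rw [← integral_indicator measurableSet_Ioo]
    congr 1
    ext s
    by_cases h : s ∈ Ioo 0 ℓ
    · rw [indicator_of_mem h, indicator_of_mem h]
    · rw [indicator_of_notMem h, indicator_of_notMem h]; simp
  have q2 : ∫ s, deriv (indicator (Ioo 0 ℓ) (base ℓ n)) s ^ 2 =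
      ∫ s in Ioo 0 ℓ, (deriv (base ℓ n) s) ^ 2 := by
    rw [p4, ← integral_indicator measurableSet_Ioo]
    congr 1
    ext s
    by_cases h : s ∈ Ioo 0 ℓ
    · rw [indicator_of_mem h, indicator_of_mem h]
    · rw [indicator_of_notMem h, indicator_of_notMem h]; simp
  refine ⟨indicator (Ioo 0 ℓ) (base ℓ n), p1, p2, p3, ?_, ?_⟩
  · rw [q1]; exact hn1
  · rw [q1, q2]; exact hn2

namespace OneD

/-- after polarization -/
theorem weak_deriv {ℓ : ℝ} {N : ℝ → ℝ} (hN : Continuous N)
    (h : ∀ ψ : ℝ → ℝ, ContDiff ℝ ∞ ψ → HasCompactSupport ψ → tsupport ψ ⊆ Ioo 0 ℓ →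
      ∫ s, ψ s * deriv ψ s * N s = 0) {φ : ℝ → ℝ} (hφ : ContDiff ℝ ∞ φ) (hφc : HasCompactSupport φ)
    (hφs : tsupport φ ⊆ Ioo 0 ℓ) (hℓ : 0 < ℓ) : ∫ s, deriv φ s * N s = 0 := by
  have hball : Metric.ball (ℓ / 2) (ℓ / 2) = Ioo 0 ℓ := by
    rw [Real.ball_eq_Ioo]
    congr 1 <;> ring
  obtain ⟨r', hr', hr's⟩ := exists_lt_subset_ball (isClosed_tsupport φ) (hball ▸ hφs)
  set r₁ := max r' (ℓ / 4) with hr₁
  have hr₁0 : 0 < r₁ := lt_of_lt_of_le (by positivity) (le_max_right _ _)
  have hr₁l : r₁ < ℓ / 2 := max_lt hr' (by linarith)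
  set χ : ContDiffBump (ℓ / 2) := ⟨r₁, (r₁ + ℓ / 2) / 2, hr₁0, by linarith⟩ with hχ
  have hχs : ContDiff ℝ ∞ (χ : ℝ → ℝ) := χ.contDiff
  have hχc : HasCompactSupport (χ : ℝ → ℝ) := χ.hasCompactSupport
  have hχt : tsupport (χ : ℝ → ℝ) ⊆ Ioo 0 ℓ := by
    rw [χ.tsupport_eq, ← hball]
    exact Metric.closedBall_subset_ball (show (r₁ + ℓ / 2) / 2 < ℓ / 2 by linarith)
  have hφr : tsupport φ ⊆ Metric.ball (ℓ / 2) r₁ :=
    hr's.trans (Metric.ball_subset_ball (le_max_left _ _))
  have hχ1 : ∀ s ∈ Metric.ball (ℓ / 2) r₁, (χ : ℝ → ℝ) s = 1 := fun s hs =>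
    χ.one_of_mem_closedBall (Metric.ball_subset_closedBall hs)
  have hχd : ∀ s ∈ Metric.ball (ℓ / 2) r₁, deriv (χ : ℝ → ℝ) s = 0 := by
    intro s hs
    have e : (χ : ℝ → ℝ) =ᶠ[𝓝 s] fun _ => 1 := by
      filter_upwards [Metric.isOpen_ball.mem_nhds hs] with t ht
      exact hχ1 t ht
    rw [e.deriv_eq]
    simp
  have hφ0 : ∀ s, s ∉ Metric.ball (ℓ / 2) r₁ → φ s = 0 ∧ deriv φ s = 0 := by
    intro s hs
    have hs' : s ∉ tsupport φ := fun h => hs (hφr h)
    refine ⟨image_eq_zero_of_notMem_tsupport hs', ?_⟩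
    by_contra hne
    exact hs' (support_deriv_subset hne)
  have hd : ∀ {f : ℝ → ℝ}, ContDiff ℝ ∞ f → ∀ s, DifferentiableAt ℝ f s :=
    fun hf s => (hf.differentiable (by simp)) s
  have hdc : ∀ {f : ℝ → ℝ}, ContDiff ℝ ∞ f → Continuous (deriv f) :=
    fun hf => hf.continuous_deriv (by simp)
  have hsum : ContDiff ℝ ∞ (fun s => φ s + χ s) := hφ.add hχs
  have hsumc : HasCompactSupport (fun s => φ s + χ s) := hφc.add hχc
  have hsumt : tsupport (fun s => φ s + χ s) ⊆ Ioo 0 ℓ :=
    (tsupport_add φ χ).trans (union_subset hφs hχt)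
  have A := h _ hsum hsumc hsumt
  have B := h _ hφ hφc hφs
  have C := h _ hχs hχc hχt
  have int : ∀ {f g : ℝ → ℝ}, ContDiff ℝ ∞ f → HasCompactSupport f → Continuous g →
      Integrable (fun s => f s * g s * N s) := by
    intro f g hf hfc hg
    refine ((hf.continuous.mul hg).mul hN).integrable_of_hasCompactSupport ?_
    exact (hfc.mul_right (f' := g)).mul_right (f' := N)
  have iB : Integrable (fun s => φ s * deriv φ s * N s) := int hφ hφc (hdc hφ)
  have iC : Integrable (fun s => χ s * deriv χ s * N s) := int hχs hχc (hdc hχs)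
  have iD : Integrable (fun s => deriv φ s * N s) := by
    refine ((hdc hφ).mul hN).integrable_of_hasCompactSupport ?_
    exact (hφc.deriv).mul_right (f' := N)
  have hpt : ∀ s, (φ s + χ s) * deriv (fun s => φ s + χ s) s * N s =
      φ s * deriv φ s * N s + χ s * deriv χ s * N s + deriv φ s * N s := by
    intro s
    have e : deriv (fun s => φ s + χ s) s = deriv φ s + deriv χ s :=
      deriv_fun_add (hd hφ s) (hd hχs s)
    rw [e]
    by_cases hs : s ∈ Metric.ball (ℓ / 2) r₁
    · rw [hχd s hs, hχ1 s hs]; ring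
    · rw [(hφ0 s hs).1, (hφ0 s hs).2]; ring
  simp_rw [hpt] at A
  have e1 := integral_add (iB.add iC) iD
  have e2 := integral_add iB iC
  simp only [Pi.add_apply] at e1
  rw [e1, e2, B, C] at A
  simpa using A

end OneD

open OneD in
theorem const_of_weak {ℓ : ℝ} {N : ℝ → ℝ} (hN : Continuous N)
    (h : ∀ ψ : ℝ → ℝ, ContDiff ℝ ∞ ψ → HasCompactSupport ψ → tsupport ψ ⊆ Ioo 0 ℓ →
      ∫ s, ψ s * deriv ψ s * N s = 0) : ∃ C : ℝ, ∀ s ∈ Ioo 0 ℓ, N s = C := by
  rcases le_or_gt ℓ 0 with hℓ | hℓ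
  · exact ⟨0, fun s hs => absurd (hs.1.trans hs.2) (by linarith)⟩
  have hw := fun {φ : ℝ → ℝ} (hφ : ContDiff ℝ ∞ φ) (hφc : HasCompactSupport φ)
    (hφs : tsupport φ ⊆ Ioo 0 ℓ) => weak_deriv hN h hφ hφc hφs hℓ
  -- a test function with integral 1
  have hball : Metric.ball (ℓ / 2) (ℓ / 2) = Ioo 0 ℓ := by
    rw [Real.ball_eq_Ioo]
    congr 1 <;> ring
  set b : ContDiffBump (ℓ / 2) := ⟨ℓ / 8, ℓ / 4, by positivity, by linarith⟩ with hb
  have hbpos : 0 < ∫ s, (b : ℝ → ℝ) s := b.integral_pos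
  set m := ∫ s, (b : ℝ → ℝ) s with hm
  have hbs : ContDiff ℝ ∞ (b : ℝ → ℝ) := b.contDiff
  have hbc : HasCompactSupport (b : ℝ → ℝ) := b.hasCompactSupport
  have hbt : tsupport (b : ℝ → ℝ) ⊆ Ioo 0 ℓ := by
    rw [b.tsupport_eq, ← hball]
    exact Metric.closedBall_subset_ball (show ℓ / 4 < ℓ / 2 by linarith)
  have hbi : Integrable (b : ℝ → ℝ) := hbs.continuous.integrable_of_hasCompactSupport hbc
  set C := (∫ s, (b : ℝ → ℝ) s * N s) / m with hC
  have hbNi : Integrable (fun s => (b : ℝ → ℝ) s * N s) :=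
    (hbs.continuous.mul hN).integrable_of_hasCompactSupport (hbc.mul_right (f' := N))
  refine ⟨C, ?_⟩
  have key : ∀ g : ℝ → ℝ, ContDiff ℝ ∞ g → HasCompactSupport g → tsupport g ⊆ Ioo 0 ℓ →
      ∫ s, g s • (N s - C) = 0 := by
    intro g hg hgc hgt
    have hgi : Integrable g := hg.continuous.integrable_of_hasCompactSupport hgc
    -- the primitive
    set q : ℝ → ℝ := fun s => g s - (∫ s, g s) / m * b s with hq
    have hqs : ContDiff ℝ ∞ q := hg.sub (contDiff_const.mul hbs)
    have hqc : HasCompactSupport q := hgc.sub (hbc.mul_left (f := fun _ => (∫ s, g s) / m))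
    have hqt : tsupport q ⊆ Ioo 0 ℓ := by
      refine (tsupport_sub g (fun s => (∫ s, g s) / m * b s)).trans (union_subset hgt ?_)
      refine (closure_mono ?_).trans hbt
      intro s hs
      exact right_ne_zero_of_mul hs
    have hqi : Integrable q := hqs.continuous.integrable_of_hasCompactSupport hqc
    have hq0 : ∫ s, q s = 0 := by
      rw [hq, integral_sub hgi (hbi.const_mul _), integral_const_mul, ← hm]
      field_simp
      ring
    obtain ⟨r', hr', hr's⟩ := exists_lt_subset_ball (isClosed_tsupport q) (hball ▸ hqt)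
    have hqz : ∀ s, s ∉ Metric.ball (ℓ / 2) r' → q s = 0 := fun s hs =>
      image_eq_zero_of_notMem_tsupport fun h' => hs (hr's h')
    set P : ℝ → ℝ := fun s => ∫ x in (0 : ℝ)..s, q x with hP
    have hPd : ∀ s, HasDerivAt P (q s) s := fun s =>
      intervalIntegral.integral_hasDerivAt_right (hqs.continuous.intervalIntegrable _ _)
        (hqs.continuous.stronglyMeasurableAtFilter _ _) hqs.continuous.continuousAt
    have hPdd : deriv P = q := funext fun s => (hPd s).deriv
    have hPs : ContDiff ℝ ∞ P := by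
      rw [contDiff_infty_iff_deriv]
      exact ⟨fun s => (hPd s).differentiableAt, hPdd ▸ hqs⟩
    -- `P` vanishes off the closed ball
    have hPz : ∀ s, s ∉ Metric.closedBall (ℓ / 2) r' → P s = 0 := by
      intro s hs
      rw [Real.closedBall_eq_Icc] at hs
      have hqz' : ∀ s, ¬ (ℓ / 2 - r' < s ∧ s < ℓ / 2 + r') → q s = 0 := by
        intro s hs
        apply hqz
        rw [Real.ball_eq_Ioo]
        exact hs
      by_cases h1 : s < ℓ / 2 - r'
      · -- left
        rw [hP]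
        apply intervalIntegral.integral_zero_ae
        refine Eventually.of_forall fun x hx => ?_
        apply hqz'
        rintro ⟨h2, h3⟩
        rcases le_total 0 s with h4 | h4
        · rw [uIoc_of_le h4] at hx; linarith [hx.2]
        · rw [uIoc_of_ge h4] at hx; linarith [hx.2]
      · have h2 : ℓ / 2 + r' < s := by
          by_contra h3
          exact hs ⟨not_lt.mp h1, not_lt.mp h3⟩
        -- the integral over `(0, s)` is the full integral
        have hall : ∫ x in (0 : ℝ)..s, q x = ∫ x, q x := by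
          rcases le_total 0 s with h4 | h4
          · rw [intervalIntegral.integral_of_le h4]
            apply setIntegral_eq_integral_of_forall_compl_eq_zero
            intro x hx
            apply hqz'
            rintro ⟨h5, h6⟩
            exact hx ⟨by linarith, by linarith⟩
          · -- then `r' < 0`, `q = 0`
            have hq00 : q = fun _ => 0 := by
              ext x
              apply hqz'
              rintro ⟨h5, h6⟩
              linarith
            rw [hq00]; simp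
        rw [hP]
        beta_reduce
        rw [hall, hq0]
    have hPt : tsupport P ⊆ Metric.closedBall (ℓ / 2) r' := by
      refine closure_minimal ?_ Metric.isClosed_closedBall
      intro s hs
      by_contra hn
      exact hs (hPz s hn)
    have hPc : HasCompactSupport P :=
      (isCompact_closedBall (ℓ / 2) r').of_isClosed_subset (isClosed_tsupport _) hPt
    have hPt' : tsupport P ⊆ Ioo 0 ℓ := by
      refine hPt.trans ?_
      rw [← hball]
      exact Metric.closedBall_subset_ball hr'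
    have hres := hw hPs hPc hPt'
    rw [hPdd] at hres
    have hgNi : Integrable (fun s => g s * N s) :=
      (hg.continuous.mul hN).integrable_of_hasCompactSupport (hgc.mul_right (f' := N))
    have e1 : ∫ s, q s * N s = (∫ s, g s * N s) - (∫ s, g s) / m * ∫ s, (b : ℝ → ℝ) s * N s := by
      rw [← integral_const_mul, ← integral_sub hgNi (hbNi.const_mul _)]
      congr 1
      ext s
      simp only [hq]
      ring
    rw [e1] at hres
    have e2 : ∫ s, g s • (N s - C) = (∫ s, g s * N s) - (∫ s, g s) * C := by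
      rw [← integral_mul_const, ← integral_sub hgNi (hgi.mul_const _)]
      congr 1
      ext s
      simp only [smul_eq_mul]
      ring
    rw [e2, hC]
    have : (∫ s, g s) * ((∫ s, (b : ℝ → ℝ) s * N s) / m) =
        (∫ s, g s) / m * ∫ s, (b : ℝ → ℝ) s * N s := by ring
    rw [this]
    exact hres
  have hae := isOpen_Ioo.ae_eq_zero_of_integral_contDiff_smul_eq_zero (μ := volume)
    ((hN.sub continuous_const).continuousOn.locallyIntegrableOn measurableSet_Ioo) key
  have hae' : (fun s => N s - C) =ᵐ[volume.restrict (Ioo 0 ℓ)] fun _ => (0 : ℝ) :=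
    (ae_restrict_iff' measurableSet_Ioo).mpr hae
  have heq := Measure.eqOn_Ioo_of_ae_eq volume hae' (hN.sub continuous_const).continuousOn
    continuous_const.continuousOn
  intro s hs
  have := heq hs
  simp only at this
  linarith

end Pool.Agent.SRGap
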