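import Mathlib

/-!
# The one dimensional infimum: test functions in `C_c^∞(0, l)` with Rayleigh quotient close to `(π / l)²`
-/

open Set MeasureTheory Filter Topology
open scoped ContDiff

namespace Pool.Agent.SRGap.OneD


lemma exists_deriv_bound : ∃ M : ℝ, 0 ≤ M ∧ ∀ x, |deriv Real.smoothTransition x| ≤ M := by
  have hc : Continuous (deriv Real.smoothTransition) :=
    (Real.smoothTransition.contDiff (n := 1)).continuous_deriv le_rfl
  obtain ⟨M, hM⟩ := (isCompact_Icc (a := (0:ℝ)) (b := 1)).exists_bound_of_continuousOn hc.continuousOn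
  refine ⟨max M 0, le_max_right _ _, fun x => ?_⟩
  by_cases hx : x ∈ Icc (0:ℝ) 1
  · exact (hM x hx).trans (le_max_left _ _)
  · have : deriv Real.smoothTransition x = 0 := by
      rw [mem_Icc, not_and_or, not_le, not_le] at hx
      rcases hx with hx | hx
      · have : Real.smoothTransition =ᶠ[𝓝 x] fun _ => (0:ℝ) := by
          filter_upwards [Iio_mem_nhds hx] with y hy
          exact Real.smoothTransition.zero_of_nonpos (le_of_lt hy)
        rw [this.deriv_eq]; simp
      · have : Real.smoothTransition =ᶠ[𝓝 x] fun _ => (1:ℝ) := by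
          filter_upwards [Ioi_mem_nhds hx] with y hy
          exact Real.smoothTransition.one_of_one_le (le_of_lt hy)
        rw [this.deriv_eq]; simp
    rw [this]; simp

lemma deriv_zero_of_neg {x : ℝ} (hx : x < 0) : deriv Real.smoothTransition x = 0 := by
  have : Real.smoothTransition =ᶠ[𝓝 x] fun _ => (0:ℝ) := by
    filter_upwards [Iio_mem_nhds hx] with y hy
    exact Real.smoothTransition.zero_of_nonpos (le_of_lt hy)
  rw [this.deriv_eq]; simp

lemma deriv_zero_of_one_lt {x : ℝ} (hx : 1 < x) : deriv Real.smoothTransition x = 0 := by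
  have : Real.smoothTransition =ᶠ[𝓝 x] fun _ => (1:ℝ) := by
    filter_upwards [Ioi_mem_nhds hx] with y hy
    exact Real.smoothTransition.one_of_one_le (le_of_lt hy)
  rw [this.deriv_eq]; simp

/-- the test function -/
noncomputable def test (l δ s : ℝ) : ℝ :=
  Real.sin (Real.pi * s / l) * (Real.smoothTransition (s / δ - 1) * Real.smoothTransition ((l - s) / δ - 1))

/-- its derivative -/
noncomputable def test' (l δ s : ℝ) : ℝ :=
  (Real.pi / l) * Real.cos (Real.pi * s / l) *
      (Real.smoothTransition (s / δ - 1) * Real.smoothTransition ((l - s) / δ - 1)) +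
    Real.sin (Real.pi * s / l) *
      (deriv Real.smoothTransition (s / δ - 1) * (1 / δ) * Real.smoothTransition ((l - s) / δ - 1) +
        Real.smoothTransition (s / δ - 1) * (deriv Real.smoothTransition ((l - s) / δ - 1) * (-(1 / δ))))

lemma contDiff_test (l δ : ℝ) : ContDiff ℝ ∞ (test l δ) := by
  unfold test
  have h1 : ContDiff ℝ ∞ (fun s : ℝ => Real.sin (Real.pi * s / l)) := by fun_prop
  have h2 : ContDiff ℝ ∞ (fun s : ℝ => Real.smoothTransition (s / δ - 1)) :=
    Real.smoothTransition.contDiff.comp (by fun_prop)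
  have h3 : ContDiff ℝ ∞ (fun s : ℝ => Real.smoothTransition ((l - s) / δ - 1)) :=
    Real.smoothTransition.contDiff.comp (by fun_prop)
  exact h1.mul (h2.mul h3)

lemma hasDerivAt_test (l δ s : ℝ) : HasDerivAt (test l δ) (test' l δ s) s := by
  have hT : ∀ x : ℝ, HasDerivAt Real.smoothTransition (deriv Real.smoothTransition x) x := fun x =>
    ((Real.smoothTransition.contDiff (n := 1)).differentiable (by norm_num) x).hasDerivAt
  have h1 : HasDerivAt (fun s : ℝ => Real.sin (Real.pi * s / l))
      ((Real.pi / l) * Real.cos (Real.pi * s / l)) s := by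
    have h0 : HasDerivAt (fun s : ℝ => Real.pi * s / l) (Real.pi / l) s := by
      have := ((hasDerivAt_id s).const_mul Real.pi).div_const l
      simpa using this
    have := (Real.hasDerivAt_sin (Real.pi * s / l)).comp s h0
    simpa [mul_comm, Function.comp_def] using this
  have h2 : HasDerivAt (fun s : ℝ => Real.smoothTransition (s / δ - 1))
      (deriv Real.smoothTransition (s / δ - 1) * (1 / δ)) s := by
    have h0 : HasDerivAt (fun s : ℝ => s / δ - 1) (1 / δ) s := by
      simpa using ((hasDerivAt_id s).div_const δ).sub_const 1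
    exact (hT (s / δ - 1)).comp s h0
  have h3 : HasDerivAt (fun s : ℝ => Real.smoothTransition ((l - s) / δ - 1))
      (deriv Real.smoothTransition ((l - s) / δ - 1) * (-(1 / δ))) s := by
    have h0 : HasDerivAt (fun s : ℝ => (l - s) / δ - 1) (-(1 / δ)) s := by
      have := (((hasDerivAt_id s).const_sub l).div_const δ).sub_const 1
      simpa [neg_div] using this
    exact (hT ((l - s) / δ - 1)).comp s h0
  exact h1.mul (h2.mul h3)

lemma test_eq_zero {l δ s : ℝ} (hδ : 0 < δ) (h : s ∉ Icc δ (l - δ)) : test l δ s = 0 := by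
  rw [mem_Icc, not_and_or, not_le, not_le] at h
  unfold test
  rcases h with h | h
  · have : Real.smoothTransition (s / δ - 1) = 0 := by
      apply Real.smoothTransition.zero_of_nonpos
      rw [sub_nonpos, div_le_one hδ]; exact h.le
    rw [this]; ring
  · have : Real.smoothTransition ((l - s) / δ - 1) = 0 := by
      apply Real.smoothTransition.zero_of_nonpos
      rw [sub_nonpos, div_le_one hδ]; linarith
    rw [this]; ring

lemma test_of_mem {l δ s : ℝ} (hδ : 0 < δ) (h1 : 2 * δ ≤ s) (h2 : 2 * δ ≤ l - s) :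
    test l δ s = Real.sin (Real.pi * s / l) := by
  have e1 : Real.smoothTransition (s / δ - 1) = 1 := by
    apply Real.smoothTransition.one_of_one_le
    rw [le_sub_iff_add_le, le_div_iff₀ hδ]; linarith
  have e2 : Real.smoothTransition ((l - s) / δ - 1) = 1 := by
    apply Real.smoothTransition.one_of_one_le
    rw [le_sub_iff_add_le, le_div_iff₀ hδ]; linarith
  unfold test; rw [e1, e2]; ring

lemma test'_of_mem {l δ s : ℝ} (hδ : 0 < δ) (h1 : 2 * δ < s) (h2 : 2 * δ < l - s) :
    test' l δ s = (Real.pi / l) * Real.cos (Real.pi * s / l) := by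
  have e1 : Real.smoothTransition (s / δ - 1) = 1 := by
    apply Real.smoothTransition.one_of_one_le
    rw [le_sub_iff_add_le, le_div_iff₀ hδ]; linarith
  have e2 : Real.smoothTransition ((l - s) / δ - 1) = 1 := by
    apply Real.smoothTransition.one_of_one_le
    rw [le_sub_iff_add_le, le_div_iff₀ hδ]; linarith
  have e3 : deriv Real.smoothTransition (s / δ - 1) = 0 := by
    apply deriv_zero_of_one_lt
    rw [lt_sub_iff_add_lt, lt_div_iff₀ hδ]; linarith
  have e4 : deriv Real.smoothTransition ((l - s) / δ - 1) = 0 := by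
    apply deriv_zero_of_one_lt
    rw [lt_sub_iff_add_lt, lt_div_iff₀ hδ]; linarith
  unfold test'; rw [e1, e2, e3, e4]; ring

lemma abs_test_le (l δ s : ℝ) : |test l δ s| ≤ 1 := by
  unfold test
  rw [abs_mul, abs_mul, abs_of_nonneg (Real.smoothTransition.nonneg _),
    abs_of_nonneg (Real.smoothTransition.nonneg _)]
  have h1 := Real.abs_sin_le_one (Real.pi * s / l)
  have h2 := Real.smoothTransition.le_one (s / δ - 1)
  have h3 := Real.smoothTransition.le_one ((l - s) / δ - 1)
  have h4 := Real.smoothTransition.nonneg (s / δ - 1)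
  have h5 := Real.smoothTransition.nonneg ((l - s) / δ - 1)
  calc |Real.sin (Real.pi * s / l)| *
        (Real.smoothTransition (s / δ - 1) * Real.smoothTransition ((l - s) / δ - 1)) ≤ 1 * (1 * 1) := by gcongr
    _ = 1 := by ring

lemma abs_test'_le {M : ℝ} (hM0 : 0 ≤ M) (hM : ∀ x, |deriv Real.smoothTransition x| ≤ M) {l δ s : ℝ}
    (hl : 0 < l) (hδ : 0 < δ) (hs : s ∈ Icc (0:ℝ) l) :
    |test' l δ s| ≤ Real.pi / l + 4 * (Real.pi / l) * M := by
  have hπ : 0 ≤ Real.pi / l := (div_pos Real.pi_pos hl).le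
  have h2 := Real.smoothTransition.le_one (s / δ - 1)
  have h3 := Real.smoothTransition.le_one ((l - s) / δ - 1)
  have h4 := Real.smoothTransition.nonneg (s / δ - 1)
  have h5 := Real.smoothTransition.nonneg ((l - s) / δ - 1)
  -- the two boundary terms
  have key : ∀ u : ℝ, 0 ≤ u → ∀ S : ℝ, |S| ≤ Real.pi / l * u →
      |S * (deriv Real.smoothTransition (u / δ - 1) * (1 / δ))| ≤ 2 * (Real.pi / l) * M := by
    intro u hu S hS
    by_cases hu2 : u ≤ 2 * δ
    · rw [abs_mul, abs_mul, abs_of_nonneg (by positivity : (0:ℝ) ≤ 1 / δ)]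
      calc |S| * (|deriv Real.smoothTransition (u / δ - 1)| * (1 / δ))
          ≤ (Real.pi / l * (2 * δ)) * (M * (1 / δ)) := by
            have : |S| ≤ Real.pi / l * (2 * δ) := hS.trans (by gcongr)
            have h := hM (u / δ - 1)
            gcongr
        _ = 2 * (Real.pi / l) * M := by field_simp
    · have : deriv Real.smoothTransition (u / δ - 1) = 0 := by
        apply deriv_zero_of_one_lt
        rw [lt_sub_iff_add_lt, lt_div_iff₀ hδ]; linarith
      rw [this]; simp; positivity
  have hs1 : |Real.sin (Real.pi * s / l)| ≤ Real.pi / l * s := by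
    have h := Real.abs_sin_le_abs (x := Real.pi * s / l)
    refine h.trans (le_of_eq ?_)
    rw [abs_of_nonneg (by have := hs.1; positivity)]; ring
  have hs2 : |Real.sin (Real.pi * s / l)| ≤ Real.pi / l * (l - s) := by
    have e : Real.sin (Real.pi * s / l) = Real.sin (Real.pi / l * (l - s)) := by
      have : Real.pi / l * (l - s) = Real.pi - Real.pi * s / l := by field_simp
      rw [this, Real.sin_pi_sub]
    rw [e]
    have h := Real.abs_sin_le_abs (x := Real.pi / l * (l - s))
    refine h.trans (le_of_eq ?_)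
    rw [abs_of_nonneg]
    exact mul_nonneg hπ (sub_nonneg.2 hs.2)
  have k1 := key s hs.1 _ hs1
  have k2 := key (l - s) (sub_nonneg.2 hs.2) _ hs2
  set S := Real.sin (Real.pi * s / l) with hS
  set C := Real.cos (Real.pi * s / l) with hC
  have hC1 : |C| ≤ 1 := Real.abs_cos_le_one _
  unfold test'
  rw [← hS, ← hC]
  set a := Real.smoothTransition (s / δ - 1)
  set b := Real.smoothTransition ((l - s) / δ - 1)
  set a' := deriv Real.smoothTransition (s / δ - 1)
  set b' := deriv Real.smoothTransition ((l - s) / δ - 1)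
  have t1 : |Real.pi / l * C * (a * b)| ≤ Real.pi / l := by
    rw [abs_mul, abs_mul, abs_mul, abs_of_nonneg hπ, abs_of_nonneg h4, abs_of_nonneg h5]
    calc _ ≤ Real.pi / l * 1 * (1 * 1) := by gcongr
      _ = _ := by ring
  have t2 : |S * (a' * (1 / δ) * b)| ≤ 2 * (Real.pi / l) * M := by
    have : S * (a' * (1 / δ) * b) = S * (a' * (1 / δ)) * b := by ring
    rw [this, abs_mul, abs_of_nonneg h5]
    calc _ ≤ (2 * (Real.pi / l) * M) * 1 := by gcongr
      _ = _ := by ring
  have t3 : |S * (a * (b' * (-(1 / δ))))| ≤ 2 * (Real.pi / l) * M := by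
    have : S * (a * (b' * (-(1 / δ)))) = -(S * (b' * (1 / δ)) * a) := by ring
    rw [this, abs_neg, abs_mul, abs_of_nonneg h4]
    calc _ ≤ (2 * (Real.pi / l) * M) * 1 := by gcongr
      _ = _ := by ring
  calc _ = |Real.pi / l * C * (a * b) + S * (a' * (1 / δ) * b) + S * (a * (b' * (-(1 / δ))))| := by
        congr 1; ring
    _ ≤ |Real.pi / l * C * (a * b) + S * (a' * (1 / δ) * b)| + |S * (a * (b' * (-(1 / δ))))| := abs_add_le _ _
    _ ≤ |Real.pi / l * C * (a * b)| + |S * (a' * (1 / δ) * b)| + |S * (a * (b' * (-(1 / δ))))| := by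
        gcongr; exact abs_add_le _ _
    _ ≤ _ := by linarith

lemma continuous_test' (l δ : ℝ) : Continuous (test' l δ) := by
  have : test' l δ = deriv (test l δ) := by
    funext s; exact (hasDerivAt_test l δ s).deriv.symm
  rw [this]
  exact (contDiff_test l δ).continuous_deriv (by simp)

lemma tendsto_sq (l : ℝ) (hl : 0 < l) :
    Tendsto (fun δ => ∫ s in (0:ℝ)..l, test l δ s ^ 2) (𝓝[>] 0) (𝓝 (l / 2)) := by
  have hlim : ∫ s in (0:ℝ)..l, Real.sin (Real.pi * s / l) ^ 2 = l / 2 := by
    have h := intervalIntegral.integral_comp_mul_left (a := 0) (b := l) (fun x => Real.sin x ^ 2)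
      (c := Real.pi / l) (by have := Real.pi_pos; positivity)
    have e : ∀ s, Real.sin (Real.pi / l * s) ^ 2 = Real.sin (Real.pi * s / l) ^ 2 := by
      intro s; congr 2; ring
    simp only [e] at h
    rw [h, integral_sin_sq]
    have : Real.pi / l * l = Real.pi := by field_simp
    rw [this]; simp
    field_simp
  rw [← hlim]
  apply intervalIntegral.tendsto_integral_filter_of_dominated_convergence (fun _ => (1:ℝ))
  · filter_upwards with δ
    exact ((contDiff_test l δ).continuous.pow 2).aestronglyMeasurable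
  · filter_upwards with δ
    filter_upwards with s hs
    rw [Real.norm_eq_abs, abs_pow]
    have := abs_test_le l δ s
    have h0 := abs_nonneg (test l δ s)
    nlinarith
  · simp
  · have h0 : ∀ᵐ s : ℝ, s ≠ l := by
      simp [ae_iff, measure_singleton]
    filter_upwards [h0] with s hsl hs
    rw [uIoc_of_le hl.le] at hs
    have hsl' : s < l := lt_of_le_of_ne hs.2 hsl
    apply Tendsto.congr' _ tendsto_const_nhds
    have hδ : ∀ᶠ δ : ℝ in 𝓝[>] 0, δ < min s (l - s) / 2 := by
      apply mem_nhdsWithin_of_mem_nhds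
      exact Iio_mem_nhds (by have := hs.1; have : 0 < min s (l - s) := lt_min hs.1 (by linarith); linarith)
    filter_upwards [hδ, self_mem_nhdsWithin] with δ hδ hpos
    rw [test_of_mem hpos]
    · have := min_le_left s (l - s); linarith
    · have := min_le_right s (l - s); linarith

lemma tendsto_sq' (l : ℝ) (hl : 0 < l) :
    Tendsto (fun δ => ∫ s in (0:ℝ)..l, test' l δ s ^ 2) (𝓝[>] 0) (𝓝 ((Real.pi / l) ^ 2 * (l / 2))) := by
  obtain ⟨M, hM0, hM⟩ := exists_deriv_bound
  have hlim : ∫ s in (0:ℝ)..l, ((Real.pi / l) * Real.cos (Real.pi * s / l)) ^ 2 =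
      (Real.pi / l) ^ 2 * (l / 2) := by
    have h := intervalIntegral.integral_comp_mul_left (a := 0) (b := l) (fun x => Real.cos x ^ 2)
      (c := Real.pi / l) (by have := Real.pi_pos; positivity)
    have e : ∀ s, ((Real.pi / l) * Real.cos (Real.pi * s / l)) ^ 2 =
        (Real.pi / l) ^ 2 * Real.cos (Real.pi / l * s) ^ 2 := by
      intro s; rw [mul_pow]; congr 3; ring
    simp only [e]
    rw [intervalIntegral.integral_const_mul, h, integral_cos_sq]
    have : Real.pi / l * l = Real.pi := by field_simp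
    rw [this]; simp
    left
    field_simp
  rw [← hlim]
  apply intervalIntegral.tendsto_integral_filter_of_dominated_convergence
    (fun _ => (Real.pi / l + 4 * (Real.pi / l) * M) ^ 2)
  · filter_upwards with δ
    exact ((continuous_test' l δ).pow 2).aestronglyMeasurable
  · filter_upwards [self_mem_nhdsWithin] with δ hδ
    filter_upwards with s hs
    rw [uIoc_of_le hl.le] at hs
    rw [Real.norm_eq_abs, abs_pow]
    have := abs_test'_le hM0 hM hl hδ (Ioc_subset_Icc_self hs)
    gcongr
  · simp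
  · have h0 : ∀ᵐ s : ℝ, s ≠ l := by
      simp [ae_iff, measure_singleton]
    filter_upwards [h0] with s hsl hs
    rw [uIoc_of_le hl.le] at hs
    have hsl' : s < l := lt_of_le_of_ne hs.2 hsl
    apply Tendsto.congr' _ tendsto_const_nhds
    have hδ : ∀ᶠ δ : ℝ in 𝓝[>] 0, δ < min s (l - s) / 2 := by
      apply mem_nhdsWithin_of_mem_nhds
      exact Iio_mem_nhds (by have := hs.1; have : 0 < min s (l - s) := lt_min hs.1 (by linarith); linarith)
    filter_upwards [hδ, self_mem_nhdsWithin] with δ hδ hpos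
    rw [test'_of_mem hpos]
    · have := min_le_left s (l - s); linarith
    · have := min_le_right s (l - s); linarith

/-- **The one dimensional infimum.** -/
theorem exists_test (l : ℝ) (hl : 0 < l) (ε : ℝ) (hε : 0 < ε) :
    ∃ ψ : ℝ → ℝ, ContDiff ℝ ∞ ψ ∧ (∃ a b, 0 < a ∧ b < l ∧ ∀ s, s ∉ Icc a b → ψ s = 0) ∧
      0 < ∫ s in (0:ℝ)..l, ψ s ^ 2 ∧
      ∫ s in (0:ℝ)..l, deriv ψ s ^ 2 < ((Real.pi / l) ^ 2 + ε) * ∫ s in (0:ℝ)..l, ψ s ^ 2 := by
  have h1 := tendsto_sq l hl
  have h2 := tendsto_sq' l hl
  have h3 : ∀ᶠ δ in 𝓝[>] (0:ℝ), 0 < ∫ s in (0:ℝ)..l, test l δ s ^ 2 :=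
    h1.eventually (lt_mem_nhds (by linarith))
  have h4 : ∀ᶠ δ in 𝓝[>] (0:ℝ), ∫ s in (0:ℝ)..l, test' l δ s ^ 2 <
      ((Real.pi / l) ^ 2 + ε) * ∫ s in (0:ℝ)..l, test l δ s ^ 2 := by
    apply h2.eventually_lt (h1.const_mul _)
    nlinarith
  obtain ⟨δ, h3, h4, hδ⟩ := (h3.and (h4.and self_mem_nhdsWithin)).exists
  refine ⟨test l δ, contDiff_test l δ, ⟨δ, l - δ, hδ, by have : 0 < δ := hδ; linarith, fun s hs => test_eq_zero hδ hs⟩,
    h3, ?_⟩
  have : deriv (test l δ) = test' l δ := by
    funext s; exact (hasDerivAt_test l δ s).deriv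
  rw [this]
  exact h4

end Pool.Agent.SRGap.OneD
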