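import Pool.Agent.Work.MP_188050_an.Solve

/-!
# MP_188050_an, cell SR: the phase
-/

open Set MeasureTheory Filter Topology VectorField
open scoped Manifold ContDiff

namespace Pool.Agent.SRGap

namespace Phase

/-! ### partial derivatives along coordinate lines -/

section lines
variable {F : Type*} [NormedAddCommGroup F] [NormedSpace ℝ F]

theorem pd0_eq {f : T3 → F} {p : T3} {d : F} (hf : DifferentiableAt ℝ f p)
    (h : HasDerivAt (fun t : ℝ => f (t, p.2)) d p.1) : pd0 f p = d := by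
  have hc : HasDerivAt (fun t : ℝ => ((t, p.2) : T3)) (1, 0) p.1 :=
    (hasDerivAt_id p.1).prodMk (hasDerivAt_const p.1 p.2)
  have h1 : HasDerivAt (fun t : ℝ => f (t, p.2)) (fderiv ℝ f p (1, 0)) p.1 :=
    HasFDerivAt.comp_hasDerivAt (x := p.1) (f := fun t : ℝ => ((t, p.2) : T3)) hf.hasFDerivAt hc
  exact h1.unique h

theorem pd1_eq {f : T3 → F} {p : T3} {d : F} (hf : DifferentiableAt ℝ f p)
    (h : HasDerivAt (fun t : ℝ => f (p.1, t, p.2.2)) d p.2.1) : pd1 f p = d := by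
  have hc : HasDerivAt (fun t : ℝ => ((p.1, t, p.2.2) : T3)) (0, 1, 0) p.2.1 :=
    (hasDerivAt_const p.2.1 p.1).prodMk ((hasDerivAt_id p.2.1).prodMk (hasDerivAt_const p.2.1 p.2.2))
  have h1 : HasDerivAt (fun t : ℝ => f (p.1, t, p.2.2)) (fderiv ℝ f p (0, 1, 0)) p.2.1 :=
    HasFDerivAt.comp_hasDerivAt (x := p.2.1) (f := fun t : ℝ => ((p.1, t, p.2.2) : T3)) hf.hasFDerivAt hc
  exact h1.unique h

theorem pd2_eq {f : T3 → F} {p : T3} {d : F} (hf : DifferentiableAt ℝ f p)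
    (h : HasDerivAt (fun t : ℝ => f (p.1, p.2.1, t)) d p.2.2) : pd2 f p = d := by
  have hc : HasDerivAt (fun t : ℝ => ((p.1, p.2.1, t) : T3)) (0, 0, 1) p.2.2 :=
    (hasDerivAt_const p.2.2 p.1).prodMk ((hasDerivAt_const p.2.2 p.2.1).prodMk (hasDerivAt_id p.2.2))
  have h1 : HasDerivAt (fun t : ℝ => f (p.1, p.2.1, t)) (fderiv ℝ f p (0, 0, 1)) p.2.2 :=
    HasFDerivAt.comp_hasDerivAt (x := p.2.2) (f := fun t : ℝ => ((p.1, p.2.1, t) : T3)) hf.hasFDerivAt hc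
  exact h1.unique h

theorem pd0_add {f g : T3 → F} {p : T3} (hf : DifferentiableAt ℝ f p) (hg : DifferentiableAt ℝ g p) :
    pd0 (fun q => f q + g q) p = pd0 f p + pd0 g p := by
  simp only [pd0, fderiv_fun_add hf hg, _root_.add_apply]

theorem pd1_add {f g : T3 → F} {p : T3} (hf : DifferentiableAt ℝ f p) (hg : DifferentiableAt ℝ g p) :
    pd1 (fun q => f q + g q) p = pd1 f p + pd1 g p := by
  simp only [pd1, fderiv_fun_add hf hg, _root_.add_apply]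

theorem pd2_add {f g : T3 → F} {p : T3} (hf : DifferentiableAt ℝ f p) (hg : DifferentiableAt ℝ g p) :
    pd2 (fun q => f q + g q) p = pd2 f p + pd2 g p := by
  simp only [pd2, fderiv_fun_add hf hg, _root_.add_apply]

theorem pd0_sub {f g : T3 → F} {p : T3} (hf : DifferentiableAt ℝ f p) (hg : DifferentiableAt ℝ g p) :
    pd0 (fun q => f q - g q) p = pd0 f p - pd0 g p := by
  simp only [pd0, fderiv_fun_sub hf hg, _root_.sub_apply]

end lines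

theorem op_add (w : CVF) {f g : T3 → ℂ} {p : T3} (hf : DifferentiableAt ℝ f p)
    (hg : DifferentiableAt ℝ g p) : w.op (fun q => f q + g q) p = w.op f p + w.op g p := by
  simp only [CVF.op, pd0_add hf hg, pd1_add hf hg, pd2_add hf hg]
  ring

/-! ### smoothness -/

theorem contDiff_ax0 : ContDiff ℝ ∞ (fun s : ℝ => ((s, 0, 0) : T3)) :=
  contDiff_id.prodMk contDiff_const

theorem contDiff_ofReal {E : Type*} [NormedAddCommGroup E] [NormedSpace ℝ E] {f : E → ℝ}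
    (hf : ContDiff ℝ ∞ f) : ContDiff ℝ ∞ (fun p => (f p : ℂ)) :=
  Complex.ofRealCLM.contDiff.comp hf

theorem contDiff_conj {E : Type*} [NormedAddCommGroup E] [NormedSpace ℝ E] {f : E → ℂ}
    (hf : ContDiff ℝ ∞ f) : ContDiff ℝ ∞ (fun p => starRingEnd ℂ (f p)) :=
  Complex.conjCLE.contDiff.comp hf

theorem contDiff_x : ContDiff ℝ ∞ (fun p : T3 => (p.2.1 : ℂ)) :=
  contDiff_ofReal (contDiff_fst.comp contDiff_snd)

theorem contDiff_y : ContDiff ℝ ∞ (fun p : T3 => (p.2.2 : ℂ)) :=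
  contDiff_ofReal (contDiff_snd.comp contDiff_snd)

theorem contDiff_s : ContDiff ℝ ∞ (fun p : T3 => (p.1 : ℂ)) := contDiff_ofReal contDiff_fst

theorem contDiff_eta : ContDiff ℝ ∞ eta := contDiff_x.sub (contDiff_const.mul contDiff_y)

end Phase

open Phase

namespace Tube

variable (τ : Tube)

theorem contDiff_f₁' : ContDiff ℝ ∞ (fun p : T3 => (τ.f₁ p.2 : ℂ)) :=
  contDiff_ofReal (τ.smooth_f₁.comp contDiff_snd)

theorem contDiff_f₂' : ContDiff ℝ ∞ (fun p : T3 => (τ.f₂ p.2 : ℂ)) :=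
  contDiff_ofReal (τ.smooth_f₂.comp contDiff_snd)

theorem w_s_eq (p : T3) : τ.w.s p = τ.w.x p * (τ.f₁ p.2 : ℂ) + τ.w.y p * (τ.f₂ p.2 : ℂ) := by
  simp only [w]; push_cast; ring

theorem wc_s_eq (p : T3) : τ.w.conj.s p = τ.w.conj.x p * (τ.f₁ p.2 : ℂ) + τ.w.conj.y p * (τ.f₂ p.2 : ℂ) := by
  simp only [CVF.conj, w, map_add, map_mul, Complex.conj_ofReal, Complex.conj_I]; push_cast; ring

end Tube

theorem Tube.w_smooth (τ : Tube) : τ.w.Smooth := by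
  have hx : ContDiff ℝ ∞ τ.w.x := contDiff_ofReal τ.smooth_a
  have hy : ContDiff ℝ ∞ τ.w.y :=
    (contDiff_ofReal τ.smooth_c).add (contDiff_const.mul (contDiff_ofReal τ.smooth_d))
  refine ⟨?_, hx, hy⟩
  have h := (hx.mul τ.contDiff_f₁').add (hy.mul τ.contDiff_f₂')
  rw [show τ.w.s = fun p => τ.w.x p * (τ.f₁ p.2 : ℂ) + τ.w.y p * (τ.f₂ p.2 : ℂ) from funext τ.w_s_eq]
  exact h

theorem Tube.w_ne (τ : Tube) (s : ℝ) : τ.w.x (s, 0, 0) - Complex.I * τ.w.y (s, 0, 0) ≠ 0 := by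
  intro h
  have h1 := congrArg Complex.re h
  have ha := τ.a_pos (s, 0, 0)
  have hd := τ.d_pos (s, 0, 0)
  simp [Tube.w] at h1
  linarith

theorem Tube.ws_J (τ : Tube) : J 1 τ.w.s := by
  refine J_of_axis τ.w_smooth.s fun s => ?_
  have h1 : τ.f₁ ((s, 0, 0) : T3).2 = 0 := τ.f₁_zero
  have h2 : τ.f₂ ((s, 0, 0) : T3).2 = 0 := τ.f₂_zero
  rw [τ.w_s_eq, h1, h2]; simp

theorem Tube.den_ne (τ : Tube) (s : ℝ) :
    ((τ.a (s, 0, 0) + τ.d (s, 0, 0) : ℝ) : ℂ) - Complex.I * (τ.c (s, 0, 0) : ℂ) ≠ 0 := by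
  intro h
  have h1 := congrArg Complex.re h
  have ha := τ.a_pos (s, 0, 0)
  have hd := τ.d_pos (s, 0, 0)
  simp at h1
  linarith

theorem Tube.kap_smooth (τ : Tube) : ContDiff ℝ ∞ τ.kap := by
  have ha : ContDiff ℝ ∞ (fun s : ℝ => τ.a (s, 0, 0)) := τ.smooth_a.comp contDiff_ax0
  have hc : ContDiff ℝ ∞ (fun s : ℝ => τ.c (s, 0, 0)) := τ.smooth_c.comp contDiff_ax0
  have hd : ContDiff ℝ ∞ (fun s : ℝ => τ.d (s, 0, 0)) := τ.smooth_d.comp contDiff_ax0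
  have h := (contDiff_ofReal ha).mul
    (((contDiff_ofReal (ha.add hd)).sub (contDiff_const.mul (contDiff_ofReal hc))).inv τ.den_ne)
  have e : τ.kap = fun s => (τ.a (s, 0, 0) : ℂ) *
      (((τ.a (s, 0, 0) + τ.d (s, 0, 0) : ℝ) : ℂ) - Complex.I * (τ.c (s, 0, 0) : ℂ))⁻¹ :=
    funext fun s => div_eq_mul_inv _ _
  rw [e]
  exact h

theorem Tube.kap_ne (τ : Tube) (s : ℝ) : τ.kap s ≠ 0 := by
  have ha := τ.a_pos (s, 0, 0)
  exact div_ne_zero (by exact_mod_cast ha.ne') (τ.den_ne s)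

theorem Tube.kap_mul (τ : Tube) (s : ℝ) : τ.kap s *
    ((τ.a (s, 0, 0) : ℂ) + (τ.d (s, 0, 0) : ℂ) - Complex.I * (τ.c (s, 0, 0) : ℂ)) = (τ.a (s, 0, 0) : ℂ) := by
  have h := τ.den_ne s
  unfold Tube.kap
  push_cast at h ⊢
  field_simp

namespace Tube

variable (τ : Tube)

theorem contDiff_hq : ContDiff ℝ ∞ (fun p : T3 => (τ.hq p.2 : ℂ)) := by
  refine contDiff_ofReal ?_
  have hx : ContDiff ℝ ∞ (fun p : T3 => p.2.1) := contDiff_fst.comp contDiff_snd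
  have hy : ContDiff ℝ ∞ (fun p : T3 => p.2.2) := contDiff_snd.comp contDiff_snd
  exact (((contDiff_const.mul (hx.pow 2)).add (contDiff_const.mul (hx.mul hy))).add
    (contDiff_const.mul (hy.pow 2))).neg.div_const 2

theorem contDiff_kap' : ContDiff ℝ ∞ (fun p : T3 => τ.kap p.1) := τ.kap_smooth.comp contDiff_fst

theorem contDiff_phi2 : ContDiff ℝ ∞ τ.phi2 :=
  (contDiff_s.add τ.contDiff_hq).add (contDiff_const.mul
    (contDiff_eta.mul (contDiff_x.sub (τ.contDiff_kap'.mul contDiff_eta))))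

theorem pd0_phi2 (p : T3) : pd0 τ.phi2 p = 1 - Complex.I / 2 * deriv τ.kap p.1 * (eta p * eta p) := by
  refine pd0_eq (τ.contDiff_phi2.differentiable (by simp) p) ?_
  have hk : HasDerivAt τ.kap (deriv τ.kap p.1) p.1 :=
    (τ.kap_smooth.differentiable (by simp) p.1).hasDerivAt
  have h1 : HasDerivAt (fun t : ℝ => (t : ℂ)) 1 p.1 := Complex.ofRealCLM.hasDerivAt
  have he : ∀ t : ℝ, eta (t, p.2) = eta p := fun t => rfl
  have := (h1.add_const (τ.hq p.2 : ℂ)).add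
    (((hk.mul_const (eta p)).const_sub (p.2.1 : ℂ)).const_mul (eta p) |>.const_mul (Complex.I / 2))
  refine (this.congr_deriv ?_)
  ring


/-- the first derivatives of `f₁`, `f₂` at the origin -/
noncomputable def A₁ : ℝ := fderiv ℝ τ.f₁ (0, 0) (1, 0)
/-- see `A₁` -/
noncomputable def B₁ : ℝ := fderiv ℝ τ.f₁ (0, 0) (0, 1)
/-- see `A₁` -/
noncomputable def A₂ : ℝ := fderiv ℝ τ.f₂ (0, 0) (1, 0)
/-- see `A₁` -/
noncomputable def B₂ : ℝ := fderiv ℝ τ.f₂ (0, 0) (0, 1)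

theorem B_sub : τ.B₁ - τ.A₂ = 1 := τ.curl_zero

theorem pd1_phi2 (p : T3) : pd1 τ.phi2 p = -(τ.A₁ * (p.2.1 : ℂ) + (τ.B₁ + τ.A₂) / 2 * (p.2.2 : ℂ)) +
    Complex.I / 2 * (((p.2.1 : ℂ) - τ.kap p.1 * eta p) + eta p * (1 - τ.kap p.1)) := by
  refine pd1_eq (τ.contDiff_phi2.differentiable (by simp) p) ?_
  have h1 : HasDerivAt (fun t : ℝ => (t : ℂ)) 1 p.2.1 := Complex.ofRealCLM.hasDerivAt
  have he : HasDerivAt (fun t : ℝ => eta (p.1, t, p.2.2)) 1 p.2.1 :=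
    h1.sub_const (Complex.I * (p.2.2 : ℂ))
  have hh : HasDerivAt (fun t : ℝ => (τ.hq (t, p.2.2) : ℂ))
      (-(τ.A₁ * (p.2.1 : ℂ) + (τ.B₁ + τ.A₂) / 2 * (p.2.2 : ℂ))) p.2.1 := by
    have hid := hasDerivAt_id (𝕜 := ℝ) p.2.1
    have h := ((((hid.pow 2).const_mul τ.A₁).add ((hid.mul_const p.2.2).const_mul (τ.B₁ + τ.A₂))).add_const
      (τ.B₂ * p.2.2 ^ 2)).neg.div_const 2
    have h2 := h.ofReal_comp
    refine h2.congr_deriv ?_
    push_cast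
    simp
    ring
  have h := (hh.const_add (p.1 : ℂ)).add ((he.mul (h1.sub (he.const_mul (τ.kap p.1)))).const_mul (Complex.I / 2))
  refine h.congr_deriv ?_
  simp only [Prod.mk.eta, Pi.sub_apply]
  ring

theorem pd2_phi2 (p : T3) : pd2 τ.phi2 p = -((τ.B₁ + τ.A₂) / 2 * (p.2.1 : ℂ) + τ.B₂ * (p.2.2 : ℂ)) +
    Complex.I / 2 * (-Complex.I * ((p.2.1 : ℂ) - τ.kap p.1 * eta p) +
      eta p * (τ.kap p.1 * Complex.I)) := by
  refine pd2_eq (τ.contDiff_phi2.differentiable (by simp) p) ?_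
  have h1 : HasDerivAt (fun t : ℝ => (t : ℂ)) 1 p.2.2 := Complex.ofRealCLM.hasDerivAt
  have he : HasDerivAt (fun t : ℝ => eta (p.1, p.2.1, t)) (-Complex.I) p.2.2 :=
    ((h1.const_mul Complex.I).const_sub (p.2.1 : ℂ)).congr_deriv (by simp)
  have hh : HasDerivAt (fun t : ℝ => (τ.hq (p.2.1, t) : ℂ))
      (-((τ.B₁ + τ.A₂) / 2 * (p.2.1 : ℂ) + τ.B₂ * (p.2.2 : ℂ))) p.2.2 := by
    have hid := hasDerivAt_id (𝕜 := ℝ) p.2.2
    have h := ((((hid.const_mul p.2.1).const_mul (τ.B₁ + τ.A₂)).const_add (τ.A₁ * p.2.1 ^ 2)).add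
      ((hid.pow 2).const_mul τ.B₂)).neg.div_const 2
    have h2 := h.ofReal_comp
    refine h2.congr_deriv ?_
    push_cast
    simp
    ring
  have h := (hh.const_add (p.1 : ℂ)).add ((he.mul ((he.const_mul (τ.kap p.1)).const_sub (p.2.1 : ℂ))).const_mul
    (Complex.I / 2))
  refine h.congr_deriv ?_
  simp only [Prod.mk.eta]
  ring

/-- Taylor remainder of `f₁` -/
noncomputable def R₁ (p : T3) : ℂ := (τ.f₁ p.2 : ℂ) - τ.A₁ * (p.2.1 : ℂ) - τ.B₁ * (p.2.2 : ℂ)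
/-- Taylor remainder of `f₂` -/
noncomputable def R₂ (p : T3) : ℂ := (τ.f₂ p.2 : ℂ) - τ.A₂ * (p.2.1 : ℂ) - τ.B₂ * (p.2.2 : ℂ)

theorem J_taylor_aux {f : ℝ × ℝ → ℝ} (hf : ContDiff ℝ ∞ f) (h0 : f (0, 0) = 0) :
    J 2 (fun p : T3 => (f p.2 : ℂ) - (fderiv ℝ f (0, 0) (1, 0) : ℝ) * (p.2.1 : ℂ) -
      (fderiv ℝ f (0, 0) (0, 1) : ℝ) * (p.2.2 : ℂ)) := by
  have hs : ContDiff ℝ ∞ (fun p : T3 => (f p.2 : ℂ)) := contDiff_ofReal (hf.comp contDiff_snd)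
  have hd : ∀ v : ℝ × ℝ, ∀ s : ℝ, fderiv ℝ (fun p : T3 => (f p.2 : ℂ)) (s, 0, 0) (0, v) =
      ((fderiv ℝ f (0, 0) v : ℝ) : ℂ) := by
    intro v s
    have hfd : HasFDerivAt f (fderiv ℝ f (0, 0)) ((s, 0, 0) : T3).2 :=
      (hf.differentiable (by simp) (0, 0)).hasFDerivAt
    have h1 : HasFDerivAt (fun p : T3 => (f p.2 : ℂ))
        (Complex.ofRealCLM.comp ((fderiv ℝ f (0, 0)).comp (ContinuousLinearMap.snd ℝ ℝ (ℝ × ℝ)))) (s, 0, 0) :=
      Complex.ofRealCLM.hasFDerivAt.comp _ (hfd.comp _ hasFDerivAt_snd)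
    rw [h1.fderiv]
    rfl
  have h := J_taylor1 hs
  have e : ∀ s : ℝ, pd1 (fun p : T3 => (f p.2 : ℂ)) (s, 0, 0) = ((fderiv ℝ f (0, 0) (1, 0) : ℝ) : ℂ) :=
    fun s => hd (1, 0) s
  have e' : ∀ s : ℝ, pd2 (fun p : T3 => (f p.2 : ℂ)) (s, 0, 0) = ((fderiv ℝ f (0, 0) (0, 1) : ℝ) : ℂ) :=
    fun s => hd (0, 1) s
  simp only [e, e', h0, Complex.ofReal_zero, sub_zero] at h
  exact h

theorem J_R₁ : J 2 τ.R₁ := J_taylor_aux τ.smooth_f₁ τ.f₁_zero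
theorem J_R₂ : J 2 τ.R₂ := J_taylor_aux τ.smooth_f₂ τ.f₂_zero

/-- `V Φ₂` for a vector field `V` with `V.s = V.x f₁ + V.y f₂` -/
theorem op_phi2 {V : CVF} (hV : ∀ p, V.s p = V.x p * (τ.f₁ p.2 : ℂ) + V.y p * (τ.f₂ p.2 : ℂ)) (p : T3) :
    V.op τ.phi2 p = eta p * (Complex.I * V.x p * (1 - τ.kap p.1) - V.y p * τ.kap p.1) +
      (V.x p * τ.R₁ p + V.y p * τ.R₂ p - Complex.I / 2 * deriv τ.kap p.1 * (eta p * eta p) * V.s p) := by
  have hB : (τ.B₁ : ℂ) = 1 + τ.A₂ := by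
    have := τ.B_sub
    rw [← Complex.ofReal_one, ← Complex.ofReal_add]
    congr 1
    linarith
  simp only [CVF.op, pd0_phi2, pd1_phi2, pd2_phi2, R₁, R₂]
  rw [hV p, hB]
  simp only [eta]
  linear_combination (1 / 2 * V.x p * (p.2.2 : ℂ) - 1 / 2 * V.y p * (p.2.1 : ℂ) +
    V.y p * τ.kap p.1 * (p.2.1 : ℂ) - V.y p * τ.kap p.1 * (p.2.2 : ℂ) * Complex.I) * Complex.I_sq

end Tube

/-- smooth functions which vanish on the axis, times `η` -/
theorem Phase.J_two_of_axis {g : T3 → ℂ} (hg : ContDiff ℝ ∞ g) (h0 : ∀ s : ℝ, g (s, 0, 0) = 0) :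
    J 2 (fun p => eta p * g p) := J_mul J_eta (J_of_axis hg h0)

namespace Tube

variable (τ : Tube)

/-- the remainder in `op_phi2` -/
theorem J_rest {V : CVF} (hV : V.Smooth) :
    J 2 (fun p => V.x p * τ.R₁ p + V.y p * τ.R₂ p -
      Complex.I / 2 * deriv τ.kap p.1 * (eta p * eta p) * V.s p) := by
  have hk : ContDiff ℝ ∞ (fun p : T3 => deriv τ.kap p.1) := by
    have h : ContDiff ℝ ∞ (deriv τ.kap) := (contDiff_infty_iff_deriv.mp τ.kap_smooth).2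
    exact h.comp contDiff_fst
  have h1 := J_smul hV.x τ.J_R₁
  have h2 := J_smul hV.y τ.J_R₂
  have hee : J 2 (fun p => eta p * eta p) := J_mul J_eta J_eta
  have h3 := J_smul ((contDiff_const (c := Complex.I / 2)).mul (hk.mul hV.s)) hee
  have h := J_sub (J_add h1 h2) h3
  refine (congrArg (J 2) (funext fun p => ?_)).mp h
  ring

theorem J_w_phi2 : J 2 (τ.w.op τ.phi2) := by
  have hg : ContDiff ℝ ∞ (fun p => Complex.I * τ.w.x p * (1 - τ.kap p.1) - τ.w.y p * τ.kap p.1) :=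
    ((contDiff_const.mul τ.w_smooth.x).mul (contDiff_const.sub τ.contDiff_kap')).sub
      (τ.w_smooth.y.mul τ.contDiff_kap')
  have h1 := J_two_of_axis hg (by
    intro s
    have hk := τ.kap_mul s
    simp only [w]
    linear_combination (-Complex.I) * hk - τ.kap s * (τ.c (s, 0, 0) : ℂ) * Complex.I_sq)
  have h := J_add h1 (τ.J_rest τ.w_smooth)
  refine (congrArg (J 2) (funext fun p => ?_)).mp h
  exact (τ.op_phi2 τ.w_s_eq p).symm

theorem J_wc_phi2 : J 2 (fun p => τ.w.conj.op τ.phi2 p -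
    2 * Complex.I * τ.kap p.1 * (τ.d (p.1, 0, 0) : ℂ) * eta p) := by
  have hc := τ.w_smooth.conj
  have hd : ContDiff ℝ ∞ (fun p : T3 => (τ.d (p.1, 0, 0) : ℂ)) :=
    contDiff_ofReal (τ.smooth_d.comp (contDiff_ax0.comp contDiff_fst))
  have hg : ContDiff ℝ ∞ (fun p => Complex.I * τ.w.conj.x p * (1 - τ.kap p.1) - τ.w.conj.y p * τ.kap p.1 -
      2 * Complex.I * τ.kap p.1 * (τ.d (p.1, 0, 0) : ℂ)) :=
    (((contDiff_const.mul hc.x).mul (contDiff_const.sub τ.contDiff_kap')).sub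
      (hc.y.mul τ.contDiff_kap')).sub ((contDiff_const.mul τ.contDiff_kap').mul hd)
  have h1 := J_two_of_axis hg (by
    intro s
    have hk := τ.kap_mul s
    simp only [w, CVF.conj, map_add, map_mul, Complex.conj_ofReal, Complex.conj_I]
    linear_combination (-Complex.I) * hk - τ.kap s * (τ.c (s, 0, 0) : ℂ) * Complex.I_sq)
  have h := J_add h1 (τ.J_rest hc)
  refine (congrArg (J 2) (funext fun p => ?_)).mp h
  rw [τ.op_phi2 τ.wc_s_eq p]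
  ring

end Tube

theorem Phase.J_differentiableAt {k : ℕ} {f : T3 → ℂ} (h : J k f) (p : T3) : DifferentiableAt ℝ f p :=
  (J_contDiff h).differentiable (by simp) p

/-- the phase -/
theorem exists_phase (τ : Tube) : ∃ Φ : T3 → ℂ, ContDiff ℝ ∞ Φ ∧ J 3 (fun p => Φ p - τ.phi2 p) ∧
    J 4 (τ.w.op Φ) := by
  obtain ⟨Q₃, hQ₃, hW₃⟩ := solve τ.w_smooth τ.w_ne (J_neg τ.J_w_phi2)
  have hd2 : ∀ p, DifferentiableAt ℝ τ.phi2 p := fun p => τ.contDiff_phi2.differentiable (by simp) p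
  have hd3 : ∀ p, DifferentiableAt ℝ Q₃ p := J_differentiableAt hQ₃
  have h3 : J 3 (fun p => τ.w.op (fun q => τ.phi2 q + Q₃ q) p) := by
    refine (congrArg (J 3) (funext fun p => ?_)).mp hW₃
    rw [op_add _ (hd2 p) (hd3 p)]
    ring
  obtain ⟨Q₄, hQ₄, hW₄⟩ := solve τ.w_smooth τ.w_ne (J_neg h3)
  have hd4 : ∀ p, DifferentiableAt ℝ Q₄ p := J_differentiableAt hQ₄
  refine ⟨fun q => τ.phi2 q + Q₃ q + Q₄ q, (τ.contDiff_phi2.add (J_contDiff hQ₃)).add (J_contDiff hQ₄), ?_, ?_⟩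
  · refine (congrArg (J 3) (funext fun p => ?_)).mp (J_add hQ₃ (J_mono (by norm_num) hQ₄))
    ring
  · refine (congrArg (J 4) (funext fun p => ?_)).mp hW₄
    rw [op_add (f := fun q => τ.phi2 q + Q₃ q) _ ((hd2 p).add (hd3 p)) (hd4 p)]
    ring

/-- `W̄ Φ = 2 i κ d η + O(r²)` -/
theorem phase_conj (τ : Tube) {Φ : T3 → ℂ} (hΦ : J 3 (fun p => Φ p - τ.phi2 p)) :
    J 2 (fun p => τ.w.conj.op Φ p - 2 * Complex.I * τ.kap p.1 * (τ.d (p.1, 0, 0) : ℂ) * eta p) := by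
  have h := J_add (J_op τ.w_smooth.conj hΦ) τ.J_wc_phi2
  refine (congrArg (J 2) (funext fun p => ?_)).mp h
  have h2 : τ.w.conj.op Φ p = τ.w.conj.op (fun q => (Φ q - τ.phi2 q) + τ.phi2 q) p := by
    congr 1; funext q; ring
  rw [h2, op_add _ (J_differentiableAt hΦ p) (τ.contDiff_phi2.differentiable (by simp) p)]
  ring

/-- `∂_s Φ - 1 = - i κ' η² / 2 + O(r³)` -/
theorem phase_pd0 (τ : Tube) {Φ : T3 → ℂ} (hΦ : J 3 (fun p => Φ p - τ.phi2 p)) :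
    J 3 (fun p => pd0 Φ p - 1 + Complex.I / 2 * deriv τ.kap p.1 * (eta p * eta p)) := by
  refine (congrArg (J 3) (funext fun p => ?_)).mp (J_pd0 hΦ)
  have h2 : pd0 Φ p = pd0 (fun q => (Φ q - τ.phi2 q) + τ.phi2 q) p := by
    congr 1; funext q; ring
  rw [h2, pd0_add (J_differentiableAt hΦ p) (τ.contDiff_phi2.differentiable (by simp) p), τ.pd0_phi2]
  ring

/-- the quadratic form `2 Im Φ₂` -/
theorem phi2_im (τ : Tube) (p : T3) : 2 * (τ.phi2 p).im =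
    (Complex.I * (eta p * ((p.2.1 : ℂ) - τ.kap p.1 * eta p))).im := by
  have h : τ.phi2 p = ((p.1 + τ.hq p.2 : ℝ) : ℂ) +
      ((1 / 2 : ℝ) : ℂ) * (Complex.I * (eta p * ((p.2.1 : ℂ) - τ.kap p.1 * eta p))) := by
    simp only [Tube.phi2]; push_cast; ring
  rw [h, Complex.add_im, Complex.ofReal_im, Complex.im_ofReal_mul]
  ring

/-- the explicit form of `2 Im Φ₂` -/
theorem phi2_explicit (τ : Tube) (p : T3) : 2 * (τ.phi2 p).im * ((τ.a (p.1, 0, 0) + τ.d (p.1, 0, 0)) ^ 2 +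
      τ.c (p.1, 0, 0) ^ 2) =
    τ.a (p.1, 0, 0) * τ.d (p.1, 0, 0) * (p.2.1 ^ 2 + p.2.2 ^ 2) + τ.d (p.1, 0, 0) ^ 2 * p.2.1 ^ 2 +
      (τ.c (p.1, 0, 0) * p.2.1 - τ.a (p.1, 0, 0) * p.2.2) ^ 2 := by
  obtain ⟨s, x, y⟩ := p
  set a := τ.a (s, 0, 0) with ha
  set c := τ.c (s, 0, 0) with hc
  set d := τ.d (s, 0, 0) with hd
  have ha0 : 0 < a := τ.a_pos _
  have hd0 : 0 < d := τ.d_pos _
  have hD : 0 < (a + d) ^ 2 + c ^ 2 := by positivity
  have hk := τ.kap_mul s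
  rw [← ha, ← hc, ← hd] at hk
  have hre := congrArg Complex.re hk
  have him := congrArg Complex.im hk
  simp only [Complex.mul_re, Complex.mul_im, Complex.sub_re, Complex.sub_im, Complex.add_re, Complex.add_im,
    Complex.ofReal_re, Complex.ofReal_im, Complex.I_re, Complex.I_im, zero_mul, one_mul, add_zero, sub_zero,
    zero_sub, zero_add, mul_zero] at hre him
  rw [phi2_im]
  simp only [eta, Complex.mul_re, Complex.mul_im, Complex.sub_re, Complex.sub_im,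
    Complex.ofReal_re, Complex.ofReal_im, Complex.I_re, Complex.I_im, zero_mul, one_mul, sub_zero,
    zero_sub, zero_add, mul_zero]
  set kr := (τ.kap s).re
  set ki := (τ.kap s).im
  linear_combination (-(x ^ 2 - y ^ 2) * (a + d) - 2 * x * y * c) * hre +
    ((x ^ 2 - y ^ 2) * c - 2 * x * y * (a + d)) * him

/-- positivity of the imaginary part -/
theorem phi2_pos (τ : Tube) (R : ℝ) : ∃ c : ℝ, 0 < c ∧ ∀ p : T3, |p.1| ≤ R →
    c * ‖p.2‖ ^ 2 ≤ 2 * (τ.phi2 p).im := by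
  have hcont : Continuous (fun s : ℝ => τ.a (s, 0, 0) * τ.d (s, 0, 0) /
      ((τ.a (s, 0, 0) + τ.d (s, 0, 0)) ^ 2 + τ.c (s, 0, 0) ^ 2)) := by
    have ha : Continuous (fun s : ℝ => τ.a (s, 0, 0)) := (τ.smooth_a.comp contDiff_ax0).continuous
    have hc : Continuous (fun s : ℝ => τ.c (s, 0, 0)) := (τ.smooth_c.comp contDiff_ax0).continuous
    have hd : Continuous (fun s : ℝ => τ.d (s, 0, 0)) := (τ.smooth_d.comp contDiff_ax0).continuous
    refine (ha.mul hd).div (((ha.add hd).pow 2).add (hc.pow 2)) fun s => ?_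
    have h1 := τ.a_pos (s, 0, 0)
    have h2 := τ.d_pos (s, 0, 0)
    positivity
  rcases lt_or_ge R 0 with hR | hR
  · exact ⟨1, one_pos, fun p hp => absurd (hp.trans_lt hR) (not_lt.mpr (abs_nonneg _))⟩
  obtain ⟨s₀, -, hs₀⟩ := (isCompact_Icc (a := -R) (b := R)).exists_isMinOn ⟨0, by simp [hR]⟩
    hcont.continuousOn
  refine ⟨τ.a (s₀, 0, 0) * τ.d (s₀, 0, 0) / ((τ.a (s₀, 0, 0) + τ.d (s₀, 0, 0)) ^ 2 + τ.c (s₀, 0, 0) ^ 2), ?_, ?_⟩
  · have h1 := τ.a_pos (s₀, 0, 0)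
    have h2 := τ.d_pos (s₀, 0, 0)
    positivity
  · intro p hp
    have h1 := τ.a_pos (p.1, 0, 0)
    have h2 := τ.d_pos (p.1, 0, 0)
    have hD : 0 < (τ.a (p.1, 0, 0) + τ.d (p.1, 0, 0)) ^ 2 + τ.c (p.1, 0, 0) ^ 2 := by positivity
    have hm := hs₀ (show p.1 ∈ Icc (-R) R from abs_le.mp hp)
    simp only [Set.mem_ofPred_eq] at hm
    have hn : ‖p.2‖ ^ 2 ≤ p.2.1 ^ 2 + p.2.2 ^ 2 := by
      rw [Prod.norm_def]
      rcases max_choice ‖p.2.1‖ ‖p.2.2‖ with h | h <;> rw [h, Real.norm_eq_abs, sq_abs]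
      · nlinarith [sq_nonneg p.2.2]
      · nlinarith [sq_nonneg p.2.1]
    have he := phi2_explicit τ p
    refine (mul_le_mul hm hn (sq_nonneg _) (by positivity)).trans ?_
    rw [div_mul_eq_mul_div, div_le_iff₀ hD, he]
    nlinarith [sq_nonneg (τ.d (p.1, 0, 0) * p.2.1), sq_nonneg (τ.c (p.1, 0, 0) * p.2.1 - τ.a (p.1, 0, 0) * p.2.2)]

end Pool.Agent.SRGap
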