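import Pool.Agent.Work.MP_188050_an.QMd

/-!
# Quasimodes: the estimate
-/

open Set MeasureTheory Filter Topology
open scoped ContDiff

namespace Pool.Agent.SRGap
namespace QD

variable {τ : Tube} {U : Set T3} {ℓ : ℝ} (D : QD τ U ℓ)

theorem N_const : ∃ C : ℝ, ∀ s ∈ Ioo 0 ℓ, D.N s = C :=
  const_of_weak D.N_cont fun _ h1 h2 h3 => D.weak ⟨h1, h2, h3⟩

theorem P_cont {ψ : ℝ → ℝ} (hψ : Test ℓ ψ) (t : ℝ) : Continuous (D.P ψ t) := by
  have hA := D.A_smooth hψ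
  have hc2 := (c2_smooth τ.w_smooth D.hΦs hA).continuous
  have hc1 := (c1_smooth τ.w_smooth τ.mu_smooth τ.nu_smooth D.hΦs hA).continuous
  have hc0 := (c0_smooth τ.w_smooth τ.mu_smooth τ.nu_smooth τ.om_smooth hA).continuous
  exact ((continuous_const.mul hc2).add (continuous_const.mul hc1)).add hc0

theorem P_zero {ψ : ℝ → ℝ} (hψ : Test ℓ ψ) (t : ℝ) {p : T3} (hp : p ∉ reg ℓ D.ε) : D.P ψ t p = 0 := by
  unfold P
  rw [D.c2_zero_of hψ hp, D.c1_zero_of hψ hp, D.c0_zero_of hψ hp]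
  simp

/-- the complex quasimode estimate -/
theorem estimate (hℓ : 0 < ℓ) {ψ : ℝ → ℝ} (hψ : Test ℓ ψ) {κ : ℝ}
    (hlt : ∫ s, deriv ψ s ^ 2 < κ ^ 2 * ∫ s, ψ s ^ 2) :
    ∀ᶠ t : ℝ in atTop, ∫ p, ‖τ.L (D.v ψ t) p - t * D.v ψ t p‖ ^ 2 * τ.ρ p <
      κ ^ 2 * ∫ p, ‖D.v ψ t p‖ ^ 2 * τ.ρ p := by
  obtain ⟨C, hC⟩ := D.N_const
  have hC0 : 0 < C := by
    rw [← hC (ℓ / 2) ⟨by positivity, by linarith⟩]
    exact D.N_pos _
  set S := ∫ s, ψ s ^ 2 with hS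
  set T := ∫ s, deriv ψ s ^ 2 with hT
  have hT0 : 0 ≤ T := integral_nonneg fun s => by positivity
  have hden : ∫ s : ℝ, ψ s ^ 2 * D.N s = C * S := by
    rw [hS, ← integral_const_mul]
    refine integral_congr_ae (Eventually.of_forall fun s => ?_)
    by_cases hs : s ∈ Ioo 0 ℓ
    · simp only [hC s hs]; ring
    · have : ψ s = 0 := image_eq_zero_of_notMem_tsupport fun h => hs (hψ.supp h)
      simp [this]
  have hnum : ∫ s : ℝ, deriv ψ s ^ 2 * D.N s = C * T := by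
    rw [hT, ← integral_const_mul]
    refine integral_congr_ae (Eventually.of_forall fun s => ?_)
    by_cases hs : s ∈ Ioo 0 ℓ
    · simp only [hC s hs]; ring
    · have : deriv ψ s = 0 :=
        image_eq_zero_of_notMem_tsupport fun h => hs (hψ.supp (tsupport_deriv_subset h))
      simp [this]
  have hlim1 := D.den hψ
  have hlim0 := D.num0 hψ
  rw [hden] at hlim1
  rw [hnum] at hlim0
  obtain ⟨C', hC'⟩ := D.num_small hψ
  set δ := (κ ^ 2 * S - T) / (2 * (T + 1)) with hδ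
  have hδ0 : 0 < δ := div_pos (by linarith) (by positivity)
  have hδT : δ * T ≤ (κ ^ 2 * S - T) / 2 := by
    rw [hδ, div_mul_eq_mul_div, div_le_div_iff₀ (by positivity) (by norm_num)]
    nlinarith
  have hkey : (1 + δ) * (C * T) < κ ^ 2 * (C * S) := by nlinarith
  -- the majorant of the numerator
  have hmaj : Tendsto (fun t : ℝ => (1 + δ) * (t * ∫ p, (‖c0 τ.w τ.mu τ.nu τ.om (D.A ψ) p‖ ^ 2 *
      τ.ρ p) * Real.exp (-(t * D.φ p))) + (1 + 1 / δ) * (C' / t)) atTop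
      (𝓝 ((1 + δ) * (C * T) + (1 + 1 / δ) * 0)) :=
    (hlim0.const_mul _).add ((tendsto_const_nhds.div_atTop tendsto_id).const_mul _)
  rw [mul_zero, add_zero] at hmaj
  have hev := hmaj.eventually_lt (hlim1.const_mul (κ ^ 2)) hkey
  filter_upwards [hev, eventually_ge_atTop 1] with t ht ht1
  have ht0 : 0 < t := by linarith
  have hA := D.A_smooth hψ
  have hc2 := (c2_smooth τ.w_smooth D.hΦs hA).continuous
  have hc1 := (c1_smooth τ.w_smooth τ.mu_smooth τ.nu_smooth D.hΦs hA).continuous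
  have hc0 := (c0_smooth τ.w_smooth τ.mu_smooth τ.nu_smooth τ.om_smooth hA).continuous
  have hρ := τ.smooth_ρ.continuous
  have hP := D.P_cont hψ t
  have hi0 := D.integrable (F := fun p => ‖c0 τ.w τ.mu τ.nu τ.om (D.A ψ) p‖ ^ 2 * τ.ρ p) (by fun_prop)
    (fun p hp => by simp [D.c0_zero_of hψ hp]) t
  have hi12 := D.integrable (F := fun p => ‖(t : ℂ) ^ 2 * c2 τ.w D.Φ (D.A ψ) p +
    t * c1 τ.w τ.mu τ.nu D.Φ (D.A ψ) p‖ ^ 2 * τ.ρ p) (by fun_prop)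
    (fun p hp => by simp [D.c1_zero_of hψ hp, D.c2_zero_of hψ hp]) t
  have hnumeq : ∫ p, ‖τ.L (D.v ψ t) p - t * D.v ψ t p‖ ^ 2 * τ.ρ p =
      ∫ p, (‖D.P ψ t p‖ ^ 2 * τ.ρ p) * Real.exp (-(t * D.φ p)) := by
    refine integral_congr_ae (Eventually.of_forall fun p => ?_)
    simp only [D.norm_Lv_sq hψ]
    ring
  have hle : ∫ p, (‖D.P ψ t p‖ ^ 2 * τ.ρ p) * Real.exp (-(t * D.φ p)) ≤
      ∫ p, ((1 + δ) * ((‖c0 τ.w τ.mu τ.nu τ.om (D.A ψ) p‖ ^ 2 * τ.ρ p) * Real.exp (-(t * D.φ p))) +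
        (1 + 1 / δ) * ((‖(t : ℂ) ^ 2 * c2 τ.w D.Φ (D.A ψ) p +
          t * c1 τ.w τ.mu τ.nu D.Φ (D.A ψ) p‖ ^ 2 * τ.ρ p) * Real.exp (-(t * D.φ p)))) := by
    refine integral_mono_of_nonneg (Eventually.of_forall fun p => ?_)
      ((hi0.const_mul _).add (hi12.const_mul _)) (Eventually.of_forall fun p => ?_)
    · exact mul_nonneg (mul_nonneg (by positivity) (τ.ρ_pos p).le) (Real.exp_pos _).le
    · have h1 : ∀ x y : ℂ, ‖x + y‖ ^ 2 ≤ (1 + δ) * ‖y‖ ^ 2 + (1 + 1 / δ) * ‖x‖ ^ 2 := by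
        intro x y
        have h2 := pow_le_pow_left₀ (norm_nonneg _) (norm_add_le x y) 2
        have h3 : 0 ≤ δ * (‖y‖ - ‖x‖ / δ) ^ 2 := by positivity
        have h4 : δ * (‖y‖ - ‖x‖ / δ) ^ 2 = δ * ‖y‖ ^ 2 - 2 * ‖x‖ * ‖y‖ + 1 / δ * ‖x‖ ^ 2 := by
          field_simp
          ring
        nlinarith
      have h5 := h1 ((t : ℂ) ^ 2 * c2 τ.w D.Φ (D.A ψ) p + t * c1 τ.w τ.mu τ.nu D.Φ (D.A ψ) p)
        (c0 τ.w τ.mu τ.nu τ.om (D.A ψ) p)
      have h6 : 0 ≤ τ.ρ p * Real.exp (-(t * D.φ p)) := mul_nonneg (τ.ρ_pos p).le (Real.exp_pos _).le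
      have h7 := mul_le_mul_of_nonneg_right h5 h6
      unfold P
      simp only
      nlinarith [h7]
  rw [integral_add (hi0.const_mul _) (hi12.const_mul _), integral_const_mul, integral_const_mul] at hle
  have hsm := hC' t ht1
  set J0 := ∫ p, (‖c0 τ.w τ.mu τ.nu τ.om (D.A ψ) p‖ ^ 2 * τ.ρ p) * Real.exp (-(t * D.φ p)) with hJ0
  set J12 := ∫ p, (‖(t : ℂ) ^ 2 * c2 τ.w D.Φ (D.A ψ) p +
    t * c1 τ.w τ.mu τ.nu D.Φ (D.A ψ) p‖ ^ 2 * τ.ρ p) * Real.exp (-(t * D.φ p)) with hJ12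
  rw [← hnumeq] at hle
  set Nm := ∫ p, ‖τ.L (D.v ψ t) p - t * D.v ψ t p‖ ^ 2 * τ.ρ p
  set Dn := ∫ p, ‖D.v ψ t p‖ ^ 2 * τ.ρ p
  have h8 : 0 ≤ 1 + 1 / δ := by positivity
  have h9 : t * Nm ≤ (1 + δ) * (t * J0) + (1 + 1 / δ) * (C' / t) := by
    calc t * Nm ≤ t * ((1 + δ) * J0 + (1 + 1 / δ) * J12) := by gcongr
      _ = (1 + δ) * (t * J0) + (1 + 1 / δ) * (t * J12) := by ring
      _ ≤ _ := by gcongr
  have h10 : t * Nm < t * (κ ^ 2 * Dn) := by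
    calc t * Nm ≤ _ := h9
      _ < κ ^ 2 * (t * Dn) := ht
      _ = t * (κ ^ 2 * Dn) := by ring
  exact lt_of_mul_lt_mul_left h10 ht0.le

end QD

/-- quasimodes along the axis -/
theorem quasimode (τ : Tube) {U : Set T3} (hU : IsOpen U) (hgood : τ.Good U) {ℓ κ : ℝ} (hℓ : 0 < ℓ)
    (hseg : ∀ s ∈ Icc 0 ℓ, ((s, 0, 0) : T3) ∈ U) (hκ : Real.pi / ℓ < κ) :
    ∃ Λ : ℝ, ∀ t ≥ Λ, ∃ v : T3 → ℝ, ContDiff ℝ ∞ v ∧ HasCompactSupport v ∧ tsupport v ⊆ U ∧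
      0 < ∫ p, v p ^ 2 * τ.ρ p ∧
      ∫ p, (τ.L v p - t * v p) ^ 2 * τ.ρ p < κ ^ 2 * ∫ p, v p ^ 2 * τ.ρ p := by
  obtain ⟨D⟩ := exists_QD τ hU hgood hseg
  obtain ⟨ψ, hψs, hψc, hψt, _, hlt⟩ := oned hℓ hκ
  have hψ : Test ℓ ψ := ⟨hψs, hψc, hψt⟩
  have hκ0 : 0 < κ := lt_trans (by positivity) hκ
  obtain ⟨Λ, hΛ⟩ := eventually_atTop.1 (D.estimate hℓ hψ hlt)
  refine ⟨Λ, fun t ht => ?_⟩
  have hest := hΛ t ht
  have hv := D.v_smooth hψ t
  have hρ := τ.smooth_ρ.continuous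
  set u : T3 → ℂ := D.v ψ t with hu
  have hur : ContDiff ℝ ∞ (fun p => (u p).re) := Complex.reCLM.contDiff.comp hv
  have hui : ContDiff ℝ ∞ (fun p => (u p).im) := Complex.imCLM.contDiff.comp hv
  have hu0 : ∀ p, p ∉ reg ℓ D.ε → u p = 0 := fun p hp => D.v_zero hψ t hp
  have hL0 : ∀ p, p ∉ reg ℓ D.ε → τ.L u p = 0 := by
    intro p hp
    have h1 : EqOn u (fun _ => 0) (reg ℓ D.ε)ᶜ := fun q hq => hu0 q hq
    rw [L_congr τ D.isOpen_compl h1 hp, L_zero]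
  have hLc := (L_contDiff' τ hv).continuous
  have hvc := hv.continuous
  have hcs : ∀ F : T3 → ℝ, Continuous F → (∀ p, p ∉ reg ℓ D.ε → F p = 0) → Integrable F := by
    intro F hF hF0
    exact hF.integrable_of_hasCompactSupport (HasCompactSupport.intro (reg_compact ℓ D.ε) hF0)
  have hsub : ∀ f : ℂ → ℝ, f 0 = 0 → tsupport (fun p => f (u p)) ⊆ reg ℓ D.ε := by
    intro f hf
    refine closure_minimal ?_ (reg_compact ℓ D.ε).isClosed
    intro p hp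
    by_contra hcon
    apply hp
    simp only [hu0 p hcon, hf]
  -- integrals of real and imaginary part
  have hi1 : Integrable (fun p => (u p).re ^ 2 * τ.ρ p) := hcs _
    (((Complex.continuous_re.comp hvc).pow 2).mul hρ) (fun p hp => by simp [hu0 p hp])
  have hi2 : Integrable (fun p => (u p).im ^ 2 * τ.ρ p) := hcs _
    (((Complex.continuous_im.comp hvc).pow 2).mul hρ) (fun p hp => by simp [hu0 p hp])
  have hi3 : Integrable (fun p => ((τ.L u p).re - t * (u p).re) ^ 2 * τ.ρ p) := hcs _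
    ((((Complex.continuous_re.comp hLc).sub (continuous_const.mul
      (Complex.continuous_re.comp hvc))).pow 2).mul hρ) (fun p hp => by simp [hu0 p hp, hL0 p hp])
  have hi4 : Integrable (fun p => ((τ.L u p).im - t * (u p).im) ^ 2 * τ.ρ p) := hcs _
    ((((Complex.continuous_im.comp hLc).sub (continuous_const.mul
      (Complex.continuous_im.comp hvc))).pow 2).mul hρ) (fun p hp => by simp [hu0 p hp, hL0 p hp])
  have hsum1 : ∫ p, ‖u p‖ ^ 2 * τ.ρ p = (∫ p, (u p).re ^ 2 * τ.ρ p) + ∫ p, (u p).im ^ 2 * τ.ρ p := by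
    rw [← integral_add hi1 hi2]
    refine integral_congr_ae (Eventually.of_forall fun p => ?_)
    simp only [← Complex.normSq_eq_norm_sq, Complex.normSq_apply]
    ring
  have hsum2 : ∫ p, ‖τ.L u p - t * u p‖ ^ 2 * τ.ρ p =
      (∫ p, ((τ.L u p).re - t * (u p).re) ^ 2 * τ.ρ p) +
        ∫ p, ((τ.L u p).im - t * (u p).im) ^ 2 * τ.ρ p := by
    rw [← integral_add hi3 hi4]
    refine integral_congr_ae (Eventually.of_forall fun p => ?_)
    simp only [← Complex.normSq_eq_norm_sq, Complex.normSq_apply, Complex.sub_re, Complex.sub_im,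
      Complex.re_ofReal_mul, Complex.im_ofReal_mul]
    ring
  rw [hsum1, hsum2] at hest
  -- one of the two parts is a quasimode
  have hfin : ∀ f : T3 → ℝ, ContDiff ℝ ∞ f → tsupport f ⊆ reg ℓ D.ε →
      ∫ p, (τ.L f p - t * f p) ^ 2 * τ.ρ p < κ ^ 2 * ∫ p, f p ^ 2 * τ.ρ p →
      ∃ v : T3 → ℝ, ContDiff ℝ ∞ v ∧ HasCompactSupport v ∧ tsupport v ⊆ U ∧
        0 < ∫ p, v p ^ 2 * τ.ρ p ∧
        ∫ p, (τ.L v p - t * v p) ^ 2 * τ.ρ p < κ ^ 2 * ∫ p, v p ^ 2 * τ.ρ p := by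
    intro f hf hfs hfl
    refine ⟨f, hf, (reg_compact ℓ D.ε).of_isClosed_subset (isClosed_tsupport _) hfs,
      hfs.trans D.hreg, ?_, hfl⟩
    have h0 : 0 ≤ ∫ p, (τ.L f p - t * f p) ^ 2 * τ.ρ p :=
      integral_nonneg fun p => mul_nonneg (by positivity) (τ.ρ_pos p).le
    have h1 : 0 < κ ^ 2 * ∫ p, f p ^ 2 * τ.ρ p := lt_of_le_of_lt h0 hfl
    exact (mul_pos_iff_of_pos_left (by positivity : 0 < κ ^ 2)).1 h1
  by_cases hre : ∫ p, ((τ.L u p).re - t * (u p).re) ^ 2 * τ.ρ p < κ ^ 2 * ∫ p, (u p).re ^ 2 * τ.ρ p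
  · refine hfin (fun p => (u p).re) hur (hsub Complex.re Complex.zero_re) ?_
    simpa only [L_re τ hv] using hre
  · refine hfin (fun p => (u p).im) hui (hsub Complex.im Complex.zero_im) ?_
    simp only [L_im τ hv]
    push Not at hre
    linarith

end Pool.Agent.SRGap
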