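import Pool.Agent.Work.MP_188050_an.JCalc

/-!
# MP_188050_an, module 2: the transport equation `W Q = R` to leading order
-/

open Set MeasureTheory Filter Topology VectorField
open scoped Manifold ContDiff

namespace Pool.Agent.SRGap

theorem CVF.op_mul (w : CVF) {f g : T3 → ℂ} {p : T3} (hf : DifferentiableAt ℝ f p)
    (hg : DifferentiableAt ℝ g p) :
    w.op (fun q => f q * g q) p = f p * w.op g p + g p * w.op f p := by
  have h : ∀ v : T3, fderiv ℝ (fun q => f q * g q) p v = f p * fderiv ℝ g p v + g p * fderiv ℝ f p v := by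
    intro v
    have := (hf.hasFDerivAt.mul hg.hasFDerivAt).fderiv
    have e : (fun q => f q * g q) = f * g := rfl
    rw [e, this]; simp
  unfold CVF.op pd0 pd1 pd2
  rw [h, h, h]; ring

theorem CVF.op_add (w : CVF) {f g : T3 → ℂ} {p : T3} (hf : DifferentiableAt ℝ f p)
    (hg : DifferentiableAt ℝ g p) :
    w.op (fun q => f q + g q) p = w.op f p + w.op g p := by
  have h : ∀ v : T3, fderiv ℝ (fun q => f q + g q) p v = fderiv ℝ f p v + fderiv ℝ g p v := by
    intro v
    rw [fderiv_fun_add hf hg]; simp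
  unfold CVF.op pd0 pd1 pd2
  rw [h, h, h]; ring

theorem CVF.op_sub (w : CVF) {f g : T3 → ℂ} {p : T3} (hf : DifferentiableAt ℝ f p)
    (hg : DifferentiableAt ℝ g p) :
    w.op (fun q => f q - g q) p = w.op f p - w.op g p := by
  have h : ∀ v : T3, fderiv ℝ (fun q => f q - g q) p v = fderiv ℝ f p v - fderiv ℝ g p v := by
    intro v
    rw [fderiv_fun_sub hf hg]; simp
  unfold CVF.op pd0 pd1 pd2
  rw [h, h, h]; ring

theorem CVF.op_const (w : CVF) (c : ℂ) (p : T3) : w.op (fun _ => c) p = 0 := by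
  unfold CVF.op pd0 pd1 pd2
  simp

theorem CVF.op_pow (w : CVF) {f : T3 → ℂ} (hf : Differentiable ℝ f) (a : ℕ) (p : T3) :
    w.op (fun q => f q ^ (a + 1)) p = ((a : ℂ) + 1) * f p ^ a * w.op f p := by
  induction a with
  | zero => simp
  | succ a ih =>
    have e : (fun q => f q ^ (a + 1 + 1)) = fun q => f q ^ (a + 1) * f q := by
      funext q; ring
    have hfa : DifferentiableAt ℝ (fun q => f q ^ (a + 1)) p := (hf p).pow (a + 1)
    rw [e, w.op_mul hfa (hf p), ih]
    push_cast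
    ring

theorem CVF.op_xy (w : CVF) {g h : T3 → ℂ} {p : T3} (hg : DifferentiableAt ℝ g p)
    (hh : DifferentiableAt ℝ h p) :
    w.op (fun q : T3 => (q.2.1 : ℂ) * g q + (q.2.2 : ℂ) * h q) p =
      ((p.2.1 : ℂ) * w.op g p + (p.2.2 : ℂ) * w.op h p) + (w.x p * g p + w.y p * h p) := by
  unfold CVF.op pd0 pd1 pd2
  rw [fderiv_xy hg hh, fderiv_xy hg hh, fderiv_xy hg hh]
  simp
  ring

theorem J_diff {k : ℕ} {f : T3 → ℂ} (h : J k f) : Differentiable ℝ f :=
  (J_contDiff h).differentiable (by simp)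

theorem J_pow {f : T3 → ℂ} (hf : J 1 f) (a : ℕ) : J a (fun p => f p ^ a) := by
  induction a with
  | zero => simp only [pow_zero]; exact contDiff_const
  | succ a ih =>
    have := J_mul ih hf
    simpa [pow_succ] using this

theorem solve_aux {w : CVF} (hw : w.Smooth) {D m n : T3 → ℂ} (hDs : ContDiff ℝ ∞ D)
    (hD : ∀ p, D p ≠ 0) (hm : J 1 m) (hn : J 1 n) (hWm : J 1 (fun p => w.op m p - 1))
    (hWn : J 1 (w.op n))
    (hx : ∀ p : T3, (p.2.1 : ℂ) = w.x (p.1, 0, 0) * m p - Complex.I * n p / D p)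
    (hy : ∀ p : T3, (p.2.2 : ℂ) = w.y (p.1, 0, 0) * m p - n p / D p) (k : ℕ) :
    ∀ (R : T3 → ℂ), J k R → ∀ i j : ℕ, ∃ Q : T3 → ℂ, J (k + i + j + 1) Q ∧
      J (k + i + j + 1) (fun p => w.op Q p - R p * (m p ^ i * n p ^ j)) := by
  induction k with
  | zero =>
    intro R hR i j
    have hR' : ContDiff ℝ ∞ R := hR
    set c : T3 → ℂ := fun p => R (p.1, 0, 0) * (1 / ((i : ℂ) + 1)) with hc
    have hcs : ContDiff ℝ ∞ c := (contDiff_axis hR').mul contDiff_const
    have hmi : J i (fun p => m p ^ i) := J_pow hm i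
    have hmi1 : J (i + 1) (fun p => m p ^ (i + 1)) := J_pow hm (i + 1)
    have hnj : J j (fun p => n p ^ j) := J_pow hn j
    have hWnj : J j (w.op (fun p => n p ^ j)) := by
      cases j with
      | zero =>
        have : w.op (fun p => n p ^ 0) = fun _ => 0 := by
          funext p; simp only [pow_zero]; exact w.op_const 1 p
        rw [this]; exact J_zero 0
      | succ j =>
        have : w.op (fun p => n p ^ (j + 1)) = fun p => (((j : ℂ) + 1) * n p ^ j) * w.op n p := by
          funext p; exact w.op_pow (J_diff hn) j p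
        rw [this]
        exact J_mul (J_smul contDiff_const (J_pow hn j)) hWn
    refine ⟨fun p => c p * (m p ^ (i + 1) * n p ^ j), ?_, ?_⟩
    · rw [show 0 + i + j + 1 = (i + 1) + j by omega]
      exact J_smul hcs (J_mul hmi1 hnj)
    · have e : (fun p => w.op (fun p => c p * (m p ^ (i + 1) * n p ^ j)) p - R p * (m p ^ i * n p ^ j)) =
          fun p => ((c p * (m p ^ (i + 1) * w.op (fun p => n p ^ j) p) +
            R (p.1, 0, 0) * ((w.op m p - 1) * (m p ^ i * n p ^ j))) +
            w.op c p * (m p ^ (i + 1) * n p ^ j)) -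
              (R p - R (p.1, 0, 0)) * (m p ^ i * n p ^ j) := by
        funext p
        rw [w.op_mul (hcs.differentiable (by simp) p)
          ((J_diff (J_mul hmi1 hnj)) p), w.op_mul (J_diff hmi1 p) (J_diff hnj p),
          w.op_pow (J_diff hm) i p]
        have h1 : ((i : ℂ) + 1) ≠ 0 := by exact_mod_cast Nat.succ_ne_zero i
        simp only [hc]
        field_simp
        ring
      rw [e]
      have t1 : J (0 + i + j + 1) (fun p => c p * (m p ^ (i + 1) * w.op (fun p => n p ^ j) p)) := by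
        rw [show 0 + i + j + 1 = (i + 1) + j by omega]
        exact J_smul hcs (J_mul hmi1 hWnj)
      have t2 : J (0 + i + j + 1) (fun p => R (p.1, 0, 0) * ((w.op m p - 1) * (m p ^ i * n p ^ j))) := by
        rw [show 0 + i + j + 1 = 1 + (i + j) by omega]
        exact J_smul (contDiff_axis hR') (J_mul hWm (J_mul hmi hnj))
      have t3 : J (0 + i + j + 1) (fun p => w.op c p * (m p ^ (i + 1) * n p ^ j)) := by
        rw [show 0 + i + j + 1 = (i + 1) + j by omega]
        exact J_smul (hw.op hcs) (J_mul hmi1 hnj)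
      have t4 : J (0 + i + j + 1) (fun p => (R p - R (p.1, 0, 0)) * (m p ^ i * n p ^ j)) := by
        rw [show 0 + i + j + 1 = 1 + (i + j) by omega]
        exact J_mul (J_sub_axis hR') (J_mul hmi hnj)
      exact J_sub (J_add (J_add t1 t2) t3) t4
  | succ k ih =>
    intro R hR i j
    obtain ⟨g, h, hg, hh, rfl⟩ := hR
    have hxs : ContDiff ℝ ∞ (fun p : T3 => w.x (p.1, 0, 0)) := contDiff_axis hw.x
    have hys : ContDiff ℝ ∞ (fun p : T3 => w.y (p.1, 0, 0)) := contDiff_axis hw.y
    have hDi : ContDiff ℝ ∞ (fun p : T3 => -(D p)⁻¹) := (hDs.inv hD).neg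
    obtain ⟨Q1, hQ1, hQ1'⟩ := ih (fun p => w.x (p.1, 0, 0) * g p + w.y (p.1, 0, 0) * h p)
      (J_add (J_smul hxs hg) (J_smul hys hh)) (i + 1) j
    obtain ⟨Q2, hQ2, hQ2'⟩ := ih (fun p => -(D p)⁻¹ * (Complex.I * g p + h p))
      (J_smul hDi (J_add (J_smul contDiff_const hg) hh)) i (j + 1)
    rw [show k + (i + 1) + j + 1 = k + 1 + i + j + 1 by omega] at hQ1 hQ1'
    rw [show k + i + (j + 1) + 1 = k + 1 + i + j + 1 by omega] at hQ2 hQ2'
    refine ⟨fun p => Q1 p + Q2 p, J_add hQ1 hQ2, ?_⟩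
    have e : (fun p => w.op (fun p => Q1 p + Q2 p) p -
        ((p.2.1 : ℂ) * g p + (p.2.2 : ℂ) * h p) * (m p ^ i * n p ^ j)) =
        fun p => (w.op Q1 p - (w.x (p.1, 0, 0) * g p + w.y (p.1, 0, 0) * h p) * (m p ^ (i + 1) * n p ^ j)) +
          (w.op Q2 p - (-(D p)⁻¹ * (Complex.I * g p + h p)) * (m p ^ i * n p ^ (j + 1))) := by
      funext p
      rw [w.op_add (J_diff hQ1 p) (J_diff hQ2 p), hx p, hy p]
      have := hD p
      field_simp
      ring
    rw [e]
    exact J_add hQ1' hQ2'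

/-- the transport equation -/
theorem solve {w : CVF} (hw : w.Smooth)
    (hD : ∀ s : ℝ, w.x (s, 0, 0) - Complex.I * w.y (s, 0, 0) ≠ 0) {k : ℕ} {R : T3 → ℂ} (hR : J k R) :
    ∃ Q : T3 → ℂ, J (k + 1) Q ∧ J (k + 1) (fun p => w.op Q p - R p) := by
  set D : T3 → ℂ := fun p => w.x (p.1, 0, 0) - Complex.I * w.y (p.1, 0, 0) with hDdef
  have hDs : ContDiff ℝ ∞ D := (contDiff_axis hw.x).sub (contDiff_const.mul (contDiff_axis hw.y))
  have hD' : ∀ p, D p ≠ 0 := fun p => hD p.1
  have hDi : ContDiff ℝ ∞ (fun p => (D p)⁻¹) := hDs.inv hD'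
  have hDi2 : ContDiff ℝ ∞ (fun p => -Complex.I * (D p)⁻¹) := contDiff_const.mul hDi
  set m : T3 → ℂ := fun p => (p.2.1 : ℂ) * (D p)⁻¹ + (p.2.2 : ℂ) * (-Complex.I * (D p)⁻¹) with hmdef
  set n : T3 → ℂ := fun p => (p.2.1 : ℂ) * w.y (p.1, 0, 0) + (p.2.2 : ℂ) * (-w.x (p.1, 0, 0)) with hndef
  have hm : J 1 m := ⟨_, _, hDi, hDi2, rfl⟩
  have hxn : ContDiff ℝ ∞ (fun p : T3 => -w.x (p.1, 0, 0)) := (contDiff_axis hw.x).neg
  have hn : J 1 n := ⟨_, _, contDiff_axis hw.y, hxn, rfl⟩
  have hWm : J 1 (fun p => w.op m p - 1) := by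
    apply J_of_axis ((hw.op (J_contDiff hm)).sub contDiff_const)
    intro s
    rw [hmdef, w.op_xy (hDi.differentiable (by simp) _) (hDi2.differentiable (by simp) _)]
    have := hD s
    simp only [hDdef, Complex.ofReal_zero, zero_mul, zero_add]
    field_simp
    ring
  have hWn : J 1 (w.op n) := by
    apply J_of_axis (hw.op (J_contDiff hn))
    intro s
    rw [hndef, w.op_xy ((contDiff_axis hw.y).differentiable (by simp) _)
      (hxn.differentiable (by simp) _)]
    simp
    ring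
  obtain ⟨Q, h1, h2⟩ := solve_aux hw hDs hD' hm hn hWm hWn
    (fun p => by
      have := hD' p
      simp only [hmdef, hndef]
      field_simp
      simp only [hDdef]
      ring_nf
      try rw [Complex.I_sq]
      try ring)
    (fun p => by
      have := hD' p
      simp only [hmdef, hndef]
      field_simp
      simp only [hDdef]
      ring_nf
      try rw [Complex.I_sq]
      try ring) k R hR 0 0
  refine ⟨Q, by simpa using h1, ?_⟩
  have e : (fun p => w.op Q p - R p) = fun p => w.op Q p - R p * (m p ^ 0 * n p ^ 0) := by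
    funext p; ring
  rw [e]
  simpa using h2

end Pool.Agent.SRGap
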