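import Pool.Agent.Work.MP_188050_an.JCalc
import Pool.Agent.Work.MP_188050_an.Solve
import Pool.Agent.Work.MP_188050_an.Phase
import Pool.Agent.Work.MP_188050_an.Amp
import Pool.Agent.Work.MP_188050_an.Oper
import Pool.Agent.Work.MP_188050_an.Green
import Pool.Agent.Work.MP_188050_an.Gauss
import Pool.Agent.Work.MP_188050_an.OneD

/-!
# Quasimodes, part a: the region near the axis, locality of the coefficients
-/

open Set MeasureTheory Filter Topology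
open scoped ContDiff

namespace Pool.Agent.SRGap

/-- the transverse quadratic form `2 Im Φ₂` -/
noncomputable def Tube.q (τ : Tube) (s : ℝ) (z : ℝ × ℝ) : ℝ := 2 * (τ.phi2 (s, z)).im

theorem Tube.q_eq (τ : Tube) (s : ℝ) (z : ℝ × ℝ) : τ.q s z =
    (Complex.I * (eta (s, z) * ((z.1 : ℂ) - τ.kap s * eta (s, z)))).im := phi2_im τ (s, z)

theorem Tube.q_smul (τ : Tube) (s r : ℝ) (z : ℝ × ℝ) : τ.q s (r • z) = r ^ 2 * τ.q s z := by
  rw [Tube.q_eq, Tube.q_eq]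
  have h1 : eta (s, r • z) = (r : ℂ) * eta (s, z) := by
    unfold eta
    simp only [Prod.smul_fst, Prod.smul_snd, smul_eq_mul, Complex.ofReal_mul]
    ring
  have h2 : (((r • z).1 : ℝ) : ℂ) = (r : ℂ) * (z.1 : ℂ) := by
    simp only [Prod.smul_fst, smul_eq_mul, Complex.ofReal_mul]
  rw [h1, h2, show Complex.I * ((r : ℂ) * eta (s, z) * ((r : ℂ) * (z.1 : ℂ) -
      τ.kap s * ((r : ℂ) * eta (s, z)))) =
    ((r ^ 2 : ℝ) : ℂ) * (Complex.I * (eta (s, z) * ((z.1 : ℂ) - τ.kap s * eta (s, z)))) by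
      push_cast; ring, Complex.im_ofReal_mul]

theorem Tube.phi2_smooth (τ : Tube) {Φ : T3 → ℂ} (hΦs : ContDiff ℝ ∞ Φ)
    (hΦ : J 3 (fun p => Φ p - τ.phi2 p)) : ContDiff ℝ ∞ τ.phi2 := by
  have h := hΦs.sub (J_contDiff hΦ)
  have h2 : (fun p => Φ p - (Φ p - τ.phi2 p)) = τ.phi2 := by
    funext p; ring
  rwa [h2] at h

/-- the product region `[0, ℓ] × closedBall 0 ε` -/
def reg (ℓ ε : ℝ) : Set T3 := Icc 0 ℓ ×ˢ Metric.closedBall (0 : ℝ × ℝ) ε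

theorem reg_compact (ℓ ε : ℝ) : IsCompact (reg ℓ ε) := isCompact_Icc.prod (isCompact_closedBall _ _)

theorem exists_reg {U : Set T3} (hU : IsOpen U) {ℓ : ℝ}
    (hseg : ∀ s ∈ Icc 0 ℓ, ((s, 0, 0) : T3) ∈ U) : ∃ ε : ℝ, 0 < ε ∧ reg ℓ ε ⊆ U := by
  have hsub : Icc 0 ℓ ×ˢ ({0} : Set (ℝ × ℝ)) ⊆ U := by
    rintro ⟨s, z⟩ ⟨hs, hz⟩
    rw [mem_singleton_iff] at hz
    change z = 0 at hz
    subst hz
    exact hseg s hs
  obtain ⟨u, v, _, hv, hsu, h0v, huv⟩ := generalized_tube_lemma isCompact_Icc isCompact_singleton hU hsub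
  obtain ⟨ε, hε, hball⟩ := Metric.nhds_basis_closedBall.mem_iff.1 (hv.mem_nhds (h0v rfl))
  exact ⟨ε, hε, fun p hp => huv ⟨hsu hp.1, hball hp.2⟩⟩

theorem reg_mono {ℓ ε ε' : ℝ} (h : ε ≤ ε') : reg ℓ ε ⊆ reg ℓ ε' :=
  prod_mono le_rfl (Metric.closedBall_subset_closedBall h)

theorem region (τ : Tube) {Φ : T3 → ℂ} (hΦ : J 3 (fun p => Φ p - τ.phi2 p)) {U : Set T3}
    (hU : IsOpen U) {ℓ : ℝ} (hseg : ∀ s ∈ Icc 0 ℓ, ((s, 0, 0) : T3) ∈ U) :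
    ∃ ε c C : ℝ, 0 < ε ∧ 0 < c ∧ reg ℓ ε ⊆ U ∧ (∀ p ∈ reg ℓ ε, c * ‖p.2‖ ^ 2 ≤ 2 * (Φ p).im) ∧
      (∀ p ∈ reg ℓ ε, |2 * (Φ p).im - τ.q p.1 p.2| ≤ C * ‖p.2‖ ^ 3) ∧
      ∀ s ∈ Icc 0 ℓ, ∀ z, c * ‖z‖ ^ 2 ≤ τ.q s z := by
  obtain ⟨c₀, hc₀, hpos⟩ := phi2_pos τ ℓ
  obtain ⟨C₀, hC₀, hb⟩ := J_bound hΦ (reg_compact ℓ 1)
  obtain ⟨ε₁, hε₁, hreg⟩ := exists_reg hU hseg
  have hq : ∀ s ∈ Icc 0 ℓ, ∀ z, c₀ * ‖z‖ ^ 2 ≤ τ.q s z := fun s hs z =>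
    hpos (s, z) (by rw [abs_le]; constructor <;> linarith [hs.1, hs.2])
  set ε := min ε₁ (min 1 (c₀ / (4 * C₀ + 1))) with hε
  have hε0 : 0 < ε := lt_min hε₁ (lt_min one_pos (by positivity))
  have hε1 : ε ≤ 1 := (min_le_right _ _).trans (min_le_left _ _)
  have hε2 : ε ≤ c₀ / (4 * C₀ + 1) := (min_le_right _ _).trans (min_le_right _ _)
  have hdiff : ∀ p ∈ reg ℓ ε, |2 * (Φ p).im - τ.q p.1 p.2| ≤ 2 * C₀ * ‖p.2‖ ^ 3 := by
    intro p hp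
    have h1 := hb p (reg_mono hε1 hp)
    have h2 : 2 * (Φ p).im - τ.q p.1 p.2 = 2 * (Φ p - τ.phi2 p).im := by
      rw [Complex.sub_im]; unfold Tube.q; ring
    rw [h2, abs_mul, abs_of_pos (by norm_num : (0 : ℝ) < 2)]
    have h3 := Complex.abs_im_le_norm (Φ p - τ.phi2 p)
    nlinarith
  refine ⟨ε, c₀ / 2, 2 * C₀, hε0, by positivity, (reg_mono (min_le_left _ _)).trans hreg, ?_, hdiff, ?_⟩
  · intro p hp
    have h1 := hdiff p hp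
    have h2 := hq p.1 hp.1 p.2
    have h3 : ‖p.2‖ ≤ ε := by
      have := hp.2
      rwa [mem_closedBall_zero_iff] at this
    have h4 : 2 * C₀ * ε ≤ c₀ / 2 := by
      rw [le_div_iff₀ (by positivity)] at hε2
      nlinarith
    have h5 : 2 * C₀ * ‖p.2‖ ^ 3 ≤ c₀ / 2 * ‖p.2‖ ^ 2 := by
      have h6 : 0 ≤ ‖p.2‖ := norm_nonneg _
      calc 2 * C₀ * ‖p.2‖ ^ 3 = (2 * C₀ * ‖p.2‖) * ‖p.2‖ ^ 2 := by ring
        _ ≤ (2 * C₀ * ε) * ‖p.2‖ ^ 2 := by gcongr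
        _ ≤ c₀ / 2 * ‖p.2‖ ^ 2 := by gcongr
    rw [abs_le] at h1
    linarith [h1.1]
  · intro s hs z
    refine le_trans ?_ (hq s hs z)
    have : 0 ≤ ‖z‖ ^ 2 := by positivity
    nlinarith

/-! ### locality -/

theorem op_congr (w : CVF) {A A' : T3 → ℂ} {O : Set T3} (hO : IsOpen O) (h : EqOn A A' O) :
    EqOn (w.op A) (w.op A') O := by
  intro p hp
  have h1 : fderiv ℝ A p = fderiv ℝ A' p := (h.eventuallyEq_of_mem (hO.mem_nhds hp)).fderiv_eq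
  simp only [CVF.op, pd0, pd1, pd2, h1]

theorem W1_congr (w : CVF) (m : T3 → ℂ) {A A' : T3 → ℂ} {O : Set T3} (hO : IsOpen O)
    (h : EqOn A A' O) : EqOn (W1 w m A) (W1 w m A') O := by
  intro p hp
  simp only [W1, op_congr w hO h hp, h hp]

theorem Wd_congr (w : CVF) (n : T3 → ℂ) {A A' : T3 → ℂ} {O : Set T3} (hO : IsOpen O)
    (h : EqOn A A' O) : EqOn (Wd w n A) (Wd w n A') O := by
  intro p hp
  simp only [Wd, op_congr w.conj hO h hp, h hp]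

theorem c2_congr (w : CVF) (Φ : T3 → ℂ) {A A' : T3 → ℂ} {O : Set T3} (h : EqOn A A' O) :
    EqOn (c2 w Φ A) (c2 w Φ A') O := by
  intro p hp
  simp only [c2, h hp]

theorem c1_congr (w : CVF) (m n Φ : T3 → ℂ) {A A' : T3 → ℂ} {O : Set T3} (hO : IsOpen O)
    (h : EqOn A A' O) : EqOn (c1 w m n Φ A) (c1 w m n Φ A') O := by
  intro p hp
  have h1 : EqOn (fun q => w.op Φ q * A q) (fun q => w.op Φ q * A' q) O := by
    intro q hq
    simp only [h hq]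
  simp only [c1, W1_congr w m hO h hp, Wd_congr w n hO h1 hp, h hp]

theorem c0_congr (w : CVF) (m n om : T3 → ℂ) {A A' : T3 → ℂ} {O : Set T3} (hO : IsOpen O)
    (h : EqOn A A' O) : EqOn (c0 w m n om A) (c0 w m n om A') O := by
  intro p hp
  have h1 : fderiv ℝ A p = fderiv ℝ A' p := (h.eventuallyEq_of_mem (hO.mem_nhds hp)).fderiv_eq
  simp only [c0, Wd_congr w n hO (W1_congr w m hO h) hp, h hp, pd0, h1]

theorem dir_congr {F : Type*} [NormedAddCommGroup F] [NormedSpace ℝ F] (V : T3 → T3) {A A' : T3 → F}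
    {O : Set T3} (hO : IsOpen O) (h : EqOn A A' O) : EqOn (dir V A) (dir V A') O := by
  intro p hp
  have h1 : fderiv ℝ A p = fderiv ℝ A' p := (h.eventuallyEq_of_mem (hO.mem_nhds hp)).fderiv_eq
  simp only [dir, h1]

theorem L_congr {F : Type*} [NormedAddCommGroup F] [NormedSpace ℝ F] (τ : Tube) {A A' : T3 → F}
    {O : Set T3} (hO : IsOpen O) (h : EqOn A A' O) : EqOn (τ.L A) (τ.L A') O := by
  intro p hp
  simp only [Tube.L, dir_congr τ.X hO h hp, dir_congr τ.Y hO h hp,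
    dir_congr τ.X hO (dir_congr τ.X hO h) hp, dir_congr τ.Y hO (dir_congr τ.Y hO h) hp]

theorem op_zero (w : CVF) : w.op (fun _ => 0) = fun _ => 0 := by
  funext p; simp [CVF.op, pd0, pd1, pd2]

theorem c2_zero (w : CVF) (Φ : T3 → ℂ) : c2 w Φ (fun _ => 0) = fun _ => 0 := by
  funext p; simp [c2]

theorem W1_zero (w : CVF) (m : T3 → ℂ) : W1 w m (fun _ => 0) = fun _ => 0 := by
  funext p; simp [W1, op_zero]

theorem Wd_zero (w : CVF) (n : T3 → ℂ) : Wd w n (fun _ => 0) = fun _ => 0 := by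
  funext p; simp [Wd, op_zero]

theorem c1_zero (w : CVF) (m n Φ : T3 → ℂ) : c1 w m n Φ (fun _ => 0) = fun _ => 0 := by
  funext p; simp [c1, W1_zero, Wd_zero]

theorem c0_zero (w : CVF) (m n om : T3 → ℂ) : c0 w m n om (fun _ => 0) = fun _ => 0 := by
  funext p; simp [c0, W1_zero, Wd_zero, pd0]

theorem L_zero {F : Type*} [NormedAddCommGroup F] [NormedSpace ℝ F] (τ : Tube) :
    τ.L (fun _ => (0 : F)) = fun _ => 0 := by
  have h : ∀ V : T3 → T3, dir V (fun _ => (0 : F)) = fun _ => 0 := by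
    intro V; funext p; simp [dir]
  funext p
  simp [Tube.L, h]

/-! ### smoothness of the coefficients -/

theorem W1_smooth {w : CVF} (hw : w.Smooth) {m A : T3 → ℂ} (hm : ContDiff ℝ ∞ m)
    (hA : ContDiff ℝ ∞ A) : ContDiff ℝ ∞ (W1 w m A) := (hw.op hA).add (hm.mul hA)

theorem Wd_smooth {w : CVF} (hw : w.Smooth) {n A : T3 → ℂ} (hn : ContDiff ℝ ∞ n)
    (hA : ContDiff ℝ ∞ A) : ContDiff ℝ ∞ (Wd w n A) := (hw.conj.op hA).neg.add (hn.mul hA)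

theorem pd0_smooth {A : T3 → ℂ} (hA : ContDiff ℝ ∞ A) : ContDiff ℝ ∞ (pd0 A) :=
  J_pd0 (k := 0) hA

theorem c2_smooth {w : CVF} (hw : w.Smooth) {Φ A : T3 → ℂ} (hΦ : ContDiff ℝ ∞ Φ)
    (hA : ContDiff ℝ ∞ A) : ContDiff ℝ ∞ (c2 w Φ A) := ((hw.conj.op hΦ).mul (hw.op hΦ)).mul hA

theorem c1_smooth {w : CVF} (hw : w.Smooth) {m n Φ A : T3 → ℂ} (hm : ContDiff ℝ ∞ m)
    (hn : ContDiff ℝ ∞ n) (hΦ : ContDiff ℝ ∞ Φ) (hA : ContDiff ℝ ∞ A) :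
    ContDiff ℝ ∞ (c1 w m n Φ A) := by
  have h1 : ContDiff ℝ ∞ (fun q => w.op Φ q * A q) := (hw.op hΦ).mul hA
  exact (((contDiff_const.mul (hw.conj.op hΦ)).mul (W1_smooth hw hm hA)).add
    (contDiff_const.mul (Wd_smooth hw hn h1))).add (((pd0_smooth hΦ).sub contDiff_const).mul hA)

theorem c0_smooth {w : CVF} (hw : w.Smooth) {m n om A : T3 → ℂ} (hm : ContDiff ℝ ∞ m)
    (hn : ContDiff ℝ ∞ n) (hom : ContDiff ℝ ∞ om) (hA : ContDiff ℝ ∞ A) :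
    ContDiff ℝ ∞ (c0 w m n om A) :=
  ((Wd_smooth hw hn (W1_smooth hw hm hA)).sub (contDiff_const.mul (pd0_smooth hA))).add (hom.mul hA)

/-- bounds for a function which agrees with a function in `J k` near the axis -/
theorem bound_of_near {k : ℕ} {f f' : T3 → ℂ} (hf : Continuous f) (hf' : J k f') {δ : ℝ} (hδ : 0 < δ)
    (h : ∀ p : T3, ‖p.2‖ < δ → f p = f' p) {K : Set T3} (hK : IsCompact K) :
    ∃ C : ℝ, 0 ≤ C ∧ ∀ p ∈ K, ‖f p‖ ≤ C * ‖p.2‖ ^ k := by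
  obtain ⟨C₁, hC₁, h1⟩ := J_bound hf' hK
  obtain ⟨C₂, h2⟩ := hK.exists_bound_of_continuousOn hf.continuousOn
  refine ⟨C₁ + |C₂| / δ ^ k, by positivity, fun p hp => ?_⟩
  by_cases hpδ : ‖p.2‖ < δ
  · rw [h p hpδ]
    refine (h1 p hp).trans ?_
    gcongr
    exact le_add_of_nonneg_right (by positivity)
  · push Not at hpδ
    have h3 : δ ^ k ≤ ‖p.2‖ ^ k := pow_le_pow_left₀ hδ.le hpδ k
    calc ‖f p‖ ≤ |C₂| := (h2 p hp).trans (le_abs_self _)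
      _ = |C₂| / δ ^ k * δ ^ k := by field_simp
      _ ≤ |C₂| / δ ^ k * ‖p.2‖ ^ k := by gcongr
      _ ≤ (C₁ + |C₂| / δ ^ k) * ‖p.2‖ ^ k := by
        gcongr
        exact le_add_of_nonneg_left hC₁

end Pool.Agent.SRGap
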