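import Pool.Agent.Work.MP_188050_an.QMa

/-!
# Quasimodes, part b: the quasimode `exp (i t Φ) A` and the formula for `(L - t) v`
-/

open Set MeasureTheory Filter Topology
open scoped ContDiff

namespace Pool.Agent.SRGap

/-- all data of the quasimode construction -/
structure QD (τ : Tube) (U : Set T3) (ℓ : ℝ) where
  Φ : T3 → ℂ
  a₀ : ℝ → ℂ
  A₀ : T3 → ℂ
  B : T3 → ℂ
  ε : ℝ
  c : ℝ
  C : ℝ
  χ : ℝ × ℝ → ℝ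
  hU : IsOpen U
  good : τ.Good U
  hΦs : ContDiff ℝ ∞ Φ
  hΦ : J 3 (fun p => Φ p - τ.phi2 p)
  ha₀ : ContDiff ℝ ∞ a₀
  ha₀n : ∀ s, a₀ s ≠ 0
  hA₀ : ContDiff ℝ ∞ A₀
  hB : ContDiff ℝ ∞ B
  hamp : ∀ ψ : ℝ → ℝ, ContDiff ℝ ∞ ψ →
    J 1 (fun p => ((ψ p.1 : ℂ) * A₀ p + ((deriv ψ p.1 : ℝ) : ℂ) * B p) - (ψ p.1 : ℂ) * a₀ p.1) ∧
    J 5 (c2 τ.w Φ (fun p => (ψ p.1 : ℂ) * A₀ p + ((deriv ψ p.1 : ℝ) : ℂ) * B p)) ∧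
    J 3 (c1 τ.w τ.mu τ.nu Φ (fun p => (ψ p.1 : ℂ) * A₀ p + ((deriv ψ p.1 : ℝ) : ℂ) * B p)) ∧
    J 1 (fun p => c0 τ.w τ.mu τ.nu τ.om
      (fun p => (ψ p.1 : ℂ) * A₀ p + ((deriv ψ p.1 : ℝ) : ℂ) * B p) p +
      Complex.I * ((deriv ψ p.1 : ℝ) : ℂ) * a₀ p.1)
  hε : 0 < ε
  hc : 0 < c
  hreg : reg ℓ ε ⊆ U
  hlow : ∀ p ∈ reg ℓ ε, c * ‖p.2‖ ^ 2 ≤ 2 * (Φ p).im
  happr : ∀ p ∈ reg ℓ ε, |2 * (Φ p).im - τ.q p.1 p.2| ≤ C * ‖p.2‖ ^ 3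
  hq : ∀ s ∈ Icc 0 ℓ, ∀ z, c * ‖z‖ ^ 2 ≤ τ.q s z
  hχs : ContDiff ℝ ∞ χ
  hχ1 : ∀ z, ‖z‖ < ε / 2 → χ z = 1
  hχ0 : ∀ z, ε < ‖z‖ → χ z = 0

theorem exists_QD (τ : Tube) {U : Set T3} (hU : IsOpen U) (hgood : τ.Good U) {ℓ : ℝ}
    (hseg : ∀ s ∈ Icc 0 ℓ, ((s, 0, 0) : T3) ∈ U) : Nonempty (QD τ U ℓ) := by
  obtain ⟨Φ, hΦs, hΦ, hΦ4⟩ := exists_phase τ
  obtain ⟨a₀, A₀, B, ha₀, ha₀n, hA₀, hB, hamp⟩ := exists_amp τ τ.mu τ.nu τ.om τ.mu_smooth τ.nu_smooth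
    τ.om_smooth hΦs hΦ hΦ4
  obtain ⟨ε, c, C, hε, hc, hreg, hlow, happr, hq⟩ := region τ hΦ hU hseg
  let f : ContDiffBump (0 : ℝ × ℝ) := ⟨ε / 2, ε, by positivity, by linarith⟩
  refine ⟨⟨Φ, a₀, A₀, B, ε, c, C, f, hU, hgood, hΦs, hΦ, ha₀, ha₀n, hA₀, hB, hamp, hε, hc, hreg, hlow,
    happr, hq, f.contDiff, fun z hz => ?_, fun z hz => ?_⟩⟩
  · exact f.one_of_mem_closedBall (by rw [mem_closedBall_zero_iff]; exact hz.le)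
  · exact f.zero_of_le_dist (by rw [dist_zero_right]; exact hz.le)

/-- test functions on `(0, ℓ)` -/
structure Test (ℓ : ℝ) (ψ : ℝ → ℝ) : Prop where
  smooth : ContDiff ℝ ∞ ψ
  compact : HasCompactSupport ψ
  supp : tsupport ψ ⊆ Ioo 0 ℓ

theorem Test.zero_of {ℓ : ℝ} {ψ : ℝ → ℝ} (h : Test ℓ ψ) {s : ℝ} (hs : s ∉ Icc 0 ℓ) :
    ψ s = 0 ∧ deriv ψ s = 0 := by
  have h1 : s ∉ tsupport ψ := fun h' => hs (Ioo_subset_Icc_self (h.supp h'))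
  refine ⟨image_eq_zero_of_notMem_tsupport h1, ?_⟩
  exact image_eq_zero_of_notMem_tsupport fun h' => h1 (tsupport_deriv_subset h')

theorem Test.deriv_smooth {ℓ : ℝ} {ψ : ℝ → ℝ} (h : Test ℓ ψ) : ContDiff ℝ ∞ (deriv ψ) :=
  (contDiff_infty_iff_deriv.1 h.smooth).2

namespace QD

variable {τ : Tube} {U : Set T3} {ℓ : ℝ} (D : QD τ U ℓ)

/-- the amplitude without cutoff -/
noncomputable def raw (ψ : ℝ → ℝ) (p : T3) : ℂ :=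
  (ψ p.1 : ℂ) * D.A₀ p + ((deriv ψ p.1 : ℝ) : ℂ) * D.B p

/-- the amplitude -/
noncomputable def A (ψ : ℝ → ℝ) (p : T3) : ℂ := (D.χ p.2 : ℂ) * D.raw ψ p

/-- the quasimode -/
noncomputable def v (ψ : ℝ → ℝ) (t : ℝ) (p : T3) : ℂ :=
  Complex.exp (Complex.I * t * D.Φ p) * D.A ψ p

/-- the coefficient of `(L - t) v` -/
noncomputable def P (ψ : ℝ → ℝ) (t : ℝ) (p : T3) : ℂ :=
  (t : ℂ) ^ 2 * c2 τ.w D.Φ (D.A ψ) p + t * c1 τ.w τ.mu τ.nu D.Φ (D.A ψ) p +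
    c0 τ.w τ.mu τ.nu τ.om (D.A ψ) p

theorem raw_smooth {ψ : ℝ → ℝ} (hψ : Test ℓ ψ) : ContDiff ℝ ∞ (D.raw ψ) := by
  have h1 : ContDiff ℝ ∞ (fun p : T3 => ((ψ p.1 : ℝ) : ℂ)) :=
    Complex.ofRealCLM.contDiff.comp (hψ.smooth.comp contDiff_fst)
  have h2 : ContDiff ℝ ∞ (fun p : T3 => ((deriv ψ p.1 : ℝ) : ℂ)) :=
    Complex.ofRealCLM.contDiff.comp (hψ.deriv_smooth.comp contDiff_fst)
  exact (h1.mul D.hA₀).add (h2.mul D.hB)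

theorem A_smooth {ψ : ℝ → ℝ} (hψ : Test ℓ ψ) : ContDiff ℝ ∞ (D.A ψ) := by
  have h1 : ContDiff ℝ ∞ (fun p : T3 => ((D.χ p.2 : ℝ) : ℂ)) :=
    Complex.ofRealCLM.contDiff.comp (D.hχs.comp contDiff_snd)
  exact h1.mul (D.raw_smooth hψ)

theorem A_zero {ψ : ℝ → ℝ} (hψ : Test ℓ ψ) {p : T3} (hp : p ∉ reg ℓ D.ε) : D.A ψ p = 0 := by
  unfold A
  by_cases hs : p.1 ∈ Icc 0 ℓ
  · have hz : p.2 ∉ Metric.closedBall (0 : ℝ × ℝ) D.ε := fun h => hp ⟨hs, h⟩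
    rw [mem_closedBall_zero_iff, not_le] at hz
    rw [D.hχ0 _ hz, Complex.ofReal_zero, zero_mul]
  · obtain ⟨h1, h2⟩ := hψ.zero_of hs
    unfold raw
    rw [h1, h2]
    simp

theorem isOpen_compl : IsOpen (reg ℓ D.ε)ᶜ := (reg_compact ℓ D.ε).isClosed.isOpen_compl

theorem A_eqOn_zero {ψ : ℝ → ℝ} (hψ : Test ℓ ψ) : EqOn (D.A ψ) (fun _ => 0) (reg ℓ D.ε)ᶜ :=
  fun _ hp => D.A_zero hψ hp

/-- the neighbourhood of the axis where the cutoff is one -/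
def near : Set T3 := {p | ‖p.2‖ < D.ε / 2}

theorem isOpen_near : IsOpen D.near := isOpen_lt (by fun_prop) continuous_const

theorem A_eqOn_raw (ψ : ℝ → ℝ) : EqOn (D.A ψ) (D.raw ψ) D.near := by
  intro p hp
  unfold A
  rw [D.hχ1 _ hp, Complex.ofReal_one, one_mul]

theorem axis_near (s : ℝ) : ((s, 0, 0) : T3) ∈ D.near := by
  change ‖((0 : ℝ), (0 : ℝ))‖ < D.ε / 2
  have : ‖((0 : ℝ), (0 : ℝ))‖ = 0 := norm_zero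
  rw [this]
  have := D.hε
  linarith

theorem A_axis {ψ : ℝ → ℝ} (hψ : Test ℓ ψ) (s : ℝ) : D.A ψ (s, 0, 0) = (ψ s : ℂ) * D.a₀ s := by
  rw [D.A_eqOn_raw ψ (D.axis_near s)]
  exact sub_eq_zero.1 (J_axis (D.hamp ψ hψ.smooth).1 s)

theorem c0_axis {ψ : ℝ → ℝ} (hψ : Test ℓ ψ) (s : ℝ) :
    c0 τ.w τ.mu τ.nu τ.om (D.A ψ) (s, 0, 0) = -(Complex.I * ((deriv ψ s : ℝ) : ℂ) * D.a₀ s) := by
  rw [c0_congr _ _ _ _ D.isOpen_near (D.A_eqOn_raw ψ) (D.axis_near s)]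
  exact eq_neg_of_add_eq_zero_left (J_axis (D.hamp ψ hψ.smooth).2.2.2 s)

theorem c2_bound {ψ : ℝ → ℝ} (hψ : Test ℓ ψ) : ∃ C : ℝ, 0 ≤ C ∧ ∀ p ∈ reg ℓ D.ε,
    ‖c2 τ.w D.Φ (D.A ψ) p‖ ≤ C * ‖p.2‖ ^ 5 :=
  bound_of_near (c2_smooth τ.w_smooth D.hΦs (D.A_smooth hψ)).continuous (D.hamp ψ hψ.smooth).2.1
    (δ := D.ε / 2) (by have := D.hε; positivity)
    (fun _ hp => c2_congr _ _ (D.A_eqOn_raw ψ) hp) (reg_compact _ _)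

theorem c1_bound {ψ : ℝ → ℝ} (hψ : Test ℓ ψ) : ∃ C : ℝ, 0 ≤ C ∧ ∀ p ∈ reg ℓ D.ε,
    ‖c1 τ.w τ.mu τ.nu D.Φ (D.A ψ) p‖ ≤ C * ‖p.2‖ ^ 3 :=
  bound_of_near (c1_smooth τ.w_smooth τ.mu_smooth τ.nu_smooth D.hΦs (D.A_smooth hψ)).continuous
    (D.hamp ψ hψ.smooth).2.2.1 (δ := D.ε / 2) (by have := D.hε; positivity)
    (fun _ hp => c1_congr _ _ _ _ D.isOpen_near (D.A_eqOn_raw ψ) hp) (reg_compact _ _)

theorem c2_zero_of {ψ : ℝ → ℝ} (hψ : Test ℓ ψ) {p : T3} (hp : p ∉ reg ℓ D.ε) :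
    c2 τ.w D.Φ (D.A ψ) p = 0 := by
  rw [c2_congr _ _ (D.A_eqOn_zero hψ) hp, c2_zero]

theorem c1_zero_of {ψ : ℝ → ℝ} (hψ : Test ℓ ψ) {p : T3} (hp : p ∉ reg ℓ D.ε) :
    c1 τ.w τ.mu τ.nu D.Φ (D.A ψ) p = 0 := by
  rw [c1_congr _ _ _ _ D.isOpen_compl (D.A_eqOn_zero hψ) hp, c1_zero]

theorem c0_zero_of {ψ : ℝ → ℝ} (hψ : Test ℓ ψ) {p : T3} (hp : p ∉ reg ℓ D.ε) :
    c0 τ.w τ.mu τ.nu τ.om (D.A ψ) p = 0 := by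
  rw [c0_congr _ _ _ _ D.isOpen_compl (D.A_eqOn_zero hψ) hp, c0_zero]

theorem v_smooth {ψ : ℝ → ℝ} (hψ : Test ℓ ψ) (t : ℝ) : ContDiff ℝ ∞ (D.v ψ t) :=
  (Complex.contDiff_exp.comp (contDiff_const.mul D.hΦs)).mul (D.A_smooth hψ)

theorem v_zero {ψ : ℝ → ℝ} (hψ : Test ℓ ψ) (t : ℝ) {p : T3} (hp : p ∉ reg ℓ D.ε) : D.v ψ t p = 0 := by
  unfold v
  rw [D.A_zero hψ hp, mul_zero]

theorem v_tsupport {ψ : ℝ → ℝ} (hψ : Test ℓ ψ) (t : ℝ) : tsupport (D.v ψ t) ⊆ reg ℓ D.ε := by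
  refine closure_minimal ?_ (reg_compact ℓ D.ε).isClosed
  intro p hp
  by_contra hcon
  exact hp (D.v_zero hψ t hcon)

theorem v_compact {ψ : ℝ → ℝ} (hψ : Test ℓ ψ) (t : ℝ) : HasCompactSupport (D.v ψ t) :=
  (reg_compact ℓ D.ε).of_isClosed_subset (isClosed_tsupport _) (D.v_tsupport hψ t)

/-- the formula for `(L - t) v` -/
theorem formula {ψ : ℝ → ℝ} (hψ : Test ℓ ψ) (t : ℝ) (p : T3) :
    τ.L (D.v ψ t) p - t * D.v ψ t p = Complex.exp (Complex.I * t * D.Φ p) * D.P ψ t p := by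
  by_cases hp : p ∈ reg ℓ D.ε
  · rw [oper τ D.hU D.good (D.v_smooth hψ t) (D.hreg hp)]
    exact conj_formula τ.w τ.mu τ.nu τ.om τ.w_smooth τ.mu_smooth D.hΦs (D.A_smooth hψ) t p
  · have h1 : EqOn (D.v ψ t) (fun _ => 0) (reg ℓ D.ε)ᶜ := fun q hq => D.v_zero hψ t hq
    rw [L_congr τ D.isOpen_compl h1 hp, L_zero, D.v_zero hψ t hp]
    unfold P
    rw [D.c2_zero_of hψ hp, D.c1_zero_of hψ hp, D.c0_zero_of hψ hp]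
    simp

/-- the phase function of the Gaussian weight -/
noncomputable def φ (p : T3) : ℝ := 2 * (D.Φ p).im

theorem φ_cont : Continuous D.φ := by
  have := D.hΦs.continuous
  unfold φ
  fun_prop

theorem norm_exp_sq (t : ℝ) (p : T3) :
    ‖Complex.exp (Complex.I * t * D.Φ p)‖ ^ 2 = Real.exp (-(t * D.φ p)) := by
  rw [Complex.norm_exp, ← Real.exp_nat_mul]
  congr 1
  unfold φ
  simp only [Complex.mul_re, Complex.I_re, Complex.I_im, Complex.ofReal_re, Complex.ofReal_im,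
    Complex.mul_im]
  push_cast
  ring

theorem norm_v_sq (ψ : ℝ → ℝ) (t : ℝ) (p : T3) :
    ‖D.v ψ t p‖ ^ 2 = ‖D.A ψ p‖ ^ 2 * Real.exp (-(t * D.φ p)) := by
  unfold v
  rw [norm_mul, mul_pow, D.norm_exp_sq]
  ring

theorem norm_Lv_sq {ψ : ℝ → ℝ} (hψ : Test ℓ ψ) (t : ℝ) (p : T3) :
    ‖τ.L (D.v ψ t) p - t * D.v ψ t p‖ ^ 2 = ‖D.P ψ t p‖ ^ 2 * Real.exp (-(t * D.φ p)) := by
  rw [D.formula hψ, norm_mul, mul_pow, D.norm_exp_sq]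
  ring

end QD

end Pool.Agent.SRGap
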