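import Pool.Agent.Work.MP_188050_an.QMb

/-!
# Quasimodes, part c: limits of the integrals
-/

open Set MeasureTheory Filter Topology
open scoped ContDiff

namespace Pool.Agent.SRGap
namespace QD

variable {τ : Tube} {U : Set T3} {ℓ : ℝ} (D : QD τ U ℓ)

include D in
theorem q_cont : Continuous fun z : T3 => τ.q z.1 z.2 := by
  have h : Continuous τ.phi2 := (τ.phi2_smooth D.hΦs D.hΦ).continuous
  exact continuous_const.mul (Complex.continuous_im.comp h)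

/-- transverse Gaussian integral -/
noncomputable def G (τ : Tube) (s : ℝ) : ℝ := ∫ z : ℝ × ℝ, Real.exp (-τ.q s z)

/-- the weight on the axis -/
noncomputable def N (s : ℝ) : ℝ := ‖D.a₀ s‖ ^ 2 * τ.ρ (s, 0, 0) * G τ s

include D in
theorem G_props : Continuous (G τ) ∧ ∀ s, 0 < G τ s := by
  refine gauss_cont D.q_cont fun R => ?_
  obtain ⟨c, hc, h⟩ := phi2_pos τ R
  exact ⟨c, hc, fun s hs z => h (s, z) hs⟩

theorem N_cont : Continuous D.N := by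
  have h1 := D.G_props.1
  have h2 := D.ha₀.continuous
  have h3 := τ.smooth_ρ.continuous
  unfold N
  fun_prop

theorem N_pos (s : ℝ) : 0 < D.N s := by
  have h1 := D.G_props.2 s
  have h2 := norm_pos_iff.2 (D.ha₀n s)
  have h3 := τ.ρ_pos (s, 0, 0)
  unfold N
  positivity

theorem lim {F : T3 → ℝ} (hF : Continuous F) (hF0 : ∀ p, p ∉ reg ℓ D.ε → F p = 0) :
    Tendsto (fun t : ℝ => t * ∫ p, F p * Real.exp (-(t * D.φ p))) atTop
      (𝓝 (∫ s : ℝ, F (s, 0, 0) * G τ s)) :=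
  gauss_limit (reg_compact ℓ D.ε) D.φ_cont D.q_cont τ.q_smul D.hc D.hlow
    (fun s hs z => D.hq s (by obtain ⟨z', hz'⟩ := hs; exact hz'.1) z) D.happr hF hF0

theorem small {F : T3 → ℝ} (hF : Continuous F) (hF0 : ∀ p, p ∉ reg ℓ D.ε → F p = 0) {k : ℕ} {C : ℝ}
    (hb : ∀ p ∈ reg ℓ D.ε, |F p| ≤ C * ‖p.2‖ ^ k) :
    ∃ C' : ℝ, ∀ t : ℝ, 1 ≤ t → t * ∫ p, |F p| * Real.exp (-(t * D.φ p)) ≤ C' / Real.sqrt t ^ k :=
  gauss_bound (reg_compact ℓ D.ε) D.φ_cont D.hc D.hlow hF hF0 hb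

theorem integrable {F : T3 → ℝ} (hF : Continuous F) (hF0 : ∀ p, p ∉ reg ℓ D.ε → F p = 0) (t : ℝ) :
    Integrable (fun p => F p * Real.exp (-(t * D.φ p))) := by
  refine Continuous.integrable_of_hasCompactSupport ?_ ?_
  · have := D.φ_cont
    fun_prop
  · refine HasCompactSupport.intro (reg_compact ℓ D.ε) fun p hp => ?_
    rw [hF0 p hp, zero_mul]

theorem ρ_bound : ∃ R : ℝ, 0 ≤ R ∧ ∀ p ∈ reg ℓ D.ε, τ.ρ p ≤ R := by
  obtain ⟨R, hR⟩ := (reg_compact ℓ D.ε).exists_bound_of_continuousOn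
    (τ.smooth_ρ.continuous.continuousOn (s := reg ℓ D.ε))
  exact ⟨|R|, abs_nonneg R, fun p hp => (le_abs_self _).trans ((hR p hp).trans (le_abs_self R))⟩

theorem den {ψ : ℝ → ℝ} (hψ : Test ℓ ψ) :
    Tendsto (fun t : ℝ => t * ∫ p, ‖D.v ψ t p‖ ^ 2 * τ.ρ p) atTop
      (𝓝 (∫ s : ℝ, ψ s ^ 2 * D.N s)) := by
  have hA := (D.A_smooth hψ).continuous
  have hρ := τ.smooth_ρ.continuous
  have h := D.lim (F := fun p => ‖D.A ψ p‖ ^ 2 * τ.ρ p) (by fun_prop)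
    (fun p hp => by simp [D.A_zero hψ hp])
  convert h using 2 with t
  · congr 1
    refine integral_congr_ae (Eventually.of_forall fun p => ?_)
    simp only [D.norm_v_sq]
    ring
  · refine integral_congr_ae (Eventually.of_forall fun s => ?_)
    simp only [D.A_axis hψ, N, norm_mul, Complex.norm_real, Real.norm_eq_abs, mul_pow, sq_abs]
    ring

theorem num0 {ψ : ℝ → ℝ} (hψ : Test ℓ ψ) :
    Tendsto (fun t : ℝ => t * ∫ p, (‖c0 τ.w τ.mu τ.nu τ.om (D.A ψ) p‖ ^ 2 * τ.ρ p) *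
      Real.exp (-(t * D.φ p))) atTop (𝓝 (∫ s : ℝ, deriv ψ s ^ 2 * D.N s)) := by
  have hA := (c0_smooth τ.w_smooth τ.mu_smooth τ.nu_smooth τ.om_smooth (D.A_smooth hψ)).continuous
  have hρ := τ.smooth_ρ.continuous
  have h := D.lim (F := fun p => ‖c0 τ.w τ.mu τ.nu τ.om (D.A ψ) p‖ ^ 2 * τ.ρ p) (by fun_prop)
    (fun p hp => by simp [D.c0_zero_of hψ hp])
  convert h using 2
  refine integral_congr_ae (Eventually.of_forall fun s => ?_)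
  simp only [D.c0_axis hψ, N, norm_mul, norm_neg, Complex.norm_real, Real.norm_eq_abs, mul_pow, sq_abs,
    Complex.norm_I]
  ring

/-- the terms with `c1`, `c2` are negligible -/
theorem num_small {ψ : ℝ → ℝ} (hψ : Test ℓ ψ) : ∃ C' : ℝ, ∀ t : ℝ, 1 ≤ t →
    t * ∫ p, (‖(t : ℂ) ^ 2 * c2 τ.w D.Φ (D.A ψ) p + t * c1 τ.w τ.mu τ.nu D.Φ (D.A ψ) p‖ ^ 2 * τ.ρ p) *
      Real.exp (-(t * D.φ p)) ≤ C' / t := by
  have hA := D.A_smooth hψ
  have hc2 := (c2_smooth τ.w_smooth D.hΦs hA).continuous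
  have hc1 := (c1_smooth τ.w_smooth τ.mu_smooth τ.nu_smooth D.hΦs hA).continuous
  have hρ := τ.smooth_ρ.continuous
  obtain ⟨R, hR0, hR⟩ := D.ρ_bound
  obtain ⟨C2, hC2, hb2⟩ := D.c2_bound hψ
  obtain ⟨C1, hC1, hb1⟩ := D.c1_bound hψ
  set F2 : T3 → ℝ := fun p => ‖c2 τ.w D.Φ (D.A ψ) p‖ ^ 2 * τ.ρ p with hF2
  set F1 : T3 → ℝ := fun p => ‖c1 τ.w τ.mu τ.nu D.Φ (D.A ψ) p‖ ^ 2 * τ.ρ p with hF1
  have hF2c : Continuous F2 := by fun_prop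
  have hF1c : Continuous F1 := by fun_prop
  have hF20 : ∀ p, p ∉ reg ℓ D.ε → F2 p = 0 := fun p hp => by simp [hF2, D.c2_zero_of hψ hp]
  have hF10 : ∀ p, p ∉ reg ℓ D.ε → F1 p = 0 := fun p hp => by simp [hF1, D.c1_zero_of hψ hp]
  have hF2n : ∀ p, 0 ≤ F2 p := fun p => mul_nonneg (by positivity) (τ.ρ_pos p).le
  have hF1n : ∀ p, 0 ≤ F1 p := fun p => mul_nonneg (by positivity) (τ.ρ_pos p).le
  obtain ⟨K2, hK2⟩ := D.small hF2c hF20 (k := 10) (C := C2 ^ 2 * R) (fun p hp => by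
    rw [abs_of_nonneg (hF2n p)]
    have h1 := hb2 p hp
    have h2 := hR p hp
    have h3 := (τ.ρ_pos p).le
    calc F2 p ≤ (C2 * ‖p.2‖ ^ 5) ^ 2 * R := by
          simp only [hF2]; gcongr
      _ = C2 ^ 2 * R * ‖p.2‖ ^ 10 := by ring)
  obtain ⟨K1, hK1⟩ := D.small hF1c hF10 (k := 6) (C := C1 ^ 2 * R) (fun p hp => by
    rw [abs_of_nonneg (hF1n p)]
    have h1 := hb1 p hp
    have h2 := hR p hp
    have h3 := (τ.ρ_pos p).le
    calc F1 p ≤ (C1 * ‖p.2‖ ^ 3) ^ 2 * R := by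
          simp only [hF1]; gcongr
      _ = C1 ^ 2 * R * ‖p.2‖ ^ 6 := by ring)
  refine ⟨2 * K2 + 2 * K1, fun t ht => ?_⟩
  have ht0 : 0 < t := by linarith
  have h2 := hK2 t ht
  have h1 := hK1 t ht
  simp only [abs_of_nonneg (hF2n _)] at h2
  simp only [abs_of_nonneg (hF1n _)] at h1
  have hsq : Real.sqrt t ^ 2 = t := Real.sq_sqrt ht0.le
  have e2 : Real.sqrt t ^ 10 = t ^ 5 := by
    rw [show (10 : ℕ) = 2 * 5 from rfl, pow_mul, hsq]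
  have e1 : Real.sqrt t ^ 6 = t ^ 3 := by
    rw [show (6 : ℕ) = 2 * 3 from rfl, pow_mul, hsq]
  rw [e2] at h2
  rw [e1] at h1
  have hint2 := D.integrable hF2c hF20 t
  have hint1 := D.integrable hF1c hF10 t
  have hle : ∫ p, (‖(t : ℂ) ^ 2 * c2 τ.w D.Φ (D.A ψ) p + t * c1 τ.w τ.mu τ.nu D.Φ (D.A ψ) p‖ ^ 2 *
      τ.ρ p) * Real.exp (-(t * D.φ p)) ≤
      ∫ p, (2 * t ^ 4 * (F2 p * Real.exp (-(t * D.φ p))) +
        2 * t ^ 2 * (F1 p * Real.exp (-(t * D.φ p)))) := by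
    refine integral_mono_of_nonneg (Eventually.of_forall fun p => ?_)
      ((hint2.const_mul _).add (hint1.const_mul _)) (Eventually.of_forall fun p => ?_)
    · exact mul_nonneg (mul_nonneg (by positivity) (τ.ρ_pos p).le) (Real.exp_pos _).le
    · simp only [hF2, hF1]
      have h3 : ‖(t : ℂ) ^ 2 * c2 τ.w D.Φ (D.A ψ) p + t * c1 τ.w τ.mu τ.nu D.Φ (D.A ψ) p‖ ≤
          t ^ 2 * ‖c2 τ.w D.Φ (D.A ψ) p‖ + t * ‖c1 τ.w τ.mu τ.nu D.Φ (D.A ψ) p‖ := by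
        refine (norm_add_le _ _).trans ?_
        rw [norm_mul, norm_mul, norm_pow, Complex.norm_real, Real.norm_eq_abs, abs_of_pos ht0]
      have h4 : ‖(t : ℂ) ^ 2 * c2 τ.w D.Φ (D.A ψ) p + t * c1 τ.w τ.mu τ.nu D.Φ (D.A ψ) p‖ ^ 2 ≤
          2 * t ^ 4 * ‖c2 τ.w D.Φ (D.A ψ) p‖ ^ 2 + 2 * t ^ 2 * ‖c1 τ.w τ.mu τ.nu D.Φ (D.A ψ) p‖ ^ 2 := by
        have h5 := pow_le_pow_left₀ (norm_nonneg _) h3 2
        nlinarith [sq_nonneg (t ^ 2 * ‖c2 τ.w D.Φ (D.A ψ) p‖ - t * ‖c1 τ.w τ.mu τ.nu D.Φ (D.A ψ) p‖)]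
      have h6 : 0 ≤ τ.ρ p * Real.exp (-(t * D.φ p)) := mul_nonneg (τ.ρ_pos p).le (Real.exp_pos _).le
      nlinarith [mul_le_mul_of_nonneg_right h4 h6]
  rw [integral_add (hint2.const_mul _) (hint1.const_mul _), integral_const_mul, integral_const_mul]
    at hle
  set I2 := ∫ p, F2 p * Real.exp (-(t * D.φ p)) with hI2
  set I1 := ∫ p, F1 p * Real.exp (-(t * D.φ p)) with hI1
  calc t * ∫ p, (‖(t : ℂ) ^ 2 * c2 τ.w D.Φ (D.A ψ) p + t * c1 τ.w τ.mu τ.nu D.Φ (D.A ψ) p‖ ^ 2 *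
        τ.ρ p) * Real.exp (-(t * D.φ p))
      ≤ t * (2 * t ^ 4 * I2 + 2 * t ^ 2 * I1) := by gcongr
    _ = 2 * t ^ 4 * (t * I2) + 2 * t ^ 2 * (t * I1) := by ring
    _ ≤ 2 * t ^ 4 * (K2 / t ^ 5) + 2 * t ^ 2 * (K1 / t ^ 3) := by gcongr
    _ = (2 * K2 + 2 * K1) / t := by field_simp

end QD
end Pool.Agent.SRGap
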