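import Pool.Agent.Work.MP_188050_an.QMc

/-!
# Quasimodes, part d: the weight is constant; the quasimode estimate
-/

open Set MeasureTheory Filter Topology
open scoped ContDiff

namespace Pool.Agent.SRGap
namespace QD

variable {τ : Tube} {U : Set T3} {ℓ : ℝ} (D : QD τ U ℓ)

/-- a term which is negligible in the limit -/
theorem small_tendsto {F : T3 → ℝ} (hF : Continuous F) (hF0 : ∀ p, p ∉ reg ℓ D.ε → F p = 0) {k j : ℕ}
    (hjk : 2 * j < k) {C : ℝ} (hb : ∀ p ∈ reg ℓ D.ε, |F p| ≤ C * ‖p.2‖ ^ k) :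
    Tendsto (fun t : ℝ => t ^ j * (t * ∫ p, F p * Real.exp (-(t * D.φ p)))) atTop (𝓝 0) := by
  obtain ⟨C', hC'⟩ := D.small hF hF0 hb
  have h1 : Tendsto (fun t : ℝ => |C'| / Real.sqrt t) atTop (𝓝 0) :=
    tendsto_const_nhds.div_atTop (Real.tendsto_sqrt_atTop)
  refine squeeze_zero_norm' ?_ h1
  filter_upwards [eventually_ge_atTop 1] with t ht
  have ht0 : 0 < t := by linarith
  have hs1 : 1 ≤ Real.sqrt t := Real.one_le_sqrt.2 ht
  have hs0 : 0 < Real.sqrt t := by linarith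
  have hsq : Real.sqrt t ^ 2 = t := Real.sq_sqrt ht0.le
  have h2 := hC' t ht
  have h3 : |∫ p, F p * Real.exp (-(t * D.φ p))| ≤ ∫ p, |F p| * Real.exp (-(t * D.φ p)) := by
    refine (abs_integral_le_integral_abs).trans (le_of_eq ?_)
    refine integral_congr_ae (Eventually.of_forall fun p => ?_)
    simp only [abs_mul, abs_of_pos (Real.exp_pos _)]
  rw [Real.norm_eq_abs, abs_mul, abs_mul, abs_of_pos ht0, abs_of_pos (pow_pos ht0 j)]
  calc t ^ j * (t * |∫ p, F p * Real.exp (-(t * D.φ p))|)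
      ≤ t ^ j * (t * ∫ p, |F p| * Real.exp (-(t * D.φ p))) := by gcongr
    _ ≤ t ^ j * (C' / Real.sqrt t ^ k) := by gcongr
    _ ≤ t ^ j * (|C'| / Real.sqrt t ^ (2 * j + 1)) := by
        have h4 : Real.sqrt t ^ (2 * j + 1) ≤ Real.sqrt t ^ k := pow_le_pow_right₀ hs1 hjk
        have h5 : 0 < Real.sqrt t ^ (2 * j + 1) := by positivity
        gcongr
        exact le_abs_self _
    _ = |C'| / Real.sqrt t := by
        rw [pow_succ (Real.sqrt t) (2 * j), pow_mul, hsq]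
        field_simp

/-- the weak form of `N' = 0` -/
theorem weak {ψ : ℝ → ℝ} (hψ : Test ℓ ψ) : ∫ s, ψ s * deriv ψ s * D.N s = 0 := by
  have hA := D.A_smooth hψ
  have hAc := hA.continuous
  have hc2 := (c2_smooth τ.w_smooth D.hΦs hA).continuous
  have hc1 := (c1_smooth τ.w_smooth τ.mu_smooth τ.nu_smooth D.hΦs hA).continuous
  have hc0 := (c0_smooth τ.w_smooth τ.mu_smooth τ.nu_smooth τ.om_smooth hA).continuous
  have hρ := τ.smooth_ρ.continuous
  obtain ⟨R, hR0, hR⟩ := D.ρ_bound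
  obtain ⟨CA, hCA⟩ := (reg_compact ℓ D.ε).exists_bound_of_continuousOn (hAc.continuousOn (s := reg ℓ D.ε))
  obtain ⟨C2, hC2, hb2⟩ := D.c2_bound hψ
  obtain ⟨C1, hC1, hb1⟩ := D.c1_bound hψ
  set F2 : T3 → ℝ := fun p => (c2 τ.w D.Φ (D.A ψ) p * starRingEnd ℂ (D.A ψ p)).im * τ.ρ p with hF2
  set F1 : T3 → ℝ := fun p => (c1 τ.w τ.mu τ.nu D.Φ (D.A ψ) p * starRingEnd ℂ (D.A ψ p)).im * τ.ρ p
    with hF1
  set F0 : T3 → ℝ := fun p => (c0 τ.w τ.mu τ.nu τ.om (D.A ψ) p * starRingEnd ℂ (D.A ψ p)).im * τ.ρ p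
    with hF0
  have hF2c : Continuous F2 :=
    (Complex.continuous_im.comp (hc2.mul (Complex.continuous_conj.comp hAc))).mul hρ
  have hF1c : Continuous F1 :=
    (Complex.continuous_im.comp (hc1.mul (Complex.continuous_conj.comp hAc))).mul hρ
  have hF0c : Continuous F0 :=
    (Complex.continuous_im.comp (hc0.mul (Complex.continuous_conj.comp hAc))).mul hρ
  have hF20 : ∀ p, p ∉ reg ℓ D.ε → F2 p = 0 := fun p hp => by simp [hF2, D.A_zero hψ hp]
  have hF10 : ∀ p, p ∉ reg ℓ D.ε → F1 p = 0 := fun p hp => by simp [hF1, D.A_zero hψ hp]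
  have hF00 : ∀ p, p ∉ reg ℓ D.ε → F0 p = 0 := fun p hp => by simp [hF0, D.A_zero hψ hp]
  have hgen : ∀ (z : ℂ) (p : T3) (B : ℝ), p ∈ reg ℓ D.ε → ‖z‖ ≤ B → 0 ≤ B →
      |(z * starRingEnd ℂ (D.A ψ p)).im * τ.ρ p| ≤ B * |CA| * R := by
    intro z p B hp hz hB
    rw [abs_mul, abs_of_pos (τ.ρ_pos p)]
    have h1 := Complex.abs_im_le_norm (z * starRingEnd ℂ (D.A ψ p))
    rw [norm_mul, RCLike.norm_conj] at h1
    have h2 : ‖z‖ * ‖D.A ψ p‖ ≤ B * |CA| :=
      mul_le_mul hz ((hCA p hp).trans (le_abs_self _)) (norm_nonneg _) hB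
    exact mul_le_mul (h1.trans h2) (hR p hp) (τ.ρ_pos p).le (by positivity)
  have hl2 := D.small_tendsto hF2c hF20 (k := 5) (j := 2) (by norm_num) (C := C2 * |CA| * R)
    (fun p hp => (hgen _ p _ hp (hb2 p hp) (by positivity)).trans (le_of_eq (by ring)))
  have hl1 := D.small_tendsto hF1c hF10 (k := 3) (j := 1) (by norm_num) (C := C1 * |CA| * R)
    (fun p hp => (hgen _ p _ hp (hb1 p hp) (by positivity)).trans (le_of_eq (by ring)))
  have hl0 := D.lim hF0c hF00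
  -- the identity for every `t`
  have hid : ∀ t : ℝ, t * ∫ p, F0 p * Real.exp (-(t * D.φ p)) =
      -(t ^ 2 * (t * ∫ p, F2 p * Real.exp (-(t * D.φ p)))) -
        t ^ 1 * (t * ∫ p, F1 p * Real.exp (-(t * D.φ p))) := by
    intro t
    have hsym := sym_im τ (D.v_smooth hψ t) (D.v_compact hψ t)
    have hi0 := D.integrable hF0c hF00 t
    have hi1 := D.integrable hF1c hF10 t
    have hi2 := D.integrable hF2c hF20 t
    have hvc := (D.v_smooth hψ t).continuous
    have hint : Integrable (fun p => τ.L (D.v ψ t) p * starRingEnd ℂ (D.v ψ t p) * (τ.ρ p : ℂ)) := by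
      refine Continuous.integrable_of_hasCompactSupport ?_ ?_
      · exact ((L_contDiff' τ (D.v_smooth hψ t)).continuous.mul
          (Complex.continuous_conj.comp hvc)).mul (Complex.continuous_ofReal.comp hρ)
      · refine HasCompactSupport.intro (reg_compact ℓ D.ε) fun p hp => ?_
        rw [D.v_zero hψ t hp, map_zero, mul_zero, zero_mul]
    have him : (∫ p, τ.L (D.v ψ t) p * starRingEnd ℂ (D.v ψ t p) * (τ.ρ p : ℂ)).im =
        ∫ p, (τ.L (D.v ψ t) p * starRingEnd ℂ (D.v ψ t p) * (τ.ρ p : ℂ)).im := by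
      have := (integral_im hint).symm
      exact this
    have hpt : ∀ p, (τ.L (D.v ψ t) p * starRingEnd ℂ (D.v ψ t p) * (τ.ρ p : ℂ)).im =
        t ^ 2 * (F2 p * Real.exp (-(t * D.φ p))) + t * (F1 p * Real.exp (-(t * D.φ p))) +
          F0 p * Real.exp (-(t * D.φ p)) := by
      intro p
      have hf := D.formula hψ t p
      have hL : τ.L (D.v ψ t) p = Complex.exp (Complex.I * t * D.Φ p) * D.P ψ t p + t * D.v ψ t p := by
        rw [← hf]; ring
      have hE : Complex.exp (Complex.I * t * D.Φ p) *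
          starRingEnd ℂ (Complex.exp (Complex.I * t * D.Φ p)) = ((Real.exp (-(t * D.φ p)) : ℝ) : ℂ) := by
        rw [Complex.mul_conj, Complex.normSq_eq_norm_sq, D.norm_exp_sq]
      have hvv : D.v ψ t p * starRingEnd ℂ (D.v ψ t p) = ((‖D.v ψ t p‖ ^ 2 : ℝ) : ℂ) := by
        rw [Complex.mul_conj, Complex.normSq_eq_norm_sq]
      have h1 : τ.L (D.v ψ t) p * starRingEnd ℂ (D.v ψ t p) * (τ.ρ p : ℂ) =
          ((Real.exp (-(t * D.φ p)) * τ.ρ p : ℝ) : ℂ) * (D.P ψ t p * starRingEnd ℂ (D.A ψ p)) +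
            ((t * ‖D.v ψ t p‖ ^ 2 * τ.ρ p : ℝ) : ℂ) := by
        rw [hL]
        have h2 : starRingEnd ℂ (D.v ψ t p) =
            starRingEnd ℂ (Complex.exp (Complex.I * t * D.Φ p)) * starRingEnd ℂ (D.A ψ p) := by
          unfold v; rw [map_mul]
        calc (Complex.exp (Complex.I * t * D.Φ p) * D.P ψ t p + t * D.v ψ t p) *
              starRingEnd ℂ (D.v ψ t p) * (τ.ρ p : ℂ)
            = (Complex.exp (Complex.I * t * D.Φ p) * D.P ψ t p * starRingEnd ℂ (D.v ψ t p) +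
                t * (D.v ψ t p * starRingEnd ℂ (D.v ψ t p))) * (τ.ρ p : ℂ) := by ring
          _ = ((Complex.exp (Complex.I * t * D.Φ p) *
                starRingEnd ℂ (Complex.exp (Complex.I * t * D.Φ p))) * (D.P ψ t p *
                  starRingEnd ℂ (D.A ψ p)) +
                t * (D.v ψ t p * starRingEnd ℂ (D.v ψ t p))) * (τ.ρ p : ℂ) := by rw [h2]; ring
          _ = _ := by rw [hE, hvv]; push_cast; ring
      rw [h1, Complex.add_im, Complex.ofReal_im, add_zero, Complex.im_ofReal_mul]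
      have h3 : (D.P ψ t p * starRingEnd ℂ (D.A ψ p)).im =
          t ^ 2 * (c2 τ.w D.Φ (D.A ψ) p * starRingEnd ℂ (D.A ψ p)).im +
            t * (c1 τ.w τ.mu τ.nu D.Φ (D.A ψ) p * starRingEnd ℂ (D.A ψ p)).im +
            (c0 τ.w τ.mu τ.nu τ.om (D.A ψ) p * starRingEnd ℂ (D.A ψ p)).im := by
        have h4 : D.P ψ t p * starRingEnd ℂ (D.A ψ p) =
            ((t ^ 2 : ℝ) : ℂ) * (c2 τ.w D.Φ (D.A ψ) p * starRingEnd ℂ (D.A ψ p)) +
              (t : ℂ) * (c1 τ.w τ.mu τ.nu D.Φ (D.A ψ) p * starRingEnd ℂ (D.A ψ p)) +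
              c0 τ.w τ.mu τ.nu τ.om (D.A ψ) p * starRingEnd ℂ (D.A ψ p) := by
          unfold P; push_cast; ring
        rw [h4, Complex.add_im, Complex.add_im, Complex.im_ofReal_mul, Complex.im_ofReal_mul]
      rw [h3]
      simp only [hF2, hF1, hF0]
      ring
    rw [hsym] at him
    rw [integral_congr_ae (Eventually.of_forall hpt)] at him
    have e1 : ∫ a, (t ^ 2 * (F2 a * Real.exp (-(t * D.φ a))) + t * (F1 a * Real.exp (-(t * D.φ a))) +
        F0 a * Real.exp (-(t * D.φ a))) =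
        (∫ a, (t ^ 2 * (F2 a * Real.exp (-(t * D.φ a))) + t * (F1 a * Real.exp (-(t * D.φ a))))) +
          ∫ a, F0 a * Real.exp (-(t * D.φ a)) :=
      integral_add (f := fun a => t ^ 2 * (F2 a * Real.exp (-(t * D.φ a))) +
        t * (F1 a * Real.exp (-(t * D.φ a)))) ((hi2.const_mul _).add (hi1.const_mul _)) hi0
    rw [e1, integral_add (hi2.const_mul _) (hi1.const_mul _), integral_const_mul,
      integral_const_mul] at him
    set I2 := ∫ p, F2 p * Real.exp (-(t * D.φ p))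
    set I1 := ∫ p, F1 p * Real.exp (-(t * D.φ p))
    set I0 := ∫ p, F0 p * Real.exp (-(t * D.φ p))
    have h8 : I0 = -(t ^ 2 * I2) - t * I1 := by linarith
    rw [h8]
    ring
  have hl : Tendsto (fun t : ℝ => t * ∫ p, F0 p * Real.exp (-(t * D.φ p))) atTop (𝓝 0) := by
    have h := (hl2.neg).sub hl1
    rw [neg_zero, sub_zero] at h
    refine h.congr fun t => ?_
    rw [hid t]
  have huniq := tendsto_nhds_unique hl0 hl
  have hval : ∫ s : ℝ, F0 (s, 0, 0) * G τ s = -∫ s, ψ s * deriv ψ s * D.N s := by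
    rw [← integral_neg]
    refine integral_congr_ae (Eventually.of_forall fun s => ?_)
    simp only [hF0, D.c0_axis hψ, D.A_axis hψ, N]
    have h6 : -(Complex.I * ((deriv ψ s : ℝ) : ℂ) * D.a₀ s) * starRingEnd ℂ ((ψ s : ℂ) * D.a₀ s) =
        -(((ψ s * deriv ψ s * ‖D.a₀ s‖ ^ 2 : ℝ) : ℂ) * Complex.I) := by
      rw [map_mul, Complex.conj_ofReal]
      have h7 : D.a₀ s * starRingEnd ℂ (D.a₀ s) = ((‖D.a₀ s‖ ^ 2 : ℝ) : ℂ) := by
        rw [Complex.mul_conj, Complex.normSq_eq_norm_sq]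
      calc -(Complex.I * ((deriv ψ s : ℝ) : ℂ) * D.a₀ s) * ((ψ s : ℂ) * starRingEnd ℂ (D.a₀ s))
          = -(((ψ s : ℝ) : ℂ) * ((deriv ψ s : ℝ) : ℂ) * (D.a₀ s * starRingEnd ℂ (D.a₀ s)) *
              Complex.I) := by ring
        _ = _ := by rw [h7]; push_cast; ring
    rw [h6, Complex.neg_im, Complex.im_ofReal_mul, Complex.I_im]
    ring
  rw [hval] at huniq
  linarith

end QD
end Pool.Agent.SRGap
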