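import Pool.Agent.Work.MP_188050_an.Tube

/-!
# Module 15, part A: the functions `P, Q, R, g₁, g₂` of a cometric on `ℝ × ℝ × ℝ`
-/

open Set MeasureTheory Filter Topology VectorField
open scoped Manifold ContDiff

namespace Pool.Agent.SRGap

/-- `ds` -/
noncomputable def dS : T3 →L[ℝ] ℝ := ContinuousLinearMap.fst ℝ ℝ (ℝ × ℝ)
/-- `dx` -/
noncomputable def dX : T3 →L[ℝ] ℝ :=
  (ContinuousLinearMap.fst ℝ ℝ ℝ).comp (ContinuousLinearMap.snd ℝ ℝ (ℝ × ℝ))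
/-- `dy` -/
noncomputable def dY : T3 →L[ℝ] ℝ :=
  (ContinuousLinearMap.snd ℝ ℝ ℝ).comp (ContinuousLinearMap.snd ℝ ℝ (ℝ × ℝ))

@[simp] theorem dS_apply (v : T3) : dS v = v.1 := rfl
@[simp] theorem dX_apply (v : T3) : dX v = v.2.1 := rfl
@[simp] theorem dY_apply (v : T3) : dY v = v.2.2 := rfl

/-- every covector -/
theorem covector_apply (ξ : T3 →L[ℝ] ℝ) (v : T3) :
    ξ v = ξ (1, 0, 0) * v.1 + ξ (0, 1, 0) * v.2.1 + ξ (0, 0, 1) * v.2.2 := by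
  have h : v = v.1 • ((1, 0, 0) : T3) + v.2.1 • ((0, 1, 0) : T3) + v.2.2 • ((0, 0, 1) : T3) := by
    ext <;> simp
  conv_lhs => rw [h]
  simp only [map_add, map_smul, smul_eq_mul]
  ring

section

variable (Gc : T3 → (T3 →L[ℝ] ℝ) → (T3 →L[ℝ] ℝ) → ℝ)

/-- `P = Gc(dx,dx)` -/
noncomputable def gP (p : T3) : ℝ := Gc p dX dX
/-- `Q = Gc(dx,dy)` -/
noncomputable def gQ (p : T3) : ℝ := Gc p dX dY
/-- `R = Gc(dy,dy)` -/
noncomputable def gR (p : T3) : ℝ := Gc p dY dY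
/-- `F₁ = Gc(ds,dx)` -/
noncomputable def gF1 (p : T3) : ℝ := Gc p dS dX
/-- `F₂ = Gc(ds,dy)` -/
noncomputable def gF2 (p : T3) : ℝ := Gc p dS dY
/-- `P R - Q ^ 2` -/
noncomputable def gD (p : T3) : ℝ := gP Gc p * gR Gc p - gQ Gc p ^ 2
/-- `g₁` -/
noncomputable def g1 (p : T3) : ℝ := (gF1 Gc p * gR Gc p - gF2 Gc p * gQ Gc p) / gD Gc p
/-- `g₂` -/
noncomputable def g2 (p : T3) : ℝ := (gF2 Gc p * gP Gc p - gF1 Gc p * gQ Gc p) / gD Gc p

end

namespace EFrame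

variable {Gc : T3 → (T3 →L[ℝ] ℝ) → (T3 →L[ℝ] ℝ) → ℝ} {X Y : T3 → T3} {U : Set T3}

/-- the determinant of the frame -/
def fdet (X Y : T3 → T3) (p : T3) : ℝ := (X p).2.1 * (Y p).2.2 - (X p).2.2 * (Y p).2.1

theorem fdet_ne (h : EFrame Gc X Y U) {p : T3} (hp : p ∈ U) : fdet X Y p ≠ 0 := by
  intro h0
  have hind := Fintype.linearIndependent_iff.1 (h.indep p hp)
  have key : ∀ a b c : ℝ, a + b * (X p).1 + c * (Y p).1 = 0 →
      b * (X p).2.1 + c * (Y p).2.1 = 0 → b * (X p).2.2 + c * (Y p).2.2 = 0 → a = 0 ∧ b = 0 ∧ c = 0 := by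
    intro a b c e1 e2 e3
    have hs : ∑ i, ![a, b, c] i • (![((1, 0, 0) : T3), X p, Y p] i) = 0 := by
      rw [Fin.sum_univ_three]
      simp only [Matrix.cons_val_zero, Matrix.cons_val_one, Matrix.cons_val]
      ext
      · simp; linarith
      · simp; linarith
      · simp; linarith
    have := hind ![a, b, c] hs
    exact ⟨by simpa using this 0, by simpa using this 1, by simpa using this 2⟩
  unfold fdet at h0
  obtain ⟨-, e1, e2⟩ := key (-((Y p).2.2 * (X p).1 - (X p).2.2 * (Y p).1)) (Y p).2.2 (-(X p).2.2)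
    (by ring) (by linarith) (by ring)
  obtain ⟨-, e3, e4⟩ := key (-((Y p).2.1 * (X p).1 - (X p).2.1 * (Y p).1)) (Y p).2.1 (-(X p).2.1)
    (by ring) (by ring) (by linarith)
  have e2' : (X p).2.2 = 0 := by linarith
  have e4' : (X p).2.1 = 0 := by linarith
  obtain ⟨-, e5, -⟩ := key (-(X p).1) 1 0 (by ring) (by rw [e4']; ring) (by rw [e2']; ring)
  exact one_ne_zero e5

theorem gP_eq (h : EFrame Gc X Y U) {p : T3} (hp : p ∈ U) :
    gP Gc p = (X p).2.1 * (X p).2.1 + (Y p).2.1 * (Y p).2.1 := by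
  rw [gP, h.cometric p hp]; rfl

theorem gQ_eq (h : EFrame Gc X Y U) {p : T3} (hp : p ∈ U) :
    gQ Gc p = (X p).2.1 * (X p).2.2 + (Y p).2.1 * (Y p).2.2 := by
  rw [gQ, h.cometric p hp]; rfl

theorem gR_eq (h : EFrame Gc X Y U) {p : T3} (hp : p ∈ U) :
    gR Gc p = (X p).2.2 * (X p).2.2 + (Y p).2.2 * (Y p).2.2 := by
  rw [gR, h.cometric p hp]; rfl

theorem gF1_eq (h : EFrame Gc X Y U) {p : T3} (hp : p ∈ U) :
    gF1 Gc p = (X p).1 * (X p).2.1 + (Y p).1 * (Y p).2.1 := by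
  rw [gF1, h.cometric p hp]; rfl

theorem gF2_eq (h : EFrame Gc X Y U) {p : T3} (hp : p ∈ U) :
    gF2 Gc p = (X p).1 * (X p).2.2 + (Y p).1 * (Y p).2.2 := by
  rw [gF2, h.cometric p hp]; rfl

theorem gD_eq (h : EFrame Gc X Y U) {p : T3} (hp : p ∈ U) :
    gD Gc p = fdet X Y p ^ 2 := by
  rw [gD, h.gP_eq hp, h.gQ_eq hp, h.gR_eq hp, fdet]; ring

theorem gD_pos (h : EFrame Gc X Y U) {p : T3} (hp : p ∈ U) : 0 < gD Gc p := by
  rw [h.gD_eq hp]
  have := h.fdet_ne hp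
  positivity

theorem gP_pos (h : EFrame Gc X Y U) {p : T3} (hp : p ∈ U) : 0 < gP Gc p := by
  have h1 : 0 ≤ gP Gc p := by
    rw [h.gP_eq hp]
    nlinarith [mul_self_nonneg (X p).2.1, mul_self_nonneg (Y p).2.1]
  rcases h1.lt_or_eq with h2 | h2
  · exact h2
  · exfalso
    have h3 := h.gD_pos hp
    rw [gD, ← h2] at h3
    nlinarith [sq_nonneg (gQ Gc p)]

/-- `X^s = g₁ X^x + g₂ X^y` -/
theorem X_eq (h : EFrame Gc X Y U) {p : T3} (hp : p ∈ U) :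
    (X p).1 = g1 Gc p * (X p).2.1 + g2 Gc p * (X p).2.2 := by
  have h0 := (h.gD_pos hp).ne'
  rw [g1, g2]
  rw [div_mul_eq_mul_div, div_mul_eq_mul_div, ← add_div, eq_div_iff h0, h.gD_eq hp, h.gP_eq hp,
    h.gQ_eq hp, h.gR_eq hp, h.gF1_eq hp, h.gF2_eq hp, fdet]
  ring

/-- `Y^s = g₁ Y^x + g₂ Y^y` -/
theorem Y_eq (h : EFrame Gc X Y U) {p : T3} (hp : p ∈ U) :
    (Y p).1 = g1 Gc p * (Y p).2.1 + g2 Gc p * (Y p).2.2 := by
  have h0 := (h.gD_pos hp).ne'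
  rw [g1, g2]
  rw [div_mul_eq_mul_div, div_mul_eq_mul_div, ← add_div, eq_div_iff h0, h.gD_eq hp, h.gP_eq hp,
    h.gQ_eq hp, h.gR_eq hp, h.gF1_eq hp, h.gF2_eq hp, fdet]
  ring

/-- the cometric in terms of `P, Q, R, g₁, g₂` -/
theorem cometric_eq (h : EFrame Gc X Y U) {p : T3} (hp : p ∈ U) (ξ η : T3 →L[ℝ] ℝ) :
    Gc p ξ η = gP Gc p * ((ξ (0, 1, 0) + g1 Gc p * ξ (1, 0, 0)) * (η (0, 1, 0) + g1 Gc p * η (1, 0, 0))) +
      gQ Gc p * ((ξ (0, 1, 0) + g1 Gc p * ξ (1, 0, 0)) * (η (0, 0, 1) + g2 Gc p * η (1, 0, 0)) +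
        (ξ (0, 0, 1) + g2 Gc p * ξ (1, 0, 0)) * (η (0, 1, 0) + g1 Gc p * η (1, 0, 0))) +
      gR Gc p * ((ξ (0, 0, 1) + g2 Gc p * ξ (1, 0, 0)) * (η (0, 0, 1) + g2 Gc p * η (1, 0, 0))) := by
  rw [h.cometric p hp, covector_apply ξ (X p), covector_apply ξ (Y p), covector_apply η (X p),
    covector_apply η (Y p), h.X_eq hp, h.Y_eq hp, h.gP_eq hp, h.gQ_eq hp, h.gR_eq hp]
  ring

theorem contDiffAt_X (h : EFrame Gc X Y U) {p : T3} (hp : p ∈ U) : ContDiffAt ℝ ∞ X p :=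
  h.smooth_X.contDiffAt (h.isOpen.mem_nhds hp)

theorem contDiffAt_Y (h : EFrame Gc X Y U) {p : T3} (hp : p ∈ U) : ContDiffAt ℝ ∞ Y p :=
  h.smooth_Y.contDiffAt (h.isOpen.mem_nhds hp)

theorem contDiffAt_gP (h : EFrame Gc X Y U) {p : T3} (hp : p ∈ U) : ContDiffAt ℝ ∞ (gP Gc) p := by
  have hX := h.contDiffAt_X hp
  have hY := h.contDiffAt_Y hp
  have : ContDiffAt ℝ ∞ (fun p => (X p).2.1 * (X p).2.1 + (Y p).2.1 * (Y p).2.1) p :=
    (hX.snd.fst.mul hX.snd.fst).add (hY.snd.fst.mul hY.snd.fst)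
  refine this.congr_of_eventuallyEq ?_
  filter_upwards [h.isOpen.mem_nhds hp] with q hq using h.gP_eq hq

theorem contDiffAt_gQ (h : EFrame Gc X Y U) {p : T3} (hp : p ∈ U) : ContDiffAt ℝ ∞ (gQ Gc) p := by
  have hX := h.contDiffAt_X hp
  have hY := h.contDiffAt_Y hp
  have : ContDiffAt ℝ ∞ (fun p => (X p).2.1 * (X p).2.2 + (Y p).2.1 * (Y p).2.2) p :=
    (hX.snd.fst.mul hX.snd.snd).add (hY.snd.fst.mul hY.snd.snd)
  refine this.congr_of_eventuallyEq ?_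
  filter_upwards [h.isOpen.mem_nhds hp] with q hq using h.gQ_eq hq

theorem contDiffAt_gR (h : EFrame Gc X Y U) {p : T3} (hp : p ∈ U) : ContDiffAt ℝ ∞ (gR Gc) p := by
  have hX := h.contDiffAt_X hp
  have hY := h.contDiffAt_Y hp
  have : ContDiffAt ℝ ∞ (fun p => (X p).2.2 * (X p).2.2 + (Y p).2.2 * (Y p).2.2) p :=
    (hX.snd.snd.mul hX.snd.snd).add (hY.snd.snd.mul hY.snd.snd)
  refine this.congr_of_eventuallyEq ?_
  filter_upwards [h.isOpen.mem_nhds hp] with q hq using h.gR_eq hq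

theorem contDiffAt_gF1 (h : EFrame Gc X Y U) {p : T3} (hp : p ∈ U) :
    ContDiffAt ℝ ∞ (gF1 Gc) p := by
  have hX := h.contDiffAt_X hp
  have hY := h.contDiffAt_Y hp
  have : ContDiffAt ℝ ∞ (fun p => (X p).1 * (X p).2.1 + (Y p).1 * (Y p).2.1) p :=
    (hX.fst.mul hX.snd.fst).add (hY.fst.mul hY.snd.fst)
  refine this.congr_of_eventuallyEq ?_
  filter_upwards [h.isOpen.mem_nhds hp] with q hq using h.gF1_eq hq

theorem contDiffAt_gF2 (h : EFrame Gc X Y U) {p : T3} (hp : p ∈ U) :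
    ContDiffAt ℝ ∞ (gF2 Gc) p := by
  have hX := h.contDiffAt_X hp
  have hY := h.contDiffAt_Y hp
  have : ContDiffAt ℝ ∞ (fun p => (X p).1 * (X p).2.2 + (Y p).1 * (Y p).2.2) p :=
    (hX.fst.mul hX.snd.snd).add (hY.fst.mul hY.snd.snd)
  refine this.congr_of_eventuallyEq ?_
  filter_upwards [h.isOpen.mem_nhds hp] with q hq using h.gF2_eq hq

theorem contDiffAt_gD (h : EFrame Gc X Y U) {p : T3} (hp : p ∈ U) : ContDiffAt ℝ ∞ (gD Gc) p :=
  ((h.contDiffAt_gP hp).mul (h.contDiffAt_gR hp)).sub ((h.contDiffAt_gQ hp).pow 2)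

theorem contDiffAt_g1 (h : EFrame Gc X Y U) {p : T3} (hp : p ∈ U) : ContDiffAt ℝ ∞ (g1 Gc) p :=
  (((h.contDiffAt_gF1 hp).mul (h.contDiffAt_gR hp)).sub
    ((h.contDiffAt_gF2 hp).mul (h.contDiffAt_gQ hp))).div (h.contDiffAt_gD hp) (h.gD_pos hp).ne'

theorem contDiffAt_g2 (h : EFrame Gc X Y U) {p : T3} (hp : p ∈ U) : ContDiffAt ℝ ∞ (g2 Gc) p :=
  (((h.contDiffAt_gF2 hp).mul (h.contDiffAt_gP hp)).sub
    ((h.contDiffAt_gF1 hp).mul (h.contDiffAt_gQ hp))).div (h.contDiffAt_gD hp) (h.gD_pos hp).ne'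

/-- differentiated form of `X_eq`. -/
theorem deriv_X (h : EFrame Gc X Y U) {p : T3} (hp : p ∈ U) (v : T3) :
    (fderiv ℝ X p v).1 - g1 Gc p * (fderiv ℝ X p v).2.1 - g2 Gc p * (fderiv ℝ X p v).2.2 =
      fderiv ℝ (g1 Gc) p v * (X p).2.1 + fderiv ℝ (g2 Gc) p v * (X p).2.2 := by
  have hX : HasFDerivAt X (fderiv ℝ X p) p :=
    ((h.contDiffAt_X hp).differentiableAt (by simp)).hasFDerivAt
  have h1 : HasFDerivAt (g1 Gc) (fderiv ℝ (g1 Gc) p) p :=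
    ((h.contDiffAt_g1 hp).differentiableAt (by simp)).hasFDerivAt
  have h2 : HasFDerivAt (g2 Gc) (fderiv ℝ (g2 Gc) p) p :=
    ((h.contDiffAt_g2 hp).differentiableAt (by simp)).hasFDerivAt
  have e1 := hX.fst
  have e2 := (h1.mul hX.snd.fst).add (h2.mul hX.snd.snd)
  have e3 := e2.congr_of_eventuallyEq (f₁ := fun q => (X q).1) (by
    filter_upwards [h.isOpen.mem_nhds hp] with q hq using h.X_eq hq)
  have e4 := congrArg (fun L => L v) (e1.unique e3)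
  simp only [ContinuousLinearMap.comp_apply, add_apply,
    smul_apply, ContinuousLinearMap.coe_fst', ContinuousLinearMap.coe_snd',
    smul_eq_mul] at e4
  rw [e4]
  ring

/-- differentiated form of `Y_eq`. -/
theorem deriv_Y (h : EFrame Gc X Y U) {p : T3} (hp : p ∈ U) (v : T3) :
    (fderiv ℝ Y p v).1 - g1 Gc p * (fderiv ℝ Y p v).2.1 - g2 Gc p * (fderiv ℝ Y p v).2.2 =
      fderiv ℝ (g1 Gc) p v * (Y p).2.1 + fderiv ℝ (g2 Gc) p v * (Y p).2.2 := by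
  have hX : HasFDerivAt Y (fderiv ℝ Y p) p :=
    ((h.contDiffAt_Y hp).differentiableAt (by simp)).hasFDerivAt
  have h1 : HasFDerivAt (g1 Gc) (fderiv ℝ (g1 Gc) p) p :=
    ((h.contDiffAt_g1 hp).differentiableAt (by simp)).hasFDerivAt
  have h2 : HasFDerivAt (g2 Gc) (fderiv ℝ (g2 Gc) p) p :=
    ((h.contDiffAt_g2 hp).differentiableAt (by simp)).hasFDerivAt
  have e1 := hX.fst
  have e2 := (h1.mul hX.snd.fst).add (h2.mul hX.snd.snd)
  have e3 := e2.congr_of_eventuallyEq (f₁ := fun q => (Y q).1) (by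
    filter_upwards [h.isOpen.mem_nhds hp] with q hq using h.Y_eq hq)
  have e4 := congrArg (fun L => L v) (e1.unique e3)
  simp only [ContinuousLinearMap.comp_apply, add_apply,
    smul_apply, ContinuousLinearMap.coe_fst', ContinuousLinearMap.coe_snd',
    smul_eq_mul] at e4
  rw [e4]
  ring

/-- the contact form vanishes on the span of the frame. -/
theorem theta_span (h : EFrame Gc X Y U) {p : T3} (hp : p ∈ U) {v : T3}
    (hv : v ∈ Submodule.span ℝ {X p, Y p}) :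
    v.1 - g1 Gc p * v.2.1 - g2 Gc p * v.2.2 = 0 := by
  obtain ⟨a, b, rfl⟩ := Submodule.mem_span_pair.1 hv
  have e1 := h.X_eq hp
  have e2 := h.Y_eq hp
  simp only [Prod.fst_add, Prod.smul_fst, smul_eq_mul, Prod.snd_add, Prod.smul_snd]
  rw [e1, e2]
  ring

theorem fderiv_g_s (h : EFrame Gc X Y U) {p : T3} (hp : p ∈ U) :
    fderiv ℝ (g1 Gc) p (1, 0, 0) = 0 ∧ fderiv ℝ (g2 Gc) p (1, 0, 0) = 0 := by
  have hbX := h.theta_span hp (h.bracket_X p hp)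
  have hbY := h.theta_span hp (h.bracket_Y p hp)
  have eX : lieBracket ℝ (fun _ => ((1, 0, 0) : T3)) X p = fderiv ℝ X p (1, 0, 0) := by
    simp [lieBracket]
  have eY : lieBracket ℝ (fun _ => ((1, 0, 0) : T3)) Y p = fderiv ℝ Y p (1, 0, 0) := by
    simp [lieBracket]
  rw [eX, h.deriv_X hp] at hbX
  rw [eY, h.deriv_Y hp] at hbY
  have hd := h.fdet_ne hp
  unfold fdet at hd
  constructor
  · have : fderiv ℝ (g1 Gc) p (1, 0, 0) * ((X p).2.1 * (Y p).2.2 - (X p).2.2 * (Y p).2.1) = 0 := by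
      linear_combination (Y p).2.2 * hbX - (X p).2.2 * hbY
    exact (mul_eq_zero.1 this).resolve_right hd
  · have : fderiv ℝ (g2 Gc) p (1, 0, 0) * ((X p).2.1 * (Y p).2.2 - (X p).2.2 * (Y p).2.1) = 0 := by
      linear_combination (X p).2.1 * hbY - (Y p).2.1 * hbX
    exact (mul_eq_zero.1 this).resolve_right hd

theorem det_curl (h : EFrame Gc X Y U) {p : T3} (hp : p ∈ U) :
    fdet X Y p * (fderiv ℝ (g1 Gc) p (0, 0, 1) - fderiv ℝ (g2 Gc) p (0, 1, 0)) = 1 := by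
  have hb := h.theta_span hp (h.bracket p hp)
  obtain ⟨hs1, hs2⟩ := h.fderiv_g_s hp
  have e1 := h.deriv_Y hp (X p)
  have e2 := h.deriv_X hp (Y p)
  have c1X := covector_apply (fderiv ℝ (g1 Gc) p) (X p)
  have c2X := covector_apply (fderiv ℝ (g2 Gc) p) (X p)
  have c1Y := covector_apply (fderiv ℝ (g1 Gc) p) (Y p)
  have c2Y := covector_apply (fderiv ℝ (g2 Gc) p) (Y p)
  rw [hs1] at c1X c1Y
  rw [hs2] at c2X c2Y
  rw [c1X, c2X] at e1
  rw [c1Y, c2Y] at e2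
  have hl : lieBracket ℝ X Y p = fderiv ℝ Y p (X p) - fderiv ℝ X p (Y p) := rfl
  rw [hl] at hb
  simp only [Prod.fst_add, Prod.fst_sub, Prod.snd_add, Prod.snd_sub] at hb
  unfold fdet
  linear_combination e1 - e2 - hb

end EFrame

end Pool.Agent.SRGap
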